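import Pool.Graph.R_pool_sql_team_seeded_620a6dc7.helper24_UT_.Zsx
import Pool.Graph.R_pool_sql_team_seeded_620a6dc7.helper24_UT_.T1
import Pool.Graph.R_pool_sql_team_seeded_620a6dc7.helper24_UT_.Rs
import Pool.Graph.R_pool_sql_team_seeded_620a6dc7.helper24_UT_.Rz
import Pool.Graph.R_pool_sql_team_seeded_620a6dc7.helper24_UT_.Fb
import Pool.Graph.R_pool_sql_team_seeded_620a6dc7.helper24_UT_.T341
import Pool.Graph.R_pool_sql_team_seeded_620a6dc7.helper24_UT_.Conv
import Pool.Graph.R_pool_sql_team_seeded_620a6dc7.helper24_UT_.Gb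
import Pool.Graph.R_pool_sql_team_seeded_620a6dc7.helper24_UT_.Riesz
import Pool.Graph.R_pool_sql_team_seeded_620a6dc7.helper24_UT_.Pg
import Pool.Graph.R_pool_sql_team_seeded_620a6dc7.helper24_UT_.P1
import Pool.Graph.R_pool_sql_team_seeded_620a6dc7.helper24_UT_.M1
import Pool.Graph.R_pool_sql_team_seeded_620a6dc7.helper24_UT_.Pap
import Pool.Graph.R_pool_sql_team_seeded_620a6dc7.helper24_UT_.Win
import Pool.Graph.R_pool_sql_team_seeded_620a6dc7.helper24_UT_.Hb
import Pool.Graph.R_pool_sql_team_seeded_620a6dc7.helper24_UT_.Vdc2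
import Pool.Graph.R_pool_sql_team_seeded_620a6dc7.helper24_UT_.Ii13
import Pool.Graph.R_pool_sql_team_seeded_620a6dc7.helper24_UT_.Ti13
import Pool.Graph.R_pool_sql_team_seeded_620a6dc7.helper24_UT_.I213
import Pool.Graph.R_pool_sql_team_seeded_620a6dc7.helper24_UT_.Frl13
import Pool.Graph.R_pool_sql_team_seeded_620a6dc7.helper24_UT_.Fr13
import Pool.Graph.R_pool_sql_team_seeded_620a6dc7.helper24_UT_.Sil13
import Pool.Graph.R_pool_sql_team_seeded_620a6dc7.helper24_UT_.Si13

/-!
Project HW (helper567), part 21: primes minus sieve model in progressions with a small modulus and short intervals.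
Assembly of the modules of the library.
-/

set_option autoImplicit false

namespace Pool.Agent.H567.HW

open Pool.Agent.helper24_UT

theorem u_T1 : S_T1 := T1.main Zsx.main
theorem u_GB : S_GB := Gb.main Rs.main Rz.main (Fb.main Rz.main) T341.main Conv.main
theorem u_PG : S_PG := Pg.main u_GB Riesz.main
theorem u_P1 : S_P1 := P1.main u_T1 u_PG
theorem u_M1 : S_M1 := M1.main u_P1
theorem u_MAP : S_MAP := (Pap.main u_P1 u_M1).2
theorem u_II13 : S_II13 := Ii13.main u_MAP u_T1
theorem u_I213 : S_I213 := I213.main Vdc2.main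
theorem u_FRL13 : S_FRL13 := Frl13.main Hb.main u_II13 Ti13.main u_I213
theorem u_FR13 : S_FR13 := Fr13.main u_FRL13
theorem u_SIL13 : S_SIL13 := Sil13.main Win.main u_FR13
theorem u_SI13 : S_SI13 := Si13.main u_SIL13

end Pool.Agent.H567.HW
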