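import Pool.Agent.H567.HW.WNon
import Pool.Agent.H567.HW.SI13

/-!
Project HW (helper567), part 22: characters of small conductor.
-/

set_option autoImplicit false

namespace Pool.Agent.H567.HW

open Finset
open Pool.Agent.Y883.GJ (LA)
open Pool.Agent.H807R2.Dav (ee)
open Pool.Agent.H373R2.T7 (lamz Vz Vz_pos lamz_nonneg mem_pz)
open Pool.Agent.Y614.GJ.Core (ev_log)

/-- from a character to the primitive character, one window -/
lemma char_splitW {q u W : ℕ} [NeZero q] (G : ℕ → ℂ) (χ : DirichletCharacter ℂ q) (T₂ : ℝ)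
    (h2 : ∑ n ∈ (Ioc u (u + W)).filter (fun n => ¬ n.Coprime q), ‖G n‖ ≤ T₂) :
    ‖∑ n ∈ Ioc u (u + W), G n * χ (n : ZMod q)‖ ≤
      ‖∑ n ∈ Ioc u (u + W), G n * χ.primitiveCharacter (n : ZMod χ.conductor)‖ + T₂ := by
  obtain ⟨ψ, hψ⟩ : ∃ ψ, ψ = χ.primitiveCharacter := ⟨_, rfl⟩
  rw [← hψ]
  have hcs : ∑ n ∈ Ioc u (u + W), G n * χ (n : ZMod q) = ∑ n ∈ Ioc u (u + W), G n * ψ (n : ZMod χ.conductor) -
      ∑ n ∈ (Ioc u (u + W)).filter (fun n => ¬ n.Coprime q), G n * ψ (n : ZMod χ.conductor) := by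
    rw [← Finset.sum_filter_add_sum_filter_not (Ioc u (u + W)) (fun n => n.Coprime q)
      (fun n => G n * ψ (n : ZMod χ.conductor)), add_sub_cancel_right]
    rw [← Finset.sum_filter_add_sum_filter_not (Ioc u (u + W)) (fun n => n.Coprime q)]
    have h3 : ∑ n ∈ (Ioc u (u + W)).filter (fun n => ¬ n.Coprime q), G n * χ (n : ZMod q) = 0 := by
      refine Finset.sum_eq_zero fun n hn => ?_
      rw [Finset.mem_filter] at hn
      have : χ (n : ZMod q) = 0 := by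
        apply χ.map_nonunit
        rw [ZMod.isUnit_iff_coprime]
        exact hn.2
      rw [this, mul_zero]
    rw [h3, add_zero]
    refine Finset.sum_congr rfl fun n hn => ?_
    rw [Finset.mem_filter] at hn
    have h4 := DirichletCharacter.primitiveCharacter_apply_of_isCoprime χ (a := (n : ℤ))
      (Nat.isCoprime_iff_coprime.2 hn.2)
    rw [Int.cast_natCast, Int.cast_natCast] at h4
    rw [hψ, ← h4]
  have hrest : ‖∑ n ∈ (Ioc u (u + W)).filter (fun n => ¬ n.Coprime q), G n * ψ (n : ZMod χ.conductor)‖ ≤ T₂ := by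
    refine (norm_sum_le _ _).trans (le_trans ?_ h2)
    refine Finset.sum_le_sum fun n _ => ?_
    rw [norm_mul]
    exact mul_le_of_le_one_right (norm_nonneg _) (DirichletCharacter.norm_le_one _ _)
  rw [hcs]
  exact (norm_sub_le _ _).trans (add_le_add le_rfl hrest)

/-- the sum with a primitive character and the sums over the classes -/
lemma prim_NN {f u W z : ℕ} [NeZero f] (ψ : DirichletCharacter ℂ f) :
    ‖∑ n ∈ Ioc u (u + W), GZ z n * ψ (n : ZMod f)‖ ^ 2 ≤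
      f * Pool.Agent.helper24_UT.NN (Pool.Agent.helper24_UT.Ed z) (u : ℤ) W f := by
  have hf0 : 0 < f := Nat.pos_of_ne_zero (NeZero.ne f)
  have h2 : ∑ n ∈ Ioc u (u + W), GZ z n * ψ (n : ZMod f) =
      ∑ c ∈ range f, ψ (c : ZMod f) * ∑ n ∈ (Ioc u (u + W)).filter (fun n => n % f = c), GZ z n := by
    have e1 : ∀ n ∈ Ioc u (u + W), n % f ∈ range f := fun n _ => mem_range.2 (Nat.mod_lt _ hf0)
    rw [← sum_fiberwise_of_maps_to e1]
    refine sum_congr rfl fun c hc => ?_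
    rw [mul_sum]
    rw [mem_range] at hc
    refine sum_congr rfl fun n hn => ?_
    rw [mem_filter] at hn
    have e3 : (n : ZMod f) = (c : ZMod f) := by
      rw [ZMod.natCast_eq_natCast_iff', hn.2, Nat.mod_eq_of_lt hc]
    rw [e3]
    ring
  rw [h2]
  have h3 : ‖∑ c ∈ range f, ψ (c : ZMod f) * ∑ n ∈ (Ioc u (u + W)).filter (fun n => n % f = c), GZ z n‖ ^ 2 ≤
      ((range f).card : ℝ) * ∑ c ∈ range f,
        ‖ψ (c : ZMod f) * ∑ n ∈ (Ioc u (u + W)).filter (fun n => n % f = c), GZ z n‖ ^ 2 :=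
    (pow_le_pow_left₀ (norm_nonneg _) (norm_sum_le _ _) 2).trans sq_sum_le_card_mul_sum_sq
  refine h3.trans ?_
  rw [card_range]
  apply mul_le_mul_of_nonneg_left _ (Nat.cast_nonneg _)
  unfold Pool.Agent.helper24_UT.NN
  refine sum_le_sum fun c hc => ?_
  rw [Pool.Agent.helper24_UT.Si13.conv z u W f c]
  have h4 : ∑ n ∈ (Ioc u (u + W)).filter (fun n => n % f = c), GZ z n =
      ((∑ n ∈ (Ioc u (u + W)).filter (fun n => n % f = c), (ArithmeticFunction.vonMangoldt n - lamz z n) : ℝ) : ℂ) := by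
    push_cast
    refine sum_congr rfl fun n _ => ?_
    rw [GZ_ofReal]
    push_cast
    rfl
  rw [h4, norm_mul, Complex.norm_real, mul_pow, Real.norm_eq_abs, sq_abs]
  have h5 : ‖ψ (c : ZMod f)‖ ^ 2 ≤ 1 := by
    have := DirichletCharacter.norm_le_one ψ (c : ZMod f)
    have h0 := norm_nonneg (ψ (c : ZMod f))
    nlinarith
  exact mul_le_of_le_one_left (sq_nonneg _) h5

/-- from the short windows to the long windows: the numerical part -/
lemma up_fin {A C : ℕ} {L η : ℝ} {q Y Q W : ℕ} [NeZero q] (S : Finset (DirichletCharacter ℂ q)) (G : ℕ → ℂ)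
    (hL : 2000 ≤ L) (hQ1 : 1 ≤ Q) (hQY : Q ≤ Y) (hqW : (q : ℝ) ≤ W) (hW : 0 < W)
    (hW2 : L ^ (C + A + 7) * W ≤ Q) (hG : ∀ n, n ≤ 6 * Y → ‖G n‖ ≤ L ^ 2) (hη : |η| ≤ L ^ C / Q)
    (hE : ∑ v ∈ Ico Y (4 * Y), ∑ χ ∈ S, ‖∑ n ∈ Ioc v (v + W), G n * χ (n : ZMod q)‖ ^ 2 ≤
        12 * (Y * (W : ℝ) ^ 2 / L ^ (A + 1))) :
    ∑ u ∈ Ico Y (2 * Y), ∑ χ ∈ S, ‖∑ n ∈ Ioc u (u + Q), G n * χ (n : ZMod q) * ee (n * η)‖ ^ 2 ≤
        Y * ((Q : ℝ) ^ 2 / L ^ A) := by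
  have hL0 : 0 < L := by linarith
  have hL1 : 1 ≤ L := by linarith
  have hQ0 : (0 : ℝ) < Q := by exact_mod_cast hQ1
  have hY0 : (0 : ℝ) < Y := by exact_mod_cast (by omega : 0 < Y)
  have hW0 : (0 : ℝ) ≤ W := Nat.cast_nonneg _
  have hWQr : (W : ℝ) ≤ Q := by
    refine le_trans ?_ hW2
    exact le_mul_of_one_le_left hW0 (one_le_pow₀ hL1)
  obtain ⟨J, hJ⟩ : ∃ J, J = Q / W := ⟨_, rfl⟩
  have hJ1 : J * W ≤ Q := by rw [hJ]; exact Nat.div_mul_le_self Q W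
  have hJ2 : Q ≤ J * W + W := by
    rw [hJ]
    have h1 := Nat.div_add_mod Q W
    have h2 := Nat.mod_lt Q hW
    have h3 : Q / W * W = W * (Q / W) := Nat.mul_comm _ _
    omega
  obtain ⟨C', hC'⟩ : ∃ C', C' = C + A + 7 := ⟨_, rfl⟩
  rw [← hC'] at hW2
  have hup := win_up S G (g := L ^ 2) (η := η) (by positivity) hJ1 hJ2 (by omega)
    (fun n hn => hG n (by omega)) hE
  refine hup.trans ?_
  have hJr : (J : ℝ) * W ≤ Q := by exact_mod_cast hJ1
  have t1 : 3 * ((J : ℝ) ^ 2 * (12 * (Y * (W : ℝ) ^ 2 / L ^ (A + 1)))) ≤ Y * ((Q : ℝ) ^ 2 / L ^ A) * (36 / L) := by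
    calc 3 * ((J : ℝ) ^ 2 * (12 * (Y * (W : ℝ) ^ 2 / L ^ (A + 1)))) =
        36 * (Y / L ^ (A + 1)) * ((J : ℝ) * W) ^ 2 := by ring
      _ ≤ 36 * (Y / L ^ (A + 1)) * (Q : ℝ) ^ 2 := by gcongr
      _ = _ := by rw [pow_succ]; field_simp
  have hqQr : (q : ℝ) ≤ Q := hqW.trans hWQr
  have hWL : (W : ℝ) ≤ Q / L ^ C' := by
    rw [le_div_iff₀ (by positivity)]
    linarith
  have t2 : 3 * (((Q : ℝ) + q) * (Q * (L ^ 2 * (7 * (|η| * W))) ^ 2)) ≤ (Q : ℝ) ^ 2 / L ^ A * (300 / L) := by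
    calc 3 * (((Q : ℝ) + q) * (Q * (L ^ 2 * (7 * (|η| * W))) ^ 2)) ≤
        3 * (((Q : ℝ) + Q) * (Q * (L ^ 2 * (7 * (L ^ C / Q * (Q / L ^ C')))) ^ 2)) := by gcongr
      _ = 294 * (Q : ℝ) ^ 2 * (L ^ (C + 2) / L ^ C') ^ 2 := by
          field_simp
          ring
      _ = 294 * (Q : ℝ) ^ 2 * (1 / L ^ (A + 5)) ^ 2 := by
          have : L ^ (C + 2) / L ^ C' = 1 / L ^ (A + 5) := by
            rw [hC', div_eq_div_iff (by positivity) (by positivity), one_mul, ← pow_add]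
            congr 1
            ring
          rw [this]
      _ = (Q : ℝ) ^ 2 / L ^ A * (294 / L ^ (A + 10)) := by
          rw [div_pow, one_pow, ← pow_mul, show (A + 5) * 2 = A + (A + 10) by ring, pow_add]
          field_simp
      _ ≤ (Q : ℝ) ^ 2 / L ^ A * (300 / L) := by
          apply mul_le_mul_of_nonneg_left _ (by positivity)
          apply div_le_div₀ (by norm_num) (by norm_num) hL0
          calc L = L ^ 1 := (pow_one L).symm
            _ ≤ L ^ (A + 10) := pow_le_pow_right₀ hL1 (by omega)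
  have t3 : 3 * (((W : ℝ) + q) * (W * (L ^ 2) ^ 2)) ≤ (Q : ℝ) ^ 2 / L ^ A * (6 / L) := by
    calc 3 * (((W : ℝ) + q) * (W * (L ^ 2) ^ 2)) ≤
        3 * (((Q / L ^ C') + (Q / L ^ C')) * ((Q / L ^ C') * (L ^ 2) ^ 2)) := by
          have : (q : ℝ) ≤ Q / L ^ C' := hqW.trans hWL
          gcongr
      _ = 6 * (Q : ℝ) ^ 2 * (L ^ 2 / L ^ C') ^ 2 := by
          field_simp
          ring
      _ ≤ 6 * (Q : ℝ) ^ 2 * (1 / L ^ (A + 5)) ^ 2 := by
          have : L ^ 2 / L ^ C' ≤ 1 / L ^ (A + 5) := by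
            rw [div_le_div_iff₀ (by positivity) (by positivity), one_mul, ← pow_add]
            exact pow_le_pow_right₀ hL1 (by omega)
          gcongr
      _ = (Q : ℝ) ^ 2 / L ^ A * (6 / L ^ (A + 10)) := by
          rw [div_pow, one_pow, ← pow_mul, show (A + 5) * 2 = A + (A + 10) by ring, pow_add]
          field_simp
      _ ≤ (Q : ℝ) ^ 2 / L ^ A * (6 / L) := by
          apply mul_le_mul_of_nonneg_left _ (by positivity)
          apply div_le_div₀ (by norm_num) (by norm_num) hL0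
          calc L = L ^ 1 := (pow_one L).symm
            _ ≤ L ^ (A + 10) := pow_le_pow_right₀ hL1 (by omega)
  obtain ⟨R, hR⟩ : ∃ R, R = (Q : ℝ) ^ 2 / L ^ A := ⟨_, rfl⟩
  have hR0 : 0 ≤ R := by rw [hR]; positivity
  rw [← hR] at t1 t2 t3 ⊢
  have t4 : (Y : ℝ) * (3 * (((Q : ℝ) + q) * (Q * (L ^ 2 * (7 * (|η| * W))) ^ 2)) +
      3 * (((W : ℝ) + q) * (W * (L ^ 2) ^ 2))) ≤ Y * (R * (300 / L) + R * (6 / L)) := by
    apply mul_le_mul_of_nonneg_left _ hY0.le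
    linarith
  have t5 : (36 : ℝ) / L + 300 / L + 6 / L ≤ 1 := by
    rw [← add_div, ← add_div, div_le_one hL0]
    linarith
  calc _ ≤ Y * R * (36 / L) + Y * (R * (300 / L) + R * (6 / L)) := add_le_add t1 t4
    _ = Y * R * (36 / L + 300 / L + 6 / L) := by ring
    _ ≤ Y * R * 1 := by gcongr
    _ = Y * R := mul_one _

open Classical in
/-- characters of small conductor -/
theorem smallW (A C K : ℕ) {ρ : ℝ} (hρ : 0 < ρ) : ∃ B : ℕ, ∀ E : ℕ, ∃ Y₀ : ℕ, ∀ Y : ℕ, Y₀ ≤ Y →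
    ∀ z : ℕ, Real.log (6 * Y) ^ B ≤ z → (z : ℝ) ≤ Real.log Y ^ E → ∀ (q Q : ℕ) [NeZero q],
    (q : ℝ) * (Y : ℝ) ^ (1 / 3 + ρ) ≤ Q → Q ≤ Y → ∀ χ : DirichletCharacter ℂ q,
    (χ.conductor : ℝ) ≤ Real.log Q ^ K → ∀ η : ℝ, |η| ≤ Real.log Q ^ C / Q →
      ∑ u ∈ Ico Y (2 * Y), ‖∑ n ∈ Ioc u (u + Q), GZ z n * χ (n : ZMod q) * ee (n * η)‖ ^ 2 ≤
        Y * ((Q : ℝ) ^ 2 / Real.log Q ^ A) := by
  obtain ⟨_C, B, hB⟩ := goodW 1 1 hρ
  obtain ⟨e, he⟩ : ∃ e : ℕ, max 4 (4 / ρ) ≤ e := exists_nat_ge _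
  have he4 : 4 ≤ e := by exact_mod_cast (le_max_left _ _).trans he
  have heρ : 4 / ρ ≤ e := (le_max_right _ _).trans he
  have he0 : (0 : ℝ) < e := by exact_mod_cast (by omega : 0 < e)
  obtain ⟨E₀, hE₀⟩ := u_SI13 e (A + K + 3) K he4
  refine ⟨max (max B (A + 8)) E₀, fun E => ?_⟩
  obtain ⟨Y₂, hY₂⟩ := hB E
  obtain ⟨X₀, hX₀⟩ := hE₀ E
  obtain ⟨Y₁, hY₁⟩ := envW (C + A + 7) 200000 hρ
  obtain ⟨Y₄, hY₄⟩ := Filter.eventually_atTop.1 (ev_log (A + 8) (s := 1 / 3) (by norm_num) 200000)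
  refine ⟨max (max Y₁ Y₂) (max X₀ Y₄), fun Y hY z hz1 hz2 q Q _ hqQ hQY χ hχ η hη => ?_⟩
  have hq : 1 ≤ q := Nat.pos_of_ne_zero (NeZero.ne q)
  obtain ⟨hY1, hQ1, hL, hLY, hl6, hqW, hW1, hW2⟩ := hY₁ Y
    (le_trans (le_max_left _ _) (le_trans (le_max_left _ _) hY)) q Q hq hqQ hQY
  have hYY₂ : Y₂ ≤ Y := le_trans (le_max_right _ _) (le_trans (le_max_left _ _) hY)
  have hYX₀ : X₀ ≤ Y := le_trans (le_max_left _ _) (le_trans (le_max_right _ _) hY)
  have hYY₄ : Y₄ ≤ Y := le_trans (le_max_right _ _) (le_trans (le_max_right _ _) hY)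
  have h6 : (6 * Y : ℝ) = ((6 * Y : ℕ) : ℝ) := by push_cast; ring
  have hY0 : (0 : ℝ) < Y := by exact_mod_cast hY1
  have hYr1 : (1 : ℝ) ≤ Y := by exact_mod_cast hY1
  have hlY : Real.log Y ≤ Real.log (6 * Y) := Real.log_le_log hY0 (by linarith)
  have hl61 : 1 ≤ Real.log (6 * Y) := by linarith
  obtain ⟨hGb, -⟩ := hY₂ Y hYY₂ z
    ((pow_le_pow_right₀ hl61 ((le_max_left _ _).trans (le_max_left _ _))).trans hz1) hz2 q Q hqQ hQY
  obtain ⟨W, hW⟩ : ∃ W : ℕ, W = ⌊(Q : ℝ) / Real.log Q ^ (C + A + 7)⌋₊ := ⟨_, rfl⟩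
  rw [← hW] at hqW hW1 hW2
  obtain ⟨L, hLd⟩ : ∃ L, L = Real.log Q := ⟨_, rfl⟩
  rw [← hLd] at hL hLY hl6 hW1 hW2 hGb hχ hη ⊢
  have hL0 : 0 < L := by linarith
  have hL1 : 1 ≤ L := by linarith
  have hQ0 : (0 : ℝ) < Q := by exact_mod_cast hQ1
  have hQYr : (Q : ℝ) ≤ Y := by exact_mod_cast hQY
  have hq1 : (1 : ℝ) ≤ q := by exact_mod_cast hq
  have hq0 : (0 : ℝ) < q := by linarith
  have h6Y : 1 ≤ ((6 * Y : ℕ) : ℝ) ^ (1 / 3 + ρ / 2) := by
    apply Real.one_le_rpow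
    · exact_mod_cast (by omega : 1 ≤ 6 * Y)
    · linarith
  have hqWr : (q : ℝ) ≤ W := le_trans (le_mul_of_one_le_right hq0.le h6Y) hqW
  have hWY6 : ((6 * Y : ℕ) : ℝ) ^ (1 / 3 + ρ / 2) ≤ W := by
    refine le_trans ?_ hqW
    exact le_mul_of_one_le_left (by linarith) hq1
  have hWr0 : (0 : ℝ) < W := by linarith
  have hW0 : 0 < W := by exact_mod_cast hWr0
  have hWL : L ^ (A + 8) ≤ W := by
    calc L ^ (A + 8) ≤ Real.log Y ^ (A + 8) := pow_le_pow_left₀ hL0.le hLY _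
      _ ≤ (Y : ℝ) ^ (1 / 3 : ℝ) := (hY₄ Y hYY₄).2
      _ ≤ ((6 * Y : ℕ) : ℝ) ^ (1 / 3 : ℝ) := by
          apply Real.rpow_le_rpow hY0.le _ (by norm_num)
          rw [← h6]
          linarith
      _ ≤ ((6 * Y : ℕ) : ℝ) ^ (1 / 3 + ρ / 2) := by
          apply Real.rpow_le_rpow_of_exponent_le _ (by linarith)
          exact_mod_cast (by omega : 1 ≤ 6 * Y)
      _ ≤ W := hWY6
  have hWQr : (W : ℝ) ≤ Q := by
    refine le_trans ?_ hW2
    exact le_mul_of_one_le_left hWr0.le (one_le_pow₀ hL1)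
  have hqY : q ≤ 6 * Y := by
    have h1 : (q : ℝ) ≤ Y := by linarith
    have h2 : q ≤ Y := by exact_mod_cast h1
    omega
  have hWQ : W ≤ Q := by exact_mod_cast hWQr
  have hzr : L ^ (A + 8) ≤ z := by
    refine le_trans ?_ hz1
    calc L ^ (A + 8) ≤ Real.log (6 * Y) ^ (A + 8) := pow_le_pow_left₀ hL0.le (hLY.trans hlY) _
      _ ≤ _ := pow_le_pow_right₀ hl61 ((le_max_right _ _).trans (le_max_left _ _))
  have hz0 : (0 : ℝ) < z := lt_of_lt_of_le (by positivity) hzr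
  have hz1' : 1 ≤ z := by
    have : 0 < z := by exact_mod_cast hz0
    omega
  have hlog : (Nat.log 2 (6 * Y) : ℝ) ≤ 6 * L := by
    have h1 : 2 ^ Nat.log 2 (6 * Y) ≤ 6 * Y := Nat.pow_log_le_self 2 (by omega)
    have h2 : (2 : ℝ) ^ Nat.log 2 (6 * Y) ≤ 6 * Y := by exact_mod_cast h1
    have h3 := Real.log_le_log (by positivity) h2
    rw [Real.log_pow] at h3
    have h4 := Real.log_two_gt_d9
    have h5 : (0 : ℝ) ≤ (Nat.log 2 (6 * Y) : ℝ) := Nat.cast_nonneg _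
    nlinarith
  have hlog0 : (0 : ℝ) ≤ (Nat.log 2 (6 * Y) : ℝ) := Nat.cast_nonneg _
  have hV : (Vz z)⁻¹ ≤ L ^ 2 := by
    have h1 := hGb 1 (by omega)
    unfold GZ LA LZ lamz at h1
    rw [if_pos, ArithmeticFunction.vonMangoldt_apply_one, ← Complex.ofReal_sub, Complex.norm_real, zero_sub,
      norm_neg, Real.norm_of_nonneg (inv_pos.2 (Vz_pos z)).le] at h1
    · exact h1
    · intro p hp h
      rw [mem_pz] at hp
      have := Nat.le_of_dvd one_pos h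
      have := hp.2.two_le
      omega
  have hV0 : 0 < (Vz z)⁻¹ := inv_pos.2 (Vz_pos z)
  -- the integers which are not coprime to the modulus
  have hT1 : ∀ v ∈ Ico Y (4 * Y), ∑ n ∈ (Ioc v (v + W)).filter (fun n => ¬ n.Coprime q), ‖GZ z n‖ ≤
      W * (162 / L ^ (A + 5)) := by
    intro v hv
    rw [mem_Ico] at hv
    refine (GZ_noncopW q (6 * Y) v W z hq hqY hz1' (by omega)).trans ?_
    rw [← h6]
    have k1 : (Nat.log 2 (6 * Y) : ℝ) * ((Nat.log 2 (6 * Y) + 1 : ℝ) * Real.log (6 * Y)) ≤ 150 * L ^ 3 := by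
      calc (Nat.log 2 (6 * Y) : ℝ) * ((Nat.log 2 (6 * Y) + 1 : ℝ) * Real.log (6 * Y)) ≤
          6 * L * ((6 * L + 1) * (3 * L)) := by
            have : 0 ≤ Real.log (6 * Y) := by linarith
            gcongr
        _ ≤ 6 * L * ((8 * L) * (3 * L)) := by
            have : 6 * L + 1 ≤ 8 * L := by linarith
            gcongr
        _ = 144 * L ^ 3 := by ring
        _ ≤ 150 * L ^ 3 := by
            have : 0 ≤ L ^ 3 := by positivity
            linarith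
    have k2 : (Nat.log 2 (6 * Y) : ℝ) * ((Vz z)⁻¹ * ((W : ℝ) / z + 1)) ≤ 6 * L * (L ^ 2 * ((W : ℝ) / z + 1)) := by
      gcongr
    have k3 : (W : ℝ) / z ≤ W / L ^ (A + 8) := div_le_div_of_nonneg_left hWr0.le (by positivity) hzr
    have k4 : (1 : ℝ) ≤ W / L ^ (A + 8) := by
      rw [le_div_iff₀ (by positivity), one_mul]
      exact hWL
    calc (Nat.log 2 (6 * Y) : ℝ) * ((Nat.log 2 (6 * Y) + 1 : ℝ) * Real.log (6 * Y)) +
        (Nat.log 2 (6 * Y) : ℝ) * ((Vz z)⁻¹ * ((W : ℝ) / z + 1))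
        ≤ 150 * L ^ 3 + 6 * L * (L ^ 2 * ((W : ℝ) / z + 1)) := add_le_add k1 k2
      _ ≤ 150 * L ^ 3 * (W / L ^ (A + 8)) + 6 * L * (L ^ 2 * (W / L ^ (A + 8) + W / L ^ (A + 8))) := by
          have k5 : 150 * L ^ 3 * 1 ≤ 150 * L ^ 3 * (W / L ^ (A + 8)) := by gcongr
          have k6 : 6 * L * (L ^ 2 * ((W : ℝ) / z + 1)) ≤ 6 * L * (L ^ 2 * (W / L ^ (A + 8) + W / L ^ (A + 8))) := by
            gcongr
          linarith
      _ = W * (162 / L ^ (A + 5)) := by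
          have : L ^ (A + 8) = L ^ (A + 5) * L ^ 3 := by ring
          rw [this]
          field_simp
          ring
  have hf : NeZero χ.conductor := ⟨DirichletCharacter.conductor_ne_zero χ⟩
  have hf0 : 0 < χ.conductor := Nat.pos_of_ne_zero hf.out
  -- the sums over the classes
  have hlY4 : Real.log Y ≤ Real.log ((4 * Y : ℕ) : ℝ) ∧ Real.log ((4 * Y : ℕ) : ℝ) ≤ Real.log (6 * Y) := by
    have e1 : ((4 * Y : ℕ) : ℝ) = 4 * Y := by push_cast; ring
    rw [e1]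
    exact ⟨Real.log_le_log hY0 (by linarith), Real.log_le_log (by positivity) (by linarith)⟩
  have hl4 : 0 ≤ Real.log ((4 * Y : ℕ) : ℝ) := by linarith [hlY4.1]
  have hSI := hX₀ (4 * Y) (by omega) z
    (le_trans (pow_le_pow_left₀ hl4 hlY4.2 E₀) (le_trans (pow_le_pow_right₀ hl61 (le_max_right _ _)) hz1))
    (hz2.trans (pow_le_pow_left₀ (by linarith) hlY4.1 E)) χ.conductor hf0
    (hχ.trans (pow_le_pow_left₀ hL0.le (hLY.trans hlY4.1) K)) W (by
      refine le_trans ?_ hWY6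
      calc ((4 * Y : ℕ) : ℝ) ^ (1 / 3 + 2 / e : ℝ) ≤ ((4 * Y : ℕ) : ℝ) ^ (1 / 3 + ρ / 2 : ℝ) := by
            apply Real.rpow_le_rpow_of_exponent_le
            · exact_mod_cast (by omega : 1 ≤ 4 * Y)
            · have : (2 : ℝ) / e ≤ ρ / 2 := by
                rw [div_le_div_iff₀ he0 two_pos]
                rw [div_le_iff₀ hρ] at heρ
                linarith
              linarith
        _ ≤ ((6 * Y : ℕ) : ℝ) ^ (1 / 3 + ρ / 2) := by
            apply Real.rpow_le_rpow (Nat.cast_nonneg _) _ (by positivity)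
            exact_mod_cast (by omega : 4 * Y ≤ 6 * Y)) (by omega)
  have hE : ∑ v ∈ Ico Y (4 * Y), ∑ χ' ∈ {χ}, ‖∑ n ∈ Ioc v (v + W), GZ z n * χ' (n : ZMod q)‖ ^ 2 ≤
        12 * (Y * (W : ℝ) ^ 2 / L ^ (A + 1)) := by
    simp only [sum_singleton]
    have k1 : ∀ v ∈ Ico Y (4 * Y), ‖∑ n ∈ Ioc v (v + W), GZ z n * χ (n : ZMod q)‖ ^ 2 ≤
        2 * (χ.conductor * Pool.Agent.helper24_UT.NN (Pool.Agent.helper24_UT.Ed z) (v : ℤ) W χ.conductor) +
        2 * (W * (162 / L ^ (A + 5))) ^ 2 := by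
      intro v hv
      have h1 := char_splitW (GZ z) χ _ (hT1 v hv)
      have h2 := prim_NN (f := χ.conductor) (u := v) (W := W) (z := z) χ.primitiveCharacter
      obtain ⟨a, ha⟩ : ∃ a, a = ‖∑ n ∈ Ioc v (v + W), GZ z n * χ.primitiveCharacter (n : ZMod χ.conductor)‖ := ⟨_, rfl⟩
      obtain ⟨b, hb⟩ : ∃ b, b = (W : ℝ) * (162 / L ^ (A + 5)) := ⟨_, rfl⟩
      rw [← ha, ← hb] at h1
      rw [← ha] at h2
      rw [← hb]
      have h3 := pow_le_pow_left₀ (norm_nonneg _) h1 2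
      nlinarith [sq_nonneg (a - b)]
    refine (sum_le_sum k1).trans ?_
    rw [sum_add_distrib, sum_const, Nat.card_Ico, nsmul_eq_mul, ← mul_sum, ← mul_sum]
    have k2 : ∑ v ∈ Ico Y (4 * Y), Pool.Agent.helper24_UT.NN (Pool.Agent.helper24_UT.Ed z) (v : ℤ) W χ.conductor ≤
        (4 * Y : ℕ) * (W : ℝ) ^ 2 / Real.log ((4 * Y : ℕ) : ℝ) ^ (A + K + 3) := by
      refine le_trans ?_ hSI
      apply sum_le_sum_of_subset_of_nonneg
      · intro v hv
        rw [mem_Ico] at hv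
        rw [mem_range]
        omega
      · intro v _ _
        unfold Pool.Agent.helper24_UT.NN
        exact sum_nonneg fun _ _ => sq_nonneg _
    have k3 : (4 * Y : ℕ) * (W : ℝ) ^ 2 / Real.log ((4 * Y : ℕ) : ℝ) ^ (A + K + 3) ≤
        4 * Y * (W : ℝ) ^ 2 / L ^ (A + K + 3) := by
      have e1 : ((4 * Y : ℕ) : ℝ) * (W : ℝ) ^ 2 = 4 * Y * (W : ℝ) ^ 2 := by push_cast; ring
      rw [e1]
      apply div_le_div_of_nonneg_left (by positivity) (by positivity)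
      exact pow_le_pow_left₀ hL0.le (hLY.trans hlY4.1) _
    have hNN0 : 0 ≤ ∑ v ∈ Ico Y (4 * Y), Pool.Agent.helper24_UT.NN (Pool.Agent.helper24_UT.Ed z) (v : ℤ) W χ.conductor :=
      sum_nonneg fun _ _ => by
        unfold Pool.Agent.helper24_UT.NN
        exact sum_nonneg fun _ _ => sq_nonneg _
    have k4 : 2 * (χ.conductor * ∑ v ∈ Ico Y (4 * Y),
        Pool.Agent.helper24_UT.NN (Pool.Agent.helper24_UT.Ed z) (v : ℤ) W χ.conductor) ≤
        Y * (W : ℝ) ^ 2 / L ^ (A + 1) * (8 / L ^ 2) := by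
      calc 2 * (χ.conductor * ∑ v ∈ Ico Y (4 * Y),
            Pool.Agent.helper24_UT.NN (Pool.Agent.helper24_UT.Ed z) (v : ℤ) W χ.conductor)
          ≤ 2 * (L ^ K * (4 * Y * (W : ℝ) ^ 2 / L ^ (A + K + 3))) := by
            have := k2.trans k3
            gcongr
        _ = Y * (W : ℝ) ^ 2 / L ^ (A + 1) * (8 / L ^ 2) := by
            have : L ^ (A + K + 3) = L ^ (A + 1) * L ^ K * L ^ 2 := by ring
            rw [this]
            field_simp
            ring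
    have k5 : ((4 * Y - Y : ℕ) : ℝ) * (2 * (W * (162 / L ^ (A + 5))) ^ 2) ≤
        Y * (W : ℝ) ^ 2 / L ^ (A + 1) * (157464 / L) := by
      have e1 : ((4 * Y - Y : ℕ) : ℝ) = 3 * Y := by
        have : 4 * Y - Y = 3 * Y := by omega
        rw [this]
        push_cast
        ring
      rw [e1]
      calc 3 * (Y : ℝ) * (2 * (W * (162 / L ^ (A + 5))) ^ 2) =
          Y * (W : ℝ) ^ 2 / L ^ (A + 1) * (157464 / L ^ (A + 9)) := by
            have : (L ^ (A + 5)) ^ 2 = L ^ (A + 1) * L ^ (A + 9) := by ring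
            rw [mul_pow, div_pow, this]
            field_simp
            ring
        _ ≤ _ := by
            apply mul_le_mul_of_nonneg_left _ (by positivity)
            apply div_le_div_of_nonneg_left (by norm_num) hL0
            calc L = L ^ 1 := (pow_one L).symm
              _ ≤ L ^ (A + 9) := pow_le_pow_right₀ hL1 (by omega)
    have k6 : (8 : ℝ) / L ^ 2 ≤ 1 := by
      rw [div_le_one (by positivity)]
      nlinarith
    have k7 : (157464 : ℝ) / L ≤ 1 := by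
      rw [div_le_one hL0]
      linarith
    have k8 : 0 ≤ (Y : ℝ) * (W : ℝ) ^ 2 / L ^ (A + 1) := by positivity
    have k9 := mul_le_mul_of_nonneg_left k6 k8
    have k10 := mul_le_mul_of_nonneg_left k7 k8
    linarith
  have hfin := up_fin {χ} (GZ z) (A := A) (C := C) (by linarith) hQ1 hQY hqWr hW0 hW2 hGb hη hE
  simpa only [sum_singleton] using hfin

end Pool.Agent.H567.HW
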