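import Pool.Agent.H567.HW.CoreW
import Pool.Agent.H567.HW.WSmall
import Pool.Graph.R_seed8.R460.GH.Asm

/-!
Project HW (helper567), part 23: the mean square of the error for the primes.
-/

set_option autoImplicit false

namespace Pool.Agent.H567.HW

open Finset
open Pool.Agent.Y883.GJ
open Pool.Agent.R460.GS (BdAt NcAt MinAt ShAt bd_LA bd_sq nonu)
open Pool.Agent.H807R2.Dav (ee)
open Pool.Agent.Y614.GJ.Core (ev_log)

/-- the von Mangoldt function on the integers which are not coprime to a given integer -/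
lemma nc_LA (U : ℕ) : ∃ N₀ : ℕ, ∀ N : ℕ, N₀ ≤ N → NcAt N U LA := by
  obtain ⟨N₀, hN₀⟩ := Filter.eventually_atTop.1 (ev_log (U + 4) (s := 1) (by norm_num) 12)
  refine ⟨max N₀ 1, fun N hN q hq hqN => ?_⟩
  obtain ⟨hL, hLp⟩ := hN₀ N (le_trans (le_max_left _ _) hN)
  have hN1 : 1 ≤ N := le_trans (le_max_right _ _) hN
  have hN0 : (0 : ℝ) < N := by exact_mod_cast hN1
  have hL0 : 0 < Real.log N := by linarith
  have h1 : ∑ n ∈ (Icc 1 N).filter (fun n => ¬ n.Coprime q), ‖LA n‖ =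
      ∑ n ∈ (Icc 1 N).filter (fun n => ¬ n.Coprime q), ArithmeticFunction.vonMangoldt n := by
    refine sum_congr rfl fun n _ => ?_
    unfold LA
    rw [Complex.norm_real, Real.norm_of_nonneg ArithmeticFunction.vonMangoldt_nonneg]
  rw [h1]
  refine (Pool.Agent.Y918.GJ.lam_noncop q N hq hqN).trans ?_
  have h5 : (Nat.log 2 N : ℝ) ≤ 2 * Real.log N := by
    have h6 : 2 ^ Nat.log 2 N ≤ N := Nat.pow_log_le_self 2 (by omega)
    have h7 : (2 : ℝ) ^ Nat.log 2 N ≤ N := by exact_mod_cast h6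
    have h8 := Real.log_le_log (by positivity) h7
    rw [Real.log_pow] at h8
    have h9 := Real.log_two_gt_d9
    have h10 : (0 : ℝ) ≤ (Nat.log 2 N : ℝ) := Nat.cast_nonneg _
    nlinarith
  have h11 : (0 : ℝ) ≤ (Nat.log 2 N : ℝ) := Nat.cast_nonneg _
  rw [le_div_iff₀ (by positivity)]
  rw [Real.rpow_one] at hLp
  calc (Nat.log 2 N : ℝ) * ((Nat.log 2 N + 1 : ℝ) * Real.log N) * Real.log N ^ U ≤
      (2 * Real.log N) * ((3 * Real.log N) * Real.log N) * Real.log N ^ U := by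
        have : (Nat.log 2 N + 1 : ℝ) ≤ 3 * Real.log N := by linarith
        gcongr
    _ = 6 * Real.log N ^ (U + 3) := by ring
    _ ≤ Real.log N * Real.log N ^ (U + 3) := by
        apply mul_le_mul_of_nonneg_right (by linarith) (by positivity)
    _ = Real.log N ^ (U + 4) := by ring
    _ ≤ N := hLp

/-- the mean square of the error -/
theorem coreLA (A T : ℕ) {ρ : ℝ} (hρ : 0 < ρ) : ∃ B : ℕ, ∀ E : ℕ, ∃ Y₀ : ℕ, ∀ Y : ℕ, Y₀ ≤ Y →
    ∀ z : ℕ, Real.log (6 * Y) ^ B ≤ z → (z : ℝ) ≤ Real.log Y ^ E → ∀ (q Q : ℕ) [NeZero q],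
    (q : ℝ) * (Y : ℝ) ^ (1 / 3 + ρ) ≤ Q → Q ≤ Y → ∀ a : ZMod q, (Nat.gcd a.val q : ℝ) ≤ Real.log Q ^ T →
      ∑ n ∈ (Icc (Y + 2 * Q) (2 * Y)).filter (fun n : ℕ => (n : ZMod q) = a),
        ‖∑ b ∈ Icc 1 Q, LA b * GZ z (n - b)‖ ^ 2 ≤ Y * (Q : ℝ) ^ 2 / (q * Real.log Q ^ A) := by
  have hρ2 : 0 < ρ / 2 := by positivity
  obtain ⟨C, Nn, hn⟩ := Pool.Agent.R460.GH.nLA Pool.Agent.Y812.GJ.l2 Pool.Agent.Y909.GJ.bilMin (A + 11) hρ2
  obtain ⟨A', hA'⟩ : ∃ A', A' = A + 2 * C + 9 := ⟨_, rfl⟩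
  obtain ⟨C₃, B₁, hB₁⟩ := goodW (A' + 4) C hρ2
  obtain ⟨B₂, hB₂⟩ := nonW (A' + 2) hρ2
  obtain ⟨K, Ns, hs⟩ := Pool.Agent.R461.GS.shl Pool.Agent.Y235.GJ.vau Pool.Agent.Y662.GJ.jac Pool.Agent.Y812.GJ.l2
    (2 * C₃ + A' + 3) C (T + C) (1 / 30 + ρ / 2) (by positivity)
  obtain ⟨B₃, hB₃⟩ := smallW (2 * (C₃ + A' + 4)) C K hρ2
  obtain ⟨c, hc⟩ := Pool.Agent.Y812.GJ.nonU
  obtain ⟨Nc, hNc⟩ := nc_LA (2 * (A + 9) + 4 + 2 * c)
  refine ⟨max B₁ (max B₂ B₃), fun E => ?_⟩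
  obtain ⟨Y₁, hY₁⟩ := hB₁ E
  obtain ⟨Y₂, hY₂⟩ := hB₂ E
  obtain ⟨Y₃, hY₃⟩ := hB₃ E
  obtain ⟨Y₄, hY₄⟩ := envW 1 2000 hρ
  obtain ⟨Y₅, hY₅⟩ := Filter.eventually_atTop.1 (ev_log C (s := ρ / 2) hρ2 2000)
  obtain ⟨M, hM⟩ : ∃ M, M = Nn + Ns + Nc + 1 := ⟨_, rfl⟩
  refine ⟨max (max (max Y₁ Y₂) (max Y₃ Y₄)) (max Y₅ (M ^ 3)), fun Y hY z hz1 hz2 q Q _ hqQ hQY a hgcd => ?_⟩
  have hYY₁ : Y₁ ≤ Y := le_trans (le_trans (le_trans (le_max_left _ _) (le_max_left _ _)) (le_max_left _ _)) hY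
  have hYY₂ : Y₂ ≤ Y := le_trans (le_trans (le_trans (le_max_right _ _) (le_max_left _ _)) (le_max_left _ _)) hY
  have hYY₃ : Y₃ ≤ Y := le_trans (le_trans (le_trans (le_max_left _ _) (le_max_right _ _)) (le_max_left _ _)) hY
  have hYY₄ : Y₄ ≤ Y := le_trans (le_trans (le_trans (le_max_right _ _) (le_max_right _ _)) (le_max_left _ _)) hY
  have hYY₅ : Y₅ ≤ Y := le_trans (le_trans (le_max_left _ _) (le_max_right _ _)) hY
  have hYM : M ^ 3 ≤ Y := le_trans (le_trans (le_max_right _ _) (le_max_right _ _)) hY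
  have hq : 1 ≤ q := Nat.pos_of_ne_zero (NeZero.ne q)
  obtain ⟨hY1, hQ1, hL, hLY, hl6, -, -, -⟩ := hY₄ Y hYY₄ q Q hq hqQ hQY
  obtain ⟨-, hLC⟩ := hY₅ Y hYY₅
  have hY0 : (0 : ℝ) < Y := by exact_mod_cast hY1
  have hYr1 : (1 : ℝ) ≤ Y := by exact_mod_cast hY1
  have hQ0 : (0 : ℝ) < Q := by exact_mod_cast hQ1
  have hQr1 : (1 : ℝ) ≤ Q := by exact_mod_cast hQ1
  have hQYr : (Q : ℝ) ≤ Y := by exact_mod_cast hQY
  have hq1 : (1 : ℝ) ≤ q := by exact_mod_cast hq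
  have hq0 : (0 : ℝ) < q := by linarith
  have hlY6 : Real.log Y ≤ Real.log (6 * Y) := Real.log_le_log hY0 (by linarith)
  have hl61 : 1 ≤ Real.log (6 * Y) := by linarith
  have hz11 : Real.log (6 * Y) ^ B₁ ≤ z := (pow_le_pow_right₀ hl61 (le_max_left _ _)).trans hz1
  have hz12 : Real.log (6 * Y) ^ B₂ ≤ z :=
    (pow_le_pow_right₀ hl61 ((le_max_left _ _).trans (le_max_right _ _))).trans hz1
  have hz13 : Real.log (6 * Y) ^ B₃ ≤ z :=
    (pow_le_pow_right₀ hl61 ((le_max_right _ _).trans (le_max_right _ _))).trans hz1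
  -- `Q` is large
  have hQM : M ≤ Q := by
    have h1 : (M : ℝ) ≤ Q := by
      calc (M : ℝ) = ((M : ℝ) ^ (3 : ℕ)) ^ (1 / 3 : ℝ) := by
            rw [← Real.rpow_natCast, ← Real.rpow_mul (Nat.cast_nonneg _)]
            norm_num
        _ ≤ (Y : ℝ) ^ (1 / 3 : ℝ) := by
            apply Real.rpow_le_rpow (by positivity) _ (by norm_num)
            exact_mod_cast hYM
        _ ≤ (Y : ℝ) ^ (1 / 3 + ρ) := Real.rpow_le_rpow_of_exponent_le hYr1 (by linarith)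
        _ ≤ q * (Y : ℝ) ^ (1 / 3 + ρ) := le_mul_of_one_le_left (by positivity) hq1
        _ ≤ Q := hqQ
    exact_mod_cast h1
  obtain ⟨L, hLd⟩ : ∃ L, L = Real.log Q := ⟨_, rfl⟩
  rw [← hLd] at hL hLY hl6 hgcd
  have hL0 : 0 < L := by linarith
  have hL1 : 1 ≤ L := by linarith
  have hLCY : L ^ C ≤ (Y : ℝ) ^ (ρ / 2) := (pow_le_pow_left₀ hL0.le hLY C).trans hLC
  -- the range of the moduli
  have hrange : ∀ q' : ℕ, (q' : ℝ) ≤ q * L ^ C → (q' : ℝ) * (Y : ℝ) ^ (1 / 3 + ρ / 2) ≤ Q := by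
    intro q' h
    calc (q' : ℝ) * (Y : ℝ) ^ (1 / 3 + ρ / 2) ≤ (q * L ^ C) * (Y : ℝ) ^ (1 / 3 + ρ / 2) := by gcongr
      _ ≤ (q * (Y : ℝ) ^ (ρ / 2)) * (Y : ℝ) ^ (1 / 3 + ρ / 2) := by gcongr
      _ = q * (Y : ℝ) ^ (1 / 3 + ρ) := by
          rw [mul_assoc, ← Real.rpow_add hY0]
          congr 2
          ring
      _ ≤ Q := hqQ
  have hrange2 : ∀ q' : ℕ, (q' : ℝ) ≤ q * L ^ C → (q' : ℝ) ≤ (Q : ℝ) ^ (7 / 10 - (1 / 30 + ρ / 2)) := by
    intro q' h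
    have h1 := hrange q' h
    have h2 : (q' : ℝ) * (Q : ℝ) ^ (1 / 3 + ρ / 2) ≤ Q := by
      refine le_trans ?_ h1
      have : (Q : ℝ) ^ (1 / 3 + ρ / 2) ≤ (Y : ℝ) ^ (1 / 3 + ρ / 2) :=
        Real.rpow_le_rpow hQ0.le hQYr (by positivity)
      gcongr
    have h3 : (Q : ℝ) ^ (7 / 10 - (1 / 30 + ρ / 2)) * (Q : ℝ) ^ (1 / 3 + ρ / 2) = Q := by
      rw [← Real.rpow_add hQ0]
      have : 7 / 10 - (1 / 30 + ρ / 2) + (1 / 3 + ρ / 2) = 1 := by ring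
      rw [this, Real.rpow_one]
    have h4 : (0 : ℝ) < (Q : ℝ) ^ (1 / 3 + ρ / 2) := by positivity
    refine le_of_mul_le_mul_right ?_ h4
    rw [h3]
    exact h2
  have hqself : (q : ℝ) ≤ q * L ^ C := le_mul_of_one_le_right hq0.le (one_le_pow₀ hL1)
  have hY13 : 1 ≤ (Y : ℝ) ^ (1 / 3 + ρ / 2) := Real.one_le_rpow hYr1 (by positivity)
  have hqLC : (q : ℝ) * L ^ C ≤ Q := by
    calc (q : ℝ) * L ^ C ≤ q * (Y : ℝ) ^ (ρ / 2) := by gcongr
      _ ≤ q * (Y : ℝ) ^ (1 / 3 + ρ) := by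
          have : (Y : ℝ) ^ (ρ / 2) ≤ (Y : ℝ) ^ (1 / 3 + ρ) :=
            Real.rpow_le_rpow_of_exponent_le hYr1 (by linarith)
          gcongr
      _ ≤ Q := hqQ
  have hqQr : (q : ℝ) ≤ Q := hqself.trans hqLC
  have hbLA : BdAt Q LA := bd_LA (by rw [← hLd]; exact hL1)
  have hNcQ := hNc Q (by omega)
  have h6Q : ∀ n, n ≤ 6 * Y → ‖GZ z n‖ ≤ L ^ 2 := by
    have h1 := (hY₁ Y hYY₁ z hz11 hz2 q Q (hrange q hqself) hQY).1
    rw [← hLd] at h1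
    exact h1
  have hcore := coreW Pool.Agent.Y708.GJ.lift Pool.Agent.Y872.GJ.pars Pool.Agent.Y297.GJ.orth LA (GZ z) (A := A)
    (C := C) (T := T) (C₃ := C₃) (K := K) (L := L) (Y := Y) (N := 3 * Y) (Q := Q) (q := q) (a := a) rfl hQ1 hQY hLd
    (by linarith) hqLC hgcd
    (by
      have := bd_sq hbLA (by rw [← hLd]; linarith)
      rw [← hLd] at this
      exact this)
    (fun n hn => h6Q n (by omega))
    (fun k h β hk1 hk2 hk3 hk4 => by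
      have := hn Q (by omega) q (hrange2 q hqself) k h β (by rw [← hLd]; exact hk1) (by rw [← hLd]; exact hk2)
        hk3 hk4 Q le_rfl
      rw [← hLd] at this
      exact this)
    (fun β => nonu hc hLd (by linarith) hQ1 hbLA hNcQ (X := A + 9) le_rfl hqQr Q le_rfl β)
    (fun q' _ hq' => by
      obtain ⟨-, B, hBc, hB⟩ := hY₁ Y hYY₁ z hz11 hz2 q' Q (hrange q' hq') hQY
      rw [← hLd] at hBc hB
      refine ⟨B, hBc, fun η hη S hS => ?_⟩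
      have := hB η hη S hS
      rw [hA'] at this
      exact this)
    (fun q' _ hq' η => by
      have := hY₂ Y hYY₂ z hz12 hz2 q' Q (hrange q' hq') hQY η
      rw [← hLd, hA'] at this
      exact this)
    (fun q' _ hq' χ hχ η hη => by
      have := hY₃ Y hYY₃ z hz13 hz2 q' Q (hrange q' hq') hQY χ (by rw [← hLd]; exact hχ) η (by rw [← hLd]; exact hη)
      rw [← hLd, hA'] at this
      refine this.trans (le_of_eq ?_)
      rw [div_pow, ← pow_mul, mul_comm (C₃ + (A + 2 * C + 9) + 4) 2])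
    (fun q' _ hq' χ hχ a' ha' η hη => by
      have := hs Q (by omega) q' (hrange2 q' hq') χ (by rw [← hLd]; exact hχ) a' (by rw [← hLd]; exact ha') η
        (by rw [← hLd]; exact hη) Q le_rfl
      rw [← hLd, hA'] at this
      exact this)
  rw [← hLd]
  exact hcore

end Pool.Agent.H567.HW
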