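import Pool.Agent.H567.HW.CoreW

/-!
Project HW (helper567), part 45: the mean square in a residue class, all classes, for regular moduli.
-/

set_option autoImplicit false

namespace Pool.Agent.H567.HW

open Finset
open Pool.Agent.Y883.GJ
open Pool.Agent.R460.GS (tr cl_tr cs_tr norm_tr_le)
open Pool.Agent.H807R2.Dav (ee)
open Pool.Agent.Y614.GJ.Core (P P_nonneg S_le P_le q_le_phi card_above gcd_above dirich ev_log)

/-- the estimate for one frequency, all classes -/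
lemma pointX (h3 : LiftStm) (F : ℕ → ℂ) (G : ℕ → ℕ → ℂ) (U : Finset ℕ) {A C : ℕ} {L Yr : ℝ}
    {N Q q : ℕ} [NeZero q] {a : ZMod q} (hL8 : 8 ≤ L) (hQ : 1 ≤ Q)
    (hqLC : (q : ℝ) * L ^ C ≤ Q) (hYr : 0 ≤ Yr)
    (hmin : ∀ (k : ℕ) (h : ℤ) (β : ℝ), L ^ C ≤ k → (q : ℝ) * k * L ^ C ≤ Q →
      IsCoprime h (k : ℤ) → |q * β - h / k| ≤ 1 / (k : ℝ) ^ 2 → P q N F β ≤ (Q : ℝ) ^ 2 / (q * L ^ (A + 9)))
    (hpw : ∀ j : ℕ, ((j + 1 : ℕ) : ℝ) ≤ L ^ C → ∀ a' : ZMod ((j + 1) * q), ∀ η : ℝ, |η| ≤ L ^ C / Q →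
      ∑ u ∈ U, ‖∑ l : ZMod ((j + 1) * q), cl ((j + 1) * q) N F η l *
        cl ((j + 1) * q) N (G u) η (a' - l)‖ ^ 2 ≤
      (Q : ℝ) ^ 2 / ((((j + 1) * q : ℕ) : ℝ) * L ^ (A + 2 * C + 9)) *
        (Yr * ∑ l : ZMod ((j + 1) * q), ‖cl ((j + 1) * q) N F η l‖ ^ 2 +
          ∑ u ∈ U, ∑ l : ZMod ((j + 1) * q), ‖cl ((j + 1) * q) N (G u) η l‖ ^ 2))
    (β : ℝ) :
    ∑ u ∈ U, ‖∑ l : ZMod q, cl q N F β l * cl q N (G u) β (a - l)‖ ^ 2 ≤
      (Q : ℝ) ^ 2 / (q * L ^ (A + 9)) * ∑ u ∈ U, P q N (G u) β +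
      L ^ C * ((Q : ℝ) ^ 2 / (q * L ^ (A + 2 * C + 9))) *
        ∑ j ∈ range ⌊L ^ C⌋₊, (Yr * P ((j + 1) * q) N F β + ∑ u ∈ U, P ((j + 1) * q) N (G u) β) := by
  have hL0 : 0 < L := by linarith
  have hq0 : (0 : ℝ) < q := by exact_mod_cast NeZero.pos q
  have hN0 : (0 : ℝ) < Q := by exact_mod_cast hQ
  have hLC : 0 < L ^ C := by positivity
  have hPu : ∀ (q' : ℕ) [NeZero q'], 0 ≤ ∑ u ∈ U, P q' N (G u) β := fun q' _ =>
    sum_nonneg fun _ _ => P_nonneg _ _ _ _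
  have hterm : ∀ (q' : ℕ) [NeZero q'], 0 ≤ Yr * P q' N F β + ∑ u ∈ U, P q' N (G u) β := fun q' _ =>
    add_nonneg (mul_nonneg hYr (P_nonneg _ _ _ _)) (hPu q')
  have hsum0 : 0 ≤ ∑ j ∈ range ⌊L ^ C⌋₊,
      (Yr * P ((j + 1) * q) N F β + ∑ u ∈ U, P ((j + 1) * q) N (G u) β) :=
    sum_nonneg fun j _ => hterm _
  set n := ⌊(Q : ℝ) / (q * L ^ C)⌋₊ with hn
  have hn0 : 0 < n := by
    rw [hn, Nat.floor_pos, le_div_iff₀ (by positivity), one_mul]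
    exact hqLC
  have hn1 : (n : ℝ) ≤ (Q : ℝ) / (q * L ^ C) := Nat.floor_le (by positivity)
  have hn2 : (Q : ℝ) / (q * L ^ C) < n + 1 := Nat.lt_floor_add_one _
  obtain ⟨j, h, hj, hcop, hx⟩ := dirich ((q : ℝ) * β) hn0
  have hjn : ((j + 1 : ℕ) : ℝ) ≤ n := by exact_mod_cast hj
  have hk0 : (0 : ℝ) < ((j + 1 : ℕ) : ℝ) := by positivity
  have hk1 : (1 : ℝ) ≤ ((j + 1 : ℕ) : ℝ) := by exact_mod_cast Nat.succ_pos j
  have hP0 : 0 ≤ P q N F β := P_nonneg _ _ _ _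
  by_cases hkC : L ^ C ≤ ((j + 1 : ℕ) : ℝ)
  · -- minor arcs
    have e1 : (q : ℝ) * ((j + 1 : ℕ) : ℝ) * L ^ C ≤ Q := by
      have := (le_div_iff₀ (by positivity)).1 (hjn.trans hn1)
      linarith
    have e2 : |(q : ℝ) * β - h / ((j + 1 : ℕ) : ℝ)| ≤ 1 / ((j + 1 : ℕ) : ℝ) ^ 2 := by
      refine hx.trans ?_
      rw [sq]
      apply one_div_le_one_div_of_le (by positivity)
      apply mul_le_mul_of_nonneg_right _ hk0.le
      linarith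
    have e7 := hmin (j + 1) h β hkC e1 hcop e2
    calc ∑ u ∈ U, ‖∑ l : ZMod q, cl q N F β l * cl q N (G u) β (a - l)‖ ^ 2
        ≤ ∑ u ∈ U, P q N F β * P q N (G u) β := sum_le_sum fun u _ => S_le q N F (G u) β a
      _ = P q N F β * ∑ u ∈ U, P q N (G u) β := by rw [mul_sum]
      _ ≤ ((Q : ℝ) ^ 2 / (q * L ^ (A + 9))) * ∑ u ∈ U, P q N (G u) β :=
          mul_le_mul_of_nonneg_right e7 (hPu q)
      _ ≤ _ := le_add_of_nonneg_right (mul_nonneg (by positivity) hsum0)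
  · -- major arcs
    rw [not_le] at hkC
    set k : ℕ := j + 1 with hk
    have hηle : |β - h / ((k * q : ℕ) : ℝ)| ≤ L ^ C / Q := by
      have e1 : β - h / ((k * q : ℕ) : ℝ) = ((q : ℝ) * β - h / (k : ℝ)) / q := by
        push_cast
        field_simp
      rw [e1, abs_div, abs_of_pos hq0, div_le_div_iff₀ hq0 hN0]
      have e2 : (Q : ℝ) ≤ (n + 1) * (q * L ^ C) := by
        have := (div_lt_iff₀ (by positivity)).1 hn2
        linarith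
      have hn3 : (0 : ℝ) < n + 1 := by positivity
      calc |(q : ℝ) * β - h / (k : ℝ)| * Q ≤ 1 / (((n : ℝ) + 1) * (k : ℝ)) * Q := by gcongr
        _ ≤ 1 / ((n : ℝ) + 1) * Q := by
            apply mul_le_mul_of_nonneg_right _ hN0.le
            apply one_div_le_one_div_of_le hn3
            nlinarith
        _ ≤ 1 / ((n : ℝ) + 1) * ((n + 1) * (q * L ^ C)) := by gcongr
        _ = L ^ C * q := by field_simp
    have e3 := majW h3 F G U (a := a) (Yr := Yr)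
      (X := (Q : ℝ) ^ 2 / (((k * q : ℕ) : ℝ) * L ^ (A + 2 * C + 9)))
      (h := h) (β := β) (η := β - h / ((k * q : ℕ) : ℝ)) (by ring)
      (fun a' _ => hpw j hkC.le a' _ hηle)
    have hPk : 0 ≤ Yr * P (k * q) N F β + ∑ u ∈ U, P (k * q) N (G u) β := hterm _
    have e4 : Yr * P (k * q) N F β + ∑ u ∈ U, P (k * q) N (G u) β ≤ ∑ j ∈ range ⌊L ^ C⌋₊,
        (Yr * P ((j + 1) * q) N F β + ∑ u ∈ U, P ((j + 1) * q) N (G u) β) := by
      refine single_le_sum (f := fun j => Yr * P ((j + 1) * q) N F β + ∑ u ∈ U, P ((j + 1) * q) N (G u) β)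
        (fun j _ => hterm _) (mem_range.2 ?_)
      have : k ≤ ⌊L ^ C⌋₊ := Nat.le_floor hkC.le
      omega
    have hX0 : 0 ≤ (Q : ℝ) ^ 2 / (q * L ^ (A + 2 * C + 9)) := by positivity
    have hfst : 0 ≤ (Q : ℝ) ^ 2 / (q * L ^ (A + 9)) * ∑ u ∈ U, P q N (G u) β :=
      mul_nonneg (by positivity) (hPu q)
    refine le_trans e3 (le_trans ?_ (le_add_of_nonneg_left hfst))
    clear hfst e3
    generalize (Yr * P (k * q) N F β + ∑ u ∈ U, P (k * q) N (G u) β) = Z1 at hPk e4 ⊢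
    generalize (∑ j ∈ range ⌊L ^ C⌋₊,
        (Yr * P ((j + 1) * q) N F β + ∑ u ∈ U, P ((j + 1) * q) N (G u) β)) = Z2 at e4 ⊢
    calc (k : ℝ) ^ 2 * ((Q : ℝ) ^ 2 / (((k * q : ℕ) : ℝ) * L ^ (A + 2 * C + 9)) * Z1)
        = k * ((Q : ℝ) ^ 2 / (q * L ^ (A + 2 * C + 9))) * Z1 := by
          rw [Nat.cast_mul]
          field_simp
      _ ≤ L ^ C * ((Q : ℝ) ^ 2 / (q * L ^ (A + 2 * C + 9))) * Z2 := by
          gcongr

/-- the mean square in a residue class, all classes -/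
theorem coreX (h3 : LiftStm) (h4 : ParsStm) (F G : ℕ → ℂ) {A C : ℕ} {L : ℝ}
    {Y N Q q : ℕ} [NeZero q] {a : ZMod q} (hN : N = 3 * Y) (hQ : 1 ≤ Q) (hQY : Q ≤ Y)
    (hL200 : 200 ≤ L) (hqLC : (q : ℝ) * L ^ C ≤ Q)
    (hF : ∑ n ∈ Icc 1 Q, ‖F n‖ ^ 2 ≤ Q * L ^ 8) (hG : ∀ n, n ≤ N → ‖G n‖ ≤ L ^ 2)
    (hmin : ∀ (k : ℕ) (h : ℤ) (β : ℝ), L ^ C ≤ k → (q : ℝ) * k * L ^ C ≤ Q →
      IsCoprime h (k : ℤ) → |q * β - h / k| ≤ 1 / (k : ℝ) ^ 2 → P q Q F β ≤ (Q : ℝ) ^ 2 / (q * L ^ (A + 9)))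
    (hmaj : ∀ j : ℕ, ((j + 1 : ℕ) : ℝ) ≤ L ^ C → ∀ η : ℝ, |η| ≤ L ^ C / Q →
      ∑ u ∈ Ico Y (2 * Y), P ((j + 1) * q) N (wG u Q G) η ≤
        Y * ((Q : ℝ) ^ 2 / ((((j + 1) * q : ℕ) : ℝ) * L ^ (A + 2 * C + 9)))) :
    ∑ n ∈ (Icc (Y + 2 * Q) (2 * Y)).filter (fun n : ℕ => (n : ZMod q) = a),
      ‖∑ b ∈ Icc 1 Q, F b * G (n - b)‖ ^ 2 ≤ Y * (Q : ℝ) ^ 2 / (q * L ^ A) := by
  have hL8 : 8 ≤ L := by linarith
  have hL0 : 0 < L := by linarith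
  have hL1 : 1 ≤ L := by linarith
  have hQ0 : (0 : ℝ) < Q := by exact_mod_cast hQ
  have hq0 : (0 : ℝ) < q := by exact_mod_cast NeZero.pos q
  have hLC1 : 1 ≤ L ^ C := one_le_pow₀ hL1
  have hqQ : (q : ℝ) ≤ Q := by
    refine le_trans ?_ hqLC
    nlinarith
  have hQN : Q ≤ N := by omega
  have hN1 : 1 ≤ N := by omega
  have huN : ∀ u ∈ Ico Y (2 * Y), u + Q ≤ N := by
    intro u hu
    rw [mem_Ico] at hu
    omega
  -- the estimate for one frequency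
  have hPtr : ∀ (q' : ℕ) [NeZero q'] (β : ℝ), P q' N (tr Q F) β = P q' Q F β := by
    intro q' _ β
    unfold P
    simp only [cl_tr hQN]
  have hpt := pointX (a := a) h3 (tr Q F) (fun u => wG u Q G) (Ico Y (2 * Y)) (A := A) (C := C)
    (Yr := (Y : ℝ)) (N := N) hL8 hQ hqLC (by positivity)
    (fun k h β hk1 hk2 hk3 hk4 => by
      rw [hPtr]
      exact hmin k h β hk1 hk2 hk3 hk4)
    (fun j hj a' η hη => by
      have h1 := hmaj j hj η hη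
      have h2 : ∀ u ∈ Ico Y (2 * Y), ‖∑ l : ZMod ((j + 1) * q), cl ((j + 1) * q) N (tr Q F) η l *
          cl ((j + 1) * q) N (wG u Q G) η (a' - l)‖ ^ 2 ≤
          P ((j + 1) * q) N (tr Q F) η * P ((j + 1) * q) N (wG u Q G) η := fun u _ =>
        S_le _ _ _ _ _ _
      refine (sum_le_sum h2).trans ?_
      rw [← mul_sum]
      have h3 : 0 ≤ P ((j + 1) * q) N (tr Q F) η := P_nonneg _ _ _ _
      have h4 : 0 ≤ ∑ u ∈ Ico Y (2 * Y), P ((j + 1) * q) N (wG u Q G) η :=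
        sum_nonneg fun _ _ => P_nonneg _ _ _ _
      have h5 : 0 ≤ (Q : ℝ) ^ 2 / ((((j + 1) * q : ℕ) : ℝ) * L ^ (A + 2 * C + 9)) := by positivity
      calc P ((j + 1) * q) N (tr Q F) η * ∑ u ∈ Ico Y (2 * Y), P ((j + 1) * q) N (wG u Q G) η ≤
          P ((j + 1) * q) N (tr Q F) η * (Y * ((Q : ℝ) ^ 2 / ((((j + 1) * q : ℕ) : ℝ) * L ^ (A + 2 * C + 9)))) :=
            mul_le_mul_of_nonneg_left h1 h3
        _ = (Q : ℝ) ^ 2 / ((((j + 1) * q : ℕ) : ℝ) * L ^ (A + 2 * C + 9)) *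
            (Y * P ((j + 1) * q) N (tr Q F) η) := by ring
        _ ≤ _ := by
            apply mul_le_mul_of_nonneg_left _ h5
            exact le_add_of_nonneg_right h4)
  -- Parseval
  obtain ⟨D, hD⟩ : ∃ D : ℝ, D = ((2 * N + 1 : ℕ) : ℝ) := ⟨_, rfl⟩
  have hD0 : 0 < D := by rw [hD]; positivity
  have hsumP : ∀ (q' : ℕ) [NeZero q'] (F : ℕ → ℂ),
      ∑ t ∈ range (2 * N + 1), P q' N F ((t : ℝ) / D) = D * ∑ n ∈ Icc 1 N, ‖F n‖ ^ 2 := by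
    intro q' _ F
    rw [hD]
    exact (h4 q' N F F hN1).2
  obtain ⟨WL, hWL⟩ : ∃ WL, WL = ∑ n ∈ Icc 1 N, ‖tr Q F n‖ ^ 2 := ⟨_, rfl⟩
  obtain ⟨WF, hWF⟩ : ∃ WF, WF = ∑ u ∈ Ico Y (2 * Y), ∑ n ∈ Icc 1 N, ‖wG u Q G n‖ ^ 2 := ⟨_, rfl⟩
  have hWL0 : 0 ≤ WL := by rw [hWL]; exact sum_nonneg fun _ _ => by positivity
  have hWF0 : 0 ≤ WF := by rw [hWF]; exact sum_nonneg fun _ _ => sum_nonneg fun _ _ => by positivity
  have w1 : WL ≤ Q * L ^ 8 := by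
    refine le_trans (le_of_eq ?_) hF
    rw [hWL, ← sum_subset (Icc_subset_Icc le_rfl hQN : Icc 1 Q ⊆ Icc 1 N)]
    · refine sum_congr rfl fun n hn => ?_
      rw [mem_Icc] at hn
      unfold tr
      rw [if_pos hn.2]
    · intro n hn hn'
      rw [mem_Icc] at hn hn'
      unfold tr
      rw [if_neg (fun h => hn' ⟨hn.1, h⟩), norm_zero]
      norm_num
  have w2 : WF ≤ Y * (Q * L ^ 8) := by
    rw [hWF]
    have e1 : ∀ u ∈ Ico Y (2 * Y), ∑ n ∈ Icc 1 N, ‖wG u Q G n‖ ^ 2 ≤ Q * L ^ 8 := by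
      intro u hu
      have e2 : ∑ n ∈ Icc 1 N, ‖wG u Q G n‖ ^ 2 = ∑ n ∈ Ioc u (u + Q), ‖wG u Q G n‖ ^ 2 := by
        symm
        apply sum_subset
        · intro n hn
          have := huN u hu
          rw [mem_Ioc] at hn
          rw [mem_Icc]
          omega
        · intro n _ hn
          rw [mem_Ioc] at hn
          unfold wG
          rw [if_neg hn, norm_zero]
          norm_num
      rw [e2]
      calc ∑ n ∈ Ioc u (u + Q), ‖wG u Q G n‖ ^ 2 ≤ ∑ n ∈ Ioc u (u + Q), (L ^ 2) ^ 2 := by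
            refine sum_le_sum fun n hn => ?_
            have h1 := huN u hu
            rw [mem_Ioc] at hn
            unfold wG
            rw [if_pos hn]
            exact pow_le_pow_left₀ (norm_nonneg _) (hG n (by omega)) 2
        _ = Q * L ^ 4 := by
            rw [sum_const, Nat.card_Ioc, nsmul_eq_mul]
            have : u + Q - u = Q := by omega
            rw [this]
            ring
        _ ≤ Q * L ^ 8 := by
            have := pow_le_pow_right₀ hL1 (show 4 ≤ 8 by norm_num)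
            gcongr
    refine (sum_le_sum e1).trans ?_
    rw [sum_const, Nat.card_Ico, nsmul_eq_mul]
    have : 2 * Y - Y = Y := by omega
    rw [this]
  obtain ⟨c1, hc1⟩ : ∃ c1, c1 = (Q : ℝ) ^ 2 / (q * L ^ (A + 9)) := ⟨_, rfl⟩
  obtain ⟨c2, hc2⟩ : ∃ c2, c2 = L ^ C * ((Q : ℝ) ^ 2 / (q * L ^ (A + 2 * C + 9))) := ⟨_, rfl⟩
  have hc10 : 0 ≤ c1 := by rw [hc1]; positivity
  have hc20 : 0 ≤ c2 := by rw [hc2]; positivity
  rw [← hc1, ← hc2] at hpt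
  have hK : ((⌊L ^ C⌋₊ : ℕ) : ℝ) ≤ L ^ C := Nat.floor_le (by positivity)
  have hWu : ∀ (q' : ℕ) [NeZero q'], ∑ t ∈ range (2 * N + 1), ∑ u ∈ Ico Y (2 * Y), P q' N (wG u Q G) ((t : ℝ) / D) =
      D * WF := by
    intro q' _
    rw [sum_comm, hWF, mul_sum]
    exact sum_congr rfl fun u _ => hsumP q' _
  have step : ∑ t ∈ range (2 * N + 1), ∑ u ∈ Ico Y (2 * Y), ‖∑ l : ZMod q, cl q N (tr Q F) ((t : ℝ) / D) l *
      cl q N (wG u Q G) ((t : ℝ) / D) (a - l)‖ ^ 2 ≤ D * (c1 * (Y * (Q * L ^ 8)) +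
        c2 * (L ^ C * (2 * (Y * (Q * L ^ 8))))) := by
    calc ∑ t ∈ range (2 * N + 1), ∑ u ∈ Ico Y (2 * Y), ‖∑ l : ZMod q, cl q N (tr Q F) ((t : ℝ) / D) l *
        cl q N (wG u Q G) ((t : ℝ) / D) (a - l)‖ ^ 2
        ≤ ∑ t ∈ range (2 * N + 1), (c1 * ∑ u ∈ Ico Y (2 * Y), P q N (wG u Q G) ((t : ℝ) / D) +
          c2 * ∑ j ∈ range ⌊L ^ C⌋₊, (Y * P ((j + 1) * q) N (tr Q F) ((t : ℝ) / D) +
            ∑ u ∈ Ico Y (2 * Y), P ((j + 1) * q) N (wG u Q G) ((t : ℝ) / D))) :=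
          sum_le_sum fun t _ => hpt _
      _ = c1 * (D * WF) + c2 * ∑ j ∈ range ⌊L ^ C⌋₊, (Y * (D * WL) + D * WF) := by
          rw [sum_add_distrib, ← mul_sum, ← mul_sum, hWu q, sum_comm]
          congr 2
          refine sum_congr rfl fun j _ => ?_
          rw [sum_add_distrib, ← mul_sum, hsumP ((j + 1) * q) (tr Q F), hWu ((j + 1) * q), hWL]
      _ = D * (c1 * WF + c2 * ((⌊L ^ C⌋₊ : ℕ) * (Y * WL + WF))) := by
          rw [sum_const, card_range, nsmul_eq_mul]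
          ring
      _ ≤ D * (c1 * (Y * (Q * L ^ 8)) + c2 * (L ^ C * (2 * (Y * (Q * L ^ 8))))) := by
          have h0 : 0 ≤ (Y : ℝ) * WL + WF := by positivity
          have h1 : (Y : ℝ) * WL + WF ≤ 2 * (Y * (Q * L ^ 8)) := by
            have : (Y : ℝ) * WL ≤ Y * (Q * L ^ 8) := by gcongr
            linarith
          gcongr
  have main : ∀ u ∈ Ico Y (2 * Y), D * ∑ n ∈ (Icc 1 (2 * N)).filter (fun n : ℕ => (n : ZMod q) = a),
      ‖∑ b ∈ Icc 1 N, ∑ c ∈ Icc 1 N, if b + c = n then tr Q F b * wG u Q G c else 0‖ ^ 2 =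
      ∑ t ∈ range (2 * N + 1), ‖∑ l : ZMod q, cl q N (tr Q F) ((t : ℝ) / D) l *
        cl q N (wG u Q G) ((t : ℝ) / D) (a - l)‖ ^ 2 := by
    intro u _
    rw [hD]
    exact (h4 q N (tr Q F) (wG u Q G) hN1).1 a
  have h9 : D * ∑ u ∈ Ico Y (2 * Y), ∑ n ∈ (Icc 1 (2 * N)).filter (fun n : ℕ => (n : ZMod q) = a),
      ‖∑ b ∈ Icc 1 N, ∑ c ∈ Icc 1 N, if b + c = n then tr Q F b * wG u Q G c else 0‖ ^ 2 ≤
        D * (c1 * (Y * (Q * L ^ 8)) + c2 * (L ^ C * (2 * (Y * (Q * L ^ 8))))) := by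
    rw [mul_sum, sum_congr rfl main, sum_comm]
    exact step
  have h10 := le_of_mul_le_mul_left h9 hD0
  have h11 : (Q : ℝ) ^ 2 * ∑ n ∈ (Icc (Y + 2 * Q) (2 * Y)).filter (fun n : ℕ => (n : ZMod q) = a),
      ‖∑ b ∈ Icc 1 Q, F b * G (n - b)‖ ^ 2 ≤ 2 * Q * ∑ u ∈ Ico Y (2 * Y),
      ∑ n ∈ (Icc 1 (2 * N)).filter (fun n : ℕ => (n : ZMod q) = a),
      ‖∑ b ∈ Icc 1 N, ∑ c ∈ Icc 1 N, if b + c = n then tr Q F b * wG u Q G c else 0‖ ^ 2 := by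
    calc (Q : ℝ) ^ 2 * ∑ n ∈ (Icc (Y + 2 * Q) (2 * Y)).filter (fun n : ℕ => (n : ZMod q) = a),
          ‖∑ b ∈ Icc 1 Q, F b * G (n - b)‖ ^ 2
        ≤ ∑ n ∈ (Icc (Y + 2 * Q) (2 * Y)).filter (fun n : ℕ => (n : ZMod q) = a),
          2 * Q * ∑ u ∈ Ico Y (2 * Y), ‖∑ b ∈ Icc 1 Q, F b * wG u Q G (n - b)‖ ^ 2 := by
          rw [mul_sum]
          refine sum_le_sum fun n hn => ?_
          rw [mem_filter, mem_Icc] at hn
          exact conv_avg F G hQ hn.1.1 hn.1.2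
      _ = 2 * Q * ∑ u ∈ Ico Y (2 * Y), ∑ n ∈ (Icc (Y + 2 * Q) (2 * Y)).filter (fun n : ℕ => (n : ZMod q) = a),
          ‖∑ b ∈ Icc 1 Q, F b * wG u Q G (n - b)‖ ^ 2 := by
          rw [← mul_sum, sum_comm]
      _ ≤ _ := by
          apply mul_le_mul_of_nonneg_left _ (by positivity)
          refine sum_le_sum fun u hu => ?_
          calc ∑ n ∈ (Icc (Y + 2 * Q) (2 * Y)).filter (fun n : ℕ => (n : ZMod q) = a),
                ‖∑ b ∈ Icc 1 Q, F b * wG u Q G (n - b)‖ ^ 2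
              = ∑ n ∈ (Icc (Y + 2 * Q) (2 * Y)).filter (fun n : ℕ => (n : ZMod q) = a),
                ‖∑ b ∈ Icc 1 N, ∑ c ∈ Icc 1 N, if b + c = n then tr Q F b * wG u Q G c else 0‖ ^ 2 := by
                refine sum_congr rfl fun n hn => ?_
                rw [mem_filter, mem_Icc] at hn
                rw [conv_wG F (wG u Q G) (by omega) hQN (by omega)]
            _ ≤ _ := by
                apply sum_le_sum_of_subset_of_nonneg
                · apply filter_subset_filter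
                  intro n hn
                  rw [mem_Icc] at hn ⊢
                  omega
                · intro n _ _
                  positivity
  have h12 := h11.trans (mul_le_mul_of_nonneg_left h10 (by positivity))
  have e1 : c1 * (Y * (Q * L ^ 8)) = Y * (Q : ℝ) ^ 3 / (q * L ^ A) * (1 / L) := by
    rw [hc1, show A + 9 = A + 8 + 1 by ring, pow_succ, pow_add]
    field_simp
    try ring
  have e2 : c2 * (L ^ C * (2 * (Y * (Q * L ^ 8)))) = Y * (Q : ℝ) ^ 3 / (q * L ^ A) * (2 / L) := by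
    rw [hc2, show A + 2 * C + 9 = A + C + C + 8 + 1 by ring, pow_succ, pow_add, pow_add, pow_add]
    field_simp
    try ring
  rw [e1, e2, ← mul_add] at h12
  have e3 : 2 * (1 / L + 2 / L) ≤ 1 := by
    rw [← add_div, ← mul_div_assoc, div_le_one hL0]
    linarith
  have h13 : 2 * Q * (Y * (Q : ℝ) ^ 3 / (q * L ^ A) * (1 / L + 2 / L)) =
      (Q : ℝ) ^ 2 * (Y * (Q : ℝ) ^ 2 / (q * L ^ A) * (2 * (1 / L + 2 / L))) := by
    ring
  rw [h13] at h12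
  have h14 := le_of_mul_le_mul_left h12 (by positivity)
  refine h14.trans ?_
  calc Y * (Q : ℝ) ^ 2 / (q * L ^ A) * (2 * (1 / L + 2 / L)) ≤ Y * (Q : ℝ) ^ 2 / (q * L ^ A) * 1 := by gcongr
    _ = _ := mul_one _

end Pool.Agent.H567.HW
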