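import Pool.Agent.H567.HW.Pr5
import Pool.Agent.H567.HW.Pr6
import Pool.Agent.H567.HW.CoreLA

/-!
Project HW (helper567), part 46: the mean square of the error, all classes, regular moduli, windows.
-/

set_option autoImplicit false

namespace Pool.Agent.H567.HW

open Finset
open Pool.Agent.Y883.GJ
open Pool.Agent.R460.GS (BdAt NcAt MinAt ShAt bd_LA bd_sq nonu)
open Pool.Agent.H807R2.Dav (ee)
open Pool.Agent.Y614.GJ.Core (P P_nonneg P_le q_le_phi ev_log)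

/-- the minor arcs: the sums over the classes -/
lemma minLA (A : ℕ) {ρ : ℝ} (hρ : 0 < ρ) : ∃ C N₀ : ℕ, ∀ N : ℕ, N₀ ≤ N → ∀ (q : ℕ) [NeZero q],
    (q : ℝ) ≤ (N : ℝ) ^ (7 / 10 - (1 / 30 + ρ)) → ∀ (k : ℕ) (h : ℤ) (β : ℝ),
    Real.log N ^ C ≤ k → (q : ℝ) * k * Real.log N ^ C ≤ N → IsCoprime h (k : ℤ) →
    |q * β - h / k| ≤ 1 / (k : ℝ) ^ 2 → ∀ y : ℕ, y ≤ N → P q y LA β ≤ (N : ℝ) ^ 2 / (q * Real.log N ^ A) := by
  obtain ⟨C, Nn, hn⟩ := Pool.Agent.R460.GH.nLA Pool.Agent.Y812.GJ.l2 Pool.Agent.Y909.GJ.bilMin (A + 2) hρ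
  obtain ⟨c, hc⟩ := Pool.Agent.Y812.GJ.nonU
  obtain ⟨Nc, hNc⟩ := nc_LA (2 * A + 4 + 2 * c)
  obtain ⟨N₂, hN₂⟩ := Filter.eventually_atTop.1 (ev_log 1 (s := 1) (by norm_num) 100)
  refine ⟨C, max (max Nn Nc) (max N₂ 1), fun N hN q _ hqN k h β h1 h2 h3 h4 y hy => ?_⟩
  have hNn : Nn ≤ N := le_trans (le_trans (le_max_left _ _) (le_max_left _ _)) hN
  have hNNc : Nc ≤ N := le_trans (le_trans (le_max_right _ _) (le_max_left _ _)) hN
  have hNN₂ : N₂ ≤ N := le_trans (le_trans (le_max_left _ _) (le_max_right _ _)) hN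
  have hN1 : 1 ≤ N := le_trans (le_trans (le_max_right _ _) (le_max_right _ _)) hN
  have hL100' := (hN₂ N hNN₂).1
  obtain ⟨L, hLd⟩ : ∃ L, L = Real.log (N : ℝ) := ⟨_, rfl⟩
  have hN0 : (0 : ℝ) < N := by exact_mod_cast hN1
  have hNr1 : (1 : ℝ) ≤ N := by exact_mod_cast hN1
  have hq : 1 ≤ q := Nat.pos_of_ne_zero (NeZero.ne q)
  have hq0 : (0 : ℝ) < q := by exact_mod_cast hq
  have hqNr : (q : ℝ) ≤ N := by
    refine hqN.trans ?_
    calc (N : ℝ) ^ (7 / 10 - (1 / 30 + ρ)) ≤ (N : ℝ) ^ (1 : ℝ) :=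
          Real.rpow_le_rpow_of_exponent_le hNr1 (by linarith)
      _ = N := Real.rpow_one _
  have e1 := hn N hNn q hqN k h β h1 h2 h3 h4 y hy
  have e2 := nonu hc hLd (by rw [hLd]; linarith) hN1 (bd_LA (by linarith)) (hNc N hNNc) (X := A)
    le_rfl hqNr y hy β
  have e3 := P_le Pool.Agent.Y297.GJ.orth e1 e2
  refine e3.trans ?_
  rw [← hLd] at hL100' ⊢
  have hL0 : 0 < L := by linarith
  have hφ0 : (0 : ℝ) < q.totient := by exact_mod_cast Nat.totient_pos.2 hq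
  have e5 : ((q.totient : ℝ))⁻¹ ≤ 3 * L / q := by
    have h1 := q_le_phi (q := q) hq
    have h2 : Real.log q ≤ L := by
      rw [hLd]
      exact Real.log_le_log hq0 hqNr
    rw [inv_eq_one_div, div_le_div_iff₀ hφ0 hq0, one_mul]
    refine h1.trans ?_
    rw [mul_comm (3 * L)]
    apply mul_le_mul_of_nonneg_left _ hφ0.le
    linarith
  have e6 : ((q.totient : ℝ))⁻¹ * ((N : ℝ) ^ 2 / L ^ (A + 2)) ≤ (N : ℝ) ^ 2 / (q * L ^ A) / 2 := by
    calc ((q.totient : ℝ))⁻¹ * ((N : ℝ) ^ 2 / L ^ (A + 2)) ≤ 3 * L / q * ((N : ℝ) ^ 2 / L ^ (A + 2)) := by gcongr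
      _ = (N : ℝ) ^ 2 / (q * L ^ A) * (3 / L) := by
          rw [pow_add]
          field_simp
      _ ≤ (N : ℝ) ^ 2 / (q * L ^ A) * (1 / 2) := by
          have : 3 / L ≤ 1 / 2 := by
            rw [div_le_div_iff₀ hL0 (by norm_num)]
            linarith
          gcongr
      _ = _ := by ring
  linarith

/-- the sums over the classes, a window -/
lemma P_shift {q Q V : ℕ} [NeZero q] (β : ℝ) :
    P q Q (fun b => LA (V + b)) β ≤ 2 * P q (V + Q) LA β + 2 * P q V LA β := by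
  have key : ∀ l : ZMod q, cl q Q (fun b => LA (V + b)) β l =
      ee (-(V * β)) * (cl q (V + Q) LA β (l + (V : ZMod q)) - cl q V LA β (l + (V : ZMod q))) := by
    intro l
    unfold cl
    have e1 : (Icc 1 (V + Q)).filter (fun n : ℕ => (n : ZMod q) = l + (V : ZMod q)) =
        (Icc 1 V).filter (fun n : ℕ => (n : ZMod q) = l + (V : ZMod q)) ∪
        (Ioc V (V + Q)).filter (fun n : ℕ => (n : ZMod q) = l + (V : ZMod q)) := by
      rw [← filter_union]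
      congr 1
      ext n
      simp only [mem_union, mem_Icc, mem_Ioc]
      omega
    have hdis : Disjoint ((Icc 1 V).filter (fun n : ℕ => (n : ZMod q) = l + (V : ZMod q)))
        ((Ioc V (V + Q)).filter (fun n : ℕ => (n : ZMod q) = l + (V : ZMod q))) := by
      rw [disjoint_left]
      intro n hn hn'
      rw [mem_filter, mem_Icc] at hn
      rw [mem_filter, mem_Ioc] at hn'
      omega
    rw [e1, sum_union hdis, add_sub_cancel_left, mul_sum]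
    apply sum_bij (fun b _ => V + b)
    · intro b hb
      rw [mem_filter, mem_Icc] at hb
      rw [mem_filter, mem_Ioc]
      refine ⟨by omega, ?_⟩
      push_cast
      rw [hb.2, add_comm]
    · intro b _ b' _ h
      simpa using h
    · intro n hn
      rw [mem_filter, mem_Ioc] at hn
      refine ⟨n - V, ?_, by omega⟩
      rw [mem_filter, mem_Icc]
      refine ⟨by omega, ?_⟩
      rw [Nat.cast_sub (by omega), hn.2]
      ring
    · intro b _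
      have e2 : ee (b * β) = ee (-(V * β)) * ee (((V + b : ℕ) : ℝ) * β) := by
        rw [← Pool.Agent.H807R2.Dav.ee_add]
        congr 1
        push_cast
        ring
      rw [e2]
      ring
  have h1 : ∀ l : ZMod q, ‖cl q Q (fun b => LA (V + b)) β l‖ ^ 2 ≤
      2 * ‖cl q (V + Q) LA β (l + (V : ZMod q))‖ ^ 2 + 2 * ‖cl q V LA β (l + (V : ZMod q))‖ ^ 2 := by
    intro l
    rw [key, norm_mul, Pool.Agent.H807R2.Dav.norm_ee, one_mul]
    obtain ⟨x, hx⟩ : ∃ x, x = cl q (V + Q) LA β (l + (V : ZMod q)) := ⟨_, rfl⟩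
    obtain ⟨y, hy⟩ : ∃ y, y = cl q V LA β (l + (V : ZMod q)) := ⟨_, rfl⟩
    rw [← hx, ← hy]
    have e3 := pow_le_pow_left₀ (norm_nonneg _) (norm_sub_le x y) 2
    nlinarith [sq_nonneg (‖x‖ - ‖y‖)]
  unfold P
  refine (sum_le_sum fun l _ => h1 l).trans ?_
  rw [sum_add_distrib, ← mul_sum, ← mul_sum]
  have h2 : ∀ f : ZMod q → ℝ, ∑ l : ZMod q, f (l + (V : ZMod q)) = ∑ l : ZMod q, f l := by
    intro f
    exact Equiv.sum_comp (Equiv.addRight (V : ZMod q)) f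
  rw [h2 (fun l => ‖cl q (V + Q) LA β l‖ ^ 2), h2 (fun l => ‖cl q V LA β l‖ ^ 2)]

/-- the mean square of the error, all classes, regular moduli, windows -/
theorem coreLAV (A D : ℕ) {ρ : ℝ} (hρ : 0 < ρ) : ∃ A' C : ℕ, ∀ K : ℕ, ∃ B : ℕ, ∀ E : ℕ, ∃ Y₀ : ℕ, ∀ Y : ℕ, Y₀ ≤ Y →
    ∀ z : ℕ, Real.log (6 * Y) ^ B ≤ z → (z : ℝ) ≤ Real.log Y ^ E → ∀ (q Q V : ℕ) [NeZero q],
    (q : ℝ) * (Y : ℝ) ^ (1 / 3 + ρ) ≤ Q → Q ≤ Y → V ≤ 2 * Y → (V : ℝ) ≤ Q * Real.log Q ^ D →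
    (∀ d ∈ E2 A' (min (ρ / 2 / 2) (1 / 3)) K C Y, ¬ d ∣ q) → ∀ a : ZMod q,
      ∑ n ∈ (Icc (Y + 2 * Q) (2 * Y)).filter (fun n : ℕ => (n : ZMod q) = a),
        ‖∑ b ∈ Icc 1 Q, LA (V + b) * GZ z (n - b)‖ ^ 2 ≤ Y * (Q : ℝ) ^ 2 / (q * Real.log Q ^ A) := by
  have hρ2 : 0 < ρ / 2 := by positivity
  obtain ⟨C₁, N₁, hmin⟩ := minLA (A + 2 * D + 11) hρ2
  obtain ⟨C, hCd⟩ : ∃ C, C = C₁ + 1 := ⟨_, rfl⟩
  obtain ⟨A', hA'⟩ := majG (A + 2 * C + 9) C hρ2
  refine ⟨A', C, fun K => ?_⟩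
  obtain ⟨B, hB⟩ := hA' K
  obtain ⟨_C, B₀, hB₀⟩ := goodW 1 1 hρ
  refine ⟨max B B₀, fun E => ?_⟩
  obtain ⟨Y₁, hY₁⟩ := hB E
  obtain ⟨Y₂, hY₂⟩ := hB₀ E
  obtain ⟨Y₄, hY₄⟩ := envW 1 (max 2000 (3 ^ C₁)) hρ
  obtain ⟨Y₅, hY₅⟩ := Filter.eventually_atTop.1 (ev_log C (s := ρ / 2) hρ2 2000)
  obtain ⟨M, hM⟩ : ∃ M, M = N₁ + 1 := ⟨_, rfl⟩
  refine ⟨max (max Y₁ Y₂) (max (max Y₄ Y₅) (M ^ 3)), fun Y hY z hz1 hz2 q Q V _ hqQ hQY hVY hVQ hreg a => ?_⟩
  have hYY₁ : Y₁ ≤ Y := le_trans (le_trans (le_max_left _ _) (le_max_left _ _)) hY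
  have hYY₂ : Y₂ ≤ Y := le_trans (le_trans (le_max_right _ _) (le_max_left _ _)) hY
  have hYY₄ : Y₄ ≤ Y := le_trans (le_trans (le_trans (le_max_left _ _) (le_max_left _ _)) (le_max_right _ _)) hY
  have hYY₅ : Y₅ ≤ Y := le_trans (le_trans (le_trans (le_max_right _ _) (le_max_left _ _)) (le_max_right _ _)) hY
  have hYM : M ^ 3 ≤ Y := le_trans (le_trans (le_max_right _ _) (le_max_right _ _)) hY
  have hq : 1 ≤ q := Nat.pos_of_ne_zero (NeZero.ne q)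
  obtain ⟨hY1, hQ1, hLm, hLY, hl6, -, -, -⟩ := hY₄ Y hYY₄ q Q hq hqQ hQY
  obtain ⟨-, hLC⟩ := hY₅ Y hYY₅
  have hY0 : (0 : ℝ) < Y := by exact_mod_cast hY1
  have hYr1 : (1 : ℝ) ≤ Y := by exact_mod_cast hY1
  have hQ0 : (0 : ℝ) < Q := by exact_mod_cast hQ1
  have hQr1 : (1 : ℝ) ≤ Q := by exact_mod_cast hQ1
  have hQYr : (Q : ℝ) ≤ Y := by exact_mod_cast hQY
  have hq1 : (1 : ℝ) ≤ q := by exact_mod_cast hq
  have hq0 : (0 : ℝ) < q := by linarith
  have hL2000' : 2000 ≤ Real.log Q := (le_max_left _ _).trans hLm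
  have hL3C' : 3 ^ C₁ ≤ Real.log Q := (le_max_right _ _).trans hLm
  have hlY6 : Real.log Y ≤ Real.log (6 * Y) := Real.log_le_log hY0 (by linarith)
  have hl61 : 1 ≤ Real.log (6 * Y) := by linarith
  have hz11 : Real.log (6 * Y) ^ B ≤ z := (pow_le_pow_right₀ hl61 (le_max_left _ _)).trans hz1
  have hz12 : Real.log (6 * Y) ^ B₀ ≤ z := (pow_le_pow_right₀ hl61 (le_max_right _ _)).trans hz1
  -- `Q` is large
  have hQM : M ≤ Q := by
    have h1 : (M : ℝ) ≤ Q := by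
      calc (M : ℝ) = ((M : ℝ) ^ (3 : ℕ)) ^ (1 / 3 : ℝ) := by
            rw [← Real.rpow_natCast, ← Real.rpow_mul (Nat.cast_nonneg _)]
            norm_num
        _ ≤ (Y : ℝ) ^ (1 / 3 : ℝ) := by
            apply Real.rpow_le_rpow (by positivity) _ (by norm_num)
            exact_mod_cast hYM
        _ ≤ (Y : ℝ) ^ (1 / 3 + ρ) := Real.rpow_le_rpow_of_exponent_le hYr1 (by linarith)
        _ ≤ q * (Y : ℝ) ^ (1 / 3 + ρ) := le_mul_of_one_le_left (by positivity) hq1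
        _ ≤ Q := hqQ
    exact_mod_cast h1
  obtain ⟨L, hLd⟩ : ∃ L, L = Real.log Q := ⟨_, rfl⟩
  rw [← hLd] at hL2000' hL3C' hLY hl6 hVQ
  have hL0 : 0 < L := by linarith
  have hL1 : 1 ≤ L := by linarith
  have hLCY : L ^ C ≤ (Y : ℝ) ^ (ρ / 2) := (pow_le_pow_left₀ hL0.le hLY C).trans hLC
  -- the range of the moduli
  have hrange : ∀ q' : ℕ, (q' : ℝ) ≤ q * L ^ C → (q' : ℝ) * (Y : ℝ) ^ (1 / 3 + ρ / 2) ≤ Q := by
    intro q' h
    calc (q' : ℝ) * (Y : ℝ) ^ (1 / 3 + ρ / 2) ≤ (q * L ^ C) * (Y : ℝ) ^ (1 / 3 + ρ / 2) := by gcongr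
      _ ≤ (q * (Y : ℝ) ^ (ρ / 2)) * (Y : ℝ) ^ (1 / 3 + ρ / 2) := by gcongr
      _ = q * (Y : ℝ) ^ (1 / 3 + ρ) := by
          rw [mul_assoc, ← Real.rpow_add hY0]
          congr 2
          ring
      _ ≤ Q := hqQ
  have hrange2 : ∀ q' : ℕ, (q' : ℝ) ≤ q * L ^ C → (q' : ℝ) ≤ (Q : ℝ) ^ (7 / 10 - (1 / 30 + ρ / 2)) := by
    intro q' h
    have h1 := hrange q' h
    have h2 : (q' : ℝ) * (Q : ℝ) ^ (1 / 3 + ρ / 2) ≤ Q := by
      refine le_trans ?_ h1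
      have : (Q : ℝ) ^ (1 / 3 + ρ / 2) ≤ (Y : ℝ) ^ (1 / 3 + ρ / 2) :=
        Real.rpow_le_rpow hQ0.le hQYr (by positivity)
      gcongr
    have h3 : (Q : ℝ) ^ (7 / 10 - (1 / 30 + ρ / 2)) * (Q : ℝ) ^ (1 / 3 + ρ / 2) = Q := by
      rw [← Real.rpow_add hQ0]
      have : 7 / 10 - (1 / 30 + ρ / 2) + (1 / 3 + ρ / 2) = 1 := by ring
      rw [this, Real.rpow_one]
    have h4 : (0 : ℝ) < (Q : ℝ) ^ (1 / 3 + ρ / 2) := by positivity
    refine le_of_mul_le_mul_right ?_ h4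
    rw [h3]
    exact h2
  have hqself : (q : ℝ) ≤ q * L ^ C := le_mul_of_one_le_right hq0.le (one_le_pow₀ hL1)
  have hqLC : (q : ℝ) * L ^ C ≤ Q := by
    calc (q : ℝ) * L ^ C ≤ q * (Y : ℝ) ^ (ρ / 2) := by gcongr
      _ ≤ q * (Y : ℝ) ^ (1 / 3 + ρ) := by
          have : (Y : ℝ) ^ (ρ / 2) ≤ (Y : ℝ) ^ (1 / 3 + ρ) :=
            Real.rpow_le_rpow_of_exponent_le hYr1 (by linarith)
          gcongr
      _ ≤ Q := hqQ
  have h6Q : ∀ n, n ≤ 6 * Y → ‖GZ z n‖ ≤ L ^ 2 := by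
    have h1 := (hY₂ Y hYY₂ z hz12 hz2 q Q hqQ hQY).1
    rw [← hLd] at h1
    exact h1
  -- the length of the initial segments
  obtain ⟨N, hN⟩ : ∃ N, N = V + Q := ⟨_, rfl⟩
  have hNQ : Q ≤ N := by omega
  have hNr : (Q : ℝ) ≤ N := by exact_mod_cast hNQ
  have hN0 : (0 : ℝ) < N := by linarith
  have hlN1 : L ≤ Real.log N := by
    rw [hLd]
    exact Real.log_le_log hQ0 hNr
  have hlN2 : Real.log N ≤ 3 * L := by
    refine le_trans (Real.log_le_log hN0 ?_) hl6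
    have : N ≤ 6 * Y := by omega
    exact_mod_cast this
  have hNle : (N : ℝ) ≤ 2 * (Q * L ^ D) := by
    have h1 : (N : ℝ) = V + Q := by rw [hN]; push_cast; ring
    have h2 : (Q : ℝ) ≤ Q * L ^ D := le_mul_of_one_le_right hQ0.le (one_le_pow₀ hL1)
    linarith
  have hcore := coreX (a := a) Pool.Agent.Y708.GJ.lift Pool.Agent.Y872.GJ.pars (fun b => LA (V + b)) (GZ z) (A := A)
    (C := C) (L := L) (Y := Y) (N := 3 * Y) (Q := Q) (q := q) rfl hQ1 hQY (by linarith) hqLC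
    (by
      have e1 : ∀ b ∈ Icc 1 Q, ‖LA (V + b)‖ ^ 2 ≤ (3 * L) ^ 2 := by
        intro b hb
        rw [mem_Icc] at hb
        apply pow_le_pow_left₀ (norm_nonneg _)
        refine (norm_LA_le (X := N) (by omega)).trans hlN2
      refine (sum_le_sum e1).trans ?_
      rw [sum_const, Nat.card_Icc, nsmul_eq_mul, Nat.add_sub_cancel]
      apply mul_le_mul_of_nonneg_left _ hQ0.le
      calc (3 * L) ^ 2 = 9 * L ^ 2 := by ring
        _ ≤ L * L ^ 2 := by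
            apply mul_le_mul_of_nonneg_right (by linarith) (by positivity)
        _ = L ^ 3 := by ring
        _ ≤ L ^ 8 := pow_le_pow_right₀ hL1 (by norm_num))
    (fun n hn => h6Q n (by omega))
    (fun k h β hk1 hk2 hk3 hk4 => by
      have hpw : Real.log N ^ C₁ ≤ L ^ C := by
        calc Real.log N ^ C₁ ≤ (3 * L) ^ C₁ := pow_le_pow_left₀ (by linarith) hlN2 _
          _ = 3 ^ C₁ * L ^ C₁ := mul_pow _ _ _
          _ ≤ L * L ^ C₁ := by
              apply mul_le_mul_of_nonneg_right hL3C' (by positivity)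
          _ = L ^ C := by rw [hCd]; ring
      have hqN : (q : ℝ) ≤ (N : ℝ) ^ (7 / 10 - (1 / 30 + ρ / 2)) := by
        by_cases hexp : 0 ≤ 7 / 10 - (1 / 30 + ρ / 2)
        · exact (hrange2 q hqself).trans (Real.rpow_le_rpow hQ0.le hNr hexp)
        · exfalso
          push Not at hexp
          have e1 := hrange2 q hqself
          have e2 : (Q : ℝ) ^ (7 / 10 - (1 / 30 + ρ / 2)) < 1 := by
            apply Real.rpow_lt_one_of_one_lt_of_neg _ hexp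
            by_contra hcon
            push Not at hcon
            have : Real.log Q ≤ 0 := Real.log_nonpos hQ0.le hcon
            rw [← hLd] at this
            linarith
          linarith
      have hk0 : (0 : ℝ) ≤ k := Nat.cast_nonneg _
      have c1 : Real.log N ^ C₁ ≤ k := hpw.trans hk1
      have c2 : (q : ℝ) * k * Real.log N ^ C₁ ≤ N := by
        calc (q : ℝ) * k * Real.log N ^ C₁ ≤ q * k * L ^ C := by gcongr
          _ ≤ Q := hk2
          _ ≤ N := hNr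
      have m1 := hmin N (by omega) q hqN k h β c1 c2 hk3 hk4 N le_rfl
      have m2 := hmin N (by omega) q hqN k h β c1 c2 hk3 hk4 V (by omega)
      have m3 := P_shift (q := q) (Q := Q) (V := V) β
      rw [← hN] at m3
      refine m3.trans ?_
      have m4 : (N : ℝ) ^ 2 / (q * Real.log N ^ (A + 2 * D + 11)) ≤ (Q : ℝ) ^ 2 / (q * L ^ (A + 9)) * (4 / L ^ 2) := by
        calc (N : ℝ) ^ 2 / (q * Real.log N ^ (A + 2 * D + 11)) ≤
            (2 * (Q * L ^ D)) ^ 2 / (q * L ^ (A + 2 * D + 11)) := by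
              gcongr
          _ = (Q : ℝ) ^ 2 / (q * L ^ (A + 9)) * (4 / L ^ 2) := by
              rw [show A + 2 * D + 11 = (A + 9) + D + D + 2 by ring, pow_add, pow_add, pow_add L (A + 9)]
              field_simp
              ring
      have m5 : 4 / L ^ 2 ≤ 1 / 4 := by
        rw [div_le_div_iff₀ (by positivity) (by norm_num)]
        nlinarith
      have m6 : 0 ≤ (Q : ℝ) ^ 2 / (q * L ^ (A + 9)) := by positivity
      have m7 : (Q : ℝ) ^ 2 / (q * L ^ (A + 9)) * (4 / L ^ 2) ≤ (Q : ℝ) ^ 2 / (q * L ^ (A + 9)) * (1 / 4) :=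
        mul_le_mul_of_nonneg_left m5 m6
      linarith)
    (fun j hj η hη => by
      have hq' : (((j + 1) * q : ℕ) : ℝ) ≤ q * L ^ C := by
        rw [Nat.cast_mul]
        calc ((j + 1 : ℕ) : ℝ) * q ≤ L ^ C * q := by gcongr
          _ = q * L ^ C := mul_comm _ _
      have := hY₁ Y hYY₁ z hz11 hz2 ((j + 1) * q) Q (hrange _ hq') hQY
        (fun d hd => E2_reg hreg (hj.trans (pow_le_pow_left₀ hL0.le hLY C)) hd) η
        (by rw [← hLd]; exact hη)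
      rw [← hLd] at this
      exact this)
  rw [← hLd]
  exact hcore

end Pool.Agent.H567.HW
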