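import Pool.Agent.H567.HW.HybG

/-!
Project HW (helper567), part 53: all lengths, for an abstract class of residues.
-/

set_option autoImplicit false

namespace Pool.Agent.H567.HW

open Finset
open Pool.Agent.Y614.GJ.Core (ev_log)

/-- long first summands, statement -/
def LongStm (Ad : ℕ → ℕ → ℕ → Prop) (A : ℕ) (ρ : ℝ) : Prop := ∃ x₀ : ℕ, ∀ x : ℕ, x₀ ≤ x → ∀ q : ℕ, 1 ≤ q →
    (q : ℝ) ≤ (x : ℝ) ^ (2 / 3 - ρ) → ∀ a : ℕ, Ad x q a →
    ∃ Bad : Finset ℕ, (Bad.card : ℝ) ≤ x / (q * Real.log x ^ A) ∧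
      ∀ n : ℕ, n ≤ x → n ∉ Bad → n % q = a % q → 2 ∣ n → ∀ P : ℕ, (x : ℝ) / Real.log x ^ A ≤ P →
        2 * P ≤ n → |SR n P - P * SS n| ≤ P / Real.log x ^ A

/-- the theorem with weights, all lengths, statement -/
def WStm (Ad : ℕ → ℕ → ℕ → Prop) (A : ℕ) (ρ : ℝ) : Prop := ∃ x₀ : ℕ, ∀ x : ℕ, x₀ ≤ x → ∀ q : ℕ, 1 ≤ q → ∀ a : ℕ,
    Ad x q a → ∃ Bad : Finset ℕ, (Bad.card : ℝ) ≤ x / (q * Real.log x ^ A) ∧
      ∀ n : ℕ, n ≤ x → n ∉ Bad → n % q = a % q → 2 ∣ n → ∀ P : ℕ, (q : ℝ) * (x : ℝ) ^ (1 / 3 + ρ) ≤ P →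
        2 * P ≤ n → |SR n P - P * SS n| ≤ P / Real.log x ^ A

/-- the theorem with weights, all lengths -/
theorem all_of (Ad : ℕ → ℕ → ℕ → Prop) (A : ℕ) {ρ : ℝ} (hρ : 0 < ρ) (hhyb : HybStm Ad (A + 1) ρ)
    (hlong : LongStm Ad (A + 4) ρ) : WStm Ad A ρ := by
  classical
  obtain ⟨x₁, h₁⟩ := hhyb
  obtain ⟨x₂, h₂⟩ := hlong
  obtain ⟨x₃, h₃⟩ := Filter.eventually_atTop.1 (ev_log (A + 4) (s := 1 / 4) (by norm_num) 1000)
  refine ⟨max (max x₁ x₂) (max x₃ 1), fun x hx q hq a hAd => ?_⟩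
  have hxx₁ : x₁ ≤ x := le_trans (le_trans (le_max_left _ _) (le_max_left _ _)) hx
  have hxx₂ : x₂ ≤ x := le_trans (le_trans (le_max_right _ _) (le_max_left _ _)) hx
  have hxx₃ : x₃ ≤ x := le_trans (le_trans (le_max_left _ _) (le_max_right _ _)) hx
  have hx1 : 1 ≤ x := le_trans (le_trans (le_max_right _ _) (le_max_right _ _)) hx
  obtain ⟨hL1000, hLp⟩ := h₃ x hxx₃
  obtain ⟨L, hLd⟩ : ∃ L, L = Real.log x := ⟨_, rfl⟩
  have hx0 : (0 : ℝ) < x := by exact_mod_cast hx1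
  have hxr1 : (1 : ℝ) ≤ x := by exact_mod_cast hx1
  have hL0 : 0 < L := by rw [hLd]; linarith
  have hL1 : 1 ≤ L := by rw [hLd]; linarith
  have hq0 : (0 : ℝ) < q := by exact_mod_cast hq
  have hq1 : (1 : ℝ) ≤ q := by exact_mod_cast hq
  by_cases hqx : (q : ℝ) ≤ (x : ℝ) ^ (2 / 3 - ρ)
  swap
  · -- no length is possible
    refine ⟨∅, ?_, ?_⟩
    · rw [card_empty, Nat.cast_zero, ← hLd]
      positivity
    · intro n hn _ _ _ P hP hPn
      exfalso
      push Not at hqx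
      have h1 : (P : ℝ) ≤ x := by
        have : P ≤ x := by omega
        exact_mod_cast this
      have h2 : (x : ℝ) < q * (x : ℝ) ^ (1 / 3 + ρ) := by
        calc (x : ℝ) = (x : ℝ) ^ (2 / 3 - ρ) * (x : ℝ) ^ (1 / 3 + ρ) := by
              rw [← Real.rpow_add hx0]
              have : 2 / 3 - ρ + (1 / 3 + ρ) = 1 := by ring
              rw [this, Real.rpow_one]
          _ < q * (x : ℝ) ^ (1 / 3 + ρ) := by
              apply mul_lt_mul_of_pos_right hqx (by positivity)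
      linarith
  obtain ⟨Bad₁, hb11, hb12, hb13⟩ := h₁ x hxx₁ q hq a hAd
  obtain ⟨Bad₂, hb21, hb22⟩ := h₂ x hxx₂ q hq hqx a hAd
  obtain ⟨Sm, hSm⟩ : ∃ Sm : Finset ℕ, Sm = (Icc 1 ⌊(x : ℝ) / L ^ (A + 3)⌋₊).filter (fun n => n % q = a % q) := ⟨_, rfl⟩
  rw [← hLd] at hb11 hb13 hb21 hb22 hL1000 hLp ⊢
  have hq2 : L ^ (A + 4) * q ≤ x := by
    have h3 : (q : ℝ) * L ^ (A + 4) ≤ (x : ℝ) ^ (2 / 3 - ρ) * (x : ℝ) ^ (1 / 4 : ℝ) := by gcongr
    have h4 : (x : ℝ) ^ (2 / 3 - ρ) * (x : ℝ) ^ (1 / 4 : ℝ) ≤ x := by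
      rw [← Real.rpow_add hx0]
      calc (x : ℝ) ^ (2 / 3 - ρ + 1 / 4 : ℝ) ≤ (x : ℝ) ^ (1 : ℝ) :=
            Real.rpow_le_rpow_of_exponent_le hxr1 (by linarith)
        _ = x := Real.rpow_one _
    linarith
  have hSmc : (Sm.card : ℝ) ≤ x / (q * L ^ A) * (1 / 4) := by
    have h2 : (Sm.card : ℝ) ≤ (x / L ^ (A + 3)) / q + 1 := by
      have := Pool.Agent.Y883.T4.class_le ⌊(x : ℝ) / L ^ (A + 3)⌋₊ q a hq Sm (x / L ^ (A + 3)) (by positivity)
        (fun n hn => by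
          rw [hSm, mem_filter, mem_Icc] at hn
          refine ⟨hn.2, ?_⟩
          exact (Nat.le_floor_iff (by positivity)).1 hn.1.2)
      exact this
    have h3 : (1 : ℝ) ≤ x / (q * L ^ (A + 4)) := by
      rw [le_div_iff₀ (by positivity), one_mul]
      linarith
    have h4 : (x / L ^ (A + 3)) / q = x / (q * L ^ A) * (1 / L ^ 3) := by
      rw [pow_add]
      field_simp
    have h5 : (x : ℝ) / (q * L ^ (A + 4)) = x / (q * L ^ A) * (1 / L ^ 4) := by
      rw [pow_add]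
      field_simp
    have h6 : 0 ≤ (x : ℝ) / (q * L ^ A) := by positivity
    have h7 : 1 / L ^ 3 + 1 / L ^ 4 ≤ 1 / 4 := by
      have h8 : 1 / L ^ 3 ≤ 1 / 8 := by
        rw [div_le_div_iff₀ (by positivity) (by norm_num)]
        have : L ≤ L ^ 3 := by
          calc L = L ^ 1 := (pow_one _).symm
            _ ≤ L ^ 3 := pow_le_pow_right₀ hL1 (by norm_num)
        linarith
      have h9 : 1 / L ^ 4 ≤ 1 / 8 := by
        rw [div_le_div_iff₀ (by positivity) (by norm_num)]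
        have : L ≤ L ^ 4 := by
          calc L = L ^ 1 := (pow_one _).symm
            _ ≤ L ^ 4 := pow_le_pow_right₀ hL1 (by norm_num)
        linarith
      linarith
    calc (Sm.card : ℝ) ≤ (x / L ^ (A + 3)) / q + 1 := h2
      _ ≤ x / (q * L ^ A) * (1 / L ^ 3) + x / (q * L ^ A) * (1 / L ^ 4) := by rw [h4, ← h5]; linarith
      _ = x / (q * L ^ A) * (1 / L ^ 3 + 1 / L ^ 4) := by ring
      _ ≤ _ := mul_le_mul_of_nonneg_left h7 h6
  refine ⟨Sm ∪ (Bad₁ ∪ Bad₂), ?_, ?_⟩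
  · have h1 : ((Sm ∪ (Bad₁ ∪ Bad₂)).card : ℝ) ≤ Sm.card + (Bad₁.card + Bad₂.card) := by
      have := (card_union_le Sm (Bad₁ ∪ Bad₂)).trans (Nat.add_le_add_left (card_union_le Bad₁ Bad₂) _)
      exact_mod_cast this
    have h2 : (x : ℝ) / (q * L ^ (A + 1)) ≤ x / (q * L ^ A) * (1 / 4) := by
      have : (x : ℝ) / (q * L ^ (A + 1)) = x / (q * L ^ A) * (1 / L) := by
        rw [pow_add]
        field_simp
      rw [this]
      apply mul_le_mul_of_nonneg_left _ (by positivity)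
      rw [div_le_div_iff₀ hL0 (by norm_num)]
      linarith
    have h3 : (x : ℝ) / (q * L ^ (A + 4)) ≤ x / (q * L ^ (A + 1)) := by
      apply div_le_div_of_nonneg_left hx0.le (by positivity)
      have : L ^ (A + 1) ≤ L ^ (A + 4) := pow_le_pow_right₀ hL1 (by omega)
      gcongr
    have h4 : 0 ≤ (x : ℝ) / (q * L ^ A) := by positivity
    linarith
  · intro n hnx hn hmod h2n P hP hPn
    rw [mem_union, mem_union, not_or, not_or] at hn
    obtain ⟨hn1, hn2, hn3⟩ := hn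
    by_cases hcase : 24 * P ≤ n
    · refine (hb13 n hnx hn2 hmod h2n P hP hcase).trans ?_
      apply div_le_div_of_nonneg_left (Nat.cast_nonneg _) (by positivity)
      exact pow_le_pow_right₀ hL1 (by omega)
    · have hnbig : (x : ℝ) / L ^ (A + 3) < n := by
        by_contra hcon
        push Not at hcon
        apply hn1
        rw [hSm, mem_filter, mem_Icc]
        exact ⟨⟨by omega, Nat.le_floor hcon⟩, hmod⟩
      have hPbig : (x : ℝ) / L ^ (A + 4) ≤ P := by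
        have h1 : (n : ℝ) ≤ 24 * P := by
          have : n ≤ 24 * P := by omega
          exact_mod_cast this
        have h2 : (x : ℝ) / L ^ (A + 4) = x / L ^ (A + 3) * (1 / L) := by
          rw [pow_succ]
          field_simp
        have h3 : (1 : ℝ) / L ≤ 1 / 24 := by
          rw [div_le_div_iff₀ hL0 (by norm_num)]
          linarith
        rw [h2]
        calc (x : ℝ) / L ^ (A + 3) * (1 / L) ≤ (24 * P) * (1 / 24) := by
              gcongr
              linarith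
          _ = P := by ring
      refine (hb22 n hnx hn3 hmod h2n P hPbig hPn).trans ?_
      apply div_le_div_of_nonneg_left (Nat.cast_nonneg _) (by positivity)
      exact pow_le_pow_right₀ hL1 (by omega)

end Pool.Agent.H567.HW
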