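import Pool.Agent.H567.HW.Bae

/-!
Project HW (helper567), part 34: the interval from the square root to four times the square root.
-/

set_option autoImplicit false

namespace Pool.Agent.H567.HW

open Finset Filter
open Pool.Agent.Y614.GJ.Core (ev_log)

/-- the primes `p` in `(√N, 4 √N)` with `N - p` prime and different from `p` -/
def ints (N : ℕ) : Set ℕ :=
  {p : ℕ | p.Prime ∧ (N - p).Prime ∧ p ≠ N - p ∧ Real.sqrt N < p ∧ (p : ℝ) < 4 * Real.sqrt N}

lemma ints_eq {N : ℕ} (hN : 64 < N) : ints N =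
    (((Ioc (Nat.sqrt N) (⌈4 * Real.sqrt N⌉₊ - 1)).filter (fun p => p.Prime ∧ (N - p).Prime) : Finset ℕ) : Set ℕ) := by
  have hNr : (64 : ℝ) < N := by exact_mod_cast hN
  have hs8 : 8 < Real.sqrt N := by
    rw [show (8 : ℝ) = Real.sqrt 64 by rw [show (64 : ℝ) = 8 ^ 2 by norm_num]; exact (Real.sqrt_sq (by norm_num)).symm]
    exact Real.sqrt_lt_sqrt (by norm_num) hNr
  have hss : Real.sqrt N * Real.sqrt N = N := Real.mul_self_sqrt (by linarith)
  ext p
  simp only [ints, Set.mem_ofPred_eq, coe_filter, mem_Ioc]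
  constructor
  · rintro ⟨h1, h2, h3, h4, h5⟩
    refine ⟨⟨?_, ?_⟩, h1, h2⟩
    · rw [Nat.sqrt_lt']
      have h6 : (N : ℝ) < (p : ℝ) ^ 2 := (Real.sqrt_lt' (by linarith)).1 h4
      exact_mod_cast h6
    · have : p < ⌈4 * Real.sqrt N⌉₊ := Nat.lt_ceil.2 h5
      omega
  · rintro ⟨⟨h1, h2⟩, h3, h4⟩
    have h5 : Real.sqrt N < p := by
      rw [Nat.sqrt_lt'] at h1
      have h6 : (N : ℝ) < (p : ℝ) ^ 2 := by exact_mod_cast h1
      rw [Real.sqrt_lt' (by exact_mod_cast h3.pos)]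
      exact h6
    have h6 : (p : ℝ) < 4 * Real.sqrt N := by
      have hpos : 0 < p := h3.pos
      exact Nat.lt_ceil.1 (by omega)
    refine ⟨h3, h4, ?_, h5, h6⟩
    intro hcon
    have h7 : 2 * p = N := by
      have := h4.pos
      omega
    have h8 : 2 * (p : ℝ) = N := by exact_mod_cast h7
    nlinarith

/-- the formula for the interval -/
def FormI (ε : ℝ) (_ N : ℕ) : Prop :=
  |((ints N).ncard : ℝ) - 6 * (SS N * (Real.sqrt N / Real.log N ^ 2))| ≤ ε * (6 * (SS N * (Real.sqrt N / Real.log N ^ 2)))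

lemma rel_two {x y z e : ℝ} (he : 0 ≤ e) (he1 : e ≤ 1) (hz : 0 ≤ z) (h1 : |x - y| ≤ e * y) (h2 : |y - z| ≤ e * z) :
    |x - z| ≤ 3 * e * z := by
  have h3 : y ≤ 2 * z := by
    have := (abs_le.1 h2).2
    nlinarith
  calc |x - z| = |(x - y) + (y - z)| := by congr 1; ring
    _ ≤ |x - y| + |y - z| := abs_add_le _ _
    _ ≤ e * y + e * z := by linarith
    _ ≤ e * (2 * z) + e * z := by gcongr
    _ = 3 * e * z := by ring

/-- numerical part -/
lemma int_main {e : ℝ} (he : 0 < e) : ∀ᶠ N : ℕ in atTop, ∀ U V : ℝ, Real.sqrt N - 1 ≤ U → U ≤ Real.sqrt N →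
    4 * Real.sqrt N - 1 ≤ V → V ≤ 4 * Real.sqrt N →
    |(V - U) / (Real.log V * Real.log N) - 6 * (Real.sqrt N / Real.log N ^ 2)| ≤ e * (6 * (Real.sqrt N / Real.log N ^ 2)) := by
  have h1 := ev_pow (s := 1 / 2) (by norm_num) (max 8 (2 / e))
  have h2 := ev_log 1 (s := 1) (by norm_num) (max 8 (8 / e))
  filter_upwards [h1, h2] with N hN1 hN2 U V hU1 hU2 hV1 hV2
  obtain ⟨hN2, -⟩ := hN2
  obtain ⟨s, hs⟩ : ∃ s, s = Real.sqrt N := ⟨_, rfl⟩
  obtain ⟨l, hl⟩ : ∃ l, l = Real.log N := ⟨_, rfl⟩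
  rw [← Real.sqrt_eq_rpow] at hN1
  rw [← hs] at hN1 hU1 hU2 hV1 hV2
  rw [← hl] at hN2
  rw [← hs, ← hl]
  have hs8 : 8 ≤ s := (le_max_left _ _).trans hN1
  have hse : 2 / e ≤ s := (le_max_right _ _).trans hN1
  have hl8 : 8 ≤ l := (le_max_left _ _).trans hN2
  have hle : 8 / e ≤ l := (le_max_right _ _).trans hN2
  rw [div_le_iff₀ he] at hse hle
  have hs0 : 0 < s := by linarith
  have hl0 : 0 < l := by linarith
  have hV0 : 0 < V := by linarith
  have hN0 : (0 : ℝ) < N := by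
    by_contra hcon
    push Not at hcon
    rw [Real.sqrt_eq_zero'.2 hcon] at hs
    linarith
  have hlogs : Real.log s = l / 2 := by
    rw [hs, hl, Real.log_sqrt hN0.le]
  have hv1 : l / 2 ≤ Real.log V := by
    rw [← hlogs]
    exact Real.log_le_log hs0 (by linarith)
  have hv2 : Real.log V ≤ l / 2 + 2 := by
    calc Real.log V ≤ Real.log (4 * s) := Real.log_le_log hV0 hV2
      _ = Real.log 4 + l / 2 := by rw [Real.log_mul (by norm_num) hs0.ne', hlogs]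
      _ ≤ l / 2 + 2 := by
        have : Real.log 4 = 2 * Real.log 2 := by
          rw [show (4 : ℝ) = 2 ^ 2 by norm_num, Real.log_pow]
          norm_num
        have h3 := Real.log_two_lt_d9
        linarith
  obtain ⟨v, hv⟩ : ∃ v, v = Real.log V := ⟨_, rfl⟩
  rw [← hv] at hv1 hv2 ⊢
  have hv0 : 0 < v := by linarith
  have hD1 : 3 * s - 1 ≤ V - U := by linarith
  have hD2 : V - U ≤ 3 * s + 1 := by linarith
  have hup : (V - U) / (v * l) ≤ (1 + e) * (6 * (s / l ^ 2)) := by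
    calc (V - U) / (v * l) ≤ (3 * s + 1) / (l / 2 * l) := by
          apply div_le_div₀ (by linarith) hD2 (by positivity)
          exact mul_le_mul_of_nonneg_right hv1 hl0.le
      _ = (1 + 1 / (3 * s)) * (6 * (s / l ^ 2)) := by
          field_simp
          ring
      _ ≤ (1 + e) * (6 * (s / l ^ 2)) := by
          apply mul_le_mul_of_nonneg_right _ (by positivity)
          have : 1 / (3 * s) ≤ e := by
            rw [div_le_iff₀ (by positivity)]
            nlinarith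
          linarith
  have hlow : (1 - e) * (6 * (s / l ^ 2)) ≤ (V - U) / (v * l) := by
    calc (1 - e) * (6 * (s / l ^ 2)) ≤ (3 * s - 1) / ((l / 2 + 2) * l) := by
          rw [le_div_iff₀ (by positivity)]
          have h3 : (1 - e) * (6 * (s / l ^ 2)) * ((l / 2 + 2) * l) = (1 - e) * (1 + 4 / l) * (3 * s) := by
            field_simp
            ring
          rw [h3]
          have h4 : 4 / l ≤ e / 2 := by
            rw [div_le_iff₀ hl0]
            linarith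
          have h5 : (1 - e) * (1 + 4 / l) ≤ 1 - e / 2 := by
            rcases le_or_gt e 1 with he1 | he1
            · calc (1 - e) * (1 + 4 / l) ≤ (1 - e) * (1 + e / 2) := by
                    apply mul_le_mul_of_nonneg_left (by linarith) (by linarith)
                _ ≤ 1 - e / 2 := by nlinarith
            · have h6 : 0 ≤ 4 / l := by positivity
              have h7 : 4 / l ≤ 1 / 2 := by
                rw [div_le_iff₀ hl0]
                linarith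
              nlinarith
          nlinarith
      _ ≤ (V - U) / (v * l) := by
          apply div_le_div₀ (by linarith) hD1 (by positivity)
          exact mul_le_mul_of_nonneg_right hv2 hl0.le
  rw [abs_le]
  constructor <;> linarith

theorem b58N {ρ ε : ℝ} (hρ : 0 < ρ) (hρ2 : ρ ≤ 1 / 6) (hε : 0 < ε) (A T : ℕ) : ∃ x₀ : ℕ, ∀ x : ℕ, x₀ ≤ x →
    ∀ q : ℕ, 1 ≤ q → (q : ℝ) ≤ (x : ℝ) ^ (1 / 6 - ρ / 2) → ∀ a : ℕ,
    (Nat.gcd a q : ℝ) ≤ Real.log x ^ T → ∃ Bad : Finset ℕ, (Bad.card : ℝ) ≤ x / (q * Real.log x ^ A) ∧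
      ∀ n : ℕ, 0 < n → n ≤ x → n ∉ Bad → n % q = a % q → 2 ∣ n → FormI ε q n := by
  have hρ4 : 0 < ρ / 4 := by positivity
  have hρ22 : 0 < ρ / 2 := by positivity
  obtain ⟨e, he⟩ : ∃ e, e = min (ε / 3) 1 := ⟨_, rfl⟩
  have he0 : 0 < e := by rw [he]; exact lt_min (by linarith) one_pos
  have he1 : e ≤ 1 := by rw [he]; exact min_le_right _ _
  have heε : e ≤ ε / 3 := by rw [he]; exact min_le_left _ _
  obtain ⟨x₁, h₁⟩ := bigAll A T 1 hρ4 he0 hρ22
  obtain ⟨n₂, h₂⟩ := eventually_atTop.1 (int_main he0)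
  obtain ⟨n₃, h₃⟩ := Filter.eventually_atTop.1 (ev_log 1 (s := 1) (by norm_num) 8)
  obtain ⟨m, hm⟩ : ∃ m, m = max (max n₂ n₃) 65 := ⟨_, rfl⟩
  refine ⟨max x₁ (m ^ 2), fun x hx q hq hqx a hgcd => ?_⟩
  have hxx₁ : x₁ ≤ x := le_trans (le_max_left _ _) hx
  have hxm : m ^ 2 ≤ x := le_trans (le_max_right _ _) hx
  have hm65 : 65 ≤ m := by rw [hm]; exact le_max_right _ _
  have hx1 : 1 ≤ x := le_trans (Nat.one_le_pow _ _ (by omega)) hxm
  have hx0 : (0 : ℝ) < x := by exact_mod_cast hx1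
  have hxr1 : (1 : ℝ) ≤ x := by exact_mod_cast hx1
  have hqx' : (q : ℝ) ≤ (x : ℝ) ^ (2 / 3 : ℝ) :=
    hqx.trans (Real.rpow_le_rpow_of_exponent_le hxr1 (by linarith))
  obtain ⟨B, hb1, hb2⟩ := h₁ x hxx₁ q hq hqx' a hgcd
  refine ⟨B, hb1, fun n h0 hnx hn hmod h2n => ?_⟩
  obtain ⟨hbig, -, hR⟩ := hb2 n h0 hnx hn hmod h2n
  have hn0 : (0 : ℝ) < n := by exact_mod_cast h0
  have hn1r : (1 : ℝ) ≤ n := by exact_mod_cast h0
  have hmn : m ≤ n := by
    have h1 : (m : ℝ) ≤ n := by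
      have h2 : (m : ℝ) ^ 2 ≤ x := by exact_mod_cast hxm
      calc (m : ℝ) = ((m : ℝ) ^ 2) ^ (1 / 2 : ℝ) := by
            rw [← Real.sqrt_eq_rpow, Real.sqrt_sq (Nat.cast_nonneg _)]
        _ ≤ (x : ℝ) ^ (1 / 2 : ℝ) := Real.rpow_le_rpow (by positivity) h2 (by norm_num)
        _ ≤ (x : ℝ) ^ (1 - ρ / 2) := Real.rpow_le_rpow_of_exponent_le hxr1 (by linarith)
        _ ≤ n := hbig.le
    exact_mod_cast h1
  have hn2 : n₂ ≤ n := le_trans (by rw [hm]; exact le_trans (le_max_left _ _) (le_max_left _ _)) hmn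
  have hn3 : n₃ ≤ n := le_trans (by rw [hm]; exact le_trans (le_max_right _ _) (le_max_left _ _)) hmn
  have hn64 : 64 < n := by omega
  obtain ⟨hl8, -⟩ := h₃ n hn3
  obtain ⟨s, hs⟩ : ∃ s, s = Real.sqrt n := ⟨_, rfl⟩
  have hnr64 : (64 : ℝ) < n := by exact_mod_cast hn64
  have hs8 : 8 < s := by
    rw [hs, show (8 : ℝ) = Real.sqrt 64 by
      rw [show (64 : ℝ) = 8 ^ 2 by norm_num]; exact (Real.sqrt_sq (by norm_num)).symm]
    exact Real.sqrt_lt_sqrt (by norm_num) hnr64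
  have hss : s * s = n := by rw [hs]; exact Real.mul_self_sqrt hn0.le
  obtain ⟨U, hU⟩ : ∃ U, U = Nat.sqrt n := ⟨_, rfl⟩
  obtain ⟨V, hV⟩ : ∃ V, V = ⌈4 * Real.sqrt n⌉₊ - 1 := ⟨_, rfl⟩
  have hU2 : (U : ℝ) ≤ s := by
    rw [hU, hs]
    exact Real.nat_sqrt_le_real_sqrt
  have hU1 : s - 1 ≤ U := by
    have := Real.real_sqrt_lt_nat_sqrt_succ (a := n)
    rw [← hU, ← hs] at this
    linarith
  have hceil : 1 ≤ ⌈4 * Real.sqrt n⌉₊ := by
    rw [Nat.one_le_ceil_iff]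
    rw [← hs]
    linarith
  have hV2 : (V : ℝ) ≤ 4 * s := by
    rw [hV, Nat.cast_sub hceil, ← hs]
    have : (⌈4 * s⌉₊ : ℝ) < 4 * s + 1 := Nat.ceil_lt_add_one (by linarith)
    push_cast
    linarith
  have hV1 : 4 * s - 1 ≤ V := by
    rw [hV, Nat.cast_sub hceil, ← hs]
    have : 4 * s ≤ (⌈4 * s⌉₊ : ℝ) := Nat.le_ceil _
    push_cast
    linarith
  have hUV : U ≤ V := by
    have : (U : ℝ) ≤ V := by linarith
    exact_mod_cast this
  have hV0 : 0 < V := by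
    have : (0 : ℝ) < V := by linarith
    exact_mod_cast this
  have h2V : 2 * V ≤ n := by
    have : 2 * (V : ℝ) ≤ n := by nlinarith
    exact_mod_cast this
  have hqV : (q : ℝ) * (n : ℝ) ^ (1 / 3 + ρ / 4) ≤ V := by
    have h1 : (q : ℝ) ≤ (n : ℝ) ^ (1 / 6 - ρ / 4) := by
      calc (q : ℝ) ≤ (x : ℝ) ^ (1 / 6 - ρ / 2) := hqx
        _ ≤ (x : ℝ) ^ ((1 - ρ / 2) * (1 / 6 - ρ / 4)) := by
            apply Real.rpow_le_rpow_of_exponent_le hxr1
            have e1 : (1 - ρ / 2) * (1 / 6 - ρ / 4) - (1 / 6 - ρ / 2) = ρ / 6 + ρ ^ 2 / 8 := by ring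
            have : 0 ≤ ρ / 6 + ρ ^ 2 / 8 := by positivity
            linarith
        _ = ((x : ℝ) ^ (1 - ρ / 2)) ^ (1 / 6 - ρ / 4) := by rw [Real.rpow_mul hx0.le]
        _ ≤ (n : ℝ) ^ (1 / 6 - ρ / 4) := Real.rpow_le_rpow (by positivity) hbig.le (by linarith)
    calc (q : ℝ) * (n : ℝ) ^ (1 / 3 + ρ / 4) ≤ (n : ℝ) ^ (1 / 6 - ρ / 4) * (n : ℝ) ^ (1 / 3 + ρ / 4) := by gcongr
      _ = s := by
          rw [← Real.rpow_add hn0, hs, Real.sqrt_eq_rpow]
          congr 1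
          ring
      _ ≤ V := by linarith
  have hwin : (V : ℝ) / Real.log n ^ 1 ≤ (V : ℝ) - U := by
    rw [pow_one, div_le_iff₀ (by linarith)]
    nlinarith
  have hf := hR U V hUV hqV h2V hV0 hwin
  have hm2 := h₂ n hn2 U V (by rw [← hs]; exact hU1) (by rw [← hs]; exact hU2) (by rw [← hs]; exact hV1)
    (by rw [← hs]; exact hV2)
  have hSS := one_le_SS n
  unfold FormI
  have hcard : (ints n).ncard = wc n U V := by
    rw [ints_eq hn64, Set.ncard_coe_finset, ← hU, ← hV]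
    rfl
  rw [hcard]
  have h3 : |SS n * (((V : ℝ) - U) / (Real.log V * Real.log n)) - 6 * (SS n * (Real.sqrt n / Real.log n ^ 2))| ≤
      e * (6 * (SS n * (Real.sqrt n / Real.log n ^ 2))) := by
    have e1 : SS n * (((V : ℝ) - U) / (Real.log V * Real.log n)) - 6 * (SS n * (Real.sqrt n / Real.log n ^ 2)) =
        SS n * ((((V : ℝ) - U) / (Real.log V * Real.log n)) - 6 * (Real.sqrt n / Real.log n ^ 2)) := by ring
    rw [e1, abs_mul, abs_of_pos (by linarith : (0 : ℝ) < SS n)]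
    calc SS n * |((V : ℝ) - U) / (Real.log V * Real.log n) - 6 * (Real.sqrt n / Real.log n ^ 2)| ≤
        SS n * (e * (6 * (Real.sqrt n / Real.log n ^ 2))) := mul_le_mul_of_nonneg_left hm2 (by linarith)
      _ = _ := by ring
  have hz : 0 ≤ 6 * (SS n * (Real.sqrt n / Real.log n ^ 2)) := by positivity
  refine (rel_two he0.le he1 hz hf h3).trans ?_
  apply mul_le_mul_of_nonneg_right _ hz
  linarith

theorem b58Class {ρ ε : ℝ} (hρ : 0 < ρ) (hε : 0 < ε) (A T : ℕ) : ∃ x₀ : ℝ, ∀ x : ℝ, x₀ ≤ x → ∀ q : ℕ, 1 ≤ q →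
    (q : ℝ) ≤ x ^ (1 / 6 - ρ) → ∀ a : ℤ, (Int.gcd a q : ℝ) ≤ Real.log x ^ T →
      (excset (FormI ε) x q a).Finite ∧ ((excset (FormI ε) x q a).ncard : ℝ) ≤ x / (q * Real.log x ^ A) := by
  by_cases hρ2 : ρ ≤ 1 / 6
  · exact transferQ (FormI ε) (θ := 1 / 6 - ρ / 2) (by linarith) (by linarith)
      (fun A T => b58N hρ hρ2 hε A T) A T
  · refine ⟨2, fun x hx q hq hqx => ?_⟩
    exfalso
    push Not at hρ2
    have h1 : x ^ (1 / 6 - ρ) < 1 := Real.rpow_lt_one_of_one_lt_of_neg (by linarith) (by linarith)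
    have h2 : (1 : ℝ) ≤ q := by exact_mod_cast hq
    linarith

end Pool.Agent.H567.HW
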