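import Pool.Agent.H567.HW.Big

/-!
Project HW (helper567), part 33: the least prime in Goldbach representations.
-/

set_option autoImplicit false

namespace Pool.Agent.H567.HW

open Finset Filter
open Pool.Agent.Y614.GJ.Core (ev_log)

/-- there is a small prime `p` with `n - p` prime -/
def Small (ρ : ℝ) (q n : ℕ) : Prop := ∃ p : ℕ, p.Prime ∧ (n - p).Prime ∧ (p : ℝ) ≤ q * (n : ℝ) ^ (1 / 3 + ρ)

/-- the number of the small primes -/
def FormS (ε ρ : ℝ) (q n : ℕ) : Prop :=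
  ∀ y : ℕ, (q : ℝ) * (n : ℝ) ^ (1 / 3 + ρ) ≤ y → 2 * y ≤ n →
    |(wc n 0 y : ℝ) - SS n * ((y : ℝ) / (Real.log y * Real.log n))| ≤
      ε * (SS n * ((y : ℝ) / (Real.log y * Real.log n)))

lemma ev_pow {s : ℝ} (hs : 0 < s) (b : ℝ) : ∀ᶠ n : ℕ in atTop, b ≤ (n : ℝ) ^ s :=
  ((tendsto_rpow_atTop hs).comp tendsto_natCast_atTop_atTop).eventually (eventually_ge_atTop b)

theorem baeN {ρ ε : ℝ} (hρ : 0 < ρ) (hρ2 : ρ ≤ 2 / 3) (hε : 0 < ε) (A T : ℕ) : ∃ x₀ : ℕ, ∀ x : ℕ, x₀ ≤ x →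
    ∀ q : ℕ, 1 ≤ q → (q : ℝ) ≤ (x : ℝ) ^ (2 / 3 - ρ / 2) → ∀ a : ℕ,
    (Nat.gcd a q : ℝ) ≤ Real.log x ^ T → ∃ Bad : Finset ℕ, (Bad.card : ℝ) ≤ x / (q * Real.log x ^ A) ∧
      ∀ n : ℕ, 0 < n → n ≤ x → n ∉ Bad → n % q = a % q → 2 ∣ n → Small ρ q n ∧ FormS ε ρ q n := by
  have hρ4 : 0 < ρ / 4 := by positivity
  obtain ⟨x₁, h₁⟩ := bigAll (A + 1) T 0 hρ4 (ε := 1 / 2) (by norm_num) hρ4
  obtain ⟨x₂, h₂⟩ := bigAll (A + 1) T 0 hρ hε hρ4
  obtain ⟨x₃, h₃⟩ := eventually_atTop.1 (ev_pow (s := ρ / 12) (by positivity) 4)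
  obtain ⟨x₄, h₄⟩ := Filter.eventually_atTop.1 (ev_log 1 (s := 1) (by norm_num) 8)
  refine ⟨max (max x₁ x₂) (max (max x₃ x₄) 1), fun x hx q hq hqx a hgcd => ?_⟩
  have hxx₁ : x₁ ≤ x := le_trans (le_trans (le_max_left _ _) (le_max_left _ _)) hx
  have hxx₂ : x₂ ≤ x := le_trans (le_trans (le_max_right _ _) (le_max_left _ _)) hx
  have hxx₃ : x₃ ≤ x := le_trans (le_trans (le_trans (le_max_left _ _) (le_max_left _ _)) (le_max_right _ _)) hx
  have hxx₄ : x₄ ≤ x := le_trans (le_trans (le_trans (le_max_right _ _) (le_max_left _ _)) (le_max_right _ _)) hx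
  have hx1 : 1 ≤ x := le_trans (le_trans (le_max_right _ _) (le_max_right _ _)) hx
  have hx4 := h₃ x hxx₃
  obtain ⟨hL8, -⟩ := h₄ x hxx₄
  have hx0 : (0 : ℝ) < x := by exact_mod_cast hx1
  have hxr1 : (1 : ℝ) ≤ x := by exact_mod_cast hx1
  have hqx' : (q : ℝ) ≤ (x : ℝ) ^ (2 / 3 : ℝ) :=
    hqx.trans (Real.rpow_le_rpow_of_exponent_le hxr1 (by linarith))
  obtain ⟨B₁, hb11, hb12⟩ := h₁ x hxx₁ q hq hqx' a hgcd
  obtain ⟨B₂, hb21, hb22⟩ := h₂ x hxx₂ q hq hqx' a hgcd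
  obtain ⟨L, hLd⟩ : ∃ L, L = Real.log x := ⟨_, rfl⟩
  rw [← hLd] at hb11 hb21 hL8 ⊢
  have hL0 : 0 < L := by linarith
  have hq0 : (0 : ℝ) < q := by exact_mod_cast hq
  have hq1 : (1 : ℝ) ≤ q := by exact_mod_cast hq
  refine ⟨B₁ ∪ B₂, ?_, ?_⟩
  · have h1 : ((B₁ ∪ B₂).card : ℝ) ≤ B₁.card + B₂.card := by
      have := card_union_le B₁ B₂
      exact_mod_cast this
    have e0 : (x : ℝ) / (q * L ^ (A + 1)) = x / (q * L ^ A) * (1 / L) := by
      rw [pow_add]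
      field_simp
    rw [e0] at hb11 hb21
    have h3 : 1 / L ≤ 1 / 8 := one_div_le_one_div_of_le (by norm_num) hL8
    have h4 : (x : ℝ) / (q * L ^ A) * (1 / L) ≤ x / (q * L ^ A) * (1 / 8) :=
      mul_le_mul_of_nonneg_left h3 (by positivity)
    have h5 : 0 ≤ (x : ℝ) / (q * L ^ A) := by positivity
    linarith
  intro n h0 hnx hn hmod h2n
  rw [mem_union, not_or] at hn
  obtain ⟨hn1, hn2⟩ := hn
  obtain ⟨hbig, -, hR1⟩ := hb12 n h0 hnx hn1 hmod h2n
  obtain ⟨-, -, hR2⟩ := hb22 n h0 hnx hn2 hmod h2n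
  have hn0 : (0 : ℝ) < n := by exact_mod_cast h0
  have hn1r : (1 : ℝ) ≤ n := by exact_mod_cast h0
  refine ⟨?_, ?_⟩
  · -- existence
    have hq4 : 4 * (q : ℝ) ≤ (n : ℝ) ^ (2 / 3 - ρ / 4) := by
      calc 4 * (q : ℝ) ≤ (x : ℝ) ^ (ρ / 12) * (x : ℝ) ^ (2 / 3 - ρ / 2) := by gcongr
        _ = (x : ℝ) ^ (2 / 3 - 5 * ρ / 12) := by
            rw [← Real.rpow_add hx0]
            congr 1
            ring
        _ ≤ (x : ℝ) ^ ((1 - ρ / 4) * (2 / 3 - ρ / 4)) := by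
            apply Real.rpow_le_rpow_of_exponent_le hxr1
            have e : (1 - ρ / 4) * (2 / 3 - ρ / 4) = 2 / 3 - 5 * ρ / 12 + ρ ^ 2 / 16 := by ring
            rw [e]
            have : 0 ≤ ρ ^ 2 / 16 := by positivity
            linarith
        _ = ((x : ℝ) ^ (1 - ρ / 4)) ^ (2 / 3 - ρ / 4) := by rw [Real.rpow_mul hx0.le]
        _ ≤ (n : ℝ) ^ (2 / 3 - ρ / 4) :=
            Real.rpow_le_rpow (by positivity) hbig.le (by linarith)
    have hn3 : 2 ≤ (n : ℝ) ^ (3 * ρ / 4) := by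
      calc (2 : ℝ) ≤ (x : ℝ) ^ (ρ / 12) := by linarith
        _ ≤ (x : ℝ) ^ ((1 - ρ / 4) * (3 * ρ / 4)) := by
            apply Real.rpow_le_rpow_of_exponent_le hxr1
            have e : (1 - ρ / 4) * (3 * ρ / 4) - ρ / 12 = ρ * (2 / 3 - 3 * ρ / 16) := by ring
            have : 0 ≤ ρ * (2 / 3 - 3 * ρ / 16) := mul_nonneg hρ.le (by linarith)
            linarith
        _ = ((x : ℝ) ^ (1 - ρ / 4)) ^ (3 * ρ / 4) := by rw [Real.rpow_mul hx0.le]
        _ ≤ (n : ℝ) ^ (3 * ρ / 4) :=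
            Real.rpow_le_rpow (by positivity) hbig.le (by positivity)
    obtain ⟨t, ht⟩ : ∃ t : ℝ, t = q * (n : ℝ) ^ (1 / 3 + ρ / 4) := ⟨_, rfl⟩
    have ht1 : 1 ≤ t := by
      rw [ht]
      exact one_le_mul_of_one_le_of_one_le hq1 (Real.one_le_rpow hn1r (by positivity))
    have htn : 4 * t ≤ n := by
      calc 4 * t = (4 * q) * (n : ℝ) ^ (1 / 3 + ρ / 4) := by rw [ht]; ring
        _ ≤ (n : ℝ) ^ (2 / 3 - ρ / 4) * (n : ℝ) ^ (1 / 3 + ρ / 4) := by gcongr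
        _ = n := by
            rw [← Real.rpow_add hn0]
            have : 2 / 3 - ρ / 4 + (1 / 3 + ρ / 4) = 1 := by ring
            rw [this, Real.rpow_one]
    have ht2 : 2 * t ≤ q * (n : ℝ) ^ (1 / 3 + ρ) := by
      calc 2 * t ≤ (n : ℝ) ^ (3 * ρ / 4) * t := by gcongr
        _ = q * (n : ℝ) ^ (1 / 3 + ρ) := by
            rw [ht]
            have : (n : ℝ) ^ (3 * ρ / 4) * (n : ℝ) ^ (1 / 3 + ρ / 4) = (n : ℝ) ^ (1 / 3 + ρ) := by
              rw [← Real.rpow_add hn0]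
              congr 1
              ring
            rw [← this]
            ring
    obtain ⟨V, hV⟩ : ∃ V : ℕ, V = ⌈t⌉₊ := ⟨_, rfl⟩
    have hV1 : t ≤ V := by rw [hV]; exact Nat.le_ceil t
    have hV2 : (V : ℝ) ≤ 2 * t := by
      have : (V : ℝ) < t + 1 := by rw [hV]; exact Nat.ceil_lt_add_one (by linarith)
      linarith
    have hV0 : 0 < V := by
      have : (0 : ℝ) < V := by linarith
      exact_mod_cast this
    have h2V : 2 * V ≤ n := by
      have : 2 * (V : ℝ) ≤ n := by linarith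
      exact_mod_cast this
    have hf := hR1 0 V (Nat.zero_le _) (by rw [← ht]; exact hV1) h2V hV0 (by simp)
    have hVn : (2 : ℝ) * V ≤ n := by exact_mod_cast h2V
    have hpos : 0 < wc n 0 V := by
      by_contra hcon
      have h1 : wc n 0 V = 0 := by omega
      rw [h1] at hf
      have hSS := one_le_SS n
      have hlogn : 0 < Real.log n := Real.log_pos (by linarith)
      rcases Nat.lt_or_ge V 2 with hV22 | hV22
      · -- `V = 1` is impossible, since `n` is large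
        have h2 : V = 1 := by omega
        rw [h2] at hV1
        have h3 : (1 : ℝ) < (n : ℝ) ^ (1 / 3 + ρ / 4) := Real.one_lt_rpow (by linarith) (by positivity)
        have h4 : (1 : ℝ) < t := by
          rw [ht]
          calc (1 : ℝ) < (n : ℝ) ^ (1 / 3 + ρ / 4) := h3
            _ ≤ q * (n : ℝ) ^ (1 / 3 + ρ / 4) := le_mul_of_one_le_left (by positivity) hq1
        norm_num at hV1
        linarith
      · have hlogV : 0 < Real.log V := by
          apply Real.log_pos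
          have : (2 : ℝ) ≤ V := by exact_mod_cast hV22
          linarith
        have hM : 0 < SS n * (((V : ℝ) - (0 : ℕ)) / (Real.log V * Real.log n)) := by
          have : (0 : ℝ) < (V : ℝ) - (0 : ℕ) := by
            push_cast
            linarith
          positivity
        rw [Nat.cast_zero, zero_sub, abs_neg, abs_of_pos (by simpa using hM)] at hf
        simp only [Nat.cast_zero] at hM
        linarith
    unfold wc at hpos
    rw [card_pos] at hpos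
    obtain ⟨p, hp⟩ := hpos
    rw [mem_filter, mem_Ioc] at hp
    refine ⟨p, hp.2.1, hp.2.2, ?_⟩
    have : (p : ℝ) ≤ V := by exact_mod_cast hp.1.2
    linarith
  · intro y hy h2y
    have hy0 : 0 < y := by
      have h1 : 0 < (q : ℝ) * (n : ℝ) ^ (1 / 3 + ρ) := by positivity
      have : (0 : ℝ) < y := by linarith
      exact_mod_cast this
    have := hR2 0 y (Nat.zero_le _) hy h2y hy0 (by simp)
    rwa [Nat.cast_zero, sub_zero] at this

theorem baeClass {ρ ε : ℝ} (hρ : 0 < ρ) (hε : 0 < ε) (A T : ℕ) : ∃ x₀ : ℝ, ∀ x : ℝ, x₀ ≤ x → ∀ q : ℕ, 1 ≤ q →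
    (q : ℝ) ≤ x ^ (2 / 3 - ρ) → ∀ a : ℤ, (Int.gcd a q : ℝ) ≤ Real.log x ^ T →
      (excset (fun q n => Small ρ q n ∧ FormS ε ρ q n) x q a).Finite ∧
        ((excset (fun q n => Small ρ q n ∧ FormS ε ρ q n) x q a).ncard : ℝ) ≤ x / (q * Real.log x ^ A) := by
  by_cases hρ2 : ρ ≤ 2 / 3
  · exact transferQ (fun q n => Small ρ q n ∧ FormS ε ρ q n) (θ := 2 / 3 - ρ / 2) (by linarith) (by linarith)
      (fun A T => baeN hρ hρ2 hε A T) A T
  · refine ⟨2, fun x hx q hq hqx => ?_⟩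
    exfalso
    push Not at hρ2
    have h1 : x ^ (2 / 3 - ρ) < 1 := Real.rpow_lt_one_of_one_lt_of_neg (by linarith) (by linarith)
    have h2 : (1 : ℝ) ≤ q := by exact_mod_cast hq
    linarith

end Pool.Agent.H567.HW
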