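import Pool.Agent.H567.HW.Trans

/-!
Project HW (helper567), part 32: both forms at once, without the small integers; moduli up to a power of `x`.
-/

set_option autoImplicit false

namespace Pool.Agent.H567.HW

open Finset Filter
open Pool.Agent.Y614.GJ.Core (ev_log)

/-- both forms at once, and `n` is large -/
theorem bigAll (A T W : ℕ) {ρ ε r : ℝ} (hρ : 0 < ρ) (hε : 0 < ε) (hr : 0 < r) : ∃ x₀ : ℕ, ∀ x : ℕ, x₀ ≤ x →
    ∀ q : ℕ, 1 ≤ q → (q : ℝ) ≤ (x : ℝ) ^ (2 / 3 : ℝ) → ∀ a : ℕ,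
    (Nat.gcd a q : ℝ) ≤ Real.log x ^ T → ∃ Bad : Finset ℕ, (Bad.card : ℝ) ≤ x / (q * Real.log x ^ A) ∧
      ∀ n : ℕ, 0 < n → n ≤ x → n ∉ Bad → n % q = a % q → 2 ∣ n →
        (x : ℝ) ^ (1 - r) < n ∧ FormW ρ W q n ∧ FormR ε ρ W q n := by
  obtain ⟨x₁, h₁⟩ := scaleAll (max A W + 1) T hρ
  obtain ⟨x₂, h₂⟩ := relAll (A + 1) T W hρ hε
  obtain ⟨x₃, h₃⟩ := Filter.eventually_atTop.1 (ev_log (A + 1) (s := min r (1 / 3)) (by positivity) 8)
  refine ⟨max (max x₁ x₂) (max x₃ 1), fun x hx q hq hqx a hgcd => ?_⟩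
  have hxx₁ : x₁ ≤ x := le_trans (le_trans (le_max_left _ _) (le_max_left _ _)) hx
  have hxx₂ : x₂ ≤ x := le_trans (le_trans (le_max_right _ _) (le_max_left _ _)) hx
  have hxx₃ : x₃ ≤ x := le_trans (le_trans (le_max_left _ _) (le_max_right _ _)) hx
  have hx1 : 1 ≤ x := le_trans (le_trans (le_max_right _ _) (le_max_right _ _)) hx
  obtain ⟨B₁, hb11, hb12⟩ := h₁ x hxx₁ q hq a hgcd
  obtain ⟨B₂, hb21, hb22⟩ := h₂ x hxx₂ q hq a hgcd
  obtain ⟨hL8, hLp⟩ := h₃ x hxx₃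
  obtain ⟨L, hLd⟩ : ∃ L, L = Real.log x := ⟨_, rfl⟩
  rw [← hLd] at hb11 hb21 hL8 hLp ⊢
  have hx0 : (0 : ℝ) < x := by exact_mod_cast hx1
  have hxr1 : (1 : ℝ) ≤ x := by exact_mod_cast hx1
  have hL0 : 0 < L := by linarith
  have hL1 : 1 ≤ L := by linarith
  have hq0 : (0 : ℝ) < q := by exact_mod_cast hq
  obtain ⟨Sm, hSm⟩ : ∃ Sm : Finset ℕ, Sm = (Icc 1 ⌊(x : ℝ) ^ (1 - r)⌋₊).filter (fun n => n % q = a % q) := ⟨_, rfl⟩
  have hP0 : 0 < L ^ (A + 1) := by positivity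
  have hmr : (x : ℝ) ^ (min r (1 / 3)) ≤ (x : ℝ) ^ r := Real.rpow_le_rpow_of_exponent_le hxr1 (min_le_left _ _)
  have hm3 : (x : ℝ) ^ (min r (1 / 3)) ≤ (x : ℝ) ^ (1 / 3 : ℝ) :=
    Real.rpow_le_rpow_of_exponent_le hxr1 (min_le_right _ _)
  have hx1r : (x : ℝ) ^ (1 - r) ≤ x / L ^ (A + 1) := by
    rw [le_div_iff₀ hP0]
    calc (x : ℝ) ^ (1 - r) * L ^ (A + 1) ≤ (x : ℝ) ^ (1 - r) * (x : ℝ) ^ r := by
          have := hLp.trans hmr
          gcongr
      _ = x := by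
          rw [← Real.rpow_add hx0]
          have : 1 - r + r = 1 := by ring
          rw [this, Real.rpow_one]
  have hq2 : (q : ℝ) * L ^ (A + 1) ≤ x := by
    calc (q : ℝ) * L ^ (A + 1) ≤ (x : ℝ) ^ (2 / 3 : ℝ) * (x : ℝ) ^ (1 / 3 : ℝ) := by
          have := hLp.trans hm3
          gcongr
      _ = x := by
          rw [← Real.rpow_add hx0]
          norm_num
  have e0 : (x : ℝ) / (q * L ^ (A + 1)) = x / (q * L ^ A) * (1 / L) := by
    rw [pow_add]
    field_simp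
  have hSmc : (Sm.card : ℝ) ≤ x / (q * L ^ A) * (1 / L) * 2 := by
    have h2 : (Sm.card : ℝ) ≤ ((x : ℝ) ^ (1 - r)) / q + 1 := by
      have := Pool.Agent.Y883.T4.class_le ⌊(x : ℝ) ^ (1 - r)⌋₊ q a hq Sm ((x : ℝ) ^ (1 - r)) (by positivity)
        (fun n hn => by
          rw [hSm, mem_filter, mem_Icc] at hn
          refine ⟨hn.2, ?_⟩
          exact (Nat.le_floor_iff (by positivity)).1 hn.1.2)
      exact this
    have h3 : (1 : ℝ) ≤ x / (q * L ^ (A + 1)) := by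
      rw [le_div_iff₀ (by positivity), one_mul]
      exact hq2
    have h4 : ((x : ℝ) ^ (1 - r)) / q ≤ x / (q * L ^ (A + 1)) := by
      calc ((x : ℝ) ^ (1 - r)) / q ≤ (x / L ^ (A + 1)) / q := by gcongr
        _ = x / (q * L ^ (A + 1)) := by rw [div_div, mul_comm]
    rw [← e0]
    linarith
  refine ⟨B₁ ∪ (B₂ ∪ Sm), ?_, ?_⟩
  · have h1 : ((B₁ ∪ (B₂ ∪ Sm)).card : ℝ) ≤ B₁.card + (B₂.card + Sm.card) := by
      have := (card_union_le B₁ (B₂ ∪ Sm)).trans (Nat.add_le_add_left (card_union_le B₂ Sm) _)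
      exact_mod_cast this
    have h2 : (x : ℝ) / (q * L ^ (max A W + 1)) ≤ x / (q * L ^ (A + 1)) := by
      apply div_le_div_of_nonneg_left hx0.le (by positivity)
      have : L ^ (A + 1) ≤ L ^ (max A W + 1) := pow_le_pow_right₀ hL1 (by
        have := le_max_left A W
        omega)
      gcongr
    rw [e0] at h2 hb21
    have h3 : 1 / L ≤ 1 / 8 := one_div_le_one_div_of_le (by norm_num) hL8
    have h4 : (x : ℝ) / (q * L ^ A) * (1 / L) ≤ x / (q * L ^ A) * (1 / 8) :=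
      mul_le_mul_of_nonneg_left h3 (by positivity)
    have h5 : 0 ≤ (x : ℝ) / (q * L ^ A) := by positivity
    linarith
  · intro n h0 hnx hn hmod h2n
    rw [mem_union, mem_union, not_or, not_or] at hn
    obtain ⟨hn1, hn2, hn3⟩ := hn
    refine ⟨?_, formW_of (le_trans (le_max_right A W) (Nat.le_succ _)) (hb12 n hnx hn1 hmod h2n),
      hb22 n hnx hn2 hmod h2n⟩
    by_contra hcon
    push Not at hcon
    apply hn3
    rw [hSm, mem_filter, mem_Icc]
    exact ⟨⟨h0, Nat.le_floor hcon⟩, hmod⟩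

/-- from natural `x` and natural residues to real `x` and integral residues, bounded moduli -/
theorem transferQ (F : ℕ → ℕ → Prop) {θ η : ℝ} (hθ : 0 < θ) (hη : η < θ) (hF : ∀ A T : ℕ, ∃ x₀ : ℕ, ∀ x : ℕ, x₀ ≤ x →
    ∀ q : ℕ, 1 ≤ q → (q : ℝ) ≤ (x : ℝ) ^ θ → ∀ a : ℕ,
    (Nat.gcd a q : ℝ) ≤ Real.log x ^ T → ∃ Bad : Finset ℕ, (Bad.card : ℝ) ≤ x / (q * Real.log x ^ A) ∧
      ∀ n : ℕ, 0 < n → n ≤ x → n ∉ Bad → n % q = a % q → 2 ∣ n → F q n) (A T : ℕ) :
    ∃ x₀ : ℝ, ∀ x : ℝ, x₀ ≤ x → ∀ q : ℕ, 1 ≤ q → (q : ℝ) ≤ x ^ η → ∀ a : ℤ, (Int.gcd a q : ℝ) ≤ Real.log x ^ T →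
      (excset F x q a).Finite ∧ ((excset F x q a).ncard : ℝ) ≤ x / (q * Real.log x ^ A) := by
  obtain ⟨x₁, h₁⟩ := hF (A + 1) (2 * T)
  refine ⟨max (max (x₁ + 1) (Real.exp (2 ^ (A + 4)))) (((2 : ℝ) ^ θ) ^ (1 / (θ - η))), fun x hx q hq hqx a hgcd => ?_⟩
  have hx1 : (x₁ : ℝ) + 1 ≤ x := ((le_max_left _ _).trans (le_max_left _ _)).trans hx
  have hxe : Real.exp (2 ^ (A + 4)) ≤ x := ((le_max_right _ _).trans (le_max_left _ _)).trans hx
  have hxη : ((2 : ℝ) ^ θ) ^ (1 / (θ - η)) ≤ x := (le_max_right _ _).trans hx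
  have hx0 : 0 < x := lt_of_lt_of_le (Real.exp_pos _) hxe
  have hl16 : (2 : ℝ) ^ (A + 4) ≤ Real.log x := (Real.le_log_iff_exp_le hx0).2 hxe
  have h2A : (1 : ℝ) ≤ 2 ^ A := one_le_pow₀ (by norm_num)
  have hl : 16 ≤ Real.log x := by
    have : (2 : ℝ) ^ (A + 4) = 2 ^ A * 16 := by rw [pow_add]; norm_num
    linarith
  obtain ⟨N, hN⟩ : ∃ N, N = ⌊x⌋₊ := ⟨_, rfl⟩
  have hNx : (N : ℝ) ≤ x := by rw [hN]; exact Nat.floor_le hx0.le
  have hxN : x < N + 1 := by rw [hN]; exact Nat.lt_floor_add_one x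
  have hxN1 : x₁ ≤ N := by
    rw [hN]
    apply Nat.le_floor
    linarith
  have hx16 : 16 ≤ x := hl.trans ((Real.log_le_sub_one_of_pos hx0).trans (by linarith))
  have hN0 : (0 : ℝ) < N := by linarith
  have hNhalf : x / 2 ≤ N := by linarith
  have hlN : Real.log x - 1 ≤ Real.log N := by
    have h1 := Real.log_le_log (by positivity) hNhalf
    rw [Real.log_div hx0.ne' (by norm_num)] at h1
    have := Real.log_two_lt_d9
    linarith
  have hlN2 : Real.log x / 2 ≤ Real.log N := by linarith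
  have hlN0 : 0 < Real.log N := by linarith
  obtain ⟨b, hb⟩ : ∃ b : ℕ, (b : ℤ) = a % q := ⟨(a % q).toNat, Int.toNat_of_nonneg (Int.emod_nonneg _ (by omega))⟩
  have hq0 : (0 : ℝ) < q := by exact_mod_cast hq
  have hbg : Nat.gcd b q = Int.gcd a q := by
    have h1 : Int.gcd (b : ℤ) q = Nat.gcd b q := Int.gcd_natCast_natCast b q
    rw [← h1, hb]
    exact Int.gcd_emod a q
  have hgcd' : (Nat.gcd b q : ℝ) ≤ Real.log N ^ (2 * T) := by
    rw [hbg]
    refine hgcd.trans ?_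
    rw [pow_mul]
    apply pow_le_pow_left₀ (by linarith)
    have h1 : (Real.log x / 2) ^ 2 ≤ Real.log N ^ 2 := pow_le_pow_left₀ (by linarith) hlN2 2
    nlinarith
  have hqN : (q : ℝ) ≤ (N : ℝ) ^ θ := by
    have e1 : (2 : ℝ) ^ θ ≤ x ^ (θ - η) := by
      have e2 := Real.rpow_le_rpow (by positivity) hxη (show 0 ≤ θ - η by linarith)
      rw [← Real.rpow_mul (by positivity)] at e2
      have e3 : 1 / (θ - η) * (θ - η) = 1 := by
        have : θ - η ≠ 0 := by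
          have : 0 < θ - η := by linarith
          exact this.ne'
        field_simp
      rwa [e3, Real.rpow_one] at e2
    have e4 : x ^ η * (2 : ℝ) ^ θ ≤ x ^ θ := by
      calc x ^ η * (2 : ℝ) ^ θ ≤ x ^ η * x ^ (θ - η) := by gcongr
        _ = x ^ θ := by
            rw [← Real.rpow_add hx0]
            congr 1
            ring
    calc (q : ℝ) ≤ x ^ η := hqx
      _ ≤ x ^ θ / 2 ^ θ := by
          rw [le_div_iff₀ (by positivity)]
          exact e4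
      _ = (x / 2) ^ θ := by rw [Real.div_rpow hx0.le (by norm_num)]
      _ ≤ (N : ℝ) ^ θ := Real.rpow_le_rpow (by positivity) hNhalf hθ.le
  obtain ⟨Bad, hb1, hb2⟩ := h₁ N hxN1 q hq hqN b hgcd'
  have hsub : excset F x q a ⊆ (Bad : Set ℕ) := by
    intro n hn
    obtain ⟨h0, h2, h3, h4, h5⟩ := hn
    by_contra hcon
    apply h5
    apply hb2 n h0 _ (by simpa using hcon) _ h3
    · rw [hN]
      exact Nat.le_floor h2
    · have h6 : (n : ℤ) % q = a % q := h4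
      have h7 : ((n % q : ℕ) : ℤ) = ((b % q : ℕ) : ℤ) := by
        rw [Int.natCast_mod, Int.natCast_mod, h6, hb, Int.emod_emod_of_dvd _ dvd_rfl]
      exact_mod_cast h7
  refine ⟨Set.Finite.subset (Finset.finite_toSet Bad) hsub, ?_⟩
  have h1 : (excset F x q a).ncard ≤ Bad.card := by
    have := Set.ncard_le_ncard hsub (Finset.finite_toSet Bad)
    rwa [Set.ncard_coe_finset] at this
  have h2 : ((excset F x q a).ncard : ℝ) ≤ Bad.card := by exact_mod_cast h1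
  refine h2.trans (hb1.trans ?_)
  have h3 : Real.log x ^ A ≤ Real.log N ^ (A + 1) := by
    calc Real.log x ^ A = 2 ^ A * (Real.log x / 2) ^ A := by rw [div_pow]; field_simp
      _ ≤ Real.log N * Real.log N ^ A := by
        have e1 : (2 : ℝ) ^ A ≤ Real.log N := by
          have : (2 : ℝ) ^ (A + 4) = 2 ^ A * 16 := by rw [pow_add]; norm_num
          linarith
        have e2 : (Real.log x / 2) ^ A ≤ Real.log N ^ A := pow_le_pow_left₀ (by linarith) hlN2 A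
        gcongr
      _ = Real.log N ^ (A + 1) := by ring
  have h4 : 0 < Real.log x ^ A := by positivity
  calc (N : ℝ) / (q * Real.log N ^ (A + 1)) ≤ x / (q * Real.log N ^ (A + 1)) := by gcongr
    _ ≤ x / (q * Real.log x ^ A) := by
      apply div_le_div_of_nonneg_left hx0.le (by positivity)
      gcongr

end Pool.Agent.H567.HW
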