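import Pool.Agent.H567.HW.GDef
import Pool.Graph.R_pool_sql_team_seeded_620a6dc7.helper24_UT_.Mtp
import Pool.Graph.R_seed8.W93.GB1

/-!
Project HW (helper567), part 24: the main term.
-/

set_option autoImplicit false

namespace Pool.Agent.H567.HW

open Finset Polynomial
open Pool.Agent.H373R2.T7 (lamz Vz Vz_pos lamz_nonneg mem_pz pz)
open Pool.Agent.helper24_UT (omp sgp lz)
open Pool.Agent.H560R3.GB (C₂)
open Pool.Agent.W93.GB (Pz dv C2_ge C2_le Pz_pos one_le_prod_dv one_le_dv C2_half)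

/-- the linear polynomial -/
noncomputable def lin (n : ℕ) : Fin 1 → ℤ[X] := fun _ => C (n : ℤ) - X

lemma lin_deg (n : ℕ) (i : Fin 1) : (lin n i).natDegree ≤ 1 := by
  unfold lin
  compute_degree

lemma lin_eval (n : ℕ) (i : Fin 1) (t : ℤ) : (lin n i).eval t = n - t := by
  unfold lin
  simp

lemma omp_lin (n p : ℕ) (hp : p.Prime) : omp (lin n) p = if p ∣ n then 0 else 1 := by
  classical
  unfold omp
  simp only [lin_eval]
  split_ifs with h
  · rw [card_eq_zero, filter_eq_empty_iff]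
    rintro r _ ⟨h1, ⟨_, h2⟩⟩
    apply h1
    have h3 : (p : ℤ) ∣ (n : ℤ) := by exact_mod_cast h
    have h4 := dvd_sub h3 h2
    rw [sub_sub_cancel] at h4
    exact_mod_cast h4
  · have : (range p).filter (fun t : ℕ => ¬ p ∣ t ∧ ∃ _i : Fin 1, (p : ℤ) ∣ (n : ℤ) - (t : ℤ)) = {n % p} := by
      ext r
      rw [mem_filter, mem_range, mem_singleton]
      constructor
      · rintro ⟨h1, _, ⟨_, h3⟩⟩
        have h4 : (r : ℤ) ≡ (n : ℤ) [ZMOD p] := Int.modEq_iff_dvd.2 h3
        have h5 : r ≡ n [MOD p] := (Int.natCast_modEq_iff).1 h4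
        have h6 : r % p = n % p := h5
        rw [← h6, Nat.mod_eq_of_lt h1]
      · rintro rfl
        refine ⟨Nat.mod_lt _ hp.pos, ?_, ⟨0, ?_⟩⟩
        · intro h1
          exact h ((Nat.dvd_mod_iff (dvd_refl p)).1 h1)
        · have h5 : n % p ≡ n [MOD p] := Nat.mod_modEq n p
          have h6 := (Int.natCast_modEq_iff).2 h5
          exact Int.modEq_iff_dvd.1 h6
    rw [this, card_singleton]

/-- the truncated singular series -/
lemma sgp_lin (n z : ℕ) (hn : 2 ∣ n) (hn0 : n ≠ 0) (hz : 2 ≤ z) : sgp z (lin n) =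
    2 * Pz z * ∏ p ∈ n.primeFactors.filter (fun p => 2 < p ∧ p ≤ z), dv p := by
  unfold sgp pz
  have e1 : (Icc 1 z).filter Nat.Prime = insert 2 ((Icc 3 z).filter Nat.Prime) := by
    ext p
    rw [mem_insert, mem_filter, mem_filter, mem_Icc, mem_Icc]
    constructor
    · rintro ⟨⟨h1, h2⟩, h3⟩
      rcases Nat.lt_or_ge 2 p with h | h
      · exact Or.inr ⟨⟨h, h2⟩, h3⟩
      · left
        have := h3.two_le
        omega
    · rintro (h | ⟨⟨h1, h2⟩, h3⟩)
      · rw [h]; exact ⟨⟨by omega, hz⟩, Nat.prime_two⟩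
      · exact ⟨⟨by omega, h2⟩, h3⟩
  rw [e1, prod_insert (by simp)]
  have e2 : (1 - (omp (lin n) 2 : ℝ) / (((2 : ℕ) : ℝ) - 1)) / (1 - 1 / ((2 : ℕ) : ℝ)) ^ 1 = 2 := by
    rw [omp_lin n 2 Nat.prime_two, if_pos hn]
    norm_num
  rw [e2, mul_assoc]
  congr 1
  have e3 : n.primeFactors.filter (fun p => 2 < p ∧ p ≤ z) = ((Icc 3 z).filter Nat.Prime).filter (fun p => p ∣ n) := by
    ext p
    simp only [mem_filter, mem_Icc, Nat.mem_primeFactors]
    constructor
    · rintro ⟨⟨h1, h2, h3⟩, h4, h5⟩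
      exact ⟨⟨⟨h4, h5⟩, h1⟩, h2⟩
    · rintro ⟨⟨⟨h4, h5⟩, h1⟩, h2⟩
      exact ⟨⟨h1, h2, hn0⟩, h4, h5⟩
  rw [e3, prod_filter (fun p => p ∣ n)]
  unfold Pz
  rw [← prod_mul_distrib]
  apply prod_congr rfl
  intro p hp
  rw [mem_filter, mem_Icc] at hp
  have h3 : (3 : ℝ) ≤ p := by exact_mod_cast hp.1.1
  have a1 : (p : ℝ) - 1 ≠ 0 := by linarith
  have a2 : (p : ℝ) - 2 ≠ 0 := by linarith
  have a3 : (p : ℝ) ≠ 0 := by linarith
  have a4 : 1 - 1 / (p : ℝ) ≠ 0 := by
    rw [ne_eq, sub_eq_zero, eq_comm, div_eq_one_iff_eq a3]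
    linarith
  rw [omp_lin n p hp.2]
  split_ifs with h
  · unfold dv
    push_cast
    field_simp
    ring
  · push_cast
    field_simp
    ring

lemma sgp_le_Vz (n z : ℕ) : sgp z (lin n) ≤ (Vz z)⁻¹ := by
  unfold sgp Vz
  rw [← prod_inv_distrib]
  apply prod_le_prod
  · intro p hp
    rw [mem_pz] at hp
    have h2 : (2 : ℝ) ≤ p := by exact_mod_cast hp.2.two_le
    rw [omp_lin n p hp.2, pow_one]
    apply div_nonneg
    · split_ifs
      · simp
      · rw [Nat.cast_one, sub_nonneg, div_le_one (by linarith)]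
        linarith
    · rw [sub_nonneg, div_le_one (by linarith)]
      linarith
  · intro p hp
    rw [mem_pz] at hp
    have h2 : (2 : ℝ) ≤ p := by exact_mod_cast hp.2.two_le
    have h3 : 0 < 1 - 1 / (p : ℝ) := by
      rw [sub_pos, div_lt_one (by linarith)]
      linarith
    rw [pow_one, ← one_div]
    apply div_le_div_of_nonneg_right _ h3.le
    have : 0 ≤ (omp (lin n) p : ℝ) / ((p : ℝ) - 1) := by
      apply div_nonneg (Nat.cast_nonneg _)
      linarith
    linarith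

/-- the singular series -/
noncomputable def SS (n : ℕ) : ℝ := 2 * C₂ * ∏ p ∈ n.primeFactors.filter (fun p => 2 < p), dv p

lemma one_le_SS (n : ℕ) : 1 ≤ SS n := by
  unfold SS
  have h1 := C2_half
  have h2 := one_le_prod_dv (n.primeFactors.filter (fun p => 2 < p)) (fun p hp => (mem_filter.1 hp).2)
  nlinarith

lemma SS_near (n z : ℕ) (hn : 2 ∣ n) (hn0 : n ≠ 0) (hz : 2 ≤ z) :
    (1 - 1 / (z : ℝ)) * sgp z (lin n) ≤ SS n ∧ SS n ≤ Real.exp ((Nat.log 2 n : ℝ) / ((z : ℝ) - 1)) * sgp z (lin n) := by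
  have h1 := Pool.Agent.W93.GB.sing_ge n z hn hn0 hz
  have h2 := Pool.Agent.W93.GB.sing_le n z hn hn0 hz
  rw [Pool.Agent.W93.GB.singZ_sh n z hn hn0 hz, ← sgp_lin n z hn hn0 hz, Pool.Agent.W93.GB.sing_eq] at h1 h2
  exact ⟨h1, h2⟩

lemma lz_lin {z n b : ℕ} (h : b ≤ n) : lz z ((lin n 0).eval (b : ℤ)) = lamz z (n - b) := by
  rw [lin_eval]
  unfold lz lamz
  have e : (n : ℤ) - (b : ℤ) = ((n - b : ℕ) : ℤ) := by rw [Nat.cast_sub h]
  rw [e]
  congr 1
  apply propext
  constructor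
  · intro h p hp h2
    exact h p hp (by exact_mod_cast h2)
  · intro h p hp h2
    exact h p hp (by exact_mod_cast h2)

/-- the main term -/
theorem mainT (A E : ℕ) : ∃ Y₀ : ℕ, ∀ Y : ℕ, Y₀ ≤ Y → ∀ z : ℕ, Real.log Y ^ (A + 4) ≤ z → (z : ℝ) ≤ Real.log Y ^ E →
    (Vz z)⁻¹ ≤ 3 * Real.log Y →
    ∀ n Q : ℕ, 2 ∣ n → n ≤ 6 * Y → Q < n → (Y : ℝ) ^ (1 / 3 : ℝ) ≤ Q →
    |∑ b ∈ Icc 1 Q, ArithmeticFunction.vonMangoldt b * lamz z (n - b) - Q * SS n| ≤ Q / Real.log Y ^ A := by
  obtain ⟨H₀, hH⟩ := Pool.Agent.helper24_UT.Mtp.main 1 1 E (A + 1) 2 (by norm_num)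
  obtain ⟨Y₁, hY₁⟩ := Filter.eventually_atTop.1 (Pool.Agent.Y614.GJ.Core.ev_log 0 (s := 1) (by norm_num) 1000)
  refine ⟨max H₀ Y₁, fun Y hY z hz1 hz2 hV n Q hn hn6 hQn hQ => ?_⟩
  obtain ⟨hL, -⟩ := hY₁ Y (le_trans (le_max_right _ _) hY)
  obtain ⟨L, hLd⟩ : ∃ L, L = Real.log Y := ⟨_, rfl⟩
  have hY0 : (0 : ℝ) < Y := by
    by_contra h
    have : Y = 0 := by
      have : (Y : ℝ) ≤ 0 := not_lt.1 h
      exact_mod_cast le_antisymm this (Nat.cast_nonneg _)
    rw [this] at hL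
    simp at hL
    linarith
  have hY1 : 1 ≤ Y := by exact_mod_cast hY0
  have hL0 : 0 < Real.log Y := by linarith
  have hL1 : 1 ≤ Real.log Y := by linarith
  have hzL : Real.log Y ≤ z := by
    refine le_trans ?_ hz1
    calc Real.log Y = Real.log Y ^ 1 := (pow_one _).symm
      _ ≤ Real.log Y ^ (A + 4) := pow_le_pow_right₀ hL1 (by omega)
  have hz1000 : (1000 : ℝ) ≤ z := hL.trans hzL
  have hz2' : 2 ≤ z := by
    have : (2 : ℝ) ≤ z := by linarith
    exact_mod_cast this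
  have hn0 : n ≠ 0 := by omega
  have hQ0 : (0 : ℝ) ≤ Q := Nat.cast_nonneg _
  -- the theorem for one linear polynomial
  have hexp : Real.exp (Real.log Y ^ (1 / (2 : ℕ) : ℝ)) ≤ Q := by
    refine le_trans ?_ hQ
    rw [Real.rpow_def_of_pos hY0]
    apply Real.exp_le_exp.2
    have h1 : Real.log Y ^ (1 / (2 : ℕ) : ℝ) = Real.sqrt (Real.log Y) := by
      rw [Real.sqrt_eq_rpow]
      norm_num
    rw [h1]
    have h2 : Real.sqrt (Real.log Y) * 3 ≤ Real.log Y := by
      have h3 : Real.sqrt (Real.log Y) * Real.sqrt (Real.log Y) = Real.log Y := Real.mul_self_sqrt hL0.le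
      have h4 : 3 ≤ Real.sqrt (Real.log Y) := by
        apply Real.le_sqrt_of_sq_le
        linarith
      nlinarith [Real.sqrt_nonneg (Real.log Y)]
    linarith
  have hmain := hH Y (le_trans (le_max_left _ _) hY) z (by omega) hz2 (lin n) (lin_deg n) Q hexp
  have e1 : ∑ b ∈ Icc 1 Q, ArithmeticFunction.vonMangoldt b * ∏ i : Fin 1, lz z ((lin n i).eval (b : ℤ)) =
      ∑ b ∈ Icc 1 Q, ArithmeticFunction.vonMangoldt b * lamz z (n - b) := by
    refine sum_congr rfl fun b hb => ?_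
    rw [mem_Icc] at hb
    rw [Fin.prod_univ_one, lz_lin (by omega)]
  rw [e1] at hmain
  -- the singular series
  obtain ⟨hs1, hs2⟩ := SS_near n z hn hn0 hz2'
  have hs3 := sgp_le_Vz n z
  have hs4 : 0 ≤ sgp z (lin n) := by
    rw [sgp_lin n z hn hn0 hz2']
    have h4 := one_le_prod_dv (n.primeFactors.filter (fun p => 2 < p ∧ p ≤ z)) (fun p hp => (mem_filter.1 hp).2.1)
    have := Pz_pos z
    positivity
  obtain ⟨s, hs⟩ : ∃ s, s = sgp z (lin n) := ⟨_, rfl⟩
  rw [← hs] at hmain hs1 hs2 hs3 hs4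
  have hlog : (Nat.log 2 n : ℝ) ≤ 4 * Real.log Y := by
    have h1 : 2 ^ Nat.log 2 n ≤ n := Nat.pow_log_le_self 2 hn0
    have h2 : (2 : ℝ) ^ Nat.log 2 n ≤ n := by exact_mod_cast h1
    have h3 := Real.log_le_log (by positivity) h2
    rw [Real.log_pow] at h3
    have h4 := Real.log_two_gt_d9
    have h5 : (0 : ℝ) ≤ (Nat.log 2 n : ℝ) := Nat.cast_nonneg _
    have h6 : Real.log n ≤ Real.log 6 + Real.log Y := by
      rw [← Real.log_mul (by norm_num) hY0.ne']
      apply Real.log_le_log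
      · exact_mod_cast Nat.pos_of_ne_zero hn0
      · exact_mod_cast hn6
    have h7 : Real.log 6 ≤ 6 := (Real.log_le_sub_one_of_pos (by norm_num)).trans (by norm_num)
    nlinarith
  have hexp2 : Real.exp ((Nat.log 2 n : ℝ) / ((z : ℝ) - 1)) ≤ 1 + 16 * Real.log Y / z := by
    have h1 : (Nat.log 2 n : ℝ) / ((z : ℝ) - 1) ≤ 8 * Real.log Y / z := by
      rw [div_le_div_iff₀ (by linarith) (by linarith)]
      nlinarith
    have h2 : 8 * Real.log Y / z ≤ 1 := by
      rw [div_le_one (by linarith)]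
      refine le_trans ?_ hz1
      calc 8 * Real.log Y ≤ Real.log Y * Real.log Y := by nlinarith
        _ = Real.log Y ^ 2 := by ring
        _ ≤ Real.log Y ^ (A + 4) := pow_le_pow_right₀ hL1 (by omega)
    have h3 : 0 ≤ 8 * Real.log Y / z := by positivity
    calc Real.exp ((Nat.log 2 n : ℝ) / ((z : ℝ) - 1)) ≤ Real.exp (8 * Real.log Y / z) := Real.exp_le_exp.2 h1
      _ ≤ 1 + 2 * (8 * Real.log Y / z) := by
          have := Real.abs_exp_sub_one_le (x := 8 * Real.log Y / z) (by rw [abs_of_nonneg h3]; exact h2)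
          rw [abs_of_nonneg h3] at this
          have := le_abs_self (Real.exp (8 * Real.log Y / z) - 1)
          linarith
      _ = 1 + 16 * Real.log Y / z := by ring
  have hdiff : |SS n - s| ≤ s * (16 * Real.log Y / z) := by
    rw [abs_le]
    constructor
    · have h1 : s * (1 / z) ≤ s * (16 * Real.log Y / z) := by
        apply mul_le_mul_of_nonneg_left _ hs4
        apply div_le_div_of_nonneg_right _ (by linarith)
        linarith
      have h2 : (1 - 1 / (z : ℝ)) * s = s - s * (1 / z) := by ring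
      linarith
    · have h1 := hs2.trans (mul_le_mul_of_nonneg_right hexp2 hs4)
      linarith
  have hd2 : s * (16 * Real.log Y / z) ≤ 48 / Real.log Y ^ (A + 2) := by
    calc s * (16 * Real.log Y / z) ≤ (3 * Real.log Y) * (16 * Real.log Y / Real.log Y ^ (A + 4)) := by
          have h1 := hs3.trans hV
          have h2 : 16 * Real.log Y / z ≤ 16 * Real.log Y / Real.log Y ^ (A + 4) :=
            div_le_div_of_nonneg_left (by positivity) (by positivity) hz1
          exact mul_le_mul h1 h2 (by positivity) (by positivity)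
      _ = 48 / Real.log Y ^ (A + 2) := by
          rw [show A + 4 = (A + 2) + 2 by ring, pow_add]
          field_simp
          norm_num
  have h3 : |∑ b ∈ Icc 1 Q, ArithmeticFunction.vonMangoldt b * lamz z (n - b) - Q * SS n| ≤
      Q / Real.log Y ^ (A + 1) + Q * (48 / Real.log Y ^ (A + 2)) := by
    have e2 : ∑ b ∈ Icc 1 Q, ArithmeticFunction.vonMangoldt b * lamz z (n - b) - Q * SS n =
        (∑ b ∈ Icc 1 Q, ArithmeticFunction.vonMangoldt b * lamz z (n - b) - Q * s) - Q * (SS n - s) := by ring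
    rw [e2]
    refine (abs_sub _ _).trans (add_le_add hmain ?_)
    rw [abs_mul, abs_of_nonneg hQ0]
    exact mul_le_mul_of_nonneg_left (hdiff.trans hd2) hQ0
  refine h3.trans ?_
  have e4 : (Q : ℝ) / Real.log Y ^ (A + 1) + Q * (48 / Real.log Y ^ (A + 2)) =
      Q / Real.log Y ^ A * (1 / Real.log Y + 48 / Real.log Y ^ 2) := by
    rw [pow_add, pow_add]
    field_simp
  rw [e4]
  have h5 : 1 / Real.log Y + 48 / Real.log Y ^ 2 ≤ 1 := by
    have h6 : 1 / Real.log Y ≤ 1 / 2 := by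
      rw [div_le_div_iff₀ hL0 two_pos]
      linarith
    have h7 : 48 / Real.log Y ^ 2 ≤ 1 / 2 := by
      rw [div_le_div_iff₀ (by positivity) two_pos]
      nlinarith
    linarith
  have h6 : 0 ≤ (Q : ℝ) / Real.log Y ^ A := by positivity
  exact mul_le_of_le_one_right h6 h5

end Pool.Agent.H567.HW
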