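import Pool.Agent.H567.HW.GDef
import Pool.Agent.H567.HW.MTerm

/-!
Project HW (helper567), part 51: all lengths simultaneously, one block, for an abstract class of residues.
-/

set_option autoImplicit false

namespace Pool.Agent.H567.HW

open Finset
open Pool.Agent.Y883.GJ (LA)
open Pool.Agent.H373R2.T7 (lamz Vz Vz_pos lamz_nonneg)
open Pool.Agent.Y614.GJ.Core (ev_log)

/-- the weighted number of representations with a short first summand -/
noncomputable def SR (n P : ℕ) : ℝ :=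
  ∑ b ∈ Icc 1 P, ArithmeticFunction.vonMangoldt b * ArithmeticFunction.vonMangoldt (n - b)

/-- the error -/
lemma SR_split (z n P : ℕ) : |SR n P - ∑ b ∈ Icc 1 P, ArithmeticFunction.vonMangoldt b * lamz z (n - b)| =
    ‖∑ b ∈ Icc 1 P, LA b * GZ z (n - b)‖ := by
  have e1 : ∑ b ∈ Icc 1 P, LA b * GZ z (n - b) =
      ((SR n P - ∑ b ∈ Icc 1 P, ArithmeticFunction.vonMangoldt b * lamz z (n - b) : ℝ) : ℂ) := by
    unfold SR
    rw [← sum_sub_distrib, Complex.ofReal_sum]
    refine sum_congr rfl fun b _ => ?_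
    rw [GZ_ofReal]
    unfold LA
    push_cast
    ring
  rw [e1, Complex.norm_real, Real.norm_eq_abs]

/-- the grid -/
def gr (M : ℕ) (x : ℕ × ℕ) : ℕ := 2 ^ x.1 + x.2 * 2 ^ x.1 / M

lemma gr_near {M P : ℕ} (hM : 1 ≤ M) (hP : 1 ≤ P) : ∃ k i : ℕ, k = Nat.log 2 P ∧ i < M ∧ gr M (k, i) ≤ P ∧
    P < 2 * gr M (k, i) ∧ ((P - gr M (k, i) : ℕ) : ℝ) ≤ 1 + (P : ℝ) / M := by
  obtain ⟨k, hk⟩ : ∃ k, k = Nat.log 2 P := ⟨_, rfl⟩
  have h1 : 2 ^ k ≤ P := by rw [hk]; exact Nat.pow_log_le_self 2 (by omega)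
  have h2 : P < 2 * 2 ^ k := by
    have := Nat.lt_pow_succ_log_self (b := 2) (by norm_num) P
    rw [← hk, pow_succ] at this
    omega
  obtain ⟨r, hr⟩ : ∃ r, r = P - 2 ^ k := ⟨_, rfl⟩
  obtain ⟨K, hK⟩ : ∃ K, K = 2 ^ k := ⟨_, rfl⟩
  have hK0 : 0 < K := by rw [hK]; positivity
  rw [← hK] at h1 h2 hr
  obtain ⟨i, hi⟩ : ∃ i, i = r * M / K := ⟨_, rfl⟩
  have hM0 : 0 < M := hM
  have h3 : i * K ≤ r * M := by rw [hi]; exact Nat.div_mul_le_self _ _
  have h4 : r * M < i * K + K := by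
    have h5 := Nat.div_add_mod (r * M) K
    have h6 := Nat.mod_lt (r * M) hK0
    rw [← hi] at h5
    have h7 : K * i = i * K := Nat.mul_comm _ _
    omega
  have hiM : i < M := by
    rw [hi, Nat.div_lt_iff_lt_mul hK0]
    have : r < K := by omega
    calc r * M < K * M := Nat.mul_lt_mul_of_pos_right this hM0
      _ = M * K := Nat.mul_comm _ _
  have h5 : i * K / M ≤ r := by
    rw [Nat.div_le_iff_le_mul_add_pred hM0]
    have : M * r = r * M := Nat.mul_comm _ _
    omega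
  have hgr : gr M (k, i) = K + i * K / M := by
    unfold gr
    simp only [hK]
  have hgle : K + i * K / M ≤ P := by omega
  refine ⟨k, i, hk, hiM, ?_, ?_, ?_⟩ <;> rw [hgr]
  · exact hgle
  · obtain ⟨t, ht⟩ : ∃ t, t = i * K / M := ⟨_, rfl⟩
    rw [← ht]
    omega
  ·
    have hMr : (0 : ℝ) < M := by exact_mod_cast hM0
    have h6 : ((P - (K + i * K / M) : ℕ) : ℝ) = (r : ℝ) - ((i * K / M : ℕ) : ℝ) := by
      have : P - (K + i * K / M) = r - i * K / M := by omega
      rw [this, Nat.cast_sub h5]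
    rw [h6]
    have h7 : ((i * K : ℕ) : ℝ) / M < ((i * K / M : ℕ) : ℝ) + 1 := by
      rw [div_lt_iff₀ hMr]
      have h8 := Nat.div_add_mod (i * K) M
      have h9 := Nat.mod_lt (i * K) hM0
      have h10 : i * K < (i * K / M + 1) * M := by
        have : (i * K / M + 1) * M = M * (i * K / M) + M := by ring
        omega
      exact_mod_cast h10
    have h8 : (r : ℝ) ≤ ((i * K : ℕ) : ℝ) / M + (K : ℝ) / M := by
      rw [← add_div, le_div_iff₀ hMr]
      exact_mod_cast h4.le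
    have h9 : (K : ℝ) / M ≤ (P : ℝ) / M := by
      apply div_le_div_of_nonneg_right _ hMr.le
      exact_mod_cast h1
    linarith

/-- the estimate for the mean square, for the classes with the property `Ad` -/
def CoreStm (Ad : ℕ → ℕ → ℕ → Prop) (A : ℕ) (ρ : ℝ) : Prop := ∃ B : ℕ, ∀ E : ℕ, ∃ Y₀ : ℕ, ∀ Y : ℕ, Y₀ ≤ Y →
    ∀ z : ℕ, Real.log (6 * Y) ^ B ≤ z → (z : ℝ) ≤ Real.log Y ^ E → ∀ (q Q : ℕ) [NeZero q],
    (q : ℝ) * (Y : ℝ) ^ (1 / 3 + ρ) ≤ Q → Q ≤ Y → ∀ a : ℕ, Ad Y q a →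
      ∑ n ∈ (Icc (Y + 2 * Q) (2 * Y)).filter (fun n : ℕ => (n : ZMod q) = (a : ZMod q)),
        ‖∑ b ∈ Icc 1 Q, LA b * GZ z (n - b)‖ ^ 2 ≤ Y * (Q : ℝ) ^ 2 / (q * Real.log Q ^ A)

/-- the block theorem, statement -/
def BlockStm (Ad : ℕ → ℕ → ℕ → Prop) (A : ℕ) (ρ : ℝ) : Prop := ∃ Y₀ : ℕ, ∀ Y : ℕ, Y₀ ≤ Y → ∀ q : ℕ, 1 ≤ q →
    ∀ a : ℕ, Ad Y q a → ∃ Bad : Finset ℕ, (Bad.card : ℝ) ≤ Y / (q * Real.log Y ^ A) ∧
      ∀ n : ℕ, n ∉ Bad → n % q = a % q → 2 ∣ n → n ≤ 2 * Y → ∀ P : ℕ, (q : ℝ) * (Y : ℝ) ^ (1 / 3 + ρ) ≤ P →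
        Y + 2 * P ≤ n → |SR n P - P * SS n| ≤ P / Real.log Y ^ A

/-- the block theorem -/
theorem block_of (Ad : ℕ → ℕ → ℕ → Prop) (A : ℕ) {ρ : ℝ} (hρ : 0 < ρ) (hcore : CoreStm Ad (4 * A + 20) (ρ / 2)) :
    BlockStm Ad A ρ := by
  classical
  have hρ2 : 0 < ρ / 2 := by positivity
  obtain ⟨A₁, hA₁⟩ : ∃ A₁, A₁ = 4 * A + 20 := ⟨_, rfl⟩
  rw [← hA₁] at hcore
  obtain ⟨B₁, hB₁⟩ := hcore
  obtain ⟨B₂, hB₂⟩ := Vz_inv
  obtain ⟨B, hB⟩ : ∃ B, B = max (max B₁ B₂) (A + 6) := ⟨_, rfl⟩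
  obtain ⟨Y₁, hY₁⟩ := hB₁ (B + 1)
  obtain ⟨N₂, hN₂⟩ := hB₂ (B + 1)
  obtain ⟨Y₃, hY₃⟩ := mainT (A + 2) (B + 1)
  obtain ⟨Y₄, hY₄⟩ := Filter.eventually_atTop.1 (ev_log (A + 7) (s := min (ρ / 2) (1 / 3)) (lt_min hρ2 (by norm_num))
    (max (2 ^ B + 1) (max 1000 (3 ^ A₁))))
  refine ⟨max (max Y₁ N₂) (max (max Y₃ Y₄) 1), fun Y hY q hq a hAd => ?_⟩
  have hYY₁ : Y₁ ≤ Y := le_trans (le_trans (le_max_left _ _) (le_max_left _ _)) hY
  have hYN₂ : N₂ ≤ Y := le_trans (le_trans (le_max_right _ _) (le_max_left _ _)) hY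
  have hYY₃ : Y₃ ≤ Y := le_trans (le_trans (le_trans (le_max_left _ _) (le_max_left _ _)) (le_max_right _ _)) hY
  have hYY₄ : Y₄ ≤ Y := le_trans (le_trans (le_trans (le_max_right _ _) (le_max_left _ _)) (le_max_right _ _)) hY
  have hY1 : 1 ≤ Y := le_trans (le_trans (le_max_right _ _) (le_max_right _ _)) hY
  obtain ⟨hLb, hLp⟩ := hY₄ Y hYY₄
  have hY0 : (0 : ℝ) < Y := by exact_mod_cast hY1
  have hYr1 : (1 : ℝ) ≤ Y := by exact_mod_cast hY1
  have hL2B : 2 ^ B + 1 ≤ Real.log Y := (le_max_left _ _).trans hLb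
  have hL1000 : 1000 ≤ Real.log Y := (le_max_left _ _).trans ((le_max_right _ _).trans hLb)
  have hL3 : 3 ^ A₁ ≤ Real.log Y := (le_max_right _ _).trans ((le_max_right _ _).trans hLb)
  obtain ⟨ℓ, hℓ⟩ : ∃ ℓ, ℓ = Real.log Y := ⟨_, rfl⟩
  have hq0 : (0 : ℝ) < q := by exact_mod_cast hq
  have hq1 : (1 : ℝ) ≤ q := by exact_mod_cast hq
  have hl6 : Real.log (6 * Y) ≤ 2 * Real.log Y := by
    rw [Real.log_mul (by norm_num) hY0.ne']
    have : Real.log 6 ≤ 6 := (Real.log_le_sub_one_of_pos (by norm_num)).trans (by norm_num)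
    linarith
  have hl6' : Real.log Y ≤ Real.log (6 * Y) := Real.log_le_log hY0 (by linarith)
  have hl60 : 0 ≤ Real.log (6 * Y) := by linarith
  -- the parameter of the model
  obtain ⟨z, hz⟩ : ∃ z, z = ⌈Real.log (6 * Y) ^ B⌉₊ := ⟨_, rfl⟩
  have hz1 : Real.log (6 * Y) ^ B ≤ z := by rw [hz]; exact Nat.le_ceil _
  have hz2 : (z : ℝ) ≤ Real.log Y ^ (B + 1) := by
    rw [← hℓ] at hL2B hL1000 hl6 hl6' ⊢
    have h1 : (z : ℝ) < Real.log (6 * Y) ^ B + 1 := by
      rw [hz]
      exact Nat.ceil_lt_add_one (by positivity)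
    have h2 : Real.log (6 * Y) ^ B ≤ 2 ^ B * ℓ ^ B := by
      rw [← mul_pow]
      exact pow_le_pow_left₀ hl60 hl6 B
    have h3 : 1 ≤ ℓ ^ B := one_le_pow₀ (by linarith)
    calc (z : ℝ) ≤ 2 ^ B * ℓ ^ B + ℓ ^ B := by linarith
      _ = (2 ^ B + 1) * ℓ ^ B := by ring
      _ ≤ ℓ * ℓ ^ B := by
          apply mul_le_mul_of_nonneg_right hL2B (by linarith)
      _ = ℓ ^ (B + 1) := by ring
  have hB1 : B₁ ≤ B := by rw [hB]; exact (le_max_left _ _).trans (le_max_left _ _)
  have hB2 : B₂ ≤ B := by rw [hB]; exact (le_max_right _ _).trans (le_max_left _ _)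
  have hB3 : A + 6 ≤ B := by rw [hB]; exact le_max_right _ _
  have hl61 : 1 ≤ Real.log (6 * Y) := by linarith
  have hzB : ∀ B' : ℕ, B' ≤ B → Real.log (6 * Y) ^ B' ≤ z := fun B' h => (pow_le_pow_right₀ hl61 h).trans hz1
  have hV : (Vz z)⁻¹ ≤ 3 * Real.log Y := by
    have h2 := hN₂ Y hYN₂ z ((pow_le_pow_left₀ (by linarith) hl6' B₂).trans (hzB B₂ hB2)) hz2
    linarith
  -- the grid
  obtain ⟨M, hM⟩ : ∃ M, M = ⌈Real.log Y ^ (A + 6)⌉₊ := ⟨_, rfl⟩
  have hM1 : Real.log Y ^ (A + 6) ≤ M := by rw [hM]; exact Nat.le_ceil _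
  have hLA6 : 1 ≤ Real.log Y ^ (A + 6) := one_le_pow₀ (by linarith)
  have hM2 : (M : ℝ) ≤ 2 * Real.log Y ^ (A + 6) := by
    have : (M : ℝ) < Real.log Y ^ (A + 6) + 1 := by
      rw [hM]
      exact Nat.ceil_lt_add_one (by linarith)
    linarith
  have hMr1 : (1 : ℝ) ≤ M := hLA6.trans hM1
  have hM1n : 1 ≤ M := by exact_mod_cast hMr1
  have hNe : NeZero q := ⟨by omega⟩
  obtain ⟨G, hG⟩ : ∃ G : Finset (ℕ × ℕ), G = ((range (Nat.log 2 Y + 1)) ×ˢ (range M)).filter
    (fun x => (q : ℝ) * (Y : ℝ) ^ (1 / 3 + ρ / 2) ≤ (gr M x : ℕ) ∧ gr M x ≤ Y) := ⟨_, rfl⟩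
  obtain ⟨bad, hbad⟩ : ∃ bad : ℕ × ℕ → Finset ℕ, bad = fun x =>
    ((Icc (Y + 2 * gr M x) (2 * Y)).filter (fun n : ℕ => (n : ZMod q) = (a : ZMod q))).filter
      (fun n => (gr M x : ℝ) / Real.log Y ^ (A + 2) < ‖∑ b ∈ Icc 1 (gr M x), LA b * GZ z (n - b)‖) := ⟨_, rfl⟩
  refine ⟨G.biUnion bad, ?_, ?_⟩
  · -- the number of the exceptions
    have hbadc : ∀ x ∈ G, ((bad x).card : ℝ) ≤ Y / (q * Real.log Y ^ (2 * A + 15)) := by
      intro x hx
      rw [hG, mem_filter] at hx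
      obtain ⟨-, hx1, hx2⟩ := hx
      obtain ⟨g, hg⟩ : ∃ g, g = gr M x := ⟨_, rfl⟩
      rw [← hg] at hx1 hx2
      have hgl : Real.log Y ≤ 3 * Real.log g := by
        have h1 : (Y : ℝ) ^ (1 / 3 : ℝ) ≤ g := by
          calc (Y : ℝ) ^ (1 / 3 : ℝ) ≤ (Y : ℝ) ^ (1 / 3 + ρ / 2) :=
                Real.rpow_le_rpow_of_exponent_le hYr1 (by linarith)
            _ ≤ q * (Y : ℝ) ^ (1 / 3 + ρ / 2) := le_mul_of_one_le_left (by positivity) hq1
            _ ≤ g := hx1
        have h2 := Real.log_le_log (by positivity) h1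
        rw [Real.log_rpow hY0] at h2
        linarith
      have hg0 : (0 : ℝ) < g := by
        by_contra h
        have h0 : g = 0 := by
          have : (g : ℝ) ≤ 0 := not_lt.1 h
          exact_mod_cast le_antisymm this (Nat.cast_nonneg _)
        rw [h0] at hgl
        simp at hgl
        linarith
      have hlg : 300 ≤ Real.log g := by linarith
      have hcore := hY₁ Y hYY₁ z (hzB B₁ hB1) hz2 q g hx1 hx2 a hAd
      obtain ⟨V, hV⟩ : ∃ V : ℝ, V = (g : ℝ) / Real.log Y ^ (A + 2) := ⟨_, rfl⟩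
      have hV0 : 0 < V := by rw [hV]; positivity
      have h1 : ((bad x).card : ℝ) * V ^ 2 ≤ Y * (g : ℝ) ^ 2 / (q * Real.log g ^ A₁) := by
        refine le_trans ?_ hcore
        rw [← nsmul_eq_mul]
        calc (bad x).card • V ^ 2 ≤ ∑ n ∈ bad x, ‖∑ b ∈ Icc 1 g, LA b * GZ z (n - b)‖ ^ 2 := by
              apply card_nsmul_le_sum
              intro n hn
              rw [hbad] at hn
              simp only [mem_filter] at hn
              rw [← hg, ← hV] at hn
              exact pow_le_pow_left₀ hV0.le hn.2.le 2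
          _ ≤ _ := by
              apply sum_le_sum_of_subset_of_nonneg
              · rw [hbad]
                simp only
                rw [← hg]
                exact filter_subset _ _
              · intro n _ _
                positivity
      have h2 : ((bad x).card : ℝ) ≤ Y * (g : ℝ) ^ 2 / (q * Real.log g ^ A₁) / V ^ 2 := by
        rw [le_div_iff₀ (by positivity)]
        exact h1
      refine h2.trans ?_
      have hlg0 : 0 < Real.log g := by linarith
      have h3 : Real.log Y ^ A₁ ≤ Real.log Y * Real.log g ^ A₁ := by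
        calc Real.log Y ^ A₁ ≤ (3 * Real.log g) ^ A₁ := pow_le_pow_left₀ (by linarith) hgl _
          _ = 3 ^ A₁ * Real.log g ^ A₁ := mul_pow _ _ _
          _ ≤ Real.log Y * Real.log g ^ A₁ := by
              apply mul_le_mul_of_nonneg_right hL3 (by positivity)
      have h4 : Y * (g : ℝ) ^ 2 / (q * Real.log g ^ A₁) / V ^ 2 =
          Y / q * (Real.log Y ^ (2 * A + 4) / Real.log g ^ A₁) := by
        rw [hV]
        have : (Real.log Y ^ (A + 2)) ^ 2 = Real.log Y ^ (2 * A + 4) := by ring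
        rw [div_pow, this]
        field_simp
      rw [h4]
      have hLp0 : 0 < Real.log Y := by linarith
      have h5 : Real.log Y ^ (2 * A + 4) / Real.log g ^ A₁ ≤ 1 / Real.log Y ^ (2 * A + 15) := by
        rw [div_le_div_iff₀ (by positivity) (by positivity), one_mul]
        have h6 : Real.log Y ^ (2 * A + 4) * Real.log Y ^ (2 * A + 15) * Real.log Y = Real.log Y ^ A₁ := by
          rw [hA₁]
          ring
        have h7 : Real.log Y ^ (2 * A + 4) * Real.log Y ^ (2 * A + 15) * Real.log Y ≤ Real.log g ^ A₁ * Real.log Y := by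
          rw [h6]
          linarith
        exact le_of_mul_le_mul_right h7 hLp0
      calc Y / q * (Real.log Y ^ (2 * A + 4) / Real.log g ^ A₁) ≤ Y / q * (1 / Real.log Y ^ (2 * A + 15)) := by gcongr
        _ = Y / (q * Real.log Y ^ (2 * A + 15)) := by field_simp
    have hGc : (G.card : ℝ) ≤ Real.log Y ^ (A + 9) := by
      have h1 : G.card ≤ (Nat.log 2 Y + 1) * M := by
        rw [hG]
        refine (card_filter_le _ _).trans ?_
        rw [card_product, card_range, card_range]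
      have h2 : (Nat.log 2 Y : ℝ) ≤ 2 * Real.log Y := by
        have h1 : 2 ^ Nat.log 2 Y ≤ Y := Nat.pow_log_le_self 2 (by omega)
        have h2 : (2 : ℝ) ^ Nat.log 2 Y ≤ Y := by exact_mod_cast h1
        have h3 := Real.log_le_log (by positivity) h2
        rw [Real.log_pow] at h3
        have h4 := Real.log_two_gt_d9
        have h5 : (0 : ℝ) ≤ (Nat.log 2 Y : ℝ) := Nat.cast_nonneg _
        nlinarith
      have hLp0 : 0 < Real.log Y := by linarith
      calc (G.card : ℝ) ≤ (((Nat.log 2 Y + 1) * M : ℕ) : ℝ) := by exact_mod_cast h1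
        _ = (Nat.log 2 Y + 1) * M := by push_cast; ring
        _ ≤ (3 * Real.log Y) * (2 * Real.log Y ^ (A + 6)) := by
            apply mul_le_mul _ hM2 (by positivity) (by positivity)
            linarith
        _ = 6 * Real.log Y ^ (A + 7) := by ring
        _ ≤ (Real.log Y * Real.log Y) * Real.log Y ^ (A + 7) := by
            apply mul_le_mul_of_nonneg_right _ (by positivity)
            nlinarith
        _ = Real.log Y ^ (A + 9) := by ring
    have hLp0 : 0 < Real.log Y := by linarith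
    calc ((G.biUnion bad).card : ℝ) ≤ ∑ x ∈ G, ((bad x).card : ℝ) := by exact_mod_cast card_biUnion_le
      _ ≤ ∑ x ∈ G, (Y : ℝ) / (q * Real.log Y ^ (2 * A + 15)) := sum_le_sum hbadc
      _ = G.card * ((Y : ℝ) / (q * Real.log Y ^ (2 * A + 15))) := by rw [sum_const, nsmul_eq_mul]
      _ ≤ Real.log Y ^ (A + 9) * ((Y : ℝ) / (q * Real.log Y ^ (2 * A + 15))) := by gcongr
      _ = Y / (q * Real.log Y ^ A) * (1 / Real.log Y ^ 6) := by
          have : Real.log Y ^ (2 * A + 15) = Real.log Y ^ A * Real.log Y ^ (A + 9) * Real.log Y ^ 6 := by ring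
          rw [this]
          field_simp
      _ ≤ Y / (q * Real.log Y ^ A) * 1 := by
          have : 1 / Real.log Y ^ 6 ≤ 1 := by
            rw [div_le_one (by positivity)]
            exact one_le_pow₀ (by linarith)
          gcongr
      _ = _ := mul_one _
  · -- the other integers
    intro n hn hmod h2n hn2 P hP hPn
    have hLp0 : 0 < Real.log Y := by linarith
    have hYp : 1 ≤ (Y : ℝ) ^ (1 / 3 + ρ) := Real.one_le_rpow hYr1 (by linarith)
    have hPr1 : (1 : ℝ) ≤ P := by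
      refine le_trans ?_ hP
      nlinarith
    have hP1 : 1 ≤ P := by exact_mod_cast hPr1
    have hn0 : n ≠ 0 := by omega
    obtain ⟨k, i, hk, hi, hg1, hg2, hg3⟩ := gr_near hM1n hP1
    obtain ⟨g, hg⟩ : ∃ g, g = gr M (k, i) := ⟨_, rfl⟩
    rw [← hg] at hg1 hg2 hg3
    have hYρ : 2 ≤ (Y : ℝ) ^ (ρ / 2) := by
      have h1 : Real.log Y ^ (A + 7) ≤ (Y : ℝ) ^ (ρ / 2) :=
        hLp.trans (Real.rpow_le_rpow_of_exponent_le hYr1 (min_le_left _ _))
      have h2 : Real.log Y ≤ Real.log Y ^ (A + 7) := by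
        calc Real.log Y = Real.log Y ^ 1 := (pow_one _).symm
          _ ≤ Real.log Y ^ (A + 7) := pow_le_pow_right₀ (by linarith) (by omega)
      linarith
    have hgQ : (q : ℝ) * (Y : ℝ) ^ (1 / 3 + ρ / 2) ≤ g := by
      have h1 : (P : ℝ) < 2 * g := by exact_mod_cast hg2
      have h2 : (q : ℝ) * (Y : ℝ) ^ (1 / 3 + ρ) = q * (Y : ℝ) ^ (1 / 3 + ρ / 2) * (Y : ℝ) ^ (ρ / 2) := by
        rw [mul_assoc, ← Real.rpow_add hY0]
        congr 2
        ring
      rw [h2] at hP
      have h3 : (q : ℝ) * (Y : ℝ) ^ (1 / 3 + ρ / 2) * 2 ≤ q * (Y : ℝ) ^ (1 / 3 + ρ / 2) * (Y : ℝ) ^ (ρ / 2) := by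
        gcongr
      linarith
    have hPY : P ≤ Y := by omega
    have hxG : (k, i) ∈ G := by
      rw [hG, mem_filter, mem_product, mem_range, mem_range]
      refine ⟨⟨?_, hi⟩, ?_, ?_⟩
      · rw [hk]
        show Nat.log 2 P < Nat.log 2 Y + 1
        exact Nat.lt_succ_of_le (Nat.log_mono_right hPY)
      · rw [← hg]
        exact hgQ
      · rw [← hg]
        omega
    have hgood : ‖∑ b ∈ Icc 1 g, LA b * GZ z (n - b)‖ ≤ (g : ℝ) / Real.log Y ^ (A + 2) := by
      by_contra hcon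
      push Not at hcon
      apply hn
      rw [mem_biUnion]
      refine ⟨(k, i), hxG, ?_⟩
      rw [hbad]
      simp only [mem_filter, mem_Icc]
      rw [← hg]
      refine ⟨⟨⟨by omega, hn2⟩, ?_⟩, hcon⟩
      rw [ZMod.natCast_eq_natCast_iff']
      exact hmod
    rw [← SR_split] at hgood
    have hY13 : (Y : ℝ) ^ (1 / 3 : ℝ) ≤ g := by
      calc (Y : ℝ) ^ (1 / 3 : ℝ) ≤ (Y : ℝ) ^ (1 / 3 + ρ / 2) :=
            Real.rpow_le_rpow_of_exponent_le hYr1 (by linarith)
        _ ≤ q * (Y : ℝ) ^ (1 / 3 + ρ / 2) := le_mul_of_one_le_left (by positivity) hq1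
        _ ≤ g := hgQ
    have hmain := hY₃ Y hYY₃ z ((pow_le_pow_left₀ (by linarith) hl6' (A + 2 + 4)).trans (hzB _ (by omega))) hz2 hV
      n g h2n (by omega) (by omega) hY13
    have hgg : |SR n g - g * SS n| ≤ 2 * ((g : ℝ) / Real.log Y ^ (A + 2)) := by
      have e1 : SR n g - g * SS n = (SR n g - ∑ b ∈ Icc 1 g, ArithmeticFunction.vonMangoldt b * lamz z (n - b)) +
          (∑ b ∈ Icc 1 g, ArithmeticFunction.vonMangoldt b * lamz z (n - b) - g * SS n) := by ring
      rw [e1]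
      refine (abs_add_le _ _).trans ?_
      linarith
    -- the singular series
    have hlogn : Real.log n ≤ 2 * Real.log Y := by
      have h1 : Real.log n ≤ Real.log (6 * Y) := by
        apply Real.log_le_log
        · exact_mod_cast Nat.pos_of_ne_zero hn0
        · have : (n : ℝ) ≤ 2 * Y := by exact_mod_cast hn2
          linarith
      linarith
    have hvm : ∀ m : ℕ, m ≤ n → ArithmeticFunction.vonMangoldt m ≤ 2 * Real.log Y := by
      intro m hm
      refine ArithmeticFunction.vonMangoldt_le_log.trans ?_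
      rcases Nat.eq_zero_or_pos m with h0 | h0
      · rw [h0]; simp; linarith
      · refine le_trans (Real.log_le_log (by exact_mod_cast h0) ?_) hlogn
        exact_mod_cast hm
    have hg0 : (0 : ℝ) < g := lt_of_lt_of_le (by positivity) hY13
    have hSS : SS n ≤ 7 * Real.log Y ^ 2 := by
      have h1 : ∑ b ∈ Icc 1 g, ArithmeticFunction.vonMangoldt b * lamz z (n - b) ≤ g * (6 * Real.log Y ^ 2) := by
        calc ∑ b ∈ Icc 1 g, ArithmeticFunction.vonMangoldt b * lamz z (n - b) ≤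
            ∑ b ∈ Icc 1 g, (2 * Real.log Y) * (3 * Real.log Y) := by
              refine sum_le_sum fun b hb => ?_
              rw [mem_Icc] at hb
              exact mul_le_mul (hvm b (by omega)) ((lamz_le z _).trans hV) (lamz_nonneg _ _) (by positivity)
          _ = g * (6 * Real.log Y ^ 2) := by
              rw [sum_const, Nat.card_Icc, nsmul_eq_mul, Nat.add_sub_cancel]
              ring
      have h2 := neg_le_of_abs_le hmain
      have h3 : (g : ℝ) * SS n ≤ g * (7 * Real.log Y ^ 2) := by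
        have h4 : (g : ℝ) / Real.log Y ^ (A + 2) ≤ g * Real.log Y ^ 2 := by
          rw [div_le_iff₀ (by positivity)]
          have h5 : 1 ≤ Real.log Y ^ 2 * Real.log Y ^ (A + 2) := by
            have e1 := one_le_pow₀ (M₀ := ℝ) (a := Real.log Y) (n := 2) (by linarith)
            have e2 := one_le_pow₀ (M₀ := ℝ) (a := Real.log Y) (n := A + 2) (by linarith)
            nlinarith
          calc (g : ℝ) = g * 1 := (mul_one _).symm
            _ ≤ g * (Real.log Y ^ 2 * Real.log Y ^ (A + 2)) := by gcongr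
            _ = _ := by ring
        linarith
      exact le_of_mul_le_mul_left h3 hg0
    have hSS1 := one_le_SS n
    -- from the grid to `P`
    have hPg : ((P - g : ℕ) : ℝ) ≤ 2 * (P / M) := by
      have h1 : 1 ≤ (P : ℝ) / M := by
        rw [le_div_iff₀ (by linarith), one_mul]
        have h2 : Real.log Y ^ (A + 7) ≤ (Y : ℝ) ^ (1 / 3 : ℝ) :=
          hLp.trans (Real.rpow_le_rpow_of_exponent_le hYr1 (min_le_right _ _))
        calc (M : ℝ) ≤ 2 * Real.log Y ^ (A + 6) := hM2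
          _ ≤ Real.log Y * Real.log Y ^ (A + 6) := by
              apply mul_le_mul_of_nonneg_right (by linarith) (by positivity)
          _ = Real.log Y ^ (A + 7) := by ring
          _ ≤ (Y : ℝ) ^ (1 / 3 : ℝ) := h2
          _ ≤ g := hY13
          _ ≤ P := by exact_mod_cast hg1
      linarith
    have hPM : (P : ℝ) / M ≤ P / Real.log Y ^ (A + 6) := by
      apply div_le_div_of_nonneg_left (by positivity) (by positivity) hM1
    have hcast : ((P - g : ℕ) : ℝ) = (P : ℝ) - g := by rw [Nat.cast_sub hg1]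
    have hSR : |SR n P - SR n g| ≤ ((P - g : ℕ) : ℝ) * (4 * Real.log Y ^ 2) := by
      have e1 : SR n P - SR n g = ∑ b ∈ Ioc g P, ArithmeticFunction.vonMangoldt b * ArithmeticFunction.vonMangoldt (n - b) := by
        unfold SR
        have h1 : ∀ m : ℕ, ∑ b ∈ Icc 1 m, ArithmeticFunction.vonMangoldt b * ArithmeticFunction.vonMangoldt (n - b) =
            ∑ b ∈ Ioc 0 m, ArithmeticFunction.vonMangoldt b * ArithmeticFunction.vonMangoldt (n - b) := by
          intro m
          apply sum_congr _ fun _ _ => rfl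
          ext b
          simp only [mem_Icc, mem_Ioc]
          omega
        rw [h1, h1, ← Finset.sum_Ioc_consecutive _ (Nat.zero_le g) hg1]
        ring
      rw [e1, abs_of_nonneg (sum_nonneg fun b _ => mul_nonneg ArithmeticFunction.vonMangoldt_nonneg
        ArithmeticFunction.vonMangoldt_nonneg)]
      calc ∑ b ∈ Ioc g P, ArithmeticFunction.vonMangoldt b * ArithmeticFunction.vonMangoldt (n - b) ≤
          ∑ b ∈ Ioc g P, (2 * Real.log Y) * (2 * Real.log Y) := by
            refine sum_le_sum fun b hb => ?_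
            rw [mem_Ioc] at hb
            exact mul_le_mul (hvm b (by omega)) (hvm (n - b) (by omega)) ArithmeticFunction.vonMangoldt_nonneg
              (by positivity)
        _ = ((P - g : ℕ) : ℝ) * (4 * Real.log Y ^ 2) := by
            rw [sum_const, Nat.card_Ioc, nsmul_eq_mul]
            ring
    have hfin : SR n P - P * SS n = (SR n g - g * SS n) + (SR n P - SR n g) - ((P - g : ℕ) : ℝ) * SS n := by
      rw [hcast]
      ring
    rw [hfin]
    have h1 : |SR n g - g * SS n + (SR n P - SR n g) - ((P - g : ℕ) : ℝ) * SS n| ≤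
        2 * ((g : ℝ) / Real.log Y ^ (A + 2)) + ((P - g : ℕ) : ℝ) * (4 * Real.log Y ^ 2) +
        ((P - g : ℕ) : ℝ) * (7 * Real.log Y ^ 2) := by
      refine (abs_sub _ _).trans (add_le_add ((abs_add_le _ _).trans (add_le_add hgg hSR)) ?_)
      rw [abs_of_nonneg (by positivity)]
      gcongr
    refine h1.trans ?_
    have h2 : ((P - g : ℕ) : ℝ) * (4 * Real.log Y ^ 2) + ((P - g : ℕ) : ℝ) * (7 * Real.log Y ^ 2) ≤
        (P : ℝ) / Real.log Y ^ A * (22 / Real.log Y ^ 4) := by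
      calc ((P - g : ℕ) : ℝ) * (4 * Real.log Y ^ 2) + ((P - g : ℕ) : ℝ) * (7 * Real.log Y ^ 2) =
          ((P - g : ℕ) : ℝ) * (11 * Real.log Y ^ 2) := by ring
        _ ≤ (2 * (P / Real.log Y ^ (A + 6))) * (11 * Real.log Y ^ 2) := by
            apply mul_le_mul_of_nonneg_right _ (by positivity)
            linarith
        _ = (P : ℝ) / Real.log Y ^ A * (22 / Real.log Y ^ 4) := by
            have : Real.log Y ^ (A + 6) = Real.log Y ^ A * Real.log Y ^ 2 * Real.log Y ^ 4 := by ring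
            rw [this]
            field_simp
            ring
    have h3 : 2 * ((g : ℝ) / Real.log Y ^ (A + 2)) ≤ (P : ℝ) / Real.log Y ^ A * (2 / Real.log Y ^ 2) := by
      have : (g : ℝ) ≤ P := by exact_mod_cast hg1
      calc 2 * ((g : ℝ) / Real.log Y ^ (A + 2)) ≤ 2 * ((P : ℝ) / Real.log Y ^ (A + 2)) := by gcongr
        _ = _ := by
            rw [pow_add]
            field_simp
    have h4 : 2 / Real.log Y ^ 2 + 22 / Real.log Y ^ 4 ≤ 1 := by
      have h5 : 2 / Real.log Y ^ 2 ≤ 1 / 2 := by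
        rw [div_le_div_iff₀ (by positivity) two_pos]
        nlinarith
      have h6 : 22 / Real.log Y ^ 4 ≤ 1 / 2 := by
        rw [div_le_div_iff₀ (by positivity) two_pos]
        have : Real.log Y ≤ Real.log Y ^ 4 := by
          calc Real.log Y = Real.log Y ^ 1 := (pow_one _).symm
            _ ≤ Real.log Y ^ 4 := pow_le_pow_right₀ (by linarith) (by norm_num)
        linarith
      linarith
    have h5 : 0 ≤ (P : ℝ) / Real.log Y ^ A := by positivity
    nlinarith

end Pool.Agent.H567.HW
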