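import Pool.Agent.H567.HW.CPw

/-!
Project HW (helper567), part 15: the estimate for one frequency, a family of functions.
-/

set_option autoImplicit false

namespace Pool.Agent.H567.HW

open Finset
open Pool.Agent.Y883.GJ
open Pool.Agent.Y614.GJ.Core (P P_nonneg S_le P_le q_le_phi card_above gcd_above dirich ev_log)

/-- the major arcs -/
lemma majW (h3 : LiftStm) (F : ℕ → ℂ) (G : ℕ → ℕ → ℂ) (U : Finset ℕ) {q N k : ℕ} [NeZero q] [NeZero (k * q)]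
    {h : ℤ} {β η : ℝ} {a : ZMod q} {X Yr : ℝ} (hβ : β = h / (k * q : ℕ) + η)
    (hX : ∀ a' : ZMod (k * q), ((a'.val : ℕ) : ZMod q) = a →
      ∑ u ∈ U, ‖∑ l : ZMod (k * q), cl (k * q) N F η l * cl (k * q) N (G u) η (a' - l)‖ ^ 2 ≤
        X * (Yr * ∑ l : ZMod (k * q), ‖cl (k * q) N F η l‖ ^ 2 +
          ∑ u ∈ U, ∑ l : ZMod (k * q), ‖cl (k * q) N (G u) η l‖ ^ 2)) :
    ∑ u ∈ U, ‖∑ l : ZMod q, cl q N F β l * cl q N (G u) β (a - l)‖ ^ 2 ≤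
      (k : ℝ) ^ 2 * (X * (Yr * P (k * q) N F β + ∑ u ∈ U, P (k * q) N (G u) β)) := by
  have l2 : ∀ F' : ℕ → ℂ, ∑ l : ZMod (k * q), ‖cl (k * q) N F' η l‖ ^ 2 = P (k * q) N F' β := by
    intro F'
    obtain ⟨-, l2⟩ := h3 q k N F' F' h β η hβ
    exact sum_congr rfl fun l _ => by rw [l2]
  simp only [l2] at hX
  obtain ⟨Y, hY⟩ : ∃ Y, Y = X * (Yr * P (k * q) N F β + ∑ u ∈ U, P (k * q) N (G u) β) := ⟨_, rfl⟩
  rw [← hY] at hX ⊢
  obtain ⟨S, hS⟩ : ∃ S, S = univ.filter (fun a' : ZMod (k * q) => ((a'.val : ℕ) : ZMod q) = a) := ⟨_, rfl⟩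
  have hc : (S.card : ℝ) ≤ k := by
    rw [hS]
    exact_mod_cast card_above k q a
  have h0 : ∀ a' ∈ S, ∑ u ∈ U, ‖∑ l : ZMod (k * q), cl (k * q) N F η l *
      cl (k * q) N (G u) η (a' - l)‖ ^ 2 ≤ Y := fun a' ha' => hX a' (by rw [hS] at ha'; exact (mem_filter.1 ha').2)
  have h1 : ∀ u ∈ U, ‖∑ l : ZMod q, cl q N F β l * cl q N (G u) β (a - l)‖ ^ 2 ≤
      S.card * ∑ a' ∈ S, ‖∑ l : ZMod (k * q), cl (k * q) N F η l * cl (k * q) N (G u) η (a' - l)‖ ^ 2 := by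
    intro u _
    obtain ⟨l1, -⟩ := h3 q k N F (G u) h β η hβ
    have l3 := l1 a
    rw [← hS] at l3
    exact (pow_le_pow_left₀ (norm_nonneg _) l3 2).trans sq_sum_le_card_mul_sum_sq
  calc ∑ u ∈ U, ‖∑ l : ZMod q, cl q N F β l * cl q N (G u) β (a - l)‖ ^ 2
      ≤ ∑ u ∈ U, S.card * ∑ a' ∈ S, ‖∑ l : ZMod (k * q), cl (k * q) N F η l *
          cl (k * q) N (G u) η (a' - l)‖ ^ 2 := sum_le_sum h1
    _ = S.card * ∑ a' ∈ S, ∑ u ∈ U, ‖∑ l : ZMod (k * q), cl (k * q) N F η l *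
          cl (k * q) N (G u) η (a' - l)‖ ^ 2 := by
        rw [← mul_sum, sum_comm]
    _ ≤ S.card * ∑ a' ∈ S, Y := by
        gcongr with a' ha'
        exact h0 a' ha'
    _ = (S.card : ℝ) ^ 2 * Y := by rw [sum_const, nsmul_eq_mul]; ring
    _ ≤ (k : ℝ) ^ 2 * Y := by
        rcases S.eq_empty_or_nonempty with hS0 | ⟨a', ha'⟩
        · exfalso
          have : ((a.val : ℕ) : ZMod (k * q)) ∈ S := by
            rw [hS, mem_filter]
            refine ⟨mem_univ _, ?_⟩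
            have hq : 0 < q := NeZero.pos q
            have hk : 0 < k := Nat.pos_of_ne_zero (left_ne_zero_of_mul (NeZero.ne (k * q)))
            have h1 : a.val < k * q := lt_of_lt_of_le (ZMod.val_lt a) (Nat.le_mul_of_pos_left q hk)
            rw [ZMod.val_natCast, Nat.mod_eq_of_lt h1, ZMod.natCast_zmod_val]
          rw [hS0] at this
          exact absurd this (notMem_empty _)
        · have hY0 : 0 ≤ Y := le_trans (sum_nonneg fun _ _ => by positivity) (h0 a' ha')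
          gcongr

/-- the estimate for one frequency -/
lemma pointW (h3 : LiftStm) (h5 : OrthStm) (F : ℕ → ℂ) (G : ℕ → ℕ → ℂ) (U : Finset ℕ) {A C T : ℕ} {L Yr : ℝ}
    {N Q q : ℕ} [NeZero q] {a : ZMod q} (hL : L = Real.log Q) (hL8 : 8 ≤ L) (hQ : 1 ≤ Q)
    (hqQ : (q : ℝ) ≤ Q) (hqLC : (q : ℝ) * L ^ C ≤ Q) (hYr : 0 ≤ Yr)
    (hgcd : (Nat.gcd a.val q : ℝ) ≤ L ^ T)
    (hmin : ∀ (k : ℕ) (h : ℤ) (β : ℝ), L ^ C ≤ k → (q : ℝ) * k * L ^ C ≤ Q →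
      IsCoprime h (k : ℤ) → |q * β - h / k| ≤ 1 / (k : ℝ) ^ 2 →
      ∑ χ : DirichletCharacter ℂ q, ‖cs q N F β χ‖ ^ 2 ≤ (Q : ℝ) ^ 2 / L ^ (A + 11))
    (hnon : ∀ β : ℝ, ∑ l ∈ univ.filter (fun l : ZMod q => ¬ IsUnit l),
      ‖cl q N F β l‖ ^ 2 ≤ (Q : ℝ) ^ 2 / (q * L ^ (A + 9)) / 2)
    (hpw : ∀ j : ℕ, ((j + 1 : ℕ) : ℝ) ≤ L ^ C → ∀ a' : ZMod ((j + 1) * q),
      (Nat.gcd a'.val ((j + 1) * q) : ℝ) ≤ L ^ (T + C) → ∀ η : ℝ, |η| ≤ L ^ C / Q →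
      ∑ u ∈ U, ‖∑ l : ZMod ((j + 1) * q), cl ((j + 1) * q) N F η l *
        cl ((j + 1) * q) N (G u) η (a' - l)‖ ^ 2 ≤
      (Q : ℝ) ^ 2 / ((((j + 1) * q : ℕ) : ℝ) * L ^ (A + 2 * C + 9)) *
        (Yr * ∑ l : ZMod ((j + 1) * q), ‖cl ((j + 1) * q) N F η l‖ ^ 2 +
          ∑ u ∈ U, ∑ l : ZMod ((j + 1) * q), ‖cl ((j + 1) * q) N (G u) η l‖ ^ 2))
    (β : ℝ) :
    ∑ u ∈ U, ‖∑ l : ZMod q, cl q N F β l * cl q N (G u) β (a - l)‖ ^ 2 ≤
      (Q : ℝ) ^ 2 / (q * L ^ (A + 9)) * ∑ u ∈ U, P q N (G u) β +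
      L ^ C * ((Q : ℝ) ^ 2 / (q * L ^ (A + 2 * C + 9))) *
        ∑ j ∈ range ⌊L ^ C⌋₊, (Yr * P ((j + 1) * q) N F β + ∑ u ∈ U, P ((j + 1) * q) N (G u) β) := by
  have hL0 : 0 < L := by linarith
  have hq0 : (0 : ℝ) < q := by exact_mod_cast NeZero.pos q
  have hN0 : (0 : ℝ) < Q := by exact_mod_cast hQ
  have hLC : 0 < L ^ C := by positivity
  have hPu : ∀ (q' : ℕ) [NeZero q'], 0 ≤ ∑ u ∈ U, P q' N (G u) β := fun q' _ =>
    sum_nonneg fun _ _ => P_nonneg _ _ _ _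
  have hterm : ∀ (q' : ℕ) [NeZero q'], 0 ≤ Yr * P q' N F β + ∑ u ∈ U, P q' N (G u) β := fun q' _ =>
    add_nonneg (mul_nonneg hYr (P_nonneg _ _ _ _)) (hPu q')
  have hsum0 : 0 ≤ ∑ j ∈ range ⌊L ^ C⌋₊,
      (Yr * P ((j + 1) * q) N F β + ∑ u ∈ U, P ((j + 1) * q) N (G u) β) :=
    sum_nonneg fun j _ => hterm _
  set n := ⌊(Q : ℝ) / (q * L ^ C)⌋₊ with hn
  have hn0 : 0 < n := by
    rw [hn, Nat.floor_pos, le_div_iff₀ (by positivity), one_mul]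
    exact hqLC
  have hn1 : (n : ℝ) ≤ (Q : ℝ) / (q * L ^ C) := Nat.floor_le (by positivity)
  have hn2 : (Q : ℝ) / (q * L ^ C) < n + 1 := Nat.lt_floor_add_one _
  obtain ⟨j, h, hj, hcop, hx⟩ := dirich ((q : ℝ) * β) hn0
  have hjn : ((j + 1 : ℕ) : ℝ) ≤ n := by exact_mod_cast hj
  have hk0 : (0 : ℝ) < ((j + 1 : ℕ) : ℝ) := by positivity
  have hk1 : (1 : ℝ) ≤ ((j + 1 : ℕ) : ℝ) := by exact_mod_cast Nat.succ_pos j
  have hP0 : 0 ≤ P q N F β := P_nonneg _ _ _ _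
  by_cases hkC : L ^ C ≤ ((j + 1 : ℕ) : ℝ)
  · -- minor arcs
    have e1 : (q : ℝ) * ((j + 1 : ℕ) : ℝ) * L ^ C ≤ Q := by
      have := (le_div_iff₀ (by positivity)).1 (hjn.trans hn1)
      linarith
    have e2 : |(q : ℝ) * β - h / ((j + 1 : ℕ) : ℝ)| ≤ 1 / ((j + 1 : ℕ) : ℝ) ^ 2 := by
      refine hx.trans ?_
      rw [sq]
      apply one_div_le_one_div_of_le (by positivity)
      apply mul_le_mul_of_nonneg_right _ hk0.le
      linarith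
    have e3 := hmin (j + 1) h β hkC e1 hcop e2
    have e4 := P_le h5 e3 (hnon β)
    have hφ0 : (0 : ℝ) < q.totient := by exact_mod_cast Nat.totient_pos.2 (NeZero.pos q)
    have e5 : ((q.totient : ℝ))⁻¹ ≤ 3 * L / q := by
      have h1 := q_le_phi (NeZero.pos q)
      have h2 : Real.log q ≤ L := by
        rw [hL]
        exact Real.log_le_log hq0 hqQ
      rw [inv_eq_one_div, div_le_div_iff₀ hφ0 hq0, one_mul]
      refine h1.trans ?_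
      rw [mul_comm (3 * L)]
      apply mul_le_mul_of_nonneg_left _ hφ0.le
      linarith
    have e6 : ((q.totient : ℝ))⁻¹ * ((Q : ℝ) ^ 2 / L ^ (A + 11)) ≤
        (Q : ℝ) ^ 2 / (q * L ^ (A + 9)) / 2 := by
      calc ((q.totient : ℝ))⁻¹ * ((Q : ℝ) ^ 2 / L ^ (A + 11))
          ≤ 3 * L / q * ((Q : ℝ) ^ 2 / L ^ (A + 11)) := by gcongr
        _ = (Q : ℝ) ^ 2 / (q * L ^ (A + 9)) * (3 / L) := by
            rw [show A + 11 = (A + 9) + 2 by ring, pow_add]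
            field_simp
        _ ≤ (Q : ℝ) ^ 2 / (q * L ^ (A + 9)) * (1 / 2) := by
            have : 3 / L ≤ 1 / 2 := by
              rw [div_le_div_iff₀ hL0 (by norm_num)]
              linarith
            gcongr
        _ = _ := by ring
    have e7 : P q N F β ≤ (Q : ℝ) ^ 2 / (q * L ^ (A + 9)) := by
      refine e4.trans ?_
      linarith
    calc ∑ u ∈ U, ‖∑ l : ZMod q, cl q N F β l * cl q N (G u) β (a - l)‖ ^ 2
        ≤ ∑ u ∈ U, P q N F β * P q N (G u) β := sum_le_sum fun u _ => S_le q N F (G u) β a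
      _ = P q N F β * ∑ u ∈ U, P q N (G u) β := by rw [mul_sum]
      _ ≤ ((Q : ℝ) ^ 2 / (q * L ^ (A + 9))) * ∑ u ∈ U, P q N (G u) β :=
          mul_le_mul_of_nonneg_right e7 (hPu q)
      _ ≤ _ := le_add_of_nonneg_right (mul_nonneg (by positivity) hsum0)
  · -- major arcs
    rw [not_le] at hkC
    set k : ℕ := j + 1 with hk
    have hηle : |β - h / ((k * q : ℕ) : ℝ)| ≤ L ^ C / Q := by
      have e1 : β - h / ((k * q : ℕ) : ℝ) = ((q : ℝ) * β - h / (k : ℝ)) / q := by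
        push_cast
        field_simp
      rw [e1, abs_div, abs_of_pos hq0, div_le_div_iff₀ hq0 hN0]
      have e2 : (Q : ℝ) ≤ (n + 1) * (q * L ^ C) := by
        have := (div_lt_iff₀ (by positivity)).1 hn2
        linarith
      have hn3 : (0 : ℝ) < n + 1 := by positivity
      calc |(q : ℝ) * β - h / (k : ℝ)| * Q ≤ 1 / (((n : ℝ) + 1) * (k : ℝ)) * Q := by gcongr
        _ ≤ 1 / ((n : ℝ) + 1) * Q := by
            apply mul_le_mul_of_nonneg_right _ hN0.le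
            apply one_div_le_one_div_of_le hn3
            nlinarith
        _ ≤ 1 / ((n : ℝ) + 1) * ((n + 1) * (q * L ^ C)) := by gcongr
        _ = L ^ C * q := by field_simp
    have e3 := majW h3 F G U (a := a) (Yr := Yr)
      (X := (Q : ℝ) ^ 2 / (((k * q : ℕ) : ℝ) * L ^ (A + 2 * C + 9)))
      (h := h) (β := β) (η := β - h / ((k * q : ℕ) : ℝ)) (by ring)
      (fun a' ha' => hpw j hkC.le a' (by
        have h1 := gcd_above ha'
        have h2 : ((Nat.gcd a'.val (k * q) : ℕ) : ℝ) ≤ (k : ℝ) * (Nat.gcd a.val q : ℝ) := by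
          exact_mod_cast h1
        calc ((Nat.gcd a'.val (k * q) : ℕ) : ℝ) ≤ (k : ℝ) * (Nat.gcd a.val q : ℝ) := h2
          _ ≤ L ^ C * L ^ T := by gcongr
          _ = L ^ (T + C) := by rw [← pow_add, add_comm]) _ hηle)
    have hPk : 0 ≤ Yr * P (k * q) N F β + ∑ u ∈ U, P (k * q) N (G u) β := hterm _
    have e4 : Yr * P (k * q) N F β + ∑ u ∈ U, P (k * q) N (G u) β ≤ ∑ j ∈ range ⌊L ^ C⌋₊,
        (Yr * P ((j + 1) * q) N F β + ∑ u ∈ U, P ((j + 1) * q) N (G u) β) := by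
      refine single_le_sum (f := fun j => Yr * P ((j + 1) * q) N F β + ∑ u ∈ U, P ((j + 1) * q) N (G u) β)
        (fun j _ => hterm _) (mem_range.2 ?_)
      have : k ≤ ⌊L ^ C⌋₊ := Nat.le_floor hkC.le
      omega
    have hX0 : 0 ≤ (Q : ℝ) ^ 2 / (q * L ^ (A + 2 * C + 9)) := by positivity
    have hfst : 0 ≤ (Q : ℝ) ^ 2 / (q * L ^ (A + 9)) * ∑ u ∈ U, P q N (G u) β :=
      mul_nonneg (by positivity) (hPu q)
    refine le_trans e3 (le_trans ?_ (le_add_of_nonneg_left hfst))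
    clear hfst e3
    generalize (Yr * P (k * q) N F β + ∑ u ∈ U, P (k * q) N (G u) β) = Z1 at hPk e4 ⊢
    generalize (∑ j ∈ range ⌊L ^ C⌋₊,
        (Yr * P ((j + 1) * q) N F β + ∑ u ∈ U, P ((j + 1) * q) N (G u) β)) = Z2 at e4 ⊢
    calc (k : ℝ) ^ 2 * ((Q : ℝ) ^ 2 / (((k * q : ℕ) : ℝ) * L ^ (A + 2 * C + 9)) * Z1)
        = k * ((Q : ℝ) ^ 2 / (q * L ^ (A + 2 * C + 9))) * Z1 := by
          rw [Nat.cast_mul]
          field_simp
      _ ≤ L ^ C * ((Q : ℝ) ^ 2 / (q * L ^ (A + 2 * C + 9))) * Z2 := by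
          gcongr

end Pool.Agent.H567.HW
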