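import Pool.Graph.R_seed8.R460.GS.Core2

/-!
Project HW (helper567), part 14: the estimate on the major arcs, one class, a family of functions.
-/

set_option autoImplicit false

namespace Pool.Agent.H567.HW

open Finset
open Pool.Agent.Y883.GJ
open Pool.Agent.R460.GS (sum_norm_le)
open Pool.Agent.Y614.GJ.Core (P P_nonneg S_le P_le q_le_phi card_above gcd_above dirich ev_log)

open Classical in
/-- the pointwise estimate on the major arcs -/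
lemma pwW (h3 : OrthStm) {q N Q : ℕ} [NeZero q] (U : Finset ℕ) (F : ℕ → ℂ) (G : ℕ → ℕ → ℂ) {A C₃ K B₂ U₁ : ℕ}
    {L η Yr : ℝ} {a : ZMod q} (hYr : 0 ≤ Yr)
    (hL : L = Real.log Q) (hL200 : 200 ≤ L) (hQ : 1 ≤ Q) (hqQ : (q : ℝ) ≤ Q)
    (B : Finset (DirichletCharacter ℂ q)) (hBc : (B.card : ℝ) ≤ L ^ C₃)
    (hgood : ∀ S : Finset (DirichletCharacter ℂ q), Disjoint S B →
      ∑ u ∈ U, ∑ χ ∈ S, ‖cs q N (G u) η χ‖ ^ 2 ≤ Yr * ((Q : ℝ) ^ 2 / L ^ (A + 4)))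
    (hnon : ∑ u ∈ U, ∑ l ∈ univ.filter (fun l : ZMod q => ¬ IsUnit l), ‖cl q N (G u) η l‖ ^ 2 ≤
      Yr * ((Q : ℝ) ^ 2 / (q * L ^ (A + 2))))
    (hsm : ∀ χ : DirichletCharacter ℂ q, (χ.conductor : ℝ) ≤ L ^ K →
      ∑ u ∈ U, ‖cs q N (G u) η χ‖ ^ 2 ≤ Yr * ((Q : ℝ) / L ^ U₁) ^ 2)
    (hU : C₃ + A + 4 ≤ 2 * U₁)
    (hsh : ∀ χ : DirichletCharacter ℂ q, L ^ K < χ.conductor →
      ‖∑ l : ZMod q, cl q N F η l * χ (a - l)‖ ≤ Q / L ^ B₂)
    (hB₂ : 2 * C₃ + A + 3 ≤ 2 * B₂) :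
    ∑ u ∈ U, ‖∑ l : ZMod q, cl q N F η l * cl q N (G u) η (a - l)‖ ^ 2 ≤ (Q : ℝ) ^ 2 / (q * L ^ A) *
      (Yr * ∑ l : ZMod q, ‖cl q N F η l‖ ^ 2 + ∑ u ∈ U, ∑ l : ZMod q, ‖cl q N (G u) η l‖ ^ 2) := by
  have hL0 : 0 < L := by linarith
  have hL1 : 1 ≤ L := by linarith
  have hNp : (0 : ℝ) < Q := by exact_mod_cast hQ
  have hq0 : 0 < q := Nat.pos_of_ne_zero (NeZero.ne q)
  have hqr : (0 : ℝ) < q := by exact_mod_cast hq0
  have hφ0 : (0 : ℝ) < q.totient := by exact_mod_cast Nat.totient_pos.2 hq0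
  have hφ : ((q.totient : ℝ))⁻¹ ≤ 3 * L / q := by
    have h1 := q_le_phi hq0
    have h2 : Real.log q ≤ L := by
      rw [hL]
      exact Real.log_le_log hqr hqQ
    rw [inv_eq_one_div, div_le_div_iff₀ hφ0 hqr, one_mul]
    refine h1.trans ?_
    rw [mul_comm (3 * L)]
    apply mul_le_mul_of_nonneg_left _ hφ0.le
    linarith
  obtain ⟨BF, hBF⟩ : ∃ BF : Finset (DirichletCharacter ℂ q),
      BF = B.filter (fun χ => L ^ K < (χ.conductor : ℝ)) := ⟨_, rfl⟩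
  have hBFc : (BF.card : ℝ) ≤ L ^ C₃ := by
    refine le_trans ?_ hBc
    rw [hBF]
    exact_mod_cast card_filter_le _ _
  have hFB : ∑ u ∈ U, ∑ χ ∈ univ.filter (fun χ => χ ∉ BF), ‖cs q N (G u) η χ‖ ^ 2 ≤
      2 * (Yr * ((Q : ℝ) ^ 2 / L ^ (A + 4))) := by
    have hsub : univ.filter (fun χ => χ ∉ BF) ⊆
        (univ.filter (fun χ => χ ∉ B)) ∪ (B.filter (fun χ => ¬ L ^ K < (χ.conductor : ℝ))) := by
      intro χ hχ
      rw [mem_filter] at hχ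
      rw [mem_union, mem_filter, mem_filter]
      by_cases hb : χ ∈ B
      · right
        refine ⟨hb, fun h => hχ.2 ?_⟩
        rw [hBF, mem_filter]
        exact ⟨hb, h⟩
      · left
        exact ⟨mem_univ _, hb⟩
    have hdis : Disjoint (univ.filter (fun χ => χ ∉ B))
        (B.filter (fun χ => ¬ L ^ K < (χ.conductor : ℝ))) := by
      rw [disjoint_left]
      intro χ k1 k2
      exact (mem_filter.1 k1).2 (mem_filter.1 k2).1
    refine (sum_le_sum fun u _ => sum_le_sum_of_subset_of_nonneg hsub fun _ _ _ => sq_nonneg _).trans ?_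
    have e0 : ∀ u ∈ U, ∑ χ ∈ (univ.filter (fun χ => χ ∉ B)) ∪ (B.filter (fun χ => ¬ L ^ K < (χ.conductor : ℝ))),
        ‖cs q N (G u) η χ‖ ^ 2 = ∑ χ ∈ univ.filter (fun χ => χ ∉ B), ‖cs q N (G u) η χ‖ ^ 2 +
        ∑ χ ∈ B.filter (fun χ => ¬ L ^ K < (χ.conductor : ℝ)), ‖cs q N (G u) η χ‖ ^ 2 :=
      fun u _ => sum_union hdis
    rw [sum_congr rfl e0, sum_add_distrib]
    have k1 : ∑ u ∈ U, ∑ χ ∈ univ.filter (fun χ => χ ∉ B), ‖cs q N (G u) η χ‖ ^ 2 ≤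
        Yr * ((Q : ℝ) ^ 2 / L ^ (A + 4)) := by
      apply hgood
      rw [disjoint_left]
      intro χ k1 k2
      exact (mem_filter.1 k1).2 k2
    have k2 : ∑ u ∈ U, ∑ χ ∈ B.filter (fun χ => ¬ L ^ K < (χ.conductor : ℝ)),
        ‖cs q N (G u) η χ‖ ^ 2 ≤ Yr * ((Q : ℝ) ^ 2 / L ^ (A + 4)) := by
      rw [sum_comm]
      calc ∑ χ ∈ B.filter (fun χ => ¬ L ^ K < (χ.conductor : ℝ)), ∑ u ∈ U, ‖cs q N (G u) η χ‖ ^ 2
          ≤ ∑ χ ∈ B.filter (fun χ => ¬ L ^ K < (χ.conductor : ℝ)), Yr * ((Q : ℝ) / L ^ U₁) ^ 2 := by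
            refine sum_le_sum fun χ hχ => ?_
            exact hsm χ (not_lt.1 (mem_filter.1 hχ).2)
        _ = ((B.filter (fun χ => ¬ L ^ K < (χ.conductor : ℝ))).card : ℝ) * (Yr * ((Q : ℝ) / L ^ U₁) ^ 2) := by
            rw [sum_const, nsmul_eq_mul]
        _ ≤ L ^ C₃ * (Yr * ((Q : ℝ) / L ^ U₁) ^ 2) := by
            apply mul_le_mul_of_nonneg_right _ (by positivity)
            refine le_trans ?_ hBc
            exact_mod_cast card_filter_le _ _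
        _ = Yr * ((Q : ℝ) ^ 2 * (L ^ C₃ / L ^ (2 * U₁))) := by
            rw [div_pow, ← pow_mul, mul_comm U₁ 2]
            ring
        _ ≤ Yr * ((Q : ℝ) ^ 2 * (1 / L ^ (A + 4))) := by
            have e1 : L ^ C₃ / L ^ (2 * U₁) ≤ 1 / L ^ (A + 4) := by
              rw [div_le_div_iff₀ (by positivity) (by positivity), one_mul, ← pow_add]
              exact pow_le_pow_right₀ hL1 (by omega)
            gcongr
        _ = _ := by ring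
    linarith
  obtain ⟨Fc, hFc⟩ : ∃ Fc : ZMod q → ℂ, Fc = cl q N F η := ⟨_, rfl⟩
  obtain ⟨Gc, hGc⟩ : ∃ Gc : ℕ → ZMod q → ℂ, Gc = fun u => cl q N (G u) η := ⟨_, rfl⟩
  obtain ⟨Gb, hGb⟩ : ∃ Gb : ℕ → ZMod q → ℂ, Gb = fun u => clB q N (G u) η BF := ⟨_, rfl⟩
  obtain ⟨SF, hSF⟩ : ∃ SF : ℝ, SF = ∑ l, ‖Fc l‖ ^ 2 := ⟨_, rfl⟩
  obtain ⟨SG, hSG⟩ : ∃ SG : ℕ → ℝ, SG = fun u => ∑ l, ‖Gc u l‖ ^ 2 := ⟨_, rfl⟩
  have hSF0 : 0 ≤ SF := by rw [hSF]; exact sum_nonneg fun _ _ => sq_nonneg _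
  have hSG0 : ∀ u, 0 ≤ SG u := fun u => by rw [hSG]; exact sum_nonneg fun _ _ => sq_nonneg _
  obtain ⟨E, hE⟩ : ∃ E : ℝ, E = (Q : ℝ) ^ 2 / (q * L ^ (A + 1)) := ⟨_, rfl⟩
  have hE0 : 0 ≤ E := by rw [hE]; positivity
  have hGg : ∑ u ∈ U, ∑ l, ‖Gc u l - Gb u l‖ ^ 2 ≤ Yr * E := by
    rw [hE, hGc, hGb]
    simp only
    have e0 : ∀ u ∈ U, ∑ l : ZMod q, ‖cl q N (G u) η l - clB q N (G u) η BF l‖ ^ 2 =
        (q.totient : ℝ)⁻¹ * ∑ χ ∈ univ.filter (fun χ => χ ∉ BF), ‖cs q N (G u) η χ‖ ^ 2 +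
      ∑ l ∈ univ.filter (fun l : ZMod q => ¬ IsUnit l), ‖cl q N (G u) η l‖ ^ 2 := by
      intro u _
      convert (h3 q N (G u) η BF).1 using 2
    rw [sum_congr rfl e0, sum_add_distrib, ← mul_sum]
    have k1 : (q.totient : ℝ)⁻¹ * ∑ u ∈ U, ∑ χ ∈ univ.filter (fun χ => χ ∉ BF), ‖cs q N (G u) η χ‖ ^ 2 ≤
        3 * L / q * (2 * (Yr * ((Q : ℝ) ^ 2 / L ^ (A + 4)))) := by
      refine mul_le_mul hφ ?_ (sum_nonneg fun _ _ => sum_nonneg fun _ _ => sq_nonneg _) (by positivity)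
      exact hFB
    have k2 : 3 * L / q * (2 * (Yr * ((Q : ℝ) ^ 2 / L ^ (A + 4)))) =
        6 / L ^ 2 * (Yr * ((Q : ℝ) ^ 2 / (q * L ^ (A + 1)))) := by
      have e : L ^ (A + 4) = L ^ (A + 1) * L * L ^ 2 := by ring
      rw [e]
      field_simp
      try ring
    have k3 : Yr * ((Q : ℝ) ^ 2 / (q * L ^ (A + 2))) = 1 / L * (Yr * ((Q : ℝ) ^ 2 / (q * L ^ (A + 1)))) := by
      have e : L ^ (A + 2) = L ^ (A + 1) * L := by ring
      rw [e]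
      field_simp
    have k4 : 6 / L ^ 2 ≤ 1 / 2 := by
      rw [div_le_div_iff₀ (by positivity) two_pos]
      nlinarith
    have k5 : 1 / L ≤ 1 / 2 := by
      rw [div_le_div_iff₀ hL0 two_pos]
      linarith
    have k6 : 0 ≤ Yr * ((Q : ℝ) ^ 2 / (q * L ^ (A + 1))) := by positivity
    rw [k2] at k1
    rw [k3] at hnon
    have k7 := mul_le_mul_of_nonneg_right k4 k6
    have k8 := mul_le_mul_of_nonneg_right k5 k6
    linarith
  have hcs : ∀ (u : ℕ) (χ : DirichletCharacter ℂ q), ‖cs q N (G u) η χ‖ ^ 2 ≤ q.totient * SG u := by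
    intro u χ
    have k1 : ‖cs q N (G u) η χ‖ ^ 2 ≤ ∑ χ : DirichletCharacter ℂ q, ‖cs q N (G u) η χ‖ ^ 2 :=
      single_le_sum (f := fun χ : DirichletCharacter ℂ q => ‖cs q N (G u) η χ‖ ^ 2)
        (fun _ _ => sq_nonneg _) (mem_univ χ)
    refine k1.trans ?_
    rw [(h3 q N (G u) η B).2.2, hSG, hGc]
    apply mul_le_mul_of_nonneg_left _ hφ0.le
    exact sum_le_sum_of_subset_of_nonneg (filter_subset _ _) fun _ _ _ => sq_nonneg _
  have t1 : ∑ u ∈ U, ‖∑ l, Fc l * (Gc u (a - l) - Gb u (a - l))‖ ^ 2 ≤ SF * (Yr * E) := by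
    have e1 : ∀ u ∈ U, ‖∑ l, Fc l * (Gc u (a - l) - Gb u (a - l))‖ ^ 2 ≤ SF * ∑ l, ‖Gc u l - Gb u l‖ ^ 2 := by
      intro u _
      have := Pool.Agent.Y378.GJ.cauchy Fc (fun l => Gc u l - Gb u l) a
      rw [← hSF] at this
      exact this
    refine (sum_le_sum e1).trans ?_
    rw [← mul_sum]
    exact mul_le_mul_of_nonneg_left hGg hSF0
  have t2 : ∀ u, ‖∑ l, Fc l * Gb u (a - l)‖ ^ 2 ≤ SG u * E := by
    intro u
    have e1 : ∑ l, Fc l * Gb u (a - l) = (q.totient : ℂ)⁻¹ * ∑ χ ∈ BF, cs q N (G u) η χ *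
        ∑ l, Fc l * χ⁻¹ (a - l) := by
      rw [hGb]
      unfold clB
      have e2 : ∀ l : ZMod q, Fc l * ((q.totient : ℂ)⁻¹ * ∑ χ ∈ BF, χ⁻¹ (a - l) * cs q N (G u) η χ) =
          ∑ χ ∈ BF, (q.totient : ℂ)⁻¹ * (cs q N (G u) η χ * (Fc l * χ⁻¹ (a - l))) := by
        intro l
        rw [mul_sum, mul_sum]
        refine sum_congr rfl fun χ _ => ?_
        ring
      rw [sum_congr rfl fun l _ => e2 l, sum_comm, mul_sum]
      refine sum_congr rfl fun χ _ => ?_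
      rw [← mul_sum, ← mul_sum]
    have e3 : ‖∑ χ ∈ BF, cs q N (G u) η χ * ∑ l, Fc l * χ⁻¹ (a - l)‖ ≤
        (BF.card : ℝ) * (Real.sqrt (q.totient * SG u) * (Q / L ^ B₂)) := by
      apply sum_norm_le
      intro χ hχ
      rw [norm_mul]
      rw [hBF, mem_filter] at hχ
      refine mul_le_mul (Real.le_sqrt_of_sq_le (hcs u χ)) ?_ (norm_nonneg _) (Real.sqrt_nonneg _)
      rw [hFc]
      apply hsh
      rw [DirichletCharacter.conductor_inv]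
      exact hχ.2
    have hSGu := hSG0 u
    rw [e1, norm_mul, norm_inv, Complex.norm_natCast]
    calc ((q.totient : ℝ)⁻¹ * ‖∑ χ ∈ BF, cs q N (G u) η χ * ∑ l, Fc l * χ⁻¹ (a - l)‖) ^ 2
        ≤ ((q.totient : ℝ)⁻¹ * (L ^ C₃ * (Real.sqrt (q.totient * SG u) * (Q / L ^ B₂)))) ^ 2 := by
          have : (BF.card : ℝ) * (Real.sqrt (q.totient * SG u) * (Q / L ^ B₂)) ≤
              L ^ C₃ * (Real.sqrt (q.totient * SG u) * (Q / L ^ B₂)) := by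
            apply mul_le_mul_of_nonneg_right hBFc
            positivity
          have h4 := e3.trans this
          gcongr
      _ = (q.totient : ℝ)⁻¹ * (L ^ (2 * C₃) * (SG u * (Q ^ 2 / L ^ (2 * B₂)))) := by
          have h5 : Real.sqrt (q.totient * SG u) ^ 2 = q.totient * SG u := Real.sq_sqrt (by positivity)
          rw [mul_pow, mul_pow, mul_pow, h5, div_pow, ← pow_mul, ← pow_mul, mul_comm C₃ 2, mul_comm B₂ 2]
          field_simp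
      _ ≤ (3 * L / q) * (L ^ (2 * C₃) * (SG u * (Q ^ 2 / L ^ (2 * B₂)))) := by
          apply mul_le_mul_of_nonneg_right hφ
          positivity
      _ = SG u * (Q ^ 2 / q * (3 * L ^ (2 * C₃ + 1) / L ^ (2 * B₂))) := by
          rw [pow_succ]
          field_simp
          try ring
      _ ≤ SG u * (Q ^ 2 / q * (1 / L ^ (A + 1))) := by
          have e1 : 3 * L ^ (2 * C₃ + 1) / L ^ (2 * B₂) ≤ 1 / L ^ (A + 1) := by
            rw [div_le_div_iff₀ (by positivity) (by positivity), one_mul]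
            calc 3 * L ^ (2 * C₃ + 1) * L ^ (A + 1) ≤ L * L ^ (2 * C₃ + 1) * L ^ (A + 1) := by
                  gcongr; linarith
              _ = L ^ (2 * C₃ + A + 3) := by ring
              _ ≤ L ^ (2 * B₂) := pow_le_pow_right₀ hL1 hB₂
          gcongr
      _ = SG u * E := by
          rw [hE]
          field_simp
  have hsum : ∀ u ∈ U, ‖∑ l : ZMod q, Fc l * Gc u (a - l)‖ ^ 2 ≤
      2 * ‖∑ l, Fc l * (Gc u (a - l) - Gb u (a - l))‖ ^ 2 + 2 * ‖∑ l, Fc l * Gb u (a - l)‖ ^ 2 := by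
    intro u _
    have e1 : ∑ l : ZMod q, Fc l * Gc u (a - l) =
        (∑ l, Fc l * (Gc u (a - l) - Gb u (a - l))) + ∑ l, Fc l * Gb u (a - l) := by
      rw [← sum_add_distrib]
      refine sum_congr rfl fun l _ => ?_
      ring
    rw [e1]
    have k1 := norm_add_le (∑ l, Fc l * (Gc u (a - l) - Gb u (a - l))) (∑ l, Fc l * Gb u (a - l))
    have k2 := pow_le_pow_left₀ (norm_nonneg _) k1 2
    nlinarith [sq_nonneg (‖∑ l, Fc l * (Gc u (a - l) - Gb u (a - l))‖ - ‖∑ l, Fc l * Gb u (a - l)‖)]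
  have e5 : ∑ u ∈ U, ‖∑ l : ZMod q, cl q N F η l * cl q N (G u) η (a - l)‖ ^ 2 =
      ∑ u ∈ U, ‖∑ l : ZMod q, Fc l * Gc u (a - l)‖ ^ 2 := by rw [hFc, hGc]
  have e6 : ∑ u ∈ U, ∑ l : ZMod q, ‖cl q N (G u) η l‖ ^ 2 = ∑ u ∈ U, SG u := by rw [hSG, hGc]
  have e7 : ∑ l : ZMod q, ‖cl q N F η l‖ ^ 2 = SF := by rw [hSF, hFc]
  rw [e5, e6, e7]
  refine (sum_le_sum hsum).trans ?_
  rw [sum_add_distrib, ← mul_sum, ← mul_sum]
  have e4 : (Q : ℝ) ^ 2 / (q * L ^ A) = L * E := by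
    rw [hE, pow_succ L A]
    field_simp
  rw [e4]
  have t3 : ∑ u ∈ U, ‖∑ l, Fc l * Gb u (a - l)‖ ^ 2 ≤ (∑ u ∈ U, SG u) * E := by
    rw [sum_mul]
    exact sum_le_sum fun u _ => t2 u
  have hSGs : 0 ≤ ∑ u ∈ U, SG u := sum_nonneg fun u _ => hSG0 u
  calc 2 * ∑ u ∈ U, ‖∑ l, Fc l * (Gc u (a - l) - Gb u (a - l))‖ ^ 2 + 2 * ∑ u ∈ U, ‖∑ l, Fc l * Gb u (a - l)‖ ^ 2
      ≤ 2 * (SF * (Yr * E)) + 2 * ((∑ u ∈ U, SG u) * E) := by linarith
    _ = 2 * (E * (Yr * SF + ∑ u ∈ U, SG u)) := by ring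
    _ ≤ L * (E * (Yr * SF + ∑ u ∈ U, SG u)) := by
        apply mul_le_mul_of_nonneg_right (by linarith)
        positivity
    _ = L * E * (Yr * SF + ∑ u ∈ U, SG u) := by ring

end Pool.Agent.H567.HW
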