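import Pool.Agent.H567.HW.CPt

/-!
Project HW (helper567), part 16: the mean square in a residue class; the first function is supported in a short
interval.
-/

set_option autoImplicit false

namespace Pool.Agent.H567.HW

open Finset
open Pool.Agent.Y883.GJ
open Pool.Agent.R460.GS (tr cl_tr cs_tr norm_tr_le)
open Pool.Agent.H807R2.Dav (ee)
open Pool.Agent.Y614.GJ.Core (P P_nonneg S_le P_le q_le_phi card_above gcd_above dirich ev_log)

/-- the part of a function in a window -/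
noncomputable def wG (u Q : ℕ) (G : ℕ → ℂ) (n : ℕ) : ℂ := if u < n ∧ n ≤ u + Q then G n else 0

lemma wG_sum {u Q N : ℕ} (h : u + Q ≤ N) (p : ℕ → Prop) [DecidablePred p] (G H : ℕ → ℂ) :
    ∑ n ∈ (Icc 1 N).filter p, wG u Q G n * H n = ∑ n ∈ (Ioc u (u + Q)).filter p, G n * H n := by
  have h1 : (Ioc u (u + Q)).filter p ⊆ (Icc 1 N).filter p := by
    apply filter_subset_filter
    intro n hn
    rw [mem_Ioc] at hn
    rw [mem_Icc]
    omega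
  rw [← sum_subset h1]
  · refine sum_congr rfl fun n hn => ?_
    rw [mem_filter, mem_Ioc] at hn
    unfold wG
    rw [if_pos hn.1]
  · intro n hn hn'
    rw [mem_filter, mem_Icc] at hn
    rw [mem_filter, mem_Ioc] at hn'
    have : ¬ (u < n ∧ n ≤ u + Q) := fun h => hn' ⟨h, hn.2⟩
    unfold wG
    rw [if_neg this, zero_mul]

lemma cl_wG {q u Q N : ℕ} (h : u + Q ≤ N) (G : ℕ → ℂ) (β : ℝ) (l : ZMod q) :
    cl q N (wG u Q G) β l = ∑ n ∈ (Ioc u (u + Q)).filter (fun n : ℕ => (n : ZMod q) = l), G n * ee (n * β) := by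
  unfold cl
  exact wG_sum h _ G _

lemma cs_wG {q u Q N : ℕ} (h : u + Q ≤ N) (G : ℕ → ℂ) (β : ℝ) (χ : DirichletCharacter ℂ q) :
    cs q N (wG u Q G) β χ = ∑ n ∈ Ioc u (u + Q), G n * χ (n : ZMod q) * ee (n * β) := by
  unfold cs
  have h := wG_sum h (fun _ => True) G (fun n => χ (n : ZMod q) * ee (n * β))
  rw [filter_true, filter_true] at h
  simp only [mul_assoc]
  exact h

/-- the convolution -/
lemma conv_wG {n N Q : ℕ} (F H : ℕ → ℂ) (hQn : Q < n) (hQN : Q ≤ N) (hn : n ≤ N) :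
    (∑ b ∈ Icc 1 N, ∑ c ∈ Icc 1 N, if b + c = n then tr Q F b * H c else 0) =
      ∑ b ∈ Icc 1 Q, F b * H (n - b) := by
  rw [← sum_subset (Icc_subset_Icc le_rfl hQN : Icc 1 Q ⊆ Icc 1 N)]
  · refine sum_congr rfl fun b hb => ?_
    rw [mem_Icc] at hb
    rw [sum_eq_single (n - b)]
    · rw [if_pos (by omega)]
      unfold tr
      rw [if_pos hb.2]
    · intro c _ hc
      rw [if_neg (by omega)]
    · intro h
      exact absurd (mem_Icc.2 ⟨by omega, by omega⟩) h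
  · intro b _ hb'
    rw [mem_Icc] at hb'
    refine sum_eq_zero fun c _ => ?_
    split_ifs
    · unfold tr
      rw [if_neg, zero_mul]
      intro h
      apply hb'
      constructor
      · have := (mem_Icc.1 ‹b ∈ Icc 1 N›).1
        exact this
      · exact h
    · rfl

/-- the average over the windows -/
lemma conv_avg {n Y Q : ℕ} (F G : ℕ → ℂ) (hQ : 1 ≤ Q) (h1 : Y + 2 * Q ≤ n) (h2 : n ≤ 2 * Y) :
    (Q : ℝ) ^ 2 * ‖∑ b ∈ Icc 1 Q, F b * G (n - b)‖ ^ 2 ≤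
      2 * Q * ∑ u ∈ Ico Y (2 * Y), ‖∑ b ∈ Icc 1 Q, F b * wG u Q G (n - b)‖ ^ 2 := by
  have e1 : ∀ b ∈ Icc 1 Q, ∑ u ∈ Ico Y (2 * Y), wG u Q G (n - b) = Q * G (n - b) := by
    intro b hb
    rw [mem_Icc] at hb
    unfold wG
    rw [← sum_filter, sum_const, nsmul_eq_mul]
    have : (Ico Y (2 * Y)).filter (fun u => u < n - b ∧ n - b ≤ u + Q) = Ico (n - b - Q) (n - b) := by
      ext u
      rw [mem_filter, mem_Ico, mem_Ico]
      omega
    rw [this, Nat.card_Ico]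
    congr 2
    omega
  have e2 : (Q : ℂ) * ∑ b ∈ Icc 1 Q, F b * G (n - b) =
      ∑ u ∈ (Ico (n - 2 * Q) n), ∑ b ∈ Icc 1 Q, F b * wG u Q G (n - b) := by
    have e3 : ∑ u ∈ (Ico (n - 2 * Q) n), ∑ b ∈ Icc 1 Q, F b * wG u Q G (n - b) =
        ∑ u ∈ Ico Y (2 * Y), ∑ b ∈ Icc 1 Q, F b * wG u Q G (n - b) := by
      apply sum_subset
      · intro u hu
        rw [mem_Ico] at hu ⊢
        omega
      · intro u _ hu'
        rw [mem_Ico] at hu'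
        refine sum_eq_zero fun b hb => ?_
        rw [mem_Icc] at hb
        unfold wG
        rw [if_neg (by omega), mul_zero]
    rw [e3, sum_comm, mul_sum]
    refine sum_congr rfl fun b hb => ?_
    rw [← mul_sum, e1 b hb]
    ring
  have e4 : (Q : ℝ) ^ 2 * ‖∑ b ∈ Icc 1 Q, F b * G (n - b)‖ ^ 2 =
      ‖∑ u ∈ (Ico (n - 2 * Q) n), ∑ b ∈ Icc 1 Q, F b * wG u Q G (n - b)‖ ^ 2 := by
    rw [← e2, norm_mul, Complex.norm_natCast, mul_pow]
  rw [e4]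
  have e5 : ‖∑ u ∈ (Ico (n - 2 * Q) n), ∑ b ∈ Icc 1 Q, F b * wG u Q G (n - b)‖ ^ 2 ≤
      ((Ico (n - 2 * Q) n).card : ℝ) * ∑ u ∈ (Ico (n - 2 * Q) n), ‖∑ b ∈ Icc 1 Q, F b * wG u Q G (n - b)‖ ^ 2 :=
    (pow_le_pow_left₀ (norm_nonneg _) (norm_sum_le _ _) 2).trans sq_sum_le_card_mul_sum_sq
  refine e5.trans ?_
  have e6 : ((Ico (n - 2 * Q) n).card : ℝ) = 2 * Q := by
    rw [Nat.card_Ico]
    have : n - (n - 2 * Q) = 2 * Q := by omega
    rw [this]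
    push_cast
    ring
  rw [e6]
  apply mul_le_mul_of_nonneg_left _ (by positivity)
  apply sum_le_sum_of_subset_of_nonneg
  · intro u hu
    rw [mem_Ico] at hu ⊢
    omega
  · intro u _ _
    positivity

open Classical in
theorem coreW (h3 : LiftStm) (h4 : ParsStm) (h5 : OrthStm) (F G : ℕ → ℂ) {A C T C₃ K : ℕ} {L : ℝ}
    {Y N Q q : ℕ} [NeZero q] {a : ZMod q} (hN : N = 3 * Y) (hQ : 1 ≤ Q) (hQY : Q ≤ Y)
    (hL : L = Real.log Q) (hL200 : 200 ≤ L) (hqLC : (q : ℝ) * L ^ C ≤ Q)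
    (hgcd : (Nat.gcd a.val q : ℝ) ≤ L ^ T)
    (hF : ∑ n ∈ Icc 1 Q, ‖F n‖ ^ 2 ≤ Q * L ^ 8) (hG : ∀ n, n ≤ N → ‖G n‖ ≤ L ^ 2)
    (hmin : ∀ (k : ℕ) (h : ℤ) (β : ℝ), L ^ C ≤ k → (q : ℝ) * k * L ^ C ≤ Q →
      IsCoprime h (k : ℤ) → |q * β - h / k| ≤ 1 / (k : ℝ) ^ 2 →
      ∑ χ : DirichletCharacter ℂ q, ‖cs q Q F β χ‖ ^ 2 ≤ (Q : ℝ) ^ 2 / L ^ (A + 11))
    (hnonF : ∀ β : ℝ, ∑ l ∈ univ.filter (fun l : ZMod q => ¬ IsUnit l),
      ‖cl q Q F β l‖ ^ 2 ≤ (Q : ℝ) ^ 2 / (q * L ^ (A + 9)) / 2)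
    (hB : ∀ (q' : ℕ) [NeZero q'], (q' : ℝ) ≤ q * L ^ C →
      ∃ B : Finset (DirichletCharacter ℂ q'), (B.card : ℝ) ≤ L ^ C₃ ∧
      ∀ η : ℝ, |η| ≤ L ^ C / Q → ∀ S : Finset (DirichletCharacter ℂ q'), Disjoint S B →
      ∑ u ∈ Ico Y (2 * Y), ∑ χ ∈ S, ‖∑ n ∈ Ioc u (u + Q), G n * χ (n : ZMod q') * ee (n * η)‖ ^ 2 ≤
        Y * ((Q : ℝ) ^ 2 / L ^ (A + 2 * C + 9 + 4)))
    (hnonG : ∀ (q' : ℕ) [NeZero q'], (q' : ℝ) ≤ q * L ^ C → ∀ η : ℝ,
      ∑ u ∈ Ico Y (2 * Y), ∑ l ∈ univ.filter (fun l : ZMod q' => ¬ IsUnit l),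
        ‖∑ n ∈ (Ioc u (u + Q)).filter (fun n : ℕ => (n : ZMod q') = l), G n * ee (n * η)‖ ^ 2 ≤
        Y * ((Q : ℝ) ^ 2 / (q' * L ^ (A + 2 * C + 9 + 2))))
    (hsm : ∀ (q' : ℕ) [NeZero q'], (q' : ℝ) ≤ q * L ^ C →
      ∀ χ : DirichletCharacter ℂ q', (χ.conductor : ℝ) ≤ L ^ K → ∀ η : ℝ, |η| ≤ L ^ C / Q →
      ∑ u ∈ Ico Y (2 * Y), ‖∑ n ∈ Ioc u (u + Q), G n * χ (n : ZMod q') * ee (n * η)‖ ^ 2 ≤
        Y * ((Q : ℝ) / L ^ (C₃ + (A + 2 * C + 9) + 4)) ^ 2)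
    (hsh : ∀ (q' : ℕ) [NeZero q'], (q' : ℝ) ≤ q * L ^ C →
      ∀ χ : DirichletCharacter ℂ q', L ^ K < χ.conductor → ∀ a' : ZMod q',
      (Nat.gcd a'.val q' : ℝ) ≤ L ^ (T + C) → ∀ η : ℝ, |η| ≤ L ^ C / Q →
      ‖∑ l : ZMod q', cl q' Q F η l * χ (a' - l)‖ ≤ Q / L ^ (2 * C₃ + (A + 2 * C + 9) + 3)) :
    ∑ n ∈ (Icc (Y + 2 * Q) (2 * Y)).filter (fun n : ℕ => (n : ZMod q) = a),
      ‖∑ b ∈ Icc 1 Q, F b * G (n - b)‖ ^ 2 ≤ Y * (Q : ℝ) ^ 2 / (q * L ^ A) := by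
  have hL8 : 8 ≤ L := by linarith
  have hL0 : 0 < L := by linarith
  have hL1 : 1 ≤ L := by linarith
  have hQ0 : (0 : ℝ) < Q := by exact_mod_cast hQ
  have hq0 : (0 : ℝ) < q := by exact_mod_cast NeZero.pos q
  have hLC1 : 1 ≤ L ^ C := one_le_pow₀ hL1
  have hqQ : (q : ℝ) ≤ Q := by
    refine le_trans ?_ hqLC
    nlinarith
  have hQN : Q ≤ N := by omega
  have hN1 : 1 ≤ N := by omega
  have huN : ∀ u ∈ Ico Y (2 * Y), u + Q ≤ N := by
    intro u hu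
    rw [mem_Ico] at hu
    omega
  -- the estimate for one frequency
  have hpt := pointW (a := a) h3 h5 (tr Q F) (fun u => wG u Q G) (Ico Y (2 * Y)) (A := A) (C := C) (T := T)
    (Yr := (Y : ℝ)) (N := N) hL hL8 hQ hqQ hqLC (by positivity) hgcd
    (fun k h β hk1 hk2 hk3 hk4 => by
      simp only [cs_tr hQN]
      exact hmin k h β hk1 hk2 hk3 hk4)
    (fun β => by
      simp only [cl_tr hQN]
      exact hnonF β)
    (fun j hj a' ha' η hη => by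
      have hq' : (((j + 1) * q : ℕ) : ℝ) ≤ q * L ^ C := by
        rw [Nat.cast_mul]
        calc ((j + 1 : ℕ) : ℝ) * q ≤ L ^ C * q := by gcongr
          _ = q * L ^ C := mul_comm _ _
      have hq'N : (((j + 1) * q : ℕ) : ℝ) ≤ Q := hq'.trans hqLC
      obtain ⟨B, hBc, hB'⟩ := hB ((j + 1) * q) hq'
      apply pwW h5 (Ico Y (2 * Y)) (tr Q F) (fun u => wG u Q G) (A := A + 2 * C + 9) (C₃ := C₃) (K := K)
        (B₂ := 2 * C₃ + (A + 2 * C + 9) + 3) (U₁ := C₃ + (A + 2 * C + 9) + 4) (by positivity) hL hL200 hQ hq'N B hBc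
      · intro S hS
        refine le_trans (le_of_eq ?_) (hB' η hη S hS)
        refine sum_congr rfl fun u hu => ?_
        simp only [cs_wG (huN u hu)]
      · refine le_trans (le_of_eq ?_) (hnonG ((j + 1) * q) hq' η)
        refine sum_congr rfl fun u hu => ?_
        simp only [cl_wG (huN u hu)]
      · intro χ hχ
        refine le_trans (le_of_eq ?_) (hsm ((j + 1) * q) hq' χ hχ η hη)
        refine sum_congr rfl fun u hu => ?_
        simp only [cs_wG (huN u hu)]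
      · omega
      · intro χ hχ
        simp only [cl_tr hQN]
        exact hsh ((j + 1) * q) hq' χ hχ a' ha' η hη
      · omega)
  -- Parseval
  obtain ⟨D, hD⟩ : ∃ D : ℝ, D = ((2 * N + 1 : ℕ) : ℝ) := ⟨_, rfl⟩
  have hD0 : 0 < D := by rw [hD]; positivity
  have hsumP : ∀ (q' : ℕ) [NeZero q'] (F : ℕ → ℂ),
      ∑ t ∈ range (2 * N + 1), P q' N F ((t : ℝ) / D) = D * ∑ n ∈ Icc 1 N, ‖F n‖ ^ 2 := by
    intro q' _ F
    rw [hD]
    exact (h4 q' N F F hN1).2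
  obtain ⟨WL, hWL⟩ : ∃ WL, WL = ∑ n ∈ Icc 1 N, ‖tr Q F n‖ ^ 2 := ⟨_, rfl⟩
  obtain ⟨WF, hWF⟩ : ∃ WF, WF = ∑ u ∈ Ico Y (2 * Y), ∑ n ∈ Icc 1 N, ‖wG u Q G n‖ ^ 2 := ⟨_, rfl⟩
  have hWL0 : 0 ≤ WL := by rw [hWL]; exact sum_nonneg fun _ _ => by positivity
  have hWF0 : 0 ≤ WF := by rw [hWF]; exact sum_nonneg fun _ _ => sum_nonneg fun _ _ => by positivity
  have w1 : WL ≤ Q * L ^ 8 := by
    refine le_trans (le_of_eq ?_) hF
    rw [hWL, ← sum_subset (Icc_subset_Icc le_rfl hQN : Icc 1 Q ⊆ Icc 1 N)]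
    · refine sum_congr rfl fun n hn => ?_
      rw [mem_Icc] at hn
      unfold tr
      rw [if_pos hn.2]
    · intro n hn hn'
      rw [mem_Icc] at hn hn'
      unfold tr
      rw [if_neg (fun h => hn' ⟨hn.1, h⟩), norm_zero]
      norm_num
  have w2 : WF ≤ Y * (Q * L ^ 8) := by
    rw [hWF]
    have e1 : ∀ u ∈ Ico Y (2 * Y), ∑ n ∈ Icc 1 N, ‖wG u Q G n‖ ^ 2 ≤ Q * L ^ 8 := by
      intro u hu
      have e2 : ∑ n ∈ Icc 1 N, ‖wG u Q G n‖ ^ 2 = ∑ n ∈ Ioc u (u + Q), ‖wG u Q G n‖ ^ 2 := by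
        symm
        apply sum_subset
        · intro n hn
          have := huN u hu
          rw [mem_Ioc] at hn
          rw [mem_Icc]
          omega
        · intro n _ hn
          rw [mem_Ioc] at hn
          unfold wG
          rw [if_neg hn, norm_zero]
          norm_num
      rw [e2]
      calc ∑ n ∈ Ioc u (u + Q), ‖wG u Q G n‖ ^ 2 ≤ ∑ n ∈ Ioc u (u + Q), (L ^ 2) ^ 2 := by
            refine sum_le_sum fun n hn => ?_
            have h1 := huN u hu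
            rw [mem_Ioc] at hn
            unfold wG
            rw [if_pos hn]
            exact pow_le_pow_left₀ (norm_nonneg _) (hG n (by omega)) 2
        _ = Q * L ^ 4 := by
            rw [sum_const, Nat.card_Ioc, nsmul_eq_mul]
            have : u + Q - u = Q := by omega
            rw [this]
            ring
        _ ≤ Q * L ^ 8 := by
            have := pow_le_pow_right₀ hL1 (show 4 ≤ 8 by norm_num)
            gcongr
    refine (sum_le_sum e1).trans ?_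
    rw [sum_const, Nat.card_Ico, nsmul_eq_mul]
    have : 2 * Y - Y = Y := by omega
    rw [this]
  obtain ⟨c1, hc1⟩ : ∃ c1, c1 = (Q : ℝ) ^ 2 / (q * L ^ (A + 9)) := ⟨_, rfl⟩
  obtain ⟨c2, hc2⟩ : ∃ c2, c2 = L ^ C * ((Q : ℝ) ^ 2 / (q * L ^ (A + 2 * C + 9))) := ⟨_, rfl⟩
  have hc10 : 0 ≤ c1 := by rw [hc1]; positivity
  have hc20 : 0 ≤ c2 := by rw [hc2]; positivity
  rw [← hc1, ← hc2] at hpt
  have hK : ((⌊L ^ C⌋₊ : ℕ) : ℝ) ≤ L ^ C := Nat.floor_le (by positivity)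
  have hWu : ∀ (q' : ℕ) [NeZero q'], ∑ t ∈ range (2 * N + 1), ∑ u ∈ Ico Y (2 * Y), P q' N (wG u Q G) ((t : ℝ) / D) =
      D * WF := by
    intro q' _
    rw [sum_comm, hWF, mul_sum]
    exact sum_congr rfl fun u _ => hsumP q' _
  have step : ∑ t ∈ range (2 * N + 1), ∑ u ∈ Ico Y (2 * Y), ‖∑ l : ZMod q, cl q N (tr Q F) ((t : ℝ) / D) l *
      cl q N (wG u Q G) ((t : ℝ) / D) (a - l)‖ ^ 2 ≤ D * (c1 * (Y * (Q * L ^ 8)) +
        c2 * (L ^ C * (2 * (Y * (Q * L ^ 8))))) := by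
    calc ∑ t ∈ range (2 * N + 1), ∑ u ∈ Ico Y (2 * Y), ‖∑ l : ZMod q, cl q N (tr Q F) ((t : ℝ) / D) l *
        cl q N (wG u Q G) ((t : ℝ) / D) (a - l)‖ ^ 2
        ≤ ∑ t ∈ range (2 * N + 1), (c1 * ∑ u ∈ Ico Y (2 * Y), P q N (wG u Q G) ((t : ℝ) / D) +
          c2 * ∑ j ∈ range ⌊L ^ C⌋₊, (Y * P ((j + 1) * q) N (tr Q F) ((t : ℝ) / D) +
            ∑ u ∈ Ico Y (2 * Y), P ((j + 1) * q) N (wG u Q G) ((t : ℝ) / D))) :=
          sum_le_sum fun t _ => hpt _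
      _ = c1 * (D * WF) + c2 * ∑ j ∈ range ⌊L ^ C⌋₊, (Y * (D * WL) + D * WF) := by
          rw [sum_add_distrib, ← mul_sum, ← mul_sum, hWu q, sum_comm]
          congr 2
          refine sum_congr rfl fun j _ => ?_
          rw [sum_add_distrib, ← mul_sum, hsumP ((j + 1) * q) (tr Q F), hWu ((j + 1) * q), hWL]
      _ = D * (c1 * WF + c2 * ((⌊L ^ C⌋₊ : ℕ) * (Y * WL + WF))) := by
          rw [sum_const, card_range, nsmul_eq_mul]
          ring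
      _ ≤ D * (c1 * (Y * (Q * L ^ 8)) + c2 * (L ^ C * (2 * (Y * (Q * L ^ 8))))) := by
          have h0 : 0 ≤ (Y : ℝ) * WL + WF := by positivity
          have h1 : (Y : ℝ) * WL + WF ≤ 2 * (Y * (Q * L ^ 8)) := by
            have : (Y : ℝ) * WL ≤ Y * (Q * L ^ 8) := by gcongr
            linarith
          gcongr
  have main : ∀ u ∈ Ico Y (2 * Y), D * ∑ n ∈ (Icc 1 (2 * N)).filter (fun n : ℕ => (n : ZMod q) = a),
      ‖∑ b ∈ Icc 1 N, ∑ c ∈ Icc 1 N, if b + c = n then tr Q F b * wG u Q G c else 0‖ ^ 2 =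
      ∑ t ∈ range (2 * N + 1), ‖∑ l : ZMod q, cl q N (tr Q F) ((t : ℝ) / D) l *
        cl q N (wG u Q G) ((t : ℝ) / D) (a - l)‖ ^ 2 := by
    intro u _
    rw [hD]
    exact (h4 q N (tr Q F) (wG u Q G) hN1).1 a
  have h9 : D * ∑ u ∈ Ico Y (2 * Y), ∑ n ∈ (Icc 1 (2 * N)).filter (fun n : ℕ => (n : ZMod q) = a),
      ‖∑ b ∈ Icc 1 N, ∑ c ∈ Icc 1 N, if b + c = n then tr Q F b * wG u Q G c else 0‖ ^ 2 ≤
        D * (c1 * (Y * (Q * L ^ 8)) + c2 * (L ^ C * (2 * (Y * (Q * L ^ 8))))) := by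
    rw [mul_sum, sum_congr rfl main, sum_comm]
    exact step
  have h10 := le_of_mul_le_mul_left h9 hD0
  have h11 : (Q : ℝ) ^ 2 * ∑ n ∈ (Icc (Y + 2 * Q) (2 * Y)).filter (fun n : ℕ => (n : ZMod q) = a),
      ‖∑ b ∈ Icc 1 Q, F b * G (n - b)‖ ^ 2 ≤ 2 * Q * ∑ u ∈ Ico Y (2 * Y),
      ∑ n ∈ (Icc 1 (2 * N)).filter (fun n : ℕ => (n : ZMod q) = a),
      ‖∑ b ∈ Icc 1 N, ∑ c ∈ Icc 1 N, if b + c = n then tr Q F b * wG u Q G c else 0‖ ^ 2 := by
    calc (Q : ℝ) ^ 2 * ∑ n ∈ (Icc (Y + 2 * Q) (2 * Y)).filter (fun n : ℕ => (n : ZMod q) = a),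
          ‖∑ b ∈ Icc 1 Q, F b * G (n - b)‖ ^ 2
        ≤ ∑ n ∈ (Icc (Y + 2 * Q) (2 * Y)).filter (fun n : ℕ => (n : ZMod q) = a),
          2 * Q * ∑ u ∈ Ico Y (2 * Y), ‖∑ b ∈ Icc 1 Q, F b * wG u Q G (n - b)‖ ^ 2 := by
          rw [mul_sum]
          refine sum_le_sum fun n hn => ?_
          rw [mem_filter, mem_Icc] at hn
          exact conv_avg F G hQ hn.1.1 hn.1.2
      _ = 2 * Q * ∑ u ∈ Ico Y (2 * Y), ∑ n ∈ (Icc (Y + 2 * Q) (2 * Y)).filter (fun n : ℕ => (n : ZMod q) = a),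
          ‖∑ b ∈ Icc 1 Q, F b * wG u Q G (n - b)‖ ^ 2 := by
          rw [← mul_sum, sum_comm]
      _ ≤ _ := by
          apply mul_le_mul_of_nonneg_left _ (by positivity)
          refine sum_le_sum fun u hu => ?_
          calc ∑ n ∈ (Icc (Y + 2 * Q) (2 * Y)).filter (fun n : ℕ => (n : ZMod q) = a),
                ‖∑ b ∈ Icc 1 Q, F b * wG u Q G (n - b)‖ ^ 2
              = ∑ n ∈ (Icc (Y + 2 * Q) (2 * Y)).filter (fun n : ℕ => (n : ZMod q) = a),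
                ‖∑ b ∈ Icc 1 N, ∑ c ∈ Icc 1 N, if b + c = n then tr Q F b * wG u Q G c else 0‖ ^ 2 := by
                refine sum_congr rfl fun n hn => ?_
                rw [mem_filter, mem_Icc] at hn
                rw [conv_wG F (wG u Q G) (by omega) hQN (by omega)]
            _ ≤ _ := by
                apply sum_le_sum_of_subset_of_nonneg
                · apply filter_subset_filter
                  intro n hn
                  rw [mem_Icc] at hn ⊢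
                  omega
                · intro n _ _
                  positivity
  have h12 := h11.trans (mul_le_mul_of_nonneg_left h10 (by positivity))
  have e1 : c1 * (Y * (Q * L ^ 8)) = Y * (Q : ℝ) ^ 3 / (q * L ^ A) * (1 / L) := by
    rw [hc1, show A + 9 = A + 8 + 1 by ring, pow_succ, pow_add]
    field_simp
    try ring
  have e2 : c2 * (L ^ C * (2 * (Y * (Q * L ^ 8)))) = Y * (Q : ℝ) ^ 3 / (q * L ^ A) * (2 / L) := by
    rw [hc2, show A + 2 * C + 9 = A + C + C + 8 + 1 by ring, pow_succ, pow_add, pow_add, pow_add]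
    field_simp
    try ring
  rw [e1, e2, ← mul_add] at h12
  have e3 : 2 * (1 / L + 2 / L) ≤ 1 := by
    rw [← add_div, ← mul_div_assoc, div_le_one hL0]
    linarith
  have h13 : 2 * Q * (Y * (Q : ℝ) ^ 3 / (q * L ^ A) * (1 / L + 2 / L)) =
      (Q : ℝ) ^ 2 * (Y * (Q : ℝ) ^ 2 / (q * L ^ A) * (2 * (1 / L + 2 / L))) := by
    ring
  rw [h13] at h12
  have h14 := le_of_mul_le_mul_left h12 (by positivity)
  refine h14.trans ?_
  calc Y * (Q : ℝ) ^ 2 / (q * L ^ A) * (2 * (1 / L + 2 / L)) ≤ Y * (Q : ℝ) ^ 2 / (q * L ^ A) * 1 := by gcongr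
    _ = _ := mul_one _

end Pool.Agent.H567.HW
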