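import Pool.Agent.H567.HW.AllG

/-!
Project HW (helper567), part 28: the counting form.
-/

set_option autoImplicit false

namespace Pool.Agent.H567.HW

open Finset
open Pool.Agent.Y614.GJ.Core (ev_log)

/-- summation by parts -/
lemma abel_id (s w : ℕ → ℝ) (t : ℕ) (ht : 2 ≤ t) : ∑ b ∈ Icc 2 t, s b * w b =
    (∑ b ∈ Icc 2 t, s b) * w t - ∑ b ∈ Ico 2 t, (∑ c ∈ Icc 2 b, s c) * (w (b + 1) - w b) := by
  induction t, ht using Nat.le_induction with
  | base => simp
  | succ t ht ih =>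
    rw [Finset.sum_Icc_succ_top (by omega), Finset.sum_Icc_succ_top (by omega), ih, Finset.sum_Ico_succ_top ht]
    ring

/-- summation by parts with the total variation -/
lemma abel_tv (s w : ℕ → ℝ) {D V : ℝ} {P : ℕ} (hP : 2 ≤ P) (hD : ∀ t : ℕ, 2 ≤ t → t ≤ P → |∑ b ∈ Icc 2 t, s b| ≤ D)
    (hV : |w P| + ∑ b ∈ Ico 2 P, |w (b + 1) - w b| ≤ V) : |∑ b ∈ Icc 2 P, s b * w b| ≤ D * V := by
  have hD0 : 0 ≤ D := (abs_nonneg _).trans (hD P hP le_rfl)
  rw [abel_id s w P hP]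
  refine (abs_sub _ _).trans ?_
  have h1 : |∑ b ∈ Ico 2 P, (∑ c ∈ Icc 2 b, s c) * (w (b + 1) - w b)| ≤ ∑ b ∈ Ico 2 P, D * |w (b + 1) - w b| := by
    refine (abs_sum_le_sum_abs _ _).trans (sum_le_sum fun b hb => ?_)
    rw [mem_Ico] at hb
    rw [abs_mul]
    exact mul_le_mul_of_nonneg_right (hD b hb.1 hb.2.le) (abs_nonneg _)
  rw [← mul_sum] at h1
  have h2 : |(∑ b ∈ Icc 2 P, s b) * w P| ≤ D * |w P| := by
    rw [abs_mul]
    exact mul_le_mul_of_nonneg_right (hD P hP le_rfl) (abs_nonneg _)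
  have h3 := mul_le_mul_of_nonneg_left hV hD0
  linarith

/-- the weight -/
noncomputable def wt (n b : ℕ) : ℝ := 1 / (Real.log b * Real.log ((n - b : ℕ) : ℝ))

lemma inv_log_two : 1 / Real.log 2 ≤ 2 := by
  have := Real.log_two_gt_d9
  rw [div_le_iff₀ (by linarith)]
  linarith

/-- the total variation of the weight -/
lemma wt_tv {n P : ℕ} (hP : 2 ≤ P) (hPn : 2 * P ≤ n) : |wt n P| + ∑ b ∈ Ico 2 P, |wt n (b + 1) - wt n b| ≤ 12 := by
  obtain ⟨f, hf⟩ : ∃ f : ℕ → ℝ, f = fun (b : ℕ) => 1 / Real.log (b : ℝ) := ⟨_, rfl⟩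
  obtain ⟨g, hg⟩ : ∃ g : ℕ → ℝ, g = fun b => 1 / Real.log ((n - b : ℕ) : ℝ) := ⟨_, rfl⟩
  have hw : ∀ b, wt n b = f b * g b := by
    intro b
    rw [hf, hg]
    unfold wt
    simp only
    rw [one_div_mul_one_div]
  have hl2 := Real.log_two_gt_d9
  have hinv := inv_log_two
  have hf0 : ∀ b, 2 ≤ b → 0 ≤ f b ∧ f b ≤ 2 := by
    intro b hb
    rw [hf]
    simp only
    have h1 : Real.log 2 ≤ Real.log b := Real.log_le_log (by norm_num) (by exact_mod_cast hb)
    refine ⟨by positivity, le_trans ?_ hinv⟩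
    exact one_div_le_one_div_of_le (by linarith) h1
  have hg0 : ∀ b, b ≤ P → 0 ≤ g b ∧ g b ≤ 2 := by
    intro b hb
    rw [hg]
    simp only
    have h1 : Real.log 2 ≤ Real.log ((n - b : ℕ) : ℝ) := Real.log_le_log (by norm_num) (by
      have : 2 ≤ n - b := by omega
      exact_mod_cast this)
    refine ⟨by positivity, le_trans ?_ hinv⟩
    exact one_div_le_one_div_of_le (by linarith) h1
  have hfm : ∀ b, 2 ≤ b → f (b + 1) ≤ f b := by
    intro b hb
    rw [hf]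
    simp only
    have h1 : Real.log 2 ≤ Real.log b := Real.log_le_log (by norm_num) (by exact_mod_cast hb)
    apply one_div_le_one_div_of_le (by linarith)
    apply Real.log_le_log (by exact_mod_cast (by omega : 0 < b))
    push_cast
    linarith
  have hgm : ∀ b, b + 1 ≤ P → g b ≤ g (b + 1) := by
    intro b hb
    rw [hg]
    simp only
    have h1 : Real.log 2 ≤ Real.log ((n - (b + 1) : ℕ) : ℝ) := Real.log_le_log (by norm_num) (by
      have : 2 ≤ n - (b + 1) := by omega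
      exact_mod_cast this)
    apply one_div_le_one_div_of_le (by linarith)
    apply Real.log_le_log (by exact_mod_cast (by omega : 0 < n - (b + 1)))
    exact_mod_cast (by omega : n - (b + 1) ≤ n - b)
  have h1 : ∀ b ∈ Ico 2 P, |wt n (b + 1) - wt n b| ≤ 2 * (f b - f (b + 1)) + 2 * (g (b + 1) - g b) := by
    intro b hb
    rw [mem_Ico] at hb
    rw [hw, hw]
    have k1 := hf0 b hb.1
    have k2 := hg0 (b + 1) hb.2
    have k3 := hfm b hb.1
    have k4 := hgm b hb.2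
    have e : f (b + 1) * g (b + 1) - f b * g b = -((f b - f (b + 1)) * g (b + 1)) + f b * (g (b + 1) - g b) := by ring
    rw [e]
    refine (abs_add_le _ _).trans ?_
    rw [abs_neg, abs_of_nonneg (mul_nonneg (by linarith) k2.1), abs_of_nonneg (mul_nonneg k1.1 (by linarith))]
    apply add_le_add
    · rw [mul_comm]
      exact mul_le_mul_of_nonneg_right k2.2 (by linarith)
    · exact mul_le_mul_of_nonneg_right k1.2 (by linarith)
  have h2 : ∑ b ∈ Ico 2 P, |wt n (b + 1) - wt n b| ≤ 2 * (f 2 - f P) + 2 * (g P - g 2) := by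
    refine (sum_le_sum h1).trans ?_
    rw [sum_add_distrib, ← mul_sum, ← mul_sum]
    have e1 : ∑ b ∈ Ico 2 P, (f b - f (b + 1)) = f 2 - f P := by
      have h := Finset.sum_Ico_sub f hP
      have : ∑ b ∈ Ico 2 P, (f b - f (b + 1)) = -∑ b ∈ Ico 2 P, (f (b + 1) - f b) := by
        rw [← sum_neg_distrib]
        exact sum_congr rfl fun _ _ => by ring
      rw [this, h]
      ring
    rw [e1, Finset.sum_Ico_sub g hP]
  have k1 := hf0 2 le_rfl
  have k2 := hf0 P hP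
  have k3 := hg0 P le_rfl
  have k4 := hg0 2 hP
  have k5 : |wt n P| ≤ 4 := by
    rw [hw, abs_mul, abs_of_nonneg k2.1, abs_of_nonneg k3.1]
    nlinarith
  linarith

/-- the proper prime powers in a window -/
lemma pp_win {u W N : ℕ} (hN : u + W ≤ N) : (((Ioc u (u + W)).filter (fun m => ¬ m.Prime ∧
      ArithmeticFunction.vonMangoldt m ≠ 0)).card : ℝ) ≤
    ((Nat.sqrt (u + W) - Nat.sqrt u : ℕ) : ℝ) + (N : ℝ) ^ (1 / 3 : ℝ) * Nat.log 2 N := by
  classical
  have hsub : (Ioc u (u + W)).filter (fun m => ¬ m.Prime ∧ ArithmeticFunction.vonMangoldt m ≠ 0) ⊆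
      ((Ioc (Nat.sqrt u) (Nat.sqrt (u + W))).image (fun r => r ^ 2)) ∪
      ((Icc 1 ⌊(N : ℝ) ^ (1 / 3 : ℝ)⌋₊ ×ˢ Icc 1 (Nat.log 2 N)).image (fun x => x.1 ^ x.2)) := by
    intro m hm
    rw [mem_filter, mem_Ioc] at hm
    obtain ⟨⟨hm1, hm2⟩, hm3, hm4⟩ := hm
    rw [ArithmeticFunction.vonMangoldt_ne_zero_iff, isPrimePow_nat_iff] at hm4
    obtain ⟨p, k, hp, hk, rfl⟩ := hm4
    have hk1 : k ≠ 1 := by
      rintro rfl
      rw [pow_one] at hm3
      exact hm3 hp
    rw [mem_union]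
    rcases Nat.lt_or_ge k 3 with hk3 | hk3
    · left
      have hk2 : k = 2 := by omega
      subst hk2
      rw [mem_image]
      refine ⟨p, ?_, rfl⟩
      rw [mem_Ioc]
      constructor
      · rw [Nat.sqrt_lt']
        exact hm1
      · rw [Nat.le_sqrt']
        exact hm2
    · right
      rw [mem_image]
      refine ⟨(p, k), ?_, rfl⟩
      rw [mem_product, mem_Icc, mem_Icc]
      have hpk : p ^ k ≤ N := hm2.trans hN
      have hp3 : p ^ 3 ≤ N := (Nat.pow_le_pow_right hp.pos hk3).trans hpk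
      refine ⟨⟨hp.one_le, ?_⟩, by omega, ?_⟩
      · apply Nat.le_floor
        have h1 : ((p : ℝ) ^ 3) ≤ N := by exact_mod_cast hp3
        calc (p : ℝ) = ((p : ℝ) ^ (3 : ℕ)) ^ (1 / 3 : ℝ) := by
              rw [← Real.rpow_natCast, ← Real.rpow_mul (Nat.cast_nonneg _)]
              norm_num
          _ ≤ (N : ℝ) ^ (1 / 3 : ℝ) := Real.rpow_le_rpow (by positivity) h1 (by norm_num)
      · apply Nat.le_log_of_pow_le (by norm_num)
        exact (Nat.pow_le_pow_left hp.two_le k).trans hpk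
  have h1 : (((Ioc u (u + W)).filter (fun m => ¬ m.Prime ∧ ArithmeticFunction.vonMangoldt m ≠ 0)).card : ℝ) ≤
      ((Nat.sqrt (u + W) - Nat.sqrt u : ℕ) : ℝ) + (⌊(N : ℝ) ^ (1 / 3 : ℝ)⌋₊ * Nat.log 2 N : ℕ) := by
    have h2 : ((Ioc u (u + W)).filter (fun m => ¬ m.Prime ∧ ArithmeticFunction.vonMangoldt m ≠ 0)).card ≤
        (Nat.sqrt (u + W) - Nat.sqrt u) + ⌊(N : ℝ) ^ (1 / 3 : ℝ)⌋₊ * Nat.log 2 N := by
      refine (card_le_card hsub).trans ((card_union_le _ _).trans (Nat.add_le_add ?_ ?_))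
      · refine card_image_le.trans ?_
        rw [Nat.card_Ioc]
      · refine card_image_le.trans ?_
        rw [card_product, Nat.card_Icc, Nat.card_Icc, Nat.add_sub_cancel, Nat.add_sub_cancel]
    exact_mod_cast h2
  refine h1.trans (add_le_add le_rfl ?_)
  push_cast
  apply mul_le_mul_of_nonneg_right _ (Nat.cast_nonneg _)
  exact Nat.floor_le (by positivity)

/-- the squares in a window -/
lemma sq_win (u W : ℕ) : ((Nat.sqrt (u + W) - Nat.sqrt u : ℕ) : ℝ) ≤ (W : ℝ) / Real.sqrt (u + 1) + 1 := by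
  have hs0 : 0 < Real.sqrt (u + 1) := Real.sqrt_pos.2 (by positivity)
  have hmono : Nat.sqrt u ≤ Nat.sqrt (u + W) := Nat.sqrt_le_sqrt (by omega)
  rw [Nat.cast_sub hmono]
  have h2 : ((Nat.sqrt (u + W) : ℕ) : ℝ) ≤ Real.sqrt ((u : ℝ) + 1) + W / Real.sqrt (u + 1) := by
    apply (sq_le_sq₀ (Nat.cast_nonneg _) (by positivity)).1
    have h3 : ((Nat.sqrt (u + W) : ℕ) : ℝ) ^ 2 ≤ (u : ℝ) + W := by
      have : Nat.sqrt (u + W) ^ 2 ≤ u + W := Nat.sqrt_le' _
      exact_mod_cast this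
    have h4 : (Real.sqrt ((u : ℝ) + 1) + W / Real.sqrt (u + 1)) ^ 2 =
        Real.sqrt ((u : ℝ) + 1) ^ 2 + 2 * W + (W / Real.sqrt (u + 1)) ^ 2 := by
      field_simp
      ring
    rw [h4, Real.sq_sqrt (by positivity)]
    have h5 : 0 ≤ ((W : ℝ) / Real.sqrt (u + 1)) ^ 2 := sq_nonneg _
    have h6 : (0 : ℝ) ≤ W := Nat.cast_nonneg _
    linarith
  have h3 : Real.sqrt ((u : ℝ) + 1) ≤ (Nat.sqrt u : ℝ) + 1 := by
    apply Real.sqrt_le_iff.2
    constructor
    · positivity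
    · have : u < (Nat.sqrt u + 1) ^ 2 := Nat.lt_succ_sqrt' u
      have h4 : u + 1 ≤ (Nat.sqrt u + 1) ^ 2 := this
      exact_mod_cast h4
  linarith

/-- the number of the primes `p ≤ P` for which `n - p` is a prime -/
def pc (n P : ℕ) : ℕ := ((Icc 1 P).filter (fun p => p.Prime ∧ (n - p).Prime)).card

/-- one pair of prime powers -/
lemma pair_le {n P b : ℕ} (hb : b ∈ Icc 2 P) (hPn : 2 * P ≤ n) :
    |ArithmeticFunction.vonMangoldt b * ArithmeticFunction.vonMangoldt (n - b) * wt n b -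
      (if b.Prime ∧ (n - b).Prime then 1 else 0)| ≤
    (if ¬ b.Prime ∧ ArithmeticFunction.vonMangoldt b ≠ 0 then 1 else 0) +
    (if ¬ (n - b).Prime ∧ ArithmeticFunction.vonMangoldt (n - b) ≠ 0 then 1 else 0) := by
  rw [mem_Icc] at hb
  have hl2 := Real.log_two_gt_d9
  have h1 : 0 < Real.log b := by
    have : Real.log 2 ≤ Real.log b := Real.log_le_log (by norm_num) (by exact_mod_cast hb.1)
    linarith
  have h2 : 0 < Real.log ((n - b : ℕ) : ℝ) := by
    have : Real.log 2 ≤ Real.log ((n - b : ℕ) : ℝ) := Real.log_le_log (by norm_num) (by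
      have : 2 ≤ n - b := by omega
      exact_mod_cast this)
    linarith
  have hL1 : 0 ≤ ArithmeticFunction.vonMangoldt b := ArithmeticFunction.vonMangoldt_nonneg
  have hL2 : 0 ≤ ArithmeticFunction.vonMangoldt (n - b) := ArithmeticFunction.vonMangoldt_nonneg
  have hL3 : ArithmeticFunction.vonMangoldt b ≤ Real.log b := ArithmeticFunction.vonMangoldt_le_log
  have hL4 : ArithmeticFunction.vonMangoldt (n - b) ≤ Real.log ((n - b : ℕ) : ℝ) :=
    ArithmeticFunction.vonMangoldt_le_log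
  have h3 : 0 ≤ ArithmeticFunction.vonMangoldt b * ArithmeticFunction.vonMangoldt (n - b) * wt n b := by
    unfold wt
    positivity
  have h4 : ArithmeticFunction.vonMangoldt b * ArithmeticFunction.vonMangoldt (n - b) * wt n b ≤ 1 := by
    unfold wt
    rw [mul_one_div, div_le_one (by positivity)]
    exact mul_le_mul hL3 hL4 hL2 h1.le
  by_cases hb1 : b.Prime
  · by_cases hb2 : (n - b).Prime
    · rw [if_pos ⟨hb1, hb2⟩]
      have e1 : ArithmeticFunction.vonMangoldt b = Real.log b := ArithmeticFunction.vonMangoldt_apply_prime hb1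
      have e2 : ArithmeticFunction.vonMangoldt (n - b) = Real.log ((n - b : ℕ) : ℝ) :=
        ArithmeticFunction.vonMangoldt_apply_prime hb2
      have e3 : ArithmeticFunction.vonMangoldt b * ArithmeticFunction.vonMangoldt (n - b) * wt n b = 1 := by
        unfold wt
        rw [e1, e2, mul_one_div, div_self (by positivity)]
      rw [e3, sub_self, abs_zero]
      positivity
    · rw [if_neg (fun h => hb2 h.2), sub_zero, abs_of_nonneg h3]
      by_cases h5 : ArithmeticFunction.vonMangoldt (n - b) = 0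
      · rw [h5, mul_zero, zero_mul]
        positivity
      · rw [if_pos (⟨hb2, h5⟩ : ¬ (n - b).Prime ∧ ArithmeticFunction.vonMangoldt (n - b) ≠ 0)]
        have : (0 : ℝ) ≤ if ¬ b.Prime ∧ ArithmeticFunction.vonMangoldt b ≠ 0 then (1 : ℝ) else 0 := by positivity
        linarith
  · rw [if_neg (fun h => hb1 h.1), sub_zero, abs_of_nonneg h3]
    by_cases h5 : ArithmeticFunction.vonMangoldt b = 0
    · rw [h5, zero_mul, zero_mul]
      positivity
    · rw [if_pos (⟨hb1, h5⟩ : ¬ b.Prime ∧ ArithmeticFunction.vonMangoldt b ≠ 0)]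
      have : (0 : ℝ) ≤ if ¬ (n - b).Prime ∧ ArithmeticFunction.vonMangoldt (n - b) ≠ 0 then (1 : ℝ) else 0 := by
        positivity
      linarith

/-- the count and the weighted sum -/
lemma pc_near {n P : ℕ} (hP : 2 ≤ P) (hPn : 2 * P ≤ n) :
    |∑ b ∈ Icc 2 P, ArithmeticFunction.vonMangoldt b * ArithmeticFunction.vonMangoldt (n - b) * wt n b - pc n P| ≤
    Real.sqrt P + (P : ℝ) / Real.sqrt ((n : ℝ) / 2) + 1 + 2 * ((n : ℝ) ^ (1 / 3 : ℝ) * Nat.log 2 n) := by
  classical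
  have e1 : (pc n P : ℝ) = ∑ b ∈ Icc 2 P, (if b.Prime ∧ (n - b).Prime then (1 : ℝ) else 0) := by
    have h1 : pc n P = ((Icc 2 P).filter (fun p => p.Prime ∧ (n - p).Prime)).card := by
      unfold pc
      congr 1
      ext b
      rw [mem_filter, mem_filter, mem_Icc, mem_Icc]
      constructor
      · rintro ⟨⟨_, h2⟩, h3, h4⟩
        exact ⟨⟨h3.two_le, h2⟩, h3, h4⟩
      · rintro ⟨⟨h1, h2⟩, h3⟩
        exact ⟨⟨by omega, h2⟩, h3⟩
    rw [h1, card_filter]
    push_cast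
    rfl
  rw [e1, ← sum_sub_distrib]
  refine (abs_sum_le_sum_abs _ _).trans ((sum_le_sum fun b hb => pair_le hb hPn).trans ?_)
  rw [sum_add_distrib]
  have h1 : ∑ b ∈ Icc 2 P, (if ¬ b.Prime ∧ ArithmeticFunction.vonMangoldt b ≠ 0 then (1 : ℝ) else 0) ≤
      Real.sqrt P + (n : ℝ) ^ (1 / 3 : ℝ) * Nat.log 2 n := by
    have h2 := pp_win (u := 0) (W := P) (N := n) (by omega)
    have h3 : ((Nat.sqrt (0 + P) - Nat.sqrt 0 : ℕ) : ℝ) ≤ Real.sqrt P := by
      rw [Nat.zero_add, Nat.sqrt_zero, Nat.sub_zero]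
      apply Real.le_sqrt_of_sq_le
      exact_mod_cast Nat.sqrt_le' P
    refine le_trans ?_ (h2.trans (add_le_add h3 le_rfl))
    rw [card_filter]
    push_cast
    apply sum_le_sum_of_subset_of_nonneg
    · intro b hb
      rw [mem_Icc] at hb
      rw [mem_Ioc]
      omega
    · intro b _ _
      positivity
  have h2 : ∑ b ∈ Icc 2 P, (if ¬ (n - b).Prime ∧ ArithmeticFunction.vonMangoldt (n - b) ≠ 0 then (1 : ℝ) else 0) ≤
      (P : ℝ) / Real.sqrt ((n : ℝ) / 2) + 1 + (n : ℝ) ^ (1 / 3 : ℝ) * Nat.log 2 n := by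
    obtain ⟨u, hu⟩ : ∃ u, u = n - P - 1 := ⟨_, rfl⟩
    have h2 := pp_win (u := u) (W := P) (N := n) (by omega)
    have h3 : ((Nat.sqrt (u + P) - Nat.sqrt u : ℕ) : ℝ) ≤ (P : ℝ) / Real.sqrt ((n : ℝ) / 2) + 1 := by
      refine (sq_win u P).trans ?_
      have h4 : (n : ℝ) / 2 ≤ (u : ℝ) + 1 := by
        have h5 : n ≤ 2 * (u + 1) := by omega
        have h6 : (n : ℝ) ≤ 2 * ((u : ℝ) + 1) := by exact_mod_cast h5
        linarith
      have h5 : Real.sqrt ((n : ℝ) / 2) ≤ Real.sqrt ((u : ℝ) + 1) := Real.sqrt_le_sqrt h4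
      have h6 : 0 < Real.sqrt ((n : ℝ) / 2) := by
        apply Real.sqrt_pos.2
        have : (0 : ℝ) < n := by exact_mod_cast (by omega : 0 < n)
        linarith
      have := div_le_div_of_nonneg_left (Nat.cast_nonneg P : (0 : ℝ) ≤ P) h6 h5
      linarith
    refine le_trans ?_ (h2.trans (add_le_add h3 le_rfl))
    rw [card_filter]
    push_cast
    have e2 : ∑ b ∈ Icc 2 P, (if ¬ (n - b).Prime ∧ ArithmeticFunction.vonMangoldt (n - b) ≠ 0 then (1 : ℝ) else 0) =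
        ∑ m ∈ (Icc 2 P).image (fun b => n - b), (if ¬ m.Prime ∧ ArithmeticFunction.vonMangoldt m ≠ 0 then (1 : ℝ) else 0) := by
      rw [sum_image]
      intro x hx y hy hxy
      simp only [coe_Icc, Set.mem_Icc] at hx hy hxy
      omega
    rw [e2]
    apply sum_le_sum_of_subset_of_nonneg
    · intro m hm
      rw [mem_image] at hm
      obtain ⟨b, hb, rfl⟩ := hm
      rw [mem_Icc] at hb
      rw [mem_Ioc]
      omega
    · intro b _ _
      positivity
  linarith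

/-- the theorem, counting form, statement -/
def CStm (Ad : ℕ → ℕ → ℕ → Prop) (A : ℕ) (ρ : ℝ) : Prop := ∃ x₀ : ℕ, ∀ x : ℕ, x₀ ≤ x → ∀ q : ℕ, 1 ≤ q → ∀ a : ℕ,
    Ad x q a → ∃ Bad : Finset ℕ, (Bad.card : ℝ) ≤ x / (q * Real.log x ^ A) ∧
      ∀ n : ℕ, n ≤ x → n ∉ Bad → n % q = a % q → 2 ∣ n → ∀ P : ℕ, (q : ℝ) * (x : ℝ) ^ (1 / 3 + ρ) ≤ P →
        2 * P ≤ n → |(pc n P : ℝ) - SS n * ∑ b ∈ Icc 2 P, wt n b| ≤ P / Real.log x ^ A

/-- the theorem, counting form -/
theorem count_of (Ad : ℕ → ℕ → ℕ → Prop) (A : ℕ) {ρ : ℝ} (hρ : 0 < ρ)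
    (hW : WStm Ad (A + 4) (min (ρ / 2) (1 / 24))) : CStm Ad A ρ := by
  obtain ⟨ρ', hρ'⟩ : ∃ ρ', ρ' = min (ρ / 2) (1 / 24) := ⟨_, rfl⟩
  have hρ'0 : 0 < ρ' := by rw [hρ']; exact lt_min (by linarith) (by norm_num)
  have hρ'1 : ρ' ≤ 1 / 24 := by rw [hρ']; exact min_le_right _ _
  have hρ'2 : 2 * ρ' ≤ ρ := by
    have : ρ' ≤ ρ / 2 := by rw [hρ']; exact min_le_left _ _
    linarith
  rw [← hρ'] at hW
  obtain ⟨x₁, h₁⟩ := hW
  obtain ⟨x₂, h₂⟩ := Filter.eventually_atTop.1 (ev_log (A + 8) (s := ρ') hρ'0 1000)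
  refine ⟨max (max x₁ x₂) 1, fun x hx q hq a hAd => ?_⟩
  have hxx₁ : x₁ ≤ x := le_trans (le_trans (le_max_left _ _) (le_max_left _ _)) hx
  have hxx₂ : x₂ ≤ x := le_trans (le_trans (le_max_right _ _) (le_max_left _ _)) hx
  have hx1 : 1 ≤ x := le_trans (le_max_right _ _) hx
  obtain ⟨hL1000, hLp⟩ := h₂ x hxx₂
  obtain ⟨Bad, hb1, hb2⟩ := h₁ x hxx₁ q hq a hAd
  obtain ⟨L, hLd⟩ : ∃ L, L = Real.log x := ⟨_, rfl⟩
  rw [← hLd] at hb1 hb2 hL1000 hLp ⊢
  have hx0 : (0 : ℝ) < x := by exact_mod_cast hx1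
  have hxr1 : (1 : ℝ) ≤ x := by exact_mod_cast hx1
  have hL0 : 0 < L := by linarith
  have hL1 : 1 ≤ L := by linarith
  have hq0 : (0 : ℝ) < q := by exact_mod_cast hq
  have hq1 : (1 : ℝ) ≤ q := by exact_mod_cast hq
  refine ⟨Bad, hb1.trans ?_, ?_⟩
  · apply div_le_div_of_nonneg_left hx0.le (by positivity)
    have : L ^ A ≤ L ^ (A + 4) := pow_le_pow_right₀ hL1 (by omega)
    gcongr
  intro n hnx hn hmod h2n P hP hPn
  -- the lower end
  obtain ⟨t₀, ht₀⟩ : ∃ t₀ : ℝ, t₀ = q * (x : ℝ) ^ (1 / 3 + ρ') := ⟨_, rfl⟩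
  have hxp : 1 ≤ (x : ℝ) ^ (1 / 3 + ρ') := Real.one_le_rpow hxr1 (by linarith)
  have ht₀1 : (x : ℝ) ^ (1 / 3 + ρ') ≤ t₀ := by
    rw [ht₀]
    exact le_mul_of_one_le_left (by positivity) hq1
  have ht₀P : t₀ * L ^ (A + 8) ≤ P := by
    calc t₀ * L ^ (A + 8) ≤ t₀ * (x : ℝ) ^ ρ' := by
          have : 0 ≤ t₀ := by linarith
          gcongr
      _ = q * (x : ℝ) ^ (1 / 3 + 2 * ρ') := by
          rw [ht₀, mul_assoc, ← Real.rpow_add hx0]
          congr 2
          ring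
      _ ≤ q * (x : ℝ) ^ (1 / 3 + ρ) := by
          have : (x : ℝ) ^ (1 / 3 + 2 * ρ') ≤ (x : ℝ) ^ (1 / 3 + ρ) :=
            Real.rpow_le_rpow_of_exponent_le hxr1 (by linarith)
          gcongr
      _ ≤ P := hP
  have hLA8 : 1 ≤ L ^ (A + 8) := one_le_pow₀ hL1
  have ht₀P' : t₀ ≤ P := by
    have : 0 ≤ t₀ := by linarith
    nlinarith
  have hPr1 : (1 : ℝ) ≤ P := by linarith
  have hPx : (P : ℝ) ≤ x := by
    have : P ≤ x := by omega
    exact_mod_cast this
  have hP2 : 2 ≤ P := by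
    have h1 : (1000 : ℝ) ≤ P := by
      have h2 : L ≤ L ^ (A + 8) := by
        calc L = L ^ 1 := (pow_one _).symm
          _ ≤ L ^ (A + 8) := pow_le_pow_right₀ hL1 (by omega)
      nlinarith
    have h3 : 1000 ≤ P := by exact_mod_cast h1
    omega
  have hP0 : (0 : ℝ) < P := by linarith
  have hn0 : 0 < n := by omega
  have hlogn : Real.log n ≤ L := by
    rw [hLd]
    apply Real.log_le_log
    · exact_mod_cast hn0
    · exact_mod_cast hnx
  have hvm : ∀ m : ℕ, m ≤ n → ArithmeticFunction.vonMangoldt m ≤ L := by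
    intro m hm
    refine ArithmeticFunction.vonMangoldt_le_log.trans ?_
    rcases Nat.eq_zero_or_pos m with h0 | h0
    · rw [h0]; simp; linarith
    · have := Real.log_le_log (by exact_mod_cast h0 : (0 : ℝ) < m) (by exact_mod_cast hm : (m : ℝ) ≤ n)
      linarith
  have hSR : ∀ t : ℕ, t ≤ P → 0 ≤ SR n t ∧ SR n t ≤ t * L ^ 2 := by
    intro t ht
    unfold SR
    refine ⟨sum_nonneg fun b _ => mul_nonneg ArithmeticFunction.vonMangoldt_nonneg
      ArithmeticFunction.vonMangoldt_nonneg, ?_⟩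
    calc ∑ b ∈ Icc 1 t, ArithmeticFunction.vonMangoldt b * ArithmeticFunction.vonMangoldt (n - b) ≤
        ∑ b ∈ Icc 1 t, L * L := by
          refine sum_le_sum fun b hb => ?_
          rw [mem_Icc] at hb
          exact mul_le_mul (hvm b (by omega)) (hvm (n - b) (by omega)) ArithmeticFunction.vonMangoldt_nonneg hL0.le
      _ = t * L ^ 2 := by
          rw [sum_const, Nat.card_Icc, nsmul_eq_mul, Nat.add_sub_cancel]
          ring
  have hSS1 := one_le_SS n
  have hmainP := hb2 n hnx hn hmod h2n P (by rw [← ht₀]; exact ht₀P') (by omega)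
  have hSS2 : SS n ≤ 2 * L ^ 2 := by
    have h1 := neg_le_of_abs_le hmainP
    have h2 := (hSR P le_rfl).2
    have h3 : (P : ℝ) / L ^ (A + 4) ≤ P * L ^ 2 := by
      rw [div_le_iff₀ (by positivity)]
      have h5 : 1 ≤ L ^ 2 * L ^ (A + 4) := by
        have e1 := one_le_pow₀ (M₀ := ℝ) (a := L) (n := 2) hL1
        have e2 := one_le_pow₀ (M₀ := ℝ) (a := L) (n := A + 4) hL1
        nlinarith
      calc (P : ℝ) = P * 1 := (mul_one _).symm
        _ ≤ P * (L ^ 2 * L ^ (A + 4)) := by gcongr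
        _ = _ := by ring
    have h4 : (P : ℝ) * SS n ≤ P * (2 * L ^ 2) := by linarith
    exact le_of_mul_le_mul_left h4 hP0
  -- the error for all lengths
  have hE : ∀ t : ℕ, t ≤ P → |SR n t - t * SS n| ≤ P / L ^ (A + 4) := by
    intro t ht
    have htr : (t : ℝ) ≤ P := by exact_mod_cast ht
    by_cases htt : t₀ ≤ t
    · refine (hb2 n hnx hn hmod h2n t (by rw [← ht₀]; exact htt) (by omega)).trans ?_
      gcongr
    · push Not at htt
      obtain ⟨k1, k2⟩ := hSR t ht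
      have ht0 : (0 : ℝ) ≤ t := Nat.cast_nonneg _
      have h1 : |SR n t - t * SS n| ≤ 2 * (t * L ^ 2) := by
        rw [abs_le]
        constructor
        · have : (t : ℝ) * SS n ≤ t * (2 * L ^ 2) := by gcongr
          linarith
        · have : 0 ≤ (t : ℝ) * SS n := by positivity
          have : 0 ≤ (t : ℝ) * L ^ 2 := by positivity
          linarith
      refine h1.trans ?_
      rw [le_div_iff₀ (by positivity)]
      calc 2 * (t * L ^ 2) * L ^ (A + 4) ≤ 2 * (t₀ * L ^ 2) * L ^ (A + 4) := by gcongr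
        _ = t₀ * (2 * L ^ (A + 6)) := by ring
        _ ≤ t₀ * L ^ (A + 8) := by
            have h2 : 2 * L ^ (A + 6) ≤ L ^ (A + 8) := by
              calc 2 * L ^ (A + 6) ≤ (L * L) * L ^ (A + 6) := by
                    apply mul_le_mul_of_nonneg_right _ (by positivity)
                    nlinarith
                _ = L ^ (A + 8) := by ring
            have : 0 ≤ t₀ := by linarith
            gcongr
        _ ≤ P := ht₀P
  -- summation by parts
  obtain ⟨s, hs⟩ : ∃ s : ℕ → ℝ, s = fun b => ArithmeticFunction.vonMangoldt b * ArithmeticFunction.vonMangoldt (n - b) -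
    SS n := ⟨_, rfl⟩
  have hsum : ∀ t : ℕ, 2 ≤ t → t ≤ P → |∑ b ∈ Icc 2 t, s b| ≤ P / L ^ (A + 3) := by
    intro t ht1 ht2
    have e1 : ∑ b ∈ Icc 2 t, s b = (SR n t - t * SS n) + SS n := by
      have h1 : ∑ b ∈ Icc 1 t, s b = SR n t - t * SS n := by
        rw [hs, sum_sub_distrib, sum_const, Nat.card_Icc, nsmul_eq_mul, Nat.add_sub_cancel]
        rfl
      have h2 : Icc 1 t = insert 1 (Icc 2 t) := by
        ext b
        rw [mem_insert, mem_Icc, mem_Icc]
        omega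
      rw [h2, sum_insert (by simp)] at h1
      have h3 : s 1 = -SS n := by
        rw [hs]
        simp
      rw [h3] at h1
      linarith
    rw [e1]
    refine (abs_add_le _ _).trans ?_
    rw [abs_of_nonneg (by linarith : 0 ≤ SS n)]
    have h2 := hE t ht2
    have h3 : SS n ≤ P / L ^ (A + 4) := by
      rw [le_div_iff₀ (by positivity)]
      calc SS n * L ^ (A + 4) ≤ 2 * L ^ 2 * L ^ (A + 4) := by gcongr
        _ = 1 * (2 * L ^ (A + 6)) := by ring
        _ ≤ t₀ * L ^ (A + 8) := by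
            have h4 : 2 * L ^ (A + 6) ≤ L ^ (A + 8) := by
              calc 2 * L ^ (A + 6) ≤ (L * L) * L ^ (A + 6) := by
                    apply mul_le_mul_of_nonneg_right _ (by positivity)
                    nlinarith
                _ = L ^ (A + 8) := by ring
            have : 1 ≤ t₀ := by linarith
            gcongr
        _ ≤ P := ht₀P
    have h4 : (P : ℝ) / L ^ (A + 4) + P / L ^ (A + 4) ≤ P / L ^ (A + 3) := by
      have : (P : ℝ) / L ^ (A + 4) + P / L ^ (A + 4) = P / L ^ (A + 3) * (2 / L) := by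
        rw [pow_succ L (A + 3)]
        field_simp
        ring
      rw [this]
      apply mul_le_of_le_one_right (by positivity)
      rw [div_le_one hL0]
      linarith
    linarith
  have habel := abel_tv s (wt n) hP2 hsum (wt_tv hP2 hPn)
  have e1 : ∑ b ∈ Icc 2 P, s b * wt n b =
      ∑ b ∈ Icc 2 P, ArithmeticFunction.vonMangoldt b * ArithmeticFunction.vonMangoldt (n - b) * wt n b -
      SS n * ∑ b ∈ Icc 2 P, wt n b := by
    rw [mul_sum, ← sum_sub_distrib]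
    refine sum_congr rfl fun b _ => ?_
    rw [hs]
    ring
  rw [e1] at habel
  have hnear := pc_near hP2 hPn
  -- the prime powers
  have hxρ : (x : ℝ) ^ (1 / 3 : ℝ) * L ^ (A + 8) ≤ P := by
    calc (x : ℝ) ^ (1 / 3 : ℝ) * L ^ (A + 8) ≤ t₀ * L ^ (A + 8) := by
          have : (x : ℝ) ^ (1 / 3 : ℝ) ≤ t₀ := by
            refine le_trans ?_ ht₀1
            exact Real.rpow_le_rpow_of_exponent_le hxr1 (by linarith)
          gcongr
      _ ≤ P := ht₀P
  have hnr : (n : ℝ) ≤ x := by exact_mod_cast hnx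
  have hlog2 : (Nat.log 2 n : ℝ) ≤ 2 * L := by
    have h1 : 2 ^ Nat.log 2 n ≤ n := Nat.pow_log_le_self 2 (by omega)
    have h2 : (2 : ℝ) ^ Nat.log 2 n ≤ n := by exact_mod_cast h1
    have h3 := Real.log_le_log (by positivity) h2
    rw [Real.log_pow] at h3
    have h4 := Real.log_two_gt_d9
    have h5 : (0 : ℝ) ≤ (Nat.log 2 n : ℝ) := Nat.cast_nonneg _
    nlinarith
  have hLx16 : L ^ (A + 8) ≤ (x : ℝ) ^ (1 / 24 : ℝ) :=
    hLp.trans (Real.rpow_le_rpow_of_exponent_le hxr1 hρ'1)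
  have hPx3 : (x : ℝ) ^ (1 / 3 : ℝ) ≤ P := by
    refine le_trans ?_ hxρ
    exact le_mul_of_one_le_right (by positivity) hLA8
  have k1 : Real.sqrt P ≤ P / L ^ (A + 4) := by
    rw [le_div_iff₀ (by positivity)]
    have h1 : L ^ (A + 4) ≤ Real.sqrt P := by
      apply Real.le_sqrt_of_sq_le
      calc (L ^ (A + 4)) ^ 2 ≤ (L ^ (A + 8)) ^ 2 := by
            have : L ^ (A + 4) ≤ L ^ (A + 8) := pow_le_pow_right₀ hL1 (by omega)
            gcongr
        _ ≤ ((x : ℝ) ^ (1 / 24 : ℝ)) ^ 2 := by gcongr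
        _ = (x : ℝ) ^ (1 / 12 : ℝ) := by
            rw [← Real.rpow_natCast, ← Real.rpow_mul hx0.le]
            norm_num
        _ ≤ (x : ℝ) ^ (1 / 3 : ℝ) := Real.rpow_le_rpow_of_exponent_le hxr1 (by norm_num)
        _ ≤ P := hPx3
    calc Real.sqrt P * L ^ (A + 4) ≤ Real.sqrt P * Real.sqrt P := by gcongr
      _ = P := Real.mul_self_sqrt hP0.le
  have k2 : (P : ℝ) / Real.sqrt ((n : ℝ) / 2) ≤ P / L ^ (A + 4) := by
    apply div_le_div_of_nonneg_left hP0.le (by positivity)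
    apply Real.le_sqrt_of_sq_le
    have hPn' : (P : ℝ) ≤ n / 2 := by
      have : (2 : ℝ) * P ≤ n := by exact_mod_cast hPn
      linarith
    calc (L ^ (A + 4)) ^ 2 ≤ (L ^ (A + 8)) ^ 2 := by
          have : L ^ (A + 4) ≤ L ^ (A + 8) := pow_le_pow_right₀ hL1 (by omega)
          gcongr
      _ ≤ ((x : ℝ) ^ (1 / 24 : ℝ)) ^ 2 := by gcongr
      _ = (x : ℝ) ^ (1 / 12 : ℝ) := by
          rw [← Real.rpow_natCast, ← Real.rpow_mul hx0.le]
          norm_num
      _ ≤ (x : ℝ) ^ (1 / 3 : ℝ) := Real.rpow_le_rpow_of_exponent_le hxr1 (by norm_num)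
      _ ≤ P := hPx3
      _ ≤ n / 2 := hPn'
  have k3 : (1 : ℝ) ≤ P / L ^ (A + 4) := by
    rw [le_div_iff₀ (by positivity), one_mul]
    calc L ^ (A + 4) ≤ L ^ (A + 8) := pow_le_pow_right₀ hL1 (by omega)
      _ = 1 * L ^ (A + 8) := (one_mul _).symm
      _ ≤ t₀ * L ^ (A + 8) := by
          have : 1 ≤ t₀ := by linarith
          gcongr
      _ ≤ P := ht₀P
  have k4 : 2 * ((n : ℝ) ^ (1 / 3 : ℝ) * Nat.log 2 n) ≤ P / L ^ (A + 4) := by
    rw [le_div_iff₀ (by positivity)]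
    calc 2 * ((n : ℝ) ^ (1 / 3 : ℝ) * Nat.log 2 n) * L ^ (A + 4) ≤
        2 * ((x : ℝ) ^ (1 / 3 : ℝ) * (2 * L)) * L ^ (A + 4) := by
          have : (n : ℝ) ^ (1 / 3 : ℝ) ≤ (x : ℝ) ^ (1 / 3 : ℝ) :=
            Real.rpow_le_rpow (Nat.cast_nonneg _) hnr (by norm_num)
          gcongr
      _ = (x : ℝ) ^ (1 / 3 : ℝ) * (4 * L ^ (A + 5)) := by ring
      _ ≤ (x : ℝ) ^ (1 / 3 : ℝ) * L ^ (A + 8) := by
          have h2 : 4 * L ^ (A + 5) ≤ L ^ (A + 8) := by
            calc 4 * L ^ (A + 5) ≤ (L * L * L) * L ^ (A + 5) := by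
                  apply mul_le_mul_of_nonneg_right _ (by positivity)
                  nlinarith [mul_pos hL0 hL0]
              _ = L ^ (A + 8) := by ring
          gcongr
      _ ≤ P := hxρ
  have h1 : |(pc n P : ℝ) - SS n * ∑ b ∈ Icc 2 P, wt n b| ≤ 4 * (P / L ^ (A + 4)) + P / L ^ (A + 3) * 12 := by
    have e2 : (pc n P : ℝ) - SS n * ∑ b ∈ Icc 2 P, wt n b =
        -(∑ b ∈ Icc 2 P, ArithmeticFunction.vonMangoldt b * ArithmeticFunction.vonMangoldt (n - b) * wt n b - pc n P) +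
        (∑ b ∈ Icc 2 P, ArithmeticFunction.vonMangoldt b * ArithmeticFunction.vonMangoldt (n - b) * wt n b -
        SS n * ∑ b ∈ Icc 2 P, wt n b) := by ring
    rw [e2]
    refine (abs_add_le _ _).trans ?_
    rw [abs_neg]
    linarith
  refine h1.trans ?_
  have h2 : 4 * ((P : ℝ) / L ^ (A + 4)) + P / L ^ (A + 3) * 12 = P / L ^ A * (4 / L ^ 4 + 12 / L ^ 3) := by
    rw [pow_add, pow_add]
    field_simp
  rw [h2]
  apply mul_le_of_le_one_right (by positivity)
  have h3 : 4 / L ^ 4 ≤ 1 / 2 := by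
    rw [div_le_div_iff₀ (by positivity) two_pos]
    have : L ≤ L ^ 4 := by
      calc L = L ^ 1 := (pow_one _).symm
        _ ≤ L ^ 4 := pow_le_pow_right₀ hL1 (by norm_num)
    linarith
  have h4 : 12 / L ^ 3 ≤ 1 / 2 := by
    rw [div_le_div_iff₀ (by positivity) two_pos]
    have : L ≤ L ^ 3 := by
      calc L = L ^ 1 := (pow_one _).symm
        _ ≤ L ^ 3 := pow_le_pow_right₀ hL1 (by norm_num)
    linarith
  linarith

end Pool.Agent.H567.HW
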