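import Pool.Agent.H567.HW.B58

/-!
Project HW (helper567), part 35: all windows for `2 n`.
-/

set_option autoImplicit false

namespace Pool.Agent.H567.HW

open Finset Filter
open Pool.Agent.Y614.GJ.Core (ev_log)

/-- the exceptional set of a property in a residue class -/
def excsetT (F : ℕ → ℕ → Prop) (x : ℝ) (q : ℕ) (a : ℤ) : Set ℕ :=
  {n : ℕ | 0 < n ∧ (n : ℝ) ≤ x ∧ (n : ℤ) ≡ a [ZMOD q] ∧ ¬ F q n}

/-- from natural `x` and natural residues to real `x` and integral residues, all integers -/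
theorem transferT (F : ℕ → ℕ → Prop) (hF : ∀ A T : ℕ, ∃ x₀ : ℕ, ∀ x : ℕ, x₀ ≤ x → ∀ q : ℕ, 1 ≤ q → ∀ a : ℕ,
    (Nat.gcd a q : ℝ) ≤ Real.log x ^ T → ∃ Bad : Finset ℕ, (Bad.card : ℝ) ≤ x / (q * Real.log x ^ A) ∧
      ∀ n : ℕ, 0 < n → n ≤ x → n ∉ Bad → n % q = a % q → F q n) (A T : ℕ) :
    ∃ x₀ : ℝ, ∀ x : ℝ, x₀ ≤ x → ∀ q : ℕ, 1 ≤ q → ∀ a : ℤ, (Int.gcd a q : ℝ) ≤ Real.log x ^ T →
      (excsetT F x q a).Finite ∧ ((excsetT F x q a).ncard : ℝ) ≤ x / (q * Real.log x ^ A) := by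
  obtain ⟨x₁, h₁⟩ := hF (A + 1) (2 * T)
  refine ⟨max (x₁ + 1) (Real.exp (2 ^ (A + 4))), fun x hx q hq a hgcd => ?_⟩
  have hx1 : (x₁ : ℝ) + 1 ≤ x := (le_max_left _ _).trans hx
  have hxe : Real.exp (2 ^ (A + 4)) ≤ x := (le_max_right _ _).trans hx
  have hx0 : 0 < x := lt_of_lt_of_le (Real.exp_pos _) hxe
  have hl16 : (2 : ℝ) ^ (A + 4) ≤ Real.log x := (Real.le_log_iff_exp_le hx0).2 hxe
  have h2A : (1 : ℝ) ≤ 2 ^ A := one_le_pow₀ (by norm_num)
  have hl : 16 ≤ Real.log x := by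
    have : (2 : ℝ) ^ (A + 4) = 2 ^ A * 16 := by rw [pow_add]; norm_num
    linarith
  obtain ⟨N, hN⟩ : ∃ N, N = ⌊x⌋₊ := ⟨_, rfl⟩
  have hNx : (N : ℝ) ≤ x := by rw [hN]; exact Nat.floor_le hx0.le
  have hxN : x < N + 1 := by rw [hN]; exact Nat.lt_floor_add_one x
  have hxN1 : x₁ ≤ N := by
    rw [hN]
    apply Nat.le_floor
    linarith
  have hx16 : 16 ≤ x := hl.trans ((Real.log_le_sub_one_of_pos hx0).trans (by linarith))
  have hN0 : (0 : ℝ) < N := by linarith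
  have hNhalf : x / 2 ≤ N := by linarith
  have hlN : Real.log x - 1 ≤ Real.log N := by
    have h1 := Real.log_le_log (by positivity) hNhalf
    rw [Real.log_div hx0.ne' (by norm_num)] at h1
    have := Real.log_two_lt_d9
    linarith
  have hlN2 : Real.log x / 2 ≤ Real.log N := by linarith
  have hlN0 : 0 < Real.log N := by linarith
  obtain ⟨b, hb⟩ : ∃ b : ℕ, (b : ℤ) = a % q := ⟨(a % q).toNat, Int.toNat_of_nonneg (Int.emod_nonneg _ (by omega))⟩
  have hq0 : (0 : ℝ) < q := by exact_mod_cast hq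
  have hbg : Nat.gcd b q = Int.gcd a q := by
    have h1 : Int.gcd (b : ℤ) q = Nat.gcd b q := Int.gcd_natCast_natCast b q
    rw [← h1, hb]
    exact Int.gcd_emod a q
  have hgcd' : (Nat.gcd b q : ℝ) ≤ Real.log N ^ (2 * T) := by
    rw [hbg]
    refine hgcd.trans ?_
    rw [pow_mul]
    apply pow_le_pow_left₀ (by linarith)
    have h1 : (Real.log x / 2) ^ 2 ≤ Real.log N ^ 2 := pow_le_pow_left₀ (by linarith) hlN2 2
    nlinarith
  obtain ⟨Bad, hb1, hb2⟩ := h₁ N hxN1 q hq b hgcd'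
  have hsub : excsetT F x q a ⊆ (Bad : Set ℕ) := by
    intro n hn
    obtain ⟨h0, h2, h4, h5⟩ := hn
    by_contra hcon
    apply h5
    apply hb2 n h0 _ (by simpa using hcon) _
    · rw [hN]
      exact Nat.le_floor h2
    · have h6 : (n : ℤ) % q = a % q := h4
      have h7 : ((n % q : ℕ) : ℤ) = ((b % q : ℕ) : ℤ) := by
        rw [Int.natCast_mod, Int.natCast_mod, h6, hb, Int.emod_emod_of_dvd _ dvd_rfl]
      exact_mod_cast h7
  refine ⟨Set.Finite.subset (Finset.finite_toSet Bad) hsub, ?_⟩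
  have h1 : (excsetT F x q a).ncard ≤ Bad.card := by
    have := Set.ncard_le_ncard hsub (Finset.finite_toSet Bad)
    rwa [Set.ncard_coe_finset] at this
  have h2 : ((excsetT F x q a).ncard : ℝ) ≤ Bad.card := by exact_mod_cast h1
  refine h2.trans (hb1.trans ?_)
  have h3 : Real.log x ^ A ≤ Real.log N ^ (A + 1) := by
    calc Real.log x ^ A = 2 ^ A * (Real.log x / 2) ^ A := by rw [div_pow]; field_simp
      _ ≤ Real.log N * Real.log N ^ A := by
        have e1 : (2 : ℝ) ^ A ≤ Real.log N := by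
          have : (2 : ℝ) ^ (A + 4) = 2 ^ A * 16 := by rw [pow_add]; norm_num
          linarith
        have e2 : (Real.log x / 2) ^ A ≤ Real.log N ^ A := pow_le_pow_left₀ (by linarith) hlN2 A
        gcongr
      _ = Real.log N ^ (A + 1) := by ring
  have h4 : 0 < Real.log x ^ A := by positivity
  calc (N : ℝ) / (q * Real.log N ^ (A + 1)) ≤ x / (q * Real.log N ^ (A + 1)) := by gcongr
    _ ≤ x / (q * Real.log x ^ A) := by
      apply div_le_div_of_nonneg_left hx0.le (by positivity)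
      gcongr

/-- all windows for `2 n` -/
def FormT (ε ρ : ℝ) (W q n : ℕ) : Prop :=
  ∀ U V : ℕ, U ≤ V → (q : ℝ) * (n : ℝ) ^ (1 / 3 + ρ) ≤ V → V < n → (V : ℝ) / Real.log n ^ W ≤ (V : ℝ) - U →
    |(wc (2 * n) U V : ℝ) - SS (2 * n) * (((V : ℝ) - U) / (Real.log V * Real.log (2 * n)))| ≤
      ε * (SS (2 * n) * (((V : ℝ) - U) / (Real.log V * Real.log (2 * n))))

theorem f33N {ρ ε : ℝ} (hρ : 0 < ρ) (hε : 0 < ε) (W A T : ℕ) : ∃ x₀ : ℕ, ∀ x : ℕ, x₀ ≤ x →
    ∀ q : ℕ, 1 ≤ q → ∀ a : ℕ, (Nat.gcd a q : ℝ) ≤ Real.log x ^ T →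
    ∃ Bad : Finset ℕ, (Bad.card : ℝ) ≤ x / (q * Real.log x ^ A) ∧
      ∀ n : ℕ, 0 < n → n ≤ x → n ∉ Bad → n % q = a % q → FormT ε ρ W q n := by
  have hρ2 : 0 < ρ / 2 := by positivity
  obtain ⟨x₁, h₁⟩ := relAll (A + 1) (T + 1) W hρ2 hε
  obtain ⟨n₂, h₂⟩ := eventually_atTop.1 (ev_pow hρ2 (2 * (2 : ℝ) ^ (1 / 3 + ρ / 2)))
  obtain ⟨m, hm⟩ : ∃ m, m = max n₂ 3 := ⟨_, rfl⟩
  obtain ⟨x₂, hx₂⟩ := eventually_atTop.1 (ev_log (A + 1) (s := 1 / 2) (by norm_num) 2)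
  refine ⟨max (max x₁ x₂) (m ^ 4 + 1), fun x hx q hq a hgcd => ?_⟩
  have hxx₁ : x₁ ≤ x := le_trans (le_trans (le_max_left _ _) (le_max_left _ _)) hx
  have hxx₂ : x₂ ≤ x := le_trans (le_trans (le_max_right _ _) (le_max_left _ _)) hx
  have hxm : m ^ 4 ≤ x := le_trans (le_trans (Nat.le_succ _) (le_max_right _ _)) hx
  have hx1 : 1 ≤ x := le_trans (le_trans (Nat.le_add_left 1 _) (le_max_right _ _)) hx
  obtain ⟨hL2, hLp⟩ := hx₂ x hxx₂
  obtain ⟨L, hLd⟩ : ∃ L, L = Real.log x := ⟨_, rfl⟩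
  rw [← hLd] at hL2 hLp hgcd ⊢
  have hx0 : (0 : ℝ) < x := by exact_mod_cast hx1
  have hL0 : 0 < L := by linarith
  have hL1 : 1 ≤ L := by linarith
  have hq0 : (0 : ℝ) < q := by exact_mod_cast hq
  have hq1 : (1 : ℝ) ≤ q := by exact_mod_cast hq
  have hLx : L ≤ Real.log ((2 * x : ℕ) : ℝ) := by
    rw [hLd]
    apply Real.log_le_log hx0
    push_cast
    linarith
  have hgcd' : (Nat.gcd (2 * a) (2 * q) : ℝ) ≤ Real.log ((2 * x : ℕ) : ℝ) ^ (T + 1) := by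
    rw [Nat.gcd_mul_left]
    push_cast
    calc (2 : ℝ) * (Nat.gcd a q : ℝ) ≤ L * L ^ T := by
          apply mul_le_mul hL2 hgcd (Nat.cast_nonneg _) hL0.le
      _ = L ^ (T + 1) := by ring
      _ ≤ Real.log (2 * (x : ℝ)) ^ (T + 1) := by
          push_cast at hLx
          exact pow_le_pow_left₀ hL0.le hLx _
  obtain ⟨Bad, hb1, hb2⟩ := h₁ (2 * x) (by omega) (2 * q) (by omega) (2 * a) hgcd'
  refine ⟨Bad.image (fun N => N / 2) ∪ (if q ≤ m then range m else ∅), ?_, ?_⟩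
  · have h1 : ((Bad.image (fun N => N / 2) ∪ (if q ≤ m then range m else ∅)).card : ℝ) ≤
        Bad.card + (if q ≤ m then range m else ∅).card := by
      have := (card_union_le (Bad.image (fun N => N / 2)) (if q ≤ m then range m else ∅)).trans
        (Nat.add_le_add_right card_image_le _)
      exact_mod_cast this
    have h2 : ((2 * x : ℕ) : ℝ) / ((2 * q : ℕ) * Real.log ((2 * x : ℕ) : ℝ) ^ (A + 1)) ≤ x / (q * L ^ (A + 1)) := by
      have e1 : ((2 * x : ℕ) : ℝ) / ((2 * q : ℕ) * Real.log ((2 * x : ℕ) : ℝ) ^ (A + 1)) =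
          x / (q * Real.log ((2 * x : ℕ) : ℝ) ^ (A + 1)) := by
        have : 0 < Real.log ((2 * x : ℕ) : ℝ) := lt_of_lt_of_le hL0 hLx
        push_cast
        push_cast at this
        field_simp
      rw [e1]
      apply div_le_div_of_nonneg_left hx0.le (by positivity)
      have := pow_le_pow_left₀ hL0.le hLx (A + 1)
      gcongr
    have h3 : ((if q ≤ m then range m else ∅).card : ℝ) ≤ x / (q * L ^ (A + 1)) := by
      split_ifs with h
      · rw [card_range, le_div_iff₀ (by positivity)]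
        have hqm : (q : ℝ) ≤ m := by exact_mod_cast h
        have h4 : (m : ℝ) ^ 4 ≤ x := by exact_mod_cast hxm
        have h5 : (m : ℝ) ^ 2 ≤ (x : ℝ) ^ (1 / 2 : ℝ) := by
          rw [← Real.sqrt_eq_rpow]
          apply Real.le_sqrt_of_sq_le
          rw [← pow_mul]
          exact h4
        calc (m : ℝ) * (q * L ^ (A + 1)) ≤ m * (m * (x : ℝ) ^ (1 / 2 : ℝ)) := by gcongr
          _ = (m : ℝ) ^ 2 * (x : ℝ) ^ (1 / 2 : ℝ) := by ring
          _ ≤ (x : ℝ) ^ (1 / 2 : ℝ) * (x : ℝ) ^ (1 / 2 : ℝ) := by gcongr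
          _ = x := by
              rw [← Real.rpow_add hx0]
              norm_num
      · rw [card_empty, Nat.cast_zero]
        positivity
    have h4 : (x : ℝ) / (q * L ^ (A + 1)) = x / (q * L ^ A) * (1 / L) := by
      rw [pow_add]
      field_simp
    have h5 : 1 / L ≤ 1 / 2 := one_div_le_one_div_of_le (by norm_num) hL2
    have h6 : (x : ℝ) / (q * L ^ A) * (1 / L) ≤ x / (q * L ^ A) * (1 / 2) :=
      mul_le_mul_of_nonneg_left h5 (by positivity)
    linarith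
  intro n h0 hnx hn hmod U V hUV hV hVn hD
  rw [mem_union, not_or] at hn
  obtain ⟨hnB, hnS⟩ := hn
  have hn0 : (0 : ℝ) < n := by exact_mod_cast h0
  have hn1r : (1 : ℝ) ≤ n := by exact_mod_cast h0
  have hVr : (0 : ℝ) < V := lt_of_lt_of_le (by positivity) hV
  have hV0 : 0 < V := by exact_mod_cast hVr
  have hmn : m ≤ n := by
    by_contra hcon
    push Not at hcon
    have hqm : q ≤ m := by
      have h1 : (q : ℝ) ≤ n := by
        have h2 : (q : ℝ) * 1 ≤ q * (n : ℝ) ^ (1 / 3 + ρ) := by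
          have : 1 ≤ (n : ℝ) ^ (1 / 3 + ρ) := Real.one_le_rpow hn1r (by linarith)
          gcongr
        have h3 : (V : ℝ) < n := by exact_mod_cast hVn
        linarith
      have h2 : q ≤ n := by exact_mod_cast h1
      omega
    apply hnS
    rw [if_pos hqm, mem_range]
    exact hcon
  have hn3 : (3 : ℝ) ≤ n := by
    have : 3 ≤ n := le_trans (by rw [hm]; exact le_max_right _ _) hmn
    exact_mod_cast this
  have hpow := h₂ n (le_trans (by rw [hm]; exact le_max_left _ _) hmn)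
  have hlog1 : 1 ≤ Real.log n := by
    rw [Real.le_log_iff_exp_le hn0]
    have := Real.exp_one_lt_d9
    linarith
  have hlog2 : Real.log n ≤ Real.log ((2 * n : ℕ) : ℝ) := by
    apply Real.log_le_log hn0
    push_cast
    linarith
  have hV' : ((2 * q : ℕ) : ℝ) * ((2 * n : ℕ) : ℝ) ^ (1 / 3 + ρ / 2) ≤ V := by
    refine le_trans ?_ hV
    push_cast
    rw [Real.mul_rpow (by norm_num) hn0.le]
    calc 2 * (q : ℝ) * ((2 : ℝ) ^ (1 / 3 + ρ / 2) * (n : ℝ) ^ (1 / 3 + ρ / 2)) =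
        q * ((2 * (2 : ℝ) ^ (1 / 3 + ρ / 2)) * (n : ℝ) ^ (1 / 3 + ρ / 2)) := by ring
      _ ≤ q * ((n : ℝ) ^ (ρ / 2) * (n : ℝ) ^ (1 / 3 + ρ / 2)) := by gcongr
      _ = q * (n : ℝ) ^ (1 / 3 + ρ) := by
          rw [← Real.rpow_add hn0]
          congr 2
          ring
  have hD' : (V : ℝ) / Real.log ((2 * n : ℕ) : ℝ) ^ W ≤ (V : ℝ) - U := by
    refine le_trans ?_ hD
    apply div_le_div_of_nonneg_left hVr.le (by positivity)
    exact pow_le_pow_left₀ (by linarith) hlog2 W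
  have hNB : 2 * n ∉ Bad := by
    intro hcon
    apply hnB
    rw [mem_image]
    exact ⟨2 * n, hcon, by omega⟩
  have hmod' : (2 * n) % (2 * q) = (2 * a) % (2 * q) := by
    rw [Nat.mul_mod_mul_left, Nat.mul_mod_mul_left, hmod]
  have := hb2 (2 * n) (by omega) hNB hmod' (Dvd.intro _ rfl) U V hUV hV' (by omega) hV0 hD'
  push_cast at this
  exact this

theorem f33Class {ρ ε : ℝ} (hρ : 0 < ρ) (hε : 0 < ε) (W A T : ℕ) : ∃ x₀ : ℝ, ∀ x : ℝ, x₀ ≤ x → ∀ q : ℕ, 1 ≤ q →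
    ∀ a : ℤ, (Int.gcd a q : ℝ) ≤ Real.log x ^ T →
      (excsetT (FormT ε ρ W) x q a).Finite ∧ ((excsetT (FormT ε ρ W) x q a).ncard : ℝ) ≤ x / (q * Real.log x ^ A) :=
  transferT (FormT ε ρ W) (fun A T => f33N hρ hε W A T) A T

end Pool.Agent.H567.HW
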