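import Pool.Graph.R_seed8.Y883.GJ.Asm

/-!
Project HW (helper567), part 50: the sieve model, definitions.
-/

set_option autoImplicit false

namespace Pool.Agent.H567.HW

open Finset
open Pool.Agent.Y883.GJ (LA Par)
open Pool.Agent.H373R2.T7 (lamz Vz Vz_pos lamz_nonneg)

/-- the model with complex values -/
noncomputable def LZ (z n : ℕ) : ℂ := ((lamz z n : ℝ) : ℂ)

lemma lamz_le (z n : ℕ) : lamz z n ≤ (Vz z)⁻¹ := by
  unfold lamz
  split_ifs
  · exact le_rfl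
  · exact (inv_pos.2 (Vz_pos z)).le

/-- the difference of the von Mangoldt function and the sieve model -/
noncomputable def GZ (z n : ℕ) : ℂ := LA n - LZ z n

lemma norm_LA_le {n X : ℕ} (h : n ≤ X) : ‖LA n‖ ≤ Real.log X := by
  unfold LA
  rw [Complex.norm_real, Real.norm_of_nonneg ArithmeticFunction.vonMangoldt_nonneg]
  refine ArithmeticFunction.vonMangoldt_le_log.trans ?_
  rcases Nat.eq_zero_or_pos n with h0 | h0
  · subst h0
    simp only [Nat.cast_zero, Real.log_zero]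
    exact Real.log_natCast_nonneg X
  · exact Real.log_le_log (by exact_mod_cast h0) (by exact_mod_cast h)

lemma norm_LZ_le (z n : ℕ) : ‖LZ z n‖ ≤ (Vz z)⁻¹ := by
  unfold LZ
  rw [Complex.norm_real, Real.norm_of_nonneg (lamz_nonneg z n)]
  exact lamz_le z n

lemma norm_GZ_le {z n X : ℕ} (h : n ≤ X) : ‖GZ z n‖ ≤ Real.log X + (Vz z)⁻¹ := by
  unfold GZ
  exact (norm_sub_le _ _).trans (add_le_add (norm_LA_le h) (norm_LZ_le z n))

lemma GZ_ofReal (z n : ℕ) : GZ z n = ((ArithmeticFunction.vonMangoldt n - lamz z n : ℝ) : ℂ) := by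
  unfold GZ LA LZ
  push_cast
  rfl

/-- the size of the model -/
lemma Vz_inv : ∃ B : ℕ, ∀ E : ℕ, ∃ Y₀ : ℕ, ∀ Y : ℕ, Y₀ ≤ Y → ∀ z : ℕ, Real.log Y ^ B ≤ z →
    (z : ℝ) ≤ Real.log Y ^ E → (Vz z)⁻¹ ≤ Real.log Y := by
  obtain ⟨B, hB⟩ := Pool.Agent.Y883.GJ.model_all 1
  refine ⟨B, fun E => ?_⟩
  obtain ⟨N₁, hN₁⟩ := hB E
  refine ⟨N₁, fun Y hY z hz1 hz2 => ?_⟩
  obtain ⟨r, hpar, -⟩ := hN₁ Y hY z hz1 hz2
  exact hpar.hV

end Pool.Agent.H567.HW
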