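import Pool.Graph.R_seed8.H376R2.MR.Mv
import Pool.Graph.R_seed8.Y883.GJ.Stm
import Pool.Graph.R_seed8.Y297.GJ.Orth

/-!
Project HW (helper567): Goldbach with a small prime in the residue classes of every modulus.
Part 1: the large sieve for all characters modulo `q` and integer frequencies.
-/

set_option autoImplicit false

namespace Pool.Agent.H567.HW

open Finset
open Pool.Agent.H376R2.MR (ch DP FK Fj En Fj_nonneg Fj_le Fj_le_sq En_eq mv_Fj mv_row)

/-- the constant -/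
noncomputable def c0 : ℝ := 6 + Real.pi ^ 2 * Real.exp 1 ^ 2

lemma c0_pos : 0 < c0 := by unfold c0; positivity

/-- from the plain sum to the Fejer sum -/
lemma to_en {K : ℕ} (hK : 1 ≤ K) (s : Finset ℕ) (a : ℕ → ℂ) :
    ∑ k ∈ FK K, ‖DP s a k‖ ^ 2 ≤ 2 * En (2 * K) s a := by
  have hK0 : (0 : ℝ) < K := by exact_mod_cast hK
  unfold En
  rw [Finset.mul_sum]
  calc ∑ k ∈ FK K, ‖DP s a k‖ ^ 2
      ≤ ∑ k ∈ FK K, 2 * ((1 - |(k : ℝ)| / ((2 * K : ℕ) : ℝ)) * ‖DP s a k‖ ^ 2) := by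
        refine Finset.sum_le_sum fun k hk => ?_
        unfold FK at hk
        rw [Finset.mem_Ioo] at hk
        have habs : |(k : ℝ)| ≤ K := by
          have : |k| ≤ (K : ℤ) := by
            rw [abs_le]
            constructor <;> omega
          exact_mod_cast this
        have h2 : |(k : ℝ)| / ((2 * K : ℕ) : ℝ) ≤ 1 / 2 := by
          push_cast
          rw [div_le_div_iff₀ (by positivity) (by norm_num)]
          linarith
        have h3 : 0 ≤ ‖DP s a k‖ ^ 2 := by positivity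
        nlinarith
    _ ≤ ∑ k ∈ FK (2 * K), 2 * ((1 - |(k : ℝ)| / ((2 * K : ℕ) : ℝ)) * ‖DP s a k‖ ^ 2) := by
        refine Finset.sum_le_sum_of_subset_of_nonneg ?_ ?_
        · intro k hk
          unfold FK at hk ⊢
          rw [Finset.mem_Ioo] at hk ⊢
          push_cast
          constructor <;> omega
        · intro k hk _
          unfold FK at hk
          rw [Finset.mem_Ioo] at hk
          have habs : |(k : ℝ)| ≤ ((2 * K : ℕ) : ℝ) := by
            have : |k| ≤ ((2 * K : ℕ) : ℤ) := by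
              rw [abs_le]
              constructor <;> omega
            exact_mod_cast this
          have h2 : |(k : ℝ)| / ((2 * K : ℕ) : ℝ) ≤ 1 := by
            apply div_le_one_of_le₀ habs
            positivity
          have h3 : 0 ≤ ‖DP s a k‖ ^ 2 := by positivity
          have h4 : 0 ≤ 1 - |(k : ℝ)| / ((2 * K : ℕ) : ℝ) := by linarith
          positivity

/-- the kernel summed over one class -/
lemma row_class {N : ℝ} {q K m : ℕ} (hq : 1 ≤ q) (hK : 1 ≤ K) (hN : 1 ≤ N) (s : Finset ℕ)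
    (hsq : ∀ n ∈ s, n % q = m % q) (hs : ∀ n ∈ s, N ≤ (n : ℝ) ∧ (n : ℝ) ≤ Real.exp 1 * N)
    (hm : N ≤ (m : ℝ) ∧ (m : ℝ) ≤ Real.exp 1 * N) :
    ∑ n ∈ s, Fj (2 * K) (Real.log m - Real.log n) ≤ 2 * c0 * (N / q + K) := by
  have hq0 : (0 : ℝ) < q := by exact_mod_cast hq
  have hK0 : (1 : ℝ) ≤ K := by exact_mod_cast hK
  have hinj : Set.InjOn (fun n : ℕ => n / q) (s : Set ℕ) := by
    intro x hx y hy hxy
    simp only at hxy
    have h1 := hsq x hx
    have h2 := hsq y hy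
    have h3 := Nat.div_add_mod x q
    have h4 := Nat.div_add_mod y q
    rw [hxy, h1, ← h2] at h3
    omega
  have e1 : ∑ n ∈ s, Fj (2 * K) (Real.log m - Real.log n) =
      ∑ j ∈ s.image (fun n : ℕ => n / q), Fj (2 * K) (Real.log m - Real.log ((q * j + m % q : ℕ) : ℝ)) := by
    rw [sum_image hinj]
    refine sum_congr rfl fun n hn => ?_
    rw [← hsq n hn, Nat.div_add_mod]
  rw [e1]
  have h1 := mv_row (N := N / q + 1) (K := K) (m := m / q) hK (by
      have : 0 ≤ N / q := by positivity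
      linarith) (s.image (fun n : ℕ => n / q))
    (fun j => Fj (2 * K) (Real.log m - Real.log ((q * j + m % q : ℕ) : ℝ)))
    (fun j _ => by
      have := Fj_le (2 * K) (Real.log m - Real.log ((q * j + m % q : ℕ) : ℝ))
      push_cast at this ⊢
      exact this)
    (fun j hj hne => by
      rw [mem_image] at hj
      obtain ⟨n, hn, rfl⟩ := hj
      have hn1 : q * (n / q) + m % q = n := by rw [← hsq n hn, Nat.div_add_mod]
      rw [hn1]
      have hmn : m ≠ n := by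
        rintro rfl
        exact hne rfl
      refine (mv_Fj hK hN hm.1 hm.2 (hs n hn).1 (hs n hn).2 hmn).trans ?_
      have e2 : (m : ℝ) - n = q * (((m / q : ℕ) : ℝ) - ((n / q : ℕ) : ℝ)) := by
        have h3 : (m : ℝ) = q * ((m / q : ℕ) : ℝ) + ((m % q : ℕ) : ℝ) := by
          exact_mod_cast (Nat.div_add_mod m q).symm
        have h4 : (n : ℝ) = q * ((n / q : ℕ) : ℝ) + ((m % q : ℕ) : ℝ) := by
          exact_mod_cast hn1.symm
        have h5 : (q : ℝ) * (((m / q : ℕ) : ℝ) - ((n / q : ℕ) : ℝ)) =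
            q * ((m / q : ℕ) : ℝ) - q * ((n / q : ℕ) : ℝ) := by ring
        linarith
      rw [e2]
      have hne' : (((m / q : ℕ) : ℝ) - ((n / q : ℕ) : ℝ)) ≠ 0 := by
        intro h
        apply hne
        have : ((n / q : ℕ) : ℝ) = ((m / q : ℕ) : ℝ) := by linarith
        exact_mod_cast this
      have e3 : Real.pi ^ 2 * Real.exp 1 ^ 2 * N ^ 2 / (2 * K) *
          (1 / (q * (((m / q : ℕ) : ℝ) - ((n / q : ℕ) : ℝ))) ^ 2) =
          Real.pi ^ 2 * Real.exp 1 ^ 2 * (N / q) ^ 2 / (2 * K) *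
          (1 / (((m / q : ℕ) : ℝ) - ((n / q : ℕ) : ℝ)) ^ 2) := by
        field_simp
      rw [e3]
      have h5 : 0 ≤ N / q := by positivity
      gcongr
      linarith)
  refine h1.trans ?_
  unfold c0
  have h2 : 0 ≤ N / q := by positivity
  have h3 : N / q + 1 + K ≤ 2 * (N / q + K) := by linarith
  calc (6 + Real.pi ^ 2 * Real.exp 1 ^ 2) * (N / q + 1 + K)
      ≤ (6 + Real.pi ^ 2 * Real.exp 1 ^ 2) * (2 * (N / q + K)) := by gcongr
    _ = _ := by ring

/-- mean values over one residue class -/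
lemma mv_class {N : ℝ} {q K : ℕ} (hq : 1 ≤ q) (hK : 1 ≤ K) (hN : 1 ≤ N) (s : Finset ℕ) (a : ℕ → ℂ) (r : ℕ)
    (hsq : ∀ n ∈ s, n % q = r) (hs : ∀ n ∈ s, N ≤ (n : ℝ) ∧ (n : ℝ) ≤ Real.exp 1 * N) :
    ∑ k ∈ FK K, ‖DP s a k‖ ^ 2 ≤ 4 * c0 * (N / q + K) * ∑ n ∈ s, ‖a n‖ ^ 2 := by
  have h1 := to_en hK s a
  obtain ⟨B, hB⟩ : ∃ B : ℝ, B = 2 * c0 * (N / q + K) := ⟨_, rfl⟩
  have h2 : En (2 * K) s a ≤ ∑ m ∈ s, ∑ n ∈ s, ‖a m‖ * ‖a n‖ *
      Fj (2 * K) (Real.log m - Real.log n) := by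
    have hE := En_eq (2 * K) s a
    have h3 : En (2 * K) s a ≤ ‖(En (2 * K) s a : ℂ)‖ := by
      rw [Complex.norm_real, Real.norm_eq_abs]
      exact le_abs_self _
    refine h3.trans ?_
    rw [hE]
    refine (norm_sum_le _ _).trans (Finset.sum_le_sum fun m _ => ?_)
    refine (norm_sum_le _ _).trans (Finset.sum_le_sum fun n _ => ?_)
    rw [norm_mul, norm_mul, RCLike.norm_conj, Complex.norm_real, Real.norm_eq_abs,
      abs_of_nonneg (Fj_nonneg _ _)]
  have hsym : ∀ m n : ℕ, Fj (2 * K) (Real.log m - Real.log n) = Fj (2 * K) (Real.log n - Real.log m) := by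
    intro m n
    unfold Fj
    refine sum_congr rfl fun k _ => ?_
    rw [show (k : ℝ) * (Real.log m - Real.log n) = -(k * (Real.log n - Real.log m)) by ring, Real.cos_neg]
  have hrow : ∀ m ∈ s, ∑ n ∈ s, Fj (2 * K) (Real.log m - Real.log n) ≤ B := by
    intro m hm
    rw [hB]
    exact row_class hq hK hN s (fun n hn => by rw [hsq n hn, hsq m hm]) hs (hs m hm)
  have h3 : ∑ m ∈ s, ∑ n ∈ s, ‖a m‖ * ‖a n‖ * Fj (2 * K) (Real.log m - Real.log n) ≤
      ∑ m ∈ s, ‖a m‖ ^ 2 * B := by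
    have hpt : ∀ m ∈ s, ∀ n ∈ s, ‖a m‖ * ‖a n‖ * Fj (2 * K) (Real.log m - Real.log n) ≤
        ‖a m‖ ^ 2 / 2 * Fj (2 * K) (Real.log m - Real.log n) +
        ‖a n‖ ^ 2 / 2 * Fj (2 * K) (Real.log m - Real.log n) := by
      intro m _ n _
      have h4 := Fj_nonneg (2 * K) (Real.log m - Real.log n)
      have h5 : ‖a m‖ * ‖a n‖ ≤ ‖a m‖ ^ 2 / 2 + ‖a n‖ ^ 2 / 2 := by
        nlinarith [sq_nonneg (‖a m‖ - ‖a n‖)]
      calc ‖a m‖ * ‖a n‖ * Fj (2 * K) (Real.log m - Real.log n)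
          ≤ (‖a m‖ ^ 2 / 2 + ‖a n‖ ^ 2 / 2) * Fj (2 * K) (Real.log m - Real.log n) :=
            mul_le_mul_of_nonneg_right h5 h4
        _ = _ := by ring
    calc ∑ m ∈ s, ∑ n ∈ s, ‖a m‖ * ‖a n‖ * Fj (2 * K) (Real.log m - Real.log n)
        ≤ ∑ m ∈ s, ∑ n ∈ s, (‖a m‖ ^ 2 / 2 * Fj (2 * K) (Real.log m - Real.log n) +
          ‖a n‖ ^ 2 / 2 * Fj (2 * K) (Real.log m - Real.log n)) :=
          Finset.sum_le_sum fun m hm => Finset.sum_le_sum fun n hn => hpt m hm n hn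
      _ = ∑ m ∈ s, ‖a m‖ ^ 2 / 2 * ∑ n ∈ s, Fj (2 * K) (Real.log m - Real.log n) +
          ∑ n ∈ s, ‖a n‖ ^ 2 / 2 * ∑ m ∈ s, Fj (2 * K) (Real.log n - Real.log m) := by
          simp only [Finset.sum_add_distrib, Finset.mul_sum]
          congr 1
          rw [Finset.sum_comm]
          refine sum_congr rfl fun n _ => sum_congr rfl fun m _ => ?_
          rw [hsym]
      _ ≤ ∑ m ∈ s, ‖a m‖ ^ 2 / 2 * B + ∑ n ∈ s, ‖a n‖ ^ 2 / 2 * B := by
          refine add_le_add ?_ ?_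
          · exact Finset.sum_le_sum fun m hm =>
              mul_le_mul_of_nonneg_left (hrow m hm) (by positivity)
          · exact Finset.sum_le_sum fun n hn =>
              mul_le_mul_of_nonneg_left (hrow n hn) (by positivity)
      _ = ∑ m ∈ s, ‖a m‖ ^ 2 * B := by
          rw [← Finset.sum_add_distrib]
          exact Finset.sum_congr rfl fun m _ => by ring
  calc ∑ k ∈ FK K, ‖DP s a k‖ ^ 2 ≤ 2 * En (2 * K) s a := h1
    _ ≤ 2 * ∑ m ∈ s, ‖a m‖ ^ 2 * B := mul_le_mul_of_nonneg_left (h2.trans h3) (by norm_num)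
    _ = _ := by rw [← sum_mul, hB]; ring

lemma ee_zero : Pool.Agent.H807R2.Dav.ee 0 = 1 := by
  have := Pool.Agent.H807R2.Dav.ee_eq' 0
  rw [this]
  simp

/-- from characters to classes -/
lemma orth_s {q : ℕ} [NeZero q] (s : Finset ℕ) (w : ℕ → ℂ) (h1 : ∀ n ∈ s, 1 ≤ n) :
    ∑ χ : DirichletCharacter ℂ q, ‖∑ n ∈ s, w n * χ (n : ZMod q)‖ ^ 2 ≤
      q * ∑ r ∈ range q, ‖∑ n ∈ s.filter (fun n => n % q = r), w n‖ ^ 2 := by
  classical
  obtain ⟨N, hN⟩ : ∃ N, N = s.sup id := ⟨_, rfl⟩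
  have hsN : s ⊆ Icc 1 N := by
    intro n hn
    rw [mem_Icc]
    exact ⟨h1 n hn, by rw [hN]; exact le_sup (f := id) hn⟩
  obtain ⟨F, hF⟩ : ∃ F : ℕ → ℂ, F = fun n => if n ∈ s then w n else 0 := ⟨_, rfl⟩
  have h2 := (Pool.Agent.Y297.GJ.orth q N F 0 ∅).2.2
  have h3 : ∀ χ : DirichletCharacter ℂ q, Pool.Agent.Y883.GJ.cs q N F 0 χ = ∑ n ∈ s, w n * χ (n : ZMod q) := by
    intro χ
    unfold Pool.Agent.Y883.GJ.cs
    rw [← sum_subset hsN (f := fun n : ℕ => F n * χ (n : ZMod q) * Pool.Agent.H807R2.Dav.ee (n * 0))]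
    · refine sum_congr rfl fun n hn => ?_
      rw [hF, mul_zero, ee_zero, mul_one]
      simp only [if_pos hn]
    · intro n _ hn
      rw [hF]
      simp only [if_neg hn, zero_mul]
  have h4 : ∀ l : ZMod q, Pool.Agent.Y883.GJ.cl q N F 0 l = ∑ n ∈ s.filter (fun n => n % q = l.val), w n := by
    intro l
    unfold Pool.Agent.Y883.GJ.cl
    have e : ∀ n : ℕ, ((n : ZMod q) = l ↔ n % q = l.val) := by
      intro n
      constructor
      · intro h
        rw [← h, ZMod.val_natCast]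
      · intro h
        apply ZMod.val_injective q
        rw [ZMod.val_natCast, h]
    have hsub : s.filter (fun n => n % q = l.val) ⊆ (Icc 1 N).filter (fun n : ℕ => (n : ZMod q) = l) := by
      intro n hn
      rw [mem_filter] at hn ⊢
      exact ⟨hsN hn.1, (e n).2 hn.2⟩
    rw [← sum_subset hsub (f := fun n : ℕ => F n * Pool.Agent.H807R2.Dav.ee (n * 0))]
    · refine sum_congr rfl fun n hn => ?_
      rw [mem_filter] at hn
      rw [hF, mul_zero, ee_zero, mul_one]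
      simp only [if_pos hn.1]
    · intro n hn1 hn2
      rw [mem_filter] at hn1 hn2
      have : n ∉ s := fun h => hn2 ⟨h, (e n).1 hn1.2⟩
      rw [hF]
      simp only [if_neg this, zero_mul]
  simp only [h3, h4] at h2
  rw [h2]
  have h5 : ((q.totient : ℕ) : ℝ) ≤ q := by exact_mod_cast Nat.totient_le q
  have h6 : ∑ l ∈ univ.filter (fun l : ZMod q => IsUnit l),
      ‖∑ n ∈ s.filter (fun n => n % q = l.val), w n‖ ^ 2 ≤
      ∑ r ∈ range q, ‖∑ n ∈ s.filter (fun n => n % q = r), w n‖ ^ 2 := by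
    refine (sum_le_sum_of_subset_of_nonneg (subset_univ _) fun _ _ _ => sq_nonneg _).trans ?_
    have h7 : ∑ r ∈ range q, ‖∑ n ∈ s.filter (fun n => n % q = r), w n‖ ^ 2 =
        ∑ r ∈ univ.image (fun l : ZMod q => l.val), ‖∑ n ∈ s.filter (fun n => n % q = r), w n‖ ^ 2 := by
      congr 1
      ext r
      rw [mem_range, mem_image]
      constructor
      · intro hr
        exact ⟨(r : ZMod q), mem_univ _, by rw [ZMod.val_natCast, Nat.mod_eq_of_lt hr]⟩
      · rintro ⟨l, -, rfl⟩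
        exact ZMod.val_lt l
    rw [h7, sum_image fun x _ y _ h => ZMod.val_injective q h]
  have h7 : 0 ≤ ∑ l ∈ univ.filter (fun l : ZMod q => IsUnit l),
      ‖∑ n ∈ s.filter (fun n => n % q = l.val), w n‖ ^ 2 := sum_nonneg fun _ _ => sq_nonneg _
  have h8 : (0 : ℝ) ≤ q := Nat.cast_nonneg q
  calc _ ≤ (q : ℝ) * ∑ l ∈ univ.filter (fun l : ZMod q => IsUnit l),
      ‖∑ n ∈ s.filter (fun n => n % q = l.val), w n‖ ^ 2 := mul_le_mul_of_nonneg_right h5 h7
    _ ≤ _ := mul_le_mul_of_nonneg_left h6 h8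

/-- the number of the elements of a class in a set contained in an interval -/
lemma l2_s {q : ℕ} [NeZero q] (s : Finset ℕ) (w : ℕ → ℂ) (u W : ℕ) (hs : s ⊆ Ioc u (u + W)) :
    ∑ χ : DirichletCharacter ℂ q, ‖∑ n ∈ s, w n * χ (n : ZMod q)‖ ^ 2 ≤
      ((W : ℝ) + q) * ∑ n ∈ s, ‖w n‖ ^ 2 := by
  have hq : 0 < q := Nat.pos_of_ne_zero (NeZero.ne q)
  have hq0 : (0 : ℝ) < q := by exact_mod_cast hq
  refine (orth_s s w (fun n hn => by have := hs hn; rw [mem_Ioc] at this; omega)).trans ?_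
  have h1 : ∀ r ∈ range q, ‖∑ n ∈ s.filter (fun n => n % q = r), w n‖ ^ 2 ≤
      ((W : ℝ) / q + 1) * ∑ n ∈ s.filter (fun n => n % q = r), ‖w n‖ ^ 2 := by
    intro r _
    have h2 : ((s.filter (fun n => n % q = r)).card : ℝ) ≤ (W : ℝ) / q + 1 := by
      have h3 : (s.filter (fun n => n % q = r)).card ≤ W / q + 1 := by
        have h4 : (s.filter (fun n => n % q = r)).card =
            ((s.filter (fun n => n % q = r)).image (fun n => n / q)).card := by
          rw [card_image_of_injOn]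
          intro x hx y hy hxy
          rw [mem_coe, mem_filter] at hx hy
          simp only at hxy
          have h3 := Nat.div_add_mod x q
          have h4 := Nat.div_add_mod y q
          rw [hxy, hx.2, ← hy.2] at h3
          omega
        rw [h4]
        rcases (s.filter (fun n => n % q = r)).eq_empty_or_nonempty with h0 | ⟨x₀, hx₀⟩
        · rw [h0]; simp
        have h5 : ∃ x ∈ s.filter (fun n => n % q = r), ∀ y ∈ s.filter (fun n => n % q = r), x ≤ y :=
          exists_min_image _ id ⟨x₀, hx₀⟩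
        obtain ⟨x, hx, hmin⟩ := h5
        have h6 : (s.filter (fun n => n % q = r)).image (fun n => n / q) ⊆ Icc (x / q) (x / q + W / q) := by
          intro j hj
          rw [mem_image] at hj
          obtain ⟨n, hn, rfl⟩ := hj
          have hxn := hmin n hn
          rw [mem_filter] at hn hx
          have k1 := hs hn.1
          have k2 := hs hx.1
          rw [mem_Ioc] at k1 k2
          rw [mem_Icc]
          refine ⟨Nat.div_le_div_right hxn, ?_⟩
          have k3 : n - x ≤ W := by omega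
          have k4 : n = x + (n - x) := by omega
          have k5 : q ∣ n - x := by
            have : n % q = x % q := by rw [hn.2, hx.2]
            exact (Nat.modEq_iff_dvd' hxn).1 this.symm
          obtain ⟨t, ht⟩ := k5
          have k6 : t ≤ W / q := by
            rw [Nat.le_div_iff_mul_le hq]
            calc t * q = q * t := Nat.mul_comm _ _
              _ = n - x := ht.symm
              _ ≤ W := k3
          have k7 : n / q = x / q + t := by
            rw [k4, ht, Nat.add_mul_div_left _ _ hq]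
          omega
        refine (card_le_card h6).trans ?_
        rw [Nat.card_Icc]
        generalize x / q = A₁
        generalize W / q = A₂
        omega
      calc ((s.filter (fun n => n % q = r)).card : ℝ) ≤ ((W / q + 1 : ℕ) : ℝ) := by exact_mod_cast h3
        _ = ((W / q : ℕ) : ℝ) + 1 := by push_cast; ring
        _ ≤ (W : ℝ) / q + 1 := by
            have := @Nat.cast_div_le ℝ _ _ _ W q
            linarith
    have h3 : ‖∑ n ∈ s.filter (fun n => n % q = r), w n‖ ^ 2 ≤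
        (s.filter (fun n => n % q = r)).card * ∑ n ∈ s.filter (fun n => n % q = r), ‖w n‖ ^ 2 :=
      (pow_le_pow_left₀ (norm_nonneg _) (norm_sum_le _ _) 2).trans sq_sum_le_card_mul_sum_sq
    exact h3.trans (mul_le_mul_of_nonneg_right h2 (sum_nonneg fun _ _ => sq_nonneg _))
  have h2 : ∑ r ∈ range q, ∑ n ∈ s.filter (fun n => n % q = r), ‖w n‖ ^ 2 = ∑ n ∈ s, ‖w n‖ ^ 2 :=
    sum_fiberwise_of_maps_to (fun n _ => mem_range.2 (Nat.mod_lt _ hq)) _
  calc (q : ℝ) * ∑ r ∈ range q, ‖∑ n ∈ s.filter (fun n => n % q = r), w n‖ ^ 2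
      ≤ q * ∑ r ∈ range q, ((W : ℝ) / q + 1) * ∑ n ∈ s.filter (fun n => n % q = r), ‖w n‖ ^ 2 := by
        gcongr with r hr
        exact h1 r hr
    _ = ((W : ℝ) + q) * ∑ n ∈ s, ‖w n‖ ^ 2 := by
        rw [← mul_sum, h2]
        field_simp

/-- the large sieve, short range -/
lemma hls_local {N : ℝ} {q K : ℕ} [NeZero q] (hK : 1 ≤ K) (hN : 1 ≤ N) (s : Finset ℕ) (a : ℕ → ℂ)
    (hs : ∀ n ∈ s, N ≤ (n : ℝ) ∧ (n : ℝ) ≤ Real.exp 1 * N) :
    ∑ χ : DirichletCharacter ℂ q, ∑ k ∈ FK K, ‖DP s (fun n => a n * χ (n : ZMod q)) k‖ ^ 2 ≤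
      4 * c0 * (N + q * K) * ∑ n ∈ s, ‖a n‖ ^ 2 := by
  have hq : 0 < q := Nat.pos_of_ne_zero (NeZero.ne q)
  have hq0 : (0 : ℝ) < q := by exact_mod_cast hq
  rw [sum_comm]
  have h0 : ∀ n ∈ s, 1 ≤ n := by
    intro n hn
    have := (hs n hn).1
    have h1 : (1 : ℝ) ≤ n := by linarith
    exact_mod_cast h1
  have h1 : ∀ k ∈ FK K, ∑ χ : DirichletCharacter ℂ q, ‖DP s (fun n => a n * χ (n : ZMod q)) k‖ ^ 2 ≤
      q * ∑ r ∈ range q, ‖DP (s.filter (fun n => n % q = r)) a k‖ ^ 2 := by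
    intro k _
    refine le_trans (le_of_eq ?_) (orth_s s (fun n => a n * ch k (Real.log n)) h0)
    refine sum_congr rfl fun χ _ => ?_
    unfold DP
    congr 2
    refine sum_congr rfl fun n _ => ?_
    ring
  have h2 : ∀ r ∈ range q, ∑ k ∈ FK K, ‖DP (s.filter (fun n => n % q = r)) a k‖ ^ 2 ≤
      4 * c0 * (N / q + K) * ∑ n ∈ s.filter (fun n => n % q = r), ‖a n‖ ^ 2 := by
    intro r _
    exact mv_class hq hK hN _ a r (fun n hn => (mem_filter.1 hn).2) (fun n hn => hs n (mem_filter.1 hn).1)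
  have h3 : ∑ r ∈ range q, ∑ n ∈ s.filter (fun n => n % q = r), ‖a n‖ ^ 2 = ∑ n ∈ s, ‖a n‖ ^ 2 :=
    sum_fiberwise_of_maps_to (fun n _ => mem_range.2 (Nat.mod_lt _ hq)) _
  calc ∑ k ∈ FK K, ∑ χ : DirichletCharacter ℂ q, ‖DP s (fun n => a n * χ (n : ZMod q)) k‖ ^ 2
      ≤ ∑ k ∈ FK K, q * ∑ r ∈ range q, ‖DP (s.filter (fun n => n % q = r)) a k‖ ^ 2 := sum_le_sum h1
    _ = q * ∑ r ∈ range q, ∑ k ∈ FK K, ‖DP (s.filter (fun n => n % q = r)) a k‖ ^ 2 := by
        rw [← mul_sum, sum_comm]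
    _ ≤ q * ∑ r ∈ range q, 4 * c0 * (N / q + K) * ∑ n ∈ s.filter (fun n => n % q = r), ‖a n‖ ^ 2 := by
        gcongr with r hr
        exact h2 r hr
    _ = 4 * c0 * (N + q * K) * ∑ n ∈ s, ‖a n‖ ^ 2 := by
        rw [← mul_sum, h3]
        field_simp

/-- the large sieve -/
theorem hls {q K : ℕ} [NeZero q] (hK : 1 ≤ K) (g X : ℕ) (hX : 1 ≤ X) (s : Finset ℕ) (a : ℕ → ℂ)
    (hs : ∀ n ∈ s, X ≤ n ∧ n ≤ 2 ^ g * X) :
    ∑ χ : DirichletCharacter ℂ q, ∑ k ∈ FK K, ‖DP s (fun n => a n * χ (n : ZMod q)) k‖ ^ 2 ≤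
      (g + 1) * (4 * c0 * (2 ^ g * X + q * K)) * ∑ n ∈ s, ‖a n‖ ^ 2 := by
  classical
  have hX0 : (1 : ℝ) ≤ X := by exact_mod_cast hX
  -- the dyadic pieces
  obtain ⟨ix, hix⟩ : ∃ ix : ℕ → ℕ, ix = fun n => Nat.log 2 (n / X) := ⟨_, rfl⟩
  have hmap : ∀ n ∈ s, ix n ∈ range (g + 1) := by
    intro n hn
    rw [mem_range, hix, Nat.lt_succ_iff]
    have h1 : n / X ≤ 2 ^ g := by
      rw [Nat.div_le_iff_le_mul_add_pred hX]
      have := (hs n hn).2
      nlinarith [this, Nat.zero_le (X - 1)]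
    calc Nat.log 2 (n / X) ≤ Nat.log 2 (2 ^ g) := Nat.log_mono_right h1
      _ = g := Nat.log_pow (by norm_num) g
  have hloc : ∀ j ∈ range (g + 1), ∑ χ : DirichletCharacter ℂ q, ∑ k ∈ FK K,
      ‖DP (s.filter (fun n => ix n = j)) (fun n => a n * χ (n : ZMod q)) k‖ ^ 2 ≤
      4 * c0 * (2 ^ g * X + q * K) * ∑ n ∈ s.filter (fun n => ix n = j), ‖a n‖ ^ 2 := by
    intro j hj
    rw [mem_range, Nat.lt_succ_iff] at hj
    have h1 := hls_local (q := q) (N := 2 ^ j * X) hK (by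
        have : (1 : ℝ) ≤ 2 ^ j := one_le_pow₀ (by norm_num)
        nlinarith) (s.filter (fun n => ix n = j)) a (by
      intro n hn
      rw [mem_filter] at hn
      have hn1 := (hs n hn.1).1
      have hnX : n / X ≠ 0 := (Nat.div_pos hn1 hX).ne'
      have h2 : 2 ^ j ≤ n / X := by
        rw [← hn.2, hix]
        exact Nat.pow_log_le_self 2 hnX
      have h3 : n / X < 2 ^ (j + 1) := by
        rw [← hn.2, hix]
        exact Nat.lt_pow_succ_log_self (by norm_num) _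
      have h4 : 2 ^ j * X ≤ n := by
        calc 2 ^ j * X ≤ n / X * X := Nat.mul_le_mul_right _ h2
          _ ≤ n := Nat.div_mul_le_self n X
      have h5 : n < 2 ^ (j + 1) * X := (Nat.div_lt_iff_lt_mul hX).1 h3
      constructor
      · exact_mod_cast h4
      · have h6 : (n : ℝ) ≤ 2 * (2 ^ j * X) := by
          have : (n : ℝ) < 2 ^ (j + 1) * X := by exact_mod_cast h5
          rw [pow_succ] at this
          linarith
        have h7 : (2 : ℝ) ≤ Real.exp 1 := by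
          have := Real.add_one_le_exp (1 : ℝ)
          linarith
        have h8 : (0 : ℝ) ≤ 2 ^ j * X := by positivity
        nlinarith)
    refine h1.trans ?_
    have h2 : ((2 : ℝ) ^ j) ≤ 2 ^ g := pow_le_pow_right₀ (by norm_num) hj
    have hc := c0_pos
    have h3 : 0 ≤ ∑ n ∈ s.filter (fun n => ix n = j), ‖a n‖ ^ 2 := sum_nonneg fun _ _ => sq_nonneg _
    gcongr
  have hDP : ∀ (χ : DirichletCharacter ℂ q) (k : ℤ), ‖DP s (fun n => a n * χ (n : ZMod q)) k‖ ^ 2 ≤
      (g + 1) * ∑ j ∈ range (g + 1), ‖DP (s.filter (fun n => ix n = j)) (fun n => a n * χ (n : ZMod q)) k‖ ^ 2 := by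
    intro χ k
    have h1 : DP s (fun n => a n * χ (n : ZMod q)) k = ∑ j ∈ range (g + 1),
        DP (s.filter (fun n => ix n = j)) (fun n => a n * χ (n : ZMod q)) k := by
      unfold DP
      exact (sum_fiberwise_of_maps_to hmap _).symm
    rw [h1]
    have h2 := sq_sum_le_card_mul_sum_sq (s := range (g + 1))
      (f := fun j => ‖DP (s.filter (fun n => ix n = j)) (fun n => a n * χ (n : ZMod q)) k‖)
    rw [card_range] at h2
    push_cast at h2
    exact (pow_le_pow_left₀ (norm_nonneg _) (norm_sum_le _ _) 2).trans h2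
  calc ∑ χ : DirichletCharacter ℂ q, ∑ k ∈ FK K, ‖DP s (fun n => a n * χ (n : ZMod q)) k‖ ^ 2
      ≤ ∑ χ : DirichletCharacter ℂ q, ∑ k ∈ FK K, ((g : ℝ) + 1) * ∑ j ∈ range (g + 1),
        ‖DP (s.filter (fun n => ix n = j)) (fun n => a n * χ (n : ZMod q)) k‖ ^ 2 :=
        sum_le_sum fun χ _ => sum_le_sum fun k _ => hDP χ k
    _ = (g + 1) * ∑ j ∈ range (g + 1), ∑ χ : DirichletCharacter ℂ q, ∑ k ∈ FK K,
        ‖DP (s.filter (fun n => ix n = j)) (fun n => a n * χ (n : ZMod q)) k‖ ^ 2 := by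
        simp_rw [← mul_sum]
        congr 1
        rw [sum_comm (s := range (g + 1))]
        exact sum_congr rfl fun χ _ => sum_comm
    _ ≤ (g + 1) * ∑ j ∈ range (g + 1), 4 * c0 * (2 ^ g * X + q * K) *
        ∑ n ∈ s.filter (fun n => ix n = j), ‖a n‖ ^ 2 := by
        gcongr with j hj
        exact hloc j hj
    _ = _ := by
        rw [← mul_sum, sum_fiberwise_of_maps_to hmap]
        ring

end Pool.Agent.H567.HW
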