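import Pool.Agent.H567.HW.BlockG
import Pool.Graph.R_seed8.Y883.T4.Gold

/-!
Project HW (helper567), part 52: the theorem with weights, for an abstract class of residues.
-/

set_option autoImplicit false

namespace Pool.Agent.H567.HW

open Finset
open Pool.Agent.Y614.GJ.Core (ev_log)

/-- the property `Ad` at all the scales between the square root of `x` and `x` -/
def AdX (Ad : ℕ → ℕ → ℕ → Prop) (x q a : ℕ) : Prop :=
  ∀ Y : ℕ, (x : ℝ) ^ (1 / 2 : ℝ) ≤ Y → Y ≤ x → (∃ k : ℕ, Y = 2 ^ k ∨ Y = 3 * 2 ^ k / 4) → Ad Y q a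

/-- the theorem with weights, statement; `24 P ≤ n` -/
def HybStm (Ad : ℕ → ℕ → ℕ → Prop) (A : ℕ) (ρ : ℝ) : Prop := ∃ x₀ : ℕ, ∀ x : ℕ, x₀ ≤ x → ∀ q : ℕ, 1 ≤ q → ∀ a : ℕ,
    Ad x q a → ∃ Bad : Finset ℕ, (Bad.card : ℝ) ≤ x / (q * Real.log x ^ A) ∧
      (∀ n ∈ Bad, n % q = a % q) ∧
      ∀ n : ℕ, n ≤ x → n ∉ Bad → n % q = a % q → 2 ∣ n → ∀ P : ℕ, (q : ℝ) * (x : ℝ) ^ (1 / 3 + ρ) ≤ P →
        24 * P ≤ n → |SR n P - P * SS n| ≤ P / Real.log x ^ A

/-- the theorem with weights -/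
theorem hybrid_of (Ad : ℕ → ℕ → ℕ → Prop) (A : ℕ) {ρ : ℝ} (hρ : 0 < ρ) (hblock : BlockStm Ad (A + 3) ρ) :
    HybStm (AdX Ad) A ρ := by
  classical
  obtain ⟨Y₀, hY₀⟩ := hblock
  obtain ⟨x₁, hx₁⟩ := Filter.eventually_atTop.1 (ev_log (A + 3) (s := 1 / 4) (by norm_num)
    (2 ^ (A + 8)))
  refine ⟨max x₁ ((4 * Y₀ + 4) ^ 2 + 1), fun x hx q hq a hAd => ?_⟩
  obtain ⟨hLb, hLp⟩ := hx₁ x (le_trans (le_max_left _ _) hx)
  have hxY : (4 * Y₀ + 4) ^ 2 + 1 ≤ x := le_trans (le_max_right _ _) hx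
  obtain ⟨L, hLd⟩ : ∃ L, L = Real.log x := ⟨_, rfl⟩
  rw [← hLd] at hLb hLp ⊢
  have hLA : 2 ^ (A + 8) ≤ L := hLb
  have hL256 : 256 ≤ L := by
    calc (256 : ℝ) = 2 ^ 8 := by norm_num
      _ ≤ 2 ^ (A + 8) := pow_le_pow_right₀ (by norm_num) (by omega)
      _ ≤ L := hLA
  have hL0 : 0 < L := by linarith
  have hL1 : 1 ≤ L := by linarith
  have hx1 : 1 ≤ x := by omega
  have hx0 : (0 : ℝ) < x := by exact_mod_cast hx1
  have hxr1 : (1 : ℝ) ≤ x := by exact_mod_cast hx1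
  have hq0 : (0 : ℝ) < q := by exact_mod_cast hq
  have hq1 : (1 : ℝ) ≤ q := by exact_mod_cast hq
  by_cases hqx : (x : ℝ) < q * (x : ℝ) ^ (1 / 3 : ℝ)
  · -- no length is possible
    refine ⟨∅, ?_, ?_, ?_⟩
    · rw [card_empty, Nat.cast_zero]
      positivity
    · intro n hn
      exact absurd hn (notMem_empty n)
    · intro n hn _ _ _ P hP hPn
      exfalso
      have h1 : (P : ℝ) ≤ x := by
        have : P ≤ x := by omega
        exact_mod_cast this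
      have h2 : (q : ℝ) * (x : ℝ) ^ (1 / 3 : ℝ) ≤ q * (x : ℝ) ^ (1 / 3 + ρ) := by
        have : (x : ℝ) ^ (1 / 3 : ℝ) ≤ (x : ℝ) ^ (1 / 3 + ρ) :=
          Real.rpow_le_rpow_of_exponent_le hxr1 (by linarith)
        gcongr
      linarith
  push Not at hqx
  -- the bad sets of the blocks
  have hex : ∀ Y : ℕ, ∃ Bad : Finset ℕ, (x : ℝ) ≤ (4 * L ^ (A + 2)) * Y → Y ≤ x →
      (∃ k : ℕ, Y = 2 ^ k ∨ Y = 3 * 2 ^ k / 4) →
      (Bad.card : ℝ) ≤ x / (q * L ^ (A + 2)) * (1 / 8) ∧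
      ∀ n : ℕ, n ∉ Bad → n % q = a % q → 2 ∣ n → n ≤ 2 * Y → ∀ P : ℕ, (q : ℝ) * (x : ℝ) ^ (1 / 3 + ρ) ≤ P →
        Y + 2 * P ≤ n → |SR n P - P * SS n| ≤ P / L ^ A := by
    intro Y
    by_cases hY : (x : ℝ) ≤ (4 * L ^ (A + 2)) * Y ∧ Y ≤ x ∧ (∃ k : ℕ, Y = 2 ^ k ∨ Y = 3 * 2 ^ k / 4)
    swap
    · exact ⟨∅, fun h1 h2 h3 => absurd ⟨h1, h2, h3⟩ hY⟩
    obtain ⟨hY1, hY2, hYk⟩ := hY
    have hYr : (Y : ℝ) ≤ x := by exact_mod_cast hY2
    have h4L : 4 * L ^ (A + 2) ≤ (x : ℝ) ^ (1 / 4 : ℝ) := by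
      refine le_trans ?_ hLp
      calc 4 * L ^ (A + 2) ≤ L * L ^ (A + 2) := by
            apply mul_le_mul_of_nonneg_right (by linarith) (by positivity)
        _ = L ^ (A + 3) := by ring
    have hxY2 : (x : ℝ) ^ (1 / 2 : ℝ) ≤ Y := by
      have h1 : (x : ℝ) ≤ (x : ℝ) ^ (1 / 4 : ℝ) * Y := by
        refine hY1.trans ?_
        gcongr
      have h2 : (x : ℝ) = (x : ℝ) ^ (1 / 4 : ℝ) * (x : ℝ) ^ (3 / 4 : ℝ) := by
        rw [← Real.rpow_add hx0]
        norm_num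
      have h3 : (x : ℝ) ^ (3 / 4 : ℝ) ≤ Y := by
        have h4 : (x : ℝ) ^ (1 / 4 : ℝ) * (x : ℝ) ^ (3 / 4 : ℝ) ≤ (x : ℝ) ^ (1 / 4 : ℝ) * Y := by
          rw [← h2]
          exact h1
        exact le_of_mul_le_mul_left h4 (by positivity)
      refine le_trans ?_ h3
      exact Real.rpow_le_rpow_of_exponent_le hxr1 (by norm_num)
    have hYY₀ : Y₀ ≤ Y := by
      have h1 : ((4 * Y₀ + 4 : ℕ) : ℝ) ≤ Y := by
        calc ((4 * Y₀ + 4 : ℕ) : ℝ) = (((4 * Y₀ + 4 : ℕ) : ℝ) ^ (2 : ℕ)) ^ (1 / 2 : ℝ) := by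
              rw [← Real.rpow_natCast, ← Real.rpow_mul (Nat.cast_nonneg _)]
              norm_num
          _ ≤ (x : ℝ) ^ (1 / 2 : ℝ) := by
              apply Real.rpow_le_rpow (by positivity) _ (by norm_num)
              have : (4 * Y₀ + 4) ^ 2 ≤ x := by omega
              exact_mod_cast this
          _ ≤ Y := hxY2
      have h2 : 4 * Y₀ + 4 ≤ Y := by exact_mod_cast h1
      omega
    have hY0 : (0 : ℝ) < Y := lt_of_lt_of_le (by positivity) hxY2
    have hlogY : L ≤ 2 * Real.log Y := by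
      have h1 := Real.log_le_log (by positivity) hxY2
      rw [Real.log_rpow hx0, ← hLd] at h1
      linarith
    have hlogY2 : Real.log Y ≤ L := by
      rw [hLd]
      exact Real.log_le_log hY0 hYr
    have hlY0 : 0 < Real.log Y := by linarith
    obtain ⟨Bad, hb1, hb2⟩ := hY₀ Y hYY₀ q hq a (hAd Y hxY2 hY2 hYk)
    have hpow : L ^ (A + 3) ≤ 2 ^ (A + 3) * Real.log Y ^ (A + 3) := by
      rw [← mul_pow]
      exact pow_le_pow_left₀ hL0.le hlogY _
    have hpow2 : L ^ (A + 2) * 32 ≤ Real.log Y ^ (A + 3) := by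
      have h1 : (2 : ℝ) ^ (A + 8) * L ^ (A + 2) ≤ L * L ^ (A + 2) := by
        apply mul_le_mul_of_nonneg_right hLA (by positivity)
      have h2 : (2 : ℝ) ^ (A + 8) = 2 ^ (A + 3) * 32 := by rw [show A + 8 = (A + 3) + 5 by ring, pow_add]; norm_num
      have h3 : L * L ^ (A + 2) = L ^ (A + 3) := by ring
      rw [h2, h3] at h1
      have h4 : (0 : ℝ) < 2 ^ (A + 3) := by positivity
      have h5 : (2 : ℝ) ^ (A + 3) * (L ^ (A + 2) * 32) ≤ 2 ^ (A + 3) * Real.log Y ^ (A + 3) := by linarith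
      exact le_of_mul_le_mul_left h5 h4
    refine ⟨Bad, fun _ _ _ => ⟨?_, ?_⟩⟩
    · refine hb1.trans ?_
      calc (Y : ℝ) / (q * Real.log Y ^ (A + 3)) ≤ x / (q * (L ^ (A + 2) * 32)) := by
            gcongr
        _ = x / (q * L ^ (A + 2)) * (1 / 32) := by field_simp
        _ ≤ _ := by
            apply mul_le_mul_of_nonneg_left (by norm_num) (by positivity)
    · intro n hn hmod h2n hn2 P hP hPn
      have hP' : (q : ℝ) * (Y : ℝ) ^ (1 / 3 + ρ) ≤ P := by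
        refine le_trans ?_ hP
        have : (Y : ℝ) ^ (1 / 3 + ρ) ≤ (x : ℝ) ^ (1 / 3 + ρ) := Real.rpow_le_rpow hY0.le hYr (by positivity)
        gcongr
      refine (hb2 n hn hmod h2n hn2 P hP' hPn).trans ?_
      apply div_le_div_of_nonneg_left (Nat.cast_nonneg _) (by positivity)
      have h1 : L ^ A ≤ L ^ (A + 2) * 32 := by
        have h2 : L ^ A ≤ L ^ (A + 2) := pow_le_pow_right₀ hL1 (by omega)
        have h3 : 0 < L ^ (A + 2) := by positivity
        linarith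
      exact h1.trans hpow2
  choose bad hbad using hex
  obtain ⟨I, hI⟩ : ∃ I : Finset ℕ, I = (range (Nat.log 2 x + 1)).filter (fun k => (x : ℝ) ≤ (2 * L ^ (A + 2)) * 2 ^ k) :=
    ⟨_, rfl⟩
  obtain ⟨Sm, hSm⟩ : ∃ Sm : Finset ℕ, Sm = (Icc 1 ⌊(x : ℝ) / L ^ (A + 2)⌋₊).filter (fun n => n % q = a % q) := ⟨_, rfl⟩
  obtain ⟨Bad, hBad⟩ : ∃ Bad : Finset ℕ, Bad = (Sm ∪ (I.biUnion (fun k => bad (2 ^ k)) ∪
    I.biUnion (fun k => bad (3 * 2 ^ k / 4)))).filter (fun n => n % q = a % q) := ⟨_, rfl⟩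
  have hIr : ∀ k ∈ I, ((x : ℝ) ≤ (4 * L ^ (A + 2)) * ((2 ^ k : ℕ) : ℝ) ∧ 2 ^ k ≤ x) ∧
      ((x : ℝ) ≤ (4 * L ^ (A + 2)) * ((3 * 2 ^ k / 4 : ℕ) : ℝ) ∧ 3 * 2 ^ k / 4 ≤ x) := by
    intro k hk
    rw [hI, mem_filter, mem_range] at hk
    obtain ⟨hk1, hk2⟩ := hk
    have h1 : 2 ^ k ≤ x := by
      calc 2 ^ k ≤ 2 ^ Nat.log 2 x := Nat.pow_le_pow_right (by norm_num) (by omega)
        _ ≤ x := Nat.pow_log_le_self 2 (by omega)
    have h2 : 0 < L ^ (A + 2) := by positivity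
    have h2k : (0 : ℝ) < 2 ^ k := by positivity
    refine ⟨⟨?_, h1⟩, ?_, by omega⟩
    · push_cast
      nlinarith
    · -- `2 ^ k` is large
      have h3 : 4 ≤ 2 ^ k := by
        by_contra hcon
        push Not at hcon
        have h4 : ((2 ^ k : ℕ) : ℝ) < 4 := by exact_mod_cast hcon
        push_cast at h4
        have h5 : (x : ℝ) ≤ 8 * L ^ (A + 2) := by nlinarith
        have h6 : 8 * L ^ (A + 2) ≤ (x : ℝ) ^ (1 / 4 : ℝ) := by
          refine le_trans ?_ hLp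
          calc 8 * L ^ (A + 2) ≤ L * L ^ (A + 2) := by
                apply mul_le_mul_of_nonneg_right (by linarith) (by positivity)
            _ = L ^ (A + 3) := by ring
        have h7 : (x : ℝ) ^ (1 / 4 : ℝ) < x := by
          calc (x : ℝ) ^ (1 / 4 : ℝ) < (x : ℝ) ^ (1 : ℝ) := by
                apply Real.rpow_lt_rpow_of_exponent_lt _ (by norm_num)
                by_contra hc
                push Not at hc
                have := Real.log_nonpos hx0.le hc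
                linarith
            _ = x := Real.rpow_one _
        linarith
      have h4 : 2 ^ k ≤ 2 * (3 * 2 ^ k / 4) := by omega
      have h5 : ((2 ^ k : ℕ) : ℝ) ≤ 2 * ((3 * 2 ^ k / 4 : ℕ) : ℝ) := by exact_mod_cast h4
      push_cast at h5 ⊢
      nlinarith
  refine ⟨Bad, ?_, ?_, ?_⟩
  · -- the number of the exceptions
    have h1 : (Bad.card : ℝ) ≤ Sm.card + (∑ k ∈ I, ((bad (2 ^ k)).card : ℝ) + ∑ k ∈ I, ((bad (3 * 2 ^ k / 4)).card : ℝ)) := by
      have : Bad.card ≤ Sm.card + (∑ k ∈ I, (bad (2 ^ k)).card + ∑ k ∈ I, (bad (3 * 2 ^ k / 4)).card) := by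
        rw [hBad]
        refine (card_filter_le _ _).trans ((card_union_le _ _).trans (Nat.add_le_add_left ?_ _))
        exact (card_union_le _ _).trans (Nat.add_le_add card_biUnion_le card_biUnion_le)
      exact_mod_cast this
    have hq2 : L ^ (A + 3) * q ≤ x := by
      have h2 : (q : ℝ) * (x : ℝ) ^ (1 / 4 : ℝ) ≤ q * (x : ℝ) ^ (1 / 3 : ℝ) := by
        have : (x : ℝ) ^ (1 / 4 : ℝ) ≤ (x : ℝ) ^ (1 / 3 : ℝ) := Real.rpow_le_rpow_of_exponent_le hxr1 (by norm_num)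
        gcongr
      have h3 : (q : ℝ) * L ^ (A + 3) ≤ q * (x : ℝ) ^ (1 / 4 : ℝ) := by gcongr
      linarith
    have hSmc : (Sm.card : ℝ) ≤ x / (q * L ^ A) * (1 / 4) := by
      have h2 : (Sm.card : ℝ) ≤ (x / L ^ (A + 2)) / q + 1 := by
        have := Pool.Agent.Y883.T4.class_le ⌊(x : ℝ) / L ^ (A + 2)⌋₊ q a hq Sm (x / L ^ (A + 2)) (by positivity)
          (fun n hn => by
            rw [hSm, mem_filter, mem_Icc] at hn
            refine ⟨hn.2, ?_⟩
            exact (Nat.le_floor_iff (by positivity)).1 hn.1.2)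
        exact this
      have h3 : (1 : ℝ) ≤ x / (q * L ^ (A + 3)) := by
        rw [le_div_iff₀ (by positivity), one_mul]
        linarith
      have h4 : (x / L ^ (A + 2)) / q = x / (q * L ^ A) * (1 / L ^ 2) := by
        rw [pow_add]
        field_simp
      have h5 : (x : ℝ) / (q * L ^ (A + 3)) = x / (q * L ^ A) * (1 / L ^ 3) := by
        rw [pow_add]
        field_simp
      have h6 : 0 ≤ (x : ℝ) / (q * L ^ A) := by positivity
      have h7 : 1 / L ^ 2 + 1 / L ^ 3 ≤ 1 / 4 := by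
        have h8 : 1 / L ^ 2 ≤ 1 / 8 := by
          rw [div_le_div_iff₀ (by positivity) (by norm_num)]
          nlinarith
        have h9 : 1 / L ^ 3 ≤ 1 / 8 := by
          rw [div_le_div_iff₀ (by positivity) (by norm_num)]
          have : L ≤ L ^ 3 := by
            calc L = L ^ 1 := (pow_one _).symm
              _ ≤ L ^ 3 := pow_le_pow_right₀ hL1 (by norm_num)
          linarith
        linarith
      calc (Sm.card : ℝ) ≤ (x / L ^ (A + 2)) / q + 1 := h2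
        _ ≤ x / (q * L ^ A) * (1 / L ^ 2) + x / (q * L ^ A) * (1 / L ^ 3) := by rw [h4, ← h5]; linarith
        _ = x / (q * L ^ A) * (1 / L ^ 2 + 1 / L ^ 3) := by ring
        _ ≤ _ := mul_le_mul_of_nonneg_left h7 h6
    have hIc : (I.card : ℝ) ≤ 3 * L := by
      have h2 : I.card ≤ Nat.log 2 x + 1 := by
        rw [hI]
        refine (card_filter_le _ _).trans ?_
        rw [card_range]
      have h3 : (Nat.log 2 x : ℝ) ≤ 2 * L := by
        have h1 : 2 ^ Nat.log 2 x ≤ x := Nat.pow_log_le_self 2 (by omega)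
        have h2 : (2 : ℝ) ^ Nat.log 2 x ≤ x := by exact_mod_cast h1
        have h3 := Real.log_le_log (by positivity) h2
        rw [Real.log_pow, ← hLd] at h3
        have h4 := Real.log_two_gt_d9
        have h5 : (0 : ℝ) ≤ (Nat.log 2 x : ℝ) := Nat.cast_nonneg _
        nlinarith
      have h4 : (I.card : ℝ) ≤ Nat.log 2 x + 1 := by exact_mod_cast h2
      linarith
    have hR0 : 0 ≤ (x : ℝ) / (q * L ^ (A + 2)) * (1 / 8) := by positivity
    have h2 : ∑ k ∈ I, ((bad (2 ^ k)).card : ℝ) ≤ 3 * L * (x / (q * L ^ (A + 2)) * (1 / 8)) := by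
      refine (sum_le_sum (g := fun _ => (x : ℝ) / (q * L ^ (A + 2)) * (1 / 8)) fun k hk => ?_).trans ?_
      · obtain ⟨⟨k1, k2⟩, -⟩ := hIr k hk
        exact (hbad (2 ^ k) k1 k2 ⟨k, Or.inl rfl⟩).1
      · rw [sum_const, nsmul_eq_mul]
        gcongr
    have h3 : ∑ k ∈ I, ((bad (3 * 2 ^ k / 4)).card : ℝ) ≤ 3 * L * (x / (q * L ^ (A + 2)) * (1 / 8)) := by
      refine (sum_le_sum (g := fun _ => (x : ℝ) / (q * L ^ (A + 2)) * (1 / 8)) fun k hk => ?_).trans ?_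
      · obtain ⟨-, k1, k2⟩ := hIr k hk
        exact (hbad (3 * 2 ^ k / 4) k1 k2 ⟨k, Or.inr rfl⟩).1
      · rw [sum_const, nsmul_eq_mul]
        gcongr
    have h4 : 3 * L * (x / (q * L ^ (A + 2)) * (1 / 8)) ≤ x / (q * L ^ A) * (3 / 8) := by
      calc 3 * L * ((x : ℝ) / (q * L ^ (A + 2)) * (1 / 8)) = x / (q * L ^ A) * (3 / 8) * (1 / L) := by
            rw [pow_add]
            field_simp
        _ ≤ x / (q * L ^ A) * (3 / 8) * 1 := by
            have : 1 / L ≤ 1 := by rw [div_le_one hL0]; exact hL1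
            gcongr
        _ = _ := mul_one _
    have h5 : 0 ≤ (x : ℝ) / (q * L ^ A) := by positivity
    linarith
  · intro n hn
    rw [hBad, mem_filter] at hn
    exact hn.2
  · intro n hnx hn hmod h2n P hP hPn
    have hxp : 1 ≤ (x : ℝ) ^ (1 / 3 + ρ) := Real.one_le_rpow hxr1 (by linarith)
    have hPr1 : (1 : ℝ) ≤ P := by
      refine le_trans ?_ hP
      nlinarith
    have hP1 : 1 ≤ P := by exact_mod_cast hPr1
    have hn24 : 24 ≤ n := by omega
    have hnS : n ∉ Sm ∧ (∀ k ∈ I, n ∉ bad (2 ^ k)) ∧ (∀ k ∈ I, n ∉ bad (3 * 2 ^ k / 4)) := by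
      rw [hBad, mem_filter] at hn
      simp only [mem_union, mem_biUnion, not_and, not_or, not_exists] at hn
      by_contra hcon
      apply hn _ hmod
      by_contra hcon2
      apply hcon
      simp only [not_or, not_exists, not_and] at hcon2
      exact hcon2
    obtain ⟨hn1, hn2, hn3⟩ := hnS
    have hnbig : (x : ℝ) / L ^ (A + 2) < n := by
      by_contra hcon
      push Not at hcon
      apply hn1
      rw [hSm, mem_filter, mem_Icc]
      exact ⟨⟨by omega, Nat.le_floor hcon⟩, hmod⟩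
    obtain ⟨k, hk⟩ : ∃ k, k = Nat.log 2 n := ⟨_, rfl⟩
    have hk1 : 2 ^ k ≤ n := by rw [hk]; exact Nat.pow_log_le_self 2 (by omega)
    have hk2 : n < 2 * 2 ^ k := by
      have := Nat.lt_pow_succ_log_self (b := 2) (by norm_num) n
      rw [← hk, pow_succ] at this
      omega
    have hkI : k ∈ I := by
      rw [hI, mem_filter, mem_range]
      refine ⟨?_, ?_⟩
      · rw [hk]
        exact Nat.lt_succ_of_le (Nat.log_mono_right hnx)
      · rw [div_lt_iff₀ (by positivity)] at hnbig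
        have h1 : (n : ℝ) ≤ 2 * 2 ^ k := by exact_mod_cast hk2.le
        have h2 : 0 < L ^ (A + 2) := by positivity
        nlinarith
    obtain ⟨⟨k1, k2⟩, k3, k4⟩ := hIr k hkI
    by_cases hcase : 12 * 2 ^ k ≤ 11 * n
    · exact (hbad (2 ^ k) k1 k2 ⟨k, Or.inl rfl⟩).2 n (hn2 k hkI) hmod h2n (by omega) P hP (by omega)
    · exact (hbad (3 * 2 ^ k / 4) k3 k4 ⟨k, Or.inr rfl⟩).2 n (hn3 k hkI) hmod h2n (by omega) P hP (by omega)

end Pool.Agent.H567.HW
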