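import Pool.Agent.H567.HW.BlockG
import Pool.Graph.R_seed8.R460.GH.Asm

/-!
Project HW (helper567), part 27: long first summands.
-/

set_option autoImplicit false

namespace Pool.Agent.H567.HW

open Finset
open Pool.Agent.Y883.GJ (LA FF Par)
open Pool.Agent.R460.GS (cv)
open Pool.Agent.Y883.T3 (lsh)
open Pool.Agent.H373R2.T7 (lamz Vz Vz_pos lamz_nonneg lamI lamzI)
open Pool.Agent.Y614.GJ.Core (ev_log)

/-- from the grid to all lengths -/
lemma from_grid {A n g P M : ℕ} {ℓ : ℝ} (hℓ : 1000 ≤ ℓ) (hvm : ∀ m : ℕ, m ≤ n → ArithmeticFunction.vonMangoldt m ≤ 2 * ℓ)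
    (hSS : SS n ≤ 7 * ℓ ^ 2) (hM1 : ℓ ^ (A + 6) ≤ M) (hMP : (M : ℝ) ≤ P) (hg1 : g ≤ P) (hPn : P ≤ n)
    (hg3 : ((P - g : ℕ) : ℝ) ≤ 1 + (P : ℝ) / M) (hgg : |SR n g - g * SS n| ≤ 2 * ((g : ℝ) / ℓ ^ (A + 2))) :
    |SR n P - P * SS n| ≤ P / ℓ ^ A := by
  have hℓ0 : 0 < ℓ := by linarith
  have hM0 : (0 : ℝ) < M := lt_of_lt_of_le (by positivity) hM1
  have hSS1 := one_le_SS n
  have hPg : ((P - g : ℕ) : ℝ) ≤ 2 * (P / M) := by
    have h1 : 1 ≤ (P : ℝ) / M := by
      rw [le_div_iff₀ hM0, one_mul]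
      exact hMP
    linarith
  have hPM : (P : ℝ) / M ≤ P / ℓ ^ (A + 6) := by
    apply div_le_div_of_nonneg_left (by positivity) (by positivity) hM1
  have hcast : ((P - g : ℕ) : ℝ) = (P : ℝ) - g := by rw [Nat.cast_sub hg1]
  have hSR : |SR n P - SR n g| ≤ ((P - g : ℕ) : ℝ) * (4 * ℓ ^ 2) := by
    have e1 : SR n P - SR n g = ∑ b ∈ Ioc g P, ArithmeticFunction.vonMangoldt b * ArithmeticFunction.vonMangoldt (n - b) := by
      unfold SR
      have h1 : ∀ m : ℕ, ∑ b ∈ Icc 1 m, ArithmeticFunction.vonMangoldt b * ArithmeticFunction.vonMangoldt (n - b) =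
          ∑ b ∈ Ioc 0 m, ArithmeticFunction.vonMangoldt b * ArithmeticFunction.vonMangoldt (n - b) := by
        intro m
        apply sum_congr _ fun _ _ => rfl
        ext b
        simp only [mem_Icc, mem_Ioc]
        omega
      rw [h1, h1, ← Finset.sum_Ioc_consecutive _ (Nat.zero_le g) hg1]
      ring
    rw [e1, abs_of_nonneg (sum_nonneg fun b _ => mul_nonneg ArithmeticFunction.vonMangoldt_nonneg
      ArithmeticFunction.vonMangoldt_nonneg)]
    calc ∑ b ∈ Ioc g P, ArithmeticFunction.vonMangoldt b * ArithmeticFunction.vonMangoldt (n - b) ≤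
        ∑ b ∈ Ioc g P, (2 * ℓ) * (2 * ℓ) := by
          refine sum_le_sum fun b hb => ?_
          rw [mem_Ioc] at hb
          exact mul_le_mul (hvm b (by omega)) (hvm (n - b) (by omega)) ArithmeticFunction.vonMangoldt_nonneg
            (by positivity)
      _ = ((P - g : ℕ) : ℝ) * (4 * ℓ ^ 2) := by
          rw [sum_const, Nat.card_Ioc, nsmul_eq_mul]
          ring
  have hfin : SR n P - P * SS n = (SR n g - g * SS n) + (SR n P - SR n g) - ((P - g : ℕ) : ℝ) * SS n := by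
    rw [hcast]
    ring
  rw [hfin]
  have h1 : |SR n g - g * SS n + (SR n P - SR n g) - ((P - g : ℕ) : ℝ) * SS n| ≤
      2 * ((g : ℝ) / ℓ ^ (A + 2)) + ((P - g : ℕ) : ℝ) * (4 * ℓ ^ 2) +
      ((P - g : ℕ) : ℝ) * (7 * ℓ ^ 2) := by
    refine (abs_sub _ _).trans (add_le_add ((abs_add_le _ _).trans (add_le_add hgg hSR)) ?_)
    rw [abs_of_nonneg (by positivity)]
    gcongr
  refine h1.trans ?_
  have h2 : ((P - g : ℕ) : ℝ) * (4 * ℓ ^ 2) + ((P - g : ℕ) : ℝ) * (7 * ℓ ^ 2) ≤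
      (P : ℝ) / ℓ ^ A * (22 / ℓ ^ 4) := by
    calc ((P - g : ℕ) : ℝ) * (4 * ℓ ^ 2) + ((P - g : ℕ) : ℝ) * (7 * ℓ ^ 2) =
        ((P - g : ℕ) : ℝ) * (11 * ℓ ^ 2) := by ring
      _ ≤ (2 * (P / ℓ ^ (A + 6))) * (11 * ℓ ^ 2) := by
          apply mul_le_mul_of_nonneg_right _ (by positivity)
          linarith
      _ = (P : ℝ) / ℓ ^ A * (22 / ℓ ^ 4) := by
          have : ℓ ^ (A + 6) = ℓ ^ A * ℓ ^ 2 * ℓ ^ 4 := by ring
          rw [this]
          field_simp
          ring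
  have h3 : 2 * ((g : ℝ) / ℓ ^ (A + 2)) ≤ (P : ℝ) / ℓ ^ A * (2 / ℓ ^ 2) := by
    have : (g : ℝ) ≤ P := by exact_mod_cast hg1
    calc 2 * ((g : ℝ) / ℓ ^ (A + 2)) ≤ 2 * ((P : ℝ) / ℓ ^ (A + 2)) := by gcongr
      _ = _ := by
          rw [pow_add]
          field_simp
  have h4 : 2 / ℓ ^ 2 + 22 / ℓ ^ 4 ≤ 1 := by
    have h5 : 2 / ℓ ^ 2 ≤ 1 / 2 := by
      rw [div_le_div_iff₀ (by positivity) two_pos]
      nlinarith
    have h6 : 22 / ℓ ^ 4 ≤ 1 / 2 := by
      rw [div_le_div_iff₀ (by positivity) two_pos]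
      have : ℓ ≤ ℓ ^ 4 := by
        calc ℓ = ℓ ^ 1 := (pow_one _).symm
          _ ≤ ℓ ^ 4 := pow_le_pow_right₀ (by linarith) (by norm_num)
      linarith
    linarith
  have h5 : 0 ≤ (P : ℝ) / ℓ ^ A := by positivity
  nlinarith

/-- the error for a fixed length -/
lemma SR_cv {N n y : ℕ} (z r : ℕ) (hy : y ≤ N) (hn : n ≤ N) (hyn : y < n) :
    |SR n y - ∑ b ∈ Icc 1 y, ArithmeticFunction.vonMangoldt b * lamz z (n - b)| ≤
      ‖cv LA (FF z r) y N n‖ + Real.log N * ∑ c ∈ Icc 1 N, |lamz z c - lsh z r c| := by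
  refine le_trans (le_of_eq ?_) (Pool.Agent.R460.GH.cv_near z r hy hn)
  congr 1
  unfold SR
  rw [← sum_sub_distrib]
  refine sum_congr rfl fun b hb => ?_
  rw [mem_Icc] at hb
  unfold lamI lamzI
  have e1 : (1 : ℤ) ≤ (n : ℤ) - b := by omega
  have e2 : ((n : ℤ) - b).toNat = n - b := by omega
  rw [if_pos e1, if_pos e1, e2]
  ring

/-- the theorem for long first summands -/
theorem longP (A T : ℕ) {ρ : ℝ} (hρ : 0 < ρ) : ∃ x₀ : ℕ, ∀ x : ℕ, x₀ ≤ x → ∀ q : ℕ, 1 ≤ q →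
    (q : ℝ) ≤ (x : ℝ) ^ (2 / 3 - ρ) → ∀ a : ℕ, (Nat.gcd a q : ℝ) ≤ Real.log x ^ T →
    ∃ Bad : Finset ℕ, (Bad.card : ℝ) ≤ x / (q * Real.log x ^ A) ∧
      ∀ n : ℕ, n ≤ x → n ∉ Bad → n % q = a % q → 2 ∣ n → ∀ P : ℕ, (x : ℝ) / Real.log x ^ A ≤ P →
        P < n → |SR n P - P * SS n| ≤ P / Real.log x ^ A := by
  classical
  obtain ⟨A₁, hA₁⟩ : ∃ A₁, A₁ = 6 * A + 40 := ⟨_, rfl⟩
  obtain ⟨B₁, hB₁⟩ := Pool.Agent.R460.GH.errH_all A₁ T (2 * A + 10) ρ hρ
  obtain ⟨B, hB⟩ : ∃ B, B = max B₁ (A + 6) := ⟨_, rfl⟩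
  obtain ⟨N₁, hN₁⟩ := hB₁ (B + 1)
  obtain ⟨Y₃, hY₃⟩ := mainT (A + 2) (B + 1)
  obtain ⟨Y₄, hY₄⟩ := Filter.eventually_atTop.1 (ev_log (2 * A + 8) (s := 1 / 4) (by norm_num) 1000)
  refine ⟨max (max N₁ Y₃) (max Y₄ 1), fun x hx q hq hqx a hgcd => ?_⟩
  have hxN₁ : N₁ ≤ x := le_trans (le_trans (le_max_left _ _) (le_max_left _ _)) hx
  have hxY₃ : Y₃ ≤ x := le_trans (le_trans (le_max_right _ _) (le_max_left _ _)) hx
  have hxY₄ : Y₄ ≤ x := le_trans (le_trans (le_max_left _ _) (le_max_right _ _)) hx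
  have hx1 : 1 ≤ x := le_trans (le_trans (le_max_right _ _) (le_max_right _ _)) hx
  obtain ⟨hL1000, hLp⟩ := hY₄ x hxY₄
  obtain ⟨L, hLd⟩ : ∃ L, L = Real.log x := ⟨_, rfl⟩
  rw [← hLd] at hL1000 hLp hgcd
  have hx0 : (0 : ℝ) < x := by exact_mod_cast hx1
  have hxr1 : (1 : ℝ) ≤ x := by exact_mod_cast hx1
  have hL0 : 0 < L := by linarith
  have hL1 : 1 ≤ L := by linarith
  have hq0 : (0 : ℝ) < q := by exact_mod_cast hq
  have hq1 : (1 : ℝ) ≤ q := by exact_mod_cast hq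
  -- the parameter of the model
  obtain ⟨z, hz⟩ : ∃ z, z = ⌈L ^ B⌉₊ := ⟨_, rfl⟩
  have hz1 : L ^ B ≤ z := by rw [hz]; exact Nat.le_ceil _
  have hz2 : (z : ℝ) ≤ L ^ (B + 1) := by
    have h1 : (z : ℝ) < L ^ B + 1 := by
      rw [hz]
      exact Nat.ceil_lt_add_one (by positivity)
    have h3 : 1 ≤ L ^ B := one_le_pow₀ hL1
    calc (z : ℝ) ≤ 2 * L ^ B := by linarith
      _ ≤ L * L ^ B := by
          apply mul_le_mul_of_nonneg_right (by linarith) (by linarith)
      _ = L ^ (B + 1) := by ring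
  have hzB : ∀ B' : ℕ, B' ≤ B → L ^ B' ≤ z := fun B' h => (pow_le_pow_right₀ hL1 h).trans hz1
  obtain ⟨r, hpar, hsum, herr⟩ := hN₁ x hxN₁ z (by rw [← hLd]; exact hzB B₁ (by rw [hB]; exact le_max_left _ _))
    (by rw [← hLd]; exact hz2)
  have herr' := herr LA (Or.inl rfl)
  rw [← hLd] at hsum herr'
  have hV : (Vz z)⁻¹ ≤ 3 * Real.log x := by
    have := hpar.hV
    rw [← hLd] at this ⊢
    linarith
  -- the grid
  obtain ⟨M, hM⟩ : ∃ M, M = ⌈L ^ (A + 6)⌉₊ := ⟨_, rfl⟩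
  have hM1 : L ^ (A + 6) ≤ M := by rw [hM]; exact Nat.le_ceil _
  have hLA6 : 1 ≤ L ^ (A + 6) := one_le_pow₀ hL1
  have hM2 : (M : ℝ) ≤ 2 * L ^ (A + 6) := by
    have : (M : ℝ) < L ^ (A + 6) + 1 := by
      rw [hM]
      exact Nat.ceil_lt_add_one (by linarith)
    linarith
  have hMr1 : (1 : ℝ) ≤ M := hLA6.trans hM1
  have hM1n : 1 ≤ M := by exact_mod_cast hMr1
  have hNe : NeZero q := ⟨by omega⟩
  obtain ⟨G, hG⟩ : ∃ G : Finset (ℕ × ℕ), G = ((range (Nat.log 2 x + 1)) ×ˢ (range M)).filter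
    (fun y => gr M y ≤ x) := ⟨_, rfl⟩
  obtain ⟨V, hVd⟩ : ∃ V : ℝ, V = (x : ℝ) / L ^ (2 * A + 4) := ⟨_, rfl⟩
  have hV0 : 0 < V := by rw [hVd]; positivity
  obtain ⟨bad, hbad⟩ : ∃ bad : ℕ × ℕ → Finset ℕ, bad = fun y =>
    ((Icc 1 (2 * x)).filter (fun n : ℕ => (n : ZMod q) = (a : ZMod q))).filter
      (fun n => V < ‖cv LA (FF z r) (gr M y) x n‖) := ⟨_, rfl⟩
  have hval : ((a : ZMod q)).val = a % q := ZMod.val_natCast q a
  have hgcd' : (Nat.gcd ((a : ZMod q)).val q : ℝ) ≤ L ^ T := by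
    rw [hval]
    have e1 : Nat.gcd (a % q) q = Nat.gcd a q := by
      rw [← Nat.gcd_rec, Nat.gcd_comm]
    rw [e1]
    exact hgcd
  refine ⟨G.biUnion bad, ?_, ?_⟩
  · -- the number of the exceptions
    have hbadc : ∀ y ∈ G, ((bad y).card : ℝ) ≤ x / (q * L ^ (2 * A + 15)) := by
      intro y hy
      rw [hG, mem_filter] at hy
      obtain ⟨-, hy2⟩ := hy
      have hcore := herr' q hqx (a : ZMod q) hgcd' (gr M y) x hy2 le_rfl
      have h1 : ((bad y).card : ℝ) * V ^ 2 ≤ (x : ℝ) ^ 3 / (q * L ^ A₁) := by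
        refine le_trans ?_ hcore
        rw [← nsmul_eq_mul]
        calc (bad y).card • V ^ 2 ≤ ∑ n ∈ bad y, ‖cv LA (FF z r) (gr M y) x n‖ ^ 2 := by
              apply card_nsmul_le_sum
              intro n hn
              rw [hbad] at hn
              simp only [mem_filter] at hn
              exact pow_le_pow_left₀ hV0.le hn.2.le 2
          _ ≤ _ := by
              apply sum_le_sum_of_subset_of_nonneg
              · rw [hbad]
                simp only
                exact filter_subset _ _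
              · intro n _ _
                positivity
      have h2 : ((bad y).card : ℝ) ≤ (x : ℝ) ^ 3 / (q * L ^ A₁) / V ^ 2 := by
        rw [le_div_iff₀ (by positivity)]
        exact h1
      refine h2.trans (le_of_eq ?_ |>.trans (?_ : (x : ℝ) / (q * L ^ (2 * A + 15)) * (1 / L ^ 17) ≤ _))
      · rw [hVd, hA₁]
        have e1 : L ^ (6 * A + 40) = (L ^ (2 * A + 4)) ^ 2 * L ^ (2 * A + 15) * L ^ 17 := by ring
        rw [e1]
        field_simp
      · apply mul_le_of_le_one_right (by positivity)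
        rw [div_le_one (by positivity)]
        exact one_le_pow₀ hL1
    have hGc : (G.card : ℝ) ≤ L ^ (A + 9) := by
      have h1 : G.card ≤ (Nat.log 2 x + 1) * M := by
        rw [hG]
        refine (card_filter_le _ _).trans ?_
        rw [card_product, card_range, card_range]
      have h2 : (Nat.log 2 x : ℝ) ≤ 2 * L := by
        have h1 : 2 ^ Nat.log 2 x ≤ x := Nat.pow_log_le_self 2 (by omega)
        have h2 : (2 : ℝ) ^ Nat.log 2 x ≤ x := by exact_mod_cast h1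
        have h3 := Real.log_le_log (by positivity) h2
        rw [Real.log_pow, ← hLd] at h3
        have h4 := Real.log_two_gt_d9
        have h5 : (0 : ℝ) ≤ (Nat.log 2 x : ℝ) := Nat.cast_nonneg _
        nlinarith
      calc (G.card : ℝ) ≤ (((Nat.log 2 x + 1) * M : ℕ) : ℝ) := by exact_mod_cast h1
        _ = (Nat.log 2 x + 1) * M := by push_cast; ring
        _ ≤ (3 * L) * (2 * L ^ (A + 6)) := by
            apply mul_le_mul _ hM2 (by positivity) (by positivity)
            linarith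
        _ = 6 * L ^ (A + 7) := by ring
        _ ≤ (L * L) * L ^ (A + 7) := by
            apply mul_le_mul_of_nonneg_right _ (by positivity)
            nlinarith
        _ = L ^ (A + 9) := by ring
    rw [← hLd]
    calc ((G.biUnion bad).card : ℝ) ≤ ∑ y ∈ G, ((bad y).card : ℝ) := by exact_mod_cast card_biUnion_le
      _ ≤ ∑ y ∈ G, (x : ℝ) / (q * L ^ (2 * A + 15)) := sum_le_sum hbadc
      _ = G.card * ((x : ℝ) / (q * L ^ (2 * A + 15))) := by rw [sum_const, nsmul_eq_mul]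
      _ ≤ L ^ (A + 9) * ((x : ℝ) / (q * L ^ (2 * A + 15))) := by gcongr
      _ = x / (q * L ^ A) * (1 / L ^ 6) := by
          have : L ^ (2 * A + 15) = L ^ A * L ^ (A + 9) * L ^ 6 := by ring
          rw [this]
          field_simp
      _ ≤ x / (q * L ^ A) * 1 := by
          have : 1 / L ^ 6 ≤ 1 := by
            rw [div_le_one (by positivity)]
            exact one_le_pow₀ hL1
          gcongr
      _ = _ := mul_one _
  · -- the other integers
    intro n hnx hn hmod h2n P hP hPn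
    rw [← hLd] at hP ⊢
    have hPr0 : (0 : ℝ) < P := lt_of_lt_of_le (by positivity) hP
    have hP1 : 1 ≤ P := by exact_mod_cast hPr0
    have hn0 : n ≠ 0 := by omega
    obtain ⟨k, i, hk, hi, hg1, hg2, hg3⟩ := gr_near hM1n hP1
    obtain ⟨g, hg⟩ : ∃ g, g = gr M (k, i) := ⟨_, rfl⟩
    rw [← hg] at hg1 hg2 hg3
    have hPx : P ≤ x := by omega
    have hgx : g ≤ x := hg1.trans hPx
    have hyG : (k, i) ∈ G := by
      rw [hG, mem_filter, mem_product, mem_range, mem_range]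
      refine ⟨⟨?_, hi⟩, ?_⟩
      · rw [hk]
        show Nat.log 2 P < Nat.log 2 x + 1
        exact Nat.lt_succ_of_le (Nat.log_mono_right hPx)
      · rw [← hg]
        exact hgx
    have hgood : ‖cv LA (FF z r) g x n‖ ≤ V := by
      by_contra hcon
      push Not at hcon
      apply hn
      rw [mem_biUnion]
      refine ⟨(k, i), hyG, ?_⟩
      rw [hbad]
      simp only [mem_filter, mem_Icc]
      rw [← hg]
      refine ⟨⟨⟨by omega, by omega⟩, ?_⟩, hcon⟩
      rw [ZMod.natCast_eq_natCast_iff']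
      exact hmod
    have hLP : (x : ℝ) / L ^ A ≤ 2 * g := by
      have h1 : (P : ℝ) ≤ 2 * g := by exact_mod_cast hg2.le
      linarith
    have hg0 : (0 : ℝ) < g := by
      have : 0 < (x : ℝ) / L ^ A := by positivity
      linarith
    have hx14 : L ^ (2 * A + 8) ≤ (x : ℝ) ^ (1 / 4 : ℝ) := hLp
    have hxg : (x : ℝ) ^ (1 / 3 : ℝ) ≤ g := by
      have h1 : (x : ℝ) ^ (1 / 3 : ℝ) * (2 * L ^ A) ≤ x := by
        have h2 : 2 * L ^ A ≤ (x : ℝ) ^ (1 / 4 : ℝ) := by
          refine le_trans ?_ hx14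
          calc 2 * L ^ A ≤ L * L ^ A := by
                apply mul_le_mul_of_nonneg_right (by linarith) (by positivity)
            _ = L ^ (A + 1) := by ring
            _ ≤ L ^ (2 * A + 8) := pow_le_pow_right₀ hL1 (by omega)
        calc (x : ℝ) ^ (1 / 3 : ℝ) * (2 * L ^ A) ≤ (x : ℝ) ^ (1 / 3 : ℝ) * (x : ℝ) ^ (1 / 4 : ℝ) := by gcongr
          _ = (x : ℝ) ^ (7 / 12 : ℝ) := by
              rw [← Real.rpow_add hx0]
              norm_num
          _ ≤ (x : ℝ) ^ (1 : ℝ) := Real.rpow_le_rpow_of_exponent_le hxr1 (by norm_num)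
          _ = x := Real.rpow_one _
      have h3 : (x : ℝ) ≤ g * (2 * L ^ A) := by
        rw [div_le_iff₀ (by positivity)] at hLP
        linarith
      exact le_of_mul_le_mul_right (h1.trans h3) (by positivity)
    have hmain := hY₃ x hxY₃ z (by rw [← hLd]; exact hzB _ (by rw [hB]; exact (by omega : A + 2 + 4 ≤ A + 6).trans (le_max_right _ _)))
      (by rw [← hLd]; exact hz2) hV n g h2n (by omega) (by omega) hxg
    rw [← hLd] at hmain
    have hcv := SR_cv z r hgx hnx (by omega : g < n)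
    rw [← hLd] at hcv
    have hgV : V + L * (x / L ^ (2 * A + 10)) ≤ (g : ℝ) / L ^ (A + 2) := by
      have e1 : V = (x / L ^ A) / L ^ (A + 2) * (1 / L ^ 2) := by
        rw [hVd]
        have : L ^ (2 * A + 4) = L ^ A * L ^ (A + 2) * L ^ 2 := by ring
        rw [this]
        field_simp
      have e2 : L * (x / L ^ (2 * A + 10)) = (x / L ^ A) / L ^ (A + 2) * (1 / L ^ 7) := by
        have : L ^ (2 * A + 10) = L ^ A * L ^ (A + 2) * L ^ 7 * L := by ring
        rw [this]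
        field_simp
      rw [e1, e2, ← mul_add]
      have h1 : 1 / L ^ 2 + 1 / L ^ 7 ≤ 1 / 2 := by
        have h5 : 1 / L ^ 2 ≤ 1 / 4 := by
          rw [div_le_div_iff₀ (by positivity) (by norm_num)]
          nlinarith
        have h6 : 1 / L ^ 7 ≤ 1 / 4 := by
          rw [div_le_div_iff₀ (by positivity) (by norm_num)]
          have : L ≤ L ^ 7 := by
            calc L = L ^ 1 := (pow_one _).symm
              _ ≤ L ^ 7 := pow_le_pow_right₀ hL1 (by norm_num)
          linarith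
        linarith
      calc (x / L ^ A) / L ^ (A + 2) * (1 / L ^ 2 + 1 / L ^ 7) ≤ (2 * g) / L ^ (A + 2) * (1 / 2) := by
            gcongr
        _ = (g : ℝ) / L ^ (A + 2) := by ring
    have hsum2 : L * ∑ c ∈ Icc 1 x, |lamz z c - lsh z r c| ≤ L * (x / L ^ (2 * A + 10)) :=
      mul_le_mul_of_nonneg_left hsum hL0.le
    have hgg : |SR n g - g * SS n| ≤ 2 * ((g : ℝ) / L ^ (A + 2)) := by
      have e1 : SR n g - g * SS n = (SR n g - ∑ b ∈ Icc 1 g, ArithmeticFunction.vonMangoldt b * lamz z (n - b)) +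
          (∑ b ∈ Icc 1 g, ArithmeticFunction.vonMangoldt b * lamz z (n - b) - g * SS n) := by ring
      rw [e1]
      refine (abs_add_le _ _).trans ?_
      linarith
    have hlogn : Real.log n ≤ L := by
      rw [hLd]
      apply Real.log_le_log
      · exact_mod_cast Nat.pos_of_ne_zero hn0
      · exact_mod_cast hnx
    have hvm : ∀ m : ℕ, m ≤ n → ArithmeticFunction.vonMangoldt m ≤ 2 * L := by
      intro m hm
      refine ArithmeticFunction.vonMangoldt_le_log.trans ?_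
      rcases Nat.eq_zero_or_pos m with h0 | h0
      · rw [h0]; simp; linarith
      · have := Real.log_le_log (by exact_mod_cast h0 : (0 : ℝ) < m) (by exact_mod_cast hm : (m : ℝ) ≤ n)
        linarith
    have hSS : SS n ≤ 7 * L ^ 2 := by
      have h1 : ∑ b ∈ Icc 1 g, ArithmeticFunction.vonMangoldt b * lamz z (n - b) ≤ g * (6 * L ^ 2) := by
        calc ∑ b ∈ Icc 1 g, ArithmeticFunction.vonMangoldt b * lamz z (n - b) ≤
            ∑ b ∈ Icc 1 g, (2 * L) * (3 * L) := by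
              refine sum_le_sum fun b hb => ?_
              rw [mem_Icc] at hb
              rw [← hLd] at hV
              exact mul_le_mul (hvm b (by omega)) ((lamz_le z _).trans hV) (lamz_nonneg _ _) (by positivity)
          _ = g * (6 * L ^ 2) := by
              rw [sum_const, Nat.card_Icc, nsmul_eq_mul, Nat.add_sub_cancel]
              ring
      have h2 := neg_le_of_abs_le hmain
      have h3 : (g : ℝ) * SS n ≤ g * (7 * L ^ 2) := by
        have h4 : (g : ℝ) / L ^ (A + 2) ≤ g * L ^ 2 := by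
          rw [div_le_iff₀ (by positivity)]
          have h5 : 1 ≤ L ^ 2 * L ^ (A + 2) := by
            have e1 := one_le_pow₀ (M₀ := ℝ) (a := L) (n := 2) (by linarith)
            have e2 := one_le_pow₀ (M₀ := ℝ) (a := L) (n := A + 2) (by linarith)
            nlinarith
          calc (g : ℝ) = g * 1 := (mul_one _).symm
            _ ≤ g * (L ^ 2 * L ^ (A + 2)) := by gcongr
            _ = _ := by ring
        linarith
      exact le_of_mul_le_mul_left h3 hg0
    have hMP : (M : ℝ) ≤ P := by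
      calc (M : ℝ) ≤ 2 * L ^ (A + 6) := hM2
        _ ≤ L * L ^ (A + 6) := by
            apply mul_le_mul_of_nonneg_right (by linarith) (by positivity)
        _ = L ^ (A + 7) := by ring
        _ ≤ L ^ (2 * A + 8) := pow_le_pow_right₀ hL1 (by omega)
        _ ≤ (x : ℝ) ^ (1 / 4 : ℝ) := hx14
        _ ≤ (x : ℝ) ^ (1 / 3 : ℝ) := Real.rpow_le_rpow_of_exponent_le hxr1 (by norm_num)
        _ ≤ g := hxg
        _ ≤ P := by exact_mod_cast hg1
    exact from_grid hL1000 hvm hSS hM1 hMP hg1 hPn.le hg3 hgg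

end Pool.Agent.H567.HW
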