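import Pool.Agent.H567.HW.ScaleG

/-!
Project HW (helper567), part 30: relative form of the formula for windows.
-/

set_option autoImplicit false

namespace Pool.Agent.H567.HW

open Finset Filter
open Pool.Agent.Y614.GJ.Core (ev_log)

lemma inv_sq_le {δ : ℝ} (h0 : 0 ≤ δ) (h1 : δ ≤ 1 / 8) : 1 / (1 - δ) ^ 2 ≤ 1 + 3 * δ := by
  have h2 : 0 < (1 - δ) ^ 2 := by
    have : 0 < 1 - δ := by linarith
    positivity
  rw [div_le_iff₀ h2]
  have e : (1 + 3 * δ) * (1 - δ) ^ 2 = 1 + δ * (1 - 5 * δ + 3 * δ ^ 2) := by ring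
  have h3 : 0 ≤ δ * (1 - 5 * δ + 3 * δ ^ 2) := mul_nonneg h0 (by
    have := sq_nonneg δ
    linarith)
  rw [e]
  linarith

lemma ev_loglog (W : ℕ) {δ : ℝ} (hδ : 0 < δ) : ∀ᶠ n : ℕ in atTop,
    (W : ℝ) * Real.log (Real.log n) ≤ δ * Real.log n := by
  have h1 : Tendsto (fun n : ℕ => Real.log n) atTop atTop :=
    Real.tendsto_log_atTop.comp tendsto_natCast_atTop_atTop
  have h2 : ∀ᶠ y : ℝ in atTop, (W : ℝ) * Real.log y ≤ δ * y := by
    have h3 := Real.isLittleO_log_id_atTop.bound (show (0 : ℝ) < δ / (W + 1) by positivity)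
    filter_upwards [h3, eventually_ge_atTop (1 : ℝ)] with y hy hy1
    rw [Real.norm_of_nonneg (Real.log_nonneg hy1), id, Real.norm_of_nonneg (by linarith)] at hy
    calc (W : ℝ) * Real.log y ≤ (W + 1) * Real.log y := by
          have := Real.log_nonneg hy1
          nlinarith
      _ ≤ (W + 1) * (δ / (W + 1) * y) := by gcongr
      _ = δ * y := by
          have : (W : ℝ) + 1 ≠ 0 := by positivity
          field_simp
  exact h1.eventually h2

/-- the main term, in relative form -/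
lemma relwin (W : ℕ) {ε : ℝ} (hε : 0 < ε) (hε1 : ε ≤ 1) : ∃ n₀ : ℕ, ∀ n : ℕ, n₀ ≤ n → ∀ U V : ℕ, U ≤ V →
    (n : ℝ) ^ (1 / 3 : ℝ) ≤ V → 2 * V ≤ n → (V : ℝ) / Real.log n ^ W ≤ (V : ℝ) - U →
    |∑ b ∈ Ioc U V, wt n b - ((V : ℝ) - U) / (Real.log V * Real.log n)| ≤
      ε * (((V : ℝ) - U) / (Real.log V * Real.log n)) := by
  obtain ⟨n₁, h₁⟩ := eventually_atTop.1 (ev_loglog (W + 3) (δ := ε / 24) (by positivity))
  obtain ⟨n₂, h₂⟩ := eventually_atTop.1 (ev_log W (s := 1 / 6) (by norm_num) (100 / ε))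
  obtain ⟨n₃, h₃⟩ := eventually_atTop.1 (ev_log 1 (s := 1 / 6) (by norm_num) (100 / ε))
  refine ⟨max (max n₁ n₂) (max n₃ 2), fun n hn U V hUV hV h2V hD => ?_⟩
  have hn1 : n₁ ≤ n := le_trans (le_trans (le_max_left _ _) (le_max_left _ _)) hn
  have hn2 : n₂ ≤ n := le_trans (le_trans (le_max_right _ _) (le_max_left _ _)) hn
  have hn3 : n₃ ≤ n := le_trans (le_trans (le_max_left _ _) (le_max_right _ _)) hn
  have hn4 : 2 ≤ n := le_trans (le_trans (le_max_right _ _) (le_max_right _ _)) hn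
  have hll := h₁ n hn1
  obtain ⟨hL100, hLW⟩ := h₂ n hn2
  obtain ⟨-, hL6⟩ := h₃ n hn3
  obtain ⟨l, hl⟩ : ∃ l, l = Real.log n := ⟨_, rfl⟩
  obtain ⟨v, hv⟩ : ∃ v, v = Real.log V := ⟨_, rfl⟩
  rw [← hl] at hll hL100 hLW hL6 hD ⊢
  rw [← hv]
  have hnr : (2 : ℝ) ≤ n := by exact_mod_cast hn4
  have hn0 : (0 : ℝ) < n := by linarith
  have hε100 : 100 ≤ 100 / ε := by
    rw [le_div_iff₀ hε]
    nlinarith
  have hl100 : 100 ≤ l := by linarith
  have hl0 : 0 < l := by linarith
  have hlε : 100 ≤ ε * l := by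
    rw [div_le_iff₀ hε] at hL100
    linarith
  have hn13 : 1 ≤ (n : ℝ) ^ (1 / 3 : ℝ) := Real.one_le_rpow (by linarith) (by norm_num)
  have hV1 : (1 : ℝ) ≤ V := by linarith
  have hV0 : (0 : ℝ) < V := by linarith
  have hvl : v ≤ l := by
    rw [hv, hl]
    apply Real.log_le_log hV0
    have : V ≤ n := by omega
    exact_mod_cast this
  have hv3 : l / 3 ≤ v := by
    have h1 := Real.log_le_log (by positivity) hV
    rw [Real.log_rpow hn0, ← hl, ← hv] at h1
    linarith
  have hv0 : 0 < v := by linarith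
  have hlW0 : 0 < l ^ W := by positivity
  obtain ⟨D, hDd⟩ : ∃ D, D = (V : ℝ) - U := ⟨_, rfl⟩
  rw [← hDd] at hD ⊢
  -- the length of the window is large
  have hD0 : 100 / ε ≤ D := by
    have h1 : (n : ℝ) ^ (1 / 6 : ℝ) ≤ D := by
      have h2 : (n : ℝ) ^ (1 / 6 : ℝ) * l ^ W ≤ V := by
        calc (n : ℝ) ^ (1 / 6 : ℝ) * l ^ W ≤ (n : ℝ) ^ (1 / 6 : ℝ) * (n : ℝ) ^ (1 / 6 : ℝ) := by gcongr
          _ = (n : ℝ) ^ (1 / 3 : ℝ) := by
              rw [← Real.rpow_add hn0]
              norm_num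
          _ ≤ V := hV
      rw [div_le_iff₀ hlW0] at hD
      exact le_of_mul_le_mul_right (h2.trans hD) hlW0
    rw [pow_one] at hL6
    linarith
  have hDpos : 0 < D := lt_of_lt_of_le (by positivity) hD0
  have hDε : 100 ≤ ε * D := by
    rw [div_le_iff₀ hε] at hD0
    linarith
  have hvl0 : 0 < v * l := by positivity
  obtain ⟨M, hM⟩ : ∃ M, M = D / (v * l) := ⟨_, rfl⟩
  rw [← hM]
  have hM0 : 0 < M := by rw [hM]; positivity
  -- lower bound
  have hlow : M - ε * M ≤ ∑ b ∈ Ioc U V, wt n b := by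
    have h1 : ∑ b ∈ Ioc U V, wt n b = ∑ b ∈ (Ioc U V).filter (fun b => 2 ≤ b), wt n b := by
      rw [sum_filter]
      refine sum_congr rfl fun b hb => ?_
      rw [mem_Ioc] at hb
      split_ifs with h
      · rfl
      · have : b = 1 := by omega
        rw [this, wt_one]
    have h2 : (((Ioc U V).filter (fun b => 2 ≤ b)).card : ℝ) * (1 / (v * l)) ≤ ∑ b ∈ Ioc U V, wt n b := by
      rw [h1]
      calc (((Ioc U V).filter (fun b => 2 ≤ b)).card : ℝ) * (1 / (v * l)) =
          ∑ b ∈ (Ioc U V).filter (fun b => 2 ≤ b), (1 / (v * l)) := by rw [sum_const, nsmul_eq_mul]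
        _ ≤ _ := by
          refine sum_le_sum fun b hb => ?_
          rw [mem_filter, mem_Ioc] at hb
          rw [hv, hl]
          exact wt_ge hb.2 hb.1.2 h2V
    have h3 : D - 1 ≤ ((Ioc U V).filter (fun b => 2 ≤ b)).card := by
      have h4 : V ≤ U + (((Ioc U V).filter (fun b => 2 ≤ b)).card + 1) := by
        have h5 : (Ioc U V).card ≤ ((Ioc U V).filter (fun b => 2 ≤ b)).card + 1 := by
          have h6 : Ioc U V ⊆ insert 1 ((Ioc U V).filter (fun b => 2 ≤ b)) := by
            intro b hb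
            rw [mem_insert, mem_filter]
            rw [mem_Ioc] at hb
            by_cases h : b = 1
            · exact Or.inl h
            · exact Or.inr ⟨mem_Ioc.2 hb, by omega⟩
          exact (card_le_card h6).trans (card_insert_le _ _)
        rw [Nat.card_Ioc] at h5
        omega
      have h5 : (V : ℝ) ≤ U + ((((Ioc U V).filter (fun b => 2 ≤ b)).card : ℝ) + 1) := by exact_mod_cast h4
      rw [hDd]
      linarith
    have h4 : (D - 1) * (1 / (v * l)) ≤ ∑ b ∈ Ioc U V, wt n b :=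
      (mul_le_mul_of_nonneg_right h3 (by positivity)).trans h2
    have h5 : M - ε * M = (D - ε * D) * (1 / (v * l)) := by
      rw [hM]
      field_simp
    rw [h5]
    refine le_trans ?_ h4
    apply mul_le_mul_of_nonneg_right _ (by positivity)
    linarith
  -- upper bound
  have hup : ∑ b ∈ Ioc U V, wt n b ≤ M + ε * M := by
    obtain ⟨K, hK⟩ : ∃ K, K = (V : ℝ) / l ^ (W + 3) := ⟨_, rfl⟩
    have hK0 : 0 < K := by rw [hK]; positivity
    have h1 : ∀ b ∈ Ioc U V, wt n b ≤ (if (b : ℝ) ≤ K then 4 else 0) + (1 + 3 * (ε / 8)) * (1 / (v * l)) := by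
      intro b hb
      rw [mem_Ioc] at hb
      have hp : 0 ≤ (1 + 3 * (ε / 8)) * (1 / (v * l)) := by positivity
      rcases Nat.lt_or_ge b 2 with hb2 | hb2
      · have : b = 1 := by omega
        rw [this, wt_one]
        split_ifs <;> linarith
      · by_cases hbK : (b : ℝ) ≤ K
        · rw [if_pos hbK]
          have := (wt_bd hb2 hb.2 h2V).2
          linarith
        · rw [if_neg hbK, zero_add]
          push Not at hbK
          have hb0 : (0 : ℝ) < b := by linarith
          have e1 : v * (1 - ε / 8) ≤ Real.log b := by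
            have h3 := Real.log_le_log hK0 hbK.le
            rw [hK, Real.log_div hV0.ne' (by positivity), Real.log_pow, ← hv] at h3
            push_cast at hll h3
            have h4 : ε / 24 * l ≤ v * (ε / 8) := by nlinarith
            linarith
          have e2 : l * (1 - ε / 8) ≤ Real.log ((n - b : ℕ) : ℝ) := by
            have h3 : (n : ℝ) / 2 ≤ ((n - b : ℕ) : ℝ) := by
              rw [Nat.cast_sub (by omega)]
              have : 2 * (b : ℝ) ≤ n := by
                have : 2 * b ≤ n := by omega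
                exact_mod_cast this
              linarith
            have h4 := Real.log_le_log (by positivity) h3
            rw [Real.log_div hn0.ne' (by norm_num), ← hl] at h4
            have h5 : Real.log 2 ≤ 1 := by
              have := Real.log_two_lt_d9
              linarith
            linarith
          have e3 : 0 < v * (1 - ε / 8) := mul_pos hv0 (by linarith)
          have e4 : 0 < l * (1 - ε / 8) := mul_pos hl0 (by linarith)
          unfold wt
          calc 1 / (Real.log b * Real.log ((n - b : ℕ) : ℝ)) ≤ 1 / ((v * (1 - ε / 8)) * (l * (1 - ε / 8))) := by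
                apply one_div_le_one_div_of_le (by positivity)
                exact mul_le_mul e1 e2 e4.le (e3.le.trans e1)
            _ = 1 / (1 - ε / 8) ^ 2 * (1 / (v * l)) := by
                rw [one_div_mul_one_div]
                congr 1
                ring
            _ ≤ (1 + 3 * (ε / 8)) * (1 / (v * l)) :=
                mul_le_mul_of_nonneg_right (inv_sq_le (by linarith) (by linarith)) (by positivity)
    have h2 : ∑ b ∈ Ioc U V, wt n b ≤ 4 * K + (1 + 3 * (ε / 8)) * M := by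
      calc ∑ b ∈ Ioc U V, wt n b ≤ ∑ b ∈ Ioc U V, ((if (b : ℝ) ≤ K then 4 else 0) + (1 + 3 * (ε / 8)) * (1 / (v * l))) :=
            sum_le_sum h1
        _ = ((Ioc U V).filter (fun b : ℕ => (b : ℝ) ≤ K)).card * 4 + (V - U : ℕ) * ((1 + 3 * (ε / 8)) * (1 / (v * l))) := by
            rw [sum_add_distrib, ← sum_filter, sum_const, sum_const, nsmul_eq_mul, nsmul_eq_mul, Nat.card_Ioc]
        _ ≤ K * 4 + D * ((1 + 3 * (ε / 8)) * (1 / (v * l))) := by
            have e1 : (((Ioc U V).filter (fun b : ℕ => (b : ℝ) ≤ K)).card : ℝ) ≤ K := by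
              have : ((Ioc U V).filter (fun b : ℕ => (b : ℝ) ≤ K)) ⊆ Icc 1 ⌊K⌋₊ := by
                intro b hb
                rw [mem_filter, mem_Ioc] at hb
                rw [mem_Icc]
                exact ⟨by omega, Nat.le_floor hb.2⟩
              have h3 := card_le_card this
              rw [Nat.card_Icc, Nat.add_sub_cancel] at h3
              calc (((Ioc U V).filter (fun b : ℕ => (b : ℝ) ≤ K)).card : ℝ) ≤ (⌊K⌋₊ : ℝ) := by exact_mod_cast h3
                _ ≤ K := Nat.floor_le hK0.le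
            rw [Nat.cast_sub hUV, ← hDd]
            gcongr
        _ = 4 * K + (1 + 3 * (ε / 8)) * M := by
            rw [hM]
            ring
    have h3 : 4 * K ≤ ε / 8 * M := by
      have e1 : K ≤ D / l ^ 3 := by
        rw [hK, pow_add, ← div_div]
        exact div_le_div_of_nonneg_right hD (by positivity)
      have e2 : D / l ^ 3 * l ≤ M := by
        have : D / l ^ 3 * l = D / (l * l) := by field_simp
        rw [this, hM]
        apply div_le_div_of_nonneg_left hDpos.le hvl0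
        exact mul_le_mul_of_nonneg_right hvl hl0.le
      have e3 : 0 ≤ D / l ^ 3 := by positivity
      have e4 : 100 * (D / l ^ 3) ≤ ε * l * (D / l ^ 3) := mul_le_mul_of_nonneg_right hlε e3
      have e5 : ε * l * (D / l ^ 3) ≤ ε * M := by
        calc ε * l * (D / l ^ 3) = ε * (D / l ^ 3 * l) := by ring
          _ ≤ ε * M := mul_le_mul_of_nonneg_left e2 hε.le
      linarith
    have h4 : 0 ≤ ε * M := by positivity
    linarith
  rw [abs_le]
  constructor <;> linarith

/-- relative form: windows at all scales, statement -/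
def RelStm (Ad : ℕ → ℕ → ℕ → Prop) (A W : ℕ) (ρ ε : ℝ) : Prop := ∃ x₀ : ℕ, ∀ x : ℕ, x₀ ≤ x → ∀ q : ℕ, 1 ≤ q → ∀ a : ℕ,
    Ad x q a → ∃ Bad : Finset ℕ, (Bad.card : ℝ) ≤ x / (q * Real.log x ^ A) ∧
      ∀ n : ℕ, n ≤ x → n ∉ Bad → n % q = a % q → 2 ∣ n → ∀ U V : ℕ, U ≤ V → (q : ℝ) * (n : ℝ) ^ (1 / 3 + ρ) ≤ V →
        2 * V ≤ n → 0 < V → (V : ℝ) / Real.log n ^ W ≤ (V : ℝ) - U →
          |(wc n U V : ℝ) - SS n * (((V : ℝ) - U) / (Real.log V * Real.log n))| ≤
            ε * (SS n * (((V : ℝ) - U) / (Real.log V * Real.log n)))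

/-- relative form: windows at all scales -/
theorem rel_of (Ad : ℕ → ℕ → ℕ → Prop) (A W : ℕ) {ρ ε : ℝ} (hρ : 0 < ρ) (hε : 0 < ε)
    (hS : ScStm Ad (A + W + 3) ρ) : RelStm Ad A W ρ ε := by
  obtain ⟨e, he⟩ : ∃ e, e = min (ε / 2) 1 := ⟨_, rfl⟩
  have he0 : 0 < e := by rw [he]; exact lt_min (by linarith) one_pos
  have he1 : e ≤ 1 := by rw [he]; exact min_le_right _ _
  have heε : e ≤ ε / 2 := by rw [he]; exact min_le_left _ _
  obtain ⟨n₁, h₁⟩ := relwin W he0 he1
  obtain ⟨n₂, h₂⟩ := eventually_atTop.1 (ev_log 1 (s := 1 / 6) (by norm_num) (2 / ε + 1))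
  obtain ⟨m, hm⟩ : ∃ m, m = max (max n₁ n₂) 2 := ⟨_, rfl⟩
  obtain ⟨x₁, hx₁⟩ := hS
  obtain ⟨x₂, hx₂⟩ := eventually_atTop.1 (ev_log (A + 1) (s := 1 / 2) (by norm_num) 2)
  refine ⟨max (max x₁ x₂) (m ^ 4 + 1), fun x hx q hq a hAd => ?_⟩
  have hxx₁ : x₁ ≤ x := le_trans (le_trans (le_max_left _ _) (le_max_left _ _)) hx
  have hxx₂ : x₂ ≤ x := le_trans (le_trans (le_max_right _ _) (le_max_left _ _)) hx
  have hxm : m ^ 4 ≤ x := le_trans (le_trans (Nat.le_succ _) (le_max_right _ _)) hx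
  have hx1 : 1 ≤ x := le_trans (le_trans (Nat.le_add_left 1 _) (le_max_right _ _)) hx
  obtain ⟨hL2, hLp⟩ := hx₂ x hxx₂
  obtain ⟨Bad, hb1, hb2⟩ := hx₁ x hxx₁ q hq a hAd
  obtain ⟨L, hLd⟩ : ∃ L, L = Real.log x := ⟨_, rfl⟩
  rw [← hLd] at hb1 hL2 hLp ⊢
  have hx0 : (0 : ℝ) < x := by exact_mod_cast hx1
  have hL0 : 0 < L := by linarith
  have hL1 : 1 ≤ L := by linarith
  have hq0 : (0 : ℝ) < q := by exact_mod_cast hq
  have hq1 : (1 : ℝ) ≤ q := by exact_mod_cast hq
  refine ⟨Bad ∪ (if q ≤ m then range m else ∅), ?_, ?_⟩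
  · have h1 : ((Bad ∪ (if q ≤ m then range m else ∅)).card : ℝ) ≤ Bad.card + (if q ≤ m then range m else ∅).card := by
      have := card_union_le Bad (if q ≤ m then range m else ∅)
      exact_mod_cast this
    have h2 : (x : ℝ) / (q * L ^ (A + W + 3)) ≤ x / (q * L ^ (A + 1)) := by
      apply div_le_div_of_nonneg_left hx0.le (by positivity)
      have : L ^ (A + 1) ≤ L ^ (A + W + 3) := pow_le_pow_right₀ hL1 (by omega)
      gcongr
    have h3 : ((if q ≤ m then range m else ∅).card : ℝ) ≤ x / (q * L ^ (A + 1)) := by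
      split_ifs with h
      · rw [card_range, le_div_iff₀ (by positivity)]
        have hqm : (q : ℝ) ≤ m := by exact_mod_cast h
        have h4 : (m : ℝ) ^ 4 ≤ x := by exact_mod_cast hxm
        have h5 : (m : ℝ) ^ 2 ≤ (x : ℝ) ^ (1 / 2 : ℝ) := by
          rw [← Real.sqrt_eq_rpow]
          apply Real.le_sqrt_of_sq_le
          rw [← pow_mul]
          exact h4
        calc (m : ℝ) * (q * L ^ (A + 1)) ≤ m * (m * (x : ℝ) ^ (1 / 2 : ℝ)) := by gcongr
          _ = (m : ℝ) ^ 2 * (x : ℝ) ^ (1 / 2 : ℝ) := by ring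
          _ ≤ (x : ℝ) ^ (1 / 2 : ℝ) * (x : ℝ) ^ (1 / 2 : ℝ) := by gcongr
          _ = x := by
              rw [← Real.rpow_add hx0]
              norm_num
      · rw [card_empty, Nat.cast_zero]
        positivity
    have h4 : (x : ℝ) / (q * L ^ (A + 1)) = x / (q * L ^ A) * (1 / L) := by
      rw [pow_add]
      field_simp
    have h5 : 1 / L ≤ 1 / 2 := one_div_le_one_div_of_le (by norm_num) hL2
    have h6 : (x : ℝ) / (q * L ^ A) * (1 / L) ≤ x / (q * L ^ A) * (1 / 2) :=
      mul_le_mul_of_nonneg_left h5 (by positivity)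
    linarith
  intro n hnx hn hmod h2n U V hUV hV h2V hV0 hD
  rw [mem_union, not_or] at hn
  obtain ⟨hnB, hnS⟩ := hn
  have hn2 : 2 ≤ n := by omega
  have hnr : (2 : ℝ) ≤ n := by exact_mod_cast hn2
  have hn0 : (0 : ℝ) < n := by linarith
  have hVr : (0 : ℝ) < V := by exact_mod_cast hV0
  have hn13 : (n : ℝ) ^ (1 / 3 : ℝ) ≤ (n : ℝ) ^ (1 / 3 + ρ) :=
    Real.rpow_le_rpow_of_exponent_le (by linarith) (by linarith)
  have hnV : (n : ℝ) ^ (1 / 3 : ℝ) ≤ V := by
    refine hn13.trans (le_trans ?_ hV)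
    exact le_mul_of_one_le_left (by positivity) hq1
  have hmn : m ≤ n := by
    by_contra hcon
    push Not at hcon
    have hqm : q ≤ m := by
      have h1 : (q : ℝ) ≤ n := by
        have h2 : (q : ℝ) * 1 ≤ q * (n : ℝ) ^ (1 / 3 + ρ) := by
          have : 1 ≤ (n : ℝ) ^ (1 / 3 + ρ) := Real.one_le_rpow (by linarith) (by linarith)
          gcongr
        have h3 : 2 * (V : ℝ) ≤ n := by exact_mod_cast h2V
        linarith
      have h2 : q ≤ n := by exact_mod_cast h1
      omega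
    apply hnS
    rw [if_pos hqm, mem_range]
    exact hcon
  have hn1 : n₁ ≤ n := le_trans (by rw [hm]; exact le_trans (le_max_left _ _) (le_max_left _ _)) hmn
  have hnn2 : n₂ ≤ n := le_trans (by rw [hm]; exact le_trans (le_max_right _ _) (le_max_left _ _)) hmn
  obtain ⟨hlε, -⟩ := h₂ n hnn2
  have hr := h₁ n hn1 U V hUV hnV h2V hD
  have hc := hb2 n hnx hnB hmod h2n U V hUV hV h2V
  obtain ⟨l, hl⟩ : ∃ l, l = Real.log n := ⟨_, rfl⟩
  obtain ⟨v, hv⟩ : ∃ v, v = Real.log V := ⟨_, rfl⟩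
  rw [← hl] at hlε hr hc hD
  rw [← hl, ← hv]
  rw [← hv] at hr
  have hl0 : 0 < l := by
    rw [hl]
    exact Real.log_pos (by linarith)
  have hV2 : 1 < (V : ℝ) := by
    have h1 : (1 : ℝ) < (n : ℝ) ^ (1 / 3 : ℝ) := Real.one_lt_rpow (by linarith) (by norm_num)
    linarith
  have hv0 : 0 < v := by
    rw [hv]
    exact Real.log_pos hV2
  have hvl : v ≤ l := by
    rw [hv, hl]
    apply Real.log_le_log hVr
    have : V ≤ n := by omega
    exact_mod_cast this
  have h2ε : 0 < 2 / ε := by positivity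
  have hl1 : 1 ≤ l := by linarith
  have hlε2 : 2 ≤ ε * l := by
    have : 2 / ε ≤ l := by linarith
    rw [div_le_iff₀ hε] at this
    linarith
  have hSS1 := one_le_SS n
  obtain ⟨D, hDd⟩ : ∃ D, D = (V : ℝ) - U := ⟨_, rfl⟩
  rw [← hDd] at hD hr ⊢
  have hlW0 : 0 < l ^ W := by positivity
  have hD0 : 0 < D := lt_of_lt_of_le (by positivity) hD
  obtain ⟨M, hM⟩ : ∃ M, M = D / (v * l) := ⟨_, rfl⟩
  rw [← hM] at hr ⊢
  have hM0 : 0 < M := by rw [hM]; positivity
  -- the error
  have h3 : (V : ℝ) / l ^ (A + W + 3) ≤ ε / 2 * M := by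
    have e1 : (V : ℝ) / l ^ (A + W + 3) ≤ D / l ^ 3 := by
      rw [div_le_iff₀ (by positivity)]
      rw [div_le_iff₀ hlW0] at hD
      have e2 : D / l ^ 3 * l ^ (A + W + 3) = D * l ^ W * l ^ A := by
        rw [pow_add, pow_add]
        field_simp
      rw [e2]
      have e3 : 1 ≤ l ^ A := one_le_pow₀ hl1
      calc (V : ℝ) ≤ D * l ^ W := hD
        _ ≤ D * l ^ W * l ^ A := le_mul_of_one_le_right (by positivity) e3
    have e2 : D / l ^ 3 * l ≤ M := by
      have : D / l ^ 3 * l = D / (l * l) := by field_simp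
      rw [this, hM]
      apply div_le_div_of_nonneg_left hD0.le (by positivity)
      exact mul_le_mul_of_nonneg_right hvl hl0.le
    have e3 : 0 ≤ D / l ^ 3 := by positivity
    have e4 : 2 * (D / l ^ 3) ≤ ε * l * (D / l ^ 3) := mul_le_mul_of_nonneg_right hlε2 e3
    have e5 : ε * l * (D / l ^ 3) ≤ ε * M := by
      calc ε * l * (D / l ^ 3) = ε * (D / l ^ 3 * l) := by ring
        _ ≤ ε * M := mul_le_mul_of_nonneg_left e2 hε.le
    linarith
  have h4 : |SS n * ∑ b ∈ Ioc U V, wt n b - SS n * M| ≤ SS n * (ε / 2 * M) := by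
    rw [← mul_sub, abs_mul, abs_of_pos (by linarith : (0 : ℝ) < SS n)]
    apply mul_le_mul_of_nonneg_left _ (by linarith)
    refine hr.trans ?_
    exact mul_le_mul_of_nonneg_right heε hM0.le
  have h5 : ε / 2 * M ≤ SS n * (ε / 2 * M) := le_mul_of_one_le_left (by positivity) hSS1
  calc |(wc n U V : ℝ) - SS n * M| = |((wc n U V : ℝ) - SS n * ∑ b ∈ Ioc U V, wt n b) +
        (SS n * ∑ b ∈ Ioc U V, wt n b - SS n * M)| := by congr 1; ring
    _ ≤ _ := abs_add_le _ _
    _ ≤ SS n * (ε / 2 * M) + SS n * (ε / 2 * M) := by linarith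
    _ = ε * (SS n * M) := by ring

end Pool.Agent.H567.HW
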