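import Pool.Agent.H567.HW.CoreLA
import Pool.Agent.H567.HW.LongG
import Pool.Agent.H567.HW.RelG

/-!
Project HW (helper567), part 54: the classes with a small common divisor with the modulus.
-/

set_option autoImplicit false

namespace Pool.Agent.H567.HW

open Finset
open Pool.Agent.Y883.GJ (LA)
open Pool.Agent.Y614.GJ.Core (ev_log)

/-- the greatest common divisor is small -/
def AdG (T x q a : ℕ) : Prop := (Nat.gcd a q : ℝ) ≤ Real.log x ^ T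

lemma coreG (A T : ℕ) {ρ : ℝ} (hρ : 0 < ρ) : CoreStm (AdG T) A ρ := by
  obtain ⟨B, hB⟩ := coreLA A (2 * T) hρ
  refine ⟨B, fun E => ?_⟩
  obtain ⟨Y₁, hY₁⟩ := hB E
  obtain ⟨Y₂, hY₂⟩ := Filter.eventually_atTop.1 (ev_log 1 (s := 1) (by norm_num) 100)
  refine ⟨max Y₁ (max Y₂ 1), fun Y hY z hz1 hz2 q Q _ hqQ hQY a hgcd => ?_⟩
  have hYY₁ : Y₁ ≤ Y := le_trans (le_max_left _ _) hY
  have hL100 := (hY₂ Y (le_trans (le_max_left _ _) (le_trans (le_max_right _ _) hY))).1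
  have hY1 : 1 ≤ Y := le_trans (le_max_right _ _) (le_trans (le_max_right _ _) hY)
  have hY0 : (0 : ℝ) < Y := by exact_mod_cast hY1
  have hYr1 : (1 : ℝ) ≤ Y := by exact_mod_cast hY1
  have hq : 1 ≤ q := Nat.pos_of_ne_zero (NeZero.ne q)
  have hq1 : (1 : ℝ) ≤ q := by exact_mod_cast hq
  have hgl : Real.log Y ≤ 3 * Real.log Q := by
    have h1 : (Y : ℝ) ^ (1 / 3 : ℝ) ≤ Q := by
      calc (Y : ℝ) ^ (1 / 3 : ℝ) ≤ (Y : ℝ) ^ (1 / 3 + ρ) :=
            Real.rpow_le_rpow_of_exponent_le hYr1 (by linarith)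
        _ ≤ q * (Y : ℝ) ^ (1 / 3 + ρ) := le_mul_of_one_le_left (by positivity) hq1
        _ ≤ Q := hqQ
    have h2 := Real.log_le_log (by positivity) h1
    rw [Real.log_rpow hY0] at h2
    linarith
  have hval : ((a : ZMod q)).val = a % q := ZMod.val_natCast q a
  have hgcd' : (Nat.gcd ((a : ZMod q)).val q : ℝ) ≤ Real.log Q ^ (2 * T) := by
    rw [hval]
    have e1 : Nat.gcd (a % q) q = Nat.gcd a q := by
      rw [← Nat.gcd_rec, Nat.gcd_comm]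
    rw [e1]
    calc (Nat.gcd a q : ℝ) ≤ Real.log Y ^ T := hgcd
      _ ≤ (3 * Real.log Q) ^ T := pow_le_pow_left₀ (by linarith) hgl T
      _ ≤ (Real.log Q * Real.log Q) ^ T := by
          apply pow_le_pow_left₀ (by linarith)
          nlinarith
      _ = Real.log Q ^ (2 * T) := by rw [← sq, ← pow_mul]
  exact hY₁ Y hYY₁ z hz1 hz2 q Q hqQ hQY (a : ZMod q) hgcd'

theorem hybridG (A T : ℕ) {ρ : ℝ} (hρ : 0 < ρ) : HybStm (AdG T) A ρ := by
  obtain ⟨x₀, h⟩ := hybrid_of (AdG (T + 1)) A hρ (block_of (AdG (T + 1)) (A + 3) hρ (coreG _ _ (by positivity)))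
  obtain ⟨x₁, hx₁⟩ := Filter.eventually_atTop.1 (ev_log 1 (s := 1) (by norm_num) (2 ^ (T + 8)))
  refine ⟨max x₀ (max x₁ 1), fun x hx q hq a hgcd => ?_⟩
  have hLT := (hx₁ x (le_trans (le_max_left _ _) (le_trans (le_max_right _ _) hx))).1
  have hx1 : 1 ≤ x := le_trans (le_max_right _ _) (le_trans (le_max_right _ _) hx)
  have hx0 : (0 : ℝ) < x := by exact_mod_cast hx1
  refine h x (le_trans (le_max_left _ _) hx) q hq a fun Y hY1 hY2 _ => ?_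
  unfold AdG at hgcd ⊢
  have hp : (0 : ℝ) < 2 ^ T := by positivity
  have hL0 : 0 < Real.log x := lt_of_lt_of_le (by positivity) hLT
  have hlogY : Real.log x ≤ 2 * Real.log Y := by
    have h1 := Real.log_le_log (by positivity) hY1
    rw [Real.log_rpow hx0] at h1
    linarith
  have hlY0 : 0 < Real.log Y := by linarith
  calc (Nat.gcd a q : ℝ) ≤ Real.log x ^ T := hgcd
    _ ≤ (2 * Real.log Y) ^ T := pow_le_pow_left₀ hL0.le hlogY T
    _ = 2 ^ T * Real.log Y ^ T := mul_pow _ _ _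
    _ ≤ Real.log Y * Real.log Y ^ T := by
        apply mul_le_mul_of_nonneg_right _ (by positivity)
        have h1 : (2 : ℝ) ^ (T + 8) = 2 ^ T * 256 := by rw [pow_add]; norm_num
        linarith
    _ = Real.log Y ^ (T + 1) := by ring

theorem longGc (A T : ℕ) {ρ : ℝ} (hρ : 0 < ρ) : LongStm (AdG T) A ρ := by
  obtain ⟨x₀, h⟩ := longP A T hρ
  refine ⟨max x₀ 1, fun x hx q hq hqx a hgcd => ?_⟩
  have hx1 : 1 ≤ x := le_trans (le_max_right _ _) hx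
  obtain ⟨Bad, h1, h2⟩ := h x (le_trans (le_max_left _ _) hx) q hq hqx a hgcd
  refine ⟨Bad.filter (fun n => 2 ≤ n), le_trans (by exact_mod_cast card_filter_le _ _) h1, ?_⟩
  intro n hnx hn hmod h2n P hP hPn
  by_cases hP0 : P = 0
  · subst hP0
    simp [SR]
  exact h2 n hnx (fun hc => hn (mem_filter.2 ⟨hc, by omega⟩)) hmod h2n P hP (by omega)

theorem wG_all (A T : ℕ) {ρ : ℝ} (hρ : 0 < ρ) : WStm (AdG T) A ρ :=
  all_of (AdG T) A hρ (hybridG (A + 1) T hρ) (longGc (A + 4) T hρ)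

theorem countG (A T : ℕ) {ρ : ℝ} (hρ : 0 < ρ) : CStm (AdG T) A ρ :=
  count_of (AdG T) A hρ (wG_all (A + 4) T (lt_min (by linarith) (by norm_num)))

/-- all windows at all scales, with the bounds in terms of `n` -/
theorem scaleAll (A T : ℕ) {ρ : ℝ} (hρ : 0 < ρ) : ∃ x₀ : ℕ, ∀ x : ℕ, x₀ ≤ x → ∀ q : ℕ, 1 ≤ q → ∀ a : ℕ,
    (Nat.gcd a q : ℝ) ≤ Real.log x ^ T → ∃ Bad : Finset ℕ, (Bad.card : ℝ) ≤ x / (q * Real.log x ^ A) ∧
      ∀ n : ℕ, n ≤ x → n ∉ Bad → n % q = a % q → 2 ∣ n → ∀ U V : ℕ, U ≤ V → (q : ℝ) * (n : ℝ) ^ (1 / 3 + ρ) ≤ V →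
        2 * V ≤ n → |(wc n U V : ℝ) - SS n * ∑ b ∈ Ioc U V, wt n b| ≤ V / Real.log n ^ A :=
  scale_of (AdG T) A hρ (countG (A + 1) T (div_pos (lt_min hρ (by norm_num)) (by norm_num)))

/-- relative form: windows at all scales -/
theorem relAll (A T W : ℕ) {ρ ε : ℝ} (hρ : 0 < ρ) (hε : 0 < ε) : ∃ x₀ : ℕ, ∀ x : ℕ, x₀ ≤ x → ∀ q : ℕ, 1 ≤ q → ∀ a : ℕ,
    (Nat.gcd a q : ℝ) ≤ Real.log x ^ T → ∃ Bad : Finset ℕ, (Bad.card : ℝ) ≤ x / (q * Real.log x ^ A) ∧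
      ∀ n : ℕ, n ≤ x → n ∉ Bad → n % q = a % q → 2 ∣ n → ∀ U V : ℕ, U ≤ V → (q : ℝ) * (n : ℝ) ^ (1 / 3 + ρ) ≤ V →
        2 * V ≤ n → 0 < V → (V : ℝ) / Real.log n ^ W ≤ (V : ℝ) - U →
          |(wc n U V : ℝ) - SS n * (((V : ℝ) - U) / (Real.log V * Real.log n))| ≤
            ε * (SS n * (((V : ℝ) - U) / (Real.log V * Real.log n))) :=
  rel_of (AdG T) A W hρ hε (scaleAll (A + W + 3) T hρ)

end Pool.Agent.H567.HW
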