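import Pool.Agent.H567.HW.LongG
import Pool.Agent.H567.HW.AllG

/-!
Project HW (helper567), part 55: long first summands, all classes, from the windows.
-/

set_option autoImplicit false

namespace Pool.Agent.H567.HW

open Finset
open Pool.Agent.Y883.GJ (LA)
open Pool.Agent.H373R2.T7 (lamz Vz Vz_pos lamz_nonneg)
open Pool.Agent.Y614.GJ.Core (ev_log)

/-- the estimate for the mean square, windows, for the moduli with the property `R` -/
def CoreVStm (R : ℕ → ℕ → Prop) (A D : ℕ) (ρ : ℝ) : Prop := ∃ B : ℕ, ∀ E : ℕ, ∃ Y₀ : ℕ, ∀ Y : ℕ, Y₀ ≤ Y →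
    ∀ z : ℕ, Real.log (6 * Y) ^ B ≤ z → (z : ℝ) ≤ Real.log Y ^ E → ∀ (q Q V : ℕ) [NeZero q],
    (q : ℝ) * (Y : ℝ) ^ (1 / 3 + ρ) ≤ Q → Q ≤ Y → V ≤ 2 * Y → (V : ℝ) ≤ Q * Real.log Q ^ D → R Y q → ∀ a : ZMod q,
      ∑ n ∈ (Icc (Y + 2 * Q) (2 * Y)).filter (fun n : ℕ => (n : ZMod q) = a),
        ‖∑ b ∈ Icc 1 Q, LA (V + b) * GZ z (n - b)‖ ^ 2 ≤ Y * (Q : ℝ) ^ 2 / (q * Real.log Q ^ A)

lemma core_of_V {R : ℕ → ℕ → Prop} {A D : ℕ} {ρ : ℝ} (h : CoreVStm R A D ρ) : CoreStm (fun Y q _ => R Y q) A ρ := by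
  obtain ⟨B, hB⟩ := h
  refine ⟨B, fun E => ?_⟩
  obtain ⟨Y₀, hY₀⟩ := hB E
  refine ⟨Y₀, fun Y hY z hz1 hz2 q Q _ hqQ hQY a hR => ?_⟩
  have := hY₀ Y hY z hz1 hz2 q Q 0 hqQ hQY (Nat.zero_le _) (by
    rw [Nat.cast_zero]
    have : 0 ≤ Real.log (Q : ℝ) := Real.log_natCast_nonneg Q
    positivity) hR (a : ZMod q)
  simp only [Nat.zero_add] at this
  exact this

/-- a sum over consecutive windows -/
lemma sum_blocks (f : ℕ → ℂ) (H : ℕ) : ∀ J : ℕ, ∑ b ∈ Icc 1 (J * H), f b =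
    ∑ i ∈ range J, ∑ b ∈ Icc 1 H, f (i * H + b) := by
  intro J
  induction J with
  | zero => simp
  | succ J ih =>
    rw [sum_range_succ, ← ih]
    have e1 : Icc 1 ((J + 1) * H) = Icc 1 (J * H) ∪ Ioc (J * H) ((J + 1) * H) := by
      ext b
      have : (J + 1) * H = J * H + H := by ring
      simp only [mem_union, mem_Icc, mem_Ioc]
      omega
    have hd : Disjoint (Icc 1 (J * H)) (Ioc (J * H) ((J + 1) * H)) := by
      rw [disjoint_left]
      intro b hb hb'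
      rw [mem_Icc] at hb
      rw [mem_Ioc] at hb'
      omega
    rw [e1, sum_union hd]
    congr 1
    symm
    apply sum_bij (fun b _ => J * H + b)
    · intro b hb
      rw [mem_Icc] at hb
      have : (J + 1) * H = J * H + H := by ring
      rw [mem_Ioc]
      omega
    · intro b _ b' _ h
      simpa using h
    · intro n hn
      have : (J + 1) * H = J * H + H := by ring
      rw [mem_Ioc] at hn
      exact ⟨n - J * H, by rw [mem_Icc]; omega, by omega⟩
    · intro b _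
      rfl

/-- one window: the number of the exceptions -/
lemma bad_shift {q a V H Y : ℕ} [NeZero q] {z A : ℕ} {T₀ : ℝ} (hT₀ : 0 < T₀) (Bad : Finset ℕ)
    (hBad : ∀ n ∈ Bad, n % q = a % q ∧ Y + 2 * H + V ≤ n ∧ n ≤ 2 * Y + V ∧
      T₀ < ‖∑ b ∈ Icc 1 H, LA (V + b) * GZ z (n - V - b)‖)
    (hcore : ∀ a' : ZMod q, ∑ n ∈ (Icc (Y + 2 * H) (2 * Y)).filter (fun n : ℕ => (n : ZMod q) = a'),
        ‖∑ b ∈ Icc 1 H, LA (V + b) * GZ z (n - b)‖ ^ 2 ≤ Y * (H : ℝ) ^ 2 / (q * Real.log H ^ A)) :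
    (Bad.card : ℝ) * T₀ ^ 2 ≤ Y * (H : ℝ) ^ 2 / (q * Real.log H ^ A) := by
  refine le_trans ?_ (hcore ((a : ZMod q) - (V : ZMod q)))
  have h1 : (Bad.card : ℝ) * T₀ ^ 2 ≤ ∑ n ∈ Bad, ‖∑ b ∈ Icc 1 H, LA (V + b) * GZ z (n - V - b)‖ ^ 2 := by
    rw [← nsmul_eq_mul]
    apply card_nsmul_le_sum
    intro n hn
    exact pow_le_pow_left₀ hT₀.le (hBad n hn).2.2.2.le 2
  refine h1.trans ?_
  have hinj : Set.InjOn (fun n => n - V) (Bad : Set ℕ) := by
    intro n hn m hm h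
    have h1 := hBad n hn
    have h2 := hBad m hm
    simp only at h
    omega
  have h2 : ∑ n ∈ Bad, ‖∑ b ∈ Icc 1 H, LA (V + b) * GZ z (n - V - b)‖ ^ 2 =
      ∑ m ∈ Bad.image (fun n => n - V), ‖∑ b ∈ Icc 1 H, LA (V + b) * GZ z (m - b)‖ ^ 2 := by
    rw [sum_image hinj]
  rw [h2]
  apply sum_le_sum_of_subset_of_nonneg
  · intro m hm
    rw [mem_image] at hm
    obtain ⟨n, hn, rfl⟩ := hm
    obtain ⟨k1, k2, k3, -⟩ := hBad n hn
    rw [mem_filter, mem_Icc]
    refine ⟨by omega, ?_⟩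
    rw [Nat.cast_sub (by omega)]
    congr 1
    rw [ZMod.natCast_eq_natCast_iff']
    exact k1
  · intro m _ _
    positivity

/-- the scale of an integer -/
lemma scale_ex {m H : ℕ} (h : 32 * H + 16 ≤ m) : ∃ Y k : ℕ, (Y = 2 ^ k ∨ Y = 3 * 2 ^ k / 4) ∧ k = Nat.log 2 m ∧
    Y + 2 * H ≤ m ∧ m ≤ 2 * Y := by
  obtain ⟨k, hk⟩ : ∃ k, k = Nat.log 2 m := ⟨_, rfl⟩
  have hk1 : 2 ^ k ≤ m := by rw [hk]; exact Nat.pow_log_le_self 2 (by omega)
  have hk2 : m < 2 * 2 ^ k := by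
    have := Nat.lt_pow_succ_log_self (b := 2) (by norm_num) m
    rw [← hk, pow_succ] at this
    omega
  by_cases hc : 2 ^ k + 2 * H ≤ m
  · exact ⟨2 ^ k, k, Or.inl rfl, hk, hc, by omega⟩
  · exact ⟨3 * 2 ^ k / 4, k, Or.inr rfl, hk, by omega, by omega⟩

lemma log2_two {x : ℕ} (hx : 1 ≤ x) : (Nat.log 2 x : ℝ) ≤ 2 * Real.log x := by
  have h1 : 2 ^ Nat.log 2 x ≤ x := Nat.pow_log_le_self 2 (by omega)
  have h2 : (2 : ℝ) ^ Nat.log 2 x ≤ x := by exact_mod_cast h1
  have h3 := Real.log_le_log (by positivity) h2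
  rw [Real.log_pow] at h3
  have h4 := Real.log_two_gt_d9
  have h5 : (0 : ℝ) ≤ (Nat.log 2 x : ℝ) := Nat.cast_nonneg _
  nlinarith

lemma million {L : ℝ} (h : 1000 ≤ L) : (1000000 : ℝ) ≤ L ^ 2 := by nlinarith

lemma pow_half {L a b : ℝ} {U : ℕ} (hL : 2 ^ (U + 2) ≤ L) (ha : 0 < a) (hb : b = a * L / 2 ^ (U + 1)) :
    2 * a ≤ b := by
  rw [hb, le_div_iff₀ (by positivity)]
  have h5 : (2 : ℝ) ^ (U + 2) = 2 * 2 ^ (U + 1) := by ring
  rw [h5] at hL
  nlinarith

lemma le_of_div_pos {a b H P : ℝ} (hH : 1 ≤ H) (ha : 0 < a) (h : H * a ≤ P) (hb : b ≤ a) : b ≤ P := by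
  nlinarith

/-- long first summands, all classes -/
theorem long_of (R : ℕ → ℕ → Prop) (A : ℕ) {ρ : ℝ} (hρ : 0 < ρ) (hcore : CoreVStm R (6 * A + 30) (2 * A + 8) (ρ / 2)) :
    LongStm (AdX (fun Y q _ => R Y q)) A ρ := by
  classical
  have hρ2 : 0 < ρ / 2 := by positivity
  obtain ⟨A₂, hA₂⟩ : ∃ A₂, A₂ = 6 * A + 30 := ⟨_, rfl⟩
  obtain ⟨U, hU⟩ : ∃ U, U = 2 * A + 7 := ⟨_, rfl⟩
  have hU1 : 2 * A + 8 = U + 1 := by omega
  rw [← hA₂, hU1] at hcore
  obtain ⟨B₁, hB₁⟩ := hcore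
  obtain ⟨B₂, hB₂⟩ := Vz_inv
  obtain ⟨B, hB⟩ : ∃ B, B = max (max B₁ B₂) (A + 6) := ⟨_, rfl⟩
  obtain ⟨Y₁, hY₁⟩ := hB₁ (B + 1)
  obtain ⟨N₂, hN₂⟩ := hB₂ (B + 1)
  obtain ⟨Y₃, hY₃⟩ := mainT (A + 2) (B + 1)
  obtain ⟨Y₄, hY₄⟩ := Filter.eventually_atTop.1 (ev_log (U + A + 2) (s := min (ρ / 2) (1 / 4)) (lt_min hρ2 (by norm_num))
    (max (4 ^ (B + 2)) (max 1000 (max (24 * 2 ^ A₂) (2 ^ (U + 2))))))
  refine ⟨max (max (Y₁ ^ 2) N₂) (max (max Y₃ Y₄) 1), fun x hx q hq hqx a hAd => ?_⟩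
  have hxY₁ : Y₁ ^ 2 ≤ x := le_trans (le_trans (le_max_left _ _) (le_max_left _ _)) hx
  have hxN₂ : N₂ ≤ x := le_trans (le_trans (le_max_right _ _) (le_max_left _ _)) hx
  have hxY₃ : Y₃ ≤ x := le_trans (le_trans (le_trans (le_max_left _ _) (le_max_left _ _)) (le_max_right _ _)) hx
  have hxY₄ : Y₄ ≤ x := le_trans (le_trans (le_trans (le_max_right _ _) (le_max_left _ _)) (le_max_right _ _)) hx
  have hx1 : 1 ≤ x := le_trans (le_trans (le_max_right _ _) (le_max_right _ _)) hx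
  obtain ⟨hLb, hLp⟩ := hY₄ x hxY₄
  obtain ⟨L, hLd⟩ : ∃ L, L = Real.log x := ⟨_, rfl⟩
  rw [← hLd] at hLb hLp
  have hx0 : (0 : ℝ) < x := by exact_mod_cast hx1
  have hxr1 : (1 : ℝ) ≤ x := by exact_mod_cast hx1
  have hL4B : 4 ^ (B + 2) ≤ L := (le_max_left _ _).trans hLb
  have hL1000 : 1000 ≤ L := (le_max_left _ _).trans ((le_max_right _ _).trans hLb)
  have hLA₂ : 24 * 2 ^ A₂ ≤ L := (le_max_left _ _).trans ((le_max_right _ _).trans ((le_max_right _ _).trans hLb))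
  have hLU : 2 ^ (U + 2) ≤ L := (le_max_right _ _).trans ((le_max_right _ _).trans ((le_max_right _ _).trans hLb))
  have hL0 : 0 < L := by linarith
  have hL1 : 1 ≤ L := by linarith
  have hq0 : (0 : ℝ) < q := by exact_mod_cast hq
  have hq1 : (1 : ℝ) ≤ q := by exact_mod_cast hq
  have hNe : NeZero q := ⟨by omega⟩
  have hl6x : Real.log (6 * x) ≤ 2 * L := by
    rw [Real.log_mul (by norm_num) hx0.ne', ← hLd]
    have : Real.log 6 ≤ 6 := (Real.log_le_sub_one_of_pos (by norm_num)).trans (by norm_num)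
    linarith
  have hl6x' : L ≤ Real.log (6 * x) := by rw [hLd]; exact Real.log_le_log hx0 (by linarith)
  have hl6x0 : 0 ≤ Real.log (6 * x) := by linarith
  have hl6x1 : 1 ≤ Real.log (6 * x) := by linarith
  -- the parameter of the model
  obtain ⟨z, hz⟩ : ∃ z, z = ⌈Real.log (6 * x) ^ B⌉₊ := ⟨_, rfl⟩
  have hz1 : Real.log (6 * x) ^ B ≤ z := by rw [hz]; exact Nat.le_ceil _
  have hz2 : (z : ℝ) ≤ (L / 2) ^ (B + 1) := by
    have h1 : (z : ℝ) < Real.log (6 * x) ^ B + 1 := by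
      rw [hz]
      exact Nat.ceil_lt_add_one (by positivity)
    have h2 : Real.log (6 * x) ^ B ≤ (2 * L) ^ B := pow_le_pow_left₀ hl6x0 hl6x B
    have h3 : 1 ≤ (2 * L) ^ B := one_le_pow₀ (by linarith)
    calc (z : ℝ) ≤ 2 * (2 * L) ^ B := by linarith
      _ = 2 * 4 ^ B * (L / 2) ^ B := by
          rw [mul_assoc, ← mul_pow]
          congr 2
          ring
      _ ≤ (L / 2) * (L / 2) ^ B := by
          apply mul_le_mul_of_nonneg_right _ (by positivity)
          have : (4 : ℝ) ^ (B + 2) = 4 ^ B * 16 := by rw [pow_add]; norm_num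
          have h4 : (0 : ℝ) < 4 ^ B := by positivity
          linarith
      _ = (L / 2) ^ (B + 1) := by ring
  have hzB : ∀ B' : ℕ, B' ≤ B → Real.log (6 * x) ^ B' ≤ z := fun B' h => (pow_le_pow_right₀ hl6x1 h).trans hz1
  have hB1 : B₁ ≤ B := by rw [hB]; exact (le_max_left _ _).trans (le_max_left _ _)
  have hB2 : B₂ ≤ B := by rw [hB]; exact (le_max_right _ _).trans (le_max_left _ _)
  have hB3 : A + 6 ≤ B := by rw [hB]; exact le_max_right _ _
  have hz3 : (z : ℝ) ≤ L ^ (B + 1) := hz2.trans (pow_le_pow_left₀ (by linarith) (by linarith) _)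
  have hV : (Vz z)⁻¹ ≤ 3 * Real.log x := by
    have h2 := hN₂ x hxN₂ z ((pow_le_pow_left₀ (by rw [← hLd]; linarith) (by rw [← hLd]; exact hl6x') B₂).trans (hzB B₂ hB2))
      (by rw [← hLd]; exact hz3)
    rw [← hLd] at h2 ⊢
    linarith
  -- the length of the windows
  obtain ⟨H, hH⟩ : ∃ H : ℕ, H = ⌊(x : ℝ) / L ^ U⌋₊ := ⟨_, rfl⟩
  have hLU0 : 0 < L ^ U := by positivity
  have hxρ : L ^ (U + A + 2) ≤ (x : ℝ) ^ (ρ / 2) := hLp.trans (Real.rpow_le_rpow_of_exponent_le hxr1 (min_le_left _ _))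
  have hx4 : L ^ (U + A + 2) ≤ (x : ℝ) ^ (1 / 4 : ℝ) := hLp.trans (Real.rpow_le_rpow_of_exponent_le hxr1 (min_le_right _ _))
  have hx43 : (x : ℝ) = (x : ℝ) ^ (1 / 4 : ℝ) * (x : ℝ) ^ (3 / 4 : ℝ) := by
    rw [← Real.rpow_add hx0]
    norm_num
  have hx34 : (x : ℝ) ^ (3 / 4 : ℝ) * L ^ 2 ≤ x / L ^ U := by
    rw [le_div_iff₀ hLU0]
    calc (x : ℝ) ^ (3 / 4 : ℝ) * L ^ 2 * L ^ U = (x : ℝ) ^ (3 / 4 : ℝ) * L ^ (U + 2) := by ring
      _ ≤ (x : ℝ) ^ (3 / 4 : ℝ) * L ^ (U + A + 2) := by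
          apply mul_le_mul_of_nonneg_left _ (by positivity)
          exact pow_le_pow_right₀ hL1 (by omega)
      _ ≤ (x : ℝ) ^ (3 / 4 : ℝ) * (x : ℝ) ^ (1 / 4 : ℝ) := by gcongr
      _ = x := by rw [mul_comm, ← hx43]
  have hx34' : 1 ≤ (x : ℝ) ^ (3 / 4 : ℝ) := Real.one_le_rpow hxr1 (by norm_num)
  have hL21 : (1000000 : ℝ) ≤ L ^ 2 := million hL1000
  have hHb : (1000000 : ℝ) ≤ x / L ^ U := by
    refine le_trans (hL21.trans ?_) hx34
    exact le_mul_of_one_le_left (by linarith) hx34'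
  have hH1 : (H : ℝ) ≤ x / L ^ U := by rw [hH]; exact Nat.floor_le (by positivity)
  have hH2 : (x : ℝ) / L ^ U ≤ 2 * H := by
    have : (x : ℝ) / L ^ U < H + 1 := by rw [hH]; exact Nat.lt_floor_add_one _
    linarith
  have hH3 : (x : ℝ) ^ (3 / 4 : ℝ) ≤ H := by
    have h1 : (x : ℝ) ^ (3 / 4 : ℝ) * 2 ≤ (x : ℝ) ^ (3 / 4 : ℝ) * L ^ 2 := by
      apply mul_le_mul_of_nonneg_left _ (by positivity)
      linarith
    linarith
  have hHr0 : (0 : ℝ) < H := by linarith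
  have hH0 : 0 < H := by exact_mod_cast hHr0
  have hlH1 : L ≤ 2 * Real.log H := by
    have h1 : (x : ℝ) ^ (1 / 2 : ℝ) ≤ H :=
      (Real.rpow_le_rpow_of_exponent_le hxr1 (by norm_num)).trans hH3
    have h2 := Real.log_le_log (by positivity) h1
    rw [Real.log_rpow hx0, ← hLd] at h2
    linarith
  have hlH0 : 0 < Real.log H := by linarith
  -- the moduli
  have hqH : ∀ Y : ℕ, Y ≤ x → (q : ℝ) * (Y : ℝ) ^ (1 / 3 + ρ / 2) ≤ H := by
    intro Y hYx
    have h1 : (Y : ℝ) ^ (1 / 3 + ρ / 2) ≤ (x : ℝ) ^ (1 / 3 + ρ / 2) := by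
      apply Real.rpow_le_rpow (Nat.cast_nonneg _) _ (by positivity)
      exact_mod_cast hYx
    have h2 : (q : ℝ) * (x : ℝ) ^ (1 / 3 + ρ / 2) * (2 * L ^ U) ≤ x := by
      calc (q : ℝ) * (x : ℝ) ^ (1 / 3 + ρ / 2) * (2 * L ^ U)
          ≤ (x : ℝ) ^ (2 / 3 - ρ) * (x : ℝ) ^ (1 / 3 + ρ / 2) * (x : ℝ) ^ (ρ / 2) := by
            have h3 : 2 * L ^ U ≤ (x : ℝ) ^ (ρ / 2) := by
              refine le_trans ?_ hxρ
              calc 2 * L ^ U ≤ L * L ^ U := by
                    apply mul_le_mul_of_nonneg_right (by linarith) (by positivity)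
                _ = L ^ (U + 1) := by ring
                _ ≤ L ^ (U + A + 2) := pow_le_pow_right₀ hL1 (by omega)
            gcongr
        _ = x := by
            rw [← Real.rpow_add hx0, ← Real.rpow_add hx0]
            have : 2 / 3 - ρ + (1 / 3 + ρ / 2) + ρ / 2 = 1 := by ring
            rw [this, Real.rpow_one]
    have h4 : (q : ℝ) * (x : ℝ) ^ (1 / 3 + ρ / 2) ≤ x / L ^ U / 2 := by
      rw [div_div, le_div_iff₀ (by positivity)]
      linarith
    calc (q : ℝ) * (Y : ℝ) ^ (1 / 3 + ρ / 2) ≤ q * (x : ℝ) ^ (1 / 3 + ρ / 2) := by gcongr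
      _ ≤ x / L ^ U / 2 := h4
      _ ≤ H := by linarith
  -- the exceptional sets
  obtain ⟨T₀, hT₀⟩ : ∃ T₀ : ℝ, T₀ = H / L ^ (A + 2) := ⟨_, rfl⟩
  have hT₀0 : 0 < T₀ := by rw [hT₀]; positivity
  obtain ⟨Jm, hJm⟩ : ∃ Jm : ℕ, Jm = ⌊2 * L ^ U⌋₊ + 1 := ⟨_, rfl⟩
  have hJm1 : (Jm : ℝ) ≤ 3 * L ^ U := by
    have h1 : ((⌊2 * L ^ U⌋₊ : ℕ) : ℝ) ≤ 2 * L ^ U := Nat.floor_le (by positivity)
    have h2 : 1 ≤ L ^ U := one_le_pow₀ hL1
    rw [hJm]
    push_cast
    linarith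
  obtain ⟨S, hS⟩ : ∃ S : Finset ℕ, S = ((range (Nat.log 2 x + 1)).image (fun k => 2 ^ k) ∪
      (range (Nat.log 2 x + 1)).image (fun k => 3 * 2 ^ k / 4)).filter (fun Y : ℕ => (x : ℝ) ^ (1 / 2 : ℝ) ≤ (Y : ℝ) ∧ Y ≤ x) :=
    ⟨_, rfl⟩
  have hSc : (S.card : ℝ) ≤ 6 * L := by
    have h1 : S.card ≤ (Nat.log 2 x + 1) + (Nat.log 2 x + 1) := by
      rw [hS]
      refine (card_filter_le _ _).trans ((card_union_le _ _).trans (Nat.add_le_add ?_ ?_))
      · exact card_image_le.trans (by rw [card_range])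
      · exact card_image_le.trans (by rw [card_range])
    have h2 : (Nat.log 2 x : ℝ) ≤ 2 * L := by
      rw [hLd]
      exact log2_two hx1
    have h3 : (S.card : ℝ) ≤ (((Nat.log 2 x + 1) + (Nat.log 2 x + 1) : ℕ) : ℝ) := by exact_mod_cast h1
    push_cast at h3
    linarith
  have hSk : ∀ Y ∈ S, (∃ k : ℕ, Y = 2 ^ k ∨ Y = 3 * 2 ^ k / 4) ∧ (x : ℝ) ^ (1 / 2 : ℝ) ≤ Y ∧ Y ≤ x := by
    intro Y hY
    rw [hS, mem_filter, mem_union, mem_image, mem_image] at hY
    obtain ⟨h1, h2⟩ := hY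
    refine ⟨?_, h2⟩
    rcases h1 with ⟨k, -, h⟩ | ⟨k, -, h⟩
    · exact ⟨k, Or.inl h.symm⟩
    · exact ⟨k, Or.inr h.symm⟩
  obtain ⟨bad, hbad⟩ : ∃ bad : ℕ × ℕ → Finset ℕ, bad = fun y => (Icc 1 x).filter (fun n => n % q = a % q ∧
    y.2 + 2 * H + y.1 * H ≤ n ∧ n ≤ 2 * y.2 + y.1 * H ∧
      T₀ < ‖∑ b ∈ Icc 1 H, LA (y.1 * H + b) * GZ z (n - y.1 * H - b)‖) := ⟨_, rfl⟩
  obtain ⟨G, hG⟩ : ∃ G : Finset (ℕ × ℕ), G = ((range Jm) ×ˢ S).filter (fun y => y.1 * H ≤ 2 * y.2 ∧ H ≤ y.2) := ⟨_, rfl⟩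
  refine ⟨G.biUnion bad, ?_, ?_⟩
  · -- the number of the exceptions
    have hbadc : ∀ y ∈ G, ((bad y).card : ℝ) ≤ x / (q * L ^ (4 * A + 25)) * (1 / 24) := by
      rintro ⟨i, Y⟩ hy
      rw [hG, mem_filter, mem_product, mem_range] at hy
      obtain ⟨⟨hi, hYS⟩, hVY, hHY⟩ := hy
      simp only at hi hYS hVY hHY
      obtain ⟨hYk, hY12, hYx⟩ := hSk Y hYS
      have hY0 : (0 : ℝ) < Y := lt_of_lt_of_le (by positivity) hY12
      have hYY₁ : Y₁ ≤ Y := by
        have h1 : (Y₁ : ℝ) ≤ Y := by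
          calc (Y₁ : ℝ) = ((Y₁ : ℝ) ^ (2 : ℕ)) ^ (1 / 2 : ℝ) := by
                rw [← Real.rpow_natCast, ← Real.rpow_mul (Nat.cast_nonneg _)]
                norm_num
            _ ≤ (x : ℝ) ^ (1 / 2 : ℝ) := by
                apply Real.rpow_le_rpow (by positivity) _ (by norm_num)
                exact_mod_cast hxY₁
            _ ≤ Y := hY12
        exact_mod_cast h1
      have hYr : (Y : ℝ) ≤ x := by exact_mod_cast hYx
      have hlY : L ≤ 2 * Real.log Y := by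
        have h1 := Real.log_le_log (by positivity) hY12
        rw [Real.log_rpow hx0, ← hLd] at h1
        linarith
      have hl6Y0 : 0 ≤ Real.log (6 * Y) := by
        have : Real.log Y ≤ Real.log (6 * Y) := Real.log_le_log hY0 (by linarith)
        linarith
      have hl6Y : Real.log (6 * Y) ≤ Real.log (6 * x) := Real.log_le_log (by linarith) (by linarith)
      have hz4 : Real.log (6 * Y) ^ B₁ ≤ z := (pow_le_pow_left₀ hl6Y0 hl6Y B₁).trans (hzB B₁ hB1)
      have hz5 : (z : ℝ) ≤ Real.log Y ^ (B + 1) := hz2.trans (pow_le_pow_left₀ (by linarith) (by linarith) _)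
      have hVH : ((i * H : ℕ) : ℝ) ≤ H * Real.log H ^ (U + 1) := by
        have h1 : (i : ℝ) ≤ 2 * L ^ U := by
          have : i ≤ ⌊2 * L ^ U⌋₊ := by omega
          exact (Nat.le_floor_iff (by positivity)).1 this
        have h2 : 2 * L ^ U ≤ Real.log H ^ (U + 1) := by
          have h3 : (L / 2) ^ (U + 1) ≤ Real.log H ^ (U + 1) := pow_le_pow_left₀ (by linarith) (by linarith) _
          refine le_trans ?_ h3
          have h4 : (L / 2) ^ (U + 1) = L ^ U * L / 2 ^ (U + 1) := by rw [div_pow, pow_succ L]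
          exact pow_half hLU hLU0 h4
        push_cast
        rw [mul_comm]
        exact mul_le_mul_of_nonneg_left (h1.trans h2) hHr0.le
      have hR : R Y q := hAd Y hY12 hYx hYk
      have hcore := hY₁ Y hYY₁ z hz4 hz5 q H (i * H) (hqH Y hYx) hHY hVY hVH hR
      have h1 := bad_shift (a := a) hT₀0 (bad (i, Y)) (fun n hn => by
        rw [hbad] at hn
        simp only [mem_filter] at hn
        exact hn.2) hcore
      have h2 : ((bad (i, Y)).card : ℝ) ≤ Y * (H : ℝ) ^ 2 / (q * Real.log H ^ A₂) / T₀ ^ 2 := by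
        rw [le_div_iff₀ (by positivity)]
        exact h1
      refine h2.trans ?_
      have h3 : L ^ A₂ ≤ 2 ^ A₂ * Real.log H ^ A₂ := by
        rw [← mul_pow]
        exact pow_le_pow_left₀ hL0.le hlH1 _
      have h4 : Y * (H : ℝ) ^ 2 / (q * Real.log H ^ A₂) / T₀ ^ 2 = Y / q * (L ^ (2 * A + 4) / Real.log H ^ A₂) := by
        rw [hT₀]
        have : (L ^ (A + 2)) ^ 2 = L ^ (2 * A + 4) := by ring
        rw [div_pow, this]
        field_simp
      rw [h4]
      have h5 : L ^ (2 * A + 4) / Real.log H ^ A₂ ≤ 1 / L ^ (4 * A + 25) * (1 / 24) := by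
        rw [div_mul_div_comm, one_mul, div_le_div_iff₀ (by positivity) (by positivity), one_mul]
        have h6 : L ^ (2 * A + 4) * L ^ (4 * A + 25) * L = L ^ A₂ := by
          rw [hA₂]
          ring
        have h7 : (24 * 2 ^ A₂) * (L ^ (2 * A + 4) * L ^ (4 * A + 25)) ≤ 2 ^ A₂ * Real.log H ^ A₂ := by
          refine le_trans ?_ h3
          rw [← h6, mul_comm _ L]
          apply mul_le_mul_of_nonneg_right hLA₂ (by positivity)
        have h8 : (0 : ℝ) < 2 ^ A₂ := by positivity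
        have h9 : (2 : ℝ) ^ A₂ * (L ^ (2 * A + 4) * (L ^ (4 * A + 25) * 24)) ≤ 2 ^ A₂ * Real.log H ^ A₂ := by
          refine le_trans (le_of_eq ?_) h7
          ring
        exact le_of_mul_le_mul_left h9 h8
      calc (Y : ℝ) / q * (L ^ (2 * A + 4) / Real.log H ^ A₂) ≤ x / q * (1 / L ^ (4 * A + 25) * (1 / 24)) := by
            gcongr
        _ = x / (q * L ^ (4 * A + 25)) * (1 / 24) := by field_simp
    have hGc : (G.card : ℝ) ≤ 18 * L ^ (U + 1) := by
      have h1 : G.card ≤ Jm * S.card := by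
        rw [hG]
        refine (card_filter_le _ _).trans ?_
        rw [card_product, card_range]
      calc (G.card : ℝ) ≤ ((Jm * S.card : ℕ) : ℝ) := by exact_mod_cast h1
        _ = (Jm : ℝ) * S.card := by push_cast; ring
        _ ≤ (3 * L ^ U) * (6 * L) := mul_le_mul hJm1 hSc (Nat.cast_nonneg _) (by positivity)
        _ = 18 * L ^ (U + 1) := by ring
    rw [← hLd]
    calc ((G.biUnion bad).card : ℝ) ≤ ∑ y ∈ G, ((bad y).card : ℝ) := by exact_mod_cast card_biUnion_le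
      _ ≤ ∑ y ∈ G, (x : ℝ) / (q * L ^ (4 * A + 25)) * (1 / 24) := sum_le_sum hbadc
      _ = G.card * ((x : ℝ) / (q * L ^ (4 * A + 25)) * (1 / 24)) := by rw [sum_const, nsmul_eq_mul]
      _ ≤ (18 * L ^ (U + 1)) * ((x : ℝ) / (q * L ^ (4 * A + 25)) * (1 / 24)) := by gcongr
      _ = x / (q * L ^ A) * (3 / 4 * (1 / L ^ (A + 17))) := by
          have : L ^ (4 * A + 25) = L ^ A * L ^ (U + 1) * L ^ (A + 17) := by
            rw [hU]
            ring
          rw [this]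
          field_simp
          ring
      _ ≤ x / (q * L ^ A) * 1 := by
          have h1 : 1 / L ^ (A + 17) ≤ 1 := by
            rw [div_le_one (by positivity)]
            exact one_le_pow₀ hL1
          have h2 : 3 / 4 * (1 / L ^ (A + 17)) ≤ 1 := by linarith
          gcongr
      _ = _ := mul_one _
  · -- the other integers
    intro n hnx hn hmod h2n P hP hPn
    rw [← hLd] at hP ⊢
    have hPr0 : (0 : ℝ) < P := lt_of_lt_of_le (by positivity) hP
    have hP1 : 1 ≤ P := by exact_mod_cast hPr0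
    have hn0 : n ≠ 0 := by omega
    obtain ⟨J, hJ⟩ : ∃ J, J = P / H := ⟨_, rfl⟩
    have hJ1 : J * H ≤ P := by rw [hJ]; exact Nat.div_mul_le_self P H
    have hJ2 : P < J * H + H := by
      rw [hJ]
      have h1 := Nat.div_add_mod P H
      have h2 := Nat.mod_lt P hH0
      have h3 : P / H * H = H * (P / H) := Nat.mul_comm _ _
      omega
    have hPx : P ≤ x := by omega
    -- the length of the windows is small
    have hUA : (x : ℝ) / L ^ U = x / L ^ A * (1 / L ^ (A + 7)) := by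
      have : L ^ U = L ^ A * L ^ (A + 7) := by rw [hU]; ring
      rw [this]
      field_simp
    have hHP : (H : ℝ) ≤ P * (1 / L ^ (A + 7)) := by
      refine hH1.trans ?_
      rw [hUA]
      gcongr
    have hLA7 : (1000 : ℝ) ≤ L ^ (A + 7) := by
      calc (1000 : ℝ) ≤ L := hL1000
        _ = L ^ 1 := (pow_one _).symm
        _ ≤ L ^ (A + 7) := pow_le_pow_right₀ hL1 (by omega)
    have hHP2 : 1000 * H ≤ P := by
      have h1 : (1000 : ℝ) * H ≤ P := by
        have h2 : (P : ℝ) * (1 / L ^ (A + 7)) ≤ P * (1 / 1000) := by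
          apply mul_le_mul_of_nonneg_left _ hPr0.le
          exact one_div_le_one_div_of_le (by norm_num) hLA7
        linarith
      exact_mod_cast h1
    obtain ⟨g, hg⟩ : ∃ g, g = J * H := ⟨_, rfl⟩
    have hg1 : g ≤ P := by rw [hg]; exact hJ1
    have hPg : P < g + H := by rw [hg]; exact hJ2
    have hg2 : P ≤ 2 * g := by omega
    have hgr : (P : ℝ) ≤ 2 * g := by exact_mod_cast hg2
    have hg0 : (0 : ℝ) < g := by linarith
    have hxg : (x : ℝ) ^ (1 / 3 : ℝ) ≤ g := by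
      have h1 : (x : ℝ) ^ (1 / 3 : ℝ) ≤ (x : ℝ) ^ (3 / 4 : ℝ) :=
        Real.rpow_le_rpow_of_exponent_le hxr1 (by norm_num)
      have h2 : (1000 : ℝ) * H ≤ P := by exact_mod_cast hHP2
      linarith
    -- the windows
    have hwin : ∀ i ∈ range J, ‖∑ b ∈ Icc 1 H, LA (i * H + b) * GZ z (n - i * H - b)‖ ≤ T₀ := by
      intro i hi
      rw [mem_range] at hi
      by_contra hcon
      push Not at hcon
      have hiH : i * H + H ≤ g := by
        rw [hg]
        calc i * H + H = (i + 1) * H := by ring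
          _ ≤ J * H := Nat.mul_le_mul_right H hi
      obtain ⟨m, hm⟩ : ∃ m, m = n - i * H := ⟨_, rfl⟩
      have hmP : P ≤ m := by omega
      have hH500 : 500 ≤ H := by
        have : (500 : ℝ) ≤ H := by linarith
        exact_mod_cast this
      obtain ⟨Y, k, hYk, hk, hY1, hY2⟩ := scale_ex (m := m) (H := H) (by omega)
      have hkx : k ∈ range (Nat.log 2 x + 1) := by
        rw [mem_range, hk]
        exact Nat.lt_succ_of_le (Nat.log_mono_right (by omega))
      have hYx : Y ≤ x := by omega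
      have hY12 : (x : ℝ) ^ (1 / 2 : ℝ) ≤ Y := by
        have h1 : (x : ℝ) ^ (1 / 2 : ℝ) ≤ (x : ℝ) ^ (3 / 4 : ℝ) :=
          Real.rpow_le_rpow_of_exponent_le hxr1 (by norm_num)
        have h2 : H ≤ Y := by omega
        have h3 : (H : ℝ) ≤ Y := by exact_mod_cast h2
        linarith
      apply hn
      rw [mem_biUnion]
      refine ⟨(i, Y), ?_, ?_⟩
      · rw [hG, mem_filter, mem_product, mem_range]
        simp only
        refine ⟨⟨?_, ?_⟩, by omega, by omega⟩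
        · -- the number of the windows
          rw [hJm]
          apply Nat.lt_succ_of_le
          apply Nat.le_floor
          have h1 : ((i * H : ℕ) : ℝ) ≤ x := by
            have : i * H ≤ x := by omega
            exact_mod_cast this
          push_cast at h1
          rw [div_le_iff₀ hLU0] at hH2
          by_contra hc
          push Not at hc
          have h2 : (2 * L ^ U) * H < i * H := mul_lt_mul_of_pos_right hc hHr0
          linarith
        · rw [hS, mem_filter, mem_union, mem_image, mem_image]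
          refine ⟨?_, hY12, hYx⟩
          rcases hYk with h | h
          · exact Or.inl ⟨k, hkx, h.symm⟩
          · exact Or.inr ⟨k, hkx, h.symm⟩
      · rw [hbad]
        simp only [mem_filter, mem_Icc]
        exact ⟨⟨by omega, hnx⟩, hmod, by omega, by omega, hcon⟩
    have hsplit : |SR n g - ∑ b ∈ Icc 1 g, ArithmeticFunction.vonMangoldt b * lamz z (n - b)| ≤ g / L ^ (A + 2) := by
      rw [SR_split, hg, sum_blocks]
      refine (norm_sum_le _ _).trans ?_
      have e1 : ∀ i ∈ range J, ‖∑ b ∈ Icc 1 H, LA (i * H + b) * GZ z (n - (i * H + b))‖ ≤ T₀ := by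
        intro i hi
        refine le_trans (le_of_eq ?_) (hwin i hi)
        simp only [Nat.sub_sub]
      refine (sum_le_sum e1).trans ?_
      rw [sum_const, card_range, nsmul_eq_mul, hT₀]
      push_cast
      apply le_of_eq
      ring
    have hmain := hY₃ x hxY₃ z (by
        rw [← hLd]
        exact (pow_le_pow_left₀ hL0.le hl6x' _).trans (hzB _ (by omega)))
      (by rw [← hLd]; exact hz3) hV n g h2n (by omega) (by omega) hxg
    rw [← hLd] at hmain hV
    have hgg : |SR n g - g * SS n| ≤ 2 * ((g : ℝ) / L ^ (A + 2)) := by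
      have e1 : SR n g - g * SS n = (SR n g - ∑ b ∈ Icc 1 g, ArithmeticFunction.vonMangoldt b * lamz z (n - b)) +
          (∑ b ∈ Icc 1 g, ArithmeticFunction.vonMangoldt b * lamz z (n - b) - g * SS n) := by ring
      rw [e1]
      refine (abs_add_le _ _).trans ?_
      linarith
    have hlogn : Real.log n ≤ L := by
      rw [hLd]
      apply Real.log_le_log
      · exact_mod_cast Nat.pos_of_ne_zero hn0
      · exact_mod_cast hnx
    have hvm : ∀ m : ℕ, m ≤ n → ArithmeticFunction.vonMangoldt m ≤ 2 * L := by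
      intro m hm
      refine ArithmeticFunction.vonMangoldt_le_log.trans ?_
      rcases Nat.eq_zero_or_pos m with h0 | h0
      · rw [h0]; simp; linarith
      · have := Real.log_le_log (by exact_mod_cast h0 : (0 : ℝ) < m) (by exact_mod_cast hm : (m : ℝ) ≤ n)
        linarith
    have hSS : SS n ≤ 7 * L ^ 2 := by
      have h1 : ∑ b ∈ Icc 1 g, ArithmeticFunction.vonMangoldt b * lamz z (n - b) ≤ g * (6 * L ^ 2) := by
        calc ∑ b ∈ Icc 1 g, ArithmeticFunction.vonMangoldt b * lamz z (n - b) ≤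
            ∑ b ∈ Icc 1 g, (2 * L) * (3 * L) := by
              refine sum_le_sum fun b hb => ?_
              rw [mem_Icc] at hb
              exact mul_le_mul (hvm b (by omega)) ((lamz_le z _).trans hV) (lamz_nonneg _ _) (by positivity)
          _ = g * (6 * L ^ 2) := by
              rw [sum_const, Nat.card_Icc, nsmul_eq_mul, Nat.add_sub_cancel]
              ring
      have h2 := neg_le_of_abs_le hmain
      have h3 : (g : ℝ) * SS n ≤ g * (7 * L ^ 2) := by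
        have h4 : (g : ℝ) / L ^ (A + 2) ≤ g * L ^ 2 := by
          rw [div_le_iff₀ (by positivity)]
          have h5 : 1 ≤ L ^ 2 * L ^ (A + 2) := by
            rw [← pow_add]
            exact one_le_pow₀ hL1
          calc (g : ℝ) = g * 1 := (mul_one _).symm
            _ ≤ g * (L ^ 2 * L ^ (A + 2)) := by gcongr
            _ = _ := by ring
        linarith
      exact le_of_mul_le_mul_left h3 hg0
    -- the grid
    obtain ⟨M, hM⟩ : ∃ M, M = ⌈L ^ (A + 6)⌉₊ := ⟨_, rfl⟩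
    have hM1 : L ^ (A + 6) ≤ M := by rw [hM]; exact Nat.le_ceil _
    have hLA6 : 1 ≤ L ^ (A + 6) := one_le_pow₀ hL1
    have hM2 : (M : ℝ) ≤ 2 * L ^ (A + 6) := by
      have : (M : ℝ) < L ^ (A + 6) + 1 := by
        rw [hM]
        exact Nat.ceil_lt_add_one (by linarith)
      linarith
    have hM0 : (0 : ℝ) < M := by linarith
    have hML : (M : ℝ) ≤ L ^ (A + 7) := by
      calc (M : ℝ) ≤ 2 * L ^ (A + 6) := hM2
        _ ≤ L * L ^ (A + 6) := by
            apply mul_le_mul_of_nonneg_right (by linarith) (by positivity)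
        _ = L ^ (A + 7) := by ring
    have hMP : (M : ℝ) ≤ P := by
      have h2 : (1 : ℝ) ≤ H := by linarith
      have h3 : (H : ℝ) * L ^ (A + 7) ≤ P := by
        have h4 : (H : ℝ) ≤ P / L ^ (A + 7) := by
          rw [div_eq_mul_one_div]
          exact hHP
        rwa [le_div_iff₀ (by positivity)] at h4
      exact le_of_div_pos h2 (by linarith) h3 hML
    have hg3 : ((P - g : ℕ) : ℝ) ≤ 1 + (P : ℝ) / M := by
      have h1 : ((P - g : ℕ) : ℝ) ≤ H := by
        have : P - g ≤ H := by omega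
        exact_mod_cast this
      have h2 : (P : ℝ) * (1 / L ^ (A + 7)) ≤ P / M := by
        rw [div_eq_mul_one_div (P : ℝ) M]
        apply mul_le_mul_of_nonneg_left _ hPr0.le
        exact one_div_le_one_div_of_le hM0 hML
      linarith
    exact from_grid hL1000 hvm hSS hM1 hMP hg1 (by omega) hg3 hgg

end Pool.Agent.H567.HW
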