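import Pool.Agent.H567.HW.WBil
import Pool.Graph.R_seed8.Y948.GJ.TiMaj

/-!
Project HW (helper567), part 40: few primitive characters of all conductors have a large sum over a dyadic interval.
-/

set_option autoImplicit false

namespace Pool.Agent.H567.HW

open Finset
open Pool.Agent.H376R2.MR (ch DP FK)

/-- Selberg's inequality -/
lemma selberg {ι : Type*} (Ψ : Finset ι) (s : Finset ℕ) (f : ι → ℕ → ℂ) (w : ℕ → ℂ) {M : ℝ} (hM : 0 ≤ M)
    (h : ∀ i ∈ Ψ, ∑ j ∈ Ψ, ‖∑ n ∈ s, f i n * (starRingEnd ℂ) (f j n)‖ ≤ M) :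
    ∑ i ∈ Ψ, ‖∑ n ∈ s, w n * f i n‖ ^ 2 ≤ M * ∑ n ∈ s, ‖w n‖ ^ 2 := by
  obtain ⟨T, hT⟩ : ∃ T : ι → ℂ, T = fun i => ∑ n ∈ s, w n * f i n := ⟨_, rfl⟩
  obtain ⟨S, hS⟩ : ∃ S : ℝ, S = ∑ i ∈ Ψ, ‖T i‖ ^ 2 := ⟨_, rfl⟩
  obtain ⟨V, hV⟩ : ∃ V : ℕ → ℂ, V = fun n => ∑ i ∈ Ψ, (starRingEnd ℂ) (T i) * f i n := ⟨_, rfl⟩
  have hS0 : 0 ≤ S := by rw [hS]; exact sum_nonneg fun _ _ => sq_nonneg _
  have e0 : ∑ i ∈ Ψ, ‖∑ n ∈ s, w n * f i n‖ ^ 2 = S := by rw [hS, hT]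
  rw [e0]
  have hW0 : 0 ≤ ∑ n ∈ s, ‖w n‖ ^ 2 := sum_nonneg fun _ _ => sq_nonneg _
  have e1 : (S : ℂ) = ∑ n ∈ s, w n * V n := by
    rw [hS, hV]
    push_cast
    simp_rw [mul_sum]
    rw [sum_comm]
    refine sum_congr rfl fun i _ => ?_
    have : ((‖T i‖ : ℂ)) ^ 2 = (starRingEnd ℂ) (T i) * T i := by
      rw [mul_comm, Complex.mul_conj, Complex.normSq_eq_norm_sq]
      push_cast
      ring
    rw [this]
    conv_lhs => rw [show T i = ∑ n ∈ s, w n * f i n by rw [hT]]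
    rw [mul_sum]
    have e2 : (starRingEnd ℂ) (∑ n ∈ s, w n * f i n) = (starRingEnd ℂ) (T i) := by rw [hT]
    rw [e2]
    exact sum_congr rfl fun n _ => by ring
  have e2 : S ≤ ∑ n ∈ s, ‖w n‖ * ‖V n‖ := by
    have h1 : S = ‖(S : ℂ)‖ := by rw [Complex.norm_real, Real.norm_eq_abs, abs_of_nonneg hS0]
    rw [h1, e1]
    refine (norm_sum_le _ _).trans (sum_le_sum fun n _ => ?_)
    rw [norm_mul]
  have e3 : S ^ 2 ≤ (∑ n ∈ s, ‖w n‖ ^ 2) * ∑ n ∈ s, ‖V n‖ ^ 2 :=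
    (pow_le_pow_left₀ hS0 e2 2).trans (sum_mul_sq_le_sq_mul_sq _ _ _)
  have e4 : ∑ n ∈ s, ‖V n‖ ^ 2 ≤ M * S := by
    have h1 : ((∑ n ∈ s, ‖V n‖ ^ 2 : ℝ) : ℂ) = ∑ i ∈ Ψ, ∑ j ∈ Ψ, (starRingEnd ℂ) (T i) * T j *
        ∑ n ∈ s, f i n * (starRingEnd ℂ) (f j n) := by
      push_cast
      have h2 : ∀ n ∈ s, ((‖V n‖ : ℂ)) ^ 2 = ∑ i ∈ Ψ, ∑ j ∈ Ψ, (starRingEnd ℂ) (T i) * T j *
          (f i n * (starRingEnd ℂ) (f j n)) := by
        intro n _
        have h3 : ((‖V n‖ : ℂ)) ^ 2 = V n * (starRingEnd ℂ) (V n) := by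
          rw [Complex.mul_conj, Complex.normSq_eq_norm_sq]
          push_cast
          ring
        rw [h3, hV]
        simp only [map_sum, map_mul, Complex.conj_conj]
        rw [sum_mul_sum]
        exact sum_congr rfl fun i _ => sum_congr rfl fun j _ => by ring
      rw [sum_congr rfl h2, sum_comm]
      refine sum_congr rfl fun i _ => ?_
      rw [sum_comm]
      refine sum_congr rfl fun j _ => ?_
      rw [mul_sum]
    have h2 : ∑ n ∈ s, ‖V n‖ ^ 2 ≤ ∑ i ∈ Ψ, ∑ j ∈ Ψ, ‖T i‖ * ‖T j‖ * ‖∑ n ∈ s, f i n * (starRingEnd ℂ) (f j n)‖ := by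
      have h3 : (0 : ℝ) ≤ ∑ n ∈ s, ‖V n‖ ^ 2 := sum_nonneg fun _ _ => sq_nonneg _
      have h4 : ∑ n ∈ s, ‖V n‖ ^ 2 = ‖((∑ n ∈ s, ‖V n‖ ^ 2 : ℝ) : ℂ)‖ := by
        rw [Complex.norm_real, Real.norm_eq_abs, abs_of_nonneg h3]
      rw [h4, h1]
      refine (norm_sum_le _ _).trans (sum_le_sum fun i _ => ?_)
      refine (norm_sum_le _ _).trans (sum_le_sum fun j _ => ?_)
      rw [norm_mul, norm_mul, RCLike.norm_conj]
    refine h2.trans ?_
    have hsym : ∀ i j, ‖∑ n ∈ s, f i n * (starRingEnd ℂ) (f j n)‖ = ‖∑ n ∈ s, f j n * (starRingEnd ℂ) (f i n)‖ := by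
      intro i j
      rw [← RCLike.norm_conj, map_sum]
      congr 1
      refine sum_congr rfl fun n _ => ?_
      rw [map_mul, Complex.conj_conj]
      ring
    have hpt : ∀ i ∈ Ψ, ∀ j ∈ Ψ, ‖T i‖ * ‖T j‖ * ‖∑ n ∈ s, f i n * (starRingEnd ℂ) (f j n)‖ ≤
        ‖T i‖ ^ 2 / 2 * ‖∑ n ∈ s, f i n * (starRingEnd ℂ) (f j n)‖ +
        ‖T j‖ ^ 2 / 2 * ‖∑ n ∈ s, f j n * (starRingEnd ℂ) (f i n)‖ := by
      intro i _ j _
      rw [hsym j i]
      have h4 : 0 ≤ ‖∑ n ∈ s, f i n * (starRingEnd ℂ) (f j n)‖ := norm_nonneg _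
      have h5 : ‖T i‖ * ‖T j‖ ≤ ‖T i‖ ^ 2 / 2 + ‖T j‖ ^ 2 / 2 := by
        nlinarith [sq_nonneg (‖T i‖ - ‖T j‖)]
      calc ‖T i‖ * ‖T j‖ * ‖∑ n ∈ s, f i n * (starRingEnd ℂ) (f j n)‖
          ≤ (‖T i‖ ^ 2 / 2 + ‖T j‖ ^ 2 / 2) * ‖∑ n ∈ s, f i n * (starRingEnd ℂ) (f j n)‖ :=
            mul_le_mul_of_nonneg_right h5 h4
        _ = _ := by ring
    calc ∑ i ∈ Ψ, ∑ j ∈ Ψ, ‖T i‖ * ‖T j‖ * ‖∑ n ∈ s, f i n * (starRingEnd ℂ) (f j n)‖
        ≤ ∑ i ∈ Ψ, ∑ j ∈ Ψ, (‖T i‖ ^ 2 / 2 * ‖∑ n ∈ s, f i n * (starRingEnd ℂ) (f j n)‖ +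
          ‖T j‖ ^ 2 / 2 * ‖∑ n ∈ s, f j n * (starRingEnd ℂ) (f i n)‖) :=
          sum_le_sum fun i hi => sum_le_sum fun j hj => hpt i hi j hj
      _ = ∑ i ∈ Ψ, ‖T i‖ ^ 2 / 2 * ∑ j ∈ Ψ, ‖∑ n ∈ s, f i n * (starRingEnd ℂ) (f j n)‖ +
          ∑ j ∈ Ψ, ‖T j‖ ^ 2 / 2 * ∑ i ∈ Ψ, ‖∑ n ∈ s, f j n * (starRingEnd ℂ) (f i n)‖ := by
          simp only [sum_add_distrib, mul_sum]
          congr 1
          rw [sum_comm]
      _ ≤ ∑ i ∈ Ψ, ‖T i‖ ^ 2 / 2 * M + ∑ j ∈ Ψ, ‖T j‖ ^ 2 / 2 * M := by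
          refine add_le_add ?_ ?_
          · exact sum_le_sum fun i hi => mul_le_mul_of_nonneg_left (h i hi) (by positivity)
          · exact sum_le_sum fun i hi => mul_le_mul_of_nonneg_left (h i hi) (by positivity)
      _ = M * S := by
          rw [hS, mul_sum, ← sum_add_distrib]
          exact sum_congr rfl fun i _ => by ring
  rcases hS0.eq_or_lt with h0 | h0
  · rw [← h0]
    positivity
  · have e5 : S * S ≤ (M * ∑ n ∈ s, ‖w n‖ ^ 2) * S := by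
      calc S * S = S ^ 2 := (sq S).symm
        _ ≤ (∑ n ∈ s, ‖w n‖ ^ 2) * ∑ n ∈ s, ‖V n‖ ^ 2 := e3
        _ ≤ (∑ n ∈ s, ‖w n‖ ^ 2) * (M * S) := mul_le_mul_of_nonneg_left e4 hW0
        _ = _ := by ring
    exact le_of_mul_le_mul_right e5 h0

/-- primitive characters which induce the same character are equal -/
lemma prim_eq {n m : ℕ} [NeZero n] [NeZero m] (χ : DirichletCharacter ℂ n) (ψ : DirichletCharacter ℂ m)
    (hχ : χ.IsPrimitive) (hψ : ψ.IsPrimitive)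
    (h : χ.changeLevel (n.dvd_mul_right m) = ψ.changeLevel (m.dvd_mul_left n)) :
    (⟨n, χ⟩ : Σ f : ℕ, DirichletCharacter ℂ f) = ⟨m, ψ⟩ := by
  have h1 := DirichletCharacter.factorsThrough_gcd χ ψ h
  have h2 : n ≤ n.gcd m := by
    have : χ.conductor ≤ n.gcd m := Nat.sInf_le h1
    rwa [(DirichletCharacter.isPrimitive_def χ).1 hχ] at this
  have hnm : n ∣ m := by
    have h3 : n.gcd m = n := le_antisymm (Nat.gcd_le_left _ (NeZero.pos n)) h2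
    exact Nat.gcd_eq_left_iff_dvd.1 h3
  have hne : NeZero (n * m) := ⟨Nat.mul_ne_zero (NeZero.ne n) (NeZero.ne m)⟩
  have h4 : DirichletCharacter.changeLevel hnm χ = ψ := by
    apply DirichletCharacter.changeLevel_injective (R := ℂ) (m.dvd_mul_left n)
    rw [← DirichletCharacter.changeLevel_trans, ← h]
  have h5 : m ≤ n := by
    have : ψ.conductor ≤ n := Nat.sInf_le ⟨hnm, χ, h4.symm⟩
    rwa [(DirichletCharacter.isPrimitive_def ψ).1 hψ] at this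
  have h6 : n = m := le_antisymm (Nat.le_of_dvd (NeZero.pos m) hnm) h5
  subst h6
  rw [DirichletCharacter.changeLevel_self] at h4
  rw [h4]

/-- the product of two different primitive characters -/
lemma cross {n m : ℕ} [NeZero n] [NeZero m] (χ : DirichletCharacter ℂ n) (ψ : DirichletCharacter ℂ m)
    (hχ : χ.IsPrimitive) (hψ : ψ.IsPrimitive) (hne : (⟨n, χ⟩ : Σ f : ℕ, DirichletCharacter ℂ f) ≠ ⟨m, ψ⟩) :
    ∃ ξ : DirichletCharacter ℂ (n * m), ξ ≠ 1 ∧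
      ∀ k : ℕ, χ (k : ZMod n) * (starRingEnd ℂ) (ψ (k : ZMod m)) = ξ (k : ZMod (n * m)) := by
  have hnz : NeZero (n * m) := ⟨Nat.mul_ne_zero (NeZero.ne n) (NeZero.ne m)⟩
  refine ⟨χ.changeLevel (n.dvd_mul_right m) * (ψ.changeLevel (m.dvd_mul_left n))⁻¹, ?_, ?_⟩
  · intro h
    apply hne
    apply prim_eq χ ψ hχ hψ
    rwa [mul_inv_eq_one] at h
  · intro k
    by_cases hk : k.Coprime (n * m)
    · have hc : IsCoprime (k : ℤ) ((n * m : ℕ) : ℤ) := Nat.isCoprime_iff_coprime.2 hk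
      have e1 : χ.changeLevel (n.dvd_mul_right m) (k : ZMod (n * m)) = χ (k : ZMod n) := by
        have := DirichletCharacter.changeLevel_eq_cast_of_dvd' χ (n.dvd_mul_right m) hc
        simpa using this
      have e2 : ψ.changeLevel (m.dvd_mul_left n) (k : ZMod (n * m)) = ψ (k : ZMod m) := by
        have := DirichletCharacter.changeLevel_eq_cast_of_dvd' ψ (m.dvd_mul_left n) hc
        simpa using this
      rw [MulChar.mul_apply, e1, ← MulChar.star_eq_inv, MulChar.star_apply, e2]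
      rfl
    · have hu : ¬ IsUnit (k : ZMod (n * m)) := by
        rw [ZMod.isUnit_iff_coprime]
        exact hk
      rw [MulChar.map_nonunit _ hu]
      have h1 : ¬ (k.Coprime n ∧ k.Coprime m) := fun h => hk (Nat.Coprime.mul_right h.1 h.2)
      rw [not_and_or] at h1
      rcases h1 with h1 | h1
      · have hu : ¬ IsUnit (k : ZMod n) := by
          rw [ZMod.isUnit_iff_coprime]
          exact h1
        rw [MulChar.map_nonunit _ hu, zero_mul]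
      · have hu : ¬ IsUnit (k : ZMod m) := by
          rw [ZMod.isUnit_iff_coprime]
          exact h1
        rw [MulChar.map_nonunit ψ hu, map_zero, mul_zero]

/-- partial summation -/
lemma abel_c (a w : ℕ → ℂ) {C V : ℝ} (n : ℕ) (hC : ∀ t, ‖∑ i ∈ range t, a i‖ ≤ C) (hw : ∀ i, ‖w i‖ ≤ 1)
    (hV : ∑ i ∈ range (n - 1), ‖w (i + 1) - w i‖ ≤ V) : ‖∑ i ∈ range n, w i * a i‖ ≤ C * (1 + V) := by
  have hC0 : 0 ≤ C := (norm_nonneg _).trans (hC 0)
  have h := Finset.sum_range_by_parts w a n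
  simp only [smul_eq_mul] at h
  rw [h]
  have h1 : ‖w (n - 1) * ∑ i ∈ range n, a i‖ ≤ C := by
    rw [norm_mul]
    calc ‖w (n - 1)‖ * ‖∑ i ∈ range n, a i‖ ≤ 1 * C :=
          mul_le_mul (hw _) (hC n) (norm_nonneg _) zero_le_one
      _ = C := one_mul C
  have h2 : ‖∑ i ∈ range (n - 1), (w (i + 1) - w i) * ∑ i ∈ range (i + 1), a i‖ ≤ C * V := by
    refine (norm_sum_le _ _).trans ?_
    calc ∑ i ∈ range (n - 1), ‖(w (i + 1) - w i) * ∑ i ∈ range (i + 1), a i‖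
        ≤ ∑ i ∈ range (n - 1), C * ‖w (i + 1) - w i‖ := by
          refine sum_le_sum fun i _ => ?_
          rw [norm_mul, mul_comm]
          exact mul_le_mul_of_nonneg_right (hC _) (norm_nonneg _)
      _ = C * ∑ i ∈ range (n - 1), ‖w (i + 1) - w i‖ := by rw [mul_sum]
      _ ≤ C * V := mul_le_mul_of_nonneg_left hV hC0
  calc _ ≤ ‖w (n - 1) * ∑ i ∈ range n, a i‖ + ‖∑ i ∈ range (n - 1), (w (i + 1) - w i) * ∑ i ∈ range (i + 1), a i‖ :=
        norm_sub_le _ _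
    _ ≤ C + C * V := add_le_add h1 h2
    _ = _ := by ring

lemma norm_ch (k : ℤ) (t : ℝ) : ‖ch k t‖ = 1 := by
  unfold ch
  rw [Complex.norm_exp]
  simp

/-- the correlation of two different primitive characters with twists -/
lemma tw_cross {n m : ℕ} [NeZero n] [NeZero m] (χ : DirichletCharacter ℂ n) (ψ : DirichletCharacter ℂ m)
    (hχ : χ.IsPrimitive) (hψ : ψ.IsPrimitive) (hne : (⟨n, χ⟩ : Σ f : ℕ, DirichletCharacter ℂ f) ≠ ⟨m, ψ⟩)
    (k k' : ℤ) (A B : ℕ) (hA : 1 ≤ A) (hAB : A ≤ B) :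
    ‖∑ j ∈ Icc A B, tw χ k j * (starRingEnd ℂ) (tw ψ k' j)‖ ≤
      2 * (n * m) * (1 + |(k : ℝ) - k'| * Real.log ((B : ℝ) / A)) := by
  obtain ⟨ξ, hξ, hval⟩ := cross χ ψ hχ hψ hne
  have hnz : NeZero (n * m) := ⟨Nat.mul_ne_zero (NeZero.ne n) (NeZero.ne m)⟩
  obtain ⟨w, hw⟩ : ∃ w : ℕ → ℂ, w = fun i => ch k (Real.log ((A + i : ℕ) : ℝ)) *
    (starRingEnd ℂ) (ch k' (Real.log ((A + i : ℕ) : ℝ))) := ⟨_, rfl⟩
  have e1 : ∑ j ∈ Icc A B, tw χ k j * (starRingEnd ℂ) (tw ψ k' j) =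
      ∑ i ∈ range (B + 1 - A), w i * ξ ((A + i : ℕ) : ZMod (n * m)) := by
    have h1 : Icc A B = Ico A (B + 1) := by
      ext j
      simp only [mem_Icc, mem_Ico]
      omega
    rw [h1, sum_Ico_eq_sum_range]
    refine sum_congr rfl fun i _ => ?_
    rw [← hval, hw]
    unfold tw
    simp only [map_mul]
    ring
  rw [e1]
  have hC : ∀ t, ‖∑ i ∈ range t, ξ ((A + i : ℕ) : ZMod (n * m))‖ ≤ 2 * (n * m) := by
    intro t
    have h1 : ∑ i ∈ range t, ξ ((A + i : ℕ) : ZMod (n * m)) =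
        ∑ i ∈ range (A - 1 + t), ξ ((i + 1 : ℕ) : ZMod (n * m)) - ∑ i ∈ range (A - 1), ξ ((i + 1 : ℕ) : ZMod (n * m)) := by
      rw [sum_range_add, add_sub_cancel_left]
      refine sum_congr rfl fun i _ => ?_
      congr 2
      omega
    rw [h1]
    refine (norm_sub_le _ _).trans ?_
    have h2 := Pool.Agent.Y948.GJ.partial_sum hξ (A - 1 + t)
    have h3 := Pool.Agent.Y948.GJ.partial_sum hξ (A - 1)
    have h4 : ((n * m : ℕ) : ℝ) = n * m := by push_cast; ring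
    rw [h4] at h2 h3
    linarith
  have hw1 : ∀ i, ‖w i‖ ≤ 1 := by
    intro i
    rw [hw]
    simp only
    rw [norm_mul, RCLike.norm_conj, norm_ch, norm_ch, one_mul]
  have hwd : ∀ i, w i = Complex.exp ((((k' : ℝ) - k) * Real.log ((A + i : ℕ) : ℝ) : ℝ) * Complex.I) := by
    intro i
    rw [hw]
    simp only
    unfold ch
    rw [← Complex.exp_conj, ← Complex.exp_add]
    congr 1
    rw [map_mul, map_neg, Complex.conj_ofReal, Complex.conj_I]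
    push_cast
    ring
  have hV : ∑ i ∈ range (B + 1 - A - 1), ‖w (i + 1) - w i‖ ≤ |(k : ℝ) - k'| * Real.log ((B : ℝ) / A) := by
    have h1 : ∀ i ∈ range (B + 1 - A - 1), ‖w (i + 1) - w i‖ ≤
        |(k : ℝ) - k'| * Real.log ((A + (i + 1) : ℕ) : ℝ) - |(k : ℝ) - k'| * Real.log ((A + i : ℕ) : ℝ) := by
      intro i _
      rw [hwd, hwd]
      have h2 : ∀ x y : ℝ, ‖Complex.exp (x * Complex.I) - Complex.exp (y * Complex.I)‖ ≤ |x - y| := by
        intro x y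
        have h3 : Complex.exp (x * Complex.I) - Complex.exp (y * Complex.I) =
            Complex.exp (y * Complex.I) * (Complex.exp (Complex.I * ((x - y : ℝ) : ℂ)) - 1) := by
          rw [mul_sub, ← Complex.exp_add, mul_one]
          congr 2
          push_cast
          ring
        rw [h3, norm_mul, Complex.norm_exp_ofReal_mul_I, one_mul]
        have := Real.norm_exp_I_mul_ofReal_sub_one_le (x := x - y)
        rwa [Real.norm_eq_abs] at this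
      refine (h2 (((k' : ℝ) - k) * Real.log ((A + (i + 1) : ℕ) : ℝ)) (((k' : ℝ) - k) * Real.log ((A + i : ℕ) : ℝ))).trans
        (le_of_eq ?_)
      rw [← mul_sub, abs_mul, ← mul_sub, abs_sub_comm (k : ℝ) k']
      congr 1
      apply abs_of_nonneg
      rw [sub_nonneg]
      apply Real.log_le_log
      · exact_mod_cast (by omega : 0 < A + i)
      · exact_mod_cast (by omega : A + i ≤ A + (i + 1))
    refine (sum_le_sum h1).trans (le_of_eq ?_)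
    rw [sum_range_sub (fun i : ℕ => |(k : ℝ) - k'| * Real.log ((A + i : ℕ) : ℝ))]
    have h2 : A + (B + 1 - A - 1) = B := by omega
    rw [h2, add_zero, ← mul_sub, Real.log_div]
    · have : B ≠ 0 := by omega
      exact_mod_cast this
    · have : A ≠ 0 := by omega
      exact_mod_cast this
  exact abel_c _ w _ hC hw1 hV

end Pool.Agent.H567.HW
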