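import Pool.Agent.H567.HW.Pr1

/-!
Project HW (helper567), part 41: few primitive characters of all conductors have a large sum over a dyadic interval.
-/

set_option autoImplicit false

namespace Pool.Agent.H567.HW

open Finset
open Pool.Agent.H376R2.MR (ch DP FK)

lemma norm_tw_le {q : ℕ} (χ : DirichletCharacter ℂ q) (k : ℤ) (n : ℕ) : ‖tw χ k n‖ ≤ 1 := by
  unfold tw
  rw [norm_mul, norm_ch, mul_one]
  exact DirichletCharacter.norm_le_one χ _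

lemma card_psi (R : ℕ) (Ψ : Finset (Σ f : ℕ, DirichletCharacter ℂ f)) (hΨ : ∀ ψ ∈ Ψ, 1 ≤ ψ.1 ∧ ψ.1 ≤ R) :
    (Ψ.card : ℝ) ≤ (R : ℝ) ^ 2 := by
  classical
  have h1 : Ψ.card = ∑ f ∈ Icc 1 R, (Ψ.filter (fun ψ => ψ.1 = f)).card := by
    refine card_eq_sum_card_fiberwise fun ψ hψ => ?_
    have := hΨ ψ hψ
    exact mem_coe.2 (mem_Icc.2 this)
  have h2 : ∀ f ∈ Icc 1 R, ((Ψ.filter (fun ψ => ψ.1 = f)).card : ℝ) ≤ R := by
    intro f hf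
    rw [mem_Icc] at hf
    have hne : NeZero f := ⟨by omega⟩
    have h3 : (Ψ.filter (fun ψ => ψ.1 = f)).card ≤ (univ : Finset (DirichletCharacter ℂ f)).card := by
      refine card_le_card_of_injOn (fun ψ => if h : ψ.1 = f then h ▸ ψ.2 else 1) (fun _ _ => mem_coe.2 (mem_univ _)) ?_
      rintro ⟨a, χ⟩ ha ⟨b, ψ⟩ hb hab
      rw [mem_coe, mem_filter] at ha hb
      obtain ⟨-, ha⟩ := ha
      obtain ⟨-, hb⟩ := hb
      simp only at ha hb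
      subst ha
      subst hb
      simpa using hab
    have h4 : (Fintype.card (DirichletCharacter ℂ f) : ℝ) ≤ f := by exact_mod_cast Pool.Agent.Y948.GJ.card_chars f
    have h5 : ((Ψ.filter (fun ψ => ψ.1 = f)).card : ℝ) ≤ (Fintype.card (DirichletCharacter ℂ f) : ℝ) := by
      exact_mod_cast h3
    have h6 : (f : ℝ) ≤ R := by exact_mod_cast hf.2
    linarith
  rw [h1]
  push_cast
  refine (sum_le_sum h2).trans (le_of_eq ?_)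
  rw [sum_const, Nat.card_Icc, nsmul_eq_mul, Nat.add_sub_cancel]
  ring

/-- few primitive characters have a large sum -/
theorem count_pr (g : ℕ) : ∃ (C : ℝ) (c : ℕ), 1 ≤ C ∧ ∀ (R K X : ℕ) (a : ℕ → ℂ) (ℓ T : ℝ), 1 ≤ K → 1 ≤ X →
    1 + Real.log ((2 * X : ℕ) : ℝ) ≤ ℓ → 0 < T → (∀ m ∈ cI X, ‖a m‖ ≤ ℓ * dn m) →
    (R : ℝ) ^ 4 * K ≤ (X : ℝ) ^ (g + 1) →
    ∀ Ψ : Finset (Σ f : ℕ, DirichletCharacter ℂ f), (∀ ψ ∈ Ψ, 1 ≤ ψ.1 ∧ ψ.1 ≤ R ∧ ψ.2.IsPrimitive ∧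
      ∃ k ∈ FK K, T < ‖cs1 X a ψ.2 k‖) →
    (Ψ.card : ℝ) * T ^ (2 * (g + 1)) ≤ C * ((X : ℝ) ^ (2 * (g + 1)) * ℓ ^ c) := by
  classical
  obtain ⟨k0, hk0⟩ : ∃ k0 : ℕ, k0 = 2 ^ (2 * (2 * g + 1)) := ⟨_, rfl⟩
  refine ⟨(2 ^ (g + 1) + 6 * (g + 1)) * (2 ^ (g + 1) * ((g + 1 : ℕ) : ℝ) ^ k0) + 1, 2 * (g + 1) + k0,
    le_add_of_nonneg_left (by positivity), ?_⟩
  intro R K X a ℓ T hK hX hℓ hT ha hRK Ψ hΨ
  have hlog : 0 ≤ Real.log ((2 * X : ℕ) : ℝ) := Real.log_natCast_nonneg _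
  have hℓ1 : 1 ≤ ℓ := by linarith
  have hℓ0 : 0 ≤ ℓ := by linarith
  have hg1 : (1 : ℝ) ≤ ((g + 1 : ℕ) : ℝ) := by exact_mod_cast Nat.succ_pos g
  have hX0 : (1 : ℝ) ≤ X := by exact_mod_cast hX
  have hK0 : (1 : ℝ) ≤ K := by exact_mod_cast hK
  obtain ⟨w, hw, hw2⟩ := power_w X hX a hℓ0 ha g
  obtain ⟨s, hs⟩ : ∃ s, s = Icc (X ^ (g + 1)) (2 ^ (g + 1) * X ^ (g + 1)) := ⟨_, rfl⟩
  rw [← hs] at hw
  simp only [← hs] at hw2
  have hXg : 1 ≤ X ^ (g + 1) := Nat.one_le_pow _ _ hX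
  -- the frequencies
  have hch : ∀ ψ : (Σ f : ℕ, DirichletCharacter ℂ f), ∃ k : ℤ, ψ ∈ Ψ → k ∈ FK K ∧ T < ‖cs1 X a ψ.2 k‖ := by
    intro ψ
    by_cases h : ψ ∈ Ψ
    · obtain ⟨k, hk1, hk2⟩ := (hΨ ψ h).2.2.2
      exact ⟨k, fun _ => ⟨hk1, hk2⟩⟩
    · exact ⟨0, fun h' => absurd h' h⟩
  choose kf hkf using hch
  obtain ⟨f, hf⟩ : ∃ f : (Σ f : ℕ, DirichletCharacter ℂ f) → ℕ → ℂ, f = fun ψ n => tw ψ.2 (kf ψ) n := ⟨_, rfl⟩
  have h1 : (Ψ.card : ℝ) * T ^ (2 * (g + 1)) ≤ ∑ ψ ∈ Ψ, ‖∑ n ∈ s, w n * f ψ n‖ ^ 2 := by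
    calc (Ψ.card : ℝ) * T ^ (2 * (g + 1)) = ∑ ψ ∈ Ψ, T ^ (2 * (g + 1)) := by rw [sum_const, nsmul_eq_mul]
      _ ≤ _ := by
          refine sum_le_sum fun ψ hψ => ?_
          have e1 : ∑ n ∈ s, w n * f ψ n = (cs1 X a ψ.2 (kf ψ)) ^ (g + 1) := by
            unfold cs1
            rw [hw2 (tw ψ.2 (kf ψ)) (tw_mul ψ.2 (kf ψ)), hf]
          rw [e1, norm_pow, ← pow_mul, mul_comm (g + 1) 2]
          exact pow_le_pow_left₀ hT.le (hkf ψ hψ).2.le _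
  -- the rows
  obtain ⟨M, hM⟩ : ∃ M : ℝ, M = (2 ^ (g + 1) + 6 * (g + 1)) * (X : ℝ) ^ (g + 1) := ⟨_, rfl⟩
  have hM0 : 0 ≤ M := by rw [hM]; positivity
  have hcard := card_psi R Ψ (fun ψ hψ => ⟨(hΨ ψ hψ).1, (hΨ ψ hψ).2.1⟩)
  have hrow : ∀ ψ ∈ Ψ, ∑ φ ∈ Ψ, ‖∑ n ∈ s, f ψ n * (starRingEnd ℂ) (f φ n)‖ ≤ M := by
    intro ψ hψ
    rw [← add_sum_erase Ψ _ hψ]
    have e1 : ‖∑ n ∈ s, f ψ n * (starRingEnd ℂ) (f ψ n)‖ ≤ 2 ^ (g + 1) * (X : ℝ) ^ (g + 1) := by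
      calc ‖∑ n ∈ s, f ψ n * (starRingEnd ℂ) (f ψ n)‖ ≤ ∑ n ∈ s, (1 : ℝ) := by
            refine (norm_sum_le _ _).trans (sum_le_sum fun n _ => ?_)
            rw [norm_mul, RCLike.norm_conj, hf]
            have := norm_tw_le ψ.2 (kf ψ) n
            have h0 := norm_nonneg (tw ψ.2 (kf ψ) n)
            nlinarith
        _ = (s.card : ℝ) := by rw [sum_const, nsmul_eq_mul, mul_one]
        _ ≤ ((2 ^ (g + 1) * X ^ (g + 1) : ℕ) : ℝ) := by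
            have : s.card ≤ 2 ^ (g + 1) * X ^ (g + 1) := by
              rw [hs, Nat.card_Icc]
              omega
            exact_mod_cast this
        _ = _ := by push_cast; ring
    have e2 : ∀ φ ∈ Ψ.erase ψ, ‖∑ n ∈ s, f ψ n * (starRingEnd ℂ) (f φ n)‖ ≤ 6 * (g + 1) * ((R : ℝ) ^ 2 * K) := by
      intro φ hφ
      rw [mem_erase] at hφ
      obtain ⟨hne, hφ⟩ := hφ
      obtain ⟨a1, a2, a3, -⟩ := hΨ ψ hψ
      obtain ⟨b1, b2, b3, -⟩ := hΨ φ hφ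
      have n1 : NeZero ψ.1 := ⟨by omega⟩
      have n2 : NeZero φ.1 := ⟨by omega⟩
      have h2 := tw_cross ψ.2 φ.2 a3 b3 (fun h => hne h.symm) (kf ψ) (kf φ) (X ^ (g + 1)) (2 ^ (g + 1) * X ^ (g + 1)) hXg
        (Nat.le_mul_of_pos_left _ (by positivity))
      rw [← hs] at h2
      rw [hf]
      refine h2.trans ?_
      have k1 := (hkf ψ hψ).1
      have k2 := (hkf φ hφ).1
      unfold FK at k1 k2
      rw [mem_Ioo] at k1 k2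
      have k3 : |((kf ψ : ℤ) : ℝ) - (kf φ : ℤ)| ≤ 2 * K := by
        have : |kf ψ - kf φ| ≤ 2 * (K : ℤ) := by
          rw [abs_le]
          constructor <;> omega
        exact_mod_cast this
      have k4 : Real.log (((2 ^ (g + 1) * X ^ (g + 1) : ℕ) : ℝ) / ((X ^ (g + 1) : ℕ) : ℝ)) ≤ g + 1 := by
        have e3 : ((2 ^ (g + 1) * X ^ (g + 1) : ℕ) : ℝ) / ((X ^ (g + 1) : ℕ) : ℝ) = 2 ^ (g + 1) := by
          push_cast
          field_simp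
        rw [e3, Real.log_pow]
        have := Real.log_two_lt_d9
        push_cast
        have h0 : (0 : ℝ) ≤ (g : ℝ) + 1 := by positivity
        nlinarith
      have k5 : (ψ.1 : ℝ) * φ.1 ≤ (R : ℝ) ^ 2 := by
        rw [sq]
        exact mul_le_mul (by exact_mod_cast a2) (by exact_mod_cast b2) (Nat.cast_nonneg _) (Nat.cast_nonneg _)
      have k6 : 0 ≤ Real.log (((2 ^ (g + 1) * X ^ (g + 1) : ℕ) : ℝ) / ((X ^ (g + 1) : ℕ) : ℝ)) := by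
        apply Real.log_nonneg
        rw [le_div_iff₀ (by exact_mod_cast hXg), one_mul]
        exact_mod_cast (Nat.le_mul_of_pos_left _ (by positivity))
      have k7 : 1 + |((kf ψ : ℤ) : ℝ) - (kf φ : ℤ)| * Real.log (((2 ^ (g + 1) * X ^ (g + 1) : ℕ) : ℝ) / ((X ^ (g + 1) : ℕ) : ℝ)) ≤
          3 * (g + 1) * K := by
        have h0 : |((kf ψ : ℤ) : ℝ) - (kf φ : ℤ)| * Real.log (((2 ^ (g + 1) * X ^ (g + 1) : ℕ) : ℝ) / ((X ^ (g + 1) : ℕ) : ℝ)) ≤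
            (2 * K) * (g + 1) := mul_le_mul k3 k4 k6 (by positivity)
        have h3 : (1 : ℝ) ≤ (g + 1) * K := by
          have : (1 : ℝ) ≤ (g : ℝ) + 1 := by
            have : (0 : ℝ) ≤ g := Nat.cast_nonneg g
            linarith
          exact one_le_mul_of_one_le_of_one_le this hK0
        linarith
      calc 2 * ((ψ.1 : ℝ) * φ.1) * (1 + |((kf ψ : ℤ) : ℝ) - (kf φ : ℤ)| *
          Real.log (((2 ^ (g + 1) * X ^ (g + 1) : ℕ) : ℝ) / ((X ^ (g + 1) : ℕ) : ℝ)))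
          ≤ 2 * (R : ℝ) ^ 2 * (3 * (g + 1) * K) := by
            apply mul_le_mul (by linarith) k7 _ (by positivity)
            have := mul_nonneg (abs_nonneg (((kf ψ : ℤ) : ℝ) - (kf φ : ℤ))) k6
            linarith
        _ = _ := by ring
    have e3 : ∑ φ ∈ Ψ.erase ψ, ‖∑ n ∈ s, f ψ n * (starRingEnd ℂ) (f φ n)‖ ≤ 6 * (g + 1) * (X : ℝ) ^ (g + 1) := by
      calc ∑ φ ∈ Ψ.erase ψ, ‖∑ n ∈ s, f ψ n * (starRingEnd ℂ) (f φ n)‖ ≤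
          ∑ φ ∈ Ψ.erase ψ, 6 * (g + 1) * ((R : ℝ) ^ 2 * K) := sum_le_sum e2
        _ = ((Ψ.erase ψ).card : ℝ) * (6 * (g + 1) * ((R : ℝ) ^ 2 * K)) := by rw [sum_const, nsmul_eq_mul]
        _ ≤ (R : ℝ) ^ 2 * (6 * (g + 1) * ((R : ℝ) ^ 2 * K)) := by
            apply mul_le_mul_of_nonneg_right _ (by positivity)
            have : ((Ψ.erase ψ).card : ℝ) ≤ Ψ.card := by exact_mod_cast card_le_card (erase_subset _ _)
            linarith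
        _ = 6 * (g + 1) * ((R : ℝ) ^ 4 * K) := by ring
        _ ≤ _ := mul_le_mul_of_nonneg_left hRK (by positivity)
    rw [hM]
    linarith
  have h2 := selberg Ψ s f w hM0 hrow
  obtain ⟨Z, hZ⟩ : ∃ Z : ℕ, Z = 2 ^ (g + 1) * X ^ (g + 1) := ⟨_, rfl⟩
  have h3 : ∑ n ∈ s, ‖w n‖ ^ 2 ≤ 2 ^ (g + 1) * (X : ℝ) ^ (g + 1) * (ℓ ^ (2 * (g + 1)) * (((g + 1 : ℕ) : ℝ) * ℓ) ^ k0) := by
    calc ∑ n ∈ s, ‖w n‖ ^ 2 ≤ ∑ n ∈ s, ℓ ^ (2 * (g + 1)) * dn n ^ (2 * (2 * g + 1)) := by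
          refine sum_le_sum fun n hn => ?_
          calc ‖w n‖ ^ 2 ≤ (ℓ ^ (g + 1) * dn n ^ (2 * g + 1)) ^ 2 :=
                pow_le_pow_left₀ (norm_nonneg _) (hw n hn) _
            _ = _ := by
                rw [mul_pow, ← pow_mul, ← pow_mul, mul_comm (g + 1) 2, mul_comm (2 * g + 1) 2]
      _ = ℓ ^ (2 * (g + 1)) * ∑ n ∈ s, dn n ^ (2 * (2 * g + 1)) := by rw [mul_sum]
      _ ≤ ℓ ^ (2 * (g + 1)) * (Z * (1 + Real.log Z) ^ k0) := by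
          apply mul_le_mul_of_nonneg_left _ (by positivity)
          rw [hk0]
          apply sum_dn Z (2 * (2 * g + 1))
          rw [hs, hZ]
          exact Icc_subset_Icc hXg le_rfl
      _ ≤ ℓ ^ (2 * (g + 1)) * (Z * (((g + 1 : ℕ) : ℝ) * ℓ) ^ k0) := by
          have e1 : 1 + Real.log Z ≤ ((g + 1 : ℕ) : ℝ) * ℓ := by
            have e2 : (Z : ℝ) = ((2 * X : ℕ) : ℝ) ^ (g + 1) := by
              rw [hZ]
              push_cast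
              ring
            rw [e2, Real.log_pow]
            have : ((g + 1 : ℕ) : ℝ) * (1 + Real.log ((2 * X : ℕ) : ℝ)) ≤ ((g + 1 : ℕ) : ℝ) * ℓ := by gcongr
            linarith
          have e0 : 0 ≤ 1 + Real.log Z := by
            have := Real.log_natCast_nonneg Z
            linarith
          have e2 := pow_le_pow_left₀ e0 e1 k0
          gcongr
      _ = _ := by
          rw [hZ]
          push_cast
          ring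
  refine h1.trans (h2.trans ?_)
  calc M * ∑ n ∈ s, ‖w n‖ ^ 2 ≤ M * (2 ^ (g + 1) * (X : ℝ) ^ (g + 1) * (ℓ ^ (2 * (g + 1)) * (((g + 1 : ℕ) : ℝ) * ℓ) ^ k0)) :=
        mul_le_mul_of_nonneg_left h3 hM0
    _ = ((2 ^ (g + 1) + 6 * (g + 1)) * (2 ^ (g + 1) * ((g + 1 : ℕ) : ℝ) ^ k0)) *
        ((X : ℝ) ^ (2 * (g + 1)) * ℓ ^ (2 * (g + 1) + k0)) := by
        rw [hM, mul_pow, pow_add ℓ, two_mul (g + 1), pow_add (X : ℝ)]
        ring
    _ ≤ _ := by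
        apply mul_le_mul_of_nonneg_right _ (by positivity)
        linarith

end Pool.Agent.H567.HW
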