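import Pool.Agent.H567.HW.WBil2
import Pool.Graph.R_seed8.Y614.GJ.Core

/-!
Project HW (helper567), part 10: bilinear sums over short intervals, all characters but few bad ones.
-/

set_option autoImplicit false

namespace Pool.Agent.H567.HW

open Finset
open Pool.Agent.H376R2.MR (ch DP FK)
open Pool.Agent.Y614.GJ.Core (ev_log)

lemma sum_dyadic {V : Type*} [AddCommMonoid V] (G : ℕ → V) (I : ℕ) :
    ∑ m ∈ Ico 1 (2 ^ I), G m = ∑ i ∈ range I, ∑ m ∈ cI (2 ^ i), G m := by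
  induction I with
  | zero => simp
  | succ I ih =>
    rw [sum_range_succ, ← ih]
    have h1 : 1 ≤ 2 ^ I := Nat.one_le_pow _ _ (by norm_num)
    have h2 : 2 ^ (I + 1) = 2 * 2 ^ I := by ring
    rw [h2, sum_Ico_consecutive G h1 (by omega)]

lemma log2_le {N : ℕ} (hL : 4 ≤ Real.log N) : ((Nat.log 2 N + 1 : ℕ) : ℝ) ≤ 2 * Real.log N := by
  have hN0 : N ≠ 0 := by
    rintro rfl
    simp at hL
    linarith
  have hN : (0 : ℝ) < N := by
    have : 0 < N := Nat.pos_of_ne_zero hN0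
    exact_mod_cast this
  have h1 : (2 : ℝ) ^ (Nat.log 2 N) ≤ N := by exact_mod_cast Nat.pow_log_le_self 2 hN0
  have h2 := Real.log_le_log (by positivity) h1
  rw [Real.log_pow] at h2
  have h3 : (0.69 : ℝ) ≤ Real.log 2 := by
    have := Real.log_two_gt_d9
    linarith
  have h4 : (0 : ℝ) ≤ (Nat.log 2 N : ℝ) := Nat.cast_nonneg _
  have h5 : (Nat.log 2 N : ℝ) * 0.69 ≤ Real.log N := le_trans (mul_le_mul_of_nonneg_left h3 h4) h2
  push_cast
  linarith

/-- the character is bad for the cell -/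
def Bad1 {q : ℕ} (a : ℕ → ℂ) (δ : ℝ) (K i : ℕ) (χ : DirichletCharacter ℂ q) : Prop :=
  (∃ m ∈ cI (2 ^ i), a m ≠ 0) ∧ ∃ k ∈ FK K, δ * ((2 ^ i : ℕ) : ℝ) < ‖cs1 (2 ^ i) a χ k‖

open Classical in
/-- bilinear sums over short intervals -/
theorem bilw (A : ℕ) (κ θ₁ θ₂ : ℝ) (hθ₁ : 0 < θ₁) (hκ : 0 ≤ κ) (hθ₂ : 0 ≤ θ₂) (hκθ : κ + θ₂ < 1) :
    ∃ C₃ N₀ j₀ : ℕ, ∀ Y N : ℕ, N = 3 * Y → N₀ ≤ N → ∀ (q W : ℕ) [NeZero q],
    (q : ℝ) * N ≤ W * (N : ℝ) ^ κ → W ≤ Y → ∀ a : ℕ → ℂ,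
    (∀ m ∈ Icc 1 N, ‖a m‖ ≤ Real.log N * dn m) →
    (∀ m, a m ≠ 0 → (N : ℝ) ^ θ₁ ≤ 2 * m ∧ (m : ℝ) ≤ (N : ℝ) ^ θ₂) →
    ∃ B : Finset (DirichletCharacter ℂ q), (B.card : ℝ) ≤ Real.log N ^ C₃ ∧
      (∀ χ ∈ B, ∃ i ∈ range (Nat.log 2 N + 1),
        Bad1 a (Real.log N ^ j₀)⁻¹ (⌊(Y : ℝ) / W * Real.log N ^ (3 * j₀)⌋₊ + 1) i χ) ∧
      ∀ b : ℕ → ℂ, (∀ m ∈ Icc 1 N, ‖b m‖ ≤ Real.log N * dn m) →
      ∀ S : Finset (DirichletCharacter ℂ q), Disjoint S B →
      ‖∑ m ∈ Icc 1 N, ∑ k ∈ Icc 1 (N / m), (a m * b k) • evw S Y W (m * k)‖ ^ 2 ≤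
        (N : ℝ) * (2 * (W : ℝ) ^ 2) / Real.log N ^ A := by
  obtain ⟨C, hC1, hcell⟩ := cell_w
  -- the power
  obtain ⟨g, hg⟩ : ∃ g : ℕ, 2 ≤ θ₁ * ((g + 1 : ℕ) : ℝ) := by
    refine ⟨⌈2 / θ₁⌉₊, ?_⟩
    have h1 := Nat.le_ceil (2 / θ₁)
    rw [div_le_iff₀ hθ₁] at h1
    push_cast
    nlinarith
  obtain ⟨Cg, c, hCg, hcount⟩ := count_w g
  obtain ⟨j, hj⟩ : ∃ j : ℕ, j = A + 73 := ⟨_, rfl⟩
  have hs0 : 0 < 1 - κ - θ₂ := by linarith
  have hs1 : 0 < 1 - κ := by linarith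
  obtain ⟨n1, hn1⟩ := Filter.eventually_atTop.1 (ev_log (3 * j + 1) (s := 1 - κ - θ₂) hs0 (C * 2 ^ 72 * 26 + 1000))
  obtain ⟨n2, hn2⟩ := Filter.eventually_atTop.1 (ev_log (3 * j + 1) (s := 1 - κ) hs1 (2 * Cg * 2 ^ c + 4 ^ (g + 1)))
  obtain ⟨n3, hn3⟩ := Filter.eventually_atTop.1 (ev_log (3 * j + 1) (s := 1) one_pos (2 * Cg * 2 ^ c + 4 ^ (g + 1)))
  refine ⟨2 * j * (g + 1) + c + 3, max (max n1 n2) (max n3 100), j, ?_⟩
  intro Y N hNY hN q W _ hqW hWY a ha hasupp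
  obtain ⟨hL1, hLp1⟩ := hn1 N (le_trans (le_trans (le_max_left _ _) (le_max_left _ _)) hN)
  obtain ⟨hL2, hLp2⟩ := hn2 N (le_trans (le_trans (le_max_right _ _) (le_max_left _ _)) hN)
  obtain ⟨hL3, hLp3⟩ := hn3 N (le_trans (le_trans (le_max_left _ _) (le_max_right _ _)) hN)
  have hN100 : 100 ≤ N := le_trans (le_trans (le_max_right _ _) (le_max_right _ _)) hN
  have hI := log2_le (N := N) (by
    have : 0 ≤ C * 2 ^ 72 * 26 := by positivity
    linarith)
  obtain ⟨L, hLd⟩ : ∃ L, L = Real.log (N : ℝ) := ⟨_, rfl⟩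
  rw [← hLd] at hL1 hLp1 hL2 hLp2 hL3 hLp3 hI ha ⊢
  have hL1000 : 1000 ≤ L := by
    have : 0 ≤ C * 2 ^ 72 * 26 := by positivity
    linarith
  have hLC : C * 2 ^ 72 * 26 ≤ L := by linarith
  have hLg : 2 * Cg * 2 ^ c ≤ L := by
    have : (0 : ℝ) ≤ 4 ^ (g + 1) := by positivity
    linarith
  have hL4 : (4 : ℝ) ^ (g + 1) ≤ L := by
    have : 0 ≤ 2 * Cg * 2 ^ c := by positivity
    linarith
  have hL0 : 0 < L := by linarith
  have hLone : 1 ≤ L := by linarith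
  have hN1 : 1 ≤ N := by omega
  have hN0 : (0 : ℝ) < N := by exact_mod_cast hN1
  have hNr1 : (1 : ℝ) ≤ N := by exact_mod_cast hN1
  have hY1 : 1 ≤ Y := by omega
  have hY0 : (0 : ℝ) < Y := by exact_mod_cast hY1
  have hNr : (N : ℝ) = 3 * Y := by rw [hNY]; push_cast; ring
  have hq1 : 1 ≤ q := Nat.pos_of_ne_zero (NeZero.ne q)
  have hq0 : (0 : ℝ) < q := by exact_mod_cast hq1
  have hq1r : (1 : ℝ) ≤ q := by exact_mod_cast hq1
  have hWYr : (W : ℝ) ≤ Y := by exact_mod_cast hWY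
  -- `W` is positive
  have hNκ : 0 < (N : ℝ) ^ κ := by positivity
  have hW0 : (0 : ℝ) < W := by
    by_contra h
    have : (W : ℝ) * (N : ℝ) ^ κ ≤ 0 := mul_nonpos_of_nonpos_of_nonneg (not_lt.1 h) hNκ.le
    have : 0 < (q : ℝ) * N := by positivity
    linarith
  have hW1 : 1 ≤ W := by exact_mod_cast hW0
  -- `q ≤ W / L ^ (3 j + 1)`
  have hN1κ : (N : ℝ) ^ κ * (N : ℝ) ^ (1 - κ) = N := by
    rw [← Real.rpow_add hN0]
    have : κ + (1 - κ) = 1 := by ring
    rw [this, Real.rpow_one]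
  have hqW2 : (q : ℝ) * L ^ (3 * j + 1) ≤ W := by
    have h1 : (q : ℝ) * (N : ℝ) ^ (1 - κ) ≤ W := by
      have h2 : (q : ℝ) * (N : ℝ) ^ (1 - κ) * (N : ℝ) ^ κ ≤ W * (N : ℝ) ^ κ := by
        calc (q : ℝ) * (N : ℝ) ^ (1 - κ) * (N : ℝ) ^ κ = q * ((N : ℝ) ^ κ * (N : ℝ) ^ (1 - κ)) := by ring
          _ = q * N := by rw [hN1κ]
          _ ≤ _ := hqW
      exact le_of_mul_le_mul_right h2 hNκ
    exact le_trans (mul_le_mul_of_nonneg_left hLp2 hq0.le) h1
  -- the parameters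
  obtain ⟨δ, hδ⟩ : ∃ δ : ℝ, δ = (L ^ j)⁻¹ := ⟨_, rfl⟩
  have hLj : 0 < L ^ j := by positivity
  have hδ0 : 0 < δ := by rw [hδ]; positivity
  obtain ⟨J, hJ⟩ : ∃ J : ℕ, J = ⌊L ^ j⌋₊ + 1 := ⟨_, rfl⟩
  have hJ1 : 1 ≤ J := by omega
  have hJlo : L ^ j ≤ J := by
    rw [hJ]; push_cast
    exact (Nat.lt_floor_add_one _).le
  have hJhi : (J : ℝ) ≤ 2 * L ^ j := by
    have h1 : 1 ≤ L ^ j := one_le_pow₀ hLone
    have h2 := Nat.floor_le hLj.le
    rw [hJ]; push_cast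
    linarith
  obtain ⟨K, hK⟩ : ∃ K : ℕ, K = ⌊(Y : ℝ) / W * L ^ (3 * j)⌋₊ + 1 := ⟨_, rfl⟩
  have hK1 : 1 ≤ K := by omega
  have hYW : 1 ≤ (Y : ℝ) / W := by rwa [le_div_iff₀ hW0, one_mul]
  have hKlo : (Y : ℝ) / W * L ^ (3 * j) ≤ K := by
    rw [hK]; push_cast
    exact (Nat.lt_floor_add_one _).le
  have hKhi : (K : ℝ) ≤ 2 * ((Y : ℝ) / W * L ^ (3 * j)) := by
    have h1 : 1 ≤ (Y : ℝ) / W * L ^ (3 * j) := one_le_mul_of_one_le_of_one_le hYW (one_le_pow₀ hLone)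
    have h2 := Nat.floor_le (show 0 ≤ (Y : ℝ) / W * L ^ (3 * j) by linarith)
    rw [hK]; push_cast
    linarith
  have hJ0 : (0 : ℝ) < J := by exact_mod_cast hJ1
  have hK0 : (0 : ℝ) < K := by exact_mod_cast hK1
  have hqK : (q : ℝ) * K ≤ (N : ℝ) ^ κ * L ^ (3 * j) := by
    have h1 : (q : ℝ) * K * W ≤ (N : ℝ) ^ κ * L ^ (3 * j) * W := by
      calc (q : ℝ) * K * W ≤ q * (2 * ((Y : ℝ) / W * L ^ (3 * j))) * W := by gcongr
        _ = (q * (2 * Y)) * L ^ (3 * j) := by field_simp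
        _ ≤ (q * N) * L ^ (3 * j) := by
            gcongr
            rw [hNr]
            linarith
        _ ≤ (W * (N : ℝ) ^ κ) * L ^ (3 * j) := by gcongr
        _ = _ := by ring
    exact le_of_mul_le_mul_right h1 hW0
  have hqKN : (q : ℝ) * K ≤ N := by
    refine hqK.trans ?_
    calc (N : ℝ) ^ κ * L ^ (3 * j) ≤ (N : ℝ) ^ κ * L ^ (3 * j + 1) := by
          apply mul_le_mul_of_nonneg_left _ hNκ.le
          exact pow_le_pow_right₀ hLone (by omega)
      _ ≤ (N : ℝ) ^ κ * (N : ℝ) ^ (1 - κ) := by gcongr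
      _ = N := hN1κ
  have hℓ : 1 + Real.log ((12 * Y : ℕ) : ℝ) ≤ 2 * L := by
    have h1 : ((12 * Y : ℕ) : ℝ) = 4 * N := by rw [hNr]; push_cast; ring
    rw [h1, Real.log_mul (by norm_num) hN0.ne', ← hLd]
    have h2 : Real.log 4 ≤ 4 := by
      have := Real.log_le_sub_one_of_pos (show (0 : ℝ) < 4 by norm_num)
      linarith
    linarith
  obtain ⟨I, hId⟩ : ∃ I : ℕ, I = Nat.log 2 N + 1 := ⟨_, rfl⟩
  rw [← hId] at hI
  have hNI : N < 2 ^ I := by rw [hId]; exact Nat.lt_pow_succ_log_self (by norm_num) _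
  have haN : ∀ m, a m ≠ 0 → m ≤ N := by
    intro m hm
    have h1 := (hasupp m hm).2
    have h2 : (N : ℝ) ^ θ₂ ≤ (N : ℝ) ^ (1 : ℝ) := Real.rpow_le_rpow_of_exponent_le hNr1 (by linarith)
    rw [Real.rpow_one] at h2
    exact_mod_cast h1.trans h2
  have habd : ∀ (i : ℕ), ∀ m ∈ cI (2 ^ i), ‖a m‖ ≤ 2 * L * dn m := by
    intro i m hm
    have hd := dn_nonneg m
    by_cases h0 : a m = 0
    · rw [h0, norm_zero]
      positivity
    · rw [mem_Ico] at hm
      have hm1 : 1 ≤ m := le_trans (Nat.one_le_pow _ _ (by norm_num)) hm.1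
      refine (ha m (mem_Icc.2 ⟨hm1, haN m h0⟩)).trans ?_
      nlinarith
  -- the bad characters
  refine ⟨univ.filter (fun χ : DirichletCharacter ℂ q => ∃ i ∈ range I, Bad1 a δ K i χ), ?_, ?_, ?_⟩
  · have h1 : univ.filter (fun χ : DirichletCharacter ℂ q => ∃ i ∈ range I, Bad1 a δ K i χ) ⊆
        (range I).biUnion (fun i => univ.filter (fun χ : DirichletCharacter ℂ q => Bad1 a δ K i χ)) := by
      intro χ hχ
      rw [mem_filter] at hχ
      obtain ⟨-, i, hi, h2⟩ := hχ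
      rw [mem_biUnion]
      exact ⟨i, hi, mem_filter.2 ⟨mem_univ _, h2⟩⟩
    have h2 := (card_le_card h1).trans card_biUnion_le
    have h3 : ((univ.filter (fun χ : DirichletCharacter ℂ q => ∃ i ∈ range I, Bad1 a δ K i χ)).card : ℝ) ≤
        ∑ i ∈ range I, ((univ.filter (fun χ : DirichletCharacter ℂ q => Bad1 a δ K i χ)).card : ℝ) := by exact_mod_cast h2
    refine h3.trans ?_
    have h4 : ∀ i ∈ range I, ((univ.filter (fun χ : DirichletCharacter ℂ q => Bad1 a δ K i χ)).card : ℝ) ≤ L ^ (2 * j * (g + 1) + c + 1) := by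
      intro i _
      by_cases hex : ∃ m ∈ cI (2 ^ i), a m ≠ 0
      · obtain ⟨m, hm, hm0⟩ := hex
        have h5 : univ.filter (fun χ : DirichletCharacter ℂ q => Bad1 a δ K i χ) ⊆
            univ.filter (fun χ : DirichletCharacter ℂ q =>
            ∃ k ∈ FK K, δ * ((2 ^ i : ℕ) : ℝ) < ‖cs1 (2 ^ i) a χ k‖) := by
          intro χ hχ
          rw [mem_filter] at hχ ⊢
          exact ⟨hχ.1, hχ.2.2⟩
        have h6 : ((univ.filter (fun χ : DirichletCharacter ℂ q => Bad1 a δ K i χ)).card : ℝ) ≤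
            ((univ.filter (fun χ : DirichletCharacter ℂ q =>
            ∃ k ∈ FK K, δ * ((2 ^ i : ℕ) : ℝ) < ‖cs1 (2 ^ i) a χ k‖)).card : ℝ) := by
          exact_mod_cast card_le_card h5
        refine h6.trans ?_
        obtain ⟨X, hX⟩ : ∃ X : ℕ, X = 2 ^ i := ⟨_, rfl⟩
        rw [← hX] at hm ⊢
        have hX1 : 1 ≤ X := by rw [hX]; exact Nat.one_le_pow _ _ (by norm_num)
        have hX0 : (0 : ℝ) < X := by exact_mod_cast hX1
        rw [mem_Ico] at hm
        have hmN := haN m hm0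
        have hX2 : 2 * X ≤ 12 * Y := by omega
        have h7 := hcount q K X a (2 * L) (δ * X) hK1 hX1 (by
          refine le_trans ?_ hℓ
          have : Real.log ((2 * X : ℕ) : ℝ) ≤ Real.log ((12 * Y : ℕ) : ℝ) := by
            apply Real.log_le_log
            · exact_mod_cast (by omega : 0 < 2 * X)
            · exact_mod_cast hX2
          linarith) (by positivity) (by rw [hX]; exact habd i)
        obtain ⟨n, hn⟩ : ∃ n : ℝ, n = ((univ.filter (fun χ : DirichletCharacter ℂ q =>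
            ∃ k ∈ FK K, δ * (X : ℝ) < ‖cs1 X a χ k‖)).card : ℝ) := ⟨_, rfl⟩
        rw [← hn] at h7 ⊢
        -- `q K ≤ X ^ (g + 1)`
        have h8 : (q : ℝ) * K ≤ (X : ℝ) ^ (g + 1) := by
          have e1 : (N : ℝ) ^ θ₁ ≤ 4 * X := by
            have := (hasupp m hm0).1
            have h9 : (m : ℝ) ≤ 2 * X := by exact_mod_cast hm.2.le
            linarith
          have e2 : (N : ℝ) ^ (2 : ℝ) ≤ ((4 : ℝ) * X) ^ (g + 1) := by
            calc (N : ℝ) ^ (2 : ℝ) ≤ (N : ℝ) ^ (θ₁ * ((g + 1 : ℕ) : ℝ)) :=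
                  Real.rpow_le_rpow_of_exponent_le hNr1 hg
              _ = ((N : ℝ) ^ θ₁) ^ (g + 1) := by rw [Real.rpow_mul hN0.le, Real.rpow_natCast]
              _ ≤ _ := pow_le_pow_left₀ (by positivity) e1 _
          have e3 : (N : ℝ) ^ (2 : ℝ) = N * N := by
            rw [show (2 : ℝ) = ((2 : ℕ) : ℝ) by norm_num, Real.rpow_natCast, sq]
          rw [e3, mul_pow] at e2
          have e4 : (4 : ℝ) ^ (g + 1) ≤ N := by
            calc (4 : ℝ) ^ (g + 1) ≤ L := hL4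
              _ = L ^ 1 := (pow_one L).symm
              _ ≤ L ^ (3 * j + 1) := pow_le_pow_right₀ hLone (by omega)
              _ ≤ (N : ℝ) ^ (1 : ℝ) := hLp3
              _ = N := Real.rpow_one _
          have e5 : (N : ℝ) ≤ (X : ℝ) ^ (g + 1) := by
            have e6 : (0 : ℝ) < 4 ^ (g + 1) := by positivity
            have e7 : (4 : ℝ) ^ (g + 1) * N ≤ 4 ^ (g + 1) * (X : ℝ) ^ (g + 1) := by
              calc (4 : ℝ) ^ (g + 1) * N ≤ N * N := by gcongr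
                _ ≤ _ := e2
            exact le_of_mul_le_mul_left e7 e6
          exact hqKN.trans e5
        have h9 : n * (δ * X) ^ (2 * (g + 1)) ≤ Cg * (2 * (X : ℝ) ^ (2 * (g + 1)) * (2 * L) ^ c) := by
          refine h7.trans ?_
          apply mul_le_mul_of_nonneg_left _ (by linarith)
          calc ((X : ℝ) ^ (g + 1) + q * K) * (X : ℝ) ^ (g + 1) * (2 * L) ^ c ≤
              ((X : ℝ) ^ (g + 1) + (X : ℝ) ^ (g + 1)) * (X : ℝ) ^ (g + 1) * (2 * L) ^ c := by gcongr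
            _ = _ := by
              rw [two_mul (g + 1), pow_add (X : ℝ) (g + 1) (g + 1)]
              ring
        have h10 : n * δ ^ (2 * (g + 1)) ≤ Cg * (2 * (2 * L) ^ c) := by
          have e1 : 0 < (X : ℝ) ^ (2 * (g + 1)) := by positivity
          have e2 : (n * δ ^ (2 * (g + 1))) * (X : ℝ) ^ (2 * (g + 1)) ≤ (Cg * (2 * (2 * L) ^ c)) * (X : ℝ) ^ (2 * (g + 1)) := by
            calc (n * δ ^ (2 * (g + 1))) * (X : ℝ) ^ (2 * (g + 1)) = n * (δ * X) ^ (2 * (g + 1)) := by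
                  rw [mul_pow]; ring
              _ ≤ _ := h9
              _ = _ := by ring
          exact le_of_mul_le_mul_right e2 e1
        have h11 : n ≤ Cg * (2 * (2 * L) ^ c) * L ^ (2 * j * (g + 1)) := by
          have e1 : δ ^ (2 * (g + 1)) * L ^ (2 * j * (g + 1)) = 1 := by
            rw [hδ, inv_pow, ← pow_mul, show j * (2 * (g + 1)) = 2 * j * (g + 1) by ring]
            exact inv_mul_cancel₀ (by positivity)
          calc n = n * δ ^ (2 * (g + 1)) * L ^ (2 * j * (g + 1)) := by rw [mul_assoc, e1, mul_one]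
            _ ≤ _ := mul_le_mul_of_nonneg_right h10 (by positivity)
        refine h11.trans ?_
        calc Cg * (2 * (2 * L) ^ c) * L ^ (2 * j * (g + 1)) = (2 * Cg * 2 ^ c) * L ^ (2 * j * (g + 1) + c) := by
              rw [mul_pow, pow_add]; ring
          _ ≤ L * L ^ (2 * j * (g + 1) + c) := by gcongr
          _ = _ := by ring
      · have h5 : univ.filter (fun χ : DirichletCharacter ℂ q => Bad1 a δ K i χ) = ∅ := by
          refine filter_eq_empty_iff.2 fun χ _ h => ?_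
          exact hex h.1
        rw [h5, card_empty, Nat.cast_zero]
        positivity
    refine (sum_le_sum h4).trans ?_
    rw [sum_const, card_range, nsmul_eq_mul]
    calc (I : ℝ) * L ^ (2 * j * (g + 1) + c + 1) ≤ (2 * L) * L ^ (2 * j * (g + 1) + c + 1) := by gcongr
      _ ≤ (L * L) * L ^ (2 * j * (g + 1) + c + 1) := by gcongr; linarith
      _ = _ := by ring
  · intro χ hχ
    rw [mem_filter] at hχ
    obtain ⟨-, i, hi, h⟩ := hχ
    rw [hId] at hi
    rw [hδ, hK] at h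
    exact ⟨i, hi, h⟩
  · intro b hb S hS
    obtain ⟨b', hb'⟩ : ∃ b' : ℕ → ℂ, b' = fun k => if k ≤ N then b k else 0 := ⟨_, rfl⟩
    have hbbd : ∀ (i : ℕ), ∀ m ∈ cI (2 ^ i), ‖b' m‖ ≤ 2 * L * dn m := by
      intro i m hm
      have hd := dn_nonneg m
      rw [hb']
      simp only
      split_ifs with h0
      · rw [mem_Ico] at hm
        have hm1 : 1 ≤ m := le_trans (Nat.one_le_pow _ _ (by norm_num)) hm.1
        refine (hb m (mem_Icc.2 ⟨hm1, h0⟩)).trans ?_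
        nlinarith
      · rw [norm_zero]
        positivity
    -- the decomposition
    have hdec : ∑ m ∈ Icc 1 N, ∑ k ∈ Icc 1 (N / m), (a m * b k) • evw S Y W (m * k) =
        ∑ i ∈ range I, ∑ i' ∈ range I, ∑ m ∈ cI (2 ^ i), ∑ k ∈ cI (2 ^ i'), (a m * b' k) • evw S Y W (m * k) := by
      have e1 : ∀ i ∈ range I, ∑ i' ∈ range I, ∑ m ∈ cI (2 ^ i), ∑ k ∈ cI (2 ^ i'), (a m * b' k) • evw S Y W (m * k) =
          ∑ m ∈ cI (2 ^ i), ∑ k ∈ Ico 1 (2 ^ I), (a m * b' k) • evw S Y W (m * k) := by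
        intro i _
        rw [sum_comm]
        refine sum_congr rfl fun m _ => ?_
        rw [sum_dyadic]
      rw [sum_congr rfl e1, ← sum_dyadic (fun m => ∑ k ∈ Ico 1 (2 ^ I), (a m * b' k) • evw S Y W (m * k))]
      have e2 : Icc 1 N ⊆ Ico 1 (2 ^ I) := by
        intro m hm
        rw [mem_Icc] at hm
        rw [mem_Ico]
        omega
      rw [← sum_subset e2]
      · refine sum_congr rfl fun m hm => ?_
        rw [mem_Icc] at hm
        have e3 : Icc 1 (N / m) ⊆ Ico 1 (2 ^ I) := by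
          intro k hk
          rw [mem_Icc] at hk
          rw [mem_Ico]
          have := Nat.div_le_self N m
          omega
        rw [← sum_subset e3]
        · refine sum_congr rfl fun k hk => ?_
          rw [mem_Icc] at hk
          have h5 : k ≤ N := hk.2.trans (Nat.div_le_self N m)
          rw [hb']
          simp only [if_pos h5]
        · intro k hk1 hk2
          rw [mem_Ico] at hk1
          rw [mem_Icc, not_and, not_le] at hk2
          have h5 := hk2 hk1.1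
          have h6 : N < m * k := by
            rw [Nat.div_lt_iff_lt_mul (by omega)] at h5
            rwa [mul_comm]
          rw [evw_out S (Or.inr (by omega)), smul_zero]
      · intro m hm1 hm2
        rw [mem_Ico] at hm1
        rw [mem_Icc, not_and, not_le] at hm2
        have h5 := hm2 hm1.1
        refine sum_eq_zero fun k hk => ?_
        rw [mem_Ico] at hk
        have h6 : N < m * k := lt_of_lt_of_le h5 (Nat.le_mul_of_pos_right m hk.1)
        rw [evw_out S (Or.inr (by omega)), smul_zero]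
    -- one cell
    have hone : ∀ i ∈ range I, ∀ i' ∈ range I, ‖∑ m ∈ cI (2 ^ i), ∑ k ∈ cI (2 ^ i'), (a m * b' k) • evw S Y W (m * k)‖ ^ 2 ≤
        C * (2 * L) ^ 68 * (26 * (Y * (W : ℝ) ^ 2) / L ^ j) := by
      intro i hi i' _
      have hRHS : 0 ≤ C * (2 * L) ^ 68 * (26 * (Y * (W : ℝ) ^ 2) / L ^ j) := by positivity
      obtain ⟨M₁, hM₁⟩ : ∃ M₁ : ℕ, M₁ = 2 ^ i := ⟨_, rfl⟩
      obtain ⟨M₂, hM₂⟩ : ∃ M₂ : ℕ, M₂ = 2 ^ i' := ⟨_, rfl⟩
      have hM₁1 : 1 ≤ M₁ := by rw [hM₁]; exact Nat.one_le_pow _ _ (by norm_num)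
      have hM₂1 : 1 ≤ M₂ := by rw [hM₂]; exact Nat.one_le_pow _ _ (by norm_num)
      have hab := habd i
      have hbb := hbbd i'
      rw [← hM₁] at hab
      rw [← hM₂] at hbb
      rw [← hM₁, ← hM₂]
      by_cases hQ1 : Y < 4 * (M₁ * M₂)
      swap
      · have : ∑ m ∈ cI M₁, ∑ k ∈ cI M₂, (a m * b' k) • evw S Y W (m * k) = 0 := by
          refine sum_eq_zero fun m hm => sum_eq_zero fun k hk => ?_
          rw [mem_Ico] at hm hk
          have h5 : m * k ≤ 4 * (M₁ * M₂) := by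
            calc m * k ≤ (2 * M₁) * (2 * M₂) := Nat.mul_le_mul hm.2.le hk.2.le
              _ = _ := by ring
          rw [evw_out S (Or.inl (by omega)), smul_zero]
        rw [this, norm_zero, zero_pow two_ne_zero]
        exact hRHS
      by_cases hQ2 : M₁ * M₂ ≤ 3 * Y
      swap
      · have : ∑ m ∈ cI M₁, ∑ k ∈ cI M₂, (a m * b' k) • evw S Y W (m * k) = 0 := by
          refine sum_eq_zero fun m hm => sum_eq_zero fun k hk => ?_
          rw [mem_Ico] at hm hk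
          have h5 : M₁ * M₂ ≤ m * k := Nat.mul_le_mul hm.1 hk.1
          rw [evw_out S (Or.inr (by omega)), smul_zero]
        rw [this, norm_zero, zero_pow two_ne_zero]
        exact hRHS
      by_cases hex : ∃ m ∈ cI M₁, a m ≠ 0
      swap
      · push Not at hex
        have : ∑ m ∈ cI M₁, ∑ k ∈ cI M₂, (a m * b' k) • evw S Y W (m * k) = 0 := by
          refine sum_eq_zero fun m hm => sum_eq_zero fun k hk => ?_
          rw [hex m hm, zero_mul, zero_smul]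
        rw [this, norm_zero, zero_pow two_ne_zero]
        exact hRHS
      have hgood : ∀ χ ∈ S, ∀ k ∈ FK K, ‖cs1 M₁ a χ k‖ ≤ δ * M₁ := by
        intro χ hχ k hk
        by_contra hcon
        rw [not_le] at hcon
        apply disjoint_left.1 hS hχ
        rw [mem_filter]
        refine ⟨mem_univ _, i, hi, ?_, k, hk, ?_⟩
        · rw [← hM₁]; exact hex
        · rw [← hM₁]; exact hcon
      have h1 := hcell q Y W J K M₁ M₂ S a b' (2 * L) δ hJ1 hW1 hWY hK1 hM₁1 hM₂1 hQ1 hQ2 hδ0.le hgood hℓ hab hbb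
      refine h1.trans ?_
      apply mul_le_mul_of_nonneg_left _ (by positivity)
      obtain ⟨m, hm, hm0⟩ := hex
      rw [mem_Ico] at hm
      have hM₁0 : (0 : ℝ) < M₁ := by exact_mod_cast hM₁1
      have hM₂0 : (0 : ℝ) < M₂ := by exact_mod_cast hM₂1
      have hM12 : (M₁ : ℝ) * M₂ ≤ 3 * Y := by exact_mod_cast hQ2
      have hM₁θ : (M₁ : ℝ) ≤ (N : ℝ) ^ θ₂ := by
        have h2 : (M₁ : ℝ) ≤ m := by exact_mod_cast hm.1
        exact h2.trans (hasupp m hm0).2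
      have hM₁qK : (M₁ : ℝ) * (q * K) ≤ Y := by
        have h2 : (M₁ : ℝ) * (q * K) * 3 ≤ N := by
          calc (M₁ : ℝ) * (q * K) * 3 ≤ (N : ℝ) ^ θ₂ * ((N : ℝ) ^ κ * L ^ (3 * j)) * L := by
                have : (3 : ℝ) ≤ L := by linarith
                gcongr
            _ = (N : ℝ) ^ θ₂ * (N : ℝ) ^ κ * L ^ (3 * j + 1) := by ring
            _ ≤ (N : ℝ) ^ θ₂ * (N : ℝ) ^ κ * (N : ℝ) ^ (1 - κ - θ₂) := by gcongr
            _ = N := by
                rw [← Real.rpow_add hN0, ← Real.rpow_add hN0]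
                have : θ₂ + κ + (1 - κ - θ₂) = 1 := by ring
                rw [this, Real.rpow_one]
        rw [hNr] at h2
        linarith
      have hYW2 : 0 ≤ (Y : ℝ) * (W : ℝ) ^ 2 := by positivity
      have hinv : ∀ p : ℕ, j ≤ p → (L ^ p)⁻¹ ≤ (L ^ j)⁻¹ := fun p hp =>
        inv_anti₀ hLj (pow_le_pow_right₀ hLone hp)
      -- the first term
      have t1 : (W : ℝ) ^ 2 / Y * ((δ * M₁) ^ 2 * ((M₂ + q * K) * M₂)) ≤ 12 * (Y * (W : ℝ) ^ 2) / L ^ j := by
        have e1 : (δ * M₁) ^ 2 * ((M₂ + q * K) * M₂) = δ ^ 2 * ((M₁ * M₂) ^ 2 + (M₁ * M₂) * (M₁ * (q * K))) := by ring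
        have e2 : ((M₁ : ℝ) * M₂) ^ 2 + (M₁ * M₂) * (M₁ * (q * K)) ≤ 12 * (Y : ℝ) ^ 2 := by
          have e3 : ((M₁ : ℝ) * M₂) ^ 2 ≤ (3 * Y) ^ 2 := pow_le_pow_left₀ (by positivity) hM12 2
          have e4 : ((M₁ : ℝ) * M₂) * (M₁ * (q * K)) ≤ (3 * Y) * Y :=
            mul_le_mul hM12 hM₁qK (by positivity) (by positivity)
          linarith
        rw [e1]
        have e5 : δ ^ 2 ≤ (L ^ j)⁻¹ := by
          rw [hδ, inv_pow, ← pow_mul]
          exact hinv _ (by omega)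
        calc (W : ℝ) ^ 2 / Y * (δ ^ 2 * (((M₁ : ℝ) * M₂) ^ 2 + (M₁ * M₂) * (M₁ * (q * K)))) ≤
            (W : ℝ) ^ 2 / Y * ((L ^ j)⁻¹ * (12 * (Y : ℝ) ^ 2)) := by gcongr
          _ = _ := by field_simp
      -- the second term
      have t2 : (J : ℝ) ^ 2 * Y * ((Y : ℝ) / K ^ 2 + q / K) * Y ≤ 8 * (Y * (W : ℝ) ^ 2) / L ^ j := by
        have e1 : (Y : ℝ) / K ^ 2 ≤ (W : ℝ) ^ 2 / (Y * L ^ (6 * j)) := by
          calc (Y : ℝ) / K ^ 2 ≤ Y / ((Y : ℝ) / W * L ^ (3 * j)) ^ 2 := by gcongr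
            _ = _ := by
                rw [mul_pow, div_pow, ← pow_mul, show 3 * j * 2 = 6 * j by ring]
                field_simp
        have e2 : (q : ℝ) / K ≤ (W : ℝ) ^ 2 / (Y * L ^ (6 * j)) := by
          calc (q : ℝ) / K ≤ q / ((Y : ℝ) / W * L ^ (3 * j)) := by gcongr
            _ = (q * L ^ (3 * j)) * W / (Y * L ^ (6 * j)) := by
                rw [show 6 * j = 3 * j + 3 * j by ring, pow_add]
                field_simp
            _ ≤ W * W / (Y * L ^ (6 * j)) := by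
                have : (q : ℝ) * L ^ (3 * j) ≤ W := by
                  refine le_trans ?_ hqW2
                  apply mul_le_mul_of_nonneg_left _ hq0.le
                  exact pow_le_pow_right₀ hLone (by omega)
                gcongr
            _ = _ := by rw [sq]
        calc (J : ℝ) ^ 2 * Y * ((Y : ℝ) / K ^ 2 + q / K) * Y ≤
            (2 * L ^ j) ^ 2 * Y * ((W : ℝ) ^ 2 / (Y * L ^ (6 * j)) + (W : ℝ) ^ 2 / (Y * L ^ (6 * j))) * Y := by gcongr
          _ = 8 * (Y * (W : ℝ) ^ 2) * (L ^ (4 * j))⁻¹ := by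
              rw [mul_pow, ← pow_mul, show 6 * j = j * 2 + 4 * j by ring, pow_add]
              field_simp
              ring
          _ ≤ 8 * (Y * (W : ℝ) ^ 2) * (L ^ j)⁻¹ := mul_le_mul_of_nonneg_left (hinv _ (by omega)) (by positivity)
          _ = _ := by rw [div_eq_mul_inv]
      -- the third term
      have t3 : ((W : ℝ) / J + 1 + q) * ((W : ℝ) / J + 1) * Y ≤ 6 * (Y * (W : ℝ) ^ 2) / L ^ j := by
        have e1 : (W : ℝ) / J ≤ W / L ^ j := div_le_div_of_nonneg_left hW0.le hLj hJlo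
        have e2 : (q : ℝ) ≤ W / L ^ j := by
          rw [le_div_iff₀ hLj]
          refine le_trans ?_ hqW2
          apply mul_le_mul_of_nonneg_left _ hq0.le
          exact pow_le_pow_right₀ hLone (by omega)
        have e3 : (1 : ℝ) ≤ W / L ^ j := hq1r.trans e2
        have e4 : (W : ℝ) / L ^ j ≤ W := div_le_self hW0.le (one_le_pow₀ hLone)
        have e5 : 0 ≤ (W : ℝ) / J := by positivity
        calc ((W : ℝ) / J + 1 + q) * ((W : ℝ) / J + 1) * Y ≤ (3 * (W / L ^ j)) * (2 * W) * Y := by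
              apply mul_le_mul_of_nonneg_right _ hY0.le
              apply mul_le_mul (by linarith) (by linarith) (by linarith) (by positivity)
          _ = _ := by ring
      have t4 : 12 * (Y * (W : ℝ) ^ 2) / L ^ j + 8 * (Y * (W : ℝ) ^ 2) / L ^ j + 6 * (Y * (W : ℝ) ^ 2) / L ^ j =
          26 * (Y * (W : ℝ) ^ 2) / L ^ j := by ring
      linarith
    -- together
    rw [hdec]
    have hI0 : (0 : ℝ) ≤ I := Nat.cast_nonneg _
    obtain ⟨R, hR⟩ : ∃ R : ℝ, R = C * (2 * L) ^ 68 * (26 * (Y * (W : ℝ) ^ 2) / L ^ j) := ⟨_, rfl⟩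
    rw [← hR] at hone
    have hR0 : 0 ≤ R := by rw [hR]; positivity
    have hcau : ∀ (F : ℕ → EuclideanSpace ℂ (DirichletCharacter ℂ q × Fin Y)) (X : ℝ),
        (∀ i ∈ range I, ‖F i‖ ^ 2 ≤ X) → ‖∑ i ∈ range I, F i‖ ^ 2 ≤ I * (I * X) := by
      intro F X hF
      calc ‖∑ i ∈ range I, F i‖ ^ 2 ≤ (∑ i ∈ range I, ‖F i‖) ^ 2 :=
            pow_le_pow_left₀ (norm_nonneg _) (norm_sum_le _ _) 2
        _ ≤ (range I).card * ∑ i ∈ range I, ‖F i‖ ^ 2 := sq_sum_le_card_mul_sum_sq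
        _ ≤ (range I).card * ∑ i ∈ range I, X := by
            gcongr with i hi
            exact hF i hi
        _ = _ := by
            rw [sum_const, card_range, nsmul_eq_mul]
    have hfin := hcau (fun i => ∑ i' ∈ range I, ∑ m ∈ cI (2 ^ i), ∑ k ∈ cI (2 ^ i'), (a m * b' k) • evw S Y W (m * k))
      (I * (I * R)) (fun i hi => hcau (fun i' => ∑ m ∈ cI (2 ^ i), ∑ k ∈ cI (2 ^ i'), (a m * b' k) • evw S Y W (m * k))
      R (fun i' hi' => hone i hi i' hi'))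
    refine hfin.trans ?_
    have hI4 : (I : ℝ) * (I * (I * (I * R))) ≤ (2 * L) ^ 4 * R := by
      have : (I : ℝ) ^ 4 ≤ (2 * L) ^ 4 := pow_le_pow_left₀ hI0 hI 4
      calc (I : ℝ) * (I * (I * (I * R))) = (I : ℝ) ^ 4 * R := by ring
        _ ≤ _ := mul_le_mul_of_nonneg_right this hR0
    refine hI4.trans ?_
    rw [hR]
    have hA0 : 0 < L ^ A := by positivity
    calc (2 * L) ^ 4 * (C * (2 * L) ^ 68 * (26 * (Y * (W : ℝ) ^ 2) / L ^ j))
        = (C * 2 ^ 72 * 26) * (L ^ 72 * (Y * (W : ℝ) ^ 2) / L ^ j) := by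
          rw [mul_pow 2 L 4, mul_pow 2 L 68]
          ring
      _ ≤ L * (L ^ 72 * (Y * (W : ℝ) ^ 2) / L ^ j) := by gcongr
      _ = Y * (W : ℝ) ^ 2 / L ^ A := by
          rw [hj, show A + 73 = A + 72 + 1 by ring, pow_succ, pow_add]
          field_simp
          try ring
      _ ≤ (N : ℝ) * (2 * (W : ℝ) ^ 2) / L ^ A := by
          rw [hNr]
          apply div_le_div_of_nonneg_right _ hA0.le
          have : 0 ≤ (Y : ℝ) * (W : ℝ) ^ 2 := by positivity
          nlinarith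

end Pool.Agent.H567.HW
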