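import Pool.Agent.H567.HW.WinDec

/-!
Project HW (helper567), part 7: from the primes to the von Mangoldt function, short intervals.
-/

set_option autoImplicit false

namespace Pool.Agent.H567.HW

open Finset
open Pool.Agent.R460.GS
open Pool.Agent.R460.GH
open Pool.Agent.Y883.GJ (LA)
open Pool.Agent.Y614.GJ.Core (ev_log)

lemma win_filter {Y W u : ℕ} (hWY : W ≤ Y) (hu : u ∈ Ico Y (2 * Y)) :
    (Icc 1 (3 * Y)).filter (fun n => u < n ∧ n ≤ u + W) = Ioc u (u + W) := by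
  rw [mem_Ico] at hu
  ext n
  rw [mem_filter, mem_Icc, mem_Ioc]
  constructor
  · exact fun h => h.2
  · intro h
    exact ⟨⟨by omega, by omega⟩, h⟩

lemma sq3 {a b c : ℂ} : ‖a + b + c‖ ^ 2 ≤ 3 * ‖a‖ ^ 2 + 3 * ‖b‖ ^ 2 + 3 * ‖c‖ ^ 2 := by
  have h1 : ‖a + b + c‖ ≤ ‖a‖ + ‖b‖ + ‖c‖ := norm_add₃_le
  have h2 := pow_le_pow_left₀ (norm_nonneg _) h1 2
  nlinarith [sq_nonneg (‖a‖ - ‖b‖), sq_nonneg (‖a‖ - ‖c‖), sq_nonneg (‖b‖ - ‖c‖)]

open Classical in
/-- from the primes to the von Mangoldt function -/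
lemma la_win (A : ℕ) : ∃ Y₀ : ℕ, ∀ Y W : ℕ, Y₀ ≤ Y → ∀ (q : ℕ) [NeZero q], q ≤ W →
    (W : ℝ) * Real.log ((3 * Y : ℕ) : ℝ) ^ (A + 5) ≤ Y → ∀ S : Finset (DirichletCharacter ℂ q),
    (‖∑ n ∈ Icc 1 (3 * Y), (if n.Prime then (1 : ℂ) else 0) • evw S Y W n‖ ^ 2 ≤
      ((3 * Y : ℕ) : ℝ) * (2 * (W : ℝ) ^ 2) / Real.log ((3 * Y : ℕ) : ℝ) ^ (A + 4)) →
    ∑ u ∈ Ico Y (2 * Y), ∑ χ ∈ S, ‖∑ n ∈ Ioc u (u + W), LA n * χ (n : ZMod q)‖ ^ 2 ≤
      (Y : ℝ) * (W : ℝ) ^ 2 / Real.log ((3 * Y : ℕ) : ℝ) ^ A := by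
  obtain ⟨N₀, hN₀⟩ := Filter.eventually_atTop.1 (ev_log (A + 4) (s := 1 / 4) (by norm_num) 200)
  refine ⟨max N₀ 64, fun Y W hY q _ hqW hWL S t1 => ?_⟩
  have hY64 : 64 ≤ Y := le_trans (le_max_right _ _) hY
  obtain ⟨N, hN⟩ : ∃ N, N = 3 * Y := ⟨_, rfl⟩
  have hNN₀ : N₀ ≤ N := by
    have := le_trans (le_max_left _ _) hY
    omega
  obtain ⟨hL, hLp⟩ := hN₀ N hNN₀
  have hN1 : 1 ≤ N := by omega
  have hNr : (N : ℝ) = 3 * Y := by rw [hN]; push_cast; ring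
  rw [← hN] at hWL t1 ⊢
  have hY0 : (0 : ℝ) < Y := by
    have : 0 < Y := by omega
    exact_mod_cast this
  have hY1 : (1 : ℝ) ≤ Y := by
    have : 1 ≤ Y := by omega
    exact_mod_cast this
  have hW0 : (0 : ℝ) ≤ W := Nat.cast_nonneg _
  have hN0 : (0 : ℝ) < N := by exact_mod_cast hN1
  have hNr1 : (1 : ℝ) ≤ N := by exact_mod_cast hN1
  obtain ⟨L, hLd⟩ : ∃ L, L = Real.log (N : ℝ) := ⟨_, rfl⟩
  rw [← hLd] at hL hLp hWL t1 ⊢
  have hL0 : 0 < L := by linarith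
  have hL1 : 1 ≤ L := by linarith
  have hWY : W ≤ Y := by
    have h1 : (W : ℝ) ≤ Y := by
      refine le_trans ?_ hWL
      exact le_mul_of_one_le_right hW0 (one_le_pow₀ hL1)
    exact_mod_cast h1
  have hqWr : (q : ℝ) ≤ W := by exact_mod_cast hqW
  -- the decomposition
  obtain ⟨w, hw⟩ : ∃ w : ℕ → ℂ, w = fun n => if n.Prime then 0 else LA n := ⟨_, rfl⟩
  have hsplit : ∀ u ∈ Ico Y (2 * Y), ∀ χ ∈ S, ‖∑ n ∈ Ioc u (u + W), LA n * χ (n : ZMod q)‖ ^ 2 ≤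
      3 * (L ^ 2 * ‖∑ n ∈ Ioc u (u + W), (if n.Prime then (1 : ℂ) else 0) * χ (n : ZMod q)‖ ^ 2) +
      3 * ‖∑ n ∈ Ioc u (u + W), ((if n.Prime then ((Real.log n - Real.log u : ℝ) : ℂ) else 0)) * χ (n : ZMod q)‖ ^ 2 +
      3 * ‖∑ n ∈ Ioc u (u + W), w n * χ (n : ZMod q)‖ ^ 2 := by
    intro u hu χ _
    rw [mem_Ico] at hu
    have e1 : ∑ n ∈ Ioc u (u + W), LA n * χ (n : ZMod q) =
        ((Real.log u : ℝ) : ℂ) * ∑ n ∈ Ioc u (u + W), (if n.Prime then (1 : ℂ) else 0) * χ (n : ZMod q) +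
        ∑ n ∈ Ioc u (u + W), ((if n.Prime then ((Real.log n - Real.log u : ℝ) : ℂ) else 0)) * χ (n : ZMod q) +
        ∑ n ∈ Ioc u (u + W), w n * χ (n : ZMod q) := by
      rw [mul_sum, ← sum_add_distrib, ← sum_add_distrib]
      refine sum_congr rfl fun n _ => ?_
      rw [hw]
      simp only
      by_cases hp : n.Prime
      · rw [if_pos hp, if_pos hp, if_pos hp]
        unfold LA
        rw [ArithmeticFunction.vonMangoldt_apply_prime hp]
        push_cast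
        ring
      · rw [if_neg hp, if_neg hp, if_neg hp]
        ring
    rw [e1]
    refine sq3.trans ?_
    have e2 : ‖((Real.log u : ℝ) : ℂ) * ∑ n ∈ Ioc u (u + W), (if n.Prime then (1 : ℂ) else 0) * χ (n : ZMod q)‖ ^ 2 ≤
        L ^ 2 * ‖∑ n ∈ Ioc u (u + W), (if n.Prime then (1 : ℂ) else 0) * χ (n : ZMod q)‖ ^ 2 := by
      rw [norm_mul, mul_pow]
      apply mul_le_mul_of_nonneg_right _ (sq_nonneg _)
      rw [Complex.norm_real, Real.norm_eq_abs, abs_of_nonneg (Real.log_natCast_nonneg u)]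
      apply pow_le_pow_left₀ (Real.log_natCast_nonneg u)
      rw [hLd]
      apply Real.log_le_log
      · exact_mod_cast (by omega : 0 < u)
      · exact_mod_cast (by omega : u ≤ N)
    linarith
  -- the first sum
  have s1 : ∑ u ∈ Ico Y (2 * Y), ∑ χ ∈ S,
      ‖∑ n ∈ Ioc u (u + W), (if n.Prime then (1 : ℂ) else 0) * χ (n : ZMod q)‖ ^ 2 ≤
      (N : ℝ) * (2 * (W : ℝ) ^ 2) / L ^ (A + 4) := by
    refine le_trans (le_of_eq ?_) t1
    rw [norm_evw S Y W (Icc 1 N) (fun n => if n.Prime then (1 : ℂ) else 0) (fun n => n)]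
    refine sum_congr rfl fun u hu => ?_
    rw [hN, win_filter hWY hu]
  -- the second sum
  have s2 : ∑ u ∈ Ico Y (2 * Y), ∑ χ ∈ S,
      ‖∑ n ∈ Ioc u (u + W), ((if n.Prime then ((Real.log n - Real.log u : ℝ) : ℂ) else 0)) * χ (n : ZMod q)‖ ^ 2 ≤
      2 * (W : ℝ) ^ 4 / Y := by
    have e1 : ∀ u ∈ Ico Y (2 * Y), ∑ χ ∈ S,
      ‖∑ n ∈ Ioc u (u + W), ((if n.Prime then ((Real.log n - Real.log u : ℝ) : ℂ) else 0)) * χ (n : ZMod q)‖ ^ 2 ≤
        (2 * W) * (W * (W / Y) ^ 2) := by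
      intro u hu
      rw [mem_Ico] at hu
      have hu0 : (0 : ℝ) < u := by exact_mod_cast (by omega : 0 < u)
      refine (sum_le_sum_of_subset_of_nonneg (subset_univ S) fun _ _ _ => sq_nonneg _).trans ?_
      refine (l2_s (Ioc u (u + W)) _ u W subset_rfl).trans ?_
      apply mul_le_mul (by linarith) _ (sum_nonneg fun _ _ => sq_nonneg _) (by positivity)
      have e2 : ∀ n ∈ Ioc u (u + W), ‖(if n.Prime then ((Real.log n - Real.log u : ℝ) : ℂ) else 0)‖ ^ 2 ≤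
          ((W : ℝ) / Y) ^ 2 := by
        intro n hn
        rw [mem_Ioc] at hn
        split_ifs
        · have hnu : (u : ℝ) ≤ n := by exact_mod_cast hn.1.le
          have h1 : 0 ≤ Real.log n - Real.log u := by
            rw [sub_nonneg]
            exact Real.log_le_log hu0 hnu
          have h2 : Real.log n - Real.log u ≤ W / Y := by
            have hn0 : (0 : ℝ) < n := by linarith
            rw [← Real.log_div hn0.ne' hu0.ne']
            have h4 := Real.log_le_sub_one_of_pos (show (0 : ℝ) < (n : ℝ) / u by positivity)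
            have h5 : (n : ℝ) / u - 1 ≤ W / u := by
              rw [div_sub_one hu0.ne']
              apply div_le_div_of_nonneg_right _ hu0.le
              have : (n : ℝ) ≤ u + W := by exact_mod_cast hn.2
              linarith
            have h6 : (W : ℝ) / u ≤ W / Y :=
              div_le_div_of_nonneg_left hW0 hY0 (by exact_mod_cast hu.1)
            linarith
          rw [Complex.norm_real, Real.norm_eq_abs, abs_of_nonneg h1]
          exact pow_le_pow_left₀ h1 h2 2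
        · rw [norm_zero, zero_pow two_ne_zero]
          positivity
      refine (sum_le_sum e2).trans (le_of_eq ?_)
      rw [sum_const, Nat.card_Ioc, nsmul_eq_mul]
      congr 2
      omega
    refine (sum_le_sum e1).trans (le_of_eq ?_)
    rw [sum_const, Nat.card_Ico, nsmul_eq_mul]
    have : ((2 * Y - Y : ℕ) : ℝ) = Y := by
      have : 2 * Y - Y = Y := by omega
      rw [this]
    rw [this]
    field_simp
  -- the third sum
  have hwsum : ∑ n ∈ Icc 1 N, ‖w n‖ ^ 2 ≤ L * (2 * Real.sqrt N * L) := by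
    have k1 := Chebyshev.psi_sub_theta_le hNr1
    rw [Chebyshev.psi_sub_theta_eq_sum_not_prime, Nat.floor_natCast, ← hLd] at k1
    have k2 : ∑ n ∈ Icc 1 N, ‖w n‖ ^ 2 ≤ L * ∑ n ∈ (Ioc 0 N).filter (fun n => ¬ n.Prime),
        ArithmeticFunction.vonMangoldt n := by
      rw [mul_sum, sum_filter]
      have e0 : Icc 1 N ⊆ Ioc 0 N := by
        intro n hn
        rw [mem_Icc] at hn
        rw [mem_Ioc]
        omega
      refine le_trans (sum_le_sum_of_subset_of_nonneg e0 fun _ _ _ => sq_nonneg _) (sum_le_sum fun n hn => ?_)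
      rw [mem_Ioc] at hn
      rw [hw]
      simp only
      by_cases hp : n.Prime
      · rw [if_pos hp, if_neg (by simpa using hp), norm_zero]
        norm_num
      · rw [if_neg hp, if_pos hp]
        unfold LA
        rw [Complex.norm_real, Real.norm_eq_abs, abs_of_nonneg ArithmeticFunction.vonMangoldt_nonneg, sq]
        apply mul_le_mul_of_nonneg_right _ ArithmeticFunction.vonMangoldt_nonneg
        rw [hLd]
        exact vm_le' hn.1 hn.2
    exact k2.trans (mul_le_mul_of_nonneg_left k1 hL0.le)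
  have s3 : ∑ u ∈ Ico Y (2 * Y), ∑ χ ∈ S, ‖∑ n ∈ Ioc u (u + W), w n * χ (n : ZMod q)‖ ^ 2 ≤
      2 * (W : ℝ) ^ 2 * (L * (2 * Real.sqrt N * L)) := by
    have e1 := l2w S (Y := Y) hqW (Icc 1 N) w
    rw [norm_evw S Y W (Icc 1 N) w (fun n => n)] at e1
    refine le_trans (le_of_eq ?_) (e1.trans (mul_le_mul_of_nonneg_left hwsum (by positivity)))
    refine sum_congr rfl fun u hu => ?_
    rw [hN, win_filter hWY hu]
  -- together
  have hall : ∑ u ∈ Ico Y (2 * Y), ∑ χ ∈ S, ‖∑ n ∈ Ioc u (u + W), LA n * χ (n : ZMod q)‖ ^ 2 ≤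
      3 * (L ^ 2 * ((N : ℝ) * (2 * (W : ℝ) ^ 2) / L ^ (A + 4))) + 3 * (2 * (W : ℝ) ^ 4 / Y) +
      3 * (2 * (W : ℝ) ^ 2 * (L * (2 * Real.sqrt N * L))) := by
    refine (sum_le_sum fun u hu => sum_le_sum fun χ hχ => hsplit u hu χ hχ).trans ?_
    simp only [sum_add_distrib, ← mul_sum]
    gcongr
  refine hall.trans ?_
  have hLA : 0 < L ^ A := by positivity
  have f1 : 3 * (L ^ 2 * ((N : ℝ) * (2 * (W : ℝ) ^ 2) / L ^ (A + 4))) ≤ Y * (W : ℝ) ^ 2 / L ^ A * (1 / 3) := by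
    rw [hNr]
    calc 3 * (L ^ 2 * ((3 * (Y : ℝ)) * (2 * (W : ℝ) ^ 2) / L ^ (A + 4))) = Y * (W : ℝ) ^ 2 / L ^ A * (18 / L ^ 2) := by
          rw [show A + 4 = A + 2 + 2 by ring, pow_add, pow_add L A 2]
          field_simp
          ring
      _ ≤ Y * (W : ℝ) ^ 2 / L ^ A * (1 / 3) := by
          have : 18 / L ^ 2 ≤ 1 / 3 := by
            rw [div_le_div_iff₀ (by positivity) (by norm_num)]
            nlinarith
          gcongr
  have f2 : 3 * (2 * (W : ℝ) ^ 4 / Y) ≤ Y * (W : ℝ) ^ 2 / L ^ A * (1 / 3) := by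
    have e1 : (W : ℝ) ^ 2 * (18 * L ^ A) ≤ Y ^ 2 := by
      have e2 : 18 * L ^ A ≤ (L ^ (A + 5)) ^ 2 := by
        calc 18 * L ^ A ≤ L * L ^ A := by gcongr; linarith
          _ = L ^ (A + 1) := by ring
          _ ≤ L ^ ((A + 5) * 2) := pow_le_pow_right₀ hL1 (by omega)
          _ = _ := by rw [pow_mul]
      calc (W : ℝ) ^ 2 * (18 * L ^ A) ≤ (W : ℝ) ^ 2 * (L ^ (A + 5)) ^ 2 := by gcongr
        _ = (W * L ^ (A + 5)) ^ 2 := by ring
        _ ≤ Y ^ 2 := pow_le_pow_left₀ (by positivity) hWL 2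
    have e3 : 3 * (2 * (W : ℝ) ^ 4 / Y) = ((W : ℝ) ^ 2 * (18 * L ^ A)) * ((W : ℝ) ^ 2 / (Y * L ^ A)) * (1 / 3) := by
      field_simp
      ring
    rw [e3]
    calc ((W : ℝ) ^ 2 * (18 * L ^ A)) * ((W : ℝ) ^ 2 / (Y * L ^ A)) * (1 / 3) ≤
        (Y : ℝ) ^ 2 * ((W : ℝ) ^ 2 / (Y * L ^ A)) * (1 / 3) := by gcongr
      _ = _ := by field_simp
  have f3 : 3 * (2 * (W : ℝ) ^ 2 * (L * (2 * Real.sqrt N * L))) ≤ Y * (W : ℝ) ^ 2 / L ^ A * (1 / 3) := by
    have e0 : Real.sqrt N * L ^ (A + 4) ≤ N := by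
      have e1 : Real.sqrt N = (N : ℝ) ^ (1 / 2 : ℝ) := by rw [Real.sqrt_eq_rpow]
      rw [e1]
      calc (N : ℝ) ^ (1 / 2 : ℝ) * L ^ (A + 4) ≤ (N : ℝ) ^ (1 / 2 : ℝ) * (N : ℝ) ^ (1 / 4 : ℝ) := by gcongr
        _ = (N : ℝ) ^ (3 / 4 : ℝ) := by
            rw [← Real.rpow_add hN0]
            norm_num
        _ ≤ (N : ℝ) ^ (1 : ℝ) := Real.rpow_le_rpow_of_exponent_le hNr1 (by norm_num)
        _ = N := Real.rpow_one _
    rw [hNr] at e0
    have e1 : 3 * (2 * (W : ℝ) ^ 2 * (L * (2 * Real.sqrt N * L))) =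
        (Real.sqrt (3 * (Y : ℝ)) * (36 * L ^ (A + 2))) * ((W : ℝ) ^ 2 / L ^ A) * (1 / 3) := by
      rw [hNr, pow_add]
      field_simp
      ring
    rw [e1]
    have e2 : Real.sqrt (3 * (Y : ℝ)) * (36 * L ^ (A + 2)) ≤ Y := by
      have e3 : 108 * L ^ (A + 2) ≤ L ^ (A + 4) := by
        rw [show A + 4 = 2 + (A + 2) by ring, pow_add L 2]
        apply mul_le_mul_of_nonneg_right _ (by positivity)
        nlinarith
      have e4 : 0 ≤ Real.sqrt (3 * (Y : ℝ)) := Real.sqrt_nonneg _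
      have e5 := mul_le_mul_of_nonneg_left e3 e4
      linarith
    calc (Real.sqrt (3 * (Y : ℝ)) * (36 * L ^ (A + 2))) * ((W : ℝ) ^ 2 / L ^ A) * (1 / 3) ≤
        (Y : ℝ) * ((W : ℝ) ^ 2 / L ^ A) * (1 / 3) := by gcongr
      _ = _ := by ring
  linarith

end Pool.Agent.H567.HW
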