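import Pool.Agent.H567.HW.WTi
import Pool.Agent.H567.HW.WBil3
import Pool.Agent.H567.HW.WinLA
import Pool.Graph.R_seed8.R460.GH.ML

/-!
Project HW (helper567), part 12: the von Mangoldt function over short intervals, all characters but few bad ones.
-/

set_option autoImplicit false

namespace Pool.Agent.H567.HW

open Finset
open Pool.Agent.R460.GS
open Pool.Agent.R460.GH
open Pool.Agent.Y883.GJ (LA)
open Pool.Agent.Y614.GJ.Core (ev_log)

open Classical in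
/-- the von Mangoldt function over short intervals, with explicit bad characters -/
theorem majLAx (A : ℕ) {ρ : ℝ} (hρ : 0 < ρ) (hρ3 : ρ ≤ 1 / 3) : ∃ (C₃ N₀ j₀ : ℕ) (θ : ℝ) (fam : ℕ → Finset (ℕ → ℂ)), 0 < θ ∧
    (∀ N : ℕ, N₀ ≤ N → ((fam N).card : ℝ) ≤ Real.log N ^ C₃ ∧ ∀ a ∈ fam N, (∀ m ∈ Icc 1 N, ‖a m‖ ≤ Real.log N * dn m) ∧
      (∀ m, a m ≠ 0 → (N : ℝ) ^ θ ≤ 2 * m ∧ m ≤ N)) ∧ ∀ Y N : ℕ, N = 3 * Y → N₀ ≤ N →
    ∀ (q W : ℕ) [NeZero q], (q : ℝ) * (N : ℝ) ^ (1 / 3 + ρ) ≤ W → (W : ℝ) * Real.log N ^ (A + 5) ≤ Y →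
    ∃ B : Finset (DirichletCharacter ℂ q), (1 : DirichletCharacter ℂ q) ∈ B ∧ (B.card : ℝ) ≤ Real.log N ^ C₃ ∧
      (∀ χ ∈ B, χ ≠ 1 → ∃ a ∈ fam N, ∃ i ∈ range (Nat.log 2 N + 1),
        Bad1 a (Real.log N ^ j₀)⁻¹ (⌊(Y : ℝ) / W * Real.log N ^ (3 * j₀)⌋₊ + 1) i χ) ∧
      ∀ S : Finset (DirichletCharacter ℂ q), Disjoint S B →
        ∑ u ∈ Ico Y (2 * Y), ∑ χ ∈ S, ‖∑ n ∈ Ioc u (u + W), LA n * χ (n : ZMod q)‖ ^ 2 ≤
          (Y : ℝ) * (W : ℝ) ^ 2 / Real.log N ^ A := by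
  obtain ⟨k, hk, hkρ⟩ := ex_k (show (0 : ℝ) < ρ / 2 by linarith)
  obtain ⟨hk0, hk12⟩ := inv_k hk
  obtain ⟨A', hA'⟩ : ∃ A', A' = A + 4 := ⟨_, rfl⟩
  obtain ⟨C', N₁, j₀, hB'⟩ := bilw (A' + 2 * (A' + 14) + 8) (2 / 3 - ρ) (1 / (k : ℝ)) (1 / 3 + 1 / (k : ℝ)) hk0
    (by linarith) (by linarith) (by linarith)
  obtain ⟨N₂, hG⟩ := pr_abs A' k hk
  obtain ⟨N₅, hG2⟩ := la_win A
  obtain ⟨N₃, hN₃⟩ := Filter.eventually_atTop.1 (ev_log (A' + 8) (s := ρ) hρ 2000)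
  have hk0' : 0 < 1 / (k : ℝ) := hk0
  have hkθ : 1 / 3 + 1 / (k : ℝ) ≤ 1 := by linarith
  refine ⟨C' + A' + 18, max (max N₁ N₂) (max (max N₃ (3 * N₅)) 64), j₀, 1 / (k : ℝ), fun N =>
    (range (JJ N (A' + 14))).image (fun j => a1 (Wk k N) (Zk k N) (cc N (A' + 14)) j) ∪
    (range (JJ N (A' + 14))).image (fun j => a2 (Wk k N) (Wk k N) (cc N (A' + 14)) j), hk0', ?_, ?_⟩
  · intro N hN
    have hNN₃ : N₃ ≤ N := le_trans (le_trans (le_trans (le_max_left _ _) (le_max_left _ _)) (le_max_right _ _)) hN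
    have hN64 : 64 ≤ N := le_trans (le_trans (le_max_right _ _) (le_max_right _ _)) hN
    have hN1 : 1 ≤ N := by omega
    have hNr1 : (1 : ℝ) ≤ N := by exact_mod_cast hN1
    obtain ⟨hL16, -⟩ := hN₃ N hNN₃
    have hJ := JJ_le (N := N) (U := A' + 14) (by linarith)
    have hup : ∀ m : ℕ, (m : ℝ) ≤ (N : ℝ) ^ (1 / 3 + 1 / (k : ℝ)) → m ≤ N := by
      intro m hm
      have h1 : (N : ℝ) ^ (1 / 3 + 1 / (k : ℝ)) ≤ (N : ℝ) ^ (1 : ℝ) := Real.rpow_le_rpow_of_exponent_le hNr1 hkθ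
      rw [Real.rpow_one] at h1
      exact_mod_cast hm.trans h1
    constructor
    · have h1 : ((range (JJ N (A' + 14))).image (fun j => a1 (Wk k N) (Zk k N) (cc N (A' + 14)) j) ∪
          (range (JJ N (A' + 14))).image (fun j => a2 (Wk k N) (Wk k N) (cc N (A' + 14)) j)).card ≤
          JJ N (A' + 14) + JJ N (A' + 14) := by
        refine (card_union_le _ _).trans (Nat.add_le_add ?_ ?_) <;>
        · refine card_image_le.trans ?_
          rw [card_range]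
      have h2 : (((range (JJ N (A' + 14))).image (fun j => a1 (Wk k N) (Zk k N) (cc N (A' + 14)) j) ∪
          (range (JJ N (A' + 14))).image (fun j => a2 (Wk k N) (Wk k N) (cc N (A' + 14)) j)).card : ℝ) ≤
          (JJ N (A' + 14) : ℝ) + JJ N (A' + 14) := by exact_mod_cast h1
      refine h2.trans ?_
      have hL1 : 1 ≤ Real.log N := by linarith
      calc (JJ N (A' + 14) : ℝ) + JJ N (A' + 14) ≤ 2 * Real.log N ^ (A' + 14 + 2) := by linarith
        _ ≤ Real.log N * Real.log N ^ (A' + 14 + 2) := by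
            apply mul_le_mul_of_nonneg_right (by linarith) (by positivity)
        _ = Real.log N ^ (A' + 17) := by ring
        _ ≤ _ := pow_le_pow_right₀ hL1 (by omega)
    · intro a ha
      rw [mem_union, mem_image, mem_image] at ha
      rcases ha with ⟨j, -, rfl⟩ | ⟨j, -, rfl⟩
      · refine ⟨fun m hm => one_le_bd (by linarith) hm (a1_le _ _ _ _ _), fun m hm => ?_⟩
        have := supp_k (a1_supp' hm)
        exact ⟨this.1, hup m this.2⟩
      · refine ⟨fun m hm => one_le_bd (by linarith) hm (a2_le _ _ _ _ _), fun m hm => ?_⟩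
        have := supp_k (a2_supp' hk hN1 hm)
        exact ⟨this.1, hup m this.2⟩
  intro Y N hNY hN q W _ hqW hWL
  have hNN₁ : N₁ ≤ N := le_trans (le_trans (le_max_left _ _) (le_max_left _ _)) hN
  have hNN₂ : N₂ ≤ N := le_trans (le_trans (le_max_right _ _) (le_max_left _ _)) hN
  have hNN₃ : N₃ ≤ N := le_trans (le_trans (le_trans (le_max_left _ _) (le_max_left _ _)) (le_max_right _ _)) hN
  have hNN₅ : 3 * N₅ ≤ N := le_trans (le_trans (le_trans (le_max_right _ _) (le_max_left _ _)) (le_max_right _ _)) hN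
  have hN64 : 64 ≤ N := le_trans (le_trans (le_max_right _ _) (le_max_right _ _)) hN
  have hN1 : 1 ≤ N := by omega
  have hYN₅ : N₅ ≤ Y := by omega
  obtain ⟨hL16, hLp⟩ := hN₃ N hNN₃
  have hN0 : (0 : ℝ) < N := by exact_mod_cast hN1
  have hNr1 : (1 : ℝ) ≤ N := by exact_mod_cast hN1
  have hL0 : 0 < Real.log N := by linarith
  have hL1 : 1 ≤ Real.log N := by linarith
  have hq1 : 1 ≤ q := Nat.pos_of_ne_zero (NeZero.ne q)
  have hq0 : (0 : ℝ) < q := by exact_mod_cast hq1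
  have hW0 : (0 : ℝ) ≤ W := Nat.cast_nonneg _
  have hWY : W ≤ Y := by
    have h1 : (W : ℝ) ≤ Y := by
      refine le_trans ?_ hWL
      exact le_mul_of_one_le_right hW0 (one_le_pow₀ hL1)
    exact_mod_cast h1
  have hNρ : 1 ≤ (N : ℝ) ^ (1 / 3 + ρ) := Real.one_le_rpow hNr1 (by linarith)
  have hqWr : (q : ℝ) ≤ W := le_trans (le_mul_of_one_le_right hq0.le hNρ) hqW
  have hqWn : q ≤ W := by exact_mod_cast hqWr
  have hqW2 : (q : ℝ) * N ≤ W * (N : ℝ) ^ (2 / 3 - ρ) := by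
    calc (q : ℝ) * N = q * (N : ℝ) ^ (1 / 3 + ρ) * (N : ℝ) ^ (2 / 3 - ρ) := by
          rw [mul_assoc, ← Real.rpow_add hN0]
          have : 1 / 3 + ρ + (2 / 3 - ρ) = 1 := by ring
          rw [this, Real.rpow_one]
      _ ≤ _ := by gcongr
  have hJ := JJ_le (N := N) (U := A' + 14) (by linarith)
  have hb1 := fun j => hB' Y N hNY hNN₁ q W hqW2 hWY (a1 (Wk k N) (Zk k N) (cc N (A' + 14)) j)
    (fun m hm => one_le_bd (by linarith) hm (a1_le _ _ _ _ _)) (fun m hm => supp_k (a1_supp' hm))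
  have hb2 := fun j => hB' Y N hNY hNN₁ q W hqW2 hWY (a2 (Wk k N) (Wk k N) (cc N (A' + 14)) j)
    (fun m hm => one_le_bd (by linarith) hm (a2_le _ _ _ _ _)) (fun m hm => supp_k (a2_supp' hk hN1 hm))
  choose B1 hB1c hB1e hB1 using hb1
  choose B2 hB2c hB2e hB2 using hb2
  refine ⟨insert 1 ((range (JJ N (A' + 14))).biUnion (fun j => B1 j ∪ B2 j)), mem_insert_self _ _, ?_, ?_, ?_⟩
  · have e1 : (insert 1 ((range (JJ N (A' + 14))).biUnion (fun j => B1 j ∪ B2 j))).card ≤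
        ∑ j ∈ range (JJ N (A' + 14)), ((B1 j).card + (B2 j).card) + 1 := by
      refine (card_insert_le _ _).trans (Nat.add_le_add_right ?_ 1)
      exact card_biUnion_le.trans (sum_le_sum fun j _ => card_union_le _ _)
    have e2 : ((insert 1 ((range (JJ N (A' + 14))).biUnion (fun j => B1 j ∪ B2 j))).card : ℝ) ≤
        ∑ j ∈ range (JJ N (A' + 14)), (((B1 j).card : ℝ) + (B2 j).card) + 1 := by exact_mod_cast e1
    refine e2.trans ?_
    obtain ⟨L, hLd⟩ : ∃ L, L = Real.log (N : ℝ) := ⟨_, rfl⟩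
    rw [← hLd] at hB1c hB2c hJ hL16 hL0 hL1 ⊢
    calc ∑ j ∈ range (JJ N (A' + 14)), (((B1 j).card : ℝ) + (B2 j).card) + 1
        ≤ ∑ j ∈ range (JJ N (A' + 14)), (L ^ C' + L ^ C') + 1 := by
          gcongr with j hj
          · exact hB1c j
          · exact hB2c j
      _ = (JJ N (A' + 14) : ℝ) * (2 * L ^ C') + 1 := by
          rw [sum_const, card_range, nsmul_eq_mul]
          ring
      _ ≤ L ^ (A' + 14 + 2) * (2 * L ^ C') + 1 := by gcongr
      _ ≤ L ^ (A' + 14 + 2) * (2 * L ^ C') + L ^ (A' + 14 + 2) * L ^ C' := by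
          have : 1 ≤ L ^ (A' + 14 + 2) * L ^ C' :=
            one_le_mul_of_one_le_of_one_le (one_le_pow₀ hL1) (one_le_pow₀ hL1)
          linarith
      _ = 3 * (L ^ (A' + 14 + 2) * L ^ C') := by ring
      _ ≤ L ^ 2 * (L ^ (A' + 14 + 2) * L ^ C') := by
          gcongr
          nlinarith
      _ = L ^ (C' + A' + 18) := by ring
  · intro χ hχ hχ1
    rw [mem_insert, mem_biUnion] at hχ
    rcases hχ with h | ⟨j, hj, h⟩
    · exact absurd h hχ1
    · rw [mem_union] at h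
      rcases h with h | h
      · obtain ⟨i, hi, hb⟩ := hB1e j χ h
        exact ⟨_, mem_union_left _ (mem_image_of_mem _ hj), i, hi, hb⟩
      · obtain ⟨i, hi, hb⟩ := hB2e j χ h
        exact ⟨_, mem_union_right _ (mem_image_of_mem _ hj), i, hi, hb⟩
  · intro S hS
    have hS1 : (1 : DirichletCharacter ℂ q) ∉ S := fun h =>
      disjoint_left.1 hS h (mem_insert_self _ _)
    have hSj : ∀ j ∈ range (JJ N (A' + 14)), Disjoint S (B1 j) ∧ Disjoint S (B2 j) := by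
      intro j hj
      constructor
      · refine Disjoint.mono_right (fun χ hχ => ?_) hS
        rw [mem_insert, mem_biUnion]
        exact Or.inr ⟨j, hj, mem_union_left _ hχ⟩
      · refine Disjoint.mono_right (fun χ hχ => ?_) hS
        rw [mem_insert, mem_biUnion]
        exact Or.inr ⟨j, hj, mem_union_right _ hχ⟩
    have hfin := hG2 Y W hYN₅ q hqWn (by rw [← hNY]; exact hWL) S (by
      rw [← hNY, ← hA']
      refine hG N hNN₂ _ (evw S Y W) (2 * (W : ℝ) ^ 2) (by positivity) (fun w => l2w S hqWn _ w) ?_ ?_ ?_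
      · have hP1 : 1 ≤ Pk k N := (one_le_Wk hN1).trans ((Wk_le hN1).trans (Zk_le_Pk hk hN64))
        have hM1 : 1 ≤ Pk k N * Wk k N := Nat.mul_le_mul hP1 (one_le_Wk hN1)
        have hMr := PW_real (k := k) hN1
        have hMN : Pk k N * Wk k N ≤ N := by
          have : ((Pk k N * Wk k N : ℕ) : ℝ) ≤ N := hMr.trans (by
            calc (N : ℝ) ^ (2 / 3 : ℝ) ≤ (N : ℝ) ^ (1 : ℝ) :=
                  Real.rpow_le_rpow_of_exponent_le hNr1 (by norm_num)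
              _ = N := Real.rpow_one _)
          exact_mod_cast this
        obtain ⟨M, hM⟩ : ∃ M, M = Pk k N * Wk k N := ⟨_, rfl⟩
        rw [← hM] at hM1 hMr hMN
        have t1 := ti_win hNY hWY S hS1 hM1 hMN
          (fun m => op (Zk k N) (Pk k N) (af (mu1 (Wk k N) (Wk k N))) m) (T := 2) (by norm_num)
          (fun m hm => by rw [hM]; exact mu1_supp hP1 hm) (fun m hm => opb hN1 (mu1_le _ _) hm)
        refine t1.trans ?_
        have hlM : Real.log M ≤ Real.log N :=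
          Real.log_le_log (by exact_mod_cast hM1) (by exact_mod_cast hMN)
        have hlM0 : 0 ≤ Real.log M := Real.log_natCast_nonneg _
        have hYN : (Y : ℝ) ≤ (N : ℝ) ^ (4 / 3 : ℝ) := by
          calc (Y : ℝ) ≤ N := by
                have : Y ≤ N := by omega
                exact_mod_cast this
            _ = (N : ℝ) ^ (1 : ℝ) := (Real.rpow_one _).symm
            _ ≤ _ := Real.rpow_le_rpow_of_exponent_le hNr1 (by norm_num)
        have hM2 : (M : ℝ) ^ 2 ≤ (N : ℝ) ^ (4 / 3 : ℝ) := by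
          calc (M : ℝ) ^ 2 ≤ ((N : ℝ) ^ (2 / 3 : ℝ)) ^ 2 := pow_le_pow_left₀ (Nat.cast_nonneg _) hMr 2
            _ = _ := by
                rw [← Real.rpow_natCast, ← Real.rpow_mul hN0.le]
                norm_num
        have hqW3 : (q : ℝ) * W * (N : ℝ) ^ (4 / 3 : ℝ) ≤ W ^ 2 * (N : ℝ) ^ (1 - ρ) := by
          have e1 : (N : ℝ) ^ (4 / 3 : ℝ) = (N : ℝ) ^ (1 / 3 + ρ) * (N : ℝ) ^ (1 - ρ) := by
            rw [← Real.rpow_add hN0]
            congr 1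
            ring
          rw [e1]
          calc (q : ℝ) * W * ((N : ℝ) ^ (1 / 3 + ρ) * (N : ℝ) ^ (1 - ρ)) =
              (q * (N : ℝ) ^ (1 / 3 + ρ)) * W * (N : ℝ) ^ (1 - ρ) := by ring
            _ ≤ W * W * (N : ℝ) ^ (1 - ρ) := by gcongr
            _ = _ := by ring
        obtain ⟨L, hLd⟩ : ∃ L, L = Real.log (N : ℝ) := ⟨_, rfl⟩
        rw [← hLd] at hL16 hLp hL0 hL1 hlM ⊢
        rw [le_div_iff₀ (by positivity)]
        calc 6 * ((Y : ℝ) + (M : ℝ) ^ 2) * (2 ^ 2 * (1 + Real.log M) ^ 3 * (q * W)) * L ^ (A' + 4)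
            ≤ 6 * ((N : ℝ) ^ (4 / 3 : ℝ) + (N : ℝ) ^ (4 / 3 : ℝ)) * (2 ^ 2 * (2 * L) ^ 3 * (q * W)) * L ^ (A' + 4) := by
              gcongr
              linarith
          _ = (384 * L ^ (A' + 7)) * (q * W * (N : ℝ) ^ (4 / 3 : ℝ)) := by ring
          _ ≤ (384 * L ^ (A' + 7)) * (W ^ 2 * (N : ℝ) ^ (1 - ρ)) := by gcongr
          _ ≤ (L * L ^ (A' + 7)) * (W ^ 2 * (N : ℝ) ^ (1 - ρ)) := by gcongr; linarith
          _ = L ^ (A' + 8) * (W ^ 2 * (N : ℝ) ^ (1 - ρ)) := by ring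
          _ ≤ (N : ℝ) ^ ρ * (W ^ 2 * (N : ℝ) ^ (1 - ρ)) := by gcongr
          _ = ((N : ℝ) ^ ρ * (N : ℝ) ^ (1 - ρ)) * W ^ 2 := by ring
          _ = N * W ^ 2 := by
              rw [← Real.rpow_add hN0]
              have : ρ + (1 - ρ) = 1 := by ring
              rw [this, Real.rpow_one]
          _ ≤ N * (2 * (W : ℝ) ^ 2) := by
              have : 0 ≤ (N : ℝ) * (W : ℝ) ^ 2 := by positivity
              linarith
      · intro j hj
        exact hB2 j (fun l => op (Zk k N) (Pk k N) (af (b2 (Wk k N) (cc N (A' + 14)) j)) l)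
          (fun m hm => two_le_bd (by linarith) hm (opb hN1 (b2_le _ _ _) hm)) S (hSj j hj).2
      · intro j hj
        exact hB1 j (fun l => op (Zk k N) (Pk k N) (af (b1 (cc N (A' + 14)) j)) l)
          (fun m hm => two_le_bd (by linarith) hm (opb hN1 (b1_le _ _) hm)) S (hSj j hj).1)
    rw [← hNY] at hfin
    exact hfin

/-- the von Mangoldt function over short intervals -/
theorem majLA (A : ℕ) {ρ : ℝ} (hρ : 0 < ρ) (hρ3 : ρ ≤ 1 / 3) : ∃ C₃ N₀ : ℕ, ∀ Y N : ℕ, N = 3 * Y → N₀ ≤ N →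
    ∀ (q W : ℕ) [NeZero q], (q : ℝ) * (N : ℝ) ^ (1 / 3 + ρ) ≤ W → (W : ℝ) * Real.log N ^ (A + 5) ≤ Y →
    ∃ B : Finset (DirichletCharacter ℂ q), (1 : DirichletCharacter ℂ q) ∈ B ∧ (B.card : ℝ) ≤ Real.log N ^ C₃ ∧
      ∀ S : Finset (DirichletCharacter ℂ q), Disjoint S B →
        ∑ u ∈ Ico Y (2 * Y), ∑ χ ∈ S, ‖∑ n ∈ Ioc u (u + W), LA n * χ (n : ZMod q)‖ ^ 2 ≤
          (Y : ℝ) * (W : ℝ) ^ 2 / Real.log N ^ A := by
  obtain ⟨C₃, N₀, j₀, θ, fam, -, -, h⟩ := majLAx A hρ hρ3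
  refine ⟨C₃, N₀, fun Y N hNY hN q W _ hqW hWL => ?_⟩
  obtain ⟨B, h1, h2, -, h3⟩ := h Y N hNY hN q W hqW hWL
  exact ⟨B, h1, h2, h3⟩

end Pool.Agent.H567.HW
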