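import Pool.Agent.H567.HW.Pr2
import Pool.Agent.H567.HW.WMaj

/-!
Project HW (helper567), part 42: few primitive characters are bad for the short intervals.
-/

set_option autoImplicit false

namespace Pool.Agent.H567.HW

open Finset
open Pool.Agent.H376R2.MR (ch DP FK)
open Pool.Agent.Y883.GJ (LA)
open Pool.Agent.Y614.GJ.Core (ev_log)

/-- the primitive character `ψ` is bad at the scale `Y` -/
def BadW (A : ℕ) (ρ : ℝ) (Y d : ℕ) (ψ : DirichletCharacter ℂ d) : Prop :=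
  1 < d ∧ ψ.IsPrimitive ∧ ∃ W : ℕ, (d : ℝ) * ((3 * Y : ℕ) : ℝ) ^ (1 / 3 + ρ) ≤ W ∧
    (W : ℝ) * Real.log ((3 * Y : ℕ) : ℝ) ^ (A + 5) ≤ Y ∧
    (Y : ℝ) * (W : ℝ) ^ 2 / Real.log ((3 * Y : ℕ) : ℝ) ^ A <
      ∑ u ∈ Ico Y (2 * Y), ‖∑ n ∈ Ioc u (u + W), LA n * ψ (n : ZMod d)‖ ^ 2

open Classical in
/-- few primitive characters are bad -/
theorem bad_count (A : ℕ) {ρ : ℝ} (hρ : 0 < ρ) (hρ3 : ρ ≤ 1 / 3) : ∃ c Y₀ : ℕ, ∀ Y : ℕ, Y₀ ≤ Y →
    ∀ Ψ : Finset (Σ f : ℕ, DirichletCharacter ℂ f), (∀ ψ ∈ Ψ, BadW A ρ Y ψ.1 ψ.2) →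
      (Ψ.card : ℝ) ≤ Real.log ((3 * Y : ℕ) : ℝ) ^ c := by
  obtain ⟨C₃, N₁, j₀, θ, fam, hθ, hfam, hmaj⟩ := majLAx A hρ hρ3
  obtain ⟨g, hg⟩ : ∃ g : ℕ, 6 ≤ θ * ((g + 1 : ℕ) : ℝ) := by
    refine ⟨⌈6 / θ⌉₊, ?_⟩
    have h1 := Nat.le_ceil (6 / θ)
    rw [div_le_iff₀ hθ] at h1
    push_cast
    nlinarith
  obtain ⟨Cg, c, hCg, hcount⟩ := count_pr g
  obtain ⟨N₂, hN₂⟩ := Filter.eventually_atTop.1 (ev_log (3 * j₀ + 1) (s := 1 / 3) (by norm_num)
    (max (Cg * 2 ^ c) (max (4 ^ (g + 1)) 100)))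
  refine ⟨C₃ + 2 + (2 * j₀ * (g + 1) + c + 1), max (max N₁ N₂) 1, fun Y hY Ψ hΨ => ?_⟩
  obtain ⟨N, hN⟩ : ∃ N, N = 3 * Y := ⟨_, rfl⟩
  have hYN : Y ≤ N := by omega
  have hNN₁ : N₁ ≤ N := (le_trans (le_trans (le_max_left _ _) (le_max_left _ _)) hY).trans hYN
  have hNN₂ : N₂ ≤ N := (le_trans (le_trans (le_max_right _ _) (le_max_left _ _)) hY).trans hYN
  have hY1 : 1 ≤ Y := le_trans (le_max_right _ _) hY
  have hN1 : 1 ≤ N := by omega
  obtain ⟨hLb, hLp⟩ := hN₂ N hNN₂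
  rw [← hN]
  have hN0 : (0 : ℝ) < N := by exact_mod_cast hN1
  have hNr1 : (1 : ℝ) ≤ N := by exact_mod_cast hN1
  have hLC : Cg * 2 ^ c ≤ Real.log N := (le_max_left _ _).trans hLb
  have hL4 : 4 ^ (g + 1) ≤ Real.log N := (le_max_left _ _).trans ((le_max_right _ _).trans hLb)
  have hL100 : 100 ≤ Real.log N := (le_max_right _ _).trans ((le_max_right _ _).trans hLb)
  obtain ⟨hfamc, hfamb⟩ := hfam N hNN₁
  have hI := log2_le (N := N) (by linarith)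
  obtain ⟨L, hLd⟩ : ∃ L, L = Real.log (N : ℝ) := ⟨_, rfl⟩
  rw [← hLd] at hLC hL4 hL100 hLp hfamc hI ⊢
  have hL0 : 0 < L := by linarith
  have hL1 : 1 ≤ L := by linarith
  have hY0 : (0 : ℝ) < Y := by exact_mod_cast hY1
  -- every member has a large sum over a cell
  have hex : ∀ ψ ∈ Ψ, ψ.1 ≤ N ∧ ∃ a ∈ fam N, ∃ i ∈ range (Nat.log 2 N + 1), Bad1 a (L ^ j₀)⁻¹ N i ψ.2 := by
    rintro ⟨d, ψ⟩ hψ
    obtain ⟨hd1, hprim, W, hW1, hW2, hW3⟩ := hΨ _ hψ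
    simp only at hd1 hprim hW1 hW2 hW3 ⊢
    rw [← hN] at hW1 hW2 hW3
    have hne : NeZero d := ⟨by omega⟩
    have hd0 : (1 : ℝ) < d := by exact_mod_cast hd1
    have hW13 : (N : ℝ) ^ (1 / 3 : ℝ) ≤ W := by
      calc (N : ℝ) ^ (1 / 3 : ℝ) ≤ (N : ℝ) ^ (1 / 3 + ρ) := Real.rpow_le_rpow_of_exponent_le hNr1 (by linarith)
        _ ≤ d * (N : ℝ) ^ (1 / 3 + ρ) := le_mul_of_one_le_left (by positivity) hd0.le
        _ ≤ W := hW1
    have hN13 : 1 ≤ (N : ℝ) ^ (1 / 3 : ℝ) := Real.one_le_rpow hNr1 (by norm_num)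
    have hW0 : (0 : ℝ) < W := by linarith
    have hdN : d ≤ N := by
      have h1 : (d : ℝ) ≤ W := le_trans (le_mul_of_one_le_right (by linarith)
        (Real.one_le_rpow hNr1 (by linarith))) hW1
      have h2 : (W : ℝ) ≤ Y := by
        refine le_trans (le_mul_of_one_le_right hW0.le ?_) hW2
        rw [← hLd]
        exact one_le_pow₀ hL1
      have h3 : (Y : ℝ) ≤ N := by exact_mod_cast hYN
      exact_mod_cast (h1.trans h2).trans h3
    refine ⟨hdN, ?_⟩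
    obtain ⟨B, -, -, hBe, hB⟩ := hmaj Y N hN hNN₁ d W hW1 hW2
    have hψ1 : ψ ≠ 1 := by
      intro h
      have h1 : ψ.conductor = d := hprim
      rw [h, DirichletCharacter.conductor_one] at h1
      omega
    have hmem : ψ ∈ B := by
      by_contra hcon
      have h1 := hB {ψ} (disjoint_singleton_left.2 hcon)
      simp only [sum_singleton] at h1
      exact absurd hW3 (not_lt.2 h1)
    obtain ⟨a, ha, i, hi, hb1, k, hk, hb2⟩ := hBe ψ hmem hψ1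
    rw [← hLd] at hb2 hk
    refine ⟨a, ha, i, hi, hb1, k, ?_, hb2⟩
    -- the frequencies
    have hK : ⌊(Y : ℝ) / W * L ^ (3 * j₀)⌋₊ + 1 ≤ N := by
      have h1 : (Y : ℝ) / W * L ^ (3 * j₀) + 1 ≤ N := by
        have h2 : L ^ (3 * j₀) ≤ (N : ℝ) ^ (1 / 3 : ℝ) := (pow_le_pow_right₀ hL1 (by omega)).trans hLp
        have h3 : (Y : ℝ) / W * L ^ (3 * j₀) ≤ Y := by
          rw [div_mul_eq_mul_div, div_le_iff₀ hW0]
          exact mul_le_mul_of_nonneg_left (h2.trans hW13) hY0.le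
        have h4 : (N : ℝ) = 3 * Y := by rw [hN]; push_cast; ring
        have h5 : (1 : ℝ) ≤ Y := by exact_mod_cast hY1
        linarith
      have h2 := Nat.floor_le (show 0 ≤ (Y : ℝ) / W * L ^ (3 * j₀) by positivity)
      have h3 : ((⌊(Y : ℝ) / W * L ^ (3 * j₀)⌋₊ + 1 : ℕ) : ℝ) ≤ N := by push_cast; linarith
      exact_mod_cast h3
    unfold FK at hk ⊢
    rw [mem_Ioo] at hk ⊢
    constructor <;> omega
  -- the count for one cell
  obtain ⟨P, hP⟩ : ∃ P : (ℕ → ℂ) → ℕ → Finset (Σ f : ℕ, DirichletCharacter ℂ f),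
    P = fun a i => Ψ.filter (fun ψ => Bad1 a (L ^ j₀)⁻¹ N i ψ.2) := ⟨_, rfl⟩
  have hcov : Ψ ⊆ (fam N).biUnion (fun a => (range (Nat.log 2 N + 1)).biUnion (fun i => P a i)) := by
    intro ψ hψ
    obtain ⟨-, a, ha, i, hi, hb⟩ := hex ψ hψ
    rw [mem_biUnion]
    refine ⟨a, ha, ?_⟩
    rw [mem_biUnion]
    refine ⟨i, hi, ?_⟩
    rw [hP, mem_filter]
    exact ⟨hψ, hb⟩
  have hone : ∀ a ∈ fam N, ∀ i ∈ range (Nat.log 2 N + 1), ((P a i).card : ℝ) ≤ L ^ (2 * j₀ * (g + 1) + c + 1) := by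
    intro a ha i _
    obtain ⟨hab, has⟩ := hfamb a ha
    by_cases hm : ∃ m ∈ cI (2 ^ i), a m ≠ 0
    · obtain ⟨m, hm, hm0⟩ := hm
      obtain ⟨X, hX⟩ : ∃ X : ℕ, X = 2 ^ i := ⟨_, rfl⟩
      rw [← hX] at hm
      rw [mem_Ico] at hm
      have hX1 : 1 ≤ X := by rw [hX]; exact Nat.one_le_pow _ _ (by norm_num)
      have hX0 : (0 : ℝ) < X := by exact_mod_cast hX1
      obtain ⟨hm1, hm2⟩ := has m hm0
      have hδ : 0 < (L ^ j₀)⁻¹ := by positivity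
      have h7 := hcount N N X a (2 * L) ((L ^ j₀)⁻¹ * X) hN1 hX1 (by
        have h1 : Real.log ((2 * X : ℕ) : ℝ) ≤ Real.log (2 * N) := by
          apply Real.log_le_log
          · exact_mod_cast (by omega : 0 < 2 * X)
          · exact_mod_cast (by omega : 2 * X ≤ 2 * N)
        rw [Real.log_mul two_ne_zero hN0.ne', ← hLd] at h1
        have h2 := Real.log_two_lt_d9
        linarith) (by positivity) (by
        intro m' hm'
        have hd := dn_nonneg m'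
        by_cases h0 : a m' = 0
        · rw [h0, norm_zero]
          positivity
        · rw [mem_Ico] at hm'
          have h1 := (has m' h0).2
          have h2 := hab m' (mem_Icc.2 ⟨by omega, h1⟩)
          rw [← hLd] at h2
          refine h2.trans ?_
          apply mul_le_mul_of_nonneg_right _ hd
          linarith) (by
        -- the size of the power
        have e1 : (N : ℝ) ^ θ ≤ 4 * X := by
          have h9 : (m : ℝ) ≤ 2 * X := by exact_mod_cast hm.2.le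
          linarith
        have e2 : (N : ℝ) ^ (6 : ℝ) ≤ ((4 : ℝ) * X) ^ (g + 1) := by
          calc (N : ℝ) ^ (6 : ℝ) ≤ (N : ℝ) ^ (θ * ((g + 1 : ℕ) : ℝ)) :=
                Real.rpow_le_rpow_of_exponent_le hNr1 hg
            _ = ((N : ℝ) ^ θ) ^ (g + 1) := by rw [Real.rpow_mul hN0.le, Real.rpow_natCast]
            _ ≤ _ := pow_le_pow_left₀ (by positivity) e1 _
        have e3 : (N : ℝ) ^ (6 : ℝ) = (N : ℝ) ^ 4 * N * N := by
          rw [show (6 : ℝ) = ((6 : ℕ) : ℝ) by norm_num, Real.rpow_natCast]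
          ring
        rw [e3, mul_pow] at e2
        have e4 : (4 : ℝ) ^ (g + 1) ≤ N := by
          calc (4 : ℝ) ^ (g + 1) ≤ L := hL4
            _ ≤ N := by
                rw [hLd]
                exact (Real.log_le_sub_one_of_pos hN0).trans (by linarith)
        have e6 : (0 : ℝ) < 4 ^ (g + 1) := by positivity
        have e7 : (4 : ℝ) ^ (g + 1) * ((N : ℝ) ^ 4 * N) ≤ 4 ^ (g + 1) * (X : ℝ) ^ (g + 1) := by
          calc (4 : ℝ) ^ (g + 1) * ((N : ℝ) ^ 4 * N) ≤ N * ((N : ℝ) ^ 4 * N) := by gcongr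
            _ = (N : ℝ) ^ 4 * N * N := by ring
            _ ≤ _ := e2
        exact le_of_mul_le_mul_left e7 e6) (P a i) (by
        intro ψ hψ
        rw [hP, mem_filter] at hψ
        obtain ⟨hψ1, -, k, hk, hb⟩ := hψ
        obtain ⟨h1, h2, -⟩ := hΨ ψ hψ1
        refine ⟨by omega, (hex ψ hψ1).1, h2, k, hk, ?_⟩
        rw [hX]
        exact hb)
      obtain ⟨n, hn⟩ : ∃ n : ℝ, n = ((P a i).card : ℝ) := ⟨_, rfl⟩
      rw [← hn] at h7 ⊢
      have h10 : n * ((L ^ j₀)⁻¹) ^ (2 * (g + 1)) ≤ Cg * (2 * L) ^ c := by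
        have e1 : 0 < (X : ℝ) ^ (2 * (g + 1)) := by positivity
        have e2 : (n * ((L ^ j₀)⁻¹) ^ (2 * (g + 1))) * (X : ℝ) ^ (2 * (g + 1)) ≤ (Cg * (2 * L) ^ c) * (X : ℝ) ^ (2 * (g + 1)) := by
          calc (n * ((L ^ j₀)⁻¹) ^ (2 * (g + 1))) * (X : ℝ) ^ (2 * (g + 1)) = n * ((L ^ j₀)⁻¹ * X) ^ (2 * (g + 1)) := by
                rw [mul_pow]; ring
            _ ≤ _ := h7
            _ = _ := by ring
        exact le_of_mul_le_mul_right e2 e1
      have h11 : n ≤ Cg * (2 * L) ^ c * L ^ (2 * j₀ * (g + 1)) := by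
        have e1 : ((L ^ j₀)⁻¹) ^ (2 * (g + 1)) * L ^ (2 * j₀ * (g + 1)) = 1 := by
          rw [inv_pow, ← pow_mul, show j₀ * (2 * (g + 1)) = 2 * j₀ * (g + 1) by ring]
          exact inv_mul_cancel₀ (by positivity)
        calc n = n * ((L ^ j₀)⁻¹) ^ (2 * (g + 1)) * L ^ (2 * j₀ * (g + 1)) := by rw [mul_assoc, e1, mul_one]
          _ ≤ _ := mul_le_mul_of_nonneg_right h10 (by positivity)
      refine h11.trans ?_
      calc Cg * (2 * L) ^ c * L ^ (2 * j₀ * (g + 1)) = (Cg * 2 ^ c) * L ^ (2 * j₀ * (g + 1) + c) := by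
            rw [mul_pow, pow_add]; ring
        _ ≤ L * L ^ (2 * j₀ * (g + 1) + c) := by gcongr
        _ = _ := by ring
    · have h5 : P a i = ∅ := by
        rw [hP]
        exact filter_eq_empty_iff.2 fun ψ _ h => hm h.1
      rw [h5, card_empty, Nat.cast_zero]
      positivity
  have h1 : (Ψ.card : ℝ) ≤ ∑ a ∈ fam N, ∑ i ∈ range (Nat.log 2 N + 1), ((P a i).card : ℝ) := by
    have h2 := (card_le_card hcov).trans (card_biUnion_le.trans (sum_le_sum fun a _ => card_biUnion_le))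
    exact_mod_cast h2
  refine h1.trans ?_
  calc ∑ a ∈ fam N, ∑ i ∈ range (Nat.log 2 N + 1), ((P a i).card : ℝ)
      ≤ ∑ a ∈ fam N, ∑ i ∈ range (Nat.log 2 N + 1), L ^ (2 * j₀ * (g + 1) + c + 1) :=
        sum_le_sum fun a ha => sum_le_sum fun i hi => hone a ha i hi
    _ = ((fam N).card : ℝ) * (((Nat.log 2 N + 1 : ℕ) : ℝ) * L ^ (2 * j₀ * (g + 1) + c + 1)) := by
        rw [sum_const, sum_const, card_range, nsmul_eq_mul, nsmul_eq_mul]
    _ ≤ L ^ C₃ * ((2 * L) * L ^ (2 * j₀ * (g + 1) + c + 1)) := by gcongr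
    _ ≤ L ^ C₃ * ((L * L) * L ^ (2 * j₀ * (g + 1) + c + 1)) := by gcongr; linarith
    _ = _ := by rw [pow_add, pow_add]; ring

end Pool.Agent.H567.HW
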