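import Pool.Agent.H567.HW.Pr3
import Pool.Agent.H567.HW.WSmall

/-!
Project HW (helper567), part 43: a character whose primitive character is not bad.
-/

set_option autoImplicit false

namespace Pool.Agent.H567.HW

open Finset
open Pool.Agent.Y883.GJ (LA)
open Pool.Agent.H807R2.Dav (ee)
open Pool.Agent.H373R2.T7 (lamz Vz Vz_pos lamz_nonneg mem_pz)
open Pool.Agent.Y614.GJ.Core (ev_log)

/-- the negation of `BadW` -/
lemma not_bad {A : ℕ} {ρ : ℝ} {Y d W : ℕ} {ψ : DirichletCharacter ℂ d} (h : ¬ BadW A ρ Y d ψ) (hd : 1 < d)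
    (hψ : ψ.IsPrimitive) (h1 : (d : ℝ) * ((3 * Y : ℕ) : ℝ) ^ (1 / 3 + ρ) ≤ W)
    (h2 : (W : ℝ) * Real.log ((3 * Y : ℕ) : ℝ) ^ (A + 5) ≤ Y) :
    ∑ u ∈ Ico Y (2 * Y), ‖∑ n ∈ Ioc u (u + W), LA n * ψ (n : ZMod d)‖ ^ 2 ≤
      (Y : ℝ) * (W : ℝ) ^ 2 / Real.log ((3 * Y : ℕ) : ℝ) ^ A := by
  by_contra h3
  push Not at h3
  exact h ⟨hd, hψ, W, h1, h2, h3⟩

/-- the size of the terms which are not coprime to the modulus -/
lemma LA_noncopW (q X u W : ℕ) (hq : 1 ≤ q) (hqX : q ≤ X) (hu : u + W ≤ X) :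
    ∑ n ∈ (Ioc u (u + W)).filter (fun n => ¬ n.Coprime q), ‖LA n‖ ≤
      (Nat.log 2 X : ℝ) * ((Nat.log 2 X + 1 : ℝ) * Real.log X) := by
  have h1 : ∀ n ∈ (Ioc u (u + W)).filter (fun n => ¬ n.Coprime q), ‖LA n‖ = ArithmeticFunction.vonMangoldt n := by
    intro n _
    unfold LA
    rw [Complex.norm_real, Real.norm_of_nonneg ArithmeticFunction.vonMangoldt_nonneg]
  rw [sum_congr rfl h1]
  refine le_trans ?_ (Pool.Agent.Y918.GJ.lam_noncop q X hq hqX)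
  apply sum_le_sum_of_subset_of_nonneg
  · apply filter_subset_filter
    intro n hn
    rw [mem_Ioc] at hn
    rw [mem_Icc]
    omega
  · intro n _ _
    exact ArithmeticFunction.vonMangoldt_nonneg

open Classical in
/-- a character whose primitive character is not bad -/
theorem largeW (A C : ℕ) {ρ : ℝ} (hρ : 0 < ρ) : ∃ B : ℕ, ∀ E : ℕ, ∃ Y₀ : ℕ, ∀ Y : ℕ, Y₀ ≤ Y →
    ∀ z : ℕ, Real.log (6 * Y) ^ B ≤ z → (z : ℝ) ≤ Real.log Y ^ E → ∀ (q Q : ℕ) [NeZero q],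
    (q : ℝ) * (Y : ℝ) ^ (1 / 3 + ρ) ≤ Q → Q ≤ Y → ∀ χ : DirichletCharacter ℂ q,
    1 < χ.conductor → ¬ BadW (A + 2) (min (ρ / 2) (1 / 3)) Y χ.conductor χ.primitiveCharacter →
    ¬ BadW (A + 2) (min (ρ / 2) (1 / 3)) (2 * Y) χ.conductor χ.primitiveCharacter →
    ∀ η : ℝ, |η| ≤ Real.log Q ^ C / Q →
      ∑ u ∈ Ico Y (2 * Y), ‖∑ n ∈ Ioc u (u + Q), GZ z n * χ (n : ZMod q) * ee (n * η)‖ ^ 2 ≤
        Y * ((Q : ℝ) ^ 2 / Real.log Q ^ A) := by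
  obtain ⟨ρ', hρ'⟩ : ∃ ρ', ρ' = min (ρ / 2) (1 / 3) := ⟨_, rfl⟩
  have hρ'0 : 0 < ρ' := by rw [hρ']; exact lt_min (by linarith) (by norm_num)
  have hρ'1 : ρ' ≤ 1 / 3 := by rw [hρ']; exact min_le_right _ _
  have hρ'2 : ρ' ≤ ρ / 2 := by rw [hρ']; exact min_le_left _ _
  obtain ⟨_C, B₀, hB₀⟩ := goodW 1 1 hρ
  obtain ⟨B, hB⟩ := lzw (A + 1) hρ'0
  refine ⟨max B₀ B, fun E => ?_⟩
  obtain ⟨Y₂, hY₂⟩ := hB₀ E
  obtain ⟨N₂, hN₂⟩ := hB E
  obtain ⟨Y₁, hY₁⟩ := envW (C + A + 9) (200000 * 3 ^ (A + 7)) hρ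
  obtain ⟨Y₄, hY₄⟩ := Filter.eventually_atTop.1 (ev_log (A + 8) (s := 1 / 3) (by norm_num) 200000)
  refine ⟨max (max Y₁ Y₂) (max N₂ Y₄), fun Y hY z hz1 hz2 q Q _ hqQ hQY χ hχ hb1 hb2 η hη => ?_⟩
  have hq : 1 ≤ q := Nat.pos_of_ne_zero (NeZero.ne q)
  obtain ⟨hY1, hQ1, hL, hLY, hl6, hqW, hW1, hW2⟩ := hY₁ Y
    (le_trans (le_max_left _ _) (le_trans (le_max_left _ _) hY)) q Q hq hqQ hQY
  have hYY₂ : Y₂ ≤ Y := le_trans (le_max_right _ _) (le_trans (le_max_left _ _) hY)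
  have hYN₂ : N₂ ≤ Y := le_trans (le_max_left _ _) (le_trans (le_max_right _ _) hY)
  have hYY₄ : Y₄ ≤ Y := le_trans (le_max_right _ _) (le_trans (le_max_right _ _) hY)
  rw [← hρ'] at hb1 hb2
  have h6 : (6 * Y : ℝ) = ((6 * Y : ℕ) : ℝ) := by push_cast; ring
  have hY0 : (0 : ℝ) < Y := by exact_mod_cast hY1
  have hYr1 : (1 : ℝ) ≤ Y := by exact_mod_cast hY1
  have hlY : Real.log Y ≤ Real.log (6 * Y) := Real.log_le_log hY0 (by linarith)
  have h3A : (1 : ℝ) ≤ 3 ^ (A + 7) := one_le_pow₀ (by norm_num)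
  have hl61 : 1 ≤ Real.log (6 * Y) := by linarith
  obtain ⟨hGb, -⟩ := hY₂ Y hYY₂ z
    ((pow_le_pow_right₀ hl61 (le_max_left _ _)).trans hz1) hz2 q Q hqQ hQY
  obtain ⟨W, hW⟩ : ∃ W : ℕ, W = ⌊(Q : ℝ) / Real.log Q ^ (C + A + 9)⌋₊ := ⟨_, rfl⟩
  rw [← hW] at hqW hW1 hW2
  obtain ⟨L, hLd⟩ : ∃ L, L = Real.log Q := ⟨_, rfl⟩
  rw [← hLd] at hL hLY hl6 hW1 hW2 hGb hη ⊢
  have hL2 : 200000 ≤ L := by linarith
  have hL3 : (3 : ℝ) ^ (A + 7) ≤ L := by nlinarith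
  have hL0 : 0 < L := by linarith
  have hL1 : 1 ≤ L := by linarith
  have hQ0 : (0 : ℝ) < Q := by exact_mod_cast hQ1
  have hQYr : (Q : ℝ) ≤ Y := by exact_mod_cast hQY
  have hq1 : (1 : ℝ) ≤ q := by exact_mod_cast hq
  have hq0 : (0 : ℝ) < q := by linarith
  have h6Y : 1 ≤ ((6 * Y : ℕ) : ℝ) ^ (1 / 3 + ρ / 2) := by
    apply Real.one_le_rpow
    · exact_mod_cast (by omega : 1 ≤ 6 * Y)
    · linarith
  have hqWr : (q : ℝ) ≤ W := le_trans (le_mul_of_one_le_right hq0.le h6Y) hqW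
  have hWY6 : ((6 * Y : ℕ) : ℝ) ^ (1 / 3 + ρ / 2) ≤ W := by
    refine le_trans ?_ hqW
    exact le_mul_of_one_le_left (by linarith) hq1
  have hWr0 : (0 : ℝ) < W := by linarith
  have hW0 : 0 < W := by exact_mod_cast hWr0
  have hWL : L ^ (A + 8) ≤ W := by
    calc L ^ (A + 8) ≤ Real.log Y ^ (A + 8) := pow_le_pow_left₀ hL0.le hLY _
      _ ≤ (Y : ℝ) ^ (1 / 3 : ℝ) := (hY₄ Y hYY₄).2
      _ ≤ ((6 * Y : ℕ) : ℝ) ^ (1 / 3 : ℝ) := by
          apply Real.rpow_le_rpow hY0.le _ (by norm_num)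
          rw [← h6]
          linarith
      _ ≤ ((6 * Y : ℕ) : ℝ) ^ (1 / 3 + ρ / 2) := by
          apply Real.rpow_le_rpow_of_exponent_le _ (by linarith)
          exact_mod_cast (by omega : 1 ≤ 6 * Y)
      _ ≤ W := hWY6
  have hW2' : L ^ (C + A + 7) * W ≤ Q := by
    refine le_trans ?_ hW2
    apply mul_le_mul_of_nonneg_right _ hWr0.le
    exact pow_le_pow_right₀ hL1 (by omega)
  have hWQr : (W : ℝ) ≤ Q := by
    refine le_trans ?_ hW2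
    exact le_mul_of_one_le_left hWr0.le (one_le_pow₀ hL1)
  have hqY : q ≤ 6 * Y := by
    have h1 : (q : ℝ) ≤ Y := by linarith
    have h2 : q ≤ Y := by exact_mod_cast h1
    omega
  have hWQ : W ≤ Q := by exact_mod_cast hWQr
  have hWY : W ≤ Y := hWQ.trans hQY
  have hlog : (Nat.log 2 (6 * Y) : ℝ) ≤ 6 * L := by
    have h1 : 2 ^ Nat.log 2 (6 * Y) ≤ 6 * Y := Nat.pow_log_le_self 2 (by omega)
    have h2 : (2 : ℝ) ^ Nat.log 2 (6 * Y) ≤ 6 * Y := by exact_mod_cast h1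
    have h3 := Real.log_le_log (by positivity) h2
    rw [Real.log_pow] at h3
    have h4 := Real.log_two_gt_d9
    have h5 : (0 : ℝ) ≤ (Nat.log 2 (6 * Y) : ℝ) := Nat.cast_nonneg _
    nlinarith
  have hlN : ∀ N : ℕ, Y ≤ N → N ≤ 6 * Y → Real.log Y ≤ Real.log N ∧ Real.log N ≤ 3 * L := by
    intro N h1 h2
    have h3 : (Y : ℝ) ≤ N := by exact_mod_cast h1
    have h4 : (N : ℝ) ≤ 6 * Y := by exact_mod_cast h2
    exact ⟨Real.log_le_log hY0 h3, (Real.log_le_log (by linarith) h4).trans hl6⟩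
  -- the conditions on the lengths
  have hcond : ∀ N : ℕ, Y ≤ N → N ≤ 6 * Y → (q : ℝ) * (N : ℝ) ^ (1 / 3 + ρ') ≤ W := by
    intro N h1 h2
    refine le_trans ?_ hqW
    have h3 : (N : ℝ) ^ (1 / 3 + ρ') ≤ ((6 * Y : ℕ) : ℝ) ^ (1 / 3 + ρ / 2) := by
      calc (N : ℝ) ^ (1 / 3 + ρ') ≤ (N : ℝ) ^ (1 / 3 + ρ / 2) := by
            apply Real.rpow_le_rpow_of_exponent_le _ (by linarith)
            exact_mod_cast (by omega : 1 ≤ N)
        _ ≤ ((6 * Y : ℕ) : ℝ) ^ (1 / 3 + ρ / 2) := by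
            apply Real.rpow_le_rpow (Nat.cast_nonneg _) _ (by positivity)
            exact_mod_cast h2
    gcongr
  have hcond2 : ∀ N : ℕ, Y ≤ N → N ≤ 6 * Y → (W : ℝ) * Real.log N ^ (A + 2 + 5) ≤ Y := by
    intro N h1 h2
    obtain ⟨h3, h4⟩ := hlN N h1 h2
    have h5 : 0 ≤ Real.log N := by linarith
    calc (W : ℝ) * Real.log N ^ (A + 2 + 5) ≤ W * (3 * L) ^ (A + 2 + 5) := by gcongr
      _ = (3 : ℝ) ^ (A + 7) * (L ^ (A + 7) * W) := by rw [mul_pow]; ring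
      _ ≤ L * (L ^ (A + 7) * W) := by
          apply mul_le_mul_of_nonneg_right hL3 (by positivity)
      _ = L ^ (A + 8) * W := by ring
      _ ≤ L ^ (C + A + 9) * W := by
          apply mul_le_mul_of_nonneg_right _ hWr0.le
          exact pow_le_pow_right₀ hL1 (by omega)
      _ ≤ Q := hW2
      _ ≤ Y := hQYr
  have hdq : (χ.conductor : ℝ) ≤ q := by
    exact_mod_cast Nat.le_of_dvd hq (DirichletCharacter.conductor_dvd_level χ)
  have hcond' : ∀ N : ℕ, Y ≤ N → N ≤ 6 * Y → (χ.conductor : ℝ) * (N : ℝ) ^ (1 / 3 + ρ') ≤ W := by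
    intro N h1 h2
    refine le_trans ?_ (hcond N h1 h2)
    gcongr
  have hprim := DirichletCharacter.primitiveCharacter_isPrimitive χ
  have hp1 := not_bad hb1 hχ hprim (hcond' (3 * Y) (by omega) (by omega)) (hcond2 (3 * Y) (by omega) (by omega))
  have hp2 := not_bad hb2 hχ hprim (hcond' (3 * (2 * Y)) (by omega) (by omega))
    ((hcond2 (3 * (2 * Y)) (by omega) (by omega)).trans (by push_cast; linarith))
  -- the sieve model
  have hz' : ∀ N : ℕ, Y ≤ N → N ≤ 6 * Y → Real.log N ^ B ≤ z ∧ (z : ℝ) ≤ Real.log N ^ E := by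
    intro N h1 h2
    obtain ⟨h3, h4⟩ := hlN N h1 h2
    have h5 : Real.log N ≤ Real.log (6 * Y) := by
      apply Real.log_le_log
      · exact_mod_cast (by omega : 0 < N)
      · rw [h6]
        exact_mod_cast h2
    refine ⟨(pow_le_pow_left₀ (by linarith) h5 B).trans
      ((pow_le_pow_right₀ hl61 (le_max_right _ _)).trans hz1), hz2.trans (pow_le_pow_left₀ (by linarith) h3 E)⟩
  obtain ⟨hz3, hz4⟩ := hz' (3 * Y) (by omega) (by omega)
  obtain ⟨hz5, hz6⟩ := hz' (3 * (2 * Y)) (by omega) (by omega)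
  have h1S : (1 : DirichletCharacter ℂ q) ∉ ({χ} : Finset (DirichletCharacter ℂ q)) := by
    rw [mem_singleton]
    intro h
    rw [← h, DirichletCharacter.conductor_one] at hχ
    omega
  have hs1 := (hN₂ Y (3 * Y) rfl (by omega) z hz3 hz4).2 q W (hcond (3 * Y) (by omega) (by omega)) hWY {χ} h1S
  have hs2 := (hN₂ (2 * Y) (3 * (2 * Y)) rfl (by omega) z hz5 hz6).2 q W
    (hcond (3 * (2 * Y)) (by omega) (by omega)) (by omega) {χ} h1S
  simp only [sum_singleton] at hs1 hs2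
  -- the integers which are not coprime to the modulus
  obtain ⟨T, hT⟩ : ∃ T : ℝ, T = 150 * L ^ 3 := ⟨_, rfl⟩
  have hlog0 : (0 : ℝ) ≤ (Nat.log 2 (6 * Y) : ℝ) := Nat.cast_nonneg _
  have hT1 : ∀ v ∈ Ico Y (4 * Y), ∑ n ∈ (Ioc v (v + W)).filter (fun n => ¬ n.Coprime q), ‖LA n‖ ≤ T := by
    intro v hv
    rw [mem_Ico] at hv
    refine (LA_noncopW q (6 * Y) v W hq hqY (by omega)).trans ?_
    rw [← h6, hT]
    calc (Nat.log 2 (6 * Y) : ℝ) * ((Nat.log 2 (6 * Y) + 1 : ℝ) * Real.log (6 * Y)) ≤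
        6 * L * ((6 * L + 1) * (3 * L)) := by
          have : 0 ≤ Real.log (6 * Y) := by linarith
          gcongr
      _ ≤ 6 * L * ((8 * L) * (3 * L)) := by
          have : 6 * L + 1 ≤ 8 * L := by linarith
          gcongr
      _ = 144 * L ^ 3 := by ring
      _ ≤ 150 * L ^ 3 := by
          have : 0 ≤ L ^ 3 := by positivity
          linarith
  have hsp : ∀ f : ℕ → ℝ, ∑ v ∈ Ico Y (4 * Y), f v = ∑ v ∈ Ico Y (2 * Y), f v + ∑ v ∈ Ico (2 * Y) (2 * (2 * Y)), f v := by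
    intro f
    have : 4 * Y = 2 * (2 * Y) := by ring
    rw [this]
    exact (Finset.sum_Ico_consecutive f (by omega) (by omega)).symm
  have hE : ∑ v ∈ Ico Y (4 * Y), ∑ χ' ∈ ({χ} : Finset (DirichletCharacter ℂ q)),
      ‖∑ n ∈ Ioc v (v + W), GZ z n * χ' (n : ZMod q)‖ ^ 2 ≤ 12 * (Y * (W : ℝ) ^ 2 / L ^ (A + 1)) := by
    simp only [sum_singleton]
    have e1 : ∀ v ∈ Ico Y (4 * Y), ‖∑ n ∈ Ioc v (v + W), GZ z n * χ (n : ZMod q)‖ ^ 2 ≤
        4 * ‖∑ n ∈ Ioc v (v + W), LA n * χ.primitiveCharacter (n : ZMod χ.conductor)‖ ^ 2 + 4 * T ^ 2 +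
        2 * ‖∑ n ∈ Ioc v (v + W), LZ z n * χ (n : ZMod q)‖ ^ 2 := by
      intro v hv
      have e2 : ∑ n ∈ Ioc v (v + W), GZ z n * χ (n : ZMod q) =
          ∑ n ∈ Ioc v (v + W), LA n * χ (n : ZMod q) - ∑ n ∈ Ioc v (v + W), LZ z n * χ (n : ZMod q) := by
        rw [← sum_sub_distrib]
        refine sum_congr rfl fun n _ => ?_
        unfold GZ
        ring
      rw [e2]
      have e4 := char_splitW LA χ T (hT1 v hv)
      obtain ⟨x, hx⟩ : ∃ x, x = ∑ n ∈ Ioc v (v + W), LA n * χ (n : ZMod q) := ⟨_, rfl⟩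
      obtain ⟨y, hy⟩ : ∃ y, y = ∑ n ∈ Ioc v (v + W), LZ z n * χ (n : ZMod q) := ⟨_, rfl⟩
      obtain ⟨w, hw⟩ : ∃ w, w = ∑ n ∈ Ioc v (v + W), LA n * χ.primitiveCharacter (n : ZMod χ.conductor) := ⟨_, rfl⟩
      rw [← hx, ← hw] at e4
      rw [← hx, ← hy, ← hw]
      have e3 := pow_le_pow_left₀ (norm_nonneg _) (norm_sub_le x y) 2
      have e5 := pow_le_pow_left₀ (norm_nonneg _) e4 2
      nlinarith [sq_nonneg (‖x‖ - ‖y‖), sq_nonneg (‖w‖ - T)]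
    refine (sum_le_sum e1).trans ?_
    rw [sum_add_distrib, sum_add_distrib, ← mul_sum, sum_const, Nat.card_Ico, nsmul_eq_mul, ← mul_sum]
    rw [hsp, hsp]
    have k5 : ∀ (j : ℕ) (N : ℕ), Y ≤ N → N ≤ 6 * Y → (Y : ℝ) * (W : ℝ) ^ 2 / Real.log N ^ j ≤
        Y * (W : ℝ) ^ 2 / L ^ j := by
      intro j N h1 h2
      have h3 := (hlN N h1 h2).1
      apply div_le_div_of_nonneg_left (by positivity) (by positivity)
      exact pow_le_pow_left₀ hL0.le (hLY.trans h3) _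
    have k6 := k5 (A + 2) (3 * Y) (by omega) (by omega)
    have k7 := k5 (A + 2) (3 * (2 * Y)) (by omega) (by omega)
    have k8 := k5 (A + 1) (3 * Y) (by omega) (by omega)
    have k9 := k5 (A + 1) (3 * (2 * Y)) (by omega) (by omega)
    have k10 : ∀ j : ℕ, ((2 * Y : ℕ) : ℝ) * (W : ℝ) ^ 2 / Real.log ((3 * (2 * Y) : ℕ) : ℝ) ^ j =
        2 * ((Y : ℝ) * (W : ℝ) ^ 2 / Real.log ((3 * (2 * Y) : ℕ) : ℝ) ^ j) := by
      intro j
      push_cast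
      ring
    rw [k10] at hp2 hs2
    have k11 : (Y : ℝ) * (W : ℝ) ^ 2 / L ^ (A + 2) ≤ Y * (W : ℝ) ^ 2 / L ^ (A + 1) * (1 / 8) := by
      have : (Y : ℝ) * (W : ℝ) ^ 2 / L ^ (A + 2) = Y * (W : ℝ) ^ 2 / L ^ (A + 1) * (1 / L) := by
        rw [pow_succ L (A + 1)]
        field_simp
      rw [this]
      apply mul_le_mul_of_nonneg_left _ (by positivity)
      rw [div_le_div_iff₀ hL0 (by norm_num)]
      linarith
    have k12 : ((4 * Y - Y : ℕ) : ℝ) * (4 * T ^ 2) ≤ Y * (W : ℝ) ^ 2 / L ^ (A + 1) * 1 := by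
      have e : 4 * Y - Y = 3 * Y := by omega
      rw [e, hT]
      push_cast
      have e2 : (L ^ (A + 8)) ^ 2 ≤ (W : ℝ) ^ 2 := pow_le_pow_left₀ (by positivity) hWL 2
      rw [mul_one, le_div_iff₀ (by positivity)]
      calc 3 * (Y : ℝ) * (4 * (150 * L ^ 3) ^ 2) * L ^ (A + 1) = Y * (270000 * L ^ (A + 7)) := by ring
        _ ≤ Y * (L * L * L ^ (A + 7)) := by
            apply mul_le_mul_of_nonneg_left _ hY0.le
            apply mul_le_mul_of_nonneg_right _ (by positivity)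
            nlinarith
        _ = Y * L ^ (A + 9) := by ring
        _ ≤ Y * (L ^ (A + 8)) ^ 2 := by
            apply mul_le_mul_of_nonneg_left _ hY0.le
            rw [← pow_mul]
            exact pow_le_pow_right₀ hL1 (by omega)
        _ ≤ Y * (W : ℝ) ^ 2 := by gcongr
    obtain ⟨R, hR⟩ : ∃ R, R = (Y : ℝ) * (W : ℝ) ^ 2 / L ^ (A + 1) := ⟨_, rfl⟩
    rw [← hR] at k8 k9 k11 k12 ⊢
    have s1 := hp1.trans (k6.trans k11)
    have s2 := hp2.trans (mul_le_mul_of_nonneg_left (k7.trans k11) (by norm_num : (0 : ℝ) ≤ 2))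
    have s3 := hs1.trans k8
    have s4 := hs2.trans (mul_le_mul_of_nonneg_left k9 (by norm_num : (0 : ℝ) ≤ 2))
    have hR0 : 0 ≤ R := by rw [hR]; positivity
    clear hp1 hp2 hs1 hs2 k6 k7 k8 k9 k10 k11 e1
    linarith
  have hup := up_fin {χ} (GZ z) (A := A) (C := C) (by linarith) hQ1 hQY hqWr hW0 hW2' hGb hη hE
  simp only [sum_singleton] at hup
  exact hup

end Pool.Agent.H567.HW
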