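import Pool.Agent.H567.HW.Pr4
import Pool.Agent.H567.HW.CoreW

/-!
Project HW (helper567), part 44: the exceptional integers and the regular moduli.
-/

set_option autoImplicit false

namespace Pool.Agent.H567.HW

open Finset
open Pool.Agent.Y883.GJ
open Pool.Agent.H807R2.Dav (ee)
open Pool.Agent.Y614.GJ.Core (P P_nonneg P_le q_le_phi ev_log)

open Classical in
/-- the bad conductors which are not small -/
noncomputable def E1 (A : ℕ) (ρ : ℝ) (K Y : ℕ) : Finset ℕ :=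
  (Icc 1 (6 * Y)).filter (fun d => Real.log Y ^ K < (d : ℝ) ∧ ∃ ψ : DirichletCharacter ℂ d,
    BadW A ρ Y d ψ ∨ BadW A ρ (2 * Y) d ψ)

/-- the exceptional integers -/
noncomputable def E2 (A : ℕ) (ρ : ℝ) (K C Y : ℕ) : Finset ℕ :=
  (E1 A ρ K Y ×ˢ range ⌊Real.log Y ^ C⌋₊).image (fun p => p.1 / Nat.gcd p.1 (p.2 + 1))

/-- the number of the bad conductors -/
lemma E1_card (A : ℕ) {ρ : ℝ} (hρ : 0 < ρ) (hρ3 : ρ ≤ 1 / 3) : ∃ c Y₀ : ℕ, ∀ Y : ℕ, Y₀ ≤ Y → ∀ K : ℕ,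
    ((E1 A ρ K Y).card : ℝ) ≤ Real.log Y ^ c := by
  classical
  obtain ⟨c, Y₀, h⟩ := bad_count A hρ hρ3
  obtain ⟨Y₁, hY₁⟩ := Filter.eventually_atTop.1 (ev_log 1 (s := 1) (by norm_num) (max 6 (2 * 2 ^ c)))
  refine ⟨c + 1, max Y₀ (max Y₁ 1), fun Y hY K => ?_⟩
  obtain ⟨hL, -⟩ := hY₁ Y (le_trans (le_max_left _ _) (le_trans (le_max_right _ _) hY))
  have hY1 : 1 ≤ Y := le_trans (le_max_right _ _) (le_trans (le_max_right _ _) hY)
  have hYY : Y₀ ≤ Y := le_trans (le_max_left _ _) hY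
  have hY0 : (0 : ℝ) < Y := by exact_mod_cast hY1
  have hL6 : 6 ≤ Real.log Y := (le_max_left _ _).trans hL
  have hLc : 2 * 2 ^ c ≤ Real.log Y := (le_max_right _ _).trans hL
  have hcount : ∀ Y' : ℕ, Y₀ ≤ Y' → (((Icc 1 (6 * Y)).filter (fun d => ∃ ψ : DirichletCharacter ℂ d,
      BadW A ρ Y' d ψ)).card : ℝ) ≤ Real.log ((3 * Y' : ℕ) : ℝ) ^ c := by
    intro Y' hY'
    obtain ⟨S, hS⟩ : ∃ S, S = (Icc 1 (6 * Y)).filter (fun d => ∃ ψ : DirichletCharacter ℂ d, BadW A ρ Y' d ψ) :=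
      ⟨_, rfl⟩
    rw [← hS]
    have hch : ∀ d : ℕ, ∃ ψ : DirichletCharacter ℂ d, d ∈ S → BadW A ρ Y' d ψ := by
      intro d
      by_cases hd : d ∈ S
      · rw [hS, mem_filter] at hd
        obtain ⟨ψ, hψ⟩ := hd.2
        exact ⟨ψ, fun _ => hψ⟩
      · exact ⟨1, fun h => absurd h hd⟩
    choose f hf using hch
    have h1 := h Y' hY' (S.image (fun d => (⟨d, f d⟩ : Σ f : ℕ, DirichletCharacter ℂ f))) (by
      intro ψ hψ
      rw [mem_image] at hψ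
      obtain ⟨d, hd, rfl⟩ := hψ
      exact hf d hd)
    rw [card_image_of_injOn (fun d _ d' _ h => congrArg Sigma.fst h)] at h1
    exact h1
  have h1 : E1 A ρ K Y ⊆ (Icc 1 (6 * Y)).filter (fun d => ∃ ψ : DirichletCharacter ℂ d, BadW A ρ Y d ψ) ∪
      (Icc 1 (6 * Y)).filter (fun d => ∃ ψ : DirichletCharacter ℂ d, BadW A ρ (2 * Y) d ψ) := by
    intro d hd
    unfold E1 at hd
    rw [mem_filter] at hd
    obtain ⟨h1, -, ψ, h2⟩ := hd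
    rw [mem_union, mem_filter, mem_filter]
    rcases h2 with h2 | h2
    · exact Or.inl ⟨h1, ψ, h2⟩
    · exact Or.inr ⟨h1, ψ, h2⟩
  have hlog : ∀ N : ℕ, Y ≤ N → N ≤ 6 * Y → 0 ≤ Real.log N ∧ Real.log N ≤ 2 * Real.log Y := by
    intro N h1 h2
    have h3 : (Y : ℝ) ≤ N := by exact_mod_cast h1
    have h4 : (N : ℝ) ≤ 6 * Y := by exact_mod_cast h2
    have h5 := Real.log_le_log hY0 h3
    have h6 := Real.log_le_log (by linarith) h4
    rw [Real.log_mul (by norm_num) hY0.ne'] at h6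
    have : Real.log 6 ≤ 6 := (Real.log_le_sub_one_of_pos (by norm_num)).trans (by norm_num)
    constructor <;> linarith
  have k1 := hcount Y hYY
  have k2 := hcount (2 * Y) (by omega)
  obtain ⟨a1, a2⟩ := hlog (3 * Y) (by omega) (by omega)
  obtain ⟨b1, b2⟩ := hlog (3 * (2 * Y)) (by omega) (by omega)
  have k3 := pow_le_pow_left₀ a1 a2 c
  have k4 := pow_le_pow_left₀ b1 b2 c
  have k5 : ((E1 A ρ K Y).card : ℝ) ≤ (((Icc 1 (6 * Y)).filter (fun d => ∃ ψ : DirichletCharacter ℂ d,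
      BadW A ρ Y d ψ)).card : ℝ) + ((Icc 1 (6 * Y)).filter (fun d => ∃ ψ : DirichletCharacter ℂ d,
      BadW A ρ (2 * Y) d ψ)).card := by
    exact_mod_cast (card_le_card h1).trans (card_union_le _ _)
  have hp : 0 < Real.log Y ^ c := by
    have : 0 < Real.log Y := by linarith
    positivity
  calc ((E1 A ρ K Y).card : ℝ) ≤ (2 * Real.log Y) ^ c + (2 * Real.log Y) ^ c := by linarith
    _ = (2 * 2 ^ c) * Real.log Y ^ c := by rw [mul_pow]; ring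
    _ ≤ Real.log Y * Real.log Y ^ c := by gcongr
    _ = Real.log Y ^ (c + 1) := by ring

lemma E2_card {A K C Y c : ℕ} {ρ : ℝ} (hL : 1 ≤ Real.log Y) (h : ((E1 A ρ K Y).card : ℝ) ≤ Real.log Y ^ c) :
    ((E2 A ρ K C Y).card : ℝ) ≤ Real.log Y ^ (c + C) := by
  classical
  have h1 : (E2 A ρ K C Y).card ≤ (E1 A ρ K Y).card * ⌊Real.log Y ^ C⌋₊ := by
    unfold E2
    refine card_image_le.trans ?_
    rw [card_product, card_range]
  have h2 : ((E2 A ρ K C Y).card : ℝ) ≤ ((E1 A ρ K Y).card : ℝ) * (⌊Real.log Y ^ C⌋₊ : ℕ) := by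
    exact_mod_cast h1
  refine h2.trans ?_
  rw [pow_add]
  exact mul_le_mul h (Nat.floor_le (by positivity)) (Nat.cast_nonneg _) (by positivity)

lemma E2_large {A K C A₀ Y : ℕ} {ρ : ℝ} (hL : 1 ≤ Real.log Y) (hK : K = A₀ + C) {d : ℕ} (hd : d ∈ E2 A ρ K C Y) :
    Real.log Y ^ A₀ < (d : ℝ) := by
  classical
  unfold E2 at hd
  rw [mem_image] at hd
  obtain ⟨⟨e, j⟩, he, rfl⟩ := hd
  rw [mem_product, mem_range] at he
  obtain ⟨he, hj⟩ := he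
  simp only at he hj ⊢
  unfold E1 at he
  rw [mem_filter, mem_Icc] at he
  obtain ⟨⟨he1, -⟩, he2, -⟩ := he
  obtain ⟨g, hg⟩ : ∃ g, g = Nat.gcd e (j + 1) := ⟨_, rfl⟩
  rw [← hg]
  have hge : g ∣ e := by rw [hg]; exact Nat.gcd_dvd_left _ _
  have hgj : g ≤ j + 1 := by rw [hg]; exact Nat.gcd_le_right _ (Nat.succ_pos j)
  have hg0 : 0 < g := Nat.pos_of_dvd_of_pos hge he1
  have hgr : (g : ℝ) ≤ Real.log Y ^ C := by
    have h1 : j + 1 ≤ ⌊Real.log Y ^ C⌋₊ := hj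
    have h2 : ((j + 1 : ℕ) : ℝ) ≤ Real.log Y ^ C := by
      refine le_trans ?_ (Nat.floor_le (show 0 ≤ Real.log Y ^ C by positivity))
      exact_mod_cast h1
    exact le_trans (by exact_mod_cast hgj) h2
  have he3 : ((e / g : ℕ) : ℝ) * g = e := by
    exact_mod_cast Nat.div_mul_cancel hge
  have hgp : (0 : ℝ) < g := by exact_mod_cast hg0
  have hLA : 0 < Real.log Y ^ A₀ := by positivity
  rw [hK, pow_add] at he2
  by_contra hcon
  rw [not_lt] at hcon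
  have : ((e / g : ℕ) : ℝ) * g ≤ Real.log Y ^ A₀ * Real.log Y ^ C := by
    apply mul_le_mul hcon hgr hgp.le hLA.le
  linarith

/-- moduli which are not divisible by an exceptional integer -/
lemma E2_reg {A K C Y q j d : ℕ} {ρ : ℝ} (hq : ∀ d ∈ E2 A ρ K C Y, ¬ d ∣ q)
    (hj : ((j + 1 : ℕ) : ℝ) ≤ Real.log Y ^ C) (hd : d ∣ (j + 1) * q) : d ∉ E1 A ρ K Y := by
  classical
  intro h
  apply hq (d / Nat.gcd d (j + 1))
  · unfold E2
    rw [mem_image]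
    refine ⟨(d, j), ?_, rfl⟩
    rw [mem_product, mem_range]
    refine ⟨h, ?_⟩
    have : j + 1 ≤ ⌊Real.log Y ^ C⌋₊ := Nat.le_floor hj
    simp only
    omega
  · have h2 : d / Nat.gcd d (j + 1) ∣ (j + 1) / Nat.gcd d (j + 1) * q := by
      have hg : 0 < Nat.gcd d (j + 1) := Nat.gcd_pos_of_pos_right _ (Nat.succ_pos j)
      obtain ⟨x, hx⟩ := Nat.gcd_dvd_left d (j + 1)
      obtain ⟨y, hy⟩ := Nat.gcd_dvd_right d (j + 1)
      obtain ⟨g, hgd⟩ : ∃ g, g = Nat.gcd d (j + 1) := ⟨_, rfl⟩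
      rw [← hgd] at hx hy hg ⊢
      rw [hx, Nat.mul_div_cancel_left x hg]
      rw [hy, Nat.mul_div_cancel_left y hg]
      rw [hx, hy, mul_assoc] at hd
      exact Nat.dvd_of_mul_dvd_mul_left hg hd
    have h3 : Nat.Coprime (d / Nat.gcd d (j + 1)) ((j + 1) / Nat.gcd d (j + 1)) :=
      Nat.coprime_div_gcd_div_gcd (Nat.gcd_pos_of_pos_right _ (Nat.succ_pos j))
    exact h3.dvd_of_dvd_mul_left h2

open Classical in
/-- the regular moduli: the sums over the classes -/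
theorem majG (A C : ℕ) {ρ : ℝ} (hρ : 0 < ρ) : ∃ A' : ℕ, ∀ K : ℕ, ∃ B : ℕ, ∀ E : ℕ, ∃ Y₀ : ℕ, ∀ Y : ℕ, Y₀ ≤ Y →
    ∀ z : ℕ, Real.log (6 * Y) ^ B ≤ z → (z : ℝ) ≤ Real.log Y ^ E → ∀ (q Q : ℕ) [NeZero q],
    (q : ℝ) * (Y : ℝ) ^ (1 / 3 + ρ) ≤ Q → Q ≤ Y → (∀ d, d ∣ q → d ∉ E1 A' (min (ρ / 2) (1 / 3)) K Y) →
    ∀ η : ℝ, |η| ≤ Real.log Q ^ C / Q →
      ∑ u ∈ Ico Y (2 * Y), P q (3 * Y) (wG u Q (GZ z)) η ≤ Y * ((Q : ℝ) ^ 2 / (q * Real.log Q ^ A)) := by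
  obtain ⟨C₃, B₁, hB₁⟩ := goodW (A + 3) C hρ
  obtain ⟨B₃, hB₃⟩ := largeW (A + C₃ + 4) C hρ
  obtain ⟨B₄, hB₄⟩ := nonW (A + 1) hρ
  refine ⟨A + C₃ + 4 + 2, fun K => ?_⟩
  obtain ⟨B₂, hB₂⟩ := smallW (A + C₃ + 4) C (K + 1) hρ
  refine ⟨max (max B₁ B₂) (max B₃ B₄), fun E => ?_⟩
  obtain ⟨Y₁, hY₁⟩ := hB₁ E
  obtain ⟨Y₂, hY₂⟩ := hB₂ E
  obtain ⟨Y₃, hY₃⟩ := hB₃ E
  obtain ⟨Y₄, hY₄⟩ := hB₄ E
  obtain ⟨Y₅, hY₅⟩ := envW 1 (max 2000 (3 ^ K)) hρ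
  refine ⟨max (max (max Y₁ Y₂) (max Y₃ Y₄)) Y₅, fun Y hY z hz1 hz2 q Q _ hqQ hQY hreg η hη => ?_⟩
  have hYY₁ : Y₁ ≤ Y := le_trans (le_trans (le_trans (le_max_left _ _) (le_max_left _ _)) (le_max_left _ _)) hY
  have hYY₂ : Y₂ ≤ Y := le_trans (le_trans (le_trans (le_max_right _ _) (le_max_left _ _)) (le_max_left _ _)) hY
  have hYY₃ : Y₃ ≤ Y := le_trans (le_trans (le_trans (le_max_left _ _) (le_max_right _ _)) (le_max_left _ _)) hY
  have hYY₄ : Y₄ ≤ Y := le_trans (le_trans (le_trans (le_max_right _ _) (le_max_right _ _)) (le_max_left _ _)) hY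
  have hYY₅ : Y₅ ≤ Y := le_trans (le_max_right _ _) hY
  have hq : 1 ≤ q := Nat.pos_of_ne_zero (NeZero.ne q)
  obtain ⟨hY1, hQ1, hLm, hLY, hl6, -, -, -⟩ := hY₅ Y hYY₅ q Q hq hqQ hQY
  have hY0 : (0 : ℝ) < Y := by exact_mod_cast hY1
  have hYr1 : (1 : ℝ) ≤ Y := by exact_mod_cast hY1
  have hQ0 : (0 : ℝ) < Q := by exact_mod_cast hQ1
  have hQYr : (Q : ℝ) ≤ Y := by exact_mod_cast hQY
  have hq1 : (1 : ℝ) ≤ q := by exact_mod_cast hq
  have hq0 : (0 : ℝ) < q := by linarith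
  have hlY6 : Real.log Y ≤ Real.log (6 * Y) := Real.log_le_log hY0 (by linarith)
  have hL2000' : 2000 ≤ Real.log Q := (le_max_left _ _).trans hLm
  have hL3K' : 3 ^ K ≤ Real.log Q := (le_max_right _ _).trans hLm
  have hl61 : 1 ≤ Real.log (6 * Y) := by linarith
  have hz11 : Real.log (6 * Y) ^ B₁ ≤ z :=
    (pow_le_pow_right₀ hl61 ((le_max_left _ _).trans (le_max_left _ _))).trans hz1
  have hz12 : Real.log (6 * Y) ^ B₂ ≤ z :=
    (pow_le_pow_right₀ hl61 ((le_max_right _ _).trans (le_max_left _ _))).trans hz1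
  have hz13 : Real.log (6 * Y) ^ B₃ ≤ z :=
    (pow_le_pow_right₀ hl61 ((le_max_left _ _).trans (le_max_right _ _))).trans hz1
  have hz14 : Real.log (6 * Y) ^ B₄ ≤ z :=
    (pow_le_pow_right₀ hl61 ((le_max_right _ _).trans (le_max_right _ _))).trans hz1
  obtain ⟨-, S₀, hS₀c, hS₀⟩ := hY₁ Y hYY₁ z hz11 hz2 q Q hqQ hQY
  have hg := hS₀ η hη (univ.filter (fun χ => χ ∉ S₀)) (by
    rw [disjoint_left]
    intro χ hχ
    exact (mem_filter.1 hχ).2)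
  have hsm := hY₂ Y hYY₂ z hz12 hz2 q Q hqQ hQY
  have hlg := hY₃ Y hYY₃ z hz13 hz2 q Q hqQ hQY
  have hnon := hY₄ Y hYY₄ z hz14 hz2 q Q hqQ hQY η
  have hqYr : (q : ℝ) * 1 ≤ Y := by
    refine le_trans ?_ (hqQ.trans hQYr)
    have : 1 ≤ (Y : ℝ) ^ (1 / 3 + ρ) := Real.one_le_rpow hYr1 (by linarith)
    gcongr
  have hqY : q ≤ Y := by
    rw [mul_one] at hqYr
    exact_mod_cast hqYr
  have hqQr : (q : ℝ) ≤ Q := by
    refine le_trans ?_ hqQ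
    have : 1 ≤ (Y : ℝ) ^ (1 / 3 + ρ) := Real.one_le_rpow hYr1 (by linarith)
    nlinarith
  obtain ⟨L, hLd⟩ : ∃ L, L = Real.log Q := ⟨_, rfl⟩
  rw [← hLd] at hL2000' hL3K' hLY hl6 hS₀c hg hsm hlg hnon hη ⊢
  have hL0 : 0 < L := by linarith
  have hL1 : 1 ≤ L := by linarith
  -- the other characters
  have hbad : ∀ χ ∈ S₀, ∑ u ∈ Ico Y (2 * Y), ‖∑ n ∈ Ioc u (u + Q), GZ z n * χ (n : ZMod q) * ee (n * η)‖ ^ 2 ≤
      Y * ((Q : ℝ) ^ 2 / L ^ (A + C₃ + 4)) := by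
    intro χ _
    by_cases hc : (χ.conductor : ℝ) ≤ L ^ (K + 1)
    · exact hsm χ hc η hη
    push Not at hc
    have hc1 : 1 < χ.conductor := by
      have h1 : (1 : ℝ) ≤ L ^ (K + 1) := one_le_pow₀ hL1
      have h2 : (1 : ℝ) < χ.conductor := by linarith
      exact_mod_cast h2
    have hdvd := DirichletCharacter.conductor_dvd_level χ
    have hnE := hreg χ.conductor hdvd
    have hnB : ¬ (∃ ψ : DirichletCharacter ℂ χ.conductor, BadW (A + C₃ + 4 + 2) (min (ρ / 2) (1 / 3)) Y χ.conductor ψ ∨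
        BadW (A + C₃ + 4 + 2) (min (ρ / 2) (1 / 3)) (2 * Y) χ.conductor ψ) := by
      intro hex
      apply hnE
      unfold E1
      rw [mem_filter, mem_Icc]
      have hle := Nat.le_of_dvd hq hdvd
      refine ⟨⟨by omega, by omega⟩, ?_, hex⟩
      refine lt_of_le_of_lt ?_ hc
      have h3L : Real.log Y ≤ 3 * L := hlY6.trans hl6
      calc Real.log Y ^ K ≤ (3 * L) ^ K := pow_le_pow_left₀ (by linarith) h3L K
        _ = 3 ^ K * L ^ K := mul_pow _ _ _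
        _ ≤ L * L ^ K := by
            apply mul_le_mul_of_nonneg_right hL3K' (by positivity)
        _ = L ^ (K + 1) := by ring
    rw [not_exists] at hnB
    have hnB' := hnB χ.primitiveCharacter
    rw [not_or] at hnB'
    exact hlg χ hc1 hnB'.1 hnB'.2 η hη
  have hsum : ∑ u ∈ Ico Y (2 * Y), ∑ χ : DirichletCharacter ℂ q,
      ‖∑ n ∈ Ioc u (u + Q), GZ z n * χ (n : ZMod q) * ee (n * η)‖ ^ 2 ≤ Y * ((Q : ℝ) ^ 2 / L ^ (A + 3)) * 2 := by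
    have e1 : ∀ f : DirichletCharacter ℂ q → ℝ, ∑ χ, f χ =
        ∑ χ ∈ univ.filter (fun χ => χ ∉ S₀), f χ + ∑ χ ∈ S₀, f χ := by
      intro f
      rw [← sum_filter_add_sum_filter_not univ (fun χ => χ ∉ S₀) f]
      congr 1
      apply sum_congr _ fun _ _ => rfl
      ext χ
      simp
    have e2 : ∑ u ∈ Ico Y (2 * Y), ∑ χ : DirichletCharacter ℂ q,
        ‖∑ n ∈ Ioc u (u + Q), GZ z n * χ (n : ZMod q) * ee (n * η)‖ ^ 2 =
        ∑ u ∈ Ico Y (2 * Y), ∑ χ ∈ univ.filter (fun χ => χ ∉ S₀),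
          ‖∑ n ∈ Ioc u (u + Q), GZ z n * χ (n : ZMod q) * ee (n * η)‖ ^ 2 +
        ∑ χ ∈ S₀, ∑ u ∈ Ico Y (2 * Y), ‖∑ n ∈ Ioc u (u + Q), GZ z n * χ (n : ZMod q) * ee (n * η)‖ ^ 2 := by
      rw [sum_congr rfl (fun u _ => e1 _), sum_add_distrib]
      congr 1
      exact sum_comm
    rw [e2]
    have e3 := sum_le_sum hbad
    rw [sum_const, nsmul_eq_mul] at e3
    have e4 : (S₀.card : ℝ) * (Y * ((Q : ℝ) ^ 2 / L ^ (A + C₃ + 4))) ≤ Y * ((Q : ℝ) ^ 2 / L ^ (A + 3)) := by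
      calc (S₀.card : ℝ) * (Y * ((Q : ℝ) ^ 2 / L ^ (A + C₃ + 4))) ≤
          L ^ C₃ * (Y * ((Q : ℝ) ^ 2 / L ^ (A + C₃ + 4))) := by gcongr
        _ = Y * ((Q : ℝ) ^ 2 / L ^ (A + 3)) * (1 / L) := by
            have e : L ^ (A + C₃ + 4) = L ^ (A + 3) * L ^ C₃ * L := by ring
            rw [e]
            field_simp
        _ ≤ Y * ((Q : ℝ) ^ 2 / L ^ (A + 3)) * 1 := by
            have : 1 / L ≤ 1 := by rw [div_le_one hL0]; exact hL1
            gcongr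
        _ = _ := mul_one _
    linarith
  have hN : ∀ u ∈ Ico Y (2 * Y), u + Q ≤ 3 * Y := by
    intro u hu
    rw [mem_Ico] at hu
    omega
  have hP : ∀ u ∈ Ico Y (2 * Y), P q (3 * Y) (wG u Q (GZ z)) η ≤ (q.totient : ℝ)⁻¹ *
      (∑ χ : DirichletCharacter ℂ q, ‖∑ n ∈ Ioc u (u + Q), GZ z n * χ (n : ZMod q) * ee (n * η)‖ ^ 2) +
      ∑ l ∈ univ.filter (fun l : ZMod q => ¬ IsUnit l),
        ‖∑ n ∈ (Ioc u (u + Q)).filter (fun n : ℕ => (n : ZMod q) = l), GZ z n * ee (n * η)‖ ^ 2 := by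
    intro u hu
    refine P_le Pool.Agent.Y297.GJ.orth ?_ ?_
    · simp only [cs_wG (hN u hu)]
      exact le_rfl
    · simp only [cl_wG (hN u hu)]
      exact le_rfl
  refine (sum_le_sum hP).trans ?_
  rw [sum_add_distrib, ← mul_sum]
  have hφ0 : (0 : ℝ) < q.totient := by exact_mod_cast Nat.totient_pos.2 hq
  have e5 : ((q.totient : ℝ))⁻¹ ≤ 3 * L / q := by
    have h1 := q_le_phi (q := q) hq
    have h2 : Real.log q ≤ L := by
      rw [hLd]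
      exact Real.log_le_log hq0 hqQr
    rw [inv_eq_one_div, div_le_div_iff₀ hφ0 hq0, one_mul]
    refine h1.trans ?_
    rw [mul_comm (3 * L)]
    apply mul_le_mul_of_nonneg_left _ hφ0.le
    linarith
  have e6 : ((q.totient : ℝ))⁻¹ * ∑ u ∈ Ico Y (2 * Y), ∑ χ : DirichletCharacter ℂ q,
      ‖∑ n ∈ Ioc u (u + Q), GZ z n * χ (n : ZMod q) * ee (n * η)‖ ^ 2 ≤
      Y * ((Q : ℝ) ^ 2 / (q * L ^ A)) * (6 / L ^ 2) := by
    calc ((q.totient : ℝ))⁻¹ * ∑ u ∈ Ico Y (2 * Y), ∑ χ : DirichletCharacter ℂ q,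
        ‖∑ n ∈ Ioc u (u + Q), GZ z n * χ (n : ZMod q) * ee (n * η)‖ ^ 2
        ≤ (3 * L / q) * (Y * ((Q : ℝ) ^ 2 / L ^ (A + 3)) * 2) := by
          apply mul_le_mul e5 hsum _ (by positivity)
          exact sum_nonneg fun _ _ => sum_nonneg fun _ _ => sq_nonneg _
      _ = Y * ((Q : ℝ) ^ 2 / (q * L ^ A)) * (6 / L ^ 2) := by
          rw [pow_add]
          field_simp
          ring
  have e7 : (Y : ℝ) * ((Q : ℝ) ^ 2 / (q * L ^ (A + 1))) = Y * ((Q : ℝ) ^ 2 / (q * L ^ A)) * (1 / L) := by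
    have e : L ^ (A + 1) = L ^ A * L := pow_succ _ _
    rw [e]
    field_simp
  rw [e7] at hnon
  have e8 : 6 / L ^ 2 + 1 / L ≤ 1 := by
    have k1 : 6 / L ^ 2 ≤ 1 / 2 := by
      rw [div_le_div_iff₀ (by positivity) two_pos]
      nlinarith
    have k2 : 1 / L ≤ 1 / 2 := by
      rw [div_le_div_iff₀ hL0 two_pos]
      linarith
    linarith
  have e9 : 0 ≤ (Y : ℝ) * ((Q : ℝ) ^ 2 / (q * L ^ A)) := by positivity
  nlinarith

end Pool.Agent.H567.HW
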