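import Pool.Agent.H567.HW.Pr7
import Pool.Agent.H567.HW.LongR
import Pool.Agent.H567.HW.RelG

/-!
Project HW (helper567), part 56: all classes of the regular moduli.
-/

set_option autoImplicit false

namespace Pool.Agent.H567.HW

open Finset
open Pool.Agent.Y883.GJ (LA)
open Pool.Agent.Y614.GJ.Core (ev_log)

/-- the modulus is not divisible by an exceptional integer of the scale `Y` -/
def RR (A' : ℕ) (r : ℝ) (K C Y q : ℕ) : Prop := ∀ d ∈ E2 A' r K C Y, ¬ d ∣ q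

lemma coreV_mono {R : ℕ → ℕ → Prop} {A A₂ D D₂ : ℕ} {ρ : ℝ} (hρ : 0 < ρ) (hA : A₂ ≤ A) (hD : D₂ ≤ D)
    (h : CoreVStm R A D ρ) : CoreVStm R A₂ D₂ ρ := by
  obtain ⟨B, hB⟩ := h
  refine ⟨B, fun E => ?_⟩
  obtain ⟨Y₀, hY₀⟩ := hB E
  obtain ⟨Y₁, hY₁⟩ := Filter.eventually_atTop.1 (ev_log 1 (s := 1) (by norm_num) 3)
  refine ⟨max Y₀ (max Y₁ 1), fun Y hY z hz1 hz2 q Q V _ hqQ hQY hVY hVQ hR a => ?_⟩
  have hL3 := (hY₁ Y (le_trans (le_max_left _ _) (le_trans (le_max_right _ _) hY))).1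
  have hY1 : 1 ≤ Y := le_trans (le_max_right _ _) (le_trans (le_max_right _ _) hY)
  have hY0 : (0 : ℝ) < Y := by exact_mod_cast hY1
  have hYr1 : (1 : ℝ) ≤ Y := by exact_mod_cast hY1
  have hq : 1 ≤ q := Nat.pos_of_ne_zero (NeZero.ne q)
  have hq1 : (1 : ℝ) ≤ q := by exact_mod_cast hq
  have hlQ : 1 ≤ Real.log Q := by
    have h1 : (Y : ℝ) ^ (1 / 3 : ℝ) ≤ Q := by
      calc (Y : ℝ) ^ (1 / 3 : ℝ) ≤ (Y : ℝ) ^ (1 / 3 + ρ) :=
            Real.rpow_le_rpow_of_exponent_le hYr1 (by linarith)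
        _ ≤ q * (Y : ℝ) ^ (1 / 3 + ρ) := le_mul_of_one_le_left (by positivity) hq1
        _ ≤ Q := hqQ
    have h2 := Real.log_le_log (by positivity) h1
    rw [Real.log_rpow hY0] at h2
    linarith
  have hVQ' : (V : ℝ) ≤ Q * Real.log Q ^ D := hVQ.trans (by
    apply mul_le_mul_of_nonneg_left _ (Nat.cast_nonneg _)
    exact pow_le_pow_right₀ hlQ hD)
  refine (hY₀ Y (le_trans (le_max_left _ _) hY) z hz1 hz2 q Q V hqQ hQY hVY hVQ' hR a).trans ?_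
  have hq0 : (0 : ℝ) < q := by linarith
  apply div_le_div_of_nonneg_left (by positivity) (by positivity)
  apply mul_le_mul_of_nonneg_left _ hq0.le
  exact pow_le_pow_right₀ hlQ hA

/-- the windows at all scales, for the regular moduli -/
theorem regSc (A : ℕ) {ρ : ℝ} (hρ : 0 < ρ) : ∃ (A' C : ℕ) (r : ℝ), 0 < r ∧ r ≤ 1 / 3 ∧ ∀ K : ℕ,
    ScStm (AdX (fun Y q _ => RR A' r K C Y q)) A ρ := by
  obtain ⟨r₀, hr₀⟩ : ∃ r₀ : ℝ, r₀ = min (min ρ (1 / 12) / 4 / 2) (1 / 24) := ⟨_, rfl⟩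
  have hr₀0 : 0 < r₀ := by
    rw [hr₀]
    exact lt_min (div_pos (div_pos (lt_min hρ (by norm_num)) (by norm_num)) (by norm_num)) (by norm_num)
  obtain ⟨A', C, h⟩ := coreLAV (6 * (A + 9) + 30) (2 * (A + 9) + 8) (ρ := r₀ / 2) (by positivity)
  refine ⟨A', C, min (r₀ / 2 / 2 / 2) (1 / 3), lt_min (by positivity) (by norm_num), min_le_right _ _, fun K => ?_⟩
  obtain ⟨R, hR⟩ : ∃ R : ℕ → ℕ → Prop, R = RR A' (min (r₀ / 2 / 2 / 2) (1 / 3)) K C := ⟨_, rfl⟩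
  have hcore : CoreVStm R (6 * (A + 9) + 30) (2 * (A + 9) + 8) (r₀ / 2) := by
    rw [hR]
    exact h K
  rw [← hR]
  have h1 : WStm (AdX (fun Y q _ => R Y q)) (A + 1 + 4) r₀ := by
    apply all_of _ _ hr₀0
    · apply hybrid_of _ _ hr₀0
      apply block_of _ _ hr₀0
      exact core_of_V (D := 2 * (A + 9) + 8) (coreV_mono (by positivity) (by omega) le_rfl hcore)
    · exact long_of R (A + 1 + 4 + 4) hr₀0 hcore
  apply scale_of _ _ hρ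
  apply count_of _ _ (div_pos (lt_min hρ (by norm_num)) (by norm_num))
  rw [← hr₀]
  exact h1

/-- the scales -/
def Scs (x : ℕ) : Finset ℕ := (range (Nat.log 2 x + 2)).image (fun k => 2 ^ k) ∪
  (range (Nat.log 2 x + 2)).image (fun k => 3 * 2 ^ k / 4)

lemma mem_Scs {x Y : ℕ} (hx : 2 ≤ x) (hY : Y ≤ x) (h : ∃ k : ℕ, Y = 2 ^ k ∨ Y = 3 * 2 ^ k / 4) : Y ∈ Scs x := by
  obtain ⟨k, hk⟩ := h
  unfold Scs
  rw [mem_union, mem_image, mem_image]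
  have hlog : 2 ^ k ≤ 2 * x := by
    rcases hk with h | h <;> omega
  have hk2 : k < Nat.log 2 x + 2 := by
    have h1 : k ≤ Nat.log 2 (2 * x) := by
      exact (Nat.le_log_iff_pow_le (by norm_num) (by omega)).2 hlog
    have h2 : Nat.log 2 (2 * x) = Nat.log 2 x + 1 := by
      rw [mul_comm]
      exact Nat.log_mul_base (by norm_num) (by omega)
    omega
  rcases hk with h | h
  · exact Or.inl ⟨k, mem_range.2 hk2, h.symm⟩
  · exact Or.inr ⟨k, mem_range.2 hk2, h.symm⟩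

/-- the exceptional integers of all scales -/
noncomputable def DD (A' : ℕ) (r : ℝ) (K C x : ℕ) : Finset ℕ :=
  ((Scs x).filter (fun Y : ℕ => (x : ℝ) ^ (1 / 2 : ℝ) ≤ (Y : ℝ) ∧ Y ≤ x)).biUnion (fun Y => E2 A' r K C Y)

lemma AdX_of {A' K C x q a : ℕ} {r : ℝ} (hx : 2 ≤ x) (h : ∀ d ∈ DD A' r K C x, ¬ d ∣ q) :
    AdX (fun Y q _ => RR A' r K C Y q) x q a := by
  intro Y hY1 hY2 hk d hd
  apply h d
  unfold DD
  rw [mem_biUnion]
  refine ⟨Y, ?_, hd⟩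
  rw [mem_filter]
  exact ⟨mem_Scs hx hY2 hk, hY1, hY2⟩

/-- the exceptional integers: their number and their size -/
lemma DD_prop (A' C : ℕ) {r : ℝ} (hr : 0 < r) (hr3 : r ≤ 1 / 3) : ∃ c : ℕ, ∀ A₀ : ℕ, ∃ x₀ : ℕ, ∀ x : ℕ, x₀ ≤ x →
    ((DD A' r (A₀ + 1 + C) C x).card : ℝ) ≤ Real.log x ^ c ∧
    ∀ d ∈ DD A' r (A₀ + 1 + C) C x, Real.log x ^ A₀ < (d : ℝ) := by
  classical
  obtain ⟨c, Y₀, hc⟩ := E1_card A' hr hr3
  refine ⟨c + C + 2, fun A₀ => ?_⟩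
  obtain ⟨x₁, hx₁⟩ := Filter.eventually_atTop.1 (ev_log 1 (s := 1) (by norm_num) (max 100 (2 ^ (A₀ + 1))))
  refine ⟨max (Y₀ ^ 2) (max x₁ 1), fun x hx => ?_⟩
  have hxY : Y₀ ^ 2 ≤ x := le_trans (le_max_left _ _) hx
  have hLm := (hx₁ x (le_trans (le_max_left _ _) (le_trans (le_max_right _ _) hx))).1
  have hx1 : 1 ≤ x := le_trans (le_max_right _ _) (le_trans (le_max_right _ _) hx)
  have hx0 : (0 : ℝ) < x := by exact_mod_cast hx1
  obtain ⟨L, hLd⟩ : ∃ L, L = Real.log x := ⟨_, rfl⟩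
  rw [← hLd] at hLm ⊢
  have hL100 : 100 ≤ L := (le_max_left _ _).trans hLm
  have hLA : 2 ^ (A₀ + 1) ≤ L := (le_max_right _ _).trans hLm
  have hL0 : 0 < L := by linarith
  have hY : ∀ Y : ℕ, (x : ℝ) ^ (1 / 2 : ℝ) ≤ Y → Y ≤ x → Y₀ ≤ Y ∧ L ≤ 2 * Real.log Y ∧ Real.log Y ≤ L := by
    intro Y hY1 hY2
    have hY0 : (0 : ℝ) < Y := lt_of_lt_of_le (by positivity) hY1
    refine ⟨?_, ?_, ?_⟩
    · have h1 : (Y₀ : ℝ) ≤ Y := by
        calc (Y₀ : ℝ) = ((Y₀ : ℝ) ^ (2 : ℕ)) ^ (1 / 2 : ℝ) := by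
              rw [← Real.rpow_natCast, ← Real.rpow_mul (Nat.cast_nonneg _)]
              norm_num
          _ ≤ (x : ℝ) ^ (1 / 2 : ℝ) := by
              apply Real.rpow_le_rpow (by positivity) _ (by norm_num)
              exact_mod_cast hxY
          _ ≤ Y := hY1
      exact_mod_cast h1
    · have h1 := Real.log_le_log (by positivity) hY1
      rw [Real.log_rpow hx0, ← hLd] at h1
      linarith
    · rw [hLd]
      exact Real.log_le_log hY0 (by exact_mod_cast hY2)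
  constructor
  · have h1 : (((Scs x).filter (fun Y : ℕ => (x : ℝ) ^ (1 / 2 : ℝ) ≤ (Y : ℝ) ∧ Y ≤ x)).card : ℝ) ≤ L ^ 2 := by
      have h2 : ((Scs x).filter (fun Y : ℕ => (x : ℝ) ^ (1 / 2 : ℝ) ≤ (Y : ℝ) ∧ Y ≤ x)).card ≤
          (Nat.log 2 x + 2) + (Nat.log 2 x + 2) := by
        refine (card_filter_le _ _).trans ?_
        unfold Scs
        refine (card_union_le _ _).trans (Nat.add_le_add ?_ ?_)
        · exact card_image_le.trans (by rw [card_range])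
        · exact card_image_le.trans (by rw [card_range])
      have h3 : (Nat.log 2 x : ℝ) ≤ 2 * L := by
        have h1 : 2 ^ Nat.log 2 x ≤ x := Nat.pow_log_le_self 2 (by omega)
        have h2 : (2 : ℝ) ^ Nat.log 2 x ≤ x := by exact_mod_cast h1
        have h3 := Real.log_le_log (by positivity) h2
        rw [Real.log_pow, ← hLd] at h3
        have h4 := Real.log_two_gt_d9
        have h5 : (0 : ℝ) ≤ (Nat.log 2 x : ℝ) := Nat.cast_nonneg _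
        nlinarith
      have h4 : (((Scs x).filter (fun Y : ℕ => (x : ℝ) ^ (1 / 2 : ℝ) ≤ (Y : ℝ) ∧ Y ≤ x)).card : ℝ) ≤
          (((Nat.log 2 x + 2) + (Nat.log 2 x + 2) : ℕ) : ℝ) := by exact_mod_cast h2
      push_cast at h4
      nlinarith
    have h2 : ∀ Y ∈ (Scs x).filter (fun Y : ℕ => (x : ℝ) ^ (1 / 2 : ℝ) ≤ (Y : ℝ) ∧ Y ≤ x),
        ((E2 A' r (A₀ + 1 + C) C Y).card : ℝ) ≤ L ^ (c + C) := by
      intro Y hYm
      rw [mem_filter] at hYm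
      obtain ⟨k1, k2, k3⟩ := hY Y hYm.2.1 hYm.2.2
      refine (E2_card (c := c) (by linarith) (hc Y k1 _)).trans ?_
      exact pow_le_pow_left₀ (by linarith) k3 _
    unfold DD
    calc (((((Scs x).filter (fun Y : ℕ => (x : ℝ) ^ (1 / 2 : ℝ) ≤ (Y : ℝ) ∧ Y ≤ x)).biUnion
          (fun Y => E2 A' r (A₀ + 1 + C) C Y)).card : ℕ) : ℝ) ≤
        ∑ Y ∈ (Scs x).filter (fun Y : ℕ => (x : ℝ) ^ (1 / 2 : ℝ) ≤ (Y : ℝ) ∧ Y ≤ x),
          ((E2 A' r (A₀ + 1 + C) C Y).card : ℝ) := by exact_mod_cast card_biUnion_le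
      _ ≤ ∑ Y ∈ (Scs x).filter (fun Y : ℕ => (x : ℝ) ^ (1 / 2 : ℝ) ≤ (Y : ℝ) ∧ Y ≤ x), L ^ (c + C) := sum_le_sum h2
      _ = (((Scs x).filter (fun Y : ℕ => (x : ℝ) ^ (1 / 2 : ℝ) ≤ (Y : ℝ) ∧ Y ≤ x)).card : ℝ) * L ^ (c + C) := by
          rw [sum_const, nsmul_eq_mul]
      _ ≤ L ^ 2 * L ^ (c + C) := by gcongr
      _ = L ^ (c + C + 2) := by ring
  · intro d hd
    unfold DD at hd
    rw [mem_biUnion] at hd
    obtain ⟨Y, hYm, hd⟩ := hd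
    rw [mem_filter] at hYm
    obtain ⟨k1, k2, k3⟩ := hY Y hYm.2.1 hYm.2.2
    have h1 := E2_large (A₀ := A₀ + 1) (by linarith) rfl hd
    refine lt_of_le_of_lt ?_ h1
    have h2 : L ^ A₀ * 2 ^ (A₀ + 1) ≤ 2 ^ (A₀ + 1) * Real.log Y ^ (A₀ + 1) := by
      calc L ^ A₀ * 2 ^ (A₀ + 1) ≤ L ^ A₀ * L := by gcongr
        _ = L ^ (A₀ + 1) := by ring
        _ ≤ (2 * Real.log Y) ^ (A₀ + 1) := pow_le_pow_left₀ hL0.le k2 _
        _ = _ := mul_pow _ _ _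
    have h3 : (0 : ℝ) < 2 ^ (A₀ + 1) := by positivity
    rw [mul_comm] at h2
    exact le_of_mul_le_mul_left h2 h3

/-- the regular moduli: both forms of the formula -/
theorem regAll (A W : ℕ) {ρ ε : ℝ} (hρ : 0 < ρ) (hε : 0 < ε) : ∃ c : ℕ, ∀ A₀ : ℕ, ∃ x₀ : ℕ, ∀ x : ℕ, x₀ ≤ x →
    ∃ D : Finset ℕ, (D.card : ℝ) ≤ Real.log x ^ c ∧ (∀ d ∈ D, Real.log x ^ A₀ < (d : ℝ)) ∧
    ∀ q : ℕ, 1 ≤ q → (∀ d ∈ D, ¬ d ∣ q) → ∀ a : ℕ, ∃ Bad : Finset ℕ, (Bad.card : ℝ) ≤ x / (q * Real.log x ^ A) ∧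
      ∀ n : ℕ, n ≤ x → n ∉ Bad → n % q = a % q → 2 ∣ n → ∀ U V : ℕ, U ≤ V → (q : ℝ) * (n : ℝ) ^ (1 / 3 + ρ) ≤ V →
        2 * V ≤ n → |(wc n U V : ℝ) - SS n * ∑ b ∈ Ioc U V, wt n b| ≤ V / Real.log n ^ (A + W + 4) ∧
        (0 < V → (V : ℝ) / Real.log n ^ W ≤ (V : ℝ) - U →
          |(wc n U V : ℝ) - SS n * (((V : ℝ) - U) / (Real.log V * Real.log n))| ≤
            ε * (SS n * (((V : ℝ) - U) / (Real.log V * Real.log n)))) := by
  classical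
  obtain ⟨A', C, r, hr0, hr3, h⟩ := regSc (A + W + 4) hρ
  obtain ⟨c, hc⟩ := DD_prop A' C hr0 hr3
  refine ⟨c, fun A₀ => ?_⟩
  obtain ⟨x₁, h₁⟩ := hc A₀
  obtain ⟨x₂, h₂⟩ := h (A₀ + 1 + C)
  obtain ⟨x₃, h₃⟩ := rel_of _ (A + 1) W hρ hε (by
    have : A + 1 + W + 3 = A + W + 4 := by ring
    rw [this]
    exact h (A₀ + 1 + C))
  obtain ⟨x₄, hx₄⟩ := Filter.eventually_atTop.1 (ev_log 1 (s := 1) (by norm_num) 2)
  refine ⟨max (max x₁ x₂) (max (max x₃ x₄) 2), fun x hx => ?_⟩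
  have hxx₁ : x₁ ≤ x := le_trans (le_trans (le_max_left _ _) (le_max_left _ _)) hx
  have hxx₂ : x₂ ≤ x := le_trans (le_trans (le_max_right _ _) (le_max_left _ _)) hx
  have hxx₃ : x₃ ≤ x := le_trans (le_trans (le_trans (le_max_left _ _) (le_max_left _ _)) (le_max_right _ _)) hx
  have hL2 := (hx₄ x (le_trans (le_trans (le_trans (le_max_right _ _) (le_max_left _ _)) (le_max_right _ _)) hx)).1
  have hx2 : 2 ≤ x := le_trans (le_trans (le_max_right _ _) (le_max_right _ _)) hx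
  have hx0 : (0 : ℝ) < x := by exact_mod_cast (by omega : 0 < x)
  obtain ⟨hD1, hD2⟩ := h₁ x hxx₁
  refine ⟨DD A' r (A₀ + 1 + C) C x, hD1, hD2, fun q hq hreg a => ?_⟩
  obtain ⟨Bad₁, hb11, hb12⟩ := h₂ x hxx₂ q hq a (AdX_of hx2 hreg)
  obtain ⟨Bad₂, hb21, hb22⟩ := h₃ x hxx₃ q hq a (AdX_of hx2 hreg)
  have hq0 : (0 : ℝ) < q := by exact_mod_cast hq
  refine ⟨Bad₁ ∪ Bad₂, ?_, ?_⟩
  · have h1 : ((Bad₁ ∪ Bad₂).card : ℝ) ≤ Bad₁.card + Bad₂.card := by exact_mod_cast card_union_le _ _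
    have h2 : ∀ k : ℕ, A + 1 ≤ k → (x : ℝ) / (q * Real.log x ^ k) ≤ x / (q * Real.log x ^ A) * (1 / 2) := by
      intro k hk
      have h3 : (x : ℝ) / (q * Real.log x ^ A) * (1 / 2) = x / (q * (2 * Real.log x ^ A)) := by
        field_simp
      rw [h3]
      apply div_le_div_of_nonneg_left hx0.le (by positivity)
      apply mul_le_mul_of_nonneg_left _ hq0.le
      calc 2 * Real.log x ^ A ≤ Real.log x * Real.log x ^ A := by gcongr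
        _ = Real.log x ^ (A + 1) := by ring
        _ ≤ Real.log x ^ k := pow_le_pow_right₀ (by linarith) hk
    have h4 := h2 (A + W + 4) (by omega)
    have h5 := h2 (A + 1) le_rfl
    linarith
  · intro n hnx hn hmod h2n U V hUV hV hVn
    rw [mem_union, not_or] at hn
    exact ⟨hb12 n hnx hn.1 hmod h2n U V hUV hV hVn, fun h0 hw => hb22 n hnx hn.2 hmod h2n U V hUV hV hVn h0 hw⟩

end Pool.Agent.H567.HW
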