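import Pool.Agent.H567.HW.Reg
import Pool.Graph.R_seed8.R459.C2

/-!
Project HW (helper567), part 57: the regular moduli, real `x`, and the number of all representations.
-/

set_option autoImplicit false

namespace Pool.Agent.H567.HW

open Finset Filter
open Pool.Agent.H560R3.GB (g HL sing)
open Pool.Agent.Y614.GJ.Core (ev_log)

/-- the exceptional set of a property in a residue class -/
def excD (F : ℕ → ℕ → Prop) (x : ℝ) (q : ℕ) (a : ℤ) : Set ℕ :=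
  {n : ℕ | 0 < n ∧ (n : ℝ) ≤ x ∧ 2 ∣ n ∧ (n : ℤ) ≡ a [ZMOD q] ∧ ¬ F q n}

/-- the statement for natural `x` -/
def DStm (F : ℕ → ℕ → Prop) (A : ℕ) (θ : ℝ) : Prop := ∃ c : ℕ, ∀ A₀ : ℕ, ∃ x₀ : ℕ, ∀ x : ℕ, x₀ ≤ x →
    ∃ D : Finset ℕ, (D.card : ℝ) ≤ Real.log x ^ c ∧ (∀ d ∈ D, Real.log x ^ A₀ < (d : ℝ)) ∧
    ∀ q : ℕ, 1 ≤ q → (q : ℝ) ≤ (x : ℝ) ^ θ → (∀ d ∈ D, ¬ d ∣ q) → ∀ a : ℕ, ∃ Bad : Finset ℕ,
      (Bad.card : ℝ) ≤ x / (q * Real.log x ^ A) ∧
      ∀ n : ℕ, 0 < n → n ≤ x → n ∉ Bad → n % q = a % q → 2 ∣ n → F q n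

/-- from natural `x` and natural residues to real `x` and integral residues, bounded moduli -/
theorem transferD (F : ℕ → ℕ → Prop) {θ η : ℝ} (hθ : 0 < θ) (hη : η < θ) (A : ℕ) (hF : DStm F (A + 1) θ) :
    ∃ c : ℕ, ∀ A₀ : ℕ, ∃ x₀ : ℝ, ∀ x : ℝ, x₀ ≤ x →
    ∃ D : Finset ℕ, (D.card : ℝ) ≤ Real.log x ^ c ∧ (∀ d ∈ D, Real.log x ^ A₀ < (d : ℝ)) ∧
    ∀ q : ℕ, 1 ≤ q → (q : ℝ) ≤ x ^ η → (∀ d ∈ D, ¬ d ∣ q) → ∀ a : ℤ,
      (excD F x q a).Finite ∧ ((excD F x q a).ncard : ℝ) ≤ x / (q * Real.log x ^ A) := by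
  obtain ⟨c, hc⟩ := hF
  refine ⟨c, fun A₀ => ?_⟩
  obtain ⟨x₁, h₁⟩ := hc (A₀ + 1)
  refine ⟨max (max (x₁ + 1) (Real.exp (2 ^ (A + A₀ + 4)))) (((2 : ℝ) ^ θ) ^ (1 / (θ - η))), fun x hx => ?_⟩
  have hx1 : (x₁ : ℝ) + 1 ≤ x := ((le_max_left _ _).trans (le_max_left _ _)).trans hx
  have hxe : Real.exp (2 ^ (A + A₀ + 4)) ≤ x := ((le_max_right _ _).trans (le_max_left _ _)).trans hx
  have hxη : ((2 : ℝ) ^ θ) ^ (1 / (θ - η)) ≤ x := (le_max_right _ _).trans hx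
  have hx0 : 0 < x := lt_of_lt_of_le (Real.exp_pos _) hxe
  have hl16 : (2 : ℝ) ^ (A + A₀ + 4) ≤ Real.log x := (Real.le_log_iff_exp_le hx0).2 hxe
  have h2A : (1 : ℝ) ≤ 2 ^ A := one_le_pow₀ (by norm_num)
  have h2A₀ : (1 : ℝ) ≤ 2 ^ A₀ := one_le_pow₀ (by norm_num)
  have he : (2 : ℝ) ^ (A + A₀ + 4) = 2 ^ A * 2 ^ A₀ * 16 := by rw [pow_add, pow_add]; norm_num
  rw [he] at hl16
  have hAA : (1 : ℝ) ≤ 2 ^ A * 2 ^ A₀ := one_le_mul_of_one_le_of_one_le h2A h2A₀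
  have hA1 : (2 : ℝ) ^ A ≤ 2 ^ A * 2 ^ A₀ := le_mul_of_one_le_right (by positivity) h2A₀
  have hA2 : (2 : ℝ) ^ A₀ ≤ 2 ^ A * 2 ^ A₀ := le_mul_of_one_le_left (by positivity) h2A
  have hl : 16 ≤ Real.log x := by linarith
  obtain ⟨N, hN⟩ : ∃ N, N = ⌊x⌋₊ := ⟨_, rfl⟩
  have hNx : (N : ℝ) ≤ x := by rw [hN]; exact Nat.floor_le hx0.le
  have hxN : x < N + 1 := by rw [hN]; exact Nat.lt_floor_add_one x
  have hxN1 : x₁ ≤ N := by
    rw [hN]
    apply Nat.le_floor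
    linarith
  have hx16 : 16 ≤ x := hl.trans ((Real.log_le_sub_one_of_pos hx0).trans (by linarith))
  have hN0 : (0 : ℝ) < N := by linarith
  have hNhalf : x / 2 ≤ N := by linarith
  have hlN : Real.log x - 1 ≤ Real.log N := by
    have h1 := Real.log_le_log (by positivity) hNhalf
    rw [Real.log_div hx0.ne' (by norm_num)] at h1
    have := Real.log_two_lt_d9
    linarith
  have hlN2 : Real.log x / 2 ≤ Real.log N := by linarith
  have hlN0 : 0 < Real.log N := by linarith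
  have hlNx : Real.log N ≤ Real.log x := Real.log_le_log hN0 hNx
  have hpow : ∀ k : ℕ, (2 : ℝ) ^ k ≤ Real.log N → Real.log x ^ k ≤ Real.log N ^ (k + 1) := by
    intro k hk
    calc Real.log x ^ k = 2 ^ k * (Real.log x / 2) ^ k := by rw [div_pow]; field_simp
      _ ≤ Real.log N * Real.log N ^ k := by
        have e2 : (Real.log x / 2) ^ k ≤ Real.log N ^ k := pow_le_pow_left₀ (by linarith) hlN2 k
        gcongr
      _ = Real.log N ^ (k + 1) := by ring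
  obtain ⟨D, hD1, hD2, hD3⟩ := h₁ N hxN1
  refine ⟨D, hD1.trans (pow_le_pow_left₀ hlN0.le hlNx c), fun d hd => lt_of_le_of_lt (hpow A₀ (by linarith)) (hD2 d hd),
    fun q hq hqx hqD a => ?_⟩
  obtain ⟨b, hb⟩ : ∃ b : ℕ, (b : ℤ) = a % q := ⟨(a % q).toNat, Int.toNat_of_nonneg (Int.emod_nonneg _ (by omega))⟩
  have hq0 : (0 : ℝ) < q := by exact_mod_cast hq
  have hqN : (q : ℝ) ≤ (N : ℝ) ^ θ := by
    have e1 : (2 : ℝ) ^ θ ≤ x ^ (θ - η) := by
      have e2 := Real.rpow_le_rpow (by positivity) hxη (show 0 ≤ θ - η by linarith)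
      rw [← Real.rpow_mul (by positivity)] at e2
      have e3 : 1 / (θ - η) * (θ - η) = 1 := by
        have : θ - η ≠ 0 := by
          have : 0 < θ - η := by linarith
          exact this.ne'
        field_simp
      rwa [e3, Real.rpow_one] at e2
    have e4 : x ^ η * (2 : ℝ) ^ θ ≤ x ^ θ := by
      calc x ^ η * (2 : ℝ) ^ θ ≤ x ^ η * x ^ (θ - η) := by gcongr
        _ = x ^ θ := by
            rw [← Real.rpow_add hx0]
            congr 1
            ring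
    calc (q : ℝ) ≤ x ^ η := hqx
      _ ≤ x ^ θ / 2 ^ θ := by
          rw [le_div_iff₀ (by positivity)]
          exact e4
      _ = (x / 2) ^ θ := by rw [Real.div_rpow hx0.le (by norm_num)]
      _ ≤ (N : ℝ) ^ θ := Real.rpow_le_rpow (by positivity) hNhalf hθ.le
  obtain ⟨Bad, hb1, hb2⟩ := hD3 q hq hqN hqD b
  have hsub : excD F x q a ⊆ (Bad : Set ℕ) := by
    intro n hn
    obtain ⟨h0, h2, h3, h4, h5⟩ := hn
    by_contra hcon
    apply h5
    apply hb2 n h0 _ (by simpa using hcon) _ h3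
    · rw [hN]
      exact Nat.le_floor h2
    · have h6 : (n : ℤ) % q = a % q := h4
      have h7 : ((n % q : ℕ) : ℤ) = ((b % q : ℕ) : ℤ) := by
        rw [Int.natCast_mod, Int.natCast_mod, h6, hb, Int.emod_emod_of_dvd _ dvd_rfl]
      exact_mod_cast h7
  refine ⟨Set.Finite.subset (Finset.finite_toSet Bad) hsub, ?_⟩
  have h1 : (excD F x q a).ncard ≤ Bad.card := by
    have := Set.ncard_le_ncard hsub (Finset.finite_toSet Bad)
    rwa [Set.ncard_coe_finset] at this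
  have h2 : ((excD F x q a).ncard : ℝ) ≤ Bad.card := by exact_mod_cast h1
  refine h2.trans (hb1.trans ?_)
  have h3 : Real.log x ^ A ≤ Real.log N ^ (A + 1) := hpow A (by linarith)
  have h4 : 0 < Real.log x ^ A := by positivity
  calc (N : ℝ) / (q * Real.log N ^ (A + 1)) ≤ x / (q * Real.log N ^ (A + 1)) := by gcongr
    _ ≤ x / (q * Real.log x ^ A) := by
      apply div_le_div_of_nonneg_left hx0.le (by positivity)
      gcongr

/-- the small integers are added to the exceptional set -/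
lemma add_small (A : ℕ) {r : ℝ} (hr : 0 < r) : ∃ x₀ : ℕ, ∀ x : ℕ, x₀ ≤ x → ∀ q : ℕ, 1 ≤ q →
    (q : ℝ) ≤ (x : ℝ) ^ (2 / 3 : ℝ) → ∀ (a : ℕ) (Bad : Finset ℕ), (Bad.card : ℝ) ≤ x / (q * Real.log x ^ (A + 1)) →
    ∃ Bad' : Finset ℕ, (Bad'.card : ℝ) ≤ x / (q * Real.log x ^ A) ∧
      ∀ n : ℕ, 0 < n → n ∉ Bad' → n % q = a % q → (x : ℝ) ^ (1 - r) < n ∧ n ∉ Bad := by
  obtain ⟨x₃, h₃⟩ := Filter.eventually_atTop.1 (ev_log (A + 1) (s := min r (1 / 3)) (by positivity) 8)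
  refine ⟨max x₃ 1, fun x hx q hq hqx a Bad hBad => ?_⟩
  obtain ⟨hL8, hLp⟩ := h₃ x (le_trans (le_max_left _ _) hx)
  have hx1 : 1 ≤ x := le_trans (le_max_right _ _) hx
  obtain ⟨L, hLd⟩ : ∃ L, L = Real.log x := ⟨_, rfl⟩
  rw [← hLd] at hBad hL8 hLp ⊢
  have hx0 : (0 : ℝ) < x := by exact_mod_cast hx1
  have hxr1 : (1 : ℝ) ≤ x := by exact_mod_cast hx1
  have hL0 : 0 < L := by linarith
  have hL1 : 1 ≤ L := by linarith
  have hq0 : (0 : ℝ) < q := by exact_mod_cast hq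
  obtain ⟨Sm, hSm⟩ : ∃ Sm : Finset ℕ, Sm = (Icc 1 ⌊(x : ℝ) ^ (1 - r)⌋₊).filter (fun n => n % q = a % q) := ⟨_, rfl⟩
  have hP0 : 0 < L ^ (A + 1) := by positivity
  have hmr : (x : ℝ) ^ (min r (1 / 3)) ≤ (x : ℝ) ^ r := Real.rpow_le_rpow_of_exponent_le hxr1 (min_le_left _ _)
  have hm3 : (x : ℝ) ^ (min r (1 / 3)) ≤ (x : ℝ) ^ (1 / 3 : ℝ) :=
    Real.rpow_le_rpow_of_exponent_le hxr1 (min_le_right _ _)
  have hx1r : (x : ℝ) ^ (1 - r) ≤ x / L ^ (A + 1) := by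
    rw [le_div_iff₀ hP0]
    calc (x : ℝ) ^ (1 - r) * L ^ (A + 1) ≤ (x : ℝ) ^ (1 - r) * (x : ℝ) ^ r := by
          have := hLp.trans hmr
          gcongr
      _ = x := by
          rw [← Real.rpow_add hx0]
          have : 1 - r + r = 1 := by ring
          rw [this, Real.rpow_one]
  have hq2 : (q : ℝ) * L ^ (A + 1) ≤ x := by
    calc (q : ℝ) * L ^ (A + 1) ≤ (x : ℝ) ^ (2 / 3 : ℝ) * (x : ℝ) ^ (1 / 3 : ℝ) := by
          have := hLp.trans hm3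
          gcongr
      _ = x := by
          rw [← Real.rpow_add hx0]
          norm_num
  have e0 : (x : ℝ) / (q * L ^ (A + 1)) = x / (q * L ^ A) * (1 / L) := by
    rw [pow_add]
    field_simp
  have hSmc : (Sm.card : ℝ) ≤ x / (q * L ^ A) * (1 / L) * 2 := by
    have h2 : (Sm.card : ℝ) ≤ ((x : ℝ) ^ (1 - r)) / q + 1 := by
      have := Pool.Agent.Y883.T4.class_le ⌊(x : ℝ) ^ (1 - r)⌋₊ q a hq Sm ((x : ℝ) ^ (1 - r)) (by positivity)
        (fun n hn => by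
          rw [hSm, mem_filter, mem_Icc] at hn
          refine ⟨hn.2, ?_⟩
          exact (Nat.le_floor_iff (by positivity)).1 hn.1.2)
      exact this
    have h3 : (1 : ℝ) ≤ x / (q * L ^ (A + 1)) := by
      rw [le_div_iff₀ (by positivity), one_mul]
      exact hq2
    have h4 : ((x : ℝ) ^ (1 - r)) / q ≤ x / (q * L ^ (A + 1)) := by
      calc ((x : ℝ) ^ (1 - r)) / q ≤ (x / L ^ (A + 1)) / q := by gcongr
        _ = x / (q * L ^ (A + 1)) := by rw [div_div, mul_comm]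
    rw [← e0]
    linarith
  refine ⟨Bad ∪ Sm, ?_, ?_⟩
  · have h1 : ((Bad ∪ Sm).card : ℝ) ≤ Bad.card + Sm.card := by exact_mod_cast card_union_le _ _
    rw [e0] at hBad
    have h3 : 1 / L ≤ 1 / 8 := one_div_le_one_div_of_le (by norm_num) hL8
    have h4 : (x : ℝ) / (q * L ^ A) * (1 / L) ≤ x / (q * L ^ A) * (1 / 8) :=
      mul_le_mul_of_nonneg_left h3 (by positivity)
    have h5 : 0 ≤ (x : ℝ) / (q * L ^ A) := by positivity
    linarith
  · intro n h0 hn hmod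
    rw [mem_union, not_or] at hn
    refine ⟨?_, hn.1⟩
    by_contra hcon
    push Not at hcon
    apply hn.2
    rw [hSm, mem_filter, mem_Icc]
    exact ⟨⟨h0, Nat.le_floor hcon⟩, hmod⟩

/-- the number of all representations and the representations with `p ≤ n / 2` -/
lemma g_wc {n : ℕ} (hn : 2 ∣ n) : |(g n : ℝ) - 2 * wc n 0 (n / 2)| ≤ 1 := by
  obtain ⟨m, rfl⟩ := hn
  have hm : 2 * m / 2 = m := by omega
  rw [hm]
  have e1 : g (2 * m) = ((Icc 1 (2 * m)).filter (fun p => p.Prime ∧ (2 * m - p).Prime)).card := by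
    unfold g
    apply card_bij (fun q _ => q.1)
    · rintro ⟨p, p'⟩ h
      rw [mem_filter, HasAntidiagonal.mem_antidiagonal] at h
      simp only at h
      rw [mem_filter, mem_Icc]
      have h1 := h.2.1.two_le
      have h2 : 2 * m - p = p' := by omega
      refine ⟨by omega, h.2.1, ?_⟩
      rw [h2]
      exact h.2.2
    · rintro ⟨p, p'⟩ h ⟨r, r'⟩ h' he
      rw [mem_filter, HasAntidiagonal.mem_antidiagonal] at h h'
      simp only at h h' he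
      ext <;> simp <;> omega
    · intro p hp
      rw [mem_filter, mem_Icc] at hp
      refine ⟨(p, 2 * m - p), ?_, rfl⟩
      rw [mem_filter, HasAntidiagonal.mem_antidiagonal]
      exact ⟨by simp only; omega, hp.2⟩
  obtain ⟨S1, hS1⟩ : ∃ S1, S1 = (Ioc 0 m).filter (fun p => p.Prime ∧ (2 * m - p).Prime) := ⟨_, rfl⟩
  obtain ⟨S2, hS2⟩ : ∃ S2, S2 = (Ico m (2 * m + 1)).filter (fun p => p.Prime ∧ (2 * m - p).Prime) := ⟨_, rfl⟩
  have hS12 : S1.card = S2.card := by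
    rw [hS1, hS2]
    apply card_bij (fun p _ => 2 * m - p)
    · intro p hp
      rw [mem_filter, mem_Ioc] at hp
      rw [mem_filter, mem_Ico]
      have h1 : 2 * m - (2 * m - p) = p := by omega
      refine ⟨by omega, hp.2.2, ?_⟩
      rw [h1]
      exact hp.2.1
    · intro p hp r hr h
      rw [mem_filter, mem_Ioc] at hp hr
      omega
    · intro p hp
      rw [mem_filter, mem_Ico] at hp
      refine ⟨2 * m - p, ?_, by omega⟩
      rw [mem_filter, mem_Ioc]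
      have h1 : 2 * m - (2 * m - p) = p := by omega
      have h2 := hp.2.2.two_le
      refine ⟨by omega, hp.2.2, ?_⟩
      rw [h1]
      exact hp.2.1
  have hwc : wc (2 * m) 0 m = S1.card := by
    unfold wc
    rw [hS1]
  have hun : (Icc 1 (2 * m)).filter (fun p => p.Prime ∧ (2 * m - p).Prime) = S1 ∪ S2 := by
    rw [hS1, hS2, ← filter_union]
    ext p
    simp only [mem_filter, mem_union, mem_Icc, mem_Ioc, mem_Ico]
    constructor
    · rintro ⟨h1, h2⟩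
      exact ⟨by omega, h2⟩
    · rintro ⟨h1, h2⟩
      have := h2.1.two_le
      exact ⟨by omega, h2⟩
  have hin : (S1 ∩ S2).card ≤ 1 := by
    have : S1 ∩ S2 ⊆ {m} := by
      intro p hp
      rw [mem_inter, hS1, hS2, mem_filter, mem_filter, mem_Ioc, mem_Ico] at hp
      rw [mem_singleton]
      omega
    exact (card_le_card this).trans (by rw [card_singleton])
  have hcard := card_union_add_card_inter S1 S2
  rw [e1, hun, hwc]
  have h1 : (S1 ∪ S2).card + (S1 ∩ S2).card = 2 * S1.card := by omega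
  have h2 : ((S1 ∪ S2).card : ℝ) + ((S1 ∩ S2).card : ℝ) = 2 * S1.card := by exact_mod_cast h1
  have h3 : ((S1 ∩ S2).card : ℝ) ≤ 1 := by exact_mod_cast hin
  have h4 : (0 : ℝ) ≤ ((S1 ∩ S2).card : ℝ) := Nat.cast_nonneg _
  rw [abs_le]
  constructor <;> linarith

/-- the formula of Hardy and Littlewood for the number of all representations -/
lemma g_HL {ε : ℝ} (hε : 0 < ε) (hε1 : ε ≤ 1) : ∃ n₀ : ℕ, ∀ n : ℕ, n₀ ≤ n → 2 ∣ n →
    |(wc n 0 (n / 2) : ℝ) - SS n * ((((n / 2 : ℕ) : ℝ) - (0 : ℕ)) / (Real.log ((n / 2 : ℕ) : ℝ) * Real.log n))| ≤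
      ε / 4 * (SS n * ((((n / 2 : ℕ) : ℝ) - (0 : ℕ)) / (Real.log ((n / 2 : ℕ) : ℝ) * Real.log n))) →
    |(g n : ℝ) - HL n| ≤ ε * HL n := by
  obtain ⟨n₁, h₁⟩ := Filter.eventually_atTop.1 (ev_log 2 (s := 1 / 2) (by norm_num) (max 10 (8 / ε)))
  refine ⟨max n₁ (max 10 (⌈(4 / ε) ^ 2⌉₊)), fun n hn h2n hw => ?_⟩
  obtain ⟨hLm, hLp⟩ := h₁ n (le_trans (le_max_left _ _) hn)
  have hn10 : 10 ≤ n := le_trans (le_max_left _ _) (le_trans (le_max_right _ _) hn)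
  have hnε : (4 / ε) ^ 2 ≤ (n : ℝ) := by
    have h1 : ⌈(4 / ε) ^ 2⌉₊ ≤ n := le_trans (le_max_right _ _) (le_trans (le_max_right _ _) hn)
    exact (Nat.ceil_le).1 h1
  have hL10 : 10 ≤ Real.log n := (le_max_left _ _).trans hLm
  have hLε : 8 / ε ≤ Real.log n := (le_max_right _ _).trans hLm
  have hn0 : (0 : ℝ) < n := by exact_mod_cast (by omega : 0 < n)
  obtain ⟨m, hm⟩ := h2n
  have hm2 : n / 2 = m := by omega
  rw [hm2, Nat.cast_zero, sub_zero] at hw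
  have hgw := g_wc (n := n) ⟨m, hm⟩
  rw [hm2] at hgw
  have hmr : (n : ℝ) = 2 * m := by exact_mod_cast hm
  have hm0 : (0 : ℝ) < m := by linarith
  obtain ⟨L, hL⟩ : ∃ L, L = Real.log n := ⟨_, rfl⟩
  obtain ⟨l, hl⟩ : ∃ l, l = Real.log m := ⟨_, rfl⟩
  have hLl : L = Real.log 2 + l := by rw [hL, hl, hmr, Real.log_mul (by norm_num) hm0.ne']
  have h2a := Real.log_two_gt_d9
  have h2b := Real.log_two_lt_d9
  rw [← hL] at hL10 hLε hLp hw
  rw [← hl] at hw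
  have hl0 : 0 < l := by linarith
  have hL0 : 0 < L := by linarith
  obtain ⟨X, hX⟩ : ∃ X, X = SS n * ((m : ℝ) / (l * L)) := ⟨_, rfl⟩
  rw [← hX] at hw
  have hSS := one_le_SS n
  have hHL : HL n = SS n * (n / L ^ 2) := by
    unfold HL
    rw [hL]
    rfl
  have hX2 : 2 * X = HL n * (L / l) := by
    rw [hX, hHL, hmr]
    field_simp
  have hHL0 : 0 ≤ HL n := by rw [hHL]; positivity
  have hLl2 : L / l ≤ 1 + ε / 4 := by
    rw [div_le_iff₀ hl0]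
    have h1 : 8 ≤ ε * L := by
      rw [div_le_iff₀ hε] at hLε
      linarith
    have h2 : ε / 4 * l = ε * L / 4 - ε / 4 * Real.log 2 := by rw [hLl]; ring
    have h3 : ε / 4 * Real.log 2 ≤ 1 := by nlinarith
    nlinarith
  have hLl1 : 1 ≤ L / l := by
    rw [le_div_iff₀ hl0]
    linarith
  have hXa : HL n ≤ 2 * X := by
    rw [hX2]
    exact le_mul_of_one_le_right hHL0 hLl1
  have hXb : 2 * X ≤ HL n * (1 + ε / 4) := by
    rw [hX2]
    exact mul_le_mul_of_nonneg_left hLl2 hHL0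
  have hbig : 4 / ε ≤ HL n := by
    rw [hHL]
    have h1 : (n : ℝ) ^ (1 / 2 : ℝ) ≤ n / L ^ 2 := by
      rw [le_div_iff₀ (by positivity)]
      calc (n : ℝ) ^ (1 / 2 : ℝ) * L ^ 2 ≤ (n : ℝ) ^ (1 / 2 : ℝ) * (n : ℝ) ^ (1 / 2 : ℝ) := by gcongr
        _ = n := by
            rw [← Real.rpow_add hn0]
            norm_num
    have h2 : 4 / ε ≤ (n : ℝ) ^ (1 / 2 : ℝ) := by
      calc 4 / ε = ((4 / ε) ^ (2 : ℕ)) ^ (1 / 2 : ℝ) := by
            rw [← Real.rpow_natCast, ← Real.rpow_mul (by positivity)]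
            norm_num
        _ ≤ (n : ℝ) ^ (1 / 2 : ℝ) := Real.rpow_le_rpow (by positivity) hnε (by norm_num)
    have h3 : (n : ℝ) / L ^ 2 ≤ SS n * (n / L ^ 2) := le_mul_of_one_le_left (by positivity) hSS
    linarith
  have hone : 1 ≤ ε / 4 * HL n := by
    rw [div_le_iff₀ hε] at hbig
    linarith
  have h1 := abs_le.1 hgw
  have h2 := abs_le.1 hw
  have h3 : ε / 4 * X ≤ ε / 4 * (HL n * (5 / 8)) := by
    have : X ≤ HL n * (5 / 8) := by
      have h4 : HL n * (1 + ε / 4) ≤ HL n * (5 / 4) := by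
        apply mul_le_mul_of_nonneg_left _ hHL0
        linarith
      linarith
    gcongr
  have h4 : HL n * (1 + ε / 4) = HL n + ε / 4 * HL n := by ring
  rw [h4] at hXb
  rw [abs_le]
  constructor
  · linarith [h1.1, h2.1]
  · linarith [h1.2, h2.2]

/-- the formula with a saving of a power of the logarithm -/
def FmW (ρ : ℝ) (W q n : ℕ) : Prop :=
  ∀ U V : ℕ, U ≤ V → (q : ℝ) * (n : ℝ) ^ (1 / 3 + ρ) ≤ V → 2 * V ≤ n →
    |(wc n U V : ℝ) - SS n * ∑ b ∈ Ioc U V, wt n b| ≤ V / Real.log n ^ W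

/-- the relative formula -/
def FmR (ε ρ : ℝ) (W q n : ℕ) : Prop :=
  ∀ U V : ℕ, U ≤ V → (q : ℝ) * (n : ℝ) ^ (1 / 3 + ρ) ≤ V → 2 * V ≤ n → 0 < V →
    (V : ℝ) / Real.log n ^ W ≤ (V : ℝ) - U →
    |(wc n U V : ℝ) - SS n * (((V : ℝ) - U) / (Real.log V * Real.log n))| ≤
      ε * (SS n * (((V : ℝ) - U) / (Real.log V * Real.log n)))

/-- the three formulas -/
def Full (ε ρ : ℝ) (W q n : ℕ) : Prop :=
  (|(g n : ℝ) - HL n| ≤ ε * HL n ∧ 13 / 10 * ((n : ℝ) / Real.log n ^ 2) ≤ g n) ∧ FmW ρ W q n ∧ FmR ε ρ W q n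

/-- the regular moduli: all formulas, natural `x` -/
theorem regD (A W : ℕ) {ρ ε : ℝ} (hρ : 0 < ρ) (hρ2 : ρ ≤ 2 / 3) (hε : 0 < ε) :
    DStm (Full ε ρ W) A (2 / 3 - ρ / 2) := by
  obtain ⟨e, he⟩ : ∃ e : ℝ, e = min ε (1 / 200) := ⟨_, rfl⟩
  have he0 : 0 < e := by rw [he]; exact lt_min hε (by norm_num)
  have heε : e ≤ ε := by rw [he]; exact min_le_left _ _
  have he200 : e ≤ 1 / 200 := by rw [he]; exact min_le_right _ _
  obtain ⟨c, hc⟩ := regAll (A + 1) W (ρ := ρ / 4) (ε := e / 4) (by positivity) (by positivity)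
  obtain ⟨n₀, hn₀⟩ := g_HL he0 (by linarith)
  refine ⟨c, fun A₀ => ?_⟩
  obtain ⟨x₁, h₁⟩ := hc A₀
  obtain ⟨x₂, h₂⟩ := add_small A (r := ρ / 4) (by positivity)
  obtain ⟨N, hN⟩ : ∃ N : ℕ, N = max n₀ 3 := ⟨_, rfl⟩
  obtain ⟨x₃, h₃⟩ := eventually_atTop.1 (((tendsto_rpow_atTop (show 0 < ρ / 12 by positivity)).comp
    tendsto_natCast_atTop_atTop).eventually (eventually_ge_atTop (max 4 (N : ℝ))))
  refine ⟨max (max x₁ x₂) (max x₃ 1), fun x hx => ?_⟩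
  have hxx₁ : x₁ ≤ x := le_trans (le_trans (le_max_left _ _) (le_max_left _ _)) hx
  have hxx₂ : x₂ ≤ x := le_trans (le_trans (le_max_right _ _) (le_max_left _ _)) hx
  have hxx₃ : x₃ ≤ x := le_trans (le_trans (le_max_left _ _) (le_max_right _ _)) hx
  have hx1 : 1 ≤ x := le_trans (le_trans (le_max_right _ _) (le_max_right _ _)) hx
  have hxp : max 4 (N : ℝ) ≤ (x : ℝ) ^ (ρ / 12) := h₃ x hxx₃
  have hx4 : 4 ≤ (x : ℝ) ^ (ρ / 12) := (le_max_left _ _).trans hxp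
  have hxN : (N : ℝ) ≤ (x : ℝ) ^ (ρ / 12) := (le_max_right _ _).trans hxp
  have hx0 : (0 : ℝ) < x := by exact_mod_cast hx1
  have hxr1 : (1 : ℝ) ≤ x := by exact_mod_cast hx1
  obtain ⟨D, hD1, hD2, hD3⟩ := h₁ x hxx₁
  refine ⟨D, hD1, hD2, fun q hq hqx hqD a => ?_⟩
  have hq0 : (0 : ℝ) < q := by exact_mod_cast hq
  have hq1 : (1 : ℝ) ≤ q := by exact_mod_cast hq
  obtain ⟨Bad, hb1, hb2⟩ := hD3 q hq hqD a
  obtain ⟨Bad', hb3, hb4⟩ := h₂ x hxx₂ q hq (hqx.trans (Real.rpow_le_rpow_of_exponent_le hxr1 (by linarith))) a Bad hb1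
  refine ⟨Bad', hb3, fun n hn0 hnx hn hmod h2n => ?_⟩
  obtain ⟨hbig, hnB⟩ := hb4 n hn0 hn hmod
  have hform := hb2 n hnx hnB hmod h2n
  have hnr0 : (0 : ℝ) < n := by exact_mod_cast hn0
  have hnr1 : (1 : ℝ) ≤ n := by exact_mod_cast hn0
  have hnN : N ≤ n := by
    have h1 : (x : ℝ) ^ (ρ / 12) ≤ (x : ℝ) ^ (1 - ρ / 4) :=
      Real.rpow_le_rpow_of_exponent_le hxr1 (by linarith)
    have h2 : (N : ℝ) ≤ n := by linarith
    exact_mod_cast h2
  have hn3 : 3 ≤ n := le_trans (by rw [hN]; exact le_max_right _ _) hnN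
  have hnn₀ : n₀ ≤ n := le_trans (by rw [hN]; exact le_max_left _ _) hnN
  have hlog : 1 ≤ Real.log n := by
    rw [Real.le_log_iff_exp_le hnr0]
    have h1 : (3 : ℝ) ≤ n := by exact_mod_cast hn3
    linarith [Real.exp_one_lt_d9]
  -- the modulus is small
  have hq4 : 4 * (q : ℝ) ≤ (n : ℝ) ^ (2 / 3 - ρ / 4) := by
    calc 4 * (q : ℝ) ≤ (x : ℝ) ^ (ρ / 12) * (x : ℝ) ^ (2 / 3 - ρ / 2) := by gcongr
      _ = (x : ℝ) ^ (2 / 3 - 5 * ρ / 12) := by
          rw [← Real.rpow_add hx0]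
          congr 1
          ring
      _ ≤ (x : ℝ) ^ ((1 - ρ / 4) * (2 / 3 - ρ / 4)) := by
          apply Real.rpow_le_rpow_of_exponent_le hxr1
          nlinarith [sq_nonneg ρ]
      _ = ((x : ℝ) ^ (1 - ρ / 4)) ^ (2 / 3 - ρ / 4) := by rw [← Real.rpow_mul hx0.le]
      _ ≤ (n : ℝ) ^ (2 / 3 - ρ / 4) := Real.rpow_le_rpow (by positivity) hbig.le (by linarith)
  have hqn : (q : ℝ) * (n : ℝ) ^ (1 / 3 + ρ / 4) ≤ n / 4 := by
    have h1 : (n : ℝ) ^ (2 / 3 - ρ / 4) * (n : ℝ) ^ (1 / 3 + ρ / 4) = n := by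
      rw [← Real.rpow_add hnr0]
      have : 2 / 3 - ρ / 4 + (1 / 3 + ρ / 4) = 1 := by ring
      rw [this, Real.rpow_one]
    have h2 : 4 * (q : ℝ) * (n : ℝ) ^ (1 / 3 + ρ / 4) ≤ (n : ℝ) ^ (2 / 3 - ρ / 4) * (n : ℝ) ^ (1 / 3 + ρ / 4) := by
      gcongr
    rw [h1] at h2
    linarith
  have hmono : ∀ V : ℕ, (q : ℝ) * (n : ℝ) ^ (1 / 3 + ρ) ≤ V → (q : ℝ) * (n : ℝ) ^ (1 / 3 + ρ / 4) ≤ V := by
    intro V hV
    refine le_trans ?_ hV
    have : (n : ℝ) ^ (1 / 3 + ρ / 4) ≤ (n : ℝ) ^ (1 / 3 + ρ) := Real.rpow_le_rpow_of_exponent_le hnr1 (by linarith)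
    gcongr
  refine ⟨?_, ?_, ?_⟩
  · -- the number of all representations
    obtain ⟨m, hm⟩ := h2n
    have hm2 : n / 2 = m := by omega
    have hV : (q : ℝ) * (n : ℝ) ^ (1 / 3 + ρ / 4) ≤ ((n / 2 : ℕ) : ℝ) := by
      have : (n : ℝ) = 2 * ((n / 2 : ℕ) : ℝ) := by
        rw [hm2]
        exact_mod_cast hm
      linarith
    have h1 := (hform 0 (n / 2) (Nat.zero_le _) hV (by omega)).2 (by omega) (by
      rw [Nat.cast_zero, sub_zero]
      apply div_le_self (Nat.cast_nonneg _)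
      exact one_le_pow₀ hlog)
    have h2 := hn₀ n hnn₀ ⟨m, hm⟩ h1
    have hHL0 : 0 ≤ HL n := by
      unfold HL
      have := one_le_SS n
      have h3 : sing n = SS n := rfl
      rw [h3]
      positivity
    refine ⟨h2.trans (mul_le_mul_of_nonneg_right heε hHL0), ?_⟩
    have h3 := Pool.Agent.R459.sing_num n
    have h4 := (abs_le.1 h2).1
    have h5 : 327 / 250 * ((n : ℝ) / Real.log n ^ 2) ≤ HL n := by
      unfold HL
      gcongr
    have h6 : e * HL n ≤ 1 / 200 * HL n := mul_le_mul_of_nonneg_right he200 hHL0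
    have h7 : 0 ≤ (n : ℝ) / Real.log n ^ 2 := by positivity
    linarith
  · intro U V hUV hV hVn
    refine ((hform U V hUV (hmono V hV) hVn).1).trans ?_
    apply div_le_div_of_nonneg_left (Nat.cast_nonneg _) (by positivity)
    exact pow_le_pow_right₀ hlog (by omega)
  · intro U V hUV hV hVn hV0 hW
    refine ((hform U V hUV (hmono V hV) hVn).2 hV0 hW).trans ?_
    apply mul_le_mul_of_nonneg_right (by linarith)
    have h1 := one_le_SS n
    have h2 : 0 ≤ (V : ℝ) - U := by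
      have : (U : ℝ) ≤ V := by exact_mod_cast hUV
      linarith
    have h3 : 0 ≤ Real.log (V : ℝ) := Real.log_natCast_nonneg V
    positivity

/-- the regular moduli: all formulas, real `x` -/
theorem regReal (A W : ℕ) {ρ ε : ℝ} (hρ : 0 < ρ) (hε : 0 < ε) :
    ∃ c : ℕ, ∀ A₀ : ℕ, ∃ x₀ : ℝ, ∀ x : ℝ, x₀ ≤ x →
    ∃ D : Finset ℕ, (D.card : ℝ) ≤ Real.log x ^ c ∧ (∀ d ∈ D, Real.log x ^ A₀ < (d : ℝ)) ∧
    ∀ q : ℕ, 1 ≤ q → (q : ℝ) ≤ x ^ (2 / 3 - ρ) → (∀ d ∈ D, ¬ d ∣ q) → ∀ a : ℤ,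
      (excD (Full ε ρ W) x q a).Finite ∧ ((excD (Full ε ρ W) x q a).ncard : ℝ) ≤ x / (q * Real.log x ^ A) := by
  by_cases hρ2 : ρ ≤ 2 / 3
  · exact transferD (Full ε ρ W) (θ := 2 / 3 - ρ / 2) (η := 2 / 3 - ρ) (by linarith) (by linarith) A
      (regD (A + 1) W hρ hρ2 hε)
  · push Not at hρ2
    refine ⟨0, fun A₀ => ⟨2, fun x hx => ⟨∅, by simp, by simp, fun q hq hqx _ a => ?_⟩⟩⟩
    exfalso
    have h1 : x ^ (2 / 3 - ρ) < 1 := Real.rpow_lt_one_of_one_lt_of_neg (by linarith) (by linarith)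
    have h2 : (1 : ℝ) ≤ q := by exact_mod_cast hq
    linarith

end Pool.Agent.H567.HW
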