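import Pool.Agent.H567.HW.CountG

/-!
Project HW (helper567), part 29: all windows, all scales.
-/

set_option autoImplicit false

namespace Pool.Agent.H567.HW

open Finset
open Pool.Agent.Y614.GJ.Core (ev_log)

/-- the number of the primes `p` in `(U, V]` for which `n - p` is a prime -/
def wc (n U V : ℕ) : ℕ := ((Ioc U V).filter (fun p => p.Prime ∧ (n - p).Prime)).card

lemma pc_add (n U V : ℕ) (h : U ≤ V) : pc n V = pc n U + wc n U V := by
  unfold pc wc
  rw [← card_union_of_disjoint]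
  · congr 1
    ext p
    simp only [mem_union, mem_filter, mem_Icc, mem_Ioc]
    constructor
    · rintro ⟨⟨h1, h2⟩, h3⟩
      rcases Nat.lt_or_ge U p with h4 | h4
      · exact Or.inr ⟨⟨h4, h2⟩, h3⟩
      · exact Or.inl ⟨⟨h1, h4⟩, h3⟩
    · rintro (⟨⟨h1, h2⟩, h3⟩ | ⟨⟨h1, h2⟩, h3⟩)
      · exact ⟨⟨h1, h2.trans h⟩, h3⟩
      · exact ⟨⟨by omega, h2⟩, h3⟩
  · rw [disjoint_left]
    intro p hp hp2
    rw [mem_filter, mem_Icc] at hp
    rw [mem_filter, mem_Ioc] at hp2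
    omega

lemma wt_one (n : ℕ) : wt n 1 = 0 := by
  unfold wt
  simp

lemma wt_sum_add (n U V : ℕ) (h : U ≤ V) : ∑ b ∈ Icc 2 V, wt n b = ∑ b ∈ Icc 2 U, wt n b + ∑ b ∈ Ioc U V, wt n b := by
  have e : ∀ t : ℕ, ∑ b ∈ Icc 2 t, wt n b = ∑ b ∈ Ioc 0 t, wt n b := by
    intro t
    rcases Nat.eq_zero_or_pos t with h0 | h0
    · subst h0; simp
    · have : Ioc 0 t = insert 1 (Icc 2 t) := by
        ext b
        simp only [mem_Ioc, mem_insert, mem_Icc]
        omega
      rw [this, sum_insert (by simp), wt_one, zero_add]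
  rw [e V, e U, ← sum_union]
  · congr 1
    ext b
    simp only [mem_union, mem_Ioc]
    omega
  · rw [disjoint_left]
    intro b hb hb2
    rw [mem_Ioc] at hb hb2
    omega

lemma wt_bd {n b P : ℕ} (hb : 2 ≤ b) (hbP : b ≤ P) (hPn : 2 * P ≤ n) : 0 ≤ wt n b ∧ wt n b ≤ 4 := by
  have hinv := inv_log_two
  have hl2 := Real.log_two_gt_d9
  have h1 : Real.log 2 ≤ Real.log b := Real.log_le_log (by norm_num) (by exact_mod_cast hb)
  have h2 : Real.log 2 ≤ Real.log ((n - b : ℕ) : ℝ) := Real.log_le_log (by norm_num) (by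
    have : 2 ≤ n - b := by omega
    exact_mod_cast this)
  have h3 : 0 ≤ 1 / Real.log (b : ℝ) ∧ 1 / Real.log (b : ℝ) ≤ 2 :=
    ⟨by positivity, (one_div_le_one_div_of_le (by linarith) h1).trans hinv⟩
  have h4 : 0 ≤ 1 / Real.log ((n - b : ℕ) : ℝ) ∧ 1 / Real.log ((n - b : ℕ) : ℝ) ≤ 2 :=
    ⟨by positivity, (one_div_le_one_div_of_le (by linarith) h2).trans hinv⟩
  unfold wt
  rw [← one_div_mul_one_div]
  refine ⟨mul_nonneg h3.1 h4.1, ?_⟩
  calc 1 / Real.log (b : ℝ) * (1 / Real.log ((n - b : ℕ) : ℝ)) ≤ 2 * 2 := mul_le_mul h3.2 h4.2 h4.1 (by norm_num)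
    _ = 4 := by norm_num

lemma wt_ge {n b P : ℕ} (hb : 2 ≤ b) (hbP : b ≤ P) (hPn : 2 * P ≤ n) :
    1 / (Real.log P * Real.log n) ≤ wt n b := by
  have hl2 := Real.log_two_gt_d9
  have h1 : Real.log 2 ≤ Real.log b := Real.log_le_log (by norm_num) (by exact_mod_cast hb)
  have h2 : Real.log 2 ≤ Real.log ((n - b : ℕ) : ℝ) := Real.log_le_log (by norm_num) (by
    have : 2 ≤ n - b := by omega
    exact_mod_cast this)
  have h3 : Real.log b ≤ Real.log P := Real.log_le_log (by exact_mod_cast (by omega : 0 < b)) (by exact_mod_cast hbP)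
  have h4 : Real.log ((n - b : ℕ) : ℝ) ≤ Real.log n := Real.log_le_log (by
    have : 0 < n - b := by omega
    exact_mod_cast this) (by exact_mod_cast Nat.sub_le _ _)
  unfold wt
  have h5 : 0 < Real.log b * Real.log ((n - b : ℕ) : ℝ) := mul_pos (by linarith) (by linarith)
  apply one_div_le_one_div_of_le h5
  exact mul_le_mul h3 h4 (by linarith) (by linarith)

/-- all windows at all scales, with the bounds in terms of `n`, statement -/
def ScStm (Ad : ℕ → ℕ → ℕ → Prop) (A : ℕ) (ρ : ℝ) : Prop := ∃ x₀ : ℕ, ∀ x : ℕ, x₀ ≤ x → ∀ q : ℕ, 1 ≤ q → ∀ a : ℕ,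
    Ad x q a → ∃ Bad : Finset ℕ, (Bad.card : ℝ) ≤ x / (q * Real.log x ^ A) ∧
      ∀ n : ℕ, n ≤ x → n ∉ Bad → n % q = a % q → 2 ∣ n → ∀ U V : ℕ, U ≤ V → (q : ℝ) * (n : ℝ) ^ (1 / 3 + ρ) ≤ V →
        2 * V ≤ n → |(wc n U V : ℝ) - SS n * ∑ b ∈ Ioc U V, wt n b| ≤ V / Real.log n ^ A

/-- all windows at all scales, with the bounds in terms of `n` -/
theorem scale_of (Ad : ℕ → ℕ → ℕ → Prop) (A : ℕ) {ρ : ℝ} (hρ : 0 < ρ)
    (hC : CStm Ad (A + 1) (min ρ (1 / 12) / 4)) : ScStm Ad A ρ := by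
  obtain ⟨r, hr⟩ : ∃ r, r = min ρ (1 / 12) := ⟨_, rfl⟩
  have hr0 : 0 < r := by rw [hr]; exact lt_min hρ (by norm_num)
  have hr1 : r ≤ 1 / 12 := by rw [hr]; exact min_le_right _ _
  have hrρ : r ≤ ρ := by rw [hr]; exact min_le_left _ _
  have hr4 : 0 < r / 4 := by positivity
  rw [← hr] at hC
  obtain ⟨x₁, h₁⟩ := hC
  obtain ⟨x₂, h₂⟩ := Filter.eventually_atTop.1 (ev_log (A + 4) (s := r / 4) hr4 1000)
  refine ⟨max (max x₁ x₂) 1, fun x hx q hq a hAd => ?_⟩
  have hxx₁ : x₁ ≤ x := le_trans (le_trans (le_max_left _ _) (le_max_left _ _)) hx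
  have hxx₂ : x₂ ≤ x := le_trans (le_trans (le_max_right _ _) (le_max_left _ _)) hx
  have hx1 : 1 ≤ x := le_trans (le_max_right _ _) hx
  obtain ⟨hL1000, hLp⟩ := h₂ x hxx₂
  obtain ⟨Bad, hb1, hb2⟩ := h₁ x hxx₁ q hq a hAd
  obtain ⟨L, hLd⟩ : ∃ L, L = Real.log x := ⟨_, rfl⟩
  rw [← hLd] at hb1 hb2 hL1000 hLp ⊢
  have hx0 : (0 : ℝ) < x := by exact_mod_cast hx1
  have hxr1 : (1 : ℝ) ≤ x := by exact_mod_cast hx1
  have hL0 : 0 < L := by linarith
  have hL1 : 1 ≤ L := by linarith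
  have hq0 : (0 : ℝ) < q := by exact_mod_cast hq
  have hq1 : (1 : ℝ) ≤ q := by exact_mod_cast hq
  have hLA0 : 0 < L ^ A := by positivity
  have hlogn : ∀ n : ℕ, 2 ≤ n → n ≤ x → 0 < Real.log n ∧ Real.log n ≤ L := by
    intro n h2 hnx
    have h3 : (2 : ℝ) ≤ n := by exact_mod_cast h2
    refine ⟨Real.log_pos (by linarith), ?_⟩
    rw [hLd]
    exact Real.log_le_log (by linarith) (by exact_mod_cast hnx)
  by_cases hqx : (x : ℝ) ^ (2 / 3 - r) < q
  · -- nothing to prove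
    refine ⟨∅, by simp only [card_empty, Nat.cast_zero]; positivity, ?_⟩
    intro n hnx _ _ _ U V hUV hV h2V
    rcases Nat.eq_zero_or_pos V with h0 | h0
    · subst h0
      have : U = 0 := by omega
      subst this
      unfold wc
      simp
    · exfalso
      have hn2 : 2 ≤ n := by omega
      have hnr : (2 : ℝ) ≤ n := by exact_mod_cast hn2
      have hn0 : (0 : ℝ) < n := by linarith
      have hnx' : (n : ℝ) ≤ x := by exact_mod_cast hnx
      have h2V' : 2 * (V : ℝ) ≤ n := by exact_mod_cast h2V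
      have h1 : (n : ℝ) ^ (2 / 3 - r) ≤ (x : ℝ) ^ (2 / 3 - r) :=
        Real.rpow_le_rpow hn0.le hnx' (by linarith)
      have h2 : (n : ℝ) ^ (1 / 3 + r) ≤ (n : ℝ) ^ (1 / 3 + ρ) :=
        Real.rpow_le_rpow_of_exponent_le (by linarith) (by linarith)
      have h3 : (n : ℝ) ^ (2 / 3 - r) * (n : ℝ) ^ (1 / 3 + r) = n := by
        rw [← Real.rpow_add hn0]
        have : 2 / 3 - r + (1 / 3 + r) = 1 := by ring
        rw [this, Real.rpow_one]
      have h4 : (n : ℝ) ≤ q * (n : ℝ) ^ (1 / 3 + ρ) := by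
        calc (n : ℝ) = (n : ℝ) ^ (2 / 3 - r) * (n : ℝ) ^ (1 / 3 + r) := h3.symm
          _ ≤ q * (n : ℝ) ^ (1 / 3 + ρ) := by
            apply mul_le_mul (by linarith) h2 (by positivity) hq0.le
      linarith
  push Not at hqx
  obtain ⟨Sm, hSm⟩ : ∃ Sm : Finset ℕ, Sm = (Icc 1 ⌊(x : ℝ) ^ (1 - r)⌋₊).filter (fun n => n % q = a % q) := ⟨_, rfl⟩
  have hLA4 : 0 < L ^ (A + 4) := by positivity
  have hx1r : (x : ℝ) ^ (1 - r) ≤ x / L ^ (A + 4) := by
    rw [le_div_iff₀ hLA4]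
    calc (x : ℝ) ^ (1 - r) * L ^ (A + 4) ≤ (x : ℝ) ^ (1 - r) * (x : ℝ) ^ (r / 4) := by gcongr
      _ = (x : ℝ) ^ (1 - r + r / 4) := by rw [← Real.rpow_add hx0]
      _ ≤ (x : ℝ) ^ (1 : ℝ) := Real.rpow_le_rpow_of_exponent_le hxr1 (by linarith)
      _ = x := Real.rpow_one _
  have hq2 : (q : ℝ) * L ^ (A + 4) ≤ x := by
    calc (q : ℝ) * L ^ (A + 4) ≤ (x : ℝ) ^ (2 / 3 - r) * (x : ℝ) ^ (r / 4) := by gcongr
      _ = (x : ℝ) ^ (2 / 3 - r + r / 4) := by rw [← Real.rpow_add hx0]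
      _ ≤ (x : ℝ) ^ (1 : ℝ) := Real.rpow_le_rpow_of_exponent_le hxr1 (by linarith)
      _ = x := Real.rpow_one _
  have hSmc : (Sm.card : ℝ) ≤ x / (q * L ^ A) * (2 / L ^ 4) := by
    have h2 : (Sm.card : ℝ) ≤ ((x : ℝ) ^ (1 - r)) / q + 1 := by
      have := Pool.Agent.Y883.T4.class_le ⌊(x : ℝ) ^ (1 - r)⌋₊ q a hq Sm ((x : ℝ) ^ (1 - r)) (by positivity)
        (fun n hn => by
          rw [hSm, mem_filter, mem_Icc] at hn
          refine ⟨hn.2, ?_⟩
          exact (Nat.le_floor_iff (by positivity)).1 hn.1.2)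
      exact this
    have h3 : (1 : ℝ) ≤ x / (q * L ^ (A + 4)) := by
      rw [le_div_iff₀ (by positivity), one_mul]
      exact hq2
    have h4 : ((x : ℝ) ^ (1 - r)) / q ≤ x / (q * L ^ (A + 4)) := by
      calc ((x : ℝ) ^ (1 - r)) / q ≤ (x / L ^ (A + 4)) / q := by gcongr
        _ = x / (q * L ^ (A + 4)) := by rw [div_div, mul_comm]
    have h5 : (x : ℝ) / (q * L ^ (A + 4)) = x / (q * L ^ A) * (1 / L ^ 4) := by
      rw [pow_add]
      field_simp
    calc (Sm.card : ℝ) ≤ x / (q * L ^ (A + 4)) + x / (q * L ^ (A + 4)) := by linarith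
      _ = _ := by rw [h5]; ring
  refine ⟨Bad ∪ Sm, ?_, ?_⟩
  · have h1 : ((Bad ∪ Sm).card : ℝ) ≤ Bad.card + Sm.card := by
      have := card_union_le Bad Sm
      exact_mod_cast this
    have h2 : (x : ℝ) / (q * L ^ (A + 1)) = x / (q * L ^ A) * (1 / L) := by
      rw [pow_add]
      field_simp
    have h3 : 1 / L + 2 / L ^ 4 ≤ 1 := by
      have e1 : 1 / L ≤ 1 / 2 := one_div_le_one_div_of_le (by norm_num) (by linarith)
      have e2 : 2 / L ^ 4 ≤ 1 / 2 := by
        rw [div_le_div_iff₀ (by positivity) (by norm_num)]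
        have : L ≤ L ^ 4 := by
          calc L = L ^ 1 := (pow_one _).symm
            _ ≤ L ^ 4 := pow_le_pow_right₀ hL1 (by norm_num)
        linarith
      linarith
    have h4 : 0 ≤ (x : ℝ) / (q * L ^ A) := by positivity
    calc ((Bad ∪ Sm).card : ℝ) ≤ x / (q * L ^ A) * (1 / L) + x / (q * L ^ A) * (2 / L ^ 4) := by
          rw [← h2]; linarith
      _ = x / (q * L ^ A) * (1 / L + 2 / L ^ 4) := by ring
      _ ≤ x / (q * L ^ A) * 1 := mul_le_mul_of_nonneg_left h3 h4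
      _ = _ := mul_one _
  intro n hnx hn hmod h2n U V hUV hV h2V
  rw [mem_union, not_or] at hn
  obtain ⟨hnB, hnS⟩ := hn
  rcases Nat.eq_zero_or_pos V with h0 | h0
  · subst h0
    have : U = 0 := by omega
    subst this
    unfold wc
    simp
  have hn2 : 2 ≤ n := by omega
  have hnr : (2 : ℝ) ≤ n := by exact_mod_cast hn2
  have hn0 : (0 : ℝ) < n := by linarith
  have hnx' : (n : ℝ) ≤ x := by exact_mod_cast hnx
  obtain ⟨hln0, hlnL⟩ := hlogn n hn2 hnx
  have hnbig : (x : ℝ) ^ (1 - r) < n := by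
    by_contra hcon
    push Not at hcon
    apply hnS
    rw [hSm, mem_filter, mem_Icc]
    exact ⟨⟨by omega, Nat.le_floor hcon⟩, hmod⟩
  -- the lower end
  obtain ⟨t₀, ht₀⟩ : ∃ t₀ : ℝ, t₀ = q * (x : ℝ) ^ (1 / 3 + r / 4) := ⟨_, rfl⟩
  have hxp : 1 ≤ (x : ℝ) ^ (1 / 3 + r / 4) := Real.one_le_rpow hxr1 (by linarith)
  have ht₀1 : 1 ≤ t₀ := by
    rw [ht₀]
    exact one_le_mul_of_one_le_of_one_le hq1 hxp
  have hexp : 1 / 3 + r / 2 ≤ (1 - r) * (1 / 3 + r) := by
    have e : (1 - r) * (1 / 3 + r) - (1 / 3 + r / 2) = r * (1 / 6 - r) := by ring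
    have : 0 ≤ r * (1 / 6 - r) := mul_nonneg hr0.le (by linarith)
    linarith
  have ht₀V : t₀ * L ^ (A + 4) ≤ V := by
    calc t₀ * L ^ (A + 4) ≤ t₀ * (x : ℝ) ^ (r / 4) := by
          have : 0 ≤ t₀ := by linarith
          gcongr
      _ = q * (x : ℝ) ^ (1 / 3 + r / 2) := by
          rw [ht₀, mul_assoc, ← Real.rpow_add hx0]
          congr 2
          ring
      _ ≤ q * (x : ℝ) ^ ((1 - r) * (1 / 3 + r)) := by
          have : (x : ℝ) ^ (1 / 3 + r / 2) ≤ (x : ℝ) ^ ((1 - r) * (1 / 3 + r)) :=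
            Real.rpow_le_rpow_of_exponent_le hxr1 hexp
          gcongr
      _ = q * ((x : ℝ) ^ (1 - r)) ^ (1 / 3 + r) := by rw [Real.rpow_mul hx0.le]
      _ ≤ q * (n : ℝ) ^ (1 / 3 + r) := by
          have : ((x : ℝ) ^ (1 - r)) ^ (1 / 3 + r) ≤ (n : ℝ) ^ (1 / 3 + r) :=
            Real.rpow_le_rpow (by positivity) hnbig.le (by positivity)
          gcongr
      _ ≤ q * (n : ℝ) ^ (1 / 3 + ρ) := by
          have : (n : ℝ) ^ (1 / 3 + r) ≤ (n : ℝ) ^ (1 / 3 + ρ) :=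
            Real.rpow_le_rpow_of_exponent_le (by linarith) (by linarith)
          gcongr
      _ ≤ V := hV
  have hLA41 : 1 ≤ L ^ (A + 4) := one_le_pow₀ hL1
  have ht₀V' : t₀ ≤ V := (le_mul_of_one_le_right (by linarith) hLA41).trans ht₀V
  have hV1 : (1 : ℝ) ≤ V := by linarith
  have hV0 : (0 : ℝ) < V := by linarith
  have hV2 : 2 ≤ V := by
    have h1 : (1000 : ℝ) ≤ V := by
      have h2 : L ≤ L ^ (A + 4) := by
        calc L = L ^ 1 := (pow_one _).symm
          _ ≤ L ^ (A + 4) := pow_le_pow_right₀ hL1 (by omega)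
      have h3 : L ^ (A + 4) ≤ t₀ * L ^ (A + 4) := le_mul_of_one_le_left hLA4.le ht₀1
      linarith
    have h3 : 1000 ≤ V := by exact_mod_cast h1
    omega
  have hE : ∀ t : ℕ, t₀ ≤ t → t ≤ V → |(pc n t : ℝ) - SS n * ∑ b ∈ Icc 2 t, wt n b| ≤ V / L ^ (A + 1) := by
    intro t ht htV
    refine (hb2 n hnx hnB hmod h2n t (by rw [← ht₀]; exact ht) (by omega)).trans ?_
    have : (t : ℝ) ≤ V := by exact_mod_cast htV
    gcongr
  have hSS1 := one_le_SS n
  have hpcle : ∀ t : ℕ, (pc n t : ℝ) ≤ t := by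
    intro t
    have h1 : pc n t ≤ t := by
      unfold pc
      refine (card_filter_le _ _).trans ?_
      rw [Nat.card_Icc]
      omega
    exact_mod_cast h1
  have hV2r : (2 : ℝ) ≤ V := by exact_mod_cast hV2
  have hlV0 : 0 < Real.log V := Real.log_pos (by linarith)
  have hlVL : Real.log V ≤ L := by
    rw [hLd]
    apply Real.log_le_log hV0
    have : V ≤ x := by omega
    exact_mod_cast this
  have hSS2 : SS n ≤ 8 * L ^ 2 := by
    have h1 := neg_le_of_abs_le (hE V ht₀V' le_rfl)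
    have h2 := hpcle V
    have h3 : (V : ℝ) / L ^ (A + 1) ≤ V := div_le_self hV0.le (one_le_pow₀ hL1)
    have h4 : (V : ℝ) / 2 * (1 / L ^ 2) ≤ ∑ b ∈ Icc 2 V, wt n b := by
      calc (V : ℝ) / 2 * (1 / L ^ 2) ≤ ((V : ℝ) - 1) * (1 / (Real.log V * Real.log n)) := by
            apply mul_le_mul (by linarith) _ (by positivity) (by linarith)
            apply one_div_le_one_div_of_le (by positivity)
            rw [pow_two]
            exact mul_le_mul hlVL hlnL hln0.le hL0.le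
        _ = ∑ b ∈ Icc 2 V, (1 / (Real.log V * Real.log n)) := by
            rw [sum_const, Nat.card_Icc, nsmul_eq_mul]
            congr 1
            have : V + 1 - 2 = V - 1 := by omega
            rw [this, Nat.cast_sub (by omega)]
            simp
        _ ≤ ∑ b ∈ Icc 2 V, wt n b := by
            refine sum_le_sum fun b hb => ?_
            rw [mem_Icc] at hb
            exact wt_ge hb.1 hb.2 h2V
    have h5 : SS n * (V / 2 * (1 / L ^ 2)) ≤ 2 * V := by
      have : SS n * (V / 2 * (1 / L ^ 2)) ≤ SS n * ∑ b ∈ Icc 2 V, wt n b :=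
        mul_le_mul_of_nonneg_left h4 (by linarith)
      linarith
    have h6 : SS n * (V / 2 * (1 / L ^ 2)) = (SS n / L ^ 2) * (V / 2) := by ring
    rw [h6] at h5
    have h7 : SS n / L ^ 2 ≤ 4 := by
      by_contra hcon
      push Not at hcon
      have : 4 * ((V : ℝ) / 2) < (SS n / L ^ 2) * (V / 2) := mul_lt_mul_of_pos_right hcon (by linarith)
      linarith
    rw [div_le_iff₀ (by positivity)] at h7
    have h8 : 0 ≤ L ^ 2 := sq_nonneg L
    linarith
  have key : |(wc n U V : ℝ) - SS n * ∑ b ∈ Ioc U V, wt n b| ≤ V / L ^ A := by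
    have e1 : (wc n U V : ℝ) = pc n V - pc n U := by
      rw [pc_add n U V hUV]
      push_cast
      ring
    have e2 : ∑ b ∈ Ioc U V, wt n b = ∑ b ∈ Icc 2 V, wt n b - ∑ b ∈ Icc 2 U, wt n b := by
      rw [wt_sum_add n U V hUV]
      ring
    have e3 : (wc n U V : ℝ) - SS n * ∑ b ∈ Ioc U V, wt n b =
        (pc n V - SS n * ∑ b ∈ Icc 2 V, wt n b) - (pc n U - SS n * ∑ b ∈ Icc 2 U, wt n b) := by
      rw [e1, e2]
      ring
    have e4 : (V : ℝ) / L ^ (A + 1) = V / L ^ A * (1 / L) := by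
      rw [pow_add]
      field_simp
    have e5 : 0 ≤ (V : ℝ) / L ^ A := by positivity
    have e6 : 1 / L ≤ 1 / 4 := one_div_le_one_div_of_le (by norm_num) (by linarith)
    rw [e3]
    refine (abs_sub _ _).trans ?_
    have hEV := hE V ht₀V' le_rfl
    by_cases hU : t₀ ≤ U
    · have hEU := hE U hU hUV
      rw [e4] at hEV hEU
      have e7 : (V : ℝ) / L ^ A * (1 / L) ≤ V / L ^ A * (1 / 4) := mul_le_mul_of_nonneg_left e6 e5
      linarith
    · push Not at hU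
      have hU0 : (0 : ℝ) ≤ U := Nat.cast_nonneg _
      have h1 : |(pc n U : ℝ) - SS n * ∑ b ∈ Icc 2 U, wt n b| ≤ 33 * L ^ 2 * U := by
        have h2 : 0 ≤ ∑ b ∈ Icc 2 U, wt n b := sum_nonneg fun b hb => by
          rw [mem_Icc] at hb
          exact (wt_bd hb.1 (hb.2.trans hUV) h2V).1
        have h3 : ∑ b ∈ Icc 2 U, wt n b ≤ U * 4 := by
          calc ∑ b ∈ Icc 2 U, wt n b ≤ ∑ b ∈ Icc 2 U, (4 : ℝ) := sum_le_sum fun b hb => by
                rw [mem_Icc] at hb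
                exact (wt_bd hb.1 (hb.2.trans hUV) h2V).2
            _ = ((Icc 2 U).card : ℝ) * 4 := by rw [sum_const, nsmul_eq_mul]
            _ ≤ U * 4 := by
                have : ((Icc 2 U).card : ℝ) ≤ U := by
                  rw [Nat.card_Icc]
                  have : U + 1 - 2 ≤ U := by omega
                  exact_mod_cast this
                gcongr
        have h4 : SS n * ∑ b ∈ Icc 2 U, wt n b ≤ 8 * L ^ 2 * (U * 4) :=
          mul_le_mul hSS2 h3 h2 (by positivity)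
        have h5 : 0 ≤ SS n * ∑ b ∈ Icc 2 U, wt n b := mul_nonneg (by linarith) h2
        have h6 := hpcle U
        have h7 : (0 : ℝ) ≤ pc n U := Nat.cast_nonneg _
        have h8 : (U : ℝ) ≤ L ^ 2 * U := le_mul_of_one_le_left hU0 (one_le_pow₀ hL1)
        rw [abs_le]
        constructor <;> linarith
      have h2 : 33 * L ^ 2 * U ≤ V / L ^ A * (33 / L ^ 2) := by
        have h3 : (U : ℝ) ≤ V / L ^ (A + 4) := by
          rw [le_div_iff₀ hLA4]
          exact (mul_le_mul_of_nonneg_right hU.le hLA4.le).trans ht₀V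
        calc 33 * L ^ 2 * U ≤ 33 * L ^ 2 * (V / L ^ (A + 4)) := by gcongr
          _ = V / L ^ A * (33 / L ^ 2) := by
            rw [pow_add]
            field_simp
      have h3 : 33 / L ^ 2 ≤ 1 / 4 := by
        rw [div_le_div_iff₀ (by positivity) (by norm_num)]
        have : L ≤ L ^ 2 := by
          calc L = L ^ 1 := (pow_one _).symm
            _ ≤ L ^ 2 := pow_le_pow_right₀ hL1 (by norm_num)
        linarith
      rw [e4] at hEV
      have e7 : (V : ℝ) / L ^ A * (1 / L) ≤ V / L ^ A * (1 / 4) := mul_le_mul_of_nonneg_left e6 e5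
      have e8 : (V : ℝ) / L ^ A * (33 / L ^ 2) ≤ V / L ^ A * (1 / 4) := mul_le_mul_of_nonneg_left h3 e5
      linarith
  refine key.trans ?_
  apply div_le_div_of_nonneg_left hV0.le (by positivity)
  exact pow_le_pow_left₀ hln0.le hlnL A

end Pool.Agent.H567.HW
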