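import Pool.Agent.H567.HW.Hls
import Pool.Graph.R_seed8.R460.GH.Kd
import Pool.Graph.R_seed8.W110.HV.Frac

/-!
Project HW (helper567), part 4: sums of type I over short intervals, all nonprincipal characters, by the dual large sieve.
-/

set_option autoImplicit false

namespace Pool.Agent.H567.HW.TI

open Finset
open Pool.Agent.H807R2.Dav (ee ee_add ee_int ee_add_int norm_ee)

/-- the kernel -/
noncomputable def KW (W : ℕ) (θ : ℝ) : ℂ := ∑ w ∈ range W, ee ((w : ℝ) * θ)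

lemma ee_112 (x : ℝ) : Pool.Agent.Helper112.ee x = ee x := by
  unfold Pool.Agent.Helper112.ee ee
  congr 1
  ring

lemma KW_per (W : ℕ) (θ : ℝ) (n : ℤ) : KW W (θ + n) = KW W θ := by
  unfold KW
  refine sum_congr rfl fun w _ => ?_
  have : (w : ℝ) * (θ + n) = w * θ + ((w * n : ℤ) : ℝ) := by push_cast; ring
  rw [this, ee_add_int]

/-- full period -/
lemma KW_full {R i : ℕ} (hR : 0 < R) (hi : i < R) (hi0 : i ≠ 0) : KW R ((i : ℝ) / (R : ℕ)) = 0 := by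
  have h := Pool.Agent.Y872.GJ.orth R i 0 hi hR
  rw [if_neg hi0] at h
  rw [← h]
  unfold KW
  refine sum_congr rfl fun w _ => ?_
  rw [Nat.cast_zero, zero_mul, Pool.Agent.H807R2.Dav.ee_zero, map_one, mul_one]
  congr 1
  ring

lemma KW_add (R W : ℕ) (θ : ℝ) : KW (R + W) θ = KW R θ + ee ((R : ℝ) * θ) * KW W θ := by
  unfold KW
  rw [sum_range_add, mul_sum]
  congr 1
  refine sum_congr rfl fun w _ => ?_
  rw [← ee_add]
  congr 1
  push_cast
  ring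

lemma KW_mod {R i : ℕ} (hR : 0 < R) (hi : i < R) (hi0 : i ≠ 0) (W : ℕ) :
    KW W ((i : ℝ) / (R : ℕ)) = KW (W % R) ((i : ℝ) / (R : ℕ)) := by
  induction W using Nat.strong_induction_on with
  | _ W ih =>
    rcases Nat.lt_or_ge W R with h | h
    · rw [Nat.mod_eq_of_lt h]
    · have h1 := ih (W - R) (by omega)
      have h2 : W = R + (W - R) := by omega
      have h3 : W % R = (W - R) % R := by
        conv_lhs => rw [h2]
        rw [Nat.add_mod_left]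
      rw [h3, ← h1]
      conv_lhs => rw [h2]
      rw [KW_add, KW_full hR hi hi0, zero_add]
      have h4 : ee ((R : ℝ) * ((i : ℝ) / (R : ℕ))) = 1 := by
        have hR0 : (R : ℝ) ≠ 0 := by exact_mod_cast hR.ne'
        have : (R : ℝ) * ((i : ℝ) / (R : ℕ)) = ((i : ℤ) : ℝ) := by
          push_cast
          field_simp
        rw [this, ee_int]
      rw [h4, one_mul]

/-- the sum over the nonzero fractions with denominator `R` -/
lemma KW_sum {R : ℕ} (hR : 0 < R) (W : ℕ) :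
    ∑ i ∈ (range R).erase 0, ‖KW W ((i : ℝ) / (R : ℕ))‖ ^ 2 ≤ R * W := by
  have h1 : ∀ i ∈ (range R).erase 0, ‖KW W ((i : ℝ) / (R : ℕ))‖ ^ 2 = ‖KW (W % R) ((i : ℝ) / (R : ℕ))‖ ^ 2 := by
    intro i hi
    rw [mem_erase, mem_range] at hi
    rw [KW_mod hR hi.2 hi.1]
  rw [sum_congr rfl h1]
  have h2 := Pool.Agent.Y872.GJ.parseval R (range (W % R)) (fun n hn => (mem_range.1 hn).trans (Nat.mod_lt _ hR))
    (fun _ => 1)
  have h3 : ∑ i ∈ (range R).erase 0, ‖KW (W % R) ((i : ℝ) / (R : ℕ))‖ ^ 2 ≤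
      ∑ i ∈ range R, ‖KW (W % R) ((i : ℝ) / (R : ℕ))‖ ^ 2 :=
    sum_le_sum_of_subset_of_nonneg (erase_subset _ _) fun _ _ _ => sq_nonneg _
  refine h3.trans ?_
  have h4 : ∑ i ∈ range R, ‖KW (W % R) ((i : ℝ) / (R : ℕ))‖ ^ 2 = R * ((W % R : ℕ) : ℝ) := by
    unfold KW
    simp only [one_mul] at h2
    rw [h2]
    simp
  rw [h4]
  have h5 : ((W % R : ℕ) : ℝ) ≤ W := by exact_mod_cast Nat.mod_le W R
  exact mul_le_mul_of_nonneg_left h5 (Nat.cast_nonneg _)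

/-- the pairs of fractions -/
lemma pairs {q r : ℕ} (hq : 0 < q) (hr : 0 < r) (hc : r.Coprime q) (W : ℕ) :
    ∑ j ∈ (range q).erase 0, ∑ h ∈ range r, ‖KW W ((j : ℝ) / q + (h : ℝ) / r)‖ ^ 2 ≤ (r * q : ℝ) * W := by
  have hq0 : (0 : ℝ) < q := by exact_mod_cast hq
  have hr0 : (0 : ℝ) < r := by exact_mod_cast hr
  have hR : 0 < r * q := Nat.mul_pos hr hq
  have h1 := KW_sum hR W
  push_cast at h1
  refine le_trans ?_ h1
  rw [← sum_product']
  obtain ⟨f, hf⟩ : ∃ f : ℕ × ℕ → ℕ, f = fun p => (p.1 * r + p.2 * q) % (r * q) := ⟨_, rfl⟩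
  have h2 : ∀ p ∈ (range q).erase 0 ×ˢ range r, ‖KW W ((p.1 : ℝ) / q + (p.2 : ℝ) / r)‖ ^ 2 =
      ‖KW W ((f p : ℝ) / (r * q))‖ ^ 2 := by
    rintro ⟨j, h⟩ _
    have e1 := Nat.div_add_mod (j * r + h * q) (r * q)
    obtain ⟨t, ht⟩ : ∃ t, t = (j * r + h * q) / (r * q) := ⟨_, rfl⟩
    rw [← ht] at e1
    have e2 : f (j, h) = (j * r + h * q) % (r * q) := by rw [hf]
    rw [← e2] at e1
    have e3 : ((r : ℝ) * q) * t + (f (j, h) : ℝ) = j * r + h * q := by exact_mod_cast e1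
    have e4 : (j : ℝ) / q + (h : ℝ) / r = (f (j, h) : ℝ) / (r * q) + ((t : ℤ) : ℝ) := by
      push_cast
      rw [div_add_div _ _ hq0.ne' hr0.ne', div_add' _ _ _ (by positivity), mul_comm (q : ℝ) r]
      congr 1
      linarith
    simp only
    rw [e4, KW_per]
  rw [sum_congr rfl h2]
  have hinj : Set.InjOn f ((range q).erase 0 ×ˢ range r : Finset (ℕ × ℕ)) := by
    rintro ⟨j, h⟩ hx ⟨j', h'⟩ hy hxy
    rw [mem_coe, mem_product, mem_erase, mem_range, mem_range] at hx hy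
    rw [hf] at hxy
    simp only at hxy hx hy
    have k1 : (j * r + h * q) ≡ (j' * r + h' * q) [MOD r * q] := hxy
    have k2 : j * r ≡ j' * r [MOD q] := by
      have := k1.of_mul_left r
      unfold Nat.ModEq at this ⊢
      simpa using this
    have k3 : h * q ≡ h' * q [MOD r] := by
      have := k1.of_mul_right q
      unfold Nat.ModEq at this ⊢
      simpa using this
    have k4 : j ≡ j' [MOD q] := Nat.ModEq.cancel_right_of_coprime (by rw [Nat.coprime_comm] at hc; exact hc) k2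
    have k5 : h ≡ h' [MOD r] := Nat.ModEq.cancel_right_of_coprime hc k3
    have k6 := Nat.ModEq.eq_of_lt_of_lt k4 hx.1.2 hy.1.2
    have k7 := Nat.ModEq.eq_of_lt_of_lt k5 hx.2 hy.2
    rw [k6, k7]
  rw [← sum_image (f := fun i : ℕ => ‖KW W ((i : ℝ) / (r * q))‖ ^ 2) hinj]
  apply sum_le_sum_of_subset_of_nonneg _ fun _ _ _ => sq_nonneg _
  intro i hi
  rw [mem_image] at hi
  obtain ⟨⟨j, h⟩, hx, rfl⟩ := hi
  rw [mem_product, mem_erase, mem_range, mem_range] at hx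
  rw [mem_erase, mem_range, hf]
  refine ⟨fun h0 => ?_, Nat.mod_lt _ hR⟩
  simp only at h0 hx
  have k1 : r * q ∣ j * r + h * q := Nat.dvd_of_mod_eq_zero h0
  have k2 : q ∣ j * r := by
    have := (Dvd.intro_left r rfl : q ∣ r * q).trans k1
    exact (Nat.dvd_add_left (Dvd.intro_left h rfl)).1 this
  have k3 : q ∣ j := (Nat.Coprime.dvd_of_dvd_mul_right (by rw [Nat.coprime_comm] at hc; exact hc) k2)
  have := Nat.le_of_dvd (Nat.pos_of_ne_zero hx.1.1) k3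
  omega

/-- the dual large sieve -/
lemma dual_ls (Y F : ℕ) (z : ℕ → ℕ → ℂ) :
    ∑ n ∈ Icc 1 Y, ‖∑ f ∈ Icc 1 F, ∑ a ∈ (range f).filter (fun a => a.Coprime f), z f a * ee (n * a / f)‖ ^ 2 ≤
      6 * (Y + (F : ℝ) ^ 2) * ∑ f ∈ Icc 1 F, ∑ a ∈ (range f).filter (fun a => a.Coprime f), ‖z f a‖ ^ 2 := by
  obtain ⟨P, hP⟩ : ∃ P : ℕ → ℂ, P = fun n : ℕ => ∑ f ∈ Icc 1 F, ∑ a ∈ (range f).filter (fun a => a.Coprime f),
    z f a * ee ((n : ℝ) * a / f) := ⟨_, rfl⟩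
  have hPn : ∀ n : ℕ, ∑ f ∈ Icc 1 F, ∑ a ∈ (range f).filter (fun a => a.Coprime f),
    z f a * ee (n * a / f) = P n := fun n => by rw [hP]
  simp only [hPn]
  obtain ⟨X, hX⟩ : ∃ X, X = ∑ n ∈ Icc 1 Y, ‖P n‖ ^ 2 := ⟨_, rfl⟩
  obtain ⟨Z, hZ⟩ : ∃ Z, Z = ∑ f ∈ Icc 1 F, ∑ a ∈ (range f).filter (fun a => a.Coprime f), ‖z f a‖ ^ 2 := ⟨_, rfl⟩
  rw [← hX, ← hZ]
  have hX0 : 0 ≤ X := by rw [hX]; exact sum_nonneg fun _ _ => sq_nonneg _
  have hZ0 : 0 ≤ Z := by rw [hZ]; exact sum_nonneg fun _ _ => sum_nonneg fun _ _ => sq_nonneg _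
  obtain ⟨I, hI⟩ : ∃ I : Finset (Σ _ : ℕ, ℕ), I = (Icc 1 F).sigma (fun f => (range f).filter (fun a => a.Coprime f)) :=
    ⟨_, rfl⟩
  have hZI : Z = ∑ x ∈ I, ‖z x.1 x.2‖ ^ 2 := by rw [hZ, hI, sum_sigma]
  have hls := Pool.Agent.Helper112.additive_large_sieve Y F (fun n => (starRingEnd ℂ) (P n))
  obtain ⟨Q, hQ⟩ : ∃ Q : (Σ _ : ℕ, ℕ) → ℂ, Q = fun x => ∑ n ∈ Icc 1 Y, (starRingEnd ℂ) (P n) *
    ee ((n : ℝ) * x.2 / x.1) := ⟨_, rfl⟩
  have hQI : ∑ x ∈ I, ‖Q x‖ ^ 2 ≤ 6 * (Y + (F : ℝ) ^ 2) * X := by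
    have e1 : ∑ n ∈ Icc 1 Y, ‖(starRingEnd ℂ) (P n)‖ ^ 2 = X := by
      rw [hX]
      refine sum_congr rfl fun n _ => ?_
      rw [RCLike.norm_conj]
    rw [e1] at hls
    refine le_trans (le_of_eq ?_) hls
    rw [hI, sum_sigma]
    refine sum_congr rfl fun f _ => sum_congr rfl fun a _ => ?_
    rw [hQ]
    simp only [ee_112]
  have h1 : (X : ℂ) = ∑ x ∈ I, z x.1 x.2 * Q x := by
    rw [hX]
    push_cast
    have e1 : ∀ n ∈ Icc 1 Y, ((‖P n‖ : ℂ)) ^ 2 = ∑ x ∈ I, (starRingEnd ℂ) (P n) * (z x.1 x.2 * ee ((n : ℝ) * x.2 / x.1)) := by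
      intro n _
      rw [← mul_sum, hI, sum_sigma, ← Complex.mul_conj', mul_comm]
      congr 1
      rw [hP]
    rw [sum_congr rfl e1, sum_comm]
    refine sum_congr rfl fun x _ => ?_
    rw [hQ, mul_sum]
    refine sum_congr rfl fun n _ => ?_
    ring
  have h2 : X ≤ ∑ x ∈ I, ‖z x.1 x.2‖ * ‖Q x‖ := by
    have e1 : X = ‖(X : ℂ)‖ := by
      rw [Complex.norm_real, Real.norm_eq_abs, abs_of_nonneg hX0]
    rw [e1, h1]
    refine (norm_sum_le _ _).trans (le_of_eq ?_)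
    exact sum_congr rfl fun x _ => norm_mul _ _
  have h3 : X ^ 2 ≤ Z * (6 * (Y + (F : ℝ) ^ 2) * X) := by
    calc X ^ 2 ≤ (∑ x ∈ I, ‖z x.1 x.2‖ * ‖Q x‖) ^ 2 := pow_le_pow_left₀ hX0 h2 2
      _ ≤ (∑ x ∈ I, ‖z x.1 x.2‖ ^ 2) * ∑ x ∈ I, ‖Q x‖ ^ 2 := sum_mul_sq_le_sq_mul_sq _ _ _
      _ ≤ Z * (6 * (Y + (F : ℝ) ^ 2) * X) := by
          rw [← hZI]
          exact mul_le_mul_of_nonneg_left hQI hZ0
  rcases hX0.eq_or_lt with h0 | h0
  · rw [← h0]
    positivity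
  · have h4 : X * X ≤ (6 * (Y + (F : ℝ) ^ 2) * Z) * X := by nlinarith
    exact le_of_mul_le_mul_right h4 h0

/-- the complete sum -/
lemma orth0 {m : ℕ} (hm : 0 < m) (n : ℕ) :
    ∑ k ∈ range m, ee ((n : ℝ) * ((k : ℝ) / (m : ℕ))) = if m ∣ n then (m : ℂ) else 0 := by
  have h := Pool.Agent.Y872.GJ.orth m (n % m) 0 (Nat.mod_lt _ hm) hm
  have e1 : ∑ k ∈ range m, ee ((n : ℝ) * ((k : ℝ) / (m : ℕ))) = ∑ t ∈ range m,
      ee (((n % m : ℕ) : ℝ) * ((t : ℝ) / (m : ℕ))) * (starRingEnd ℂ) (ee (((0 : ℕ) : ℝ) * ((t : ℝ) / (m : ℕ)))) := by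
    refine sum_congr rfl fun k _ => ?_
    rw [Pool.Agent.R460.GH.ee_mod hm, Nat.cast_zero, zero_mul, Pool.Agent.H807R2.Dav.ee_zero, map_one, mul_one]
  rw [e1, h]
  have e2 : (n % m = 0) ↔ m ∣ n := (Nat.dvd_iff_mod_eq_zero).symm
  simp only [e2]

/-- the multiples of `m` in an interval by the additive characters -/
lemma mult_exp {m : ℕ} (hm : 0 < m) (u W : ℕ) (β : ℝ) :
    ∑ n ∈ (Ioc u (u + W)).filter (fun n => m ∣ n), ee ((n : ℝ) * β) =
      (m : ℂ)⁻¹ * ∑ k ∈ range m, ee (((u + 1 : ℕ) : ℝ) * (β + (k : ℝ) / (m : ℕ))) * KW W (β + (k : ℝ) / (m : ℕ)) := by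
  have hm0 : (m : ℂ) ≠ 0 := by exact_mod_cast hm.ne'
  have e1 : ∑ k ∈ range m, ee (((u + 1 : ℕ) : ℝ) * (β + (k : ℝ) / (m : ℕ))) * KW W (β + (k : ℝ) / (m : ℕ)) =
      ∑ w ∈ range W, ee (((u + 1 + w : ℕ) : ℝ) * β) * ∑ k ∈ range m, ee (((u + 1 + w : ℕ) : ℝ) * ((k : ℝ) / (m : ℕ))) := by
    unfold KW
    simp only [mul_sum]
    rw [sum_comm]
    refine sum_congr rfl fun w _ => sum_congr rfl fun k _ => ?_
    rw [← ee_add, ← ee_add]
    congr 1
    push_cast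
    ring
  rw [e1]
  simp only [orth0 hm]
  have e2 : ∀ w ∈ range W, ee (((u + 1 + w : ℕ) : ℝ) * β) * (if m ∣ u + 1 + w then (m : ℂ) else 0) =
      m * (if m ∣ u + 1 + w then ee (((u + 1 + w : ℕ) : ℝ) * β) else 0) := by
    intro w _
    split_ifs
    · ring
    · ring
  rw [sum_congr rfl e2, ← mul_sum, inv_mul_cancel_left₀ hm0, sum_filter]
  symm
  refine sum_nbij' (fun w => u + 1 + w) (fun n => n - (u + 1)) ?_ ?_ ?_ ?_ ?_
  · intro w hw
    rw [mem_range] at hw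
    rw [mem_Ioc]
    omega
  · intro n hn
    rw [mem_Ioc] at hn
    rw [mem_range]
    omega
  · intro w _
    simp
  · intro n hn
    rw [mem_Ioc] at hn
    omega
  · intro w _
    rfl

lemma frac_c {m : ℕ} (hm : 0 < m) (G : ℝ → ℂ) :
    ∑ b ∈ range m, G ((b : ℝ) / m) =
      ∑ D ∈ m.divisors, ∑ a ∈ (range D).filter (fun a => a.Coprime D), G ((a : ℝ) / D) := by
  apply Complex.ext
  · have h := Pool.Agent.W110.HV.frac_sum m hm (fun _ x => (G x).re)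
    simp only [Complex.re_sum]
    exact h
  · have h := Pool.Agent.W110.HV.frac_sum m hm (fun _ x => (G x).im)
    simp only [Complex.im_sum]
    exact h

/-- the coefficient of the fractions with denominator `D` -/
noncomputable def gam (q M : ℕ) (c : ℕ → ℂ) (D : ℕ) : ℂ :=
  ∑ m ∈ ((Icc 1 M).filter (fun m => m.Coprime q)).filter (fun m => D ∣ m), c m / m

lemma gam_le {q M D : ℕ} {c : ℕ → ℂ} {T : ℝ} (hT : 0 ≤ T) (hM : 1 ≤ M) (hc : ∀ m ∈ Icc 1 M, ‖c m‖ ≤ T) (hD : 1 ≤ D) :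
    ‖gam q M c D‖ ≤ T * (1 + Real.log M) / D := by
  have hD0 : (0 : ℝ) < D := by exact_mod_cast hD
  have hlog : 0 ≤ Real.log M := Real.log_natCast_nonneg M
  unfold gam
  have h1 : ‖∑ m ∈ ((Icc 1 M).filter (fun m => m.Coprime q)).filter (fun m => D ∣ m), c m / m‖ ≤
      ∑ m ∈ (Icc 1 M).filter (fun m => D ∣ m), T / m := by
    refine (norm_sum_le _ _).trans ?_
    refine le_trans (sum_le_sum (g := fun m : ℕ => T / m) fun m hm => ?_) ?_
    · rw [mem_filter, mem_filter] at hm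
      rw [norm_div, Complex.norm_natCast]
      exact div_le_div_of_nonneg_right (hc m hm.1.1) (Nat.cast_nonneg _)
    · apply sum_le_sum_of_subset_of_nonneg
      · intro m hm
        rw [mem_filter, mem_filter] at hm
        rw [mem_filter]
        exact ⟨hm.1.1, hm.2⟩
      · intro m _ _
        positivity
  refine h1.trans ?_
  have h2 : ∑ m ∈ (Icc 1 M).filter (fun m => D ∣ m), T / (m : ℝ) ≤ ∑ t ∈ Icc 1 M, T / (D : ℝ) * (1 / (t : ℝ)) := by
    have e1 : (Icc 1 M).filter (fun m => D ∣ m) ⊆ (Icc 1 M).image (fun t => D * t) := by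
      intro m hm
      rw [mem_filter, mem_Icc] at hm
      obtain ⟨⟨h3, h4⟩, t, rfl⟩ := hm
      rw [mem_image]
      refine ⟨t, mem_Icc.2 ⟨?_, ?_⟩, rfl⟩
      · rcases Nat.eq_zero_or_pos t with h0 | h0
        · subst h0; simp at h3
        · exact h0
      · exact le_trans (Nat.le_mul_of_pos_left t hD) h4
    refine (sum_le_sum_of_subset_of_nonneg e1 fun m _ _ => by positivity).trans ?_
    rw [sum_image fun x _ y _ h => Nat.eq_of_mul_eq_mul_left hD h]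
    refine sum_le_sum fun t ht => ?_
    push_cast
    rw [div_mul_div_comm, mul_one]
  refine h2.trans ?_
  rw [← mul_sum]
  have h3 := Pool.Agent.R460.GH.harm M hM
  calc T / (D : ℝ) * ∑ t ∈ Icc 1 M, 1 / (t : ℝ) ≤ T / D * (1 + Real.log M) := by gcongr
    _ = _ := by ring

lemma gam_zero {q M D : ℕ} {c : ℕ → ℂ} (hD : ¬ D.Coprime q) : gam q M c D = 0 := by
  unfold gam
  apply sum_eq_zero
  intro m hm
  rw [mem_filter, mem_filter] at hm
  exact absurd (Nat.Coprime.coprime_dvd_left hm.2 hm.1.2) hD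

/-- grouping by the reduced fractions -/
lemma group {q M : ℕ} (c : ℕ → ℂ) (G : ℝ → ℂ) :
    ∑ m ∈ (Icc 1 M).filter (fun m => m.Coprime q), c m * ((m : ℂ)⁻¹ * ∑ k ∈ range m, G ((k : ℝ) / m)) =
      ∑ D ∈ Icc 1 M, ∑ a ∈ (range D).filter (fun a => a.Coprime D), gam q M c D * G ((a : ℝ) / D) := by
  have e1 : ∀ m ∈ (Icc 1 M).filter (fun m => m.Coprime q), c m * ((m : ℂ)⁻¹ * ∑ k ∈ range m, G ((k : ℝ) / m)) =
      ∑ D ∈ Icc 1 M, if D ∣ m then c m / m * ∑ a ∈ (range D).filter (fun a => a.Coprime D), G ((a : ℝ) / D) else 0 := by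
    intro m hm
    rw [mem_filter, mem_Icc] at hm
    rw [frac_c hm.1.1, ← sum_filter, ← mul_sum]
    have e2 : (Icc 1 M).filter (fun D => D ∣ m) = m.divisors := by
      ext D
      rw [mem_filter, mem_Icc, Nat.mem_divisors]
      constructor
      · rintro ⟨_, h⟩
        exact ⟨h, by omega⟩
      · rintro ⟨h, _⟩
        have := Nat.le_of_dvd hm.1.1 h
        have := Nat.pos_of_dvd_of_pos h hm.1.1
        exact ⟨⟨by omega, by omega⟩, h⟩
    rw [e2]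
    ring
  rw [sum_congr rfl e1, sum_comm]
  refine sum_congr rfl fun D _ => ?_
  rw [← sum_filter, ← sum_mul, ← mul_sum]
  rfl

open Classical in
/-- sums of type I over short intervals -/
theorem tiw {q Y W M : ℕ} [NeZero q] (S : Finset (DirichletCharacter ℂ q)) (hS : (1 : DirichletCharacter ℂ q) ∉ S)
    (hM : 1 ≤ M) (c : ℕ → ℂ) {T : ℝ} (hT : 0 ≤ T) (hc : ∀ m ∈ Icc 1 M, ‖c m‖ ≤ T) :
    ∑ u ∈ Ico Y (2 * Y), ∑ χ ∈ S, ‖∑ m ∈ Icc 1 M, c m * ∑ n ∈ (Ioc u (u + W)).filter (fun n => m ∣ n),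
      χ (n : ZMod q)‖ ^ 2 ≤ 6 * (Y + (M : ℝ) ^ 2) * (T ^ 2 * (1 + Real.log M) ^ 3 * (q * W)) := by
  have hq : 0 < q := Nat.pos_of_ne_zero (NeZero.ne q)
  have hq0 : (0 : ℝ) < q := by exact_mod_cast hq
  have hlog : 0 ≤ Real.log M := Real.log_natCast_nonneg M
  obtain ⟨ℓ, hℓ⟩ : ∃ ℓ, ℓ = 1 + Real.log M := ⟨_, rfl⟩
  have hℓ0 : 0 ≤ ℓ := by rw [hℓ]; linarith
  -- from the characters to the additive characters
  have h1 : ∀ u ∈ Ico Y (2 * Y), ∑ χ ∈ S, ‖∑ m ∈ Icc 1 M, c m * ∑ n ∈ (Ioc u (u + W)).filter (fun n => m ∣ n),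
      χ (n : ZMod q)‖ ^ 2 ≤ ∑ j ∈ (range q).erase 0, ‖∑ m ∈ (Icc 1 M).filter (fun m => m.Coprime q),
        c m * ∑ n ∈ (Ioc u (u + W)).filter (fun n => m ∣ n), ee ((n : ℝ) * ((j : ℝ) / (q : ℕ)))‖ ^ 2 := by
    intro u _
    obtain ⟨s, hs⟩ : ∃ s : Finset (Σ _ : ℕ, ℕ), s = ((Icc 1 M).filter (fun m => m.Coprime q)).sigma
      (fun m => (Ioc u (u + W)).filter (fun n => m ∣ n)) := ⟨_, rfl⟩
    have h2 := Pool.Agent.R460.GH.dual s (fun x => c x.1) (fun x => x.2) S ((range q).erase 0) (Or.inr ⟨hS, rfl⟩)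
    have e1 : ∀ χ ∈ S, ‖∑ m ∈ Icc 1 M, c m * ∑ n ∈ (Ioc u (u + W)).filter (fun n => m ∣ n), χ (n : ZMod q)‖ ^ 2 =
        ‖∑ i ∈ s, c i.1 * χ ((i.2 : ℕ) : ZMod q)‖ ^ 2 := by
      intro χ _
      congr 2
      rw [hs, sum_sigma]
      have e2 : ∑ m ∈ (Icc 1 M).filter (fun m => m.Coprime q), ∑ n ∈ (Ioc u (u + W)).filter (fun n => m ∣ n),
          c m * χ (n : ZMod q) = ∑ m ∈ Icc 1 M, ∑ n ∈ (Ioc u (u + W)).filter (fun n => m ∣ n),
          c m * χ (n : ZMod q) := by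
        apply sum_subset (filter_subset _ _)
        intro m hm hm'
        rw [mem_filter] at hm'
        apply sum_eq_zero
        intro n hn
        rw [mem_filter] at hn
        have h3 : χ (n : ZMod q) = 0 := by
          apply MulChar.map_nonunit
          rw [ZMod.isUnit_iff_coprime]
          intro h
          exact hm' ⟨hm, Nat.Coprime.coprime_dvd_left hn.2 h⟩
        rw [h3, mul_zero]
      rw [e2]
      refine sum_congr rfl fun m _ => ?_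
      rw [mul_sum]
    rw [sum_congr rfl e1]
    refine h2.trans (le_of_eq ?_)
    refine sum_congr rfl fun j _ => ?_
    congr 2
    rw [hs, sum_sigma]
    refine sum_congr rfl fun m _ => ?_
    rw [mul_sum]
  refine (sum_le_sum h1).trans ?_
  rw [sum_comm]
  -- one additive character
  have h2 : ∀ j ∈ (range q).erase 0, ∑ u ∈ Ico Y (2 * Y), ‖∑ m ∈ (Icc 1 M).filter (fun m => m.Coprime q),
        c m * ∑ n ∈ (Ioc u (u + W)).filter (fun n => m ∣ n), ee ((n : ℝ) * ((j : ℝ) / (q : ℕ)))‖ ^ 2 ≤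
      6 * (Y + (M : ℝ) ^ 2) * ∑ D ∈ Icc 1 M, ∑ a ∈ (range D).filter (fun a => a.Coprime D),
        ‖gam q M c D‖ ^ 2 * ‖KW W ((j : ℝ) / q + (a : ℝ) / D)‖ ^ 2 := by
    intro j _
    obtain ⟨β, hβ⟩ : ∃ β : ℝ, β = (j : ℝ) / (q : ℕ) := ⟨_, rfl⟩
    rw [← hβ]
    have h3 := dual_ls Y M (fun D a => gam q M c D * (ee ((Y : ℝ) * (a / D)) * KW W (β + (a : ℝ) / D)))
    have e1 : ∑ u ∈ Ico Y (2 * Y), ‖∑ m ∈ (Icc 1 M).filter (fun m => m.Coprime q),
        c m * ∑ n ∈ (Ioc u (u + W)).filter (fun n => m ∣ n), ee ((n : ℝ) * β)‖ ^ 2 =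
        ∑ n ∈ Icc 1 Y, ‖∑ D ∈ Icc 1 M, ∑ a ∈ (range D).filter (fun a => a.Coprime D),
          gam q M c D * (ee ((Y : ℝ) * (a / D)) * KW W (β + (a : ℝ) / D)) * ee ((n : ℝ) * a / D)‖ ^ 2 := by
      refine sum_nbij' (fun u => u + 1 - Y) (fun n => n + Y - 1) ?_ ?_ ?_ ?_ ?_
      · intro u hu
        rw [mem_Ico] at hu
        rw [mem_Icc]
        omega
      · intro n hn
        rw [mem_Icc] at hn
        rw [mem_Ico]
        omega
      · intro u hu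
        rw [mem_Ico] at hu
        omega
      · intro n hn
        rw [mem_Icc] at hn
        omega
      · intro u hu
        rw [mem_Ico] at hu
        have e2 : ∑ m ∈ (Icc 1 M).filter (fun m => m.Coprime q),
            c m * ∑ n ∈ (Ioc u (u + W)).filter (fun n => m ∣ n), ee ((n : ℝ) * β) =
            ∑ m ∈ (Icc 1 M).filter (fun m => m.Coprime q), c m * ((m : ℂ)⁻¹ * ∑ k ∈ range m,
              (fun x : ℝ => ee (((u + 1 : ℕ) : ℝ) * (β + x)) * KW W (β + x)) ((k : ℝ) / m)) := by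
          refine sum_congr rfl fun m hm => ?_
          rw [mem_filter, mem_Icc] at hm
          rw [mult_exp hm.1.1]
        rw [e2, group c (fun x : ℝ => ee (((u + 1 : ℕ) : ℝ) * (β + x)) * KW W (β + x))]
        have e3 : ∑ D ∈ Icc 1 M, ∑ a ∈ (range D).filter (fun a => a.Coprime D), gam q M c D *
            (fun x : ℝ => ee (((u + 1 : ℕ) : ℝ) * (β + x)) * KW W (β + x)) ((a : ℝ) / D) =
            ee (((u + 1 : ℕ) : ℝ) * β) * ∑ D ∈ Icc 1 M, ∑ a ∈ (range D).filter (fun a => a.Coprime D),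
              gam q M c D * (ee ((Y : ℝ) * (a / D)) * KW W (β + (a : ℝ) / D)) * ee (((u + 1 - Y : ℕ) : ℝ) * a / D) := by
          rw [mul_sum]
          refine sum_congr rfl fun D _ => ?_
          rw [mul_sum]
          refine sum_congr rfl fun a _ => ?_
          have e4 : ee (((u + 1 : ℕ) : ℝ) * (β + (a : ℝ) / D)) = ee (((u + 1 : ℕ) : ℝ) * β) * (ee ((Y : ℝ) * (a / D)) *
              ee (((u + 1 - Y : ℕ) : ℝ) * a / D)) := by
            rw [← ee_add, ← ee_add]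
            congr 1
            rw [Nat.cast_sub (by omega)]
            ring
          simp only
          rw [e4]
          ring
        rw [e3, norm_mul, norm_ee, one_mul]
    rw [e1]
    refine h3.trans ?_
    apply mul_le_mul_of_nonneg_left _ (by positivity)
    refine sum_le_sum fun D _ => sum_le_sum fun a _ => ?_
    rw [norm_mul, norm_mul, norm_ee, one_mul, mul_pow, hβ]
  refine (sum_le_sum h2).trans ?_
  rw [← mul_sum]
  apply mul_le_mul_of_nonneg_left _ (by positivity)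
  rw [sum_comm]
  have h3 : ∀ D ∈ Icc 1 M, ∑ j ∈ (range q).erase 0, ∑ a ∈ (range D).filter (fun a => a.Coprime D),
      ‖gam q M c D‖ ^ 2 * ‖KW W ((j : ℝ) / q + (a : ℝ) / D)‖ ^ 2 ≤ T ^ 2 * ℓ ^ 2 * (q * W) * (1 / (D : ℝ)) := by
    intro D hD
    rw [mem_Icc] at hD
    have hD0 : (0 : ℝ) < D := by exact_mod_cast hD.1
    by_cases hcop : D.Coprime q
    · have h4 := pairs (q := q) (r := D) hq hD.1 hcop W
      have h5 : ∑ j ∈ (range q).erase 0, ∑ a ∈ (range D).filter (fun a => a.Coprime D),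
          ‖gam q M c D‖ ^ 2 * ‖KW W ((j : ℝ) / q + (a : ℝ) / D)‖ ^ 2 ≤
          ‖gam q M c D‖ ^ 2 * ∑ j ∈ (range q).erase 0, ∑ h ∈ range D, ‖KW W ((j : ℝ) / q + (h : ℝ) / D)‖ ^ 2 := by
        rw [mul_sum]
        refine sum_le_sum fun j _ => ?_
        rw [← mul_sum]
        apply mul_le_mul_of_nonneg_left _ (sq_nonneg _)
        exact sum_le_sum_of_subset_of_nonneg (filter_subset _ _) fun _ _ _ => sq_nonneg _
      refine h5.trans ?_
      have h6 := gam_le (q := q) hT hM hc hD.1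
      rw [← hℓ] at h6
      calc ‖gam q M c D‖ ^ 2 * ∑ j ∈ (range q).erase 0, ∑ h ∈ range D, ‖KW W ((j : ℝ) / q + (h : ℝ) / D)‖ ^ 2
          ≤ (T * ℓ / D) ^ 2 * ((D * q : ℝ) * W) := by
            apply mul_le_mul (pow_le_pow_left₀ (norm_nonneg _) h6 2) h4 _ (by positivity)
            exact sum_nonneg fun _ _ => sum_nonneg fun _ _ => sq_nonneg _
        _ = _ := by
            field_simp
    · rw [gam_zero hcop]
      simp only [norm_zero]
      norm_num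
      positivity
  refine (sum_le_sum h3).trans ?_
  rw [← mul_sum]
  have h4 := Pool.Agent.R460.GH.harm M hM
  rw [← hℓ] at h4 ⊢
  calc T ^ 2 * ℓ ^ 2 * (q * W) * ∑ D ∈ Icc 1 M, 1 / (D : ℝ) ≤ T ^ 2 * ℓ ^ 2 * (q * W) * ℓ := by gcongr
    _ = _ := by ring

end Pool.Agent.H567.HW.TI
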