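import Pool.Agent.H567.HW.Inst

/-!
Project HW (helper567), part 31: passage to real `x` and integral residues.
-/

set_option autoImplicit false

namespace Pool.Agent.H567.HW

open Finset Filter
open Pool.Agent.Y614.GJ.Core (ev_log)

/-- the exceptional set of a property in a residue class -/
def excset (F : ℕ → ℕ → Prop) (x : ℝ) (q : ℕ) (a : ℤ) : Set ℕ :=
  {n : ℕ | 0 < n ∧ (n : ℝ) ≤ x ∧ 2 ∣ n ∧ (n : ℤ) ≡ a [ZMOD q] ∧ ¬ F q n}

/-- from natural `x` and natural residues to real `x` and integral residues -/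
theorem transfer (F : ℕ → ℕ → Prop) (hF : ∀ A T : ℕ, ∃ x₀ : ℕ, ∀ x : ℕ, x₀ ≤ x → ∀ q : ℕ, 1 ≤ q → ∀ a : ℕ,
    (Nat.gcd a q : ℝ) ≤ Real.log x ^ T → ∃ Bad : Finset ℕ, (Bad.card : ℝ) ≤ x / (q * Real.log x ^ A) ∧
      ∀ n : ℕ, n ≤ x → n ∉ Bad → n % q = a % q → 2 ∣ n → F q n) (A T : ℕ) :
    ∃ x₀ : ℝ, ∀ x : ℝ, x₀ ≤ x → ∀ q : ℕ, 1 ≤ q → ∀ a : ℤ, (Int.gcd a q : ℝ) ≤ Real.log x ^ T →
      (excset F x q a).Finite ∧ ((excset F x q a).ncard : ℝ) ≤ x / (q * Real.log x ^ A) := by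
  obtain ⟨x₁, h₁⟩ := hF (A + 1) (2 * T)
  refine ⟨max (x₁ + 1) (Real.exp (2 ^ (A + 4))), fun x hx q hq a hgcd => ?_⟩
  have hx1 : (x₁ : ℝ) + 1 ≤ x := (le_max_left _ _).trans hx
  have hxe : Real.exp (2 ^ (A + 4)) ≤ x := (le_max_right _ _).trans hx
  have hx0 : 0 < x := lt_of_lt_of_le (Real.exp_pos _) hxe
  have hl16 : (2 : ℝ) ^ (A + 4) ≤ Real.log x := (Real.le_log_iff_exp_le hx0).2 hxe
  have h2A : (1 : ℝ) ≤ 2 ^ A := one_le_pow₀ (by norm_num)
  have hl : 16 ≤ Real.log x := by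
    have : (2 : ℝ) ^ (A + 4) = 2 ^ A * 16 := by rw [pow_add]; norm_num
    linarith
  obtain ⟨N, hN⟩ : ∃ N, N = ⌊x⌋₊ := ⟨_, rfl⟩
  have hNx : (N : ℝ) ≤ x := by rw [hN]; exact Nat.floor_le hx0.le
  have hxN : x < N + 1 := by rw [hN]; exact Nat.lt_floor_add_one x
  have hxN1 : x₁ ≤ N := by
    rw [hN]
    apply Nat.le_floor
    linarith
  have hx16 : 16 ≤ x := hl.trans ((Real.log_le_sub_one_of_pos hx0).trans (by linarith))
  have hN0 : (0 : ℝ) < N := by linarith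
  have hNhalf : x / 2 ≤ N := by linarith
  have hlN : Real.log x - 1 ≤ Real.log N := by
    have h1 := Real.log_le_log (by positivity) hNhalf
    rw [Real.log_div hx0.ne' (by norm_num)] at h1
    have := Real.log_two_lt_d9
    linarith
  have hlN2 : Real.log x / 2 ≤ Real.log N := by linarith
  have hlN0 : 0 < Real.log N := by linarith
  obtain ⟨b, hb⟩ : ∃ b : ℕ, (b : ℤ) = a % q := ⟨(a % q).toNat, Int.toNat_of_nonneg (Int.emod_nonneg _ (by omega))⟩
  have hq0 : (0 : ℝ) < q := by exact_mod_cast hq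
  have hbg : Nat.gcd b q = Int.gcd a q := by
    have h1 : Int.gcd (b : ℤ) q = Nat.gcd b q := Int.gcd_natCast_natCast b q
    rw [← h1, hb]
    exact Int.gcd_emod a q
  have hgcd' : (Nat.gcd b q : ℝ) ≤ Real.log N ^ (2 * T) := by
    rw [hbg]
    refine hgcd.trans ?_
    rw [pow_mul]
    apply pow_le_pow_left₀ (by linarith)
    have h1 : (Real.log x / 2) ^ 2 ≤ Real.log N ^ 2 := pow_le_pow_left₀ (by linarith) hlN2 2
    nlinarith
  obtain ⟨Bad, hb1, hb2⟩ := h₁ N hxN1 q hq b hgcd'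
  have hsub : excset F x q a ⊆ (Bad : Set ℕ) := by
    intro n hn
    obtain ⟨_, h2, h3, h4, h5⟩ := hn
    by_contra hcon
    apply h5
    apply hb2 n _ (by simpa using hcon) _ h3
    · rw [hN]
      exact Nat.le_floor h2
    · have h6 : (n : ℤ) % q = a % q := h4
      have h7 : ((n % q : ℕ) : ℤ) = ((b % q : ℕ) : ℤ) := by
        rw [Int.natCast_mod, Int.natCast_mod, h6, hb, Int.emod_emod_of_dvd _ dvd_rfl]
      exact_mod_cast h7
  refine ⟨Set.Finite.subset (Finset.finite_toSet Bad) hsub, ?_⟩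
  have h1 : (excset F x q a).ncard ≤ Bad.card := by
    have := Set.ncard_le_ncard hsub (Finset.finite_toSet Bad)
    rwa [Set.ncard_coe_finset] at this
  have h2 : ((excset F x q a).ncard : ℝ) ≤ Bad.card := by exact_mod_cast h1
  refine h2.trans (hb1.trans ?_)
  have h3 : Real.log x ^ A ≤ Real.log N ^ (A + 1) := by
    calc Real.log x ^ A = 2 ^ A * (Real.log x / 2) ^ A := by rw [div_pow]; field_simp
      _ ≤ Real.log N * Real.log N ^ A := by
        have e1 : (2 : ℝ) ^ A ≤ Real.log N := by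
          have : (2 : ℝ) ^ (A + 4) = 2 ^ A * 16 := by rw [pow_add]; norm_num
          linarith
        have e2 : (Real.log x / 2) ^ A ≤ Real.log N ^ A := pow_le_pow_left₀ (by linarith) hlN2 A
        gcongr
      _ = Real.log N ^ (A + 1) := by ring
  have h4 : 0 < Real.log x ^ A := by positivity
  calc (N : ℝ) / (q * Real.log N ^ (A + 1)) ≤ x / (q * Real.log N ^ (A + 1)) := by gcongr
    _ ≤ x / (q * Real.log x ^ A) := by
      apply div_le_div_of_nonneg_left hx0.le (by positivity)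
      gcongr

/-- the formula with a saving of a power of the logarithm -/
def FormW (ρ : ℝ) (W q n : ℕ) : Prop :=
  ∀ U V : ℕ, U ≤ V → (q : ℝ) * (n : ℝ) ^ (1 / 3 + ρ) ≤ V → 2 * V ≤ n →
    |(wc n U V : ℝ) - SS n * ∑ b ∈ Ioc U V, wt n b| ≤ V / Real.log n ^ W

lemma formW_of {ρ : ℝ} {A W q n : ℕ} (hW : W ≤ A) (h : FormW ρ A q n) : FormW ρ W q n := by
  intro U V hUV hV h2V
  rcases Nat.lt_or_ge V 2 with hV2 | hV2
  · have h1 : wc n U V = 0 := by
      unfold wc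
      rw [card_eq_zero, filter_eq_empty_iff]
      intro p hp hp2
      rw [mem_Ioc] at hp
      have := hp2.1.two_le
      omega
    have h2 : ∑ b ∈ Ioc U V, wt n b = 0 := by
      apply sum_eq_zero
      intro b hb
      rw [mem_Ioc] at hb
      have : b = 1 := by omega
      rw [this, wt_one]
    rw [h1, h2]
    simp
    positivity
  · refine (h U V hUV hV h2V).trans ?_
    have hn4 : (4 : ℝ) ≤ n := by
      have : 4 ≤ n := by omega
      exact_mod_cast this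
    have hl : 1 ≤ Real.log n := by
      rw [Real.le_log_iff_exp_le (by linarith)]
      have := Real.exp_one_lt_d9
      linarith
    apply div_le_div_of_nonneg_left (Nat.cast_nonneg _) (by positivity)
    exact pow_le_pow_right₀ hl hW

theorem classFormW {ρ : ℝ} (hρ : 0 < ρ) (W A T : ℕ) :
    ∃ x₀ : ℝ, ∀ x : ℝ, x₀ ≤ x → ∀ q : ℕ, 1 ≤ q → ∀ a : ℤ, (Int.gcd a q : ℝ) ≤ Real.log x ^ T →
      (excset (FormW ρ W) x q a).Finite ∧ ((excset (FormW ρ W) x q a).ncard : ℝ) ≤ x / (q * Real.log x ^ A) := by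
  refine transfer (FormW ρ W) (fun A T => ?_) A T
  obtain ⟨x₁, h₁⟩ := scaleAll (max A W) T hρ
  refine ⟨max x₁ 3, fun x hx q hq a hgcd => ?_⟩
  obtain ⟨Bad, hb1, hb2⟩ := h₁ x ((le_max_left _ _).trans hx) q hq a hgcd
  have hx3 : (3 : ℝ) ≤ x := by exact_mod_cast (le_max_right _ _).trans hx
  have hl : 1 ≤ Real.log x := by
    rw [Real.le_log_iff_exp_le (by linarith)]
    have := Real.exp_one_lt_d9
    linarith
  have hq0 : (0 : ℝ) < q := by exact_mod_cast hq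
  refine ⟨Bad, hb1.trans ?_, fun n h1 h2 h3 h4 => formW_of (le_max_right A W) (hb2 n h1 h2 h3 h4)⟩
  apply div_le_div_of_nonneg_left (by linarith) (by positivity)
  have : Real.log x ^ A ≤ Real.log x ^ (max A W) := pow_le_pow_right₀ hl (le_max_left _ _)
  gcongr

/-- the relative formula -/
def FormR (ε ρ : ℝ) (W q n : ℕ) : Prop :=
  ∀ U V : ℕ, U ≤ V → (q : ℝ) * (n : ℝ) ^ (1 / 3 + ρ) ≤ V → 2 * V ≤ n → 0 < V →
    (V : ℝ) / Real.log n ^ W ≤ (V : ℝ) - U →
    |(wc n U V : ℝ) - SS n * (((V : ℝ) - U) / (Real.log V * Real.log n))| ≤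
      ε * (SS n * (((V : ℝ) - U) / (Real.log V * Real.log n)))

theorem classFormR {ρ ε : ℝ} (hρ : 0 < ρ) (hε : 0 < ε) (W A T : ℕ) :
    ∃ x₀ : ℝ, ∀ x : ℝ, x₀ ≤ x → ∀ q : ℕ, 1 ≤ q → ∀ a : ℤ, (Int.gcd a q : ℝ) ≤ Real.log x ^ T →
      (excset (FormR ε ρ W) x q a).Finite ∧ ((excset (FormR ε ρ W) x q a).ncard : ℝ) ≤ x / (q * Real.log x ^ A) :=
  transfer (FormR ε ρ W) (fun A T => relAll A T W hρ hε) A T

end Pool.Agent.H567.HW
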