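import Pool.Agent.H567.HW.Win2

/-!
Project HW (helper567), part 5: the vector of the sums over all intervals `(u, u + W]`, `Y ≤ u < 2 Y`, and all characters.
-/

set_option autoImplicit false

namespace Pool.Agent.H567.HW

open Finset

open Classical in
/-- the vector of the values `χ(n)`, `χ ∈ S`, for all windows which contain `n` -/
noncomputable def evw {q : ℕ} [NeZero q] (S : Finset (DirichletCharacter ℂ q)) (Y W n : ℕ) :
    EuclideanSpace ℂ (DirichletCharacter ℂ q × Fin Y) :=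
  WithLp.toLp 2 (fun p => if p.1 ∈ S ∧ Y + (p.2 : ℕ) < n ∧ n ≤ Y + (p.2 : ℕ) + W then p.1 (n : ZMod q) else 0)

open Classical in
lemma evw_apply {q : ℕ} [NeZero q] (S : Finset (DirichletCharacter ℂ q)) (Y W n : ℕ)
    (p : DirichletCharacter ℂ q × Fin Y) :
    (evw S Y W n) p = if p.1 ∈ S ∧ Y + (p.2 : ℕ) < n ∧ n ≤ Y + (p.2 : ℕ) + W then p.1 (n : ZMod q) else 0 := rfl

open Classical in
/-- the norm of a sum of vectors -/
lemma norm_evw {q : ℕ} [NeZero q] (S : Finset (DirichletCharacter ℂ q)) (Y W : ℕ) {ι : Type*} (s : Finset ι)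
    (c : ι → ℂ) (f : ι → ℕ) :
    ‖∑ i ∈ s, (c i) • evw S Y W (f i)‖ ^ 2 =
      ∑ u ∈ Ico Y (2 * Y), ∑ χ ∈ S, ‖∑ i ∈ s.filter (fun i => u < f i ∧ f i ≤ u + W), c i * χ (f i : ZMod q)‖ ^ 2 := by
  rw [EuclideanSpace.norm_sq_eq]
  have h1 : ∀ p : DirichletCharacter ℂ q × Fin Y, (∑ i ∈ s, (c i) • evw S Y W (f i)) p =
      if p.1 ∈ S then ∑ i ∈ s.filter (fun i => Y + (p.2 : ℕ) < f i ∧ f i ≤ Y + (p.2 : ℕ) + W),
        c i * p.1 (f i : ZMod q) else 0 := by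
    intro p
    have h2 : (∑ i ∈ s, (c i) • evw S Y W (f i)) p = ∑ i ∈ s, c i * (evw S Y W (f i)) p := by
      simp
    rw [h2]
    by_cases h : p.1 ∈ S
    · rw [if_pos h, sum_filter]
      refine sum_congr rfl fun i _ => ?_
      rw [evw_apply]
      by_cases h3 : Y + (p.2 : ℕ) < f i ∧ f i ≤ Y + (p.2 : ℕ) + W
      · rw [if_pos ⟨h, h3⟩, if_pos h3]
      · rw [if_neg (fun h4 => h3 h4.2), if_neg h3, mul_zero]
    · rw [if_neg h]
      refine sum_eq_zero fun i _ => ?_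
      rw [evw_apply, if_neg (fun h4 => h h4.1), mul_zero]
  simp only [h1]
  rw [Fintype.sum_prod_type_right]
  have h3 : ∀ u : Fin Y, ∑ χ : DirichletCharacter ℂ q, ‖(if χ ∈ S then
      ∑ i ∈ s.filter (fun i => Y + (u : ℕ) < f i ∧ f i ≤ Y + (u : ℕ) + W), c i * χ (f i : ZMod q) else 0)‖ ^ 2 =
      ∑ χ ∈ S, ‖∑ i ∈ s.filter (fun i => Y + (u : ℕ) < f i ∧ f i ≤ Y + (u : ℕ) + W), c i * χ (f i : ZMod q)‖ ^ 2 := by
    intro u
    have h5 : univ.filter (fun χ : DirichletCharacter ℂ q => χ ∈ S) = S := by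
      ext χ
      simp
    rw [← sum_filter_add_sum_filter_not univ (fun χ => χ ∈ S), h5]
    have h4 : ∑ χ ∈ univ.filter (fun χ : DirichletCharacter ℂ q => ¬ χ ∈ S),
        ‖(if χ ∈ S then ∑ i ∈ s.filter (fun i => Y + (u : ℕ) < f i ∧ f i ≤ Y + (u : ℕ) + W),
          c i * χ (f i : ZMod q) else 0)‖ ^ 2 = 0 := by
      refine sum_eq_zero fun χ hχ => ?_
      rw [if_neg (mem_filter.1 hχ).2, norm_zero, zero_pow two_ne_zero]
    rw [h4, add_zero]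
    refine sum_congr rfl fun χ hχ => ?_
    rw [if_pos hχ]
  simp only [h3]
  rw [Fin.sum_univ_eq_sum_range (fun u => ∑ χ ∈ S, ‖∑ i ∈ s.filter (fun i => Y + u < f i ∧ f i ≤ Y + u + W),
    c i * χ (f i : ZMod q)‖ ^ 2) Y]
  rw [Finset.sum_Ico_eq_sum_range]
  have h6 : 2 * Y - Y = Y := by omega
  rw [h6]

/-- the trivial bound -/
lemma l2w {q : ℕ} [NeZero q] (S : Finset (DirichletCharacter ℂ q)) {Y W : ℕ} (hqW : q ≤ W) (s : Finset ℕ)
    (w : ℕ → ℂ) : ‖∑ n ∈ s, (w n) • evw S Y W n‖ ^ 2 ≤ 2 * (W : ℝ) ^ 2 * ∑ n ∈ s, ‖w n‖ ^ 2 := by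
  classical
  rw [norm_evw S Y W s w (fun n => n)]
  have hqWr : (q : ℝ) ≤ W := by exact_mod_cast hqW
  have h1 : ∀ u ∈ Ico Y (2 * Y), ∑ χ ∈ S, ‖∑ n ∈ s.filter (fun n => u < n ∧ n ≤ u + W), w n * χ (n : ZMod q)‖ ^ 2 ≤
      (2 * (W : ℝ)) * ∑ n ∈ s.filter (fun n => u < n ∧ n ≤ u + W), ‖w n‖ ^ 2 := by
    intro u _
    refine (sum_le_sum_of_subset_of_nonneg (subset_univ S) fun _ _ _ => sq_nonneg _).trans ?_
    refine (l2_s (s.filter (fun n => u < n ∧ n ≤ u + W)) w u W (by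
      intro n hn
      rw [mem_filter] at hn
      rw [mem_Ioc]
      exact hn.2)).trans ?_
    apply mul_le_mul_of_nonneg_right (by linarith)
    exact sum_nonneg fun _ _ => sq_nonneg _
  refine (sum_le_sum h1).trans ?_
  rw [← mul_sum]
  have h2 := mult_le (ι := Ico Y (2 * Y)) s (fun n => ‖w n‖ ^ 2) (fun _ => sq_nonneg _) W (fun u => u) (fun n => by
    have h1 : (Ico Y (2 * Y)).filter (fun u => u < n ∧ n ≤ u + W) ⊆ Ico (n - W) n := by
      intro u hu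
      rw [mem_filter] at hu
      rw [mem_Ico]
      omega
    refine (card_le_card h1).trans ?_
    rw [Nat.card_Ico]
    omega)
  calc 2 * (W : ℝ) * ∑ u ∈ Ico Y (2 * Y), ∑ n ∈ s.filter (fun n => u < n ∧ n ≤ u + W), ‖w n‖ ^ 2
      ≤ 2 * W * (W * ∑ n ∈ s, ‖w n‖ ^ 2) := mul_le_mul_of_nonneg_left h2 (by positivity)
    _ = _ := by ring

/-- outside the range -/
lemma evw_out {q : ℕ} [NeZero q] (S : Finset (DirichletCharacter ℂ q)) {Y W n : ℕ} (h : n ≤ Y ∨ 2 * Y + W ≤ n) :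
    evw S Y W n = 0 := by
  ext p
  rw [evw_apply, if_neg]
  · rfl
  · rintro ⟨-, h1, h2⟩
    have := p.2.isLt
    omega

end Pool.Agent.H567.HW
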