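import Pool.Agent.H567.HW.WBase
import Pool.Graph.R_seed8.TH935.LP.L1

/-!
Project HW (helper567), part 8: bilinear sums over short intervals: convolutions, powers, one pair of dyadic intervals.
-/

set_option autoImplicit false

namespace Pool.Agent.H567.HW

open Finset
open Pool.Agent.H376R2.MR (ch DP FK)

/-- the number of the divisors -/
noncomputable def dn (n : ℕ) : ℝ := (n.divisors.card : ℝ)

lemma dn_nonneg (n : ℕ) : 0 ≤ dn n := Nat.cast_nonneg _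

lemma dn_mono {m n : ℕ} (hn : n ≠ 0) (h : m ∣ n) : dn m ≤ dn n := by
  unfold dn
  exact_mod_cast card_le_card (Nat.divisors_subset_of_dvd hn h)

/-- convolution over finite sets -/
noncomputable def cvg (s t : Finset ℕ) (u v : ℕ → ℂ) (n : ℕ) : ℂ :=
  ∑ p ∈ (s ×ˢ t).filter (fun p : ℕ × ℕ => p.1 * p.2 = n), u p.1 * v p.2

lemma cvg_smul {V : Type*} [AddCommGroup V] [Module ℂ V] (s t r : Finset ℕ)
    (hr : ∀ m ∈ s, ∀ k ∈ t, m * k ∈ r) (u v : ℕ → ℂ) (E : ℕ → V) :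
    ∑ n ∈ r, cvg s t u v n • E n = ∑ m ∈ s, ∑ k ∈ t, (u m * v k) • E (m * k) := by
  rw [← sum_product' s t (fun m k => (u m * v k) • E (m * k))]
  rw [← sum_fiberwise_of_maps_to (s := s ×ˢ t) (t := r) (g := fun p : ℕ × ℕ => p.1 * p.2)]
  · refine sum_congr rfl fun n _ => ?_
    unfold cvg
    rw [sum_smul]
    refine sum_congr rfl fun p hp => ?_
    rw [mem_filter] at hp
    rw [hp.2]
  · intro p hp
    rw [mem_product] at hp
    exact hr _ hp.1 _ hp.2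

lemma cvg_bound (s t : Finset ℕ) (i j : ℕ) (u v : ℕ → ℂ) {α β : ℝ} (hα : 0 ≤ α) (hβ : 0 ≤ β)
    (_ht : ∀ k ∈ t, 1 ≤ k) (hu : ∀ m ∈ s, ‖u m‖ ≤ α * dn m ^ i) (hv : ∀ m ∈ t, ‖v m‖ ≤ β * dn m ^ j) {n : ℕ} (hn : 1 ≤ n) :
    ‖cvg s t u v n‖ ≤ α * β * dn n ^ (i + j + 1) := by
  have hn0 : n ≠ 0 := by omega
  have h1 : ∀ p ∈ (s ×ˢ t).filter (fun p : ℕ × ℕ => p.1 * p.2 = n),
      ‖u p.1 * v p.2‖ ≤ α * β * dn n ^ (i + j) := by
    intro p hp
    rw [mem_filter, mem_product] at hp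
    obtain ⟨⟨hp1, hp2⟩, hpn⟩ := hp
    rw [norm_mul]
    have e1 : dn p.1 ≤ dn n := dn_mono hn0 ⟨p.2, hpn.symm⟩
    have e2 : dn p.2 ≤ dn n := dn_mono hn0 ⟨p.1, by rw [← hpn, mul_comm]⟩
    have d0 := dn_nonneg p.1
    have d1 := dn_nonneg p.2
    have d2 := dn_nonneg n
    calc ‖u p.1‖ * ‖v p.2‖ ≤ (α * dn n ^ i) * (β * dn n ^ j) := by
          refine mul_le_mul ((hu _ hp1).trans ?_) ((hv _ hp2).trans ?_) (norm_nonneg _) (by positivity)
          · exact mul_le_mul_of_nonneg_left (pow_le_pow_left₀ d0 e1 _) hα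
          · exact mul_le_mul_of_nonneg_left (pow_le_pow_left₀ d1 e2 _) hβ
      _ = α * β * dn n ^ (i + j) := by rw [pow_add]; ring
  have h2 : (((s ×ˢ t).filter (fun p : ℕ × ℕ => p.1 * p.2 = n)).card : ℝ) ≤ dn n := by
    have : ((s ×ˢ t).filter (fun p : ℕ × ℕ => p.1 * p.2 = n)).card ≤ n.divisors.card := by
      refine card_le_card_of_injOn Prod.fst ?_ ?_
      · intro p hp
        have hp' := Finset.mem_filter.mp (Finset.mem_coe.mp hp)
        exact Finset.mem_coe.mpr (Nat.mem_divisors.mpr ⟨⟨p.2, hp'.2.symm⟩, hn0⟩)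
      · intro p hp p' hp' hpp
        have h1 := Finset.mem_filter.mp (Finset.mem_coe.mp hp)
        have h2 := Finset.mem_filter.mp (Finset.mem_coe.mp hp')
        have h3 := h1.2
        have h4 := h2.2
        have h5 : p.1 ≠ 0 := fun h => hn0 (by rw [← h3, h, zero_mul])
        refine Prod.ext hpp ?_
        have : p.1 * p.2 = p.1 * p'.2 := by rw [h3, ← h4, hpp]
        exact Nat.eq_of_mul_eq_mul_left (by omega) this
    unfold dn
    exact_mod_cast this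
  have d2 := dn_nonneg n
  calc ‖cvg s t u v n‖ ≤ ∑ p ∈ (s ×ˢ t).filter (fun p : ℕ × ℕ => p.1 * p.2 = n), ‖u p.1 * v p.2‖ := norm_sum_le _ _
    _ ≤ ∑ p ∈ (s ×ˢ t).filter (fun p : ℕ × ℕ => p.1 * p.2 = n), α * β * dn n ^ (i + j) := sum_le_sum h1
    _ = (((s ×ˢ t).filter (fun p : ℕ × ℕ => p.1 * p.2 = n)).card : ℝ) * (α * β * dn n ^ (i + j)) := by
          rw [sum_const, nsmul_eq_mul]
    _ ≤ dn n * (α * β * dn n ^ (i + j)) := mul_le_mul_of_nonneg_right h2 (by positivity)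
    _ = _ := by rw [pow_succ]; ring

/-- the cell `[M, 2 M)` -/
abbrev cI (M : ℕ) : Finset ℕ := Ico M (2 * M)

lemma power_w (X : ℕ) (hX : 1 ≤ X) (a : ℕ → ℂ) {ℓ : ℝ} (hℓ : 0 ≤ ℓ)
    (ha : ∀ m ∈ cI X, ‖a m‖ ≤ ℓ * dn m) (g : ℕ) :
    ∃ w : ℕ → ℂ, (∀ n ∈ Icc (X ^ (g + 1)) (2 ^ (g + 1) * X ^ (g + 1)), ‖w n‖ ≤ ℓ ^ (g + 1) * dn n ^ (2 * g + 1)) ∧
      ∀ f : ℕ → ℂ, (∀ m n, 1 ≤ m → 1 ≤ n → f (m * n) = f m * f n) → (∑ m ∈ cI X, a m * f m) ^ (g + 1) =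
        ∑ n ∈ Icc (X ^ (g + 1)) (2 ^ (g + 1) * X ^ (g + 1)), w n * f n := by
  induction g with
  | zero =>
    refine ⟨fun n => if n ∈ cI X then a n else 0, ?_, ?_⟩
    · intro n _
      have := dn_nonneg n
      simp only [zero_add, pow_one, mul_zero]
      split_ifs with h
      · exact ha n h
      · rw [norm_zero]; positivity
    · intro f _
      simp only [zero_add, pow_one]
      have h1 : cI X ⊆ Icc X (2 * X) := by
        intro n hn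
        rw [mem_Ico] at hn
        rw [mem_Icc]
        omega
      rw [← sum_subset h1]
      · refine sum_congr rfl fun n hn => ?_
        rw [if_pos hn]
      · intro n _ hn
        rw [if_neg hn, zero_mul]
  | succ g ih =>
    obtain ⟨w, hw, hw2⟩ := ih
    obtain ⟨s, hs⟩ : ∃ s, s = Icc (X ^ (g + 1)) (2 ^ (g + 1) * X ^ (g + 1)) := ⟨_, rfl⟩
    rw [← hs] at hw
    simp only [← hs] at hw2
    refine ⟨cvg s (cI X) w a, ?_, ?_⟩
    · intro n hn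
      rw [mem_Icc] at hn
      have hn1 : 1 ≤ n := le_trans (Nat.one_le_pow _ _ hX) hn.1
      have := cvg_bound s (cI X) (2 * g + 1) 1 w a (α := ℓ ^ (g + 1)) (β := ℓ) (by positivity) hℓ
        (fun k hk => by rw [mem_Ico] at hk; omega) hw (by simpa using ha) hn1
      calc ‖cvg s (cI X) w a n‖ ≤ _ := this
        _ = _ := by rw [← pow_succ, show 2 * g + 1 + 1 + 1 = 2 * (g + 1) + 1 by ring]
    · intro f hf
      rw [pow_succ, hw2 f hf]
      have h1 := cvg_smul s (cI X) (Icc (X ^ (g + 1 + 1)) (2 ^ (g + 1 + 1) * X ^ (g + 1 + 1))) (by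
        intro m hm k hk
        rw [hs, mem_Icc] at hm
        rw [mem_Ico] at hk
        rw [mem_Icc]
        constructor
        · rw [pow_succ]
          exact Nat.mul_le_mul hm.1 hk.1
        · calc m * k ≤ (2 ^ (g + 1) * X ^ (g + 1)) * (2 * X) := Nat.mul_le_mul hm.2 hk.2.le
            _ = _ := by ring) w a f
      simp only [smul_eq_mul] at h1
      rw [h1, sum_mul_sum]
      refine sum_congr rfl fun m hm => sum_congr rfl fun k hk => ?_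
      rw [hs, mem_Icc] at hm
      rw [mem_Ico] at hk
      rw [hf m k (le_trans (Nat.one_le_pow _ _ hX) hm.1) (by omega)]
      ring

lemma ch_mul (k : ℤ) {m n : ℕ} (hm : 1 ≤ m) (hn : 1 ≤ n) :
    ch k (Real.log ((m * n : ℕ) : ℝ)) = ch k (Real.log m) * ch k (Real.log n) := by
  have hm0 : (m : ℝ) ≠ 0 := by
    have : m ≠ 0 := by omega
    exact_mod_cast this
  have hn0 : (n : ℝ) ≠ 0 := by
    have : n ≠ 0 := by omega
    exact_mod_cast this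
  rw [Nat.cast_mul, Real.log_mul hm0 hn0]
  unfold ch
  rw [← Complex.exp_add]
  congr 1
  push_cast
  ring

/-- the twist -/
noncomputable def tw {q : ℕ} (χ : DirichletCharacter ℂ q) (k : ℤ) (n : ℕ) : ℂ := χ (n : ZMod q) * ch k (Real.log n)

lemma tw_mul {q : ℕ} (χ : DirichletCharacter ℂ q) (k : ℤ) (m n : ℕ) (hm : 1 ≤ m) (hn : 1 ≤ n) :
    tw χ k (m * n) = tw χ k m * tw χ k n := by
  unfold tw
  rw [ch_mul k hm hn, Nat.cast_mul, map_mul]
  ring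

/-- the sum over one cell -/
noncomputable def cs1 {q : ℕ} (M : ℕ) (a : ℕ → ℂ) (χ : DirichletCharacter ℂ q) (k : ℤ) : ℂ :=
  ∑ m ∈ cI M, a m * tw χ k m

lemma cs1_DP {q : ℕ} (M : ℕ) (a : ℕ → ℂ) (χ : DirichletCharacter ℂ q) (k : ℤ) :
    cs1 M a χ k = DP (cI M) (fun n => a n * χ (n : ZMod q)) k := by
  unfold cs1 DP tw
  refine sum_congr rfl fun n _ => ?_
  ring

/-- powers of sums and mean values -/
lemma sum_dn (Z p : ℕ) {s : Finset ℕ} (hs : s ⊆ Icc 1 Z) : ∑ n ∈ s, dn n ^ p ≤ Z * (1 + Real.log Z) ^ (2 ^ p) := by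
  refine le_trans (sum_le_sum_of_subset_of_nonneg hs fun n _ _ => ?_) (Pool.Agent.TH935.LD.tau_pow_sum p Z)
  have := dn_nonneg n
  positivity

open Classical in
/-- few characters have a large sum -/
lemma count_w (g : ℕ) : ∃ (C : ℝ) (c : ℕ), 1 ≤ C ∧ ∀ (q K X : ℕ) [NeZero q] (a : ℕ → ℂ) (ℓ T : ℝ), 1 ≤ K → 1 ≤ X →
    1 + Real.log ((2 * X : ℕ) : ℝ) ≤ ℓ → 0 < T → (∀ m ∈ cI X, ‖a m‖ ≤ ℓ * dn m) →
    ((univ.filter (fun χ : DirichletCharacter ℂ q => ∃ k ∈ FK K, T < ‖cs1 X a χ k‖)).card : ℝ) * T ^ (2 * (g + 1)) ≤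
      C * (((X : ℝ) ^ (g + 1) + q * K) * X ^ (g + 1) * ℓ ^ c) := by
  obtain ⟨k0, hk0⟩ : ∃ k0 : ℕ, k0 = 2 ^ (2 * (2 * g + 1)) := ⟨_, rfl⟩
  have hc := c0_pos
  refine ⟨((g + 1 : ℕ) + 1) * (4 * c0 * 2 ^ (g + 1)) * (2 ^ (g + 1) * ((g + 1 : ℕ) : ℝ) ^ k0) + 1, 2 * (g + 1) + k0,
    le_add_of_nonneg_left (by positivity), ?_⟩
  intro q K X _ a ℓ T hK hX hℓ hT ha
  have hX2 : 1 ≤ 2 * X := by omega
  have hlog : 0 ≤ Real.log ((2 * X : ℕ) : ℝ) := Real.log_natCast_nonneg _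
  have hℓ1 : 1 ≤ ℓ := by linarith
  have hℓ0 : 0 ≤ ℓ := by linarith
  have hg1 : (1 : ℝ) ≤ ((g + 1 : ℕ) : ℝ) := by exact_mod_cast Nat.succ_pos g
  have hX0 : (1 : ℝ) ≤ X := by exact_mod_cast hX
  obtain ⟨S, hSd⟩ : ∃ S : Finset (DirichletCharacter ℂ q), S = univ.filter (fun χ : DirichletCharacter ℂ q =>
      ∃ k ∈ FK K, T < ‖cs1 X a χ k‖) := ⟨_, rfl⟩
  rw [← hSd]
  obtain ⟨w, hw, hw2⟩ := power_w X hX a hℓ0 ha g
  obtain ⟨s, hs⟩ : ∃ s, s = Icc (X ^ (g + 1)) (2 ^ (g + 1) * X ^ (g + 1)) := ⟨_, rfl⟩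
  rw [← hs] at hw
  simp only [← hs] at hw2
  have h1 : (S.card : ℝ) * T ^ (2 * (g + 1)) ≤
      ∑ χ : DirichletCharacter ℂ q, ∑ k ∈ FK K, ‖DP s (fun n => w n * χ (n : ZMod q)) k‖ ^ 2 := by
    calc (S.card : ℝ) * T ^ (2 * (g + 1)) = ∑ χ ∈ S, T ^ (2 * (g + 1)) := by rw [sum_const, nsmul_eq_mul]
      _ ≤ ∑ χ ∈ S, ∑ k ∈ FK K, ‖DP s (fun n => w n * χ (n : ZMod q)) k‖ ^ 2 := by
          refine sum_le_sum fun χ hχ => ?_
          rw [hSd, mem_filter] at hχ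
          obtain ⟨-, k, hk, hk2⟩ := hχ
          have e1 : DP s (fun n => w n * χ (n : ZMod q)) k = (cs1 X a χ k) ^ (g + 1) := by
            unfold cs1
            rw [hw2 (tw χ k) (tw_mul χ k)]
            unfold DP tw
            refine sum_congr rfl fun n _ => ?_
            ring
          have e2 : T ^ (2 * (g + 1)) ≤ ‖DP s (fun n => w n * χ (n : ZMod q)) k‖ ^ 2 := by
            rw [e1, norm_pow, ← pow_mul, mul_comm (g + 1) 2]
            exact pow_le_pow_left₀ hT.le hk2.le _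
          exact e2.trans (single_le_sum (f := fun k => ‖DP s (fun n => w n * χ (n : ZMod q)) k‖ ^ 2)
            (fun _ _ => sq_nonneg _) hk)
      _ ≤ _ := sum_le_sum_of_subset_of_nonneg (subset_univ _)
          (fun _ _ _ => sum_nonneg fun _ _ => sq_nonneg _)
  obtain ⟨Z, hZ⟩ : ∃ Z : ℕ, Z = 2 ^ (g + 1) * X ^ (g + 1) := ⟨_, rfl⟩
  have hXg : 1 ≤ X ^ (g + 1) := Nat.one_le_pow _ _ hX
  have h2 := hls (q := q) hK (g + 1) (X ^ (g + 1)) hXg s w (by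
    intro n hn
    rw [hs, mem_Icc] at hn
    exact hn)
  have h3 : ∑ n ∈ s, ‖w n‖ ^ 2 ≤ 2 ^ (g + 1) * (X : ℝ) ^ (g + 1) * (ℓ ^ (2 * (g + 1)) * (((g + 1 : ℕ) : ℝ) * ℓ) ^ k0) := by
    calc ∑ n ∈ s, ‖w n‖ ^ 2 ≤ ∑ n ∈ s, ℓ ^ (2 * (g + 1)) * dn n ^ (2 * (2 * g + 1)) := by
          refine sum_le_sum fun n hn => ?_
          calc ‖w n‖ ^ 2 ≤ (ℓ ^ (g + 1) * dn n ^ (2 * g + 1)) ^ 2 :=
                pow_le_pow_left₀ (norm_nonneg _) (hw n hn) _
            _ = _ := by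
                rw [mul_pow, ← pow_mul, ← pow_mul, mul_comm (g + 1) 2, mul_comm (2 * g + 1) 2]
      _ = ℓ ^ (2 * (g + 1)) * ∑ n ∈ s, dn n ^ (2 * (2 * g + 1)) := by rw [mul_sum]
      _ ≤ ℓ ^ (2 * (g + 1)) * (Z * (1 + Real.log Z) ^ k0) := by
          apply mul_le_mul_of_nonneg_left _ (by positivity)
          rw [hk0]
          apply sum_dn Z (2 * (2 * g + 1))
          rw [hs, hZ]
          exact Icc_subset_Icc hXg le_rfl
      _ ≤ ℓ ^ (2 * (g + 1)) * (Z * (((g + 1 : ℕ) : ℝ) * ℓ) ^ k0) := by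
          have e1 : 1 + Real.log Z ≤ ((g + 1 : ℕ) : ℝ) * ℓ := by
            have e2 : (Z : ℝ) = ((2 * X : ℕ) : ℝ) ^ (g + 1) := by
              rw [hZ]
              push_cast
              ring
            rw [e2, Real.log_pow]
            have : ((g + 1 : ℕ) : ℝ) * (1 + Real.log ((2 * X : ℕ) : ℝ)) ≤ ((g + 1 : ℕ) : ℝ) * ℓ := by gcongr
            linarith
          have e0 : 0 ≤ 1 + Real.log Z := by
            have := Real.log_natCast_nonneg Z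
            linarith
          have e2 := pow_le_pow_left₀ e0 e1 k0
          gcongr
      _ = _ := by
          rw [hZ]
          push_cast
          ring
  refine h1.trans (h2.trans ?_)
  have hqK : (0 : ℝ) ≤ q * K := by positivity
  have h4 : (2 ^ (g + 1) * ((X ^ (g + 1) : ℕ) : ℝ) + q * K) ≤ 2 ^ (g + 1) * ((X : ℝ) ^ (g + 1) + q * K) := by
    push_cast
    have : (1 : ℝ) ≤ 2 ^ (g + 1) := one_le_pow₀ (by norm_num)
    nlinarith
  have h5 : 0 ≤ ∑ n ∈ s, ‖w n‖ ^ 2 := sum_nonneg fun _ _ => sq_nonneg _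
  calc (((g + 1 : ℕ) : ℝ) + 1) * (4 * c0 * (2 ^ (g + 1) * ((X ^ (g + 1) : ℕ) : ℝ) + q * K)) * ∑ n ∈ s, ‖w n‖ ^ 2
      ≤ (((g + 1 : ℕ) : ℝ) + 1) * (4 * c0 * (2 ^ (g + 1) * ((X : ℝ) ^ (g + 1) + q * K))) *
        (2 ^ (g + 1) * (X : ℝ) ^ (g + 1) * (ℓ ^ (2 * (g + 1)) * (((g + 1 : ℕ) : ℝ) * ℓ) ^ k0)) := by
        apply mul_le_mul _ h3 h5 (by positivity)
        apply mul_le_mul_of_nonneg_left _ (by positivity)
        exact mul_le_mul_of_nonneg_left h4 (by positivity)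
    _ = (((g + 1 : ℕ) + 1) * (4 * c0 * 2 ^ (g + 1)) * (2 ^ (g + 1) * ((g + 1 : ℕ) : ℝ) ^ k0)) *
        (((X : ℝ) ^ (g + 1) + q * K) * X ^ (g + 1) * ℓ ^ (2 * (g + 1) + k0)) := by
        rw [mul_pow, pow_add ℓ]
        ring
    _ ≤ _ := by
        apply mul_le_mul_of_nonneg_right _ (by positivity)
        linarith

end Pool.Agent.H567.HW
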