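import Pool.Agent.H567.HW.WBil

/-!
Project HW (helper567), part 9: bilinear sums over short intervals, one pair of dyadic intervals.
-/

set_option autoImplicit false

namespace Pool.Agent.H567.HW

open Finset
open Pool.Agent.H376R2.MR (ch DP FK)

lemma DP_cvg {q : ℕ} (M₁ M₂ : ℕ) (_hM₁ : 1 ≤ M₁) (_hM₂ : 1 ≤ M₂) (a b : ℕ → ℂ) (χ : DirichletCharacter ℂ q) (k : ℤ) :
    DP (Icc (M₁ * M₂) (4 * (M₁ * M₂))) (tc (cvg (cI M₁) (cI M₂) a b) χ) k = cs1 M₁ a χ k * cs1 M₂ b χ k := by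
  have h1 := cvg_smul (cI M₁) (cI M₂) (Icc (M₁ * M₂) (4 * (M₁ * M₂))) (by
    intro m hm k hk
    rw [mem_Ico] at hm hk
    rw [mem_Icc]
    constructor
    · exact Nat.mul_le_mul hm.1 hk.1
    · calc m * k ≤ (2 * M₁) * (2 * M₂) := Nat.mul_le_mul hm.2.le hk.2.le
        _ = _ := by ring) a b (tw χ k)
  simp only [smul_eq_mul] at h1
  have h2 : DP (Icc (M₁ * M₂) (4 * (M₁ * M₂))) (tc (cvg (cI M₁) (cI M₂) a b) χ) k =
      ∑ n ∈ Icc (M₁ * M₂) (4 * (M₁ * M₂)), cvg (cI M₁) (cI M₂) a b n * tw χ k n := by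
    unfold DP tc tw
    refine sum_congr rfl fun n _ => ?_
    ring
  rw [h2, h1]
  unfold cs1
  rw [sum_mul_sum]
  refine sum_congr rfl fun m hm => sum_congr rfl fun l hl => ?_
  rw [mem_Ico] at hm hl
  rw [tw_mul χ k m l (by omega) (by omega)]
  ring

lemma cell_w : ∃ C : ℝ, 1 ≤ C ∧ ∀ (q Y W J K M₁ M₂ : ℕ) [NeZero q] (S : Finset (DirichletCharacter ℂ q))
    (a b : ℕ → ℂ) (ℓ δ : ℝ), 1 ≤ J → 1 ≤ W → W ≤ Y → 1 ≤ K → 1 ≤ M₁ → 1 ≤ M₂ → Y < 4 * (M₁ * M₂) →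
    M₁ * M₂ ≤ 3 * Y → 0 ≤ δ → (∀ χ ∈ S, ∀ k ∈ FK K, ‖cs1 M₁ a χ k‖ ≤ δ * M₁) →
    1 + Real.log ((12 * Y : ℕ) : ℝ) ≤ ℓ → (∀ m ∈ cI M₁, ‖a m‖ ≤ ℓ * dn m) → (∀ m ∈ cI M₂, ‖b m‖ ≤ ℓ * dn m) →
    ‖∑ m ∈ cI M₁, ∑ k ∈ cI M₂, (a m * b k) • evw S Y W (m * k)‖ ^ 2 ≤
      C * ℓ ^ 68 * ((W : ℝ) ^ 2 / Y * ((δ * M₁) ^ 2 * ((M₂ + q * K) * M₂)) +
        (J : ℝ) ^ 2 * Y * ((Y : ℝ) / K ^ 2 + q / K) * Y + ((W : ℝ) / J + 1 + q) * ((W : ℝ) / J + 1) * Y) := by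
  classical
  obtain ⟨C, hC, hwin⟩ := winV
  have hc := c0_pos
  refine ⟨C * (32 * c0 + 12), by nlinarith, ?_⟩
  intro q Y W J K M₁ M₂ _ S a b ℓ δ hJ hW hWY hK hM₁ hM₂ hQ1 hQ2 hδ hgood hℓ ha hb
  obtain ⟨w, hw⟩ : ∃ w, w = cvg (cI M₁) (cI M₂) a b := ⟨_, rfl⟩
  obtain ⟨s, hs⟩ : ∃ s, s = Icc (M₁ * M₂) (4 * (M₁ * M₂)) := ⟨_, rfl⟩
  have hM12 : 1 ≤ M₁ * M₂ := Nat.mul_le_mul hM₁ hM₂
  have hY1 : 1 ≤ Y := hW.trans hWY
  have hlog : 0 ≤ Real.log ((12 * Y : ℕ) : ℝ) := Real.log_natCast_nonneg _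
  have hℓ1 : 1 ≤ ℓ := by linarith
  have hℓ0 : 0 ≤ ℓ := by linarith
  have h1 := cvg_smul (cI M₁) (cI M₂) s (by
    intro m hm k hk
    rw [mem_Ico] at hm hk
    rw [hs, mem_Icc]
    constructor
    · exact Nat.mul_le_mul hm.1 hk.1
    · calc m * k ≤ (2 * M₁) * (2 * M₂) := Nat.mul_le_mul hm.2.le hk.2.le
        _ = _ := by ring) a b (evw S Y W)
  rw [← h1, ← hw, norm_evw S Y W s w (fun n => n)]
  have h2 := hwin q Y W J K S s w hJ hW hWY hK (by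
    intro n hn
    rw [hs, mem_Icc] at hn
    constructor
    · omega
    · omega)
  refine le_trans (le_of_eq ?_) (h2.trans ?_)
  · rfl
  have h3 : ∑ χ ∈ S, ∑ k ∈ FK K, ‖DP s (tc w χ) k‖ ^ 2 ≤ (δ * M₁) ^ 2 * (32 * c0 * ℓ ^ 6 * ((M₂ + q * K) * M₂)) := by
    have e1 : ∑ χ ∈ S, ∑ k ∈ FK K, ‖DP s (tc w χ) k‖ ^ 2 ≤ ∑ χ ∈ S, ∑ k ∈ FK K,
        (δ * M₁) ^ 2 * ‖DP (cI M₂) (fun n => b n * χ (n : ZMod q)) k‖ ^ 2 := by
      refine sum_le_sum fun χ hχ => sum_le_sum fun k hk => ?_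
      rw [hs, hw, DP_cvg M₁ M₂ hM₁ hM₂, norm_mul, mul_pow, ← cs1_DP]
      apply mul_le_mul_of_nonneg_right _ (sq_nonneg _)
      exact pow_le_pow_left₀ (norm_nonneg _) (hgood χ hχ k hk) 2
    refine e1.trans ?_
    simp only [← mul_sum]
    apply mul_le_mul_of_nonneg_left _ (sq_nonneg _)
    have e2 := hls (q := q) hK 1 M₂ hM₂ (cI M₂) b (by
      intro n hn
      rw [mem_Ico] at hn
      constructor
      · exact hn.1
      · rw [pow_one]; exact hn.2.le)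
    have e3 : ∑ n ∈ cI M₂, ‖b n‖ ^ 2 ≤ 2 * M₂ * ℓ ^ 6 := by
      calc ∑ n ∈ cI M₂, ‖b n‖ ^ 2 ≤ ∑ n ∈ cI M₂, ℓ ^ 2 * dn n ^ 2 := by
            refine sum_le_sum fun n hn => ?_
            calc ‖b n‖ ^ 2 ≤ (ℓ * dn n) ^ 2 := pow_le_pow_left₀ (norm_nonneg _) (hb n hn) 2
              _ = _ := by ring
        _ = ℓ ^ 2 * ∑ n ∈ cI M₂, dn n ^ 2 := by rw [mul_sum]
        _ ≤ ℓ ^ 2 * (((2 * M₂ : ℕ) : ℝ) * (1 + Real.log ((2 * M₂ : ℕ) : ℝ)) ^ (2 ^ 2)) := by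
            apply mul_le_mul_of_nonneg_left _ (by positivity)
            apply sum_dn
            intro n hn
            rw [mem_Ico] at hn
            rw [mem_Icc]
            omega
        _ ≤ ℓ ^ 2 * (((2 * M₂ : ℕ) : ℝ) * ℓ ^ (2 ^ 2)) := by
            have e4 : 1 + Real.log ((2 * M₂ : ℕ) : ℝ) ≤ ℓ := by
              have e6 : M₂ ≤ M₁ * M₂ := Nat.le_mul_of_pos_left M₂ hM₁
              have e5 : Real.log ((2 * M₂ : ℕ) : ℝ) ≤ Real.log ((12 * Y : ℕ) : ℝ) := by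
                apply Real.log_le_log
                · exact_mod_cast (by omega : 0 < 2 * M₂)
                · exact_mod_cast (by omega : 2 * M₂ ≤ 12 * Y)
              linarith
            have e0 : 0 ≤ 1 + Real.log ((2 * M₂ : ℕ) : ℝ) := by
              have := Real.log_natCast_nonneg (2 * M₂)
              linarith
            gcongr
        _ = _ := by
            push_cast
            ring
    calc ∑ χ ∈ S, ∑ k ∈ FK K, ‖DP (cI M₂) (fun n => b n * χ (n : ZMod q)) k‖ ^ 2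
        ≤ ∑ χ : DirichletCharacter ℂ q, ∑ k ∈ FK K, ‖DP (cI M₂) (fun n => b n * χ (n : ZMod q)) k‖ ^ 2 :=
          sum_le_sum_of_subset_of_nonneg (subset_univ _) fun _ _ _ => sum_nonneg fun _ _ => sq_nonneg _
      _ ≤ _ := e2
      _ ≤ (((1 : ℕ) : ℝ) + 1) * (4 * c0 * (2 ^ 1 * M₂ + q * K)) * (2 * M₂ * ℓ ^ 6) :=
          mul_le_mul_of_nonneg_left e3 (by positivity)
      _ ≤ (((1 : ℕ) : ℝ) + 1) * (4 * c0 * (2 * (M₂ + q * K))) * (2 * M₂ * ℓ ^ 6) := by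
          have : (2 : ℝ) ^ 1 * M₂ + q * K ≤ 2 * (M₂ + q * K) := by
            have : (0 : ℝ) ≤ q * K := by positivity
            linarith
          gcongr
      _ = _ := by push_cast; ring
  have h4 : En2 s w ≤ 12 * ℓ ^ 68 * Y := by
    unfold En2
    calc ∑ n ∈ s, ‖w n‖ ^ 2 ≤ ∑ n ∈ s, ℓ ^ 4 * dn n ^ 6 := by
          refine sum_le_sum fun n hn => ?_
          rw [hs, mem_Icc] at hn
          have e1 := cvg_bound (cI M₁) (cI M₂) 1 1 a b hℓ0 hℓ0 (fun k hk => by rw [mem_Ico] at hk; omega)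
            (by simpa using ha) (by simpa using hb) (n := n) (by omega)
          rw [hw]
          calc ‖cvg (cI M₁) (cI M₂) a b n‖ ^ 2 ≤ (ℓ * ℓ * dn n ^ (1 + 1 + 1)) ^ 2 :=
                pow_le_pow_left₀ (norm_nonneg _) e1 2
            _ = _ := by ring
      _ = ℓ ^ 4 * ∑ n ∈ s, dn n ^ 6 := by rw [mul_sum]
      _ ≤ ℓ ^ 4 * (((12 * Y : ℕ) : ℝ) * (1 + Real.log ((12 * Y : ℕ) : ℝ)) ^ (2 ^ 6)) := by
          apply mul_le_mul_of_nonneg_left _ (by positivity)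
          apply sum_dn
          intro n hn
          rw [hs, mem_Icc] at hn
          rw [mem_Icc]
          omega
      _ ≤ ℓ ^ 4 * (((12 * Y : ℕ) : ℝ) * ℓ ^ (2 ^ 6)) := by
          have e0 : 0 ≤ 1 + Real.log ((12 * Y : ℕ) : ℝ) := by linarith
          gcongr
      _ = _ := by
          push_cast
          ring
  have hY0 : (0 : ℝ) < Y := by exact_mod_cast hY1
  have hJ0 : (0 : ℝ) < J := by exact_mod_cast hJ
  have hK0 : (0 : ℝ) < K := by exact_mod_cast hK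
  have hp : ℓ ^ 6 ≤ ℓ ^ 68 := pow_le_pow_right₀ hℓ1 (by norm_num)
  have k1 : (W : ℝ) ^ 2 / Y * ∑ χ ∈ S, ∑ k ∈ FK K, ‖DP s (tc w χ) k‖ ^ 2 ≤
      (32 * c0 + 12) * ℓ ^ 68 * ((W : ℝ) ^ 2 / Y * ((δ * M₁) ^ 2 * ((M₂ + q * K) * M₂))) := by
    calc (W : ℝ) ^ 2 / Y * ∑ χ ∈ S, ∑ k ∈ FK K, ‖DP s (tc w χ) k‖ ^ 2 ≤
        (W : ℝ) ^ 2 / Y * ((δ * M₁) ^ 2 * (32 * c0 * ℓ ^ 6 * ((M₂ + q * K) * M₂))) :=
          mul_le_mul_of_nonneg_left h3 (by positivity)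
      _ = (32 * c0 * ℓ ^ 6) * ((W : ℝ) ^ 2 / Y * ((δ * M₁) ^ 2 * ((M₂ + q * K) * M₂))) := by ring
      _ ≤ _ := by
          apply mul_le_mul_of_nonneg_right _ (by positivity)
          apply mul_le_mul _ hp (by positivity) (by positivity)
          linarith
  have k2 : (J : ℝ) ^ 2 * Y * ((Y : ℝ) / K ^ 2 + q / K) * En2 s w ≤
      (32 * c0 + 12) * ℓ ^ 68 * ((J : ℝ) ^ 2 * Y * ((Y : ℝ) / K ^ 2 + q / K) * Y) := by
    calc (J : ℝ) ^ 2 * Y * ((Y : ℝ) / K ^ 2 + q / K) * En2 s w ≤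
        (J : ℝ) ^ 2 * Y * ((Y : ℝ) / K ^ 2 + q / K) * (12 * ℓ ^ 68 * Y) :=
          mul_le_mul_of_nonneg_left h4 (by positivity)
      _ = 12 * ℓ ^ 68 * ((J : ℝ) ^ 2 * Y * ((Y : ℝ) / K ^ 2 + q / K) * Y) := by ring
      _ ≤ _ := by
          apply mul_le_mul_of_nonneg_right _ (by positivity)
          apply mul_le_mul_of_nonneg_right _ (by positivity)
          linarith
  have k3 : ((W : ℝ) / J + 1 + q) * ((W : ℝ) / J + 1) * En2 s w ≤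
      (32 * c0 + 12) * ℓ ^ 68 * (((W : ℝ) / J + 1 + q) * ((W : ℝ) / J + 1) * Y) := by
    calc ((W : ℝ) / J + 1 + q) * ((W : ℝ) / J + 1) * En2 s w ≤
        ((W : ℝ) / J + 1 + q) * ((W : ℝ) / J + 1) * (12 * ℓ ^ 68 * Y) :=
          mul_le_mul_of_nonneg_left h4 (by positivity)
      _ = 12 * ℓ ^ 68 * (((W : ℝ) / J + 1 + q) * ((W : ℝ) / J + 1) * Y) := by ring
      _ ≤ _ := by
          apply mul_le_mul_of_nonneg_right _ (by positivity)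
          apply mul_le_mul_of_nonneg_right _ (by positivity)
          linarith
  have hC0 : 0 ≤ C := by linarith
  have k4 := mul_le_mul_of_nonneg_left (add_le_add (add_le_add k1 k2) k3) hC0
  refine k4.trans (le_of_eq ?_)
  ring

end Pool.Agent.H567.HW
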