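import Pool.Agent.H567.HW.WTi
import Pool.Agent.H567.HW.WinLA
import Pool.Agent.H567.HW.GDef
import Pool.Graph.R_seed8.R462.GS.MH
import Pool.Graph.R_seed8.Y812.GJ.LshLe
import Pool.Graph.R_seed8.Y883.GJ.Asm

/-!
Project HW (helper567), part 13: the sieve model over short intervals, nonprincipal characters.
-/

set_option autoImplicit false

namespace Pool.Agent.H567.HW

open Finset
open Pool.Agent.Y883.GJ (LA Par)
open Pool.Agent.Y883.T3 (lsh)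
open Pool.Agent.H373R2.T7 (lamz Vz Vz_pos lamz_nonneg)
open Pool.Agent.Y614.GJ.Core (ev_log)

/-- the sieve model over short intervals -/
theorem lzw (A : ℕ) {ρ : ℝ} (hρ : 0 < ρ) : ∃ B : ℕ, ∀ E : ℕ, ∃ N₀ : ℕ, ∀ Y N : ℕ, N = 3 * Y → N₀ ≤ N →
    ∀ z : ℕ, Real.log N ^ B ≤ z → (z : ℝ) ≤ Real.log N ^ E → (Vz z)⁻¹ ≤ Real.log N ∧
    ∀ (q W : ℕ) [NeZero q], (q : ℝ) * (N : ℝ) ^ (1 / 3 + ρ) ≤ W → W ≤ Y → ∀ S : Finset (DirichletCharacter ℂ q),
    (1 : DirichletCharacter ℂ q) ∉ S →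
      ∑ u ∈ Ico Y (2 * Y), ∑ χ ∈ S, ‖∑ n ∈ Ioc u (u + W), LZ z n * χ (n : ZMod q)‖ ^ 2 ≤
        (Y : ℝ) * (W : ℝ) ^ 2 / Real.log N ^ A := by
  classical
  obtain ⟨B, hB⟩ := Pool.Agent.Y883.GJ.model_all (2 * A + 60)
  refine ⟨B, fun E => ?_⟩
  obtain ⟨N₁, hN₁⟩ := hB E
  obtain ⟨N₂, hN₂⟩ := Filter.eventually_atTop.1 (ev_log (A + 7) (s := 1 / 4) (by norm_num) 400000)
  refine ⟨max (max N₁ N₂) 100, fun Y N hNY hN z hz1 hz2 => ?_⟩
  have hNN₁ : N₁ ≤ N := le_trans (le_trans (le_max_left _ _) (le_max_left _ _)) hN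
  have hNN₂ : N₂ ≤ N := le_trans (le_trans (le_max_right _ _) (le_max_left _ _)) hN
  have hN100 : 100 ≤ N := le_trans (le_max_right _ _) hN
  obtain ⟨r, hpar, hl1⟩ := hN₁ N hNN₁ z hz1 hz2
  refine ⟨hpar.hV, fun q W _ hqW hWY S hS => ?_⟩
  obtain ⟨hL, hLp⟩ := hN₂ N hNN₂
  have hN1 : 1 ≤ N := by omega
  have hN0 : (0 : ℝ) < N := by exact_mod_cast hN1
  have hNr1 : (1 : ℝ) ≤ N := by exact_mod_cast hN1
  have hY1 : 1 ≤ Y := by omega
  have hY0 : (0 : ℝ) < Y := by exact_mod_cast hY1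
  have hNr : (N : ℝ) = 3 * Y := by rw [hNY]; push_cast; ring
  have hV := hpar.hV
  have hT := hpar.hT
  have hD := Pool.Agent.R462.GS.D_le hpar.hD
  have hq1 : 1 ≤ q := Nat.pos_of_ne_zero (NeZero.ne q)
  have hq0 : (0 : ℝ) < q := by exact_mod_cast hq1
  have hNρ : 1 ≤ (N : ℝ) ^ (1 / 3 + ρ) := Real.one_le_rpow hNr1 (by linarith)
  have hqWr : (q : ℝ) ≤ W := le_trans (le_mul_of_one_le_right hq0.le hNρ) hqW
  have hqWn : q ≤ W := by exact_mod_cast hqWr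
  have hW0 : (0 : ℝ) < W := by linarith
  have hW2 : (q : ℝ) * (N : ℝ) ^ (1 / 3 : ℝ) ≤ W := by
    refine le_trans ?_ hqW
    apply mul_le_mul_of_nonneg_left _ hq0.le
    exact Real.rpow_le_rpow_of_exponent_le hNr1 (by linarith)
  have hDN : (z + 1) ^ r ≤ N := by
    have : (((z + 1) ^ r : ℕ) : ℝ) ≤ N := by
      refine hD.trans ?_
      calc (N : ℝ) ^ (1 / 100 : ℝ) ≤ (N : ℝ) ^ (1 : ℝ) := Real.rpow_le_rpow_of_exponent_le hNr1 (by norm_num)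
        _ = N := Real.rpow_one _
    exact_mod_cast this
  have hD2 : (((z + 1) ^ r : ℕ) : ℝ) ^ 2 ≤ (N : ℝ) ^ (1 / 50 : ℝ) := by
    calc (((z + 1) ^ r : ℕ) : ℝ) ^ 2 ≤ ((N : ℝ) ^ (1 / 100 : ℝ)) ^ 2 := pow_le_pow_left₀ (Nat.cast_nonneg _) hD 2
      _ = _ := by
          rw [← Real.rpow_natCast, ← Real.rpow_mul hN0.le]
          norm_num
  -- the difference of the models
  obtain ⟨w, hw⟩ : ∃ w : ℕ → ℂ, w = fun n => ((lamz z n - lsh z r n : ℝ) : ℂ) := ⟨_, rfl⟩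
  have hwn : ∀ n, ‖w n‖ = |lamz z n - lsh z r n| := by
    intro n
    rw [hw]
    simp only
    rw [Complex.norm_real, Real.norm_eq_abs]
  obtain ⟨L, hLd⟩ : ∃ L, L = Real.log (N : ℝ) := ⟨_, rfl⟩
  have hvm : ∀ n ∈ Icc 1 N, ArithmeticFunction.vonMangoldt n ≤ L := by
    intro n hn
    rw [mem_Icc] at hn
    rw [hLd]
    exact Pool.Agent.R460.GH.vm_le' hn.1 hn.2
  rw [← hLd] at hL hLp hl1 hV hT ⊢
  have hL0 : 0 < L := by linarith
  have hL1 : 1 ≤ L := by linarith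
  have hbw : ∀ n ∈ Icc 1 N, ‖w n‖ ≤ 4 * L * (n.divisors.card : ℝ) := by
    intro n hn
    have h1 : (1 : ℝ) ≤ (n.divisors.card : ℝ) := by
      have : 0 < n.divisors.card := card_pos.2 ⟨1, Nat.one_mem_divisors.2 (by
        rw [mem_Icc] at hn
        omega)⟩
      exact_mod_cast this
    have h2 := hT n hn
    have h3 := hvm n hn
    have h4 : 0 ≤ ArithmeticFunction.vonMangoldt n := ArithmeticFunction.vonMangoldt_nonneg
    have h5 := (lamz_le z n).trans hV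
    have h6 : 0 ≤ lamz z n := lamz_nonneg z n
    rw [hwn]
    have h7 : lamz z n - lsh z r n = (lamz z n - ArithmeticFunction.vonMangoldt n) +
        (ArithmeticFunction.vonMangoldt n - lsh z r n) := by ring
    rw [h7]
    refine (abs_add_le _ _).trans ?_
    have h8 : |lamz z n - ArithmeticFunction.vonMangoldt n| ≤ L := by
      rw [abs_le]
      constructor <;> linarith
    nlinarith
  have hw2 : ∑ n ∈ Icc 1 N, ‖w n‖ ^ 2 ≤ N / L ^ (A + 4) := by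
    obtain ⟨l, hl⟩ : ∃ l : ℝ, l = L ^ (A + 30) := ⟨_, rfl⟩
    have hl0 : 0 < l := by rw [hl]; positivity
    have h1 : ∀ n ∈ Icc 1 N, ‖w n‖ ^ 2 ≤ l * ‖w n‖ + l⁻¹ * (64 * L ^ 3 * (n.divisors.card : ℝ) ^ 3) := by
      intro n hn
      have h0 : 0 ≤ ‖w n‖ := norm_nonneg _
      have h2 : ‖w n‖ ^ 3 ≤ 64 * L ^ 3 * (n.divisors.card : ℝ) ^ 3 := by
        calc ‖w n‖ ^ 3 ≤ (4 * L * (n.divisors.card : ℝ)) ^ 3 := pow_le_pow_left₀ h0 (hbw n hn) 3
          _ = _ := by ring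
      have h3 : l⁻¹ * ‖w n‖ ^ 3 ≤ l⁻¹ * (64 * L ^ 3 * (n.divisors.card : ℝ) ^ 3) :=
        mul_le_mul_of_nonneg_left h2 (by positivity)
      refine le_trans ?_ (add_le_add le_rfl h3)
      rcases le_total ‖w n‖ l with h | h
      · have h4 : ‖w n‖ ^ 2 ≤ l * ‖w n‖ := by nlinarith
        have : 0 ≤ l⁻¹ * ‖w n‖ ^ 3 := by positivity
        linarith
      · have h4 : ‖w n‖ ^ 2 ≤ l⁻¹ * ‖w n‖ ^ 3 := by
          rw [inv_mul_eq_div, le_div_iff₀ hl0]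
          have : ‖w n‖ ^ 3 = ‖w n‖ ^ 2 * ‖w n‖ := by ring
          rw [this]
          exact mul_le_mul_of_nonneg_left h (sq_nonneg _)
        have : 0 ≤ l * ‖w n‖ := by positivity
        linarith
    refine (sum_le_sum h1).trans ?_
    rw [sum_add_distrib, ← mul_sum, ← mul_sum, ← mul_sum]
    have h2 : ∑ n ∈ Icc 1 N, ‖w n‖ ≤ N / L ^ (2 * A + 60) := by
      refine le_trans (le_of_eq ?_) hl1
      exact sum_congr rfl fun n _ => hwn n
    have h3 : ∑ n ∈ Icc 1 N, (n.divisors.card : ℝ) ^ 3 ≤ N * (2 * L) ^ 8 := by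
      refine (Pool.Agent.TH935.LD.tau_pow_sum 3 N).trans ?_
      rw [← hLd]
      have : (1 + L) ^ (2 ^ 3) ≤ (2 * L) ^ 8 := by
        norm_num
        exact pow_le_pow_left₀ (by linarith) (by linarith) 8
      gcongr
    have g1 : l * (N / L ^ (2 * A + 60)) ≤ N / L ^ (A + 4) * (1 / 2) := by
      have e0 : L ^ (2 * A + 60) = L ^ (A + 30) * (L ^ (A + 4) * L ^ 26) := by
        rw [← pow_add, ← pow_add]
        congr 1
        ring
      have e1 : l * ((N : ℝ) / L ^ (2 * A + 60)) = N / L ^ (A + 4) * (1 / L ^ 26) := by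
        rw [hl, e0]
        have k1 : L ^ (A + 30) ≠ 0 := by positivity
        have k2 : L ^ (A + 4) ≠ 0 := by positivity
        generalize L ^ (A + 30) = a at k1 ⊢
        generalize L ^ (A + 4) = b at k2 ⊢
        field_simp
      rw [e1]
      have e2 : 1 / L ^ 26 ≤ 1 / 2 := by
        rw [div_le_div_iff₀ (by positivity) (by norm_num), one_mul, one_mul]
        calc (2 : ℝ) ≤ L := by linarith
          _ = L ^ 1 := (pow_one L).symm
          _ ≤ L ^ 26 := pow_le_pow_right₀ hL1 (by norm_num)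
      gcongr
    have g2 : l⁻¹ * (64 * L ^ 3 * (N * (2 * L) ^ 8)) ≤ N / L ^ (A + 4) * (1 / 2) := by
      rw [hl]
      have e1 : (L ^ (A + 30))⁻¹ * (64 * L ^ 3 * (N * (2 * L) ^ 8)) = N / L ^ (A + 4) * (16384 / L ^ 15) := by
        rw [show A + 30 = (A + 4) + 11 + 15 by ring, pow_add, pow_add L (A + 4) 11, mul_pow]
        field_simp
        ring
      rw [e1]
      have e2 : 16384 / L ^ 15 ≤ 1 / 2 := by
        rw [div_le_div_iff₀ (by positivity) (by norm_num), one_mul]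
        calc (16384 : ℝ) * 2 ≤ L := by linarith
          _ = L ^ 1 := (pow_one L).symm
          _ ≤ L ^ 15 := pow_le_pow_right₀ hL1 (by norm_num)
      gcongr
    have g3 : l * ∑ n ∈ Icc 1 N, ‖w n‖ ≤ l * (N / L ^ (2 * A + 60)) := mul_le_mul_of_nonneg_left h2 hl0.le
    have g4 : l⁻¹ * (64 * L ^ 3 * ∑ n ∈ Icc 1 N, (n.divisors.card : ℝ) ^ 3) ≤ l⁻¹ * (64 * L ^ 3 * (N * (2 * L) ^ 8)) := by
      gcongr
    linarith
  have hwS := (l2w S (Y := Y) hqWn (Icc 1 N) w).trans (mul_le_mul_of_nonneg_left hw2 (by positivity))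
  -- the truncated model
  obtain ⟨X, hX⟩ : ∃ X : ℝ, X = Real.sqrt (96 * N * L ^ 3 * (q * W)) := ⟨_, rfl⟩
  have hX0 : 0 ≤ X := by rw [hX]; exact Real.sqrt_nonneg _
  have hXd : ∀ d ∈ Icc 1 ((z + 1) ^ r), ‖∑ b ∈ Icc 1 (N / d), evw S Y W (b * d)‖ ≤ X := by
    intro d hd
    rw [mem_Icc] at hd
    have hdN : d ≤ N := hd.2.trans hDN
    have h1 := ti_win (M := d) hNY hWY S hS hd.1 hdN (fun m => if m = d then 1 else 0) (T := 1) zero_le_one
      (fun m hm => by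
        by_contra h
        exact hm (if_neg (by omega))) (fun m _ => by
        split_ifs
        · simp
        · simp)
    have e1 : ∑ m ∈ Icc 1 N, (if m = d then (1 : ℂ) else 0) • ∑ b ∈ Icc 1 (N / m), evw S Y W (b * m) =
        ∑ b ∈ Icc 1 (N / d), evw S Y W (b * d) := by
      rw [sum_eq_single_of_mem d (mem_Icc.2 ⟨hd.1, hdN⟩)]
      · rw [if_pos rfl, one_smul]
      · intro m _ hm
        rw [if_neg hm, zero_smul]
    rw [e1] at h1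
    rw [hX]
    apply Real.le_sqrt_of_sq_le
    refine h1.trans ?_
    have h2 : (d : ℝ) ^ 2 ≤ N := by
      have h3 : (d : ℝ) ≤ (((z + 1) ^ r : ℕ) : ℝ) := by exact_mod_cast hd.2
      calc (d : ℝ) ^ 2 ≤ (((z + 1) ^ r : ℕ) : ℝ) ^ 2 := pow_le_pow_left₀ (Nat.cast_nonneg _) h3 2
        _ ≤ (N : ℝ) ^ (1 / 50 : ℝ) := hD2
        _ ≤ (N : ℝ) ^ (1 : ℝ) := Real.rpow_le_rpow_of_exponent_le hNr1 (by norm_num)
        _ = N := Real.rpow_one _
    have h3 : 1 + Real.log d ≤ 2 * L := by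
      have : Real.log d ≤ L := by
        rw [hLd]
        exact Real.log_le_log (by exact_mod_cast hd.1) (by exact_mod_cast hdN)
      linarith
    have h4 : 0 ≤ 1 + Real.log d := by
      have := Real.log_natCast_nonneg d
      linarith
    calc 6 * ((Y : ℝ) + (d : ℝ) ^ 2) * (1 ^ 2 * (1 + Real.log d) ^ 3 * (q * W)) ≤
        6 * ((N : ℝ) + N) * (1 ^ 2 * (2 * L) ^ 3 * (q * W)) := by
          gcongr
          linarith
      _ = 96 * N * L ^ 3 * (q * W) := by ring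
  have hlsh := Pool.Agent.Y812.GJ.lsh_le _ (evw S Y W) N z r (fun _ => X) hXd
  have hlsh2 : ‖∑ n ∈ Icc 1 N, ((lsh z r n : ℝ) : ℂ) • evw S Y W n‖ ^ 2 ≤ N * W ^ 2 / L ^ (A + 2) := by
    have e1 : ∑ n ∈ Icc 1 N, ((lsh z r n : ℝ) : ℂ) • evw S Y W n = ∑ n ∈ Icc 1 N, (lsh z r n) • evw S Y W n :=
      sum_congr rfl fun n _ => Pool.Agent.R462.GS.csm _ _
    rw [e1]
    have e2 : (Vz z)⁻¹ * ∑ d ∈ Icc 1 ((z + 1) ^ r), X ≤ L * ((((z + 1) ^ r : ℕ) : ℝ) * X) := by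
      rw [sum_const, Nat.card_Icc, nsmul_eq_mul, Nat.add_sub_cancel]
      exact mul_le_mul_of_nonneg_right hV (by positivity)
    refine (pow_le_pow_left₀ (norm_nonneg _) (hlsh.trans e2) 2).trans ?_
    have e3 : X ^ 2 = 96 * N * L ^ 3 * (q * W) := by
      rw [hX, Real.sq_sqrt (by positivity)]
    rw [mul_pow, mul_pow, e3, le_div_iff₀ (by positivity)]
    calc L ^ 2 * ((((z + 1) ^ r : ℕ) : ℝ) ^ 2 * (96 * N * L ^ 3 * (q * W))) * L ^ (A + 2)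
        ≤ L ^ 2 * ((N : ℝ) ^ (1 / 50 : ℝ) * (96 * N * L ^ 3 * (q * W))) * L ^ (A + 2) := by gcongr
      _ = (96 * L ^ (A + 7)) * ((N : ℝ) ^ (1 / 50 : ℝ) * (q * W) * N) := by ring
      _ ≤ (96 * (N : ℝ) ^ (1 / 4 : ℝ)) * ((N : ℝ) ^ (1 / 50 : ℝ) * (q * W) * N) := by gcongr
      _ ≤ ((N : ℝ) ^ (1 / 50 : ℝ) * (N : ℝ) ^ (1 / 4 : ℝ)) * ((N : ℝ) ^ (1 / 50 : ℝ) * (q * W) * N) := by
          have h96 : (96 : ℝ) ≤ (N : ℝ) ^ (1 / 50 : ℝ) := by
            have e1 : (1 : ℝ) + Real.log N * (1 / 50) ≤ Real.exp (Real.log N * (1 / 50)) := by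
              have := Real.add_one_le_exp (Real.log N * (1 / 50))
              linarith
            rw [Real.rpow_def_of_pos hN0]
            rw [← hLd] at e1 ⊢
            linarith
          gcongr
      _ = (q * ((N : ℝ) ^ (1 / 50 : ℝ) * (N : ℝ) ^ (1 / 4 : ℝ) * (N : ℝ) ^ (1 / 50 : ℝ))) * W * N := by ring
      _ = (q * (N : ℝ) ^ (29 / 100 : ℝ)) * W * N := by
          rw [← Real.rpow_add hN0, ← Real.rpow_add hN0]
          norm_num
      _ ≤ (q * (N : ℝ) ^ (1 / 3 : ℝ)) * W * N := by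
          have : (N : ℝ) ^ (29 / 100 : ℝ) ≤ (N : ℝ) ^ (1 / 3 : ℝ) :=
            Real.rpow_le_rpow_of_exponent_le hNr1 (by norm_num)
          gcongr
      _ ≤ W * W * N := by gcongr
      _ = _ := by ring
  -- together
  have hsplit : ∑ n ∈ Icc 1 N, (LZ z n) • evw S Y W n =
      ∑ n ∈ Icc 1 N, ((lsh z r n : ℝ) : ℂ) • evw S Y W n + ∑ n ∈ Icc 1 N, (w n) • evw S Y W n := by
    rw [← sum_add_distrib]
    refine sum_congr rfl fun n _ => ?_
    rw [← add_smul, hw]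
    congr 1
    unfold LZ
    push_cast
    ring
  have h1 : ∑ u ∈ Ico Y (2 * Y), ∑ χ ∈ S, ‖∑ n ∈ Ioc u (u + W), LZ z n * χ (n : ZMod q)‖ ^ 2 =
      ‖∑ n ∈ Icc 1 N, (LZ z n) • evw S Y W n‖ ^ 2 := by
    rw [norm_evw S Y W (Icc 1 N) (LZ z) (fun n => n)]
    refine sum_congr rfl fun u hu => ?_
    rw [hNY, win_filter hWY hu]
  rw [h1, hsplit]
  have h2 := pow_le_pow_left₀ (norm_nonneg _) (norm_add_le (∑ n ∈ Icc 1 N, ((lsh z r n : ℝ) : ℂ) • evw S Y W n)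
    (∑ n ∈ Icc 1 N, (w n) • evw S Y W n)) 2
  obtain ⟨P, hP⟩ : ∃ P, P = ‖∑ n ∈ Icc 1 N, ((lsh z r n : ℝ) : ℂ) • evw S Y W n‖ := ⟨_, rfl⟩
  obtain ⟨R, hR⟩ : ∃ R, R = ‖∑ n ∈ Icc 1 N, (w n) • evw S Y W n‖ := ⟨_, rfl⟩
  rw [← hP, ← hR] at h2
  rw [← hP] at hlsh2
  rw [← hR] at hwS
  have h3 : (P + R) ^ 2 ≤ 2 * P ^ 2 + 2 * R ^ 2 := by nlinarith [sq_nonneg (P - R)]
  have h4 : (N : ℝ) * W ^ 2 / L ^ (A + 2) = Y * W ^ 2 / L ^ A * (3 / L ^ 2) := by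
    rw [hNr, pow_add]
    field_simp
  have h5 : 2 * (W : ℝ) ^ 2 * (N / L ^ (A + 4)) = Y * W ^ 2 / L ^ A * (6 / L ^ 4) := by
    rw [hNr, pow_add]
    field_simp
    ring
  rw [h4] at hlsh2
  rw [h5] at hwS
  have h6 : 3 / L ^ 2 ≤ 1 / 8 := by
    rw [div_le_div_iff₀ (by positivity) (by norm_num)]
    nlinarith
  have h7 : 6 / L ^ 4 ≤ 1 / 8 := by
    rw [div_le_div_iff₀ (by positivity) (by norm_num)]
    calc (6 : ℝ) * 8 ≤ L := by linarith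
      _ = L ^ 1 := (pow_one L).symm
      _ ≤ L ^ 4 := pow_le_pow_right₀ hL1 (by norm_num)
      _ = 1 * L ^ 4 := (one_mul _).symm
  have h8 : 0 ≤ (Y : ℝ) * W ^ 2 / L ^ A := by positivity
  have h9 := mul_le_mul_of_nonneg_left h6 h8
  have h10 := mul_le_mul_of_nonneg_left h7 h8
  linarith

end Pool.Agent.H567.HW
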