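import Pool.Agent.H567.HW.WUp
import Pool.Agent.H567.HW.WMaj
import Pool.Agent.H567.HW.WLz

/-!
Project HW (helper567), part 18: numerical relations between the lengths.
-/

set_option autoImplicit false

namespace Pool.Agent.H567.HW

open Finset
open Pool.Agent.Y614.GJ.Core (ev_log)

/-- the relations -/
lemma envW (C' : ℕ) (b : ℝ) {ρ : ℝ} (hρ : 0 < ρ) : ∃ Y₀ : ℕ, ∀ Y : ℕ, Y₀ ≤ Y → ∀ q Q : ℕ, 1 ≤ q →
    (q : ℝ) * (Y : ℝ) ^ (1 / 3 + ρ) ≤ Q → Q ≤ Y → 1 ≤ Y ∧ 1 ≤ Q ∧ b ≤ Real.log Q ∧ Real.log Q ≤ Real.log Y ∧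
      Real.log (6 * Y) ≤ 3 * Real.log Q ∧
      (q : ℝ) * ((6 * Y : ℕ) : ℝ) ^ (1 / 3 + ρ / 2) ≤ ⌊(Q : ℝ) / Real.log Q ^ C'⌋₊ ∧
      (Q : ℝ) ≤ 2 * (Real.log Q ^ C' * ⌊(Q : ℝ) / Real.log Q ^ C'⌋₊) ∧
      Real.log Q ^ C' * ⌊(Q : ℝ) / Real.log Q ^ C'⌋₊ ≤ Q := by
  obtain ⟨N₃, hN₃⟩ := Filter.eventually_atTop.1 (ev_log (C' + 1) (s := ρ / 2) (by positivity)
    (max (3 * (max b 1)) (max (2 / ρ) 24)))
  refine ⟨max N₃ 1, fun Y hY q Q hq hqQ hQY => ?_⟩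
  obtain ⟨h1, h2⟩ := hN₃ Y (le_trans (le_max_left _ _) hY)
  have hY1 : 1 ≤ Y := le_trans (le_max_right _ _) hY
  have hY0 : (0 : ℝ) < Y := by exact_mod_cast hY1
  have hYr1 : (1 : ℝ) ≤ Y := by exact_mod_cast hY1
  have hb : 3 * b ≤ Real.log Y := by
    have := (mul_le_mul_of_nonneg_left (le_max_left b 1) (by norm_num : (0 : ℝ) ≤ 3)).trans ((le_max_left _ _).trans h1)
    exact this
  have hb1 : 3 * 1 ≤ Real.log Y := by
    have := (mul_le_mul_of_nonneg_left (le_max_right b 1) (by norm_num : (0 : ℝ) ≤ 3)).trans ((le_max_left _ _).trans h1)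
    exact this
  have hρ2 : 2 / ρ ≤ Real.log Y := (le_max_left _ _).trans ((le_max_right _ _).trans h1)
  have h24 : 24 ≤ Real.log Y := (le_max_right _ _).trans ((le_max_right _ _).trans h1)
  have hq1 : (1 : ℝ) ≤ q := by exact_mod_cast hq
  have hq0 : (0 : ℝ) < q := by linarith
  have hYp : 1 ≤ (Y : ℝ) ^ (1 / 3 + ρ) := Real.one_le_rpow hYr1 (by linarith)
  have hYQ : (Y : ℝ) ^ (1 / 3 + ρ) ≤ Q := by
    refine le_trans ?_ hqQ
    exact le_mul_of_one_le_left (by linarith) hq1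
  have hQ1r : (1 : ℝ) ≤ Q := hYp.trans hYQ
  have hQ1 : 1 ≤ Q := by exact_mod_cast hQ1r
  have hQ0 : (0 : ℝ) < Q := by linarith
  have hQYr : (Q : ℝ) ≤ Y := by exact_mod_cast hQY
  have hlQ : (1 / 3 + ρ) * Real.log Y ≤ Real.log Q := by
    have := Real.log_le_log (by linarith) hYQ
    rwa [Real.log_rpow hY0] at this
  have hlY : Real.log Q ≤ Real.log Y := Real.log_le_log hQ0 hQYr
  have hρY : 2 ≤ ρ * Real.log Y := by
    rw [div_le_iff₀ hρ] at hρ2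
    linarith
  have hbQ : b ≤ Real.log Q := by nlinarith
  have hQ1l : 1 ≤ Real.log Q := by nlinarith
  have hL0 : 0 < Real.log Q := by linarith
  have hl6 : Real.log (6 * Y) ≤ 3 * Real.log Q := by
    rw [Real.log_mul (by norm_num) hY0.ne']
    have h6 : Real.log 6 ≤ 2 := by
      have e1 : Real.log 6 ≤ Real.log (Real.exp 2) := by
        apply Real.log_le_log (by norm_num)
        have e2 : Real.exp 2 = Real.exp 1 * Real.exp 1 := by rw [← Real.exp_add]; norm_num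
        rw [e2]
        have := Real.exp_one_gt_d9
        nlinarith
      rwa [Real.log_exp] at e1
    nlinarith
  have hLC : 0 < Real.log Q ^ C' := by positivity
  have hLC1 : 1 ≤ Real.log Q ^ C' := one_le_pow₀ hQ1l
  have hLCY : 24 * Real.log Q ^ C' ≤ (Y : ℝ) ^ (ρ / 2) := by
    refine le_trans ?_ h2
    rw [pow_succ, mul_comm]
    apply mul_le_mul (pow_le_pow_left₀ hL0.le hlY C') h24 (by norm_num) (by positivity)
  have hlow : (q : ℝ) * ((6 * Y : ℕ) : ℝ) ^ (1 / 3 + ρ / 2) ≤ (Q : ℝ) / (4 * Real.log Q ^ C') ∨ 1 / 3 + ρ / 2 > 1 := by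
    by_cases hρ1 : 1 / 3 + ρ / 2 ≤ 1
    · left
      rw [le_div_iff₀ (by positivity)]
      have e1 : ((6 * Y : ℕ) : ℝ) ^ (1 / 3 + ρ / 2) ≤ 6 * (Y : ℝ) ^ (1 / 3 + ρ / 2) := by
        push_cast
        rw [Real.mul_rpow (by norm_num) hY0.le]
        have : (6 : ℝ) ^ (1 / 3 + ρ / 2) ≤ 6 ^ (1 : ℝ) := Real.rpow_le_rpow_of_exponent_le (by norm_num) hρ1
        rw [Real.rpow_one] at this
        gcongr
      calc (q : ℝ) * ((6 * Y : ℕ) : ℝ) ^ (1 / 3 + ρ / 2) * (4 * Real.log Q ^ C')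
          ≤ q * (6 * (Y : ℝ) ^ (1 / 3 + ρ / 2)) * (4 * Real.log Q ^ C') := by gcongr
        _ = q * (Y : ℝ) ^ (1 / 3 + ρ / 2) * (24 * Real.log Q ^ C') := by ring
        _ ≤ q * (Y : ℝ) ^ (1 / 3 + ρ / 2) * (Y : ℝ) ^ (ρ / 2) := by gcongr
        _ = q * (Y : ℝ) ^ (1 / 3 + ρ) := by
            rw [mul_assoc, ← Real.rpow_add hY0]
            congr 2
            ring
        _ ≤ Q := hqQ
    · right
      linarith
  have hYP : 1 ≤ (Y : ℝ) ^ (1 / 3 + ρ) := hYp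
  -- the case of a large exponent is void
  have hρ1 : 1 / 3 + ρ / 2 ≤ 1 := by
    by_contra h
    push Not at h
    have e1 : (Y : ℝ) ^ (1 / 3 + ρ) ≤ Y := hYQ.trans hQYr
    have e2 : (Y : ℝ) ^ (1 : ℝ) < (Y : ℝ) ^ (1 / 3 + ρ) := by
      apply Real.rpow_lt_rpow_of_exponent_lt
      · by_contra h3
        push Not at h3
        have : Real.log Y ≤ 0 := Real.log_nonpos hY0.le h3
        linarith
      · linarith
    rw [Real.rpow_one] at e2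
    linarith
  have hlow' : (q : ℝ) * ((6 * Y : ℕ) : ℝ) ^ (1 / 3 + ρ / 2) ≤ (Q : ℝ) / (4 * Real.log Q ^ C') := by
    rcases hlow with h | h
    · exact h
    · linarith
  have h6Y : 1 ≤ ((6 * Y : ℕ) : ℝ) ^ (1 / 3 + ρ / 2) := by
    apply Real.one_le_rpow
    · exact_mod_cast (by omega : 1 ≤ 6 * Y)
    · linarith
  have hbig : 1 ≤ (Q : ℝ) / (4 * Real.log Q ^ C') := by
    refine le_trans ?_ hlow'
    nlinarith
  have hfl : (Q : ℝ) / Real.log Q ^ C' < ⌊(Q : ℝ) / Real.log Q ^ C'⌋₊ + 1 := Nat.lt_floor_add_one _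
  have hfl2 : (⌊(Q : ℝ) / Real.log Q ^ C'⌋₊ : ℝ) ≤ (Q : ℝ) / Real.log Q ^ C' := Nat.floor_le (by positivity)
  have h4 : (Q : ℝ) / Real.log Q ^ C' = 4 * ((Q : ℝ) / (4 * Real.log Q ^ C')) := by field_simp
  refine ⟨hY1, hQ1, hbQ, hlY, hl6, ?_, ?_, ?_⟩
  · linarith
  · have h5 : (Q : ℝ) / Real.log Q ^ C' ≤ 2 * ⌊(Q : ℝ) / Real.log Q ^ C'⌋₊ := by linarith
    rw [div_le_iff₀ hLC] at h5
    linarith
  · rw [le_div_iff₀ hLC] at hfl2
    linarith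

end Pool.Agent.H567.HW
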