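import Pool.Agent.H567.HW.WEnv

/-!
Project HW (helper567), part 19: the good characters on the major arcs.
-/

set_option autoImplicit false

namespace Pool.Agent.H567.HW

open Finset
open Pool.Agent.Y883.GJ (LA)
open Pool.Agent.H807R2.Dav (ee)
open Pool.Agent.H373R2.T7 (lamz Vz Vz_pos lamz_nonneg)
open Pool.Agent.Y614.GJ.Core (ev_log)

open Classical in
/-- the good characters -/
theorem goodW (A C : ℕ) {ρ : ℝ} (hρ : 0 < ρ) : ∃ C₃ B : ℕ, ∀ E : ℕ, ∃ Y₀ : ℕ, ∀ Y : ℕ, Y₀ ≤ Y →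
    ∀ z : ℕ, Real.log (6 * Y) ^ B ≤ z → (z : ℝ) ≤ Real.log Y ^ E → ∀ (q Q : ℕ) [NeZero q],
    (q : ℝ) * (Y : ℝ) ^ (1 / 3 + ρ) ≤ Q → Q ≤ Y →
    (∀ n, n ≤ 6 * Y → ‖GZ z n‖ ≤ Real.log Q ^ 2) ∧
    ∃ B : Finset (DirichletCharacter ℂ q), (B.card : ℝ) ≤ Real.log Q ^ C₃ ∧
      ∀ η : ℝ, |η| ≤ Real.log Q ^ C / Q → ∀ S : Finset (DirichletCharacter ℂ q), Disjoint S B →
      ∑ u ∈ Ico Y (2 * Y), ∑ χ ∈ S, ‖∑ n ∈ Ioc u (u + Q), GZ z n * χ (n : ZMod q) * ee (n * η)‖ ^ 2 ≤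
        Y * ((Q : ℝ) ^ 2 / Real.log Q ^ A) := by
  obtain ⟨ρ', hρ'⟩ : ∃ ρ', ρ' = min (ρ / 2) (1 / 3) := ⟨_, rfl⟩
  have hρ'0 : 0 < ρ' := by rw [hρ']; exact lt_min (by linarith) (by norm_num)
  have hρ'1 : ρ' ≤ 1 / 3 := by rw [hρ']; exact min_le_right _ _
  have hρ'2 : ρ' ≤ ρ / 2 := by rw [hρ']; exact min_le_left _ _
  obtain ⟨C₃, N₁, hN₁⟩ := majLA (A + 1) hρ'0 hρ'1
  obtain ⟨B, hB⟩ := lzw (A + 1) hρ'0
  refine ⟨2 * C₃ + 1, B, fun E => ?_⟩
  obtain ⟨N₂, hN₂⟩ := hB E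
  obtain ⟨C', hC'⟩ : ∃ C', C' = C + A + 7 := ⟨_, rfl⟩
  obtain ⟨Y₁, hY₁⟩ := envW C' ((2000 : ℝ) ^ (A + 7)) hρ
  refine ⟨max Y₁ (max N₁ N₂), fun Y hY z hz1 hz2 q Q _ hqQ hQY => ?_⟩
  have hq : 1 ≤ q := Nat.pos_of_ne_zero (NeZero.ne q)
  obtain ⟨hY1, hQ1, hL, hLY, hl6, hqW, hW1, hW2⟩ := hY₁ Y (le_trans (le_max_left _ _) hY) q Q hq hqQ hQY
  have hYN₁ : N₁ ≤ Y := le_trans (le_max_left _ _) (le_trans (le_max_right _ _) hY)
  have hYN₂ : N₂ ≤ Y := le_trans (le_max_right _ _) (le_trans (le_max_right _ _) hY)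
  obtain ⟨W, hW⟩ : ∃ W : ℕ, W = ⌊(Q : ℝ) / Real.log Q ^ C'⌋₊ := ⟨_, rfl⟩
  rw [← hW] at hqW hW1 hW2
  obtain ⟨L, hLd⟩ : ∃ L, L = Real.log Q := ⟨_, rfl⟩
  rw [← hLd] at hL hLY hl6 hW1 hW2 ⊢
  have hL2000' : (2000 : ℝ) ≤ (2000 : ℝ) ^ (A + 7) := by
    calc (2000 : ℝ) = 2000 ^ 1 := (pow_one _).symm
      _ ≤ (2000 : ℝ) ^ (A + 7) := pow_le_pow_right₀ (by norm_num) (by omega)
  have hL2000 : 2000 ≤ L := by linarith
  have hL0 : 0 < L := by linarith
  have hL1 : 1 ≤ L := by linarith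
  have hY0 : (0 : ℝ) < Y := by exact_mod_cast hY1
  have hQ0 : (0 : ℝ) < Q := by exact_mod_cast hQ1
  have hQYr : (Q : ℝ) ≤ Y := by exact_mod_cast hQY
  have hW0 : (0 : ℝ) ≤ W := Nat.cast_nonneg _
  have hlY6 : Real.log Y ≤ Real.log (6 * Y) := Real.log_le_log hY0 (by linarith)
  have hlYpos : 0 < Real.log Y := by linarith
  have hlN : ∀ N : ℕ, Y ≤ N → N ≤ 6 * Y → Real.log Y ≤ Real.log N ∧ Real.log N ≤ 3 * L := by
    intro N h1 h2
    have h3 : (Y : ℝ) ≤ N := by exact_mod_cast h1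
    have h4 : (N : ℝ) ≤ 6 * Y := by exact_mod_cast h2
    exact ⟨Real.log_le_log hY0 h3, (Real.log_le_log (by linarith) h4).trans hl6⟩
  have hWpos : 0 < W := by
    rcases Nat.eq_zero_or_pos W with h | h
    · rw [h, Nat.cast_zero, mul_zero, mul_zero] at hW1
      linarith
    · exact h
  have hWr : (0 : ℝ) < W := by exact_mod_cast hWpos
  have hqWr : (q : ℝ) ≤ W := by
    refine le_trans ?_ hqW
    apply le_mul_of_one_le_right (by positivity)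
    apply Real.one_le_rpow
    · exact_mod_cast (by omega : 1 ≤ 6 * Y)
    · linarith
  have hWQr : (W : ℝ) ≤ Q := by
    refine le_trans ?_ hW2
    exact le_mul_of_one_le_left hW0 (one_le_pow₀ hL1)
  have hWQ : W ≤ Q := by exact_mod_cast hWQr
  -- the two ranges
  have hcond : ∀ N : ℕ, Y ≤ N → N ≤ 6 * Y → (q : ℝ) * (N : ℝ) ^ (1 / 3 + ρ') ≤ W := by
    intro N h1 h2
    refine le_trans ?_ hqW
    have h3 : (N : ℝ) ^ (1 / 3 + ρ') ≤ ((6 * Y : ℕ) : ℝ) ^ (1 / 3 + ρ / 2) := by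
      calc (N : ℝ) ^ (1 / 3 + ρ') ≤ (N : ℝ) ^ (1 / 3 + ρ / 2) := by
            apply Real.rpow_le_rpow_of_exponent_le _ (by linarith)
            exact_mod_cast (by omega : 1 ≤ N)
        _ ≤ ((6 * Y : ℕ) : ℝ) ^ (1 / 3 + ρ / 2) := by
            apply Real.rpow_le_rpow (Nat.cast_nonneg _) _ (by positivity)
            exact_mod_cast h2
    gcongr
  have hcond2 : ∀ N : ℕ, Y ≤ N → N ≤ 6 * Y → (W : ℝ) * Real.log N ^ (A + 1 + 5) ≤ Y := by
    intro N h1 h2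
    obtain ⟨h3, h4⟩ := hlN N h1 h2
    have h5 : 0 ≤ Real.log N := by linarith
    calc (W : ℝ) * Real.log N ^ (A + 1 + 5) ≤ W * (3 * L) ^ (A + 1 + 5) := by gcongr
      _ = (3 : ℝ) ^ (A + 6) * (L ^ (A + 6) * W) := by rw [mul_pow]; ring
      _ ≤ L * (L ^ (A + 6) * W) := by
          apply mul_le_mul_of_nonneg_right _ (by positivity)
          calc (3 : ℝ) ^ (A + 6) ≤ 2000 ^ (A + 6) := pow_le_pow_left₀ (by norm_num) (by norm_num) _
            _ ≤ 2000 ^ (A + 7) := pow_le_pow_right₀ (by norm_num) (by omega)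
            _ ≤ L := hL
      _ = L ^ (A + 7) * W := by ring
      _ ≤ L ^ C' * W := by
          apply mul_le_mul_of_nonneg_right _ hW0
          exact pow_le_pow_right₀ hL1 (by omega)
      _ ≤ Q := hW2
      _ ≤ Y := hQYr
  obtain ⟨B₁, -, hB₁c, hB₁⟩ := hN₁ Y (3 * Y) rfl (by omega) q W (hcond (3 * Y) (by omega) (by omega))
    (hcond2 (3 * Y) (by omega) (by omega))
  obtain ⟨B₂, h1B₂, hB₂c, hB₂⟩ := hN₁ (2 * Y) (3 * (2 * Y)) rfl (by omega) q W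
    (hcond (3 * (2 * Y)) (by omega) (by omega))
    ((hcond2 (3 * (2 * Y)) (by omega) (by omega)).trans (by push_cast; linarith))
  have hz' : ∀ N : ℕ, Y ≤ N → N ≤ 6 * Y → Real.log N ^ B ≤ z ∧ (z : ℝ) ≤ Real.log N ^ E := by
    intro N h1 h2
    obtain ⟨h3, h4⟩ := hlN N h1 h2
    have h5 : Real.log N ≤ Real.log (6 * Y) := by
      apply Real.log_le_log
      · exact_mod_cast (by omega : 0 < N)
      · exact_mod_cast h2
    exact ⟨(pow_le_pow_left₀ (by linarith) h5 B).trans hz1, hz2.trans (pow_le_pow_left₀ (by linarith) h3 E)⟩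
  obtain ⟨hz3, hz4⟩ := hz' (3 * Y) (by omega) (by omega)
  obtain ⟨hz5, hz6⟩ := hz' (3 * (2 * Y)) (by omega) (by omega)
  obtain ⟨hV, hlz1⟩ := hN₂ Y (3 * Y) rfl (by omega) z hz3 hz4
  obtain ⟨-, hlz2⟩ := hN₂ (2 * Y) (3 * (2 * Y)) rfl (by omega) z hz5 hz6
  have hWY : W ≤ Y := le_trans hWQ hQY
  have hlz1' := hlz1 q W (hcond (3 * Y) (by omega) (by omega)) hWY
  have hlz2' := hlz2 q W (hcond (3 * (2 * Y)) (by omega) (by omega)) (by omega)
  have hGb : ∀ n, n ≤ 6 * Y → ‖GZ z n‖ ≤ L ^ 2 := by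
    intro n hn
    refine (norm_GZ_le hn).trans ?_
    have h1 := (hlN (6 * Y) (by omega) le_rfl).2
    have h2 := (hlN (3 * Y) (by omega) (by omega)).2
    nlinarith
  refine ⟨hGb, B₁ ∪ B₂, ?_, ?_⟩
  · have h1 := (hlN (3 * Y) (by omega) (by omega))
    have h2 := (hlN (3 * (2 * Y)) (by omega) (by omega))
    have h0 : 0 ≤ Real.log ((3 * Y : ℕ) : ℝ) := by linarith
    have h0' : 0 ≤ Real.log ((3 * (2 * Y) : ℕ) : ℝ) := by linarith
    calc ((B₁ ∪ B₂).card : ℝ) ≤ (B₁.card : ℝ) + B₂.card := by exact_mod_cast card_union_le _ _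
      _ ≤ (3 * L) ^ C₃ + (3 * L) ^ C₃ := by
          apply add_le_add
          · exact hB₁c.trans (pow_le_pow_left₀ h0 h1.2 C₃)
          · exact hB₂c.trans (pow_le_pow_left₀ h0' h2.2 C₃)
      _ ≤ (L * L) ^ C₃ + (L * L) ^ C₃ := by
          have : (3 * L) ^ C₃ ≤ (L * L) ^ C₃ := by
            apply pow_le_pow_left₀ (by positivity)
            nlinarith
          linarith
      _ = 2 * L ^ (2 * C₃) := by rw [← sq, ← pow_mul]; ring
      _ ≤ L * L ^ (2 * C₃) := by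
          apply mul_le_mul_of_nonneg_right (by linarith) (by positivity)
      _ = L ^ (2 * C₃ + 1) := by rw [pow_succ]; ring
  · intro η hη S hS
    rw [disjoint_union_right] at hS
    have h1S : (1 : DirichletCharacter ℂ q) ∉ S := fun h => (disjoint_left.1 hS.2) h h1B₂
    obtain ⟨J, hJ⟩ : ∃ J, J = Q / W := ⟨_, rfl⟩
    have hJ1 : J * W ≤ Q := by rw [hJ]; exact Nat.div_mul_le_self Q W
    have hJ2 : Q ≤ J * W + W := by
      rw [hJ]
      have h1 := Nat.div_add_mod Q W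
      have h2 := Nat.mod_lt Q hWpos
      have h3 : Q / W * W = W * (Q / W) := Nat.mul_comm _ _
      omega
    -- the short windows
    have hE : ∑ v ∈ Ico Y (4 * Y), ∑ χ ∈ S, ‖∑ n ∈ Ioc v (v + W), GZ z n * χ (n : ZMod q)‖ ^ 2 ≤
        12 * (Y * (W : ℝ) ^ 2 / L ^ (A + 1)) := by
      have e1 : ∀ v ∈ Ico Y (4 * Y), ∑ χ ∈ S, ‖∑ n ∈ Ioc v (v + W), GZ z n * χ (n : ZMod q)‖ ^ 2 ≤
          2 * ∑ χ ∈ S, ‖∑ n ∈ Ioc v (v + W), LA n * χ (n : ZMod q)‖ ^ 2 +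
          2 * ∑ χ ∈ S, ‖∑ n ∈ Ioc v (v + W), LZ z n * χ (n : ZMod q)‖ ^ 2 := by
        intro v _
        rw [mul_sum, mul_sum, ← sum_add_distrib]
        refine sum_le_sum fun χ _ => ?_
        have e2 : ∑ n ∈ Ioc v (v + W), GZ z n * χ (n : ZMod q) =
            ∑ n ∈ Ioc v (v + W), LA n * χ (n : ZMod q) - ∑ n ∈ Ioc v (v + W), LZ z n * χ (n : ZMod q) := by
          rw [← sum_sub_distrib]
          refine sum_congr rfl fun n _ => ?_
          unfold GZ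
          ring
        rw [e2]
        obtain ⟨x, hx⟩ : ∃ x, x = ∑ n ∈ Ioc v (v + W), LA n * χ (n : ZMod q) := ⟨_, rfl⟩
        obtain ⟨y, hy⟩ : ∃ y, y = ∑ n ∈ Ioc v (v + W), LZ z n * χ (n : ZMod q) := ⟨_, rfl⟩
        rw [← hx, ← hy]
        have e3 := pow_le_pow_left₀ (norm_nonneg _) (norm_sub_le x y) 2
        nlinarith [sq_nonneg (‖x‖ - ‖y‖)]
      refine (sum_le_sum e1).trans ?_
      rw [sum_add_distrib, ← mul_sum, ← mul_sum]
      have hsp : ∀ f : ℕ → ℝ, ∑ v ∈ Ico Y (4 * Y), f v = ∑ v ∈ Ico Y (2 * Y), f v + ∑ v ∈ Ico (2 * Y) (2 * (2 * Y)), f v := by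
        intro f
        have : 4 * Y = 2 * (2 * Y) := by ring
        rw [this]
        exact (Finset.sum_Ico_consecutive f (by omega) (by omega)).symm
      rw [hsp, hsp]
      have k1 := hB₁ S hS.1
      have k2 := hB₂ S hS.2
      have k3 := hlz1' S h1S
      have k4 := hlz2' S h1S
      have k5 : ∀ N : ℕ, Y ≤ N → N ≤ 6 * Y → (Y : ℝ) * (W : ℝ) ^ 2 / Real.log N ^ (A + 1) ≤
          Y * (W : ℝ) ^ 2 / L ^ (A + 1) := by
        intro N h1 h2
        have h3 := (hlN N h1 h2).1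
        apply div_le_div_of_nonneg_left (by positivity) (by positivity)
        exact pow_le_pow_left₀ hL0.le (hLY.trans h3) _
      have k6 := k5 (3 * Y) (by omega) (by omega)
      have k7 := k5 (3 * (2 * Y)) (by omega) (by omega)
      have k8 : ((2 * Y : ℕ) : ℝ) * (W : ℝ) ^ 2 / Real.log ((3 * (2 * Y) : ℕ) : ℝ) ^ (A + 1) =
          2 * ((Y : ℝ) * (W : ℝ) ^ 2 / Real.log ((3 * (2 * Y) : ℕ) : ℝ) ^ (A + 1)) := by
        push_cast
        ring
      rw [k8] at k2 k4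
      linarith
    have hup := win_up S (GZ z) (g := L ^ 2) (η := η) (by positivity) hJ1 hJ2 (by omega)
      (fun n hn => hGb n (by omega)) hE
    refine hup.trans ?_
    have hJr : (J : ℝ) * W ≤ Q := by exact_mod_cast hJ1
    have t1 : 3 * ((J : ℝ) ^ 2 * (12 * (Y * (W : ℝ) ^ 2 / L ^ (A + 1)))) ≤ Y * ((Q : ℝ) ^ 2 / L ^ A) * (36 / L) := by
      calc 3 * ((J : ℝ) ^ 2 * (12 * (Y * (W : ℝ) ^ 2 / L ^ (A + 1)))) =
          36 * (Y / L ^ (A + 1)) * ((J : ℝ) * W) ^ 2 := by ring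
        _ ≤ 36 * (Y / L ^ (A + 1)) * (Q : ℝ) ^ 2 := by gcongr
        _ = _ := by rw [pow_succ]; field_simp
    have hqQr : (q : ℝ) ≤ Q := hqWr.trans hWQr
    have hWL : (W : ℝ) ≤ Q / L ^ C' := by
      rw [le_div_iff₀ (by positivity)]
      linarith
    have t2 : 3 * (((Q : ℝ) + q) * (Q * (L ^ 2 * (7 * (|η| * W))) ^ 2)) ≤ (Q : ℝ) ^ 2 / L ^ A * (300 / L) := by
      calc 3 * (((Q : ℝ) + q) * (Q * (L ^ 2 * (7 * (|η| * W))) ^ 2)) ≤
          3 * (((Q : ℝ) + Q) * (Q * (L ^ 2 * (7 * (L ^ C / Q * (Q / L ^ C')))) ^ 2)) := by gcongr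
        _ = 294 * (Q : ℝ) ^ 2 * (L ^ (C + 2) / L ^ C') ^ 2 := by
            field_simp
            ring
        _ = 294 * (Q : ℝ) ^ 2 * (1 / L ^ (A + 5)) ^ 2 := by
            have : L ^ (C + 2) / L ^ C' = 1 / L ^ (A + 5) := by
              rw [hC', div_eq_div_iff (by positivity) (by positivity), one_mul, ← pow_add]
              congr 1
              ring
            rw [this]
        _ = (Q : ℝ) ^ 2 / L ^ A * (294 / L ^ (A + 10)) := by
            rw [div_pow, one_pow, ← pow_mul, show (A + 5) * 2 = A + (A + 10) by ring, pow_add]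
            field_simp
        _ ≤ (Q : ℝ) ^ 2 / L ^ A * (300 / L) := by
            apply mul_le_mul_of_nonneg_left _ (by positivity)
            apply div_le_div₀ (by norm_num) (by norm_num) hL0
            calc L = L ^ 1 := (pow_one L).symm
              _ ≤ L ^ (A + 10) := pow_le_pow_right₀ hL1 (by omega)
    have t3 : 3 * (((W : ℝ) + q) * (W * (L ^ 2) ^ 2)) ≤ (Q : ℝ) ^ 2 / L ^ A * (6 / L) := by
      calc 3 * (((W : ℝ) + q) * (W * (L ^ 2) ^ 2)) ≤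
          3 * (((Q / L ^ C') + (Q / L ^ C')) * ((Q / L ^ C') * (L ^ 2) ^ 2)) := by
            have : (q : ℝ) ≤ Q / L ^ C' := hqWr.trans hWL
            gcongr
        _ = 6 * (Q : ℝ) ^ 2 * (L ^ 2 / L ^ C') ^ 2 := by
            field_simp
            ring
        _ ≤ 6 * (Q : ℝ) ^ 2 * (1 / L ^ (A + 5)) ^ 2 := by
            have : L ^ 2 / L ^ C' ≤ 1 / L ^ (A + 5) := by
              rw [div_le_div_iff₀ (by positivity) (by positivity), one_mul, ← pow_add]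
              exact pow_le_pow_right₀ hL1 (by omega)
            gcongr
        _ = (Q : ℝ) ^ 2 / L ^ A * (6 / L ^ (A + 10)) := by
            rw [div_pow, one_pow, ← pow_mul, show (A + 5) * 2 = A + (A + 10) by ring, pow_add]
            field_simp
        _ ≤ (Q : ℝ) ^ 2 / L ^ A * (6 / L) := by
            apply mul_le_mul_of_nonneg_left _ (by positivity)
            apply div_le_div₀ (by norm_num) (by norm_num) hL0
            calc L = L ^ 1 := (pow_one L).symm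
              _ ≤ L ^ (A + 10) := pow_le_pow_right₀ hL1 (by omega)
    obtain ⟨R, hR⟩ : ∃ R, R = (Q : ℝ) ^ 2 / L ^ A := ⟨_, rfl⟩
    have hR0 : 0 ≤ R := by rw [hR]; positivity
    rw [← hR] at t1 t2 t3 ⊢
    have t4 : (Y : ℝ) * (3 * (((Q : ℝ) + q) * (Q * (L ^ 2 * (7 * (|η| * W))) ^ 2)) +
        3 * (((W : ℝ) + q) * (W * (L ^ 2) ^ 2))) ≤ Y * (R * (300 / L) + R * (6 / L)) := by
      apply mul_le_mul_of_nonneg_left _ hY0.le
      linarith
    have t5 : (36 : ℝ) / L + 300 / L + 6 / L ≤ 1 := by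
      rw [← add_div, ← add_div, div_le_one hL0]
      linarith
    calc _ ≤ Y * R * (36 / L) + Y * (R * (300 / L) + R * (6 / L)) := add_le_add t1 t4
      _ = Y * R * (36 / L + 300 / L + 6 / L) := by ring
      _ ≤ Y * R * 1 := by gcongr
      _ = Y * R := mul_one _

end Pool.Agent.H567.HW
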