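import Pool.Agent.H567.HW.WGood
import Pool.Graph.R_seed8.Y918.GJ.Model

/-!
Project HW (helper567), part 20: the classes which are not coprime to the modulus, windows.
-/

set_option autoImplicit false

namespace Pool.Agent.H567.HW

open Finset
open Pool.Agent.Y883.GJ (LA)
open Pool.Agent.H807R2.Dav (ee)
open Pool.Agent.H373R2.T7 (lamz Vz Vz_pos lamz_nonneg mem_pz)
open Pool.Agent.Y614.GJ.Core (ev_log)

/-- multiples in a window -/
lemma mult_win (p u W : ℕ) (hp : 0 < p) :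
    (((Ioc u (u + W)).filter (fun n => p ∣ n)).card : ℝ) ≤ (W : ℝ) / p + 1 := by
  have hp0 : (0 : ℝ) < p := by exact_mod_cast hp
  have h1 : ((Ioc u (u + W)).filter (fun n => p ∣ n)).card ≤ W / p + 1 := by
    have h4 : ((Ioc u (u + W)).filter (fun n => p ∣ n)).card =
        (((Ioc u (u + W)).filter (fun n => p ∣ n)).image (fun n => n / p)).card := by
      rw [card_image_of_injOn]
      intro x hx y hy hxy
      rw [mem_coe, mem_filter] at hx hy
      simp only at hxy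
      have h3 := Nat.div_mul_cancel hx.2
      have h4 := Nat.div_mul_cancel hy.2
      rw [← h3, ← h4, hxy]
    rw [h4]
    have h6 : ((Ioc u (u + W)).filter (fun n => p ∣ n)).image (fun n => n / p) ⊆ Ioc (u / p) (u / p + W / p + 1) := by
      intro j hj
      rw [mem_image] at hj
      obtain ⟨n, hn, rfl⟩ := hj
      rw [mem_filter, mem_Ioc] at hn
      obtain ⟨⟨h1, h2⟩, t, rfl⟩ := hn
      rw [Nat.mul_div_cancel_left t hp, mem_Ioc]
      constructor
      · rw [Nat.div_lt_iff_lt_mul hp, mul_comm]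
        exact h1
      · have h7 : t ≤ (u + W) / p := by
          rw [Nat.le_div_iff_mul_le hp, mul_comm]
          exact h2
        have h9 : (u + W) / p ≤ u / p + W / p + 1 := by
          have e1 := Nat.div_add_mod u p
          have e2 := Nat.div_add_mod W p
          have e3 := Nat.mod_lt u hp
          have e4 := Nat.mod_lt W hp
          have : (u + W) / p < u / p + W / p + 2 := by
            rw [Nat.div_lt_iff_lt_mul hp]
            have e5 : (u / p + W / p + 2) * p = p * (u / p) + p * (W / p) + 2 * p := by ring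
            omega
          omega
        omega
    refine (card_le_card h6).trans ?_
    rw [Nat.card_Ioc]
    generalize u / p = A₁
    generalize W / p = A₂
    omega
  calc (((Ioc u (u + W)).filter (fun n => p ∣ n)).card : ℝ) ≤ ((W / p + 1 : ℕ) : ℝ) := by exact_mod_cast h1
    _ = ((W / p : ℕ) : ℝ) + 1 := by push_cast; ring
    _ ≤ (W : ℝ) / p + 1 := by
        have := @Nat.cast_div_le ℝ _ _ _ W p
        linarith

lemma noncop_leW (q u W : ℕ) (hq : 1 ≤ q) (f : ℕ → ℝ) (hf : ∀ n, 0 ≤ f n) :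
    ∑ n ∈ (Ioc u (u + W)).filter (fun n => ¬ n.Coprime q), f n ≤
      ∑ p ∈ q.primeFactors, ∑ n ∈ (Ioc u (u + W)).filter (fun n => p ∣ n), f n := by
  classical
  rw [sum_filter]
  calc ∑ n ∈ Ioc u (u + W), (if ¬ n.Coprime q then f n else 0)
      ≤ ∑ n ∈ Ioc u (u + W), ∑ p ∈ q.primeFactors, (if p ∣ n then f n else 0) := by
        apply sum_le_sum
        intro n _
        have h0 : ∀ p ∈ q.primeFactors, 0 ≤ (if p ∣ n then f n else 0) := by
          intro p _
          split_ifs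
          · exact hf n
          · exact le_rfl
        by_cases h : n.Coprime q
        · rw [if_neg (not_not.2 h)]
          exact sum_nonneg h0
        · rw [if_pos h]
          obtain ⟨p, hp, hpn, hpq⟩ := Nat.Prime.not_coprime_iff_dvd.1 h
          have := single_le_sum (f := fun p => if p ∣ n then f n else 0) h0
            (Nat.mem_primeFactors.2 ⟨hp, hpq, by omega⟩)
          simp only [if_pos hpn] at this
          exact this
    _ = _ := by
        rw [sum_comm]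
        apply sum_congr rfl
        intro p _
        rw [sum_filter]

/-- the sieve model, classes which are not coprime to the modulus -/
lemma lamz_noncopW (q X u W z : ℕ) (hq : 1 ≤ q) (hqX : q ≤ X) (hz : 1 ≤ z) :
    ∑ n ∈ (Ioc u (u + W)).filter (fun n => ¬ n.Coprime q), lamz z n ≤
      (Nat.log 2 X : ℝ) * ((Vz z)⁻¹ * ((W : ℝ) / z + 1)) := by
  classical
  have hV0 : 0 < (Vz z)⁻¹ := inv_pos.2 (Vz_pos z)
  refine (noncop_leW q u W hq _ (lamz_nonneg z)).trans ?_
  have hz0 : (0 : ℝ) < z := by exact_mod_cast hz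
  have h1 : ∀ p ∈ q.primeFactors, ∑ n ∈ (Ioc u (u + W)).filter (fun n => p ∣ n), lamz z n ≤
      (Vz z)⁻¹ * ((W : ℝ) / z + 1) := by
    intro p hp
    have hpp := Nat.prime_of_mem_primeFactors hp
    rcases Nat.lt_or_ge z p with h | h
    · have hle : ∀ n ∈ (Ioc u (u + W)).filter (fun n => p ∣ n), lamz z n ≤ (Vz z)⁻¹ :=
        fun n _ => lamz_le z n
      refine (sum_le_card_nsmul _ _ _ hle).trans ?_
      rw [nsmul_eq_mul, mul_comm]
      apply mul_le_mul_of_nonneg_left _ hV0.le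
      refine (mult_win p u W hpp.pos).trans ?_
      have hp0 : (z : ℝ) ≤ p := by exact_mod_cast h.le
      have := div_le_div_of_nonneg_left (Nat.cast_nonneg W) hz0 hp0
      linarith
    · have h0 : ∑ n ∈ (Ioc u (u + W)).filter (fun n => p ∣ n), lamz z n = 0 := by
        apply sum_eq_zero
        intro n hn
        unfold lamz
        rw [if_neg]
        intro hh
        exact hh p (mem_pz.2 ⟨h, hpp⟩) (mem_filter.1 hn).2
      rw [h0]
      positivity
  refine (sum_le_sum h1).trans ?_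
  rw [sum_const, nsmul_eq_mul]
  apply mul_le_mul_of_nonneg_right
  · exact_mod_cast Pool.Agent.Y918.GJ.card_pf q X hq hqX
  · positivity

/-- the difference, classes which are not coprime to the modulus -/
lemma GZ_noncopW (q X u W z : ℕ) (hq : 1 ≤ q) (hqX : q ≤ X) (hz : 1 ≤ z) (hu : u + W ≤ X) :
    ∑ n ∈ (Ioc u (u + W)).filter (fun n => ¬ n.Coprime q), ‖GZ z n‖ ≤
      (Nat.log 2 X : ℝ) * ((Nat.log 2 X + 1 : ℝ) * Real.log X) +
      (Nat.log 2 X : ℝ) * ((Vz z)⁻¹ * ((W : ℝ) / z + 1)) := by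
  have h1 : ∀ n ∈ (Ioc u (u + W)).filter (fun n => ¬ n.Coprime q), ‖GZ z n‖ ≤
      ArithmeticFunction.vonMangoldt n + lamz z n := by
    intro n _
    unfold GZ LA LZ
    refine (norm_sub_le _ _).trans ?_
    rw [Complex.norm_real, Complex.norm_real, Real.norm_of_nonneg ArithmeticFunction.vonMangoldt_nonneg,
      Real.norm_of_nonneg (lamz_nonneg z n)]
  refine (sum_le_sum h1).trans ?_
  rw [sum_add_distrib]
  apply add_le_add _ (lamz_noncopW q X u W z hq hqX hz)
  refine le_trans ?_ (Pool.Agent.Y918.GJ.lam_noncop q X hq hqX)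
  apply sum_le_sum_of_subset_of_nonneg
  · apply filter_subset_filter
    intro n hn
    rw [mem_Ioc] at hn
    rw [mem_Icc]
    omega
  · intro n _ _
    exact ArithmeticFunction.vonMangoldt_nonneg

/-- a class in a window -/
lemma class_win (q u W : ℕ) [NeZero q] (l : ZMod q) :
    (((Ioc u (u + W)).filter (fun n : ℕ => (n : ZMod q) = l)).card : ℝ) ≤ (W : ℝ) / q + 1 := by
  have hq : 0 < q := Nat.pos_of_ne_zero (NeZero.ne q)
  have hq0 : (0 : ℝ) < q := by exact_mod_cast hq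
  obtain ⟨s, hs⟩ : ∃ s, s = (Ioc u (u + W)).filter (fun n : ℕ => (n : ZMod q) = l) := ⟨_, rfl⟩
  rw [← hs]
  have hmod : ∀ n ∈ s, n % q = l.val := by
    intro n hn
    rw [hs, mem_filter] at hn
    rw [← hn.2, ZMod.val_natCast]
  have h3 : s.card ≤ W / q + 1 := by
    have h4 : s.card = (s.image (fun n => n / q)).card := by
      rw [card_image_of_injOn]
      intro x hx y hy hxy
      simp only at hxy
      have h3 := Nat.div_add_mod x q
      have h4 := Nat.div_add_mod y q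
      rw [hxy, hmod x hx, ← hmod y hy] at h3
      omega
    rw [h4]
    rcases s.eq_empty_or_nonempty with h0 | ⟨x₀, hx₀⟩
    · rw [h0]; simp
    obtain ⟨x, hx, hmin⟩ := exists_min_image s id ⟨x₀, hx₀⟩
    have h6 : s.image (fun n => n / q) ⊆ Icc (x / q) (x / q + W / q) := by
      intro j hj
      rw [mem_image] at hj
      obtain ⟨n, hn, rfl⟩ := hj
      have hxn : x ≤ n := hmin n hn
      have k0 : n % q = x % q := by rw [hmod n hn, hmod x hx]
      have k1 := hn
      have k2 := hx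
      rw [hs, mem_filter, mem_Ioc] at k1 k2
      rw [mem_Icc]
      refine ⟨Nat.div_le_div_right hxn, ?_⟩
      have k5 : q ∣ n - x := (Nat.modEq_iff_dvd' hxn).1 k0.symm
      obtain ⟨t, ht⟩ := k5
      have k6 : t ≤ W / q := by
        rw [Nat.le_div_iff_mul_le hq]
        calc t * q = q * t := Nat.mul_comm _ _
          _ = n - x := ht.symm
          _ ≤ W := by omega
      have k7 : n / q = x / q + t := by
        have k4 : n = x + (n - x) := by omega
        rw [k4, ht, Nat.add_mul_div_left _ _ hq]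
      omega
    refine (card_le_card h6).trans ?_
    rw [Nat.card_Icc]
    generalize x / q = A₁
    generalize W / q = A₂
    omega
  calc (s.card : ℝ) ≤ ((W / q + 1 : ℕ) : ℝ) := by exact_mod_cast h3
    _ = ((W / q : ℕ) : ℝ) + 1 := by push_cast; ring
    _ ≤ (W : ℝ) / q + 1 := by
        have := @Nat.cast_div_le ℝ _ _ _ W q
        linarith

open Classical in
/-- the classes which are not coprime to the modulus -/
lemma nonunit_win (q u W : ℕ) [NeZero q] (G : ℕ → ℂ) {g T η : ℝ} (hg0 : 0 ≤ g) (hG : ∀ n ∈ Ioc u (u + W), ‖G n‖ ≤ g)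
    (hT : ∑ n ∈ (Ioc u (u + W)).filter (fun n => ¬ n.Coprime q), ‖G n‖ ≤ T) :
    ∑ l ∈ univ.filter (fun l : ZMod q => ¬ IsUnit l),
      ‖∑ n ∈ (Ioc u (u + W)).filter (fun n : ℕ => (n : ZMod q) = l), G n * ee (n * η)‖ ^ 2 ≤
      (((W : ℝ) / q + 1) * g) * T := by
  have h1 : ∀ l : ZMod q, ‖∑ n ∈ (Ioc u (u + W)).filter (fun n : ℕ => (n : ZMod q) = l), G n * ee (n * η)‖ ≤
      ∑ n ∈ (Ioc u (u + W)).filter (fun n : ℕ => (n : ZMod q) = l), ‖G n‖ := by
    intro l
    refine (norm_sum_le _ _).trans (le_of_eq ?_)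
    refine sum_congr rfl fun n _ => ?_
    rw [norm_mul, Pool.Agent.H807R2.Dav.norm_ee, mul_one]
  have h2 : ∀ l : ZMod q, ∑ n ∈ (Ioc u (u + W)).filter (fun n : ℕ => (n : ZMod q) = l), ‖G n‖ ≤
      ((W : ℝ) / q + 1) * g := by
    intro l
    have h3 : ∀ n ∈ (Ioc u (u + W)).filter (fun n : ℕ => (n : ZMod q) = l), ‖G n‖ ≤ g :=
      fun n hn => hG n (mem_filter.1 hn).1
    refine (sum_le_card_nsmul _ _ _ h3).trans ?_
    rw [nsmul_eq_mul]
    exact mul_le_mul_of_nonneg_right (class_win q u W l) hg0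
  calc ∑ l ∈ univ.filter (fun l : ZMod q => ¬ IsUnit l),
        ‖∑ n ∈ (Ioc u (u + W)).filter (fun n : ℕ => (n : ZMod q) = l), G n * ee (n * η)‖ ^ 2
      ≤ ∑ l ∈ univ.filter (fun l : ZMod q => ¬ IsUnit l), (((W : ℝ) / q + 1) * g) *
          ∑ n ∈ (Ioc u (u + W)).filter (fun n : ℕ => (n : ZMod q) = l), ‖G n‖ := by
        refine sum_le_sum fun l _ => ?_
        rw [sq]
        exact mul_le_mul ((h1 l).trans (h2 l)) (h1 l) (norm_nonneg _) (by positivity)
    _ = (((W : ℝ) / q + 1) * g) * ∑ l ∈ univ.filter (fun l : ZMod q => ¬ IsUnit l),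
          ∑ n ∈ (Ioc u (u + W)).filter (fun n : ℕ => (n : ZMod q) = l), ‖G n‖ := by rw [mul_sum]
    _ = (((W : ℝ) / q + 1) * g) * ∑ n ∈ (Ioc u (u + W)).filter (fun n => ¬ n.Coprime q), ‖G n‖ := by
        congr 1
        have e1 : (Ioc u (u + W)).filter (fun n => ¬ n.Coprime q) =
            (Ioc u (u + W)).filter (fun n : ℕ => (n : ZMod q) ∈ univ.filter (fun l : ZMod q => ¬ IsUnit l)) := by
          apply filter_congr
          intro n _
          rw [mem_filter]
          constructor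
          · intro h
            exact ⟨mem_univ _, fun h2 => h ((ZMod.isUnit_iff_coprime n q).1 h2)⟩
          · rintro ⟨-, h⟩ h2
            exact h ((ZMod.isUnit_iff_coprime n q).2 h2)
        rw [e1]
        exact sum_fiberwise_eq_sum_filter _ _ _ _
    _ ≤ _ := by
        apply mul_le_mul_of_nonneg_left hT (by positivity)

open Classical in
/-- the classes which are not coprime to the modulus: the final form -/
theorem nonW (A : ℕ) {ρ : ℝ} (hρ : 0 < ρ) : ∃ B : ℕ, ∀ E : ℕ, ∃ Y₀ : ℕ, ∀ Y : ℕ, Y₀ ≤ Y →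
    ∀ z : ℕ, Real.log (6 * Y) ^ B ≤ z → (z : ℝ) ≤ Real.log Y ^ E → ∀ (q Q : ℕ) [NeZero q],
    (q : ℝ) * (Y : ℝ) ^ (1 / 3 + ρ) ≤ Q → Q ≤ Y → ∀ η : ℝ,
      ∑ u ∈ Ico Y (2 * Y), ∑ l ∈ univ.filter (fun l : ZMod q => ¬ IsUnit l),
        ‖∑ n ∈ (Ioc u (u + Q)).filter (fun n : ℕ => (n : ZMod q) = l), GZ z n * ee (n * η)‖ ^ 2 ≤
        Y * ((Q : ℝ) ^ 2 / (q * Real.log Q ^ A)) := by
  obtain ⟨_C, B, hB⟩ := goodW 1 1 hρ
  refine ⟨max B (A + 6), fun E => ?_⟩
  obtain ⟨Y₂, hY₂⟩ := hB E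
  obtain ⟨Y₁, hY₁⟩ := envW (A + 7) 2000 hρ
  refine ⟨max Y₁ Y₂, fun Y hY z hz1 hz2 q Q _ hqQ hQY η => ?_⟩
  have hq : 1 ≤ q := Nat.pos_of_ne_zero (NeZero.ne q)
  obtain ⟨hY1, hQ1, hL, hLY, hl6, hqW, hW1, hW2⟩ := hY₁ Y (le_trans (le_max_left _ _) hY) q Q hq hqQ hQY
  have h6 : (6 * Y : ℝ) = ((6 * Y : ℕ) : ℝ) := by push_cast; ring
  have hlY : Real.log Y ≤ Real.log (6 * Y) := Real.log_le_log (by exact_mod_cast hY1) (by
    have : (0 : ℝ) < Y := by exact_mod_cast hY1
    linarith)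
  have hl61 : 1 ≤ Real.log (6 * Y) := by linarith
  obtain ⟨hGb, -⟩ := hY₂ Y (le_trans (le_max_right _ _) hY) z
    ((pow_le_pow_right₀ hl61 (le_max_left _ _)).trans hz1) hz2 q Q hqQ hQY
  obtain ⟨W, hW⟩ : ∃ W : ℕ, W = ⌊(Q : ℝ) / Real.log Q ^ (A + 7)⌋₊ := ⟨_, rfl⟩
  rw [← hW] at hqW hW1 hW2
  obtain ⟨L, hLd⟩ : ∃ L, L = Real.log Q := ⟨_, rfl⟩
  rw [← hLd] at hL hLY hl6 hW1 hW2 hGb ⊢
  have hL0 : 0 < L := by linarith
  have hL1 : 1 ≤ L := by linarith
  have hY0 : (0 : ℝ) < Y := by exact_mod_cast hY1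
  have hQ0 : (0 : ℝ) < Q := by exact_mod_cast hQ1
  have hQYr : (Q : ℝ) ≤ Y := by exact_mod_cast hQY
  have hq1 : (1 : ℝ) ≤ q := by exact_mod_cast hq
  have hq0 : (0 : ℝ) < q := by linarith
  have hWpos : (1 : ℝ) ≤ W := by
    refine le_trans ?_ hqW
    have : 1 ≤ ((6 * Y : ℕ) : ℝ) ^ (1 / 3 + ρ / 2) := by
      apply Real.one_le_rpow
      · exact_mod_cast (by omega : 1 ≤ 6 * Y)
      · linarith
    nlinarith
  have hQL : L ^ (A + 7) ≤ Q := by
    refine le_trans ?_ hW2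
    exact le_mul_of_one_le_right (by positivity) hWpos
  have hqQr : (q : ℝ) ≤ Q := by
    have h1 : (q : ℝ) ≤ W := by
      refine le_trans ?_ hqW
      apply le_mul_of_one_le_right (by positivity)
      apply Real.one_le_rpow
      · exact_mod_cast (by omega : 1 ≤ 6 * Y)
      · linarith
    refine h1.trans (le_trans ?_ hW2)
    exact le_mul_of_one_le_left (by linarith) (one_le_pow₀ hL1)
  have hqY : q ≤ 6 * Y := by
    have : (q : ℝ) ≤ Y := hqQr.trans hQYr
    have : q ≤ Y := by exact_mod_cast this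
    omega
  have hzr : L ^ (A + 6) ≤ z := by
    refine le_trans ?_ hz1
    calc L ^ (A + 6) ≤ Real.log (6 * Y) ^ (A + 6) := pow_le_pow_left₀ hL0.le (hLY.trans hlY) _
      _ ≤ Real.log (6 * Y) ^ (max B (A + 6)) := pow_le_pow_right₀ hl61 (le_max_right _ _)
  have hz0 : (0 : ℝ) < z := lt_of_lt_of_le (by positivity) hzr
  have hz1' : 1 ≤ z := by
    have : 0 < z := by exact_mod_cast hz0
    omega
  -- the number of the exceptional integers
  have hlog : (Nat.log 2 (6 * Y) : ℝ) ≤ 6 * L := by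
    have h1 : 2 ^ Nat.log 2 (6 * Y) ≤ 6 * Y := Nat.pow_log_le_self 2 (by omega)
    have h2 : (2 : ℝ) ^ Nat.log 2 (6 * Y) ≤ 6 * Y := by exact_mod_cast h1
    have h3 := Real.log_le_log (by positivity) h2
    rw [Real.log_pow] at h3
    have h4 := Real.log_two_gt_d9
    have h5 : (0 : ℝ) ≤ (Nat.log 2 (6 * Y) : ℝ) := Nat.cast_nonneg _
    nlinarith
  have hlog0 : (0 : ℝ) ≤ (Nat.log 2 (6 * Y) : ℝ) := Nat.cast_nonneg _
  have hV : (Vz z)⁻¹ ≤ L ^ 2 := by
    have h1 := hGb 1 (by omega)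
    unfold GZ LA LZ lamz at h1
    rw [if_pos, ArithmeticFunction.vonMangoldt_apply_one, ← Complex.ofReal_sub, Complex.norm_real, zero_sub,
      norm_neg, Real.norm_of_nonneg (inv_pos.2 (Vz_pos z)).le] at h1
    · exact h1
    · intro p hp h
      rw [mem_pz] at hp
      have := Nat.le_of_dvd one_pos h
      have := hp.2.two_le
      omega
  have hV0 : 0 < (Vz z)⁻¹ := inv_pos.2 (Vz_pos z)
  obtain ⟨T, hT⟩ : ∃ T : ℝ, T = 150 * L ^ 3 + 6 * L * (L ^ 2 * ((Q : ℝ) / z + 1)) := ⟨_, rfl⟩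
  have hT1 : ∀ u ∈ Ico Y (2 * Y), ∑ n ∈ (Ioc u (u + Q)).filter (fun n => ¬ n.Coprime q), ‖GZ z n‖ ≤ T := by
    intro u hu
    rw [mem_Ico] at hu
    refine (GZ_noncopW q (6 * Y) u Q z hq hqY hz1' (by omega)).trans ?_
    rw [hT, ← h6]
    apply add_le_add
    · calc (Nat.log 2 (6 * Y) : ℝ) * ((Nat.log 2 (6 * Y) + 1 : ℝ) * Real.log (6 * Y)) ≤
          6 * L * ((6 * L + 1) * (3 * L)) := by
            have : 0 ≤ Real.log (6 * Y) := by linarith
            gcongr
        _ ≤ 6 * L * ((8 * L) * (3 * L)) := by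
            have : 6 * L + 1 ≤ 8 * L := by linarith
            gcongr
        _ = 144 * L ^ 3 := by ring
        _ ≤ 150 * L ^ 3 := by
            have : 0 ≤ L ^ 3 := by positivity
            linarith
    · gcongr
  have h1 : ∀ u ∈ Ico Y (2 * Y), ∑ l ∈ univ.filter (fun l : ZMod q => ¬ IsUnit l),
      ‖∑ n ∈ (Ioc u (u + Q)).filter (fun n : ℕ => (n : ZMod q) = l), GZ z n * ee (n * η)‖ ^ 2 ≤
      (((Q : ℝ) / q + 1) * L ^ 2) * T := by
    intro u hu
    have hu' := mem_Ico.1 hu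
    exact nonunit_win q u Q (GZ z) (by positivity) (fun n hn => hGb n (by rw [mem_Ioc] at hn; omega)) (hT1 u hu)
  refine (sum_le_sum h1).trans ?_
  rw [sum_const, Nat.card_Ico, nsmul_eq_mul]
  have h2 : 2 * Y - Y = Y := by omega
  rw [h2]
  apply mul_le_mul_of_nonneg_left _ hY0.le
  have h3 : (Q : ℝ) / q + 1 ≤ 2 * Q / q := by
    have : 1 ≤ (Q : ℝ) / q := by rw [le_div_iff₀ hq0]; linarith
    have e : 2 * (Q : ℝ) / q = Q / q + Q / q := by ring
    linarith
  have h4 : T ≤ Q / L ^ (A + 2) * (1 / 2) := by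
    rw [hT]
    have e1 : 150 * L ^ 3 + 6 * L * (L ^ 2 * ((Q : ℝ) / z + 1)) ≤ 156 * L ^ 3 + 6 * L ^ 3 * (Q / L ^ (A + 6)) := by
      have : (Q : ℝ) / z ≤ Q / L ^ (A + 6) := div_le_div_of_nonneg_left hQ0.le (by positivity) hzr
      calc 150 * L ^ 3 + 6 * L * (L ^ 2 * ((Q : ℝ) / z + 1)) = 156 * L ^ 3 + 6 * L ^ 3 * ((Q : ℝ) / z) := by ring
        _ ≤ _ := by gcongr
    refine e1.trans ?_
    have e2 : 6 * L ^ 3 * ((Q : ℝ) / L ^ (A + 6)) = Q / L ^ (A + 2) * (6 / L) := by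
      have : L ^ (A + 6) = L ^ (A + 2) * L ^ 3 * L := by ring
      rw [this]
      field_simp
    have e3 : 156 * L ^ 3 ≤ Q / L ^ (A + 2) * (156 / L) := by
      have : 156 * L ^ 3 = L ^ (A + 7) / L ^ (A + 2) * (156 / L) * (1 / L) := by
        have e : L ^ (A + 7) = L ^ (A + 2) * L ^ 5 := by ring
        rw [e]
        field_simp
      rw [this]
      calc L ^ (A + 7) / L ^ (A + 2) * (156 / L) * (1 / L) ≤ (Q : ℝ) / L ^ (A + 2) * (156 / L) * 1 := by
            have : 1 / L ≤ 1 := by rw [div_le_one hL0]; exact hL1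
            gcongr
        _ = _ := mul_one _
    have e4 : 6 / L + 156 / L ≤ 1 / 2 := by
      rw [← add_div, div_le_div_iff₀ hL0 two_pos]
      linarith
    have e5 : 0 ≤ (Q : ℝ) / L ^ (A + 2) := by positivity
    nlinarith
  calc ((Q : ℝ) / q + 1) * L ^ 2 * T ≤ (2 * Q / q) * L ^ 2 * (Q / L ^ (A + 2) * (1 / 2)) := by
        have hT0 : 0 ≤ T := by rw [hT]; positivity
        gcongr
    _ = (Q : ℝ) ^ 2 / (q * L ^ A) := by
        rw [pow_add]
        field_simp

end Pool.Agent.H567.HW
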