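import Pool.Agent.H567.HW.WBase
import Pool.Agent.H567.HW.Tiw

/-!
Project HW (helper567), part 11: sums of type I over short intervals, vector form.
-/

set_option autoImplicit false

namespace Pool.Agent.H567.HW

open Finset

/-- sums of type I, vector form -/
theorem ti_win {q Y W N M : ℕ} [NeZero q] (hN : N = 3 * Y) (hWY : W ≤ Y) (S : Finset (DirichletCharacter ℂ q))
    (hS : (1 : DirichletCharacter ℂ q) ∉ S) (hM : 1 ≤ M) (hMN : M ≤ N) (c : ℕ → ℂ) {T : ℝ} (hT : 0 ≤ T)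
    (hc : ∀ m, c m ≠ 0 → m ≤ M) (hc2 : ∀ m ∈ Icc 1 N, ‖c m‖ ≤ T) :
    ‖∑ m ∈ Icc 1 N, c m • ∑ b ∈ Icc 1 (N / m), evw S Y W (b * m)‖ ^ 2 ≤
      6 * (Y + (M : ℝ) ^ 2) * (T ^ 2 * (1 + Real.log M) ^ 3 * (q * W)) := by
  classical
  have h1 := TI.tiw (Y := Y) (W := W) S hS hM c hT (fun m hm => hc2 m (by
    rw [mem_Icc] at hm ⊢
    omega))
  refine le_trans (le_of_eq ?_) h1
  have e1 : ∑ m ∈ Icc 1 N, c m • ∑ b ∈ Icc 1 (N / m), evw S Y W (b * m) =
      ∑ x ∈ (Icc 1 N).sigma (fun m => Icc 1 (N / m)), (c x.1) • evw S Y W (x.2 * x.1) := by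
    rw [sum_sigma]
    exact sum_congr rfl fun m _ => smul_sum
  rw [e1, norm_evw S Y W _ (fun x : (Σ _ : ℕ, ℕ) => c x.1) (fun x => x.2 * x.1)]
  refine sum_congr rfl fun u hu => sum_congr rfl fun χ _ => ?_
  rw [mem_Ico] at hu
  congr 2
  rw [sum_filter, sum_sigma]
  have e2 : Icc 1 M ⊆ Icc 1 N := Icc_subset_Icc le_rfl hMN
  rw [← sum_subset e2 (f := fun m => ∑ b ∈ Icc 1 (N / m), if u < b * m ∧ b * m ≤ u + W then
    c m * χ ((b * m : ℕ) : ZMod q) else 0)]
  · refine sum_congr rfl fun m hm => ?_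
    rw [mem_Icc] at hm
    rw [← sum_filter, mul_sum]
    refine sum_nbij' (fun b => b * m) (fun n => n / m) ?_ ?_ ?_ ?_ ?_
    · intro b hb
      rw [mem_filter, mem_Icc] at hb
      rw [mem_filter, mem_Ioc]
      exact ⟨hb.2, Dvd.intro_left b rfl⟩
    · intro n hn
      rw [mem_filter, mem_Ioc] at hn
      obtain ⟨⟨h3, h4⟩, b, rfl⟩ := hn
      have hm0 : 0 < m := by omega
      rw [mem_filter, mem_Icc, Nat.mul_div_cancel_left b hm0, mul_comm b m]
      refine ⟨⟨?_, ?_⟩, h3, h4⟩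
      · rcases Nat.eq_zero_or_pos b with h0 | h0
        · subst h0; omega
        · exact h0
      · rw [Nat.le_div_iff_mul_le hm0, mul_comm]
        omega
    · intro b _
      have hm0 : 0 < m := by omega
      exact Nat.mul_div_cancel b hm0
    · intro n hn
      rw [mem_filter] at hn
      exact Nat.div_mul_cancel hn.2
    · intro b _
      rfl
  · intro m _ hm
    have : c m = 0 := by
      by_contra h
      have h3 := hc m h
      rw [mem_Icc] at hm
      by_cases h0 : m = 0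
      · subst h0
        simp_all
      · exact hm ⟨by omega, h3⟩
    simp [this]

end Pool.Agent.H567.HW
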