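import Pool.Agent.H567.HW.WinLA
import Pool.Graph.R_seed8.Y183.GJ.Bil1

/-!
Project HW (helper567), part 17: from short windows to longer windows and an additive twist.
-/

set_option autoImplicit false

namespace Pool.Agent.H567.HW

open Finset
open Pool.Agent.H807R2.Dav (ee)

/-- one window -/
lemma up_one {q : ℕ} [NeZero q] (S : Finset (DirichletCharacter ℂ q)) (G : ℕ → ℂ) {g η : ℝ} {u Q W J : ℕ}
    (hg0 : 0 ≤ g) (hJ1 : J * W ≤ Q) (hJ2 : Q ≤ J * W + W) (hg : ∀ n ∈ Ioc u (u + Q), ‖G n‖ ≤ g) :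
    ∑ χ ∈ S, ‖∑ n ∈ Ioc u (u + Q), G n * χ (n : ZMod q) * ee (n * η)‖ ^ 2 ≤
      3 * (J * ∑ j ∈ range J, ∑ χ ∈ S, ‖∑ n ∈ Ioc (u + j * W) (u + j * W + W), G n * χ (n : ZMod q)‖ ^ 2) +
      3 * (((Q : ℝ) + q) * (Q * (g * (7 * (|η| * W))) ^ 2)) + 3 * (((W : ℝ) + q) * (W * g ^ 2)) := by
  classical
  -- the twist, frozen at the beginning of each short window
  obtain ⟨v, hv⟩ : ∃ v : ℕ → ℕ, v = fun n => u + ((n - u - 1) / W) * W := ⟨_, rfl⟩
  have key : ∀ χ : DirichletCharacter ℂ q, ∑ n ∈ Ioc u (u + Q), G n * χ (n : ZMod q) * ee (n * η) =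
      ∑ j ∈ range J, ee (((u + j * W : ℕ) : ℝ) * η) *
        ∑ n ∈ Ioc (u + j * W) (u + j * W + W), G n * χ (n : ZMod q) +
      ∑ n ∈ Ioc u (u + J * W), (G n * (ee (n * η) - ee ((v n : ℕ) * η))) * χ (n : ZMod q) +
      ∑ n ∈ Ioc (u + J * W) (u + Q), (G n * ee (n * η)) * χ (n : ZMod q) := by
    intro χ
    have e1 : ∑ n ∈ Ioc u (u + Q), G n * χ (n : ZMod q) * ee (n * η) =
        ∑ n ∈ Ioc u (u + J * W), G n * χ (n : ZMod q) * ee (n * η) +
        ∑ n ∈ Ioc (u + J * W) (u + Q), G n * χ (n : ZMod q) * ee (n * η) :=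
      (Finset.sum_Ioc_consecutive (fun n : ℕ => G n * χ (n : ZMod q) * ee ((n : ℝ) * η)) (by omega) (by omega)).symm
    have e2 : ∀ J' : ℕ, J' ≤ J → ∑ n ∈ Ioc u (u + J' * W), G n * χ (n : ZMod q) * ee ((v n : ℕ) * η) =
        ∑ j ∈ range J', ee (((u + j * W : ℕ) : ℝ) * η) *
        ∑ n ∈ Ioc (u + j * W) (u + j * W + W), G n * χ (n : ZMod q) := by
      intro J'
      induction J' with
      | zero => intro _; simp
      | succ i ih =>
        intro hi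
        rw [sum_range_succ, ← ih (by omega)]
        have e3 : u + (i + 1) * W = u + i * W + W := by ring
        rw [e3, ← Finset.sum_Ioc_consecutive (fun n : ℕ => G n * χ (n : ZMod q) * ee ((v n : ℕ) * η))
          (show u ≤ u + i * W by omega) (show u + i * W ≤ u + i * W + W by omega)]
        congr 1
        rw [mul_sum]
        refine sum_congr rfl fun n hn => ?_
        rw [mem_Ioc] at hn
        have hW0 : 0 < W := by
          by_contra h
          have : W = 0 := by omega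
          omega
        have e4 : (n - u - 1) / W = i := by
          rw [Nat.div_eq_iff hW0]
          have : i * W + W - 1 = (i + 1) * W - 1 := by ring_nf
          constructor
          · omega
          · have : n - u - 1 ≤ i * W + W - 1 := by omega
            exact this
        rw [hv]
        simp only
        rw [e4]
        ring
    rw [e1, ← e2 J le_rfl, ← sum_add_distrib]
    congr 1
    · refine sum_congr rfl fun n _ => ?_
      ring
    · refine sum_congr rfl fun n _ => ?_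
      ring
  have hA : ∀ χ ∈ S, ‖∑ j ∈ range J, ee (((u + j * W : ℕ) : ℝ) * η) *
        ∑ n ∈ Ioc (u + j * W) (u + j * W + W), G n * χ (n : ZMod q)‖ ^ 2 ≤
      J * ∑ j ∈ range J, ‖∑ n ∈ Ioc (u + j * W) (u + j * W + W), G n * χ (n : ZMod q)‖ ^ 2 := by
    intro χ _
    have h1 := norm_sum_le (range J) (fun j => ee (((u + j * W : ℕ) : ℝ) * η) *
        ∑ n ∈ Ioc (u + j * W) (u + j * W + W), G n * χ (n : ZMod q))
    have h2 := pow_le_pow_left₀ (norm_nonneg _) h1 2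
    refine h2.trans ?_
    have h3 : ∀ j, ‖ee (((u + j * W : ℕ) : ℝ) * η) *
        ∑ n ∈ Ioc (u + j * W) (u + j * W + W), G n * χ (n : ZMod q)‖ =
        ‖∑ n ∈ Ioc (u + j * W) (u + j * W + W), G n * χ (n : ZMod q)‖ := by
      intro j
      rw [norm_mul, Pool.Agent.H807R2.Dav.norm_ee, one_mul]
    simp only [h3]
    have h4 := @sq_sum_le_card_mul_sum_sq ℕ ℝ _ _ _ _ (range J)
      (fun j => ‖∑ n ∈ Ioc (u + j * W) (u + j * W + W), G n * χ (n : ZMod q)‖)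
    rw [card_range] at h4
    exact h4
  have hsub : ∀ f : DirichletCharacter ℂ q → ℝ, (∀ χ, 0 ≤ f χ) → ∑ χ ∈ S, f χ ≤ ∑ χ, f χ :=
    fun f hf => sum_le_sum_of_subset_of_nonneg (subset_univ _) fun χ _ _ => hf χ
  have hB : ∑ χ ∈ S, ‖∑ n ∈ Ioc u (u + J * W), (G n * (ee (n * η) - ee ((v n : ℕ) * η))) * χ (n : ZMod q)‖ ^ 2 ≤
      ((Q : ℝ) + q) * (Q * (g * (7 * (|η| * W))) ^ 2) := by
    refine (hsub _ fun χ => sq_nonneg _).trans ?_
    refine (l2_s (Ioc u (u + J * W)) (fun n => G n * (ee (n * η) - ee ((v n : ℕ) * η))) u Q ?_).trans ?_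
    · exact Ioc_subset_Ioc le_rfl (by omega)
    apply mul_le_mul_of_nonneg_left _ (by positivity)
    have h1 : ∀ n ∈ Ioc u (u + J * W), ‖G n * (ee (n * η) - ee ((v n : ℕ) * η))‖ ^ 2 ≤ (g * (7 * (|η| * W))) ^ 2 := by
      intro n hn
      rw [mem_Ioc] at hn
      apply pow_le_pow_left₀ (norm_nonneg _)
      rw [norm_mul]
      apply mul_le_mul (hg n (mem_Ioc.2 ⟨hn.1, by omega⟩)) _ (norm_nonneg _) hg0
      refine (Pool.Agent.Y183.GJ.ee_sub _ _).trans ?_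
      have hW0 : 0 < W := by
        rcases Nat.eq_zero_or_pos W with h | h
        · subst h; omega
        · exact h
      have h2 : v n ≤ n ∧ n ≤ v n + W := by
        rw [hv]
        simp only
        have h3 := Nat.div_add_mod (n - u - 1) W
        have h4 := Nat.mod_lt (n - u - 1) hW0
        have h5 : (n - u - 1) / W * W = W * ((n - u - 1) / W) := Nat.mul_comm _ _
        omega
      have h3 : |(n : ℝ) * η - (v n : ℕ) * η| = |(n : ℝ) - (v n : ℕ)| * |η| := by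
        rw [← sub_mul, abs_mul]
      have h4 : |(n : ℝ) - (v n : ℕ)| ≤ W := by
        rw [abs_le]
        have h5 : ((v n : ℕ) : ℝ) ≤ n := by exact_mod_cast h2.1
        have h6 : (n : ℝ) ≤ (v n : ℕ) + W := by exact_mod_cast h2.2
        constructor
        · have : (0 : ℝ) ≤ W := Nat.cast_nonneg _
          linarith
        · linarith
      rw [h3]
      have := mul_le_mul_of_nonneg_right h4 (abs_nonneg η)
      linarith
    refine (sum_le_sum h1).trans ?_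
    rw [sum_const, Nat.card_Ioc, nsmul_eq_mul]
    apply mul_le_mul_of_nonneg_right _ (sq_nonneg _)
    have : u + J * W - u ≤ Q := by omega
    exact_mod_cast this
  have hC : ∑ χ ∈ S, ‖∑ n ∈ Ioc (u + J * W) (u + Q), (G n * ee (n * η)) * χ (n : ZMod q)‖ ^ 2 ≤
      ((W : ℝ) + q) * (W * g ^ 2) := by
    refine (hsub _ fun χ => sq_nonneg _).trans ?_
    refine (l2_s (Ioc (u + J * W) (u + Q)) (fun n => G n * ee (n * η)) (u + J * W) W ?_).trans ?_
    · exact Ioc_subset_Ioc le_rfl (by omega)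
    apply mul_le_mul_of_nonneg_left _ (by positivity)
    have h1 : ∀ n ∈ Ioc (u + J * W) (u + Q), ‖G n * ee (n * η)‖ ^ 2 ≤ g ^ 2 := by
      intro n hn
      rw [mem_Ioc] at hn
      apply pow_le_pow_left₀ (norm_nonneg _)
      rw [norm_mul, Pool.Agent.H807R2.Dav.norm_ee, mul_one]
      exact hg n (mem_Ioc.2 ⟨by omega, by omega⟩)
    refine (sum_le_sum h1).trans ?_
    rw [sum_const, Nat.card_Ioc, nsmul_eq_mul]
    apply mul_le_mul_of_nonneg_right _ (sq_nonneg _)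
    have : u + Q - (u + J * W) ≤ W := by omega
    exact_mod_cast this
  calc ∑ χ ∈ S, ‖∑ n ∈ Ioc u (u + Q), G n * χ (n : ZMod q) * ee (n * η)‖ ^ 2
      ≤ ∑ χ ∈ S, (3 * (J * ∑ j ∈ range J, ‖∑ n ∈ Ioc (u + j * W) (u + j * W + W), G n * χ (n : ZMod q)‖ ^ 2) +
        3 * ‖∑ n ∈ Ioc u (u + J * W), (G n * (ee (n * η) - ee ((v n : ℕ) * η))) * χ (n : ZMod q)‖ ^ 2 +
        3 * ‖∑ n ∈ Ioc (u + J * W) (u + Q), (G n * ee (n * η)) * χ (n : ZMod q)‖ ^ 2) := by
        refine sum_le_sum fun χ hχ => ?_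
        rw [key χ]
        refine sq3.trans ?_
        have := hA χ hχ
        linarith
    _ = 3 * (J * ∑ j ∈ range J, ∑ χ ∈ S, ‖∑ n ∈ Ioc (u + j * W) (u + j * W + W), G n * χ (n : ZMod q)‖ ^ 2) +
        3 * ∑ χ ∈ S, ‖∑ n ∈ Ioc u (u + J * W), (G n * (ee (n * η) - ee ((v n : ℕ) * η))) * χ (n : ZMod q)‖ ^ 2 +
        3 * ∑ χ ∈ S, ‖∑ n ∈ Ioc (u + J * W) (u + Q), (G n * ee (n * η)) * χ (n : ZMod q)‖ ^ 2 := by
        rw [sum_add_distrib, sum_add_distrib, ← mul_sum, ← mul_sum, ← mul_sum, ← mul_sum]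
        congr 4
        exact sum_comm
    _ ≤ _ := by linarith

/-- all the windows -/
lemma win_up {q Y Q W J : ℕ} [NeZero q] (S : Finset (DirichletCharacter ℂ q)) (G : ℕ → ℂ) {g η E : ℝ}
    (hg0 : 0 ≤ g) (hJ1 : J * W ≤ Q) (hJ2 : Q ≤ J * W + W) (hQY : Q ≤ 2 * Y)
    (hg : ∀ n, n ≤ 4 * Y → ‖G n‖ ≤ g)
    (hE : ∑ v ∈ Ico Y (4 * Y), ∑ χ ∈ S, ‖∑ n ∈ Ioc v (v + W), G n * χ (n : ZMod q)‖ ^ 2 ≤ E) :
    ∑ u ∈ Ico Y (2 * Y), ∑ χ ∈ S, ‖∑ n ∈ Ioc u (u + Q), G n * χ (n : ZMod q) * ee (n * η)‖ ^ 2 ≤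
      3 * ((J : ℝ) ^ 2 * E) + Y * (3 * (((Q : ℝ) + q) * (Q * (g * (7 * (|η| * W))) ^ 2)) +
        3 * (((W : ℝ) + q) * (W * g ^ 2))) := by
  obtain ⟨Z, hZ⟩ : ∃ Z : ℝ, Z = 3 * (((Q : ℝ) + q) * (Q * (g * (7 * (|η| * W))) ^ 2)) +
        3 * (((W : ℝ) + q) * (W * g ^ 2)) := ⟨_, rfl⟩
  rw [← hZ]
  obtain ⟨f, hf⟩ : ∃ f : ℕ → ℝ, f = fun v => ∑ χ ∈ S, ‖∑ n ∈ Ioc v (v + W), G n * χ (n : ZMod q)‖ ^ 2 := ⟨_, rfl⟩
  have hf0 : ∀ v, 0 ≤ f v := fun v => by rw [hf]; exact sum_nonneg fun _ _ => sq_nonneg _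
  have h1 : ∀ u ∈ Ico Y (2 * Y), ∑ χ ∈ S, ‖∑ n ∈ Ioc u (u + Q), G n * χ (n : ZMod q) * ee (n * η)‖ ^ 2 ≤
      3 * (J * ∑ j ∈ range J, f (u + j * W)) + Z := by
    intro u hu
    rw [mem_Ico] at hu
    have h2 := up_one S G (η := η) (u := u) hg0 hJ1 hJ2 (fun n hn => hg n (by rw [mem_Ioc] at hn; omega))
    rw [hf, hZ]
    simp only
    linarith
  refine (sum_le_sum h1).trans ?_
  rw [sum_add_distrib, sum_const, Nat.card_Ico, nsmul_eq_mul]
  have h2 : 2 * Y - Y = Y := by omega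
  rw [h2, ← mul_sum, ← mul_sum, sum_comm]
  have h3 : ∀ j ∈ range J, ∑ u ∈ Ico Y (2 * Y), f (u + j * W) ≤ E := by
    intro j hj
    rw [mem_range] at hj
    refine le_trans ?_ hE
    have h4 : ∑ u ∈ Ico Y (2 * Y), f (u + j * W) = ∑ v ∈ Ico (Y + j * W) (2 * Y + j * W), f v :=
      Finset.sum_Ico_add' f Y (2 * Y) (j * W)
    rw [h4, hf]
    apply sum_le_sum_of_subset_of_nonneg
    · have h5 : j * W + W ≤ Q := by
        have : (j + 1) * W ≤ J * W := Nat.mul_le_mul_right W hj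
        have e : (j + 1) * W = j * W + W := by ring
        omega
      intro v hv
      rw [mem_Ico] at hv ⊢
      rcases Nat.eq_zero_or_pos W with hW | hW
      · subst hW
        omega
      · omega
    · intro v _ _
      exact sum_nonneg fun _ _ => sq_nonneg _
  have h4 : ∑ j ∈ range J, ∑ u ∈ Ico Y (2 * Y), f (u + j * W) ≤ J * E := by
    refine (sum_le_sum h3).trans ?_
    rw [sum_const, card_range, nsmul_eq_mul]
  have h5 : (0 : ℝ) ≤ J := Nat.cast_nonneg _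
  have h6 := mul_le_mul_of_nonneg_left h4 h5
  have h7 : 3 * ((J : ℝ) ^ 2 * E) = 3 * ((J : ℝ) * (J * E)) := by ring
  rw [h7]
  linarith

end Pool.Agent.H567.HW
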