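import Pool.Agent.H567.HW.Hls
import Pool.Graph.R_pool_sql_team_seeded_620a6dc7.helper24_UT_.Win

/-!
Project HW (helper567), part 2: short sums twisted by characters and frequencies (all characters modulo `q` at once).
Adapted from `helper24_UT/Win`.
-/

set_option autoImplicit false

namespace Pool.Agent.H567.HW

open Finset MeasureTheory
open Pool.Agent.H376R2.MR (ch DP FK)
open Pool.Agent.helper24_UT.Win (ci AA kap AA_meas AA_norm ci_meas ci_norm pars kap_le kap_le' FK_mem FK_mono cs)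

/-- the twisted coefficients -/
noncomputable def tc {q : ℕ} (a : ℕ → ℂ) (χ : DirichletCharacter ℂ q) (n : ℕ) : ℂ := a n * χ (n : ZMod q)

/-- energy of the coefficients -/
noncomputable def En2 (s : Finset ℕ) (a : ℕ → ℂ) : ℝ := ∑ n ∈ s, ‖a n‖ ^ 2

lemma En2_nonneg (s : Finset ℕ) (a : ℕ → ℂ) : 0 ≤ En2 s a := sum_nonneg fun _ _ => sq_nonneg _

/-- the large sieve in the form needed here -/
lemma hls6 {q K Y : ℕ} [NeZero q] (hK : 1 ≤ K) (hY : 1 ≤ Y) (s : Finset ℕ) (a : ℕ → ℂ)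
    (hs : ∀ n ∈ s, Y < 4 * n ∧ n ≤ 12 * Y) :
    ∑ χ : DirichletCharacter ℂ q, ∑ k ∈ FK K, ‖DP s (tc a χ) k‖ ^ 2 ≤
      3584 * c0 * (Y + q * K) * En2 s a := by
  have h1 := hls (q := q) hK 6 (Y / 4 + 1) (by omega) s a (fun n hn => by
    have := hs n hn
    omega)
  refine h1.trans ?_
  have hE := En2_nonneg s a
  have hc := c0_pos
  have h2 : ((Y / 4 + 1 : ℕ) : ℝ) ≤ 2 * Y := by
    have : Y / 4 + 1 ≤ 2 * Y := by omega
    exact_mod_cast this
  have hq : (0 : ℝ) ≤ q := Nat.cast_nonneg q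
  have hK0 : (0 : ℝ) ≤ K := Nat.cast_nonneg K
  unfold En2 at hE ⊢
  have h3 : ((6 : ℕ) : ℝ) + 1 = 7 := by norm_num
  rw [h3]
  have h4 : 7 * (4 * c0 * (2 ^ 6 * ((Y / 4 + 1 : ℕ) : ℝ) + q * K)) ≤ 3584 * c0 * (Y + q * K) := by
    have h5 : 2 ^ 6 * ((Y / 4 + 1 : ℕ) : ℝ) + q * K ≤ 128 * (Y + q * K) := by
      have : 0 ≤ (q : ℝ) * K := by positivity
      linarith
    calc 7 * (4 * c0 * (2 ^ 6 * ((Y / 4 + 1 : ℕ) : ℝ) + q * K)) ≤ 7 * (4 * c0 * (128 * (Y + q * K))) := by gcongr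
      _ = _ := by ring
  exact mul_le_mul_of_nonneg_right h4 hE

/-- the tail -/
lemma tailV {q K Y : ℕ} [NeZero q] (hK : 1 ≤ K) (hY : 1 ≤ Y) (s : Finset ℕ) (a : ℕ → ℂ)
    (hs : ∀ n ∈ s, Y < 4 * n ∧ n ≤ 12 * Y) (N : ℕ) :
    ∑ k ∈ FK (2 ^ N * K) \ FK K, (∑ χ : DirichletCharacter ℂ q, ‖DP s (tc a χ) k‖ ^ 2) / (k : ℝ) ^ 2 ≤
      3584 * c0 * En2 s a * ((Y : ℝ) / K ^ 2 * (2 - 2 / 4 ^ N) + q / K * (4 - 4 / 2 ^ N)) := by
  have hKR : (1 : ℝ) ≤ K := by exact_mod_cast hK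
  have hc := c0_pos
  have hE := En2_nonneg s a
  induction N with
  | zero => simp
  | succ N ih =>
    obtain ⟨G, hG⟩ : ∃ G : ℤ → ℝ, G = fun k => ∑ χ : DirichletCharacter ℂ q, ‖DP s (tc a χ) k‖ ^ 2 := ⟨_, rfl⟩
    have hG0 : ∀ k, 0 ≤ G k := fun k => by rw [hG]; exact sum_nonneg fun _ _ => sq_nonneg _
    have hGe : ∀ k, ∑ χ : DirichletCharacter ℂ q, ‖DP s (tc a χ) k‖ ^ 2 = G k := fun k => by rw [hG]
    simp only [hGe] at ih ⊢
    have h1 : FK (2 ^ (N + 1) * K) \ FK K ⊆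
        (FK (2 ^ N * K) \ FK K) ∪ (FK (2 ^ (N + 1) * K) \ FK (2 ^ N * K)) := by
      intro k hk
      rw [Finset.mem_sdiff] at hk
      rw [Finset.mem_union, Finset.mem_sdiff, Finset.mem_sdiff]
      tauto
    have h2 : ∑ k ∈ FK (2 ^ (N + 1) * K) \ FK (2 ^ N * K), G k / (k : ℝ) ^ 2 ≤
        1 / ((2 : ℝ) ^ N * K) ^ 2 * (3584 * c0 * (Y + q * (2 ^ (N + 1) * K)) * En2 s a) := by
      have h3 := hls6 (q := q) (K := 2 ^ (N + 1) * K) (Nat.one_le_iff_ne_zero.2 (by positivity)) hY s a hs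
      rw [sum_comm] at h3
      simp only [hGe] at h3
      push_cast at h3
      refine le_trans ?_ (mul_le_mul_of_nonneg_left h3 (by positivity))
      rw [Finset.mul_sum]
      calc ∑ k ∈ FK (2 ^ (N + 1) * K) \ FK (2 ^ N * K), G k / (k : ℝ) ^ 2
          ≤ ∑ k ∈ FK (2 ^ (N + 1) * K) \ FK (2 ^ N * K), 1 / ((2 : ℝ) ^ N * K) ^ 2 * G k := by
            refine Finset.sum_le_sum fun k hk => ?_
            rw [Finset.mem_sdiff, FK_mem, FK_mem, not_lt] at hk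
            have h4 : ((2 : ℝ) ^ N * K) ≤ |(k : ℝ)| := by
              have := hk.2
              have h5 : (((2 ^ N * K : ℕ) : ℤ) : ℝ) ≤ ((|k| : ℤ) : ℝ) := by exact_mod_cast this
              push_cast at h5
              exact h5
            have h5 : ((2 : ℝ) ^ N * K) ^ 2 ≤ (k : ℝ) ^ 2 := by
              rw [← sq_abs (k : ℝ)]
              exact pow_le_pow_left₀ (by positivity) h4 2
            have h6 : 1 / (k : ℝ) ^ 2 ≤ 1 / ((2 : ℝ) ^ N * K) ^ 2 :=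
              one_div_le_one_div_of_le (by positivity) h5
            calc G k / (k : ℝ) ^ 2 = 1 / (k : ℝ) ^ 2 * G k := by ring
              _ ≤ _ := mul_le_mul_of_nonneg_right h6 (hG0 k)
        _ ≤ ∑ k ∈ FK (2 ^ (N + 1) * K), 1 / ((2 : ℝ) ^ N * K) ^ 2 * G k :=
            Finset.sum_le_sum_of_subset_of_nonneg Finset.sdiff_subset
              fun k _ _ => mul_nonneg (by positivity) (hG0 k)
    have h7 : ∑ k ∈ FK (2 ^ (N + 1) * K) \ FK K, G k / (k : ℝ) ^ 2 ≤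
        ∑ k ∈ (FK (2 ^ N * K) \ FK K) ∪ (FK (2 ^ (N + 1) * K) \ FK (2 ^ N * K)), G k / (k : ℝ) ^ 2 :=
      Finset.sum_le_sum_of_subset_of_nonneg h1 fun k _ _ => div_nonneg (hG0 k) (sq_nonneg _)
    have h8 : ∑ k ∈ (FK (2 ^ N * K) \ FK K) ∪ (FK (2 ^ (N + 1) * K) \ FK (2 ^ N * K)), G k / (k : ℝ) ^ 2 ≤
        ∑ k ∈ FK (2 ^ N * K) \ FK K, G k / (k : ℝ) ^ 2 +
        ∑ k ∈ FK (2 ^ (N + 1) * K) \ FK (2 ^ N * K), G k / (k : ℝ) ^ 2 := by
      rw [← Finset.sum_union_inter]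
      have : 0 ≤ ∑ k ∈ (FK (2 ^ N * K) \ FK K) ∩ (FK (2 ^ (N + 1) * K) \ FK (2 ^ N * K)), G k / (k : ℝ) ^ 2 :=
        Finset.sum_nonneg fun k _ => div_nonneg (hG0 k) (sq_nonneg _)
      linarith
    refine (h7.trans h8).trans ((add_le_add ih h2).trans ?_)
    have h4N : ((4 : ℝ) ^ N) = (2 ^ N) ^ 2 := by
      rw [← pow_mul, mul_comm, pow_mul]
      norm_num
    have h9 : 1 / ((2 : ℝ) ^ N * K) ^ 2 * (3584 * c0 * (Y + q * (2 ^ (N + 1) * K)) * En2 s a) =
        3584 * c0 * En2 s a * ((Y : ℝ) / K ^ 2 * (1 / 4 ^ N) + q / K * (2 / 2 ^ N)) := by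
      rw [h4N, pow_succ]
      field_simp
      ring
    rw [h9, ← mul_add]
    apply mul_le_mul_of_nonneg_left _ (by positivity)
    have h10 : (0 : ℝ) < 1 / 4 ^ N := by positivity
    have h11 : (2 : ℝ) / 4 ^ (N + 1) = 1 / 2 * (1 / 4 ^ N) := by
      rw [pow_succ]
      field_simp
      norm_num
    have h12 : (4 : ℝ) / 2 ^ (N + 1) = 2 / 2 ^ N := by
      rw [pow_succ]
      field_simp
      norm_num
    have h13 : (2 : ℝ) / 4 ^ N = 2 * (1 / 4 ^ N) := by ring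
    have h14 : (4 : ℝ) / 2 ^ N = 2 * (2 / 2 ^ N) := by ring
    rw [h11, h12, h13, h14]
    have h15 : (0 : ℝ) ≤ (Y : ℝ) / K ^ 2 := by positivity
    nlinarith [mul_nonneg h15 h10.le]

/-- the mean square of the short sums in logarithmic scale -/
lemma energyV {q K Y : ℕ} [NeZero q] (hK : 1 ≤ K) (hY : 1 ≤ Y) (s : Finset ℕ) (a : ℕ → ℂ)
    (hs : ∀ n ∈ s, Y < 4 * n ∧ n ≤ 12 * Y) (S : Finset (DirichletCharacter ℂ q)) {h lo : ℝ} (hh : 0 < h)
    (hh1 : h ≤ 1) (hlo : lo = Real.log Y - Real.log 4 - h) :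
    ∑ χ ∈ S, ∫ x in lo..(lo + 2 * Real.pi), ‖AA s (tc a χ) h x‖ ^ 2 ≤
      h ^ 2 * ∑ χ ∈ S, ∑ k ∈ FK K, ‖DP s (tc a χ) k‖ ^ 2 +
        57344 * c0 * En2 s a * ((Y : ℝ) / K ^ 2 + q / K) := by
  have hYR : (1 : ℝ) ≤ Y := by exact_mod_cast hY
  have hKR : (1 : ℝ) ≤ K := by exact_mod_cast hK
  have hpi := Real.pi_gt_three
  have hc := c0_pos
  have hE2 := En2_nonneg s a
  have hl48 : Real.log 4 + Real.log 12 ≤ 4 := by
    rw [← Real.log_mul (by norm_num) (by norm_num)]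
    have h1 : Real.log (4 * 12) ≤ Real.log (Real.exp 4) := by
      apply Real.log_le_log (by norm_num)
      have h2 : (2.7182818283 : ℝ) < Real.exp 1 := Real.exp_one_gt_d9
      have h3 : Real.exp 4 = Real.exp 1 ^ 4 := by
        rw [← Real.exp_nat_mul]
        norm_num
      rw [h3]
      calc (4 * 12 : ℝ) ≤ 2.7182818283 ^ 4 := by norm_num
        _ ≤ _ := pow_le_pow_left₀ (by norm_num) h2.le 4
    rwa [Real.log_exp] at h1
  have h1 : ∀ n ∈ s, lo < Real.log n - h := by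
    intro n hn
    have h2 := (hs n hn).1
    have h3 : (Y : ℝ) < 4 * n := by exact_mod_cast h2
    have h4 : Real.log Y < Real.log (4 * n) := Real.log_lt_log (by linarith) h3
    have hn0 : (n : ℝ) ≠ 0 := by
      intro h0
      rw [h0] at h3
      linarith
    rw [Real.log_mul (by norm_num) hn0] at h4
    rw [hlo]
    linarith
  have h2 : ∀ n ∈ s, Real.log n ≤ lo + 2 * Real.pi := by
    intro n hn
    have h3 := hs n hn
    have h4 : (n : ℝ) ≤ 12 * Y := by exact_mod_cast h3.2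
    have hn0 : (0 : ℝ) < n := by
      have : 0 < n := by omega
      exact_mod_cast this
    have h5 := Real.log_le_log hn0 h4
    rw [Real.log_mul (by norm_num) (by linarith)] at h5
    rw [hlo]
    linarith
  have hsumS : HasSum (fun k : ℤ => ∑ χ ∈ S, ‖kap h k‖ ^ 2 * ‖DP s (tc a χ) k‖ ^ 2)
      (∑ χ ∈ S, 2 * Real.pi * ∫ x in lo..(lo + 2 * Real.pi), ‖AA s (tc a χ) h x‖ ^ 2) :=
    hasSum_sum fun χ _ => pars s (tc a χ) hh h1 h2
  rw [← mul_sum] at hsumS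
  set E := ∑ χ ∈ S, ∫ x in lo..(lo + 2 * Real.pi), ‖AA s (tc a χ) h x‖ ^ 2 with hE
  obtain ⟨G, hG⟩ : ∃ G : ℤ → ℝ, G = fun k => ∑ χ : DirichletCharacter ℂ q, ‖DP s (tc a χ) k‖ ^ 2 := ⟨_, rfl⟩
  obtain ⟨GS, hGS⟩ : ∃ GS : ℤ → ℝ, GS = fun k => ∑ χ ∈ S, ‖DP s (tc a χ) k‖ ^ 2 := ⟨_, rfl⟩
  have hG0 : ∀ k, 0 ≤ G k := fun k => by rw [hG]; exact sum_nonneg fun _ _ => sq_nonneg _
  have hGS0 : ∀ k, 0 ≤ GS k := fun k => by rw [hGS]; exact sum_nonneg fun _ _ => sq_nonneg _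
  have hGle : ∀ k, GS k ≤ G k := fun k => by
    rw [hGS, hG]
    exact sum_le_sum_of_subset_of_nonneg (subset_univ S) fun _ _ _ => sq_nonneg _
  have hGe : ∀ k, ∑ χ : DirichletCharacter ℂ q, ‖DP s (tc a χ) k‖ ^ 2 = G k := fun k => by rw [hG]
  have hfun : ∀ k : ℤ, ∑ χ ∈ S, ‖kap h k‖ ^ 2 * ‖DP s (tc a χ) k‖ ^ 2 = ‖kap h k‖ ^ 2 * GS k := fun k => by
    rw [← mul_sum, hGS]
  simp only [hfun] at hsumS
  have hSS : ∑ χ ∈ S, ∑ k ∈ FK K, ‖DP s (tc a χ) k‖ ^ 2 = ∑ k ∈ FK K, GS k := by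
    rw [sum_comm, hGS]
  rw [hSS]
  set B := h ^ 2 * ∑ k ∈ FK K, GS k + 57344 * c0 * En2 s a * ((Y : ℝ) / K ^ 2 + q / K) with hB
  have hE0 : 0 ≤ E := by
    apply sum_nonneg
    intro χ _
    apply intervalIntegral.integral_nonneg (by linarith)
    intro x _
    positivity
  have key : 2 * Real.pi * E ≤ B := by
    refine hasSum_le_of_sum_le hsumS fun F => ?_
    obtain ⟨N, hN⟩ : ∃ N : ℕ, F ⊆ FK (2 ^ N * K) := by
      refine ⟨∑ k ∈ F, k.natAbs + 1, fun k hk => ?_⟩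
      rw [FK_mem]
      have h3 : k.natAbs ≤ ∑ k ∈ F, k.natAbs :=
        Finset.single_le_sum (f := fun k : ℤ => k.natAbs) (fun _ _ => Nat.zero_le _) hk
      have h4 : ∑ k ∈ F, k.natAbs + 1 < 2 ^ (∑ k ∈ F, k.natAbs + 1) := Nat.lt_two_pow_self
      have h5 : 2 ^ (∑ k ∈ F, k.natAbs + 1) ≤ 2 ^ (∑ k ∈ F, k.natAbs + 1) * K :=
        Nat.le_mul_of_pos_right _ hK
      have h6 : k.natAbs < 2 ^ (∑ k ∈ F, k.natAbs + 1) * K := by omega
      rw [Int.abs_eq_natAbs]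
      exact_mod_cast h6
    calc ∑ k ∈ F, ‖kap h k‖ ^ 2 * GS k
        ≤ ∑ k ∈ FK (2 ^ N * K), ‖kap h k‖ ^ 2 * GS k :=
          Finset.sum_le_sum_of_subset_of_nonneg hN fun k _ _ => mul_nonneg (by positivity) (hGS0 k)
      _ = ∑ k ∈ FK (2 ^ N * K) \ FK K, ‖kap h k‖ ^ 2 * GS k + ∑ k ∈ FK K, ‖kap h k‖ ^ 2 * GS k :=
          (Finset.sum_sdiff (FK_mono (Nat.le_mul_of_pos_left _ (by positivity)))).symm
      _ ≤ ∑ k ∈ FK (2 ^ N * K) \ FK K, 4 * (G k / (k : ℝ) ^ 2) + ∑ k ∈ FK K, h ^ 2 * GS k := by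
          apply add_le_add
          · refine Finset.sum_le_sum fun k hk => ?_
            rw [Finset.mem_sdiff, FK_mem, FK_mem, not_lt] at hk
            have hk0 : k ≠ 0 := by
              rintro rfl
              have : (K : ℤ) ≤ 0 := by simpa using hk.2
              omega
            have h3 := pow_le_pow_left₀ (norm_nonneg _) (kap_le' (h := h) k hk0) 2
            rw [div_pow, sq_abs] at h3
            calc ‖kap h k‖ ^ 2 * GS k ≤ 2 ^ 2 / (k : ℝ) ^ 2 * G k :=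
                  mul_le_mul h3 (hGle k) (hGS0 k) (by positivity)
              _ = _ := by ring
          · refine Finset.sum_le_sum fun k _ => ?_
            exact mul_le_mul_of_nonneg_right
              (pow_le_pow_left₀ (norm_nonneg _) (kap_le hh k) 2) (hGS0 k)
      _ ≤ B := by
          rw [← Finset.mul_sum, ← Finset.mul_sum, hB, add_comm]
          have h3 := tailV (q := q) hK hY s a hs N
          simp only [hGe] at h3
          have h4 : 3584 * c0 * En2 s a * ((Y : ℝ) / K ^ 2 * (2 - 2 / 4 ^ N) + q / K * (4 - 4 / 2 ^ N)) ≤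
              14336 * c0 * En2 s a * ((Y : ℝ) / K ^ 2 + q / K) := by
            have h5 : (0 : ℝ) ≤ 2 / 4 ^ N := by positivity
            have h6 : (0 : ℝ) ≤ 4 / 2 ^ N := by positivity
            have h7 : (Y : ℝ) / K ^ 2 * (2 - 2 / 4 ^ N) + q / K * (4 - 4 / 2 ^ N) ≤
                4 * ((Y : ℝ) / K ^ 2 + q / K) := by
              have h8 : (Y : ℝ) / K ^ 2 * (2 - 2 / 4 ^ N) ≤ (Y : ℝ) / K ^ 2 * 4 :=
                mul_le_mul_of_nonneg_left (by linarith) (by positivity)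
              have h9 : (q : ℝ) / (K : ℝ) * (4 - 4 / 2 ^ N) ≤ q / K * 4 :=
                mul_le_mul_of_nonneg_left (by linarith) (by positivity)
              linarith
            calc _ ≤ 3584 * c0 * En2 s a * (4 * ((Y : ℝ) / K ^ 2 + q / K)) :=
                  mul_le_mul_of_nonneg_left h7 (by positivity)
              _ = _ := by ring
          linarith
  nlinarith

/-- the intervals of `x` overlap at most `W` times -/
lemma overlapV {Y W : ℕ} {h lo M : ℝ} {g : ℝ → ℝ} (hY : 1 ≤ Y) (hWY : W ≤ Y)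
    (hh : 0 < h) (_hh1 : h ≤ 1) (hlo : lo = Real.log Y - Real.log 4 - h) (hg : Measurable g)
    (hg0 : ∀ x, 0 ≤ g x) (hgM : ∀ x, g x ≤ M) :
    ∑ u ∈ Ico Y (2 * Y), ∫ x in Set.Icc (Real.log u) (Real.log (u + W : ℕ) - h), g x ≤
      W * ∫ x in lo..(lo + 2 * Real.pi), g x := by
  have hpi := Real.pi_gt_three
  have hl12 : Real.log 4 + Real.log 3 ≤ 4 := by
    have h1 := Real.log_le_sub_one_of_pos (show (0 : ℝ) < 3 by norm_num)
    have h2 : Real.log 4 = 2 * Real.log 2 := by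
      rw [show (4 : ℝ) = 2 ^ 2 by norm_num, Real.log_pow]
      norm_num
    have h3 := Real.log_two_lt_d9
    linarith
  have hl4 : 0 < Real.log 4 := Real.log_pos (by norm_num)
  have hYR : (1 : ℝ) ≤ Y := by exact_mod_cast hY
  have hbd : ∀ x, ‖g x‖ ≤ M := fun x => by
    rw [Real.norm_eq_abs, abs_of_nonneg (hg0 x)]
    exact hgM x
  rw [intervalIntegral.integral_of_le (by linarith)]
  set D := Set.Ioc lo (lo + 2 * Real.pi) with hD
  have hDfin : volume D ≠ ⊤ := measure_Ioc_lt_top.ne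
  let I : ℕ → Set ℝ := fun u => Set.Icc (Real.log u) (Real.log (u + W : ℕ) - h)
  have hID : ∀ u ∈ Ico Y (2 * Y), I u ⊆ D := by
    intro u hu x hx
    rw [Finset.mem_Ico] at hu
    have hu0 : (1 : ℝ) ≤ u := by exact_mod_cast (by omega : 1 ≤ u)
    have h1 : Real.log Y ≤ Real.log u := Real.log_le_log (by linarith) (by exact_mod_cast hu.1)
    have h2 : Real.log (u + W : ℕ) ≤ Real.log (3 * Y) := by
      apply Real.log_le_log
      · exact_mod_cast (by omega : 0 < u + W)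
      · exact_mod_cast (by omega : u + W ≤ 3 * Y)
    rw [Real.log_mul (by norm_num) (by linarith)] at h2
    exact ⟨by linarith [hx.1], by linarith [hx.2]⟩
  have e1 : ∀ u ∈ Ico Y (2 * Y), ∫ x in I u, g x = ∫ x in D, (I u).indicator g x := by
    intro u hu
    rw [setIntegral_indicator measurableSet_Icc, Set.inter_eq_right.2 (hID u hu)]
  have hint : ∀ u : ℕ, IntegrableOn ((I u).indicator g) D := by
    intro u
    refine Measure.integrableOn_of_bounded (M := M) hDfin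
      (hg.indicator measurableSet_Icc).aestronglyMeasurable ?_
    exact Filter.Eventually.of_forall fun x => (norm_indicator_le_norm_self _ _).trans (hbd x)
  have hintg : IntegrableOn g D := by
    refine Measure.integrableOn_of_bounded (M := M) hDfin hg.aestronglyMeasurable ?_
    exact Filter.Eventually.of_forall fun x => hbd x
  rw [Finset.sum_congr rfl e1, ← integral_finsetSum _ (fun u _ => hint u), ← integral_const_mul]
  apply integral_mono (integrable_finsetSum _ fun u _ => hint u) (hintg.const_mul _)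
  intro x
  simp only
  have e2 : ∀ u ∈ Ico Y (2 * Y), (I u).indicator g x =
      if u ∈ Icc (⌊Real.exp x⌋₊ + 1 - W) ⌊Real.exp x⌋₊ then (I u).indicator g x else 0 := by
    intro u hu
    rw [Finset.mem_Ico] at hu
    split_ifs with hc
    · rfl
    · apply Set.indicator_of_notMem
      intro hx
      apply hc
      have hu0 : (0 : ℝ) < u := by exact_mod_cast (by omega : 0 < u)
      have huW0 : (0 : ℝ) < (u + W : ℕ) := by exact_mod_cast (by omega : 0 < u + W)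
      have h1 : (u : ℝ) ≤ Real.exp x := by
        rw [← Real.log_le_iff_le_exp hu0]
        exact hx.1
      have h2 : Real.exp x < (u + W : ℕ) := by
        rw [← Real.lt_log_iff_exp_lt huW0]
        linarith [hx.2]
      have h3 : u ≤ ⌊Real.exp x⌋₊ := Nat.le_floor h1
      have h4 : ⌊Real.exp x⌋₊ < u + W := (Nat.floor_lt (Real.exp_pos x).le).2 h2
      rw [Finset.mem_Icc]
      omega
  rw [Finset.sum_congr rfl e2, Finset.sum_ite_mem]
  calc ∑ u ∈ Ico Y (2 * Y) ∩ Icc (⌊Real.exp x⌋₊ + 1 - W) ⌊Real.exp x⌋₊, (I u).indicator g x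
      ≤ ∑ u ∈ Ico Y (2 * Y) ∩ Icc (⌊Real.exp x⌋₊ + 1 - W) ⌊Real.exp x⌋₊, g x := by
        refine Finset.sum_le_sum fun u _ => ?_
        exact Set.indicator_le_self' (fun _ _ => hg0 x) x
    _ = ((Ico Y (2 * Y) ∩ Icc (⌊Real.exp x⌋₊ + 1 - W) ⌊Real.exp x⌋₊).card : ℝ) * g x := by
        rw [Finset.sum_const, nsmul_eq_mul]
    _ ≤ W * g x := by
        apply mul_le_mul_of_nonneg_right _ (hg0 x)
        have h1 := Finset.card_le_card (Finset.inter_subset_right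
          (s₁ := Ico Y (2 * Y)) (s₂ := Icc (⌊Real.exp x⌋₊ + 1 - W) ⌊Real.exp x⌋₊))
        rw [Nat.card_Icc] at h1
        have h2 : (Ico Y (2 * Y) ∩ Icc (⌊Real.exp x⌋₊ + 1 - W) ⌊Real.exp x⌋₊).card ≤ W := by omega
        exact_mod_cast h2

end Pool.Agent.H567.HW
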