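import Pool.Agent.H567.HW.Win

/-!
Project HW (helper567), part 3: sums over the intervals `(u, u + W]`, all characters, in terms of frequencies.
-/

set_option autoImplicit false

namespace Pool.Agent.H567.HW

open Finset MeasureTheory
open Pool.Agent.H376R2.MR (ch DP FK)
open Pool.Agent.helper24_UT.Win (ci AA kap AA_meas AA_norm ci_meas ci_norm pars kap_le kap_le' FK_mem FK_mono cs)

/-- the sum over the window in terms of the short sums in logarithmic scale; the weights do not depend on the coefficients -/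
lemma windowV {Y W u : ℕ} {h : ℝ} (hY : 1 ≤ Y) (hWY : W ≤ Y)
    (hu : Y ≤ u) (hu2 : u < 2 * Y) (hh : 0 < h) (hh1 : h ≤ 1) :
    ∃ ρ : ℕ → ℝ, (∀ n, |ρ n| ≤ 1) ∧
      (∀ n, 0 < n → ρ n ≠ 0 → n ∈ Ioc u (u + (⌊4 * Y * h⌋₊ + 1)) ∨ n ∈ Ioc (u + W - (⌊4 * Y * h⌋₊ + 1)) (u + W)) ∧
      ∀ (s : Finset ℕ) (a : ℕ → ℂ), (∀ n ∈ s, 0 < n) →
      ∑ n ∈ s.filter (fun n => u < n ∧ n ≤ u + W), a n = ((1 / h : ℝ) : ℂ) *
        (∫ x in Set.Icc (Real.log u) (Real.log (u + W : ℕ) - h), AA s a h x) + ∑ n ∈ s, a n * (ρ n : ℂ) := by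
  classical
  set I := Set.Icc (Real.log u) (Real.log (u + W : ℕ) - h) with hI
  have hIfin : volume I ≠ ⊤ := measure_Icc_lt_top.ne
  have hu0 : (0 : ℝ) < u := by exact_mod_cast (by omega : 0 < u)
  have huW0 : (0 : ℝ) < (u + W : ℕ) := by exact_mod_cast (by omega : 0 < u + W)
  have huR : (u : ℝ) ≤ 2 * Y := by exact_mod_cast hu2.le
  have huWR : ((u + W : ℕ) : ℝ) ≤ 3 * Y := by exact_mod_cast (by omega : u + W ≤ 3 * Y)
  have hYR : (1 : ℝ) ≤ Y := by exact_mod_cast hY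
  let w : ℕ → ℝ := fun n => volume.real (I ∩ Set.Ico (Real.log n - h) (Real.log n))
  refine ⟨fun n => (if u < n ∧ n ≤ u + W then 1 else 0) - w n / h, ?_, ?_, ?_⟩
  · intro n
    have w0 : 0 ≤ w n := measureReal_nonneg
    have wJ : volume.real (Set.Ico (Real.log n - h) (Real.log n)) = h := by
      rw [Real.volume_real_Ico, max_eq_left (by linarith)]
      ring
    have w1 : w n ≤ h := by
      rw [← wJ]
      exact measureReal_mono Set.inter_subset_right measure_Ico_lt_top.ne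
    have h1 : 0 ≤ w n / h := by positivity
    have h2 : w n / h ≤ 1 := (div_le_one hh).2 w1
    rw [abs_le]
    show -1 ≤ (if u < n ∧ n ≤ u + W then (1:ℝ) else 0) - w n / h ∧ (if u < n ∧ n ≤ u + W then (1:ℝ) else 0) - w n / h ≤ 1
    split_ifs <;> constructor <;> linarith
  · intro n hn0' hne
    have hn0 : (0 : ℝ) < n := by exact_mod_cast hn0'
    by_contra hb
    apply hne
    show (if u < n ∧ n ≤ u + W then (1:ℝ) else 0) - w n / h = 0
    rw [not_or, Finset.mem_Ioc, Finset.mem_Ioc] at hb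
    have wJ : volume.real (Set.Ico (Real.log n - h) (Real.log n)) = h := by
      rw [Real.volume_real_Ico, max_eq_left (by linarith)]
      ring
    by_cases hc : u < n ∧ n ≤ u + W
    · rw [if_pos hc]
      have h1 : ⌊4 * Y * h⌋₊ < n - u := by omega
      have h2 : ⌊4 * Y * h⌋₊ < u + W - n := by omega
      have h3 := Nat.lt_of_floor_lt h1
      have h4 := Nat.lt_of_floor_lt h2
      rw [Nat.cast_sub hc.1.le] at h3
      rw [Nat.cast_sub hc.2] at h4
      have h5 : Real.exp h ≤ 1 + 2 * h := by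
        have := Real.abs_exp_sub_one_le (x := h) (by rw [abs_of_pos hh]; exact hh1)
        rw [abs_of_pos hh] at this
        have := (abs_le.1 this).2
        linarith
      have h6 : Real.log u + h ≤ Real.log n := by
        have h7 : (u : ℝ) * Real.exp h ≤ n := by
          have h8 : (u : ℝ) * Real.exp h ≤ u * (1 + 2 * h) :=
            mul_le_mul_of_nonneg_left h5 hu0.le
          nlinarith
        have h8 := Real.log_le_log (by positivity) h7
        rwa [Real.log_mul hu0.ne' (Real.exp_pos h).ne', Real.log_exp] at h8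
      have h9 : Real.log n ≤ Real.log (u + W : ℕ) - h := by
        have h10 : (n : ℝ) ≤ (u + W : ℕ) * Real.exp (-h) := by
          have h11 := Real.add_one_le_exp (-h)
          have h12 : ((u + W : ℕ) : ℝ) * (-h + 1) ≤ (u + W : ℕ) * Real.exp (-h) :=
            mul_le_mul_of_nonneg_left h11 huW0.le
          have h13 : ((u + W : ℕ) : ℝ) * h ≤ 4 * Y * h := by
            apply mul_le_mul_of_nonneg_right _ hh.le
            linarith
          nlinarith
        have h11 := Real.log_le_log hn0 h10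
        rwa [Real.log_mul huW0.ne' (Real.exp_pos _).ne', Real.log_exp] at h11
      have h10 : I ∩ Set.Ico (Real.log n - h) (Real.log n) =
          Set.Ico (Real.log n - h) (Real.log n) := by
        apply Set.inter_eq_right.2
        intro x hx
        exact ⟨by linarith [hx.1], by linarith [hx.2]⟩
      have h11 : w n = h := by
        simp only [w]
        rw [h10, wJ]
      rw [h11, div_self hh.ne']
      ring
    · rw [if_neg hc]
      have h10 : I ∩ Set.Ico (Real.log n - h) (Real.log n) = ∅ := by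
        apply Set.eq_empty_of_forall_notMem
        rintro x ⟨hx1, hx2⟩
        rw [not_and_or, not_lt, not_le] at hc
        rcases hc with hc | hc
        · have h1 : Real.log n ≤ Real.log u := Real.log_le_log hn0 (by exact_mod_cast hc)
          linarith [hx1.1, hx2.2]
        · have h1 : Real.log (u + W : ℕ) < Real.log n :=
            Real.log_lt_log huW0 (by exact_mod_cast hc)
          linarith [hx1.2, hx2.1]
      have h11 : w n = 0 := by
        simp only [w]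
        rw [h10]
        simp
      rw [h11]
      simp
  · intro s a hs
    have hint : ∫ x in I, AA s a h x = ∑ n ∈ s, a n * (w n : ℂ) := by
      unfold AA
      rw [integral_finsetSum]
      · refine Finset.sum_congr rfl fun n _ => ?_
        rw [integral_const_mul]
        congr 1
        unfold ci
        rw [setIntegral_indicator measurableSet_Ico, setIntegral_const]
        simp only [w]
        rw [Complex.real_smul, mul_one]
      · intro n _
        refine Measure.integrableOn_of_bounded (M := ‖a n‖) hIfin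
          ((ci_meas _ _).const_mul _).aestronglyMeasurable ?_
        exact Filter.Eventually.of_forall fun x => by
          rw [norm_mul]
          exact mul_le_of_le_one_right (norm_nonneg _) (ci_norm _ _ _)
    rw [hint, mul_sum, ← sum_add_distrib, sum_filter]
    refine sum_congr rfl fun n _ => ?_
    show (if u < n ∧ n ≤ u + W then a n else 0) = ((1 / h : ℝ) : ℂ) * (a n * (w n : ℂ)) +
      a n * (((if u < n ∧ n ≤ u + W then (1:ℝ) else 0) - w n / h : ℝ) : ℂ)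
    split_ifs <;> push_cast <;> ring

/-- multiplicity of short intervals -/
lemma mult_le {ι : Finset ℕ} (s : Finset ℕ) (f : ℕ → ℝ) (hf : ∀ n, 0 ≤ f n) (β : ℕ) (v : ℕ → ℕ)
    (hv : ∀ n : ℕ, (ι.filter (fun u => v u < n ∧ n ≤ v u + β)).card ≤ β) :
    ∑ u ∈ ι, ∑ n ∈ s.filter (fun n => v u < n ∧ n ≤ v u + β), f n ≤ β * ∑ n ∈ s, f n := by
  classical
  have e1 : ∀ u ∈ ι, ∑ n ∈ s.filter (fun n => v u < n ∧ n ≤ v u + β), f n =
      ∑ n ∈ s, if v u < n ∧ n ≤ v u + β then f n else 0 := fun u _ => sum_filter _ _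
  rw [sum_congr rfl e1, sum_comm, mul_sum]
  refine sum_le_sum fun n _ => ?_
  rw [← sum_filter, sum_const, nsmul_eq_mul]
  apply mul_le_mul_of_nonneg_right _ (hf n)
  exact_mod_cast hv n

/-- the mean square over the windows of a dyadic interval -/
theorem winV : ∃ C : ℝ, 1 ≤ C ∧ ∀ (q Y W J K : ℕ) [NeZero q] (S : Finset (DirichletCharacter ℂ q))
    (s : Finset ℕ) (a : ℕ → ℂ), 1 ≤ J → 1 ≤ W → W ≤ Y → 1 ≤ K → (∀ n ∈ s, Y < 4 * n ∧ n ≤ 12 * Y) →
    ∑ u ∈ Ico Y (2 * Y), ∑ χ ∈ S, ‖∑ n ∈ s.filter (fun n => u < n ∧ n ≤ u + W), tc a χ n‖ ^ 2 ≤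
      C * ((W : ℝ) ^ 2 / Y * ∑ χ ∈ S, ∑ k ∈ FK K, ‖DP s (tc a χ) k‖ ^ 2 +
        (J : ℝ) ^ 2 * Y * ((Y : ℝ) / K ^ 2 + q / K) * En2 s a +
        ((W : ℝ) / J + 1 + q) * ((W : ℝ) / J + 1) * En2 s a) := by
  classical
  refine ⟨2 * (57344 * c0 + 1) + 300, by have := c0_pos; linarith, ?_⟩
  intro q Y W J K _ S s a hJ hW hWY hK hs
  have hc := c0_pos
  have hq0 : (0 : ℝ) ≤ q := Nat.cast_nonneg q
  have hY : 1 ≤ Y := hW.trans hWY
  have hYR : (1 : ℝ) ≤ Y := by exact_mod_cast hY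
  have hJR : (1 : ℝ) ≤ J := by exact_mod_cast hJ
  have hWR : (1 : ℝ) ≤ W := by exact_mod_cast hW
  have hKR : (1 : ℝ) ≤ K := by exact_mod_cast hK
  have hWYR : (W : ℝ) ≤ Y := by exact_mod_cast hWY
  have hs0 : ∀ n ∈ s, 0 < n := fun n hn => by have := hs n hn; omega
  have hE2 := En2_nonneg s a
  set h : ℝ := W / (J * Y) with hhdef
  have hh : 0 < h := by positivity
  have hh1 : h ≤ 1 := by
    rw [hhdef, div_le_one (by positivity)]
    nlinarith
  obtain ⟨lo, hlo⟩ : ∃ lo, lo = Real.log Y - Real.log 4 - h := ⟨_, rfl⟩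
  have hEn := energyV (q := q) hK hY s a hs S hh hh1 hlo
  set SS := ∑ χ ∈ S, ∑ k ∈ FK K, ‖DP s (tc a χ) k‖ ^ 2 with hSS
  set E := ∑ χ ∈ S, ∫ x in lo..(lo + 2 * Real.pi), ‖AA s (tc a χ) h x‖ ^ 2 with hE
  obtain ⟨β, hβ⟩ : ∃ β : ℕ, β = ⌊4 * Y * h⌋₊ + 1 := ⟨_, rfl⟩
  have hβ1 : (β : ℝ) ≤ 4 * (W / J) + 1 := by
    rw [hβ]
    push_cast
    have h1 := Nat.floor_le (show (0 : ℝ) ≤ 4 * Y * h by positivity)
    have h2 : 4 * (Y : ℝ) * h = 4 * (W / J) := by
      rw [hhdef]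
      field_simp
    linarith
  have hwin : ∀ u ∈ Ico Y (2 * Y), ∃ ρ : ℕ → ℝ, (∀ n, |ρ n| ≤ 1) ∧
      (∀ n, 0 < n → ρ n ≠ 0 → n ∈ Ioc u (u + β) ∨ n ∈ Ioc (u + W - β) (u + W)) ∧
      ∀ (s : Finset ℕ) (a : ℕ → ℂ), (∀ n ∈ s, 0 < n) →
      ∑ n ∈ s.filter (fun n => u < n ∧ n ≤ u + W), a n = ((1 / h : ℝ) : ℂ) *
        (∫ x in Set.Icc (Real.log u) (Real.log (u + W : ℕ) - h), AA s a h x) + ∑ n ∈ s, a n * (ρ n : ℂ) := by
    intro u hu
    rw [mem_Ico] at hu
    rw [hβ]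
    exact windowV hY hWY hu.1 hu.2 hh hh1
  -- one window
  have step : ∀ u ∈ Ico Y (2 * Y), ∑ χ ∈ S, ‖∑ n ∈ s.filter (fun n => u < n ∧ n ≤ u + W), tc a χ n‖ ^ 2 ≤
      2 * (1 / h ^ 2 * (J * h)) * ∑ χ ∈ S,
        (∫ x in Set.Icc (Real.log u) (Real.log (u + W : ℕ) - h), ‖AA s (tc a χ) h x‖ ^ 2) +
      4 * (((β : ℝ) + q) * ∑ n ∈ s.filter (fun n => u < n ∧ n ≤ u + β), ‖a n‖ ^ 2) +
      4 * (((β : ℝ) + q) * ∑ n ∈ s.filter (fun n => u + W - β < n ∧ n ≤ u + W - β + β), ‖a n‖ ^ 2) := by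
    intro u hu
    obtain ⟨ρ, hρ1, hρ2, hρ3⟩ := hwin u hu
    rw [mem_Ico] at hu
    set I := Set.Icc (Real.log u) (Real.log (u + W : ℕ) - h) with hI
    -- the error terms
    obtain ⟨s1, hs1⟩ : ∃ s1, s1 = s.filter (fun n => u < n ∧ n ≤ u + β) := ⟨_, rfl⟩
    obtain ⟨s2, hs2⟩ : ∃ s2, s2 = s.filter (fun n => (u + W - β < n ∧ n ≤ u + W - β + β) ∧ ¬ (u < n ∧ n ≤ u + β)) :=
      ⟨_, rfl⟩
    have herr : ∀ χ : DirichletCharacter ℂ q, ∑ n ∈ s, tc a χ n * (ρ n : ℂ) =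
        ∑ n ∈ s1, (a n * (ρ n : ℂ)) * χ (n : ZMod q) + ∑ n ∈ s2, (a n * (ρ n : ℂ)) * χ (n : ZMod q) := by
      intro χ
      rw [hs1, hs2, sum_filter, sum_filter, ← sum_add_distrib]
      refine sum_congr rfl fun n hn => ?_
      unfold tc
      by_cases h1 : u < n ∧ n ≤ u + β
      · rw [if_pos h1, if_neg (fun h => h.2 h1)]
        ring
      · rw [if_neg h1]
        by_cases h2 : u + W - β < n ∧ n ≤ u + W - β + β
        · rw [if_pos ⟨h2, h1⟩]
          ring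
        · rw [if_neg (fun h => h2 h.1)]
          have h3 : ρ n = 0 := by
            by_contra h4
            rcases hρ2 n (hs0 n hn) h4 with h5 | h5
            · rw [mem_Ioc] at h5
              exact h1 h5
            · rw [mem_Ioc] at h5
              apply h2
              omega
          rw [h3]
          push_cast
          ring
    have hl1 : ∑ χ ∈ S, ‖∑ n ∈ s1, (a n * (ρ n : ℂ)) * χ (n : ZMod q)‖ ^ 2 ≤
        ((β : ℝ) + q) * ∑ n ∈ s.filter (fun n => u < n ∧ n ≤ u + β), ‖a n‖ ^ 2 := by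
      refine (sum_le_sum_of_subset_of_nonneg (subset_univ S) fun _ _ _ => sq_nonneg _).trans ?_
      refine (l2_s s1 (fun n => a n * (ρ n : ℂ)) u β (by
        intro n hn
        rw [hs1, mem_filter] at hn
        rw [mem_Ioc]
        exact hn.2)).trans ?_
      rw [hs1]
      apply mul_le_mul_of_nonneg_left _ (by positivity)
      refine sum_le_sum fun n _ => ?_
      rw [norm_mul, Complex.norm_real, Real.norm_eq_abs, mul_pow]
      have h1 : |ρ n| ^ 2 ≤ 1 := pow_le_one₀ (abs_nonneg _) (hρ1 n)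
      exact mul_le_of_le_one_right (sq_nonneg _) h1
    have hl2 : ∑ χ ∈ S, ‖∑ n ∈ s2, (a n * (ρ n : ℂ)) * χ (n : ZMod q)‖ ^ 2 ≤
        ((β : ℝ) + q) * ∑ n ∈ s.filter (fun n => u + W - β < n ∧ n ≤ u + W - β + β), ‖a n‖ ^ 2 := by
      refine (sum_le_sum_of_subset_of_nonneg (subset_univ S) fun _ _ _ => sq_nonneg _).trans ?_
      refine (l2_s s2 (fun n => a n * (ρ n : ℂ)) (u + W - β) β (by
        intro n hn
        rw [hs2, mem_filter] at hn
        rw [mem_Ioc]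
        exact hn.2.1)).trans ?_
      apply mul_le_mul_of_nonneg_left _ (by positivity)
      refine le_trans (sum_le_sum (g := fun n => ‖a n‖ ^ 2) fun n _ => ?_) ?_
      · rw [norm_mul, Complex.norm_real, Real.norm_eq_abs, mul_pow]
        have h1 : |ρ n| ^ 2 ≤ 1 := pow_le_one₀ (abs_nonneg _) (hρ1 n)
        exact mul_le_of_le_one_right (sq_nonneg _) h1
      · apply sum_le_sum_of_subset_of_nonneg _ fun _ _ _ => sq_nonneg _
        intro n hn
        rw [hs2, mem_filter] at hn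
        rw [mem_filter]
        exact ⟨hn.1, hn.2.1⟩
    -- one character
    have hone : ∀ χ ∈ S, ‖∑ n ∈ s.filter (fun n => u < n ∧ n ≤ u + W), tc a χ n‖ ^ 2 ≤
        2 * (1 / h ^ 2 * (J * h)) * (∫ x in I, ‖AA s (tc a χ) h x‖ ^ 2) +
        4 * ‖∑ n ∈ s1, (a n * (ρ n : ℂ)) * χ (n : ZMod q)‖ ^ 2 +
        4 * ‖∑ n ∈ s2, (a n * (ρ n : ℂ)) * χ (n : ZMod q)‖ ^ 2 := by
      intro χ _
      have h1 := hρ3 s (tc a χ) hs0
      set F := ∫ x in I, AA s (tc a χ) h x with hF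
      have h2 : ‖F‖ ^ 2 ≤ (J * h) * ∫ x in I, ‖AA s (tc a χ) h x‖ ^ 2 := by
        refine cs (AA_meas _ _ _) (AA_norm _ _ _) measure_Icc_lt_top.ne (by positivity) ?_
        rw [hI, Real.volume_real_Icc]
        apply max_le _ (by positivity)
        have hu0 : (0 : ℝ) < u := by exact_mod_cast (by omega : 0 < u)
        have huW0 : (0 : ℝ) < (u + W : ℕ) := by exact_mod_cast (by omega : 0 < u + W)
        have h3 : Real.log (u + W : ℕ) - Real.log u ≤ W / u := by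
          rw [← Real.log_div huW0.ne' hu0.ne']
          have h4 := Real.log_le_sub_one_of_pos (show (0 : ℝ) < (u + W : ℕ) / u by positivity)
          have h5 : (((u + W : ℕ) : ℝ)) / u - 1 = W / u := by
            push_cast
            field_simp
            ring
          linarith
        have h4 : (W : ℝ) / u ≤ W / Y :=
          div_le_div_of_nonneg_left (by linarith) (by linarith) (by exact_mod_cast hu.1)
        have h5 : (J : ℝ) * h = W / Y := by
          rw [hhdef]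
          field_simp
        linarith
      rw [h1, herr χ]
      set A := ((1 / h : ℝ) : ℂ) * F with hA
      set B1 := ∑ n ∈ s1, (a n * (ρ n : ℂ)) * χ (n : ZMod q) with hB1
      set B2 := ∑ n ∈ s2, (a n * (ρ n : ℂ)) * χ (n : ZMod q) with hB2
      have h4 : ‖A‖ ^ 2 = 1 / h ^ 2 * ‖F‖ ^ 2 := by
        rw [hA, norm_mul, Complex.norm_real, Real.norm_eq_abs, mul_pow, sq_abs, div_pow, one_pow]
      have h5 : ‖A + (B1 + B2)‖ ≤ ‖A‖ + (‖B1‖ + ‖B2‖) :=
        (norm_add_le _ _).trans (add_le_add le_rfl (norm_add_le _ _))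
      have h6 : ‖A + (B1 + B2)‖ ^ 2 ≤ 2 * ‖A‖ ^ 2 + 4 * ‖B1‖ ^ 2 + 4 * ‖B2‖ ^ 2 := by
        have h7 := pow_le_pow_left₀ (norm_nonneg _) h5 2
        nlinarith [sq_nonneg (‖A‖ - (‖B1‖ + ‖B2‖)), sq_nonneg (‖B1‖ - ‖B2‖)]
      rw [h4] at h6
      have h7 : 1 / h ^ 2 * ‖F‖ ^ 2 ≤ 1 / h ^ 2 * ((J * h) * ∫ x in I, ‖AA s (tc a χ) h x‖ ^ 2) :=
        mul_le_mul_of_nonneg_left h2 (by positivity)
      calc ‖A + (B1 + B2)‖ ^ 2 ≤ 2 * (1 / h ^ 2 * ‖F‖ ^ 2) + 4 * ‖B1‖ ^ 2 + 4 * ‖B2‖ ^ 2 := h6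
        _ ≤ 2 * (1 / h ^ 2 * ((J * h) * ∫ x in I, ‖AA s (tc a χ) h x‖ ^ 2)) + 4 * ‖B1‖ ^ 2 + 4 * ‖B2‖ ^ 2 := by
            linarith
        _ = _ := by ring
    refine (sum_le_sum hone).trans ?_
    rw [sum_add_distrib, sum_add_distrib, ← mul_sum, ← mul_sum, ← mul_sum]
    have k1 := mul_le_mul_of_nonneg_left hl1 (show (0 : ℝ) ≤ 4 by norm_num)
    have k2 := mul_le_mul_of_nonneg_left hl2 (show (0 : ℝ) ≤ 4 by norm_num)
    linarith
  refine (sum_le_sum step).trans ?_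
  rw [sum_add_distrib, sum_add_distrib, ← mul_sum, ← mul_sum, ← mul_sum, ← mul_sum, ← mul_sum]
  have hov : ∑ u ∈ Ico Y (2 * Y), ∑ χ ∈ S,
      (∫ x in Set.Icc (Real.log u) (Real.log (u + W : ℕ) - h), ‖AA s (tc a χ) h x‖ ^ 2) ≤ W * E := by
    rw [sum_comm, hE, mul_sum]
    refine sum_le_sum fun χ _ => ?_
    exact overlapV (g := fun x => ‖AA s (tc a χ) h x‖ ^ 2) (M := (∑ n ∈ s, ‖tc a χ n‖) ^ 2) hY hWY hh hh1 hlo
      ((AA_meas _ _ _).norm.pow_const 2) (fun x => by positivity)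
      (fun x => pow_le_pow_left₀ (norm_nonneg _) (AA_norm _ _ _ _) 2)
  have hm1 : ∑ u ∈ Ico Y (2 * Y), ∑ n ∈ s.filter (fun n => u < n ∧ n ≤ u + β), ‖a n‖ ^ 2 ≤
      β * En2 s a := by
    refine mult_le s (fun n => ‖a n‖ ^ 2) (fun _ => sq_nonneg _) β (fun u => u) (fun n => ?_)
    have h1 : (Ico Y (2 * Y)).filter (fun u => u < n ∧ n ≤ u + β) ⊆ Ico (n - β) n := by
      intro u hu
      rw [mem_filter] at hu
      rw [mem_Ico]
      omega
    refine (card_le_card h1).trans ?_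
    rw [Nat.card_Ico]
    omega
  have hm2 : ∑ u ∈ Ico Y (2 * Y), ∑ n ∈ s.filter (fun n => u + W - β < n ∧ n ≤ u + W - β + β), ‖a n‖ ^ 2 ≤
      (2 * β + 1 : ℕ) * En2 s a := by
    have h0 : ∀ u ∈ Ico Y (2 * Y), ∑ n ∈ s.filter (fun n => u + W - β < n ∧ n ≤ u + W - β + β), ‖a n‖ ^ 2 ≤
        ∑ n ∈ s.filter (fun n => u + W - β < n ∧ n ≤ u + W - β + (2 * β + 1)), ‖a n‖ ^ 2 := by
      intro u _
      apply sum_le_sum_of_subset_of_nonneg _ fun _ _ _ => sq_nonneg _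
      intro n hn
      rw [mem_filter] at hn ⊢
      exact ⟨hn.1, hn.2.1, by omega⟩
    have h1 : ∀ n : ℕ, ((Ico Y (2 * Y)).filter (fun u => u + W - β < n ∧ n ≤ u + W - β + β)).card ≤ 2 * β + 1 := by
      intro n
      have h1 : (Ico Y (2 * Y)).filter (fun u => u + W - β < n ∧ n ≤ u + W - β + β) ⊆
          Icc (n - W) (n + β - W) ∪ Ico 0 β := by
        intro u hu
        rw [mem_filter] at hu
        rw [mem_union, mem_Icc, mem_Ico]
        by_cases hh' : β ≤ u + W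
        · left
          omega
        · right
          omega
      refine (card_le_card h1).trans ((card_union_le _ _).trans ?_)
      rw [Nat.card_Icc, Nat.card_Ico]
      omega
    have e1 : ∀ u ∈ Ico Y (2 * Y), ∑ n ∈ s.filter (fun n => u + W - β < n ∧ n ≤ u + W - β + β), ‖a n‖ ^ 2 =
        ∑ n ∈ s, if u + W - β < n ∧ n ≤ u + W - β + β then ‖a n‖ ^ 2 else 0 := fun u _ => sum_filter _ _
    rw [sum_congr rfl e1, sum_comm]
    unfold En2
    rw [mul_sum]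
    refine sum_le_sum fun n _ => ?_
    rw [← sum_filter, sum_const, nsmul_eq_mul]
    apply mul_le_mul_of_nonneg_right _ (sq_nonneg _)
    exact_mod_cast h1 n
  have c2 : 2 * (1 / h ^ 2 * (J * h)) * ∑ u ∈ Ico Y (2 * Y), ∑ χ ∈ S,
      (∫ x in Set.Icc (Real.log u) (Real.log (u + W : ℕ) - h), ‖AA s (tc a χ) h x‖ ^ 2) ≤
      2 * (1 / h ^ 2 * (J * h)) * (W * E) := mul_le_mul_of_nonneg_left hov (by positivity)
  have c3 : 2 * (1 / h ^ 2 * (J * h)) * (W * E) = 2 * (J ^ 2 * Y) * E := by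
    rw [hhdef]
    field_simp
  have c4 : 2 * ((J : ℝ) ^ 2 * Y) * E ≤ 2 * (J ^ 2 * Y) *
      (h ^ 2 * SS + 57344 * c0 * En2 s a * ((Y : ℝ) / K ^ 2 + q / K)) :=
    mul_le_mul_of_nonneg_left hEn (by positivity)
  have c5 : 2 * ((J : ℝ) ^ 2 * Y) * (h ^ 2 * SS + 57344 * c0 * En2 s a * ((Y : ℝ) / K ^ 2 + q / K)) =
      2 * ((W : ℝ) ^ 2 / Y * SS) + 2 * (57344 * c0) * ((J : ℝ) ^ 2 * Y * ((Y : ℝ) / K ^ 2 + q / K) * En2 s a) := by
    have : (J : ℝ) ^ 2 * Y * h ^ 2 = (W : ℝ) ^ 2 / Y := by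
      rw [hhdef]
      field_simp
    calc _ = 2 * ((J : ℝ) ^ 2 * Y * h ^ 2 * SS) +
          2 * (57344 * c0) * ((J : ℝ) ^ 2 * Y * ((Y : ℝ) / K ^ 2 + q / K) * En2 s a) := by ring
      _ = _ := by rw [this]
  have hβ0 : (0 : ℝ) ≤ β := Nat.cast_nonneg β
  have hWJ : 0 ≤ (W : ℝ) / J := by positivity
  have c6 : 4 * (((β : ℝ) + q) * ∑ u ∈ Ico Y (2 * Y), ∑ n ∈ s.filter (fun n => u < n ∧ n ≤ u + β), ‖a n‖ ^ 2) +
      4 * (((β : ℝ) + q) * ∑ u ∈ Ico Y (2 * Y),
        ∑ n ∈ s.filter (fun n => u + W - β < n ∧ n ≤ u + W - β + β), ‖a n‖ ^ 2) ≤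
      300 * (((W : ℝ) / J + 1 + q) * ((W : ℝ) / J + 1) * En2 s a) := by
    have k1 : ((β : ℝ) + q) ≤ 4 * ((W : ℝ) / J + 1 + q) := by linarith
    have k2 : (β : ℝ) ≤ 4 * ((W : ℝ) / J + 1) := by linarith
    have k3 : ((2 * β + 1 : ℕ) : ℝ) ≤ 9 * ((W : ℝ) / J + 1) := by
      push_cast
      linarith
    calc 4 * (((β : ℝ) + q) * ∑ u ∈ Ico Y (2 * Y), ∑ n ∈ s.filter (fun n => u < n ∧ n ≤ u + β), ‖a n‖ ^ 2) +
          4 * (((β : ℝ) + q) * ∑ u ∈ Ico Y (2 * Y),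
            ∑ n ∈ s.filter (fun n => u + W - β < n ∧ n ≤ u + W - β + β), ‖a n‖ ^ 2)
        ≤ 4 * ((4 * ((W : ℝ) / J + 1 + q)) * (4 * ((W : ℝ) / J + 1) * En2 s a)) +
          4 * ((4 * ((W : ℝ) / J + 1 + q)) * (9 * ((W : ℝ) / J + 1) * En2 s a)) := by
          have g1 : ∑ u ∈ Ico Y (2 * Y), ∑ n ∈ s.filter (fun n => u < n ∧ n ≤ u + β), ‖a n‖ ^ 2 ≤
              4 * ((W : ℝ) / J + 1) * En2 s a := hm1.trans (mul_le_mul_of_nonneg_right k2 hE2)
          have g2 : ∑ u ∈ Ico Y (2 * Y), ∑ n ∈ s.filter (fun n => u + W - β < n ∧ n ≤ u + W - β + β), ‖a n‖ ^ 2 ≤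
              9 * ((W : ℝ) / J + 1) * En2 s a := hm2.trans (mul_le_mul_of_nonneg_right k3 hE2)
          have g3 : 0 ≤ ∑ u ∈ Ico Y (2 * Y), ∑ n ∈ s.filter (fun n => u < n ∧ n ≤ u + β), ‖a n‖ ^ 2 :=
            sum_nonneg fun _ _ => sum_nonneg fun _ _ => sq_nonneg _
          have g4 : 0 ≤ ∑ u ∈ Ico Y (2 * Y), ∑ n ∈ s.filter (fun n => u + W - β < n ∧ n ≤ u + W - β + β), ‖a n‖ ^ 2 :=
            sum_nonneg fun _ _ => sum_nonneg fun _ _ => sq_nonneg _
          gcongr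
      _ = 208 * (((W : ℝ) / J + 1 + q) * ((W : ℝ) / J + 1) * En2 s a) := by ring
      _ ≤ _ := by
          apply mul_le_mul_of_nonneg_right (by norm_num)
          positivity
  have n1 : 0 ≤ (W : ℝ) ^ 2 / Y * SS :=
    mul_nonneg (by positivity) (Finset.sum_nonneg fun _ _ => Finset.sum_nonneg fun _ _ => by positivity)
  have n2 : 0 ≤ (J : ℝ) ^ 2 * Y * ((Y : ℝ) / K ^ 2 + q / K) * En2 s a := by positivity
  have n3 : 0 ≤ ((W : ℝ) / J + 1 + q) * ((W : ℝ) / J + 1) * En2 s a := by positivity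
  have n4 := mul_nonneg hc.le n1
  have n5 := mul_nonneg hc.le n3
  have n6 := mul_nonneg hc.le n2
  nlinarith

end Pool.Agent.H567.HW
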