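import Pool.Agent.H567.HW.WBase
import Pool.Graph.R_seed8.R460.GH.PrVec

/-!
Project HW (helper567), part 6: the decomposition of the primes for general vectors; the function `Λ`.
-/

set_option autoImplicit false

namespace Pool.Agent.H567.HW

open Finset
open Pool.Agent.R460.GS
open Pool.Agent.R460.GH
open Pool.Agent.Y614.GJ.Core (ev_log)

/-- sums over the classes -/
lemma cellsR {N A : ℕ} {R : ℝ} (hR : 0 ≤ R) (hL : 2 ≤ Real.log N) (f : ℕ → ℝ) (hf : ∀ j ∈ range (JJ N (A + 14)), f j ^ 2 ≤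
      R / Real.log N ^ (A + 2 * (A + 14) + 8)) :
      (∑ j ∈ range (JJ N (A + 14)), f j) ^ 2 ≤ R / Real.log N ^ (A + 4) := by
  have hJ := JJ_le (N := N) (U := A + 14) hL
  obtain ⟨L, hLd⟩ : ∃ L, L = Real.log (N : ℝ) := ⟨_, rfl⟩
  rw [← hLd] at hf hL hJ ⊢
  have hL0 : 0 < L := by linarith
  calc (∑ j ∈ range (JJ N (A + 14)), f j) ^ 2
      ≤ (range (JJ N (A + 14))).card * ∑ j ∈ range (JJ N (A + 14)), f j ^ 2 := sq_sum_le_card_mul_sum_sq
    _ ≤ (JJ N (A + 14) : ℝ) * ∑ j ∈ range (JJ N (A + 14)), R / L ^ (A + 2 * (A + 14) + 8) := by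
        rw [card_range]
        gcongr with j hj
        exact hf j hj
    _ = (JJ N (A + 14) : ℝ) * (JJ N (A + 14) : ℝ) * (R / L ^ (A + 2 * (A + 14) + 8)) := by
        rw [sum_const, card_range, nsmul_eq_mul]
        ring
    _ ≤ (L ^ (A + 14 + 2)) * (L ^ (A + 14 + 2)) * (R / L ^ (A + 2 * (A + 14) + 8)) := by gcongr
    _ = R / L ^ (A + 4) := by
        have e : L ^ (A + 2 * (A + 14) + 8) = L ^ (A + 14 + 2) * L ^ (A + 14 + 2) * L ^ (A + 4) := by ring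
        have e0 : L ^ (A + 14 + 2) ≠ 0 := by positivity
        have e1 : L ^ (A + 4) ≠ 0 := by positivity
        rw [e]
        generalize L ^ (A + 14 + 2) = X at e0 ⊢
        generalize L ^ (A + 4) = Y at e1 ⊢
        field_simp

open Classical in
/-- reduction to sums of types I and II -/
lemma pr_abs (A k : ℕ) (hk : 12 ≤ k) : ∃ N₀ : ℕ, ∀ N : ℕ, N₀ ≤ N → ∀ (V : Type) [NormedAddCommGroup V] [NormedSpace ℂ V]
    (E : ℕ → V) (Q : ℝ), 0 ≤ Q →
    (∀ w : ℕ → ℂ, ‖∑ n ∈ Icc 1 N, (w n) • E n‖ ^ 2 ≤ Q * ∑ n ∈ Icc 1 N, ‖w n‖ ^ 2) →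
    (‖∑ m ∈ Icc 1 N, (op (Zk k N) (Pk k N) (af (mu1 (Wk k N) (Wk k N))) m) • ∑ b ∈ Icc 1 (N / m), E (b * m)‖ ^ 2 ≤
      (N : ℝ) * Q / Real.log N ^ (A + 4)) →
    (∀ j ∈ range (JJ N (A + 14)), ‖∑ m ∈ Icc 1 N, ∑ l ∈ Icc 1 (N / m),
      (a2 (Wk k N) (Wk k N) (cc N (A + 14)) j m *
        op (Zk k N) (Pk k N) (af (b2 (Wk k N) (cc N (A + 14)) j)) l) • E (m * l)‖ ^ 2 ≤
        (N : ℝ) * Q / Real.log N ^ (A + 2 * (A + 14) + 8)) →
    (∀ j ∈ range (JJ N (A + 14)), ‖∑ m ∈ Icc 1 N, ∑ l ∈ Icc 1 (N / m),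
      (a1 (Wk k N) (Zk k N) (cc N (A + 14)) j m *
        op (Zk k N) (Pk k N) (af (b1 (cc N (A + 14)) j)) l) • E (m * l)‖ ^ 2 ≤
        (N : ℝ) * Q / Real.log N ^ (A + 2 * (A + 14) + 8)) →
    ‖∑ n ∈ Icc 1 N, (if n.Prime then (1 : ℂ) else 0) • E n‖ ^ 2 ≤ (N : ℝ) * Q / Real.log N ^ A := by
  obtain ⟨N₀, hN₀⟩ := Filter.eventually_atTop.1 (ev_log (A + 5) (s := 1 / 3) (by norm_num) 20000)
  refine ⟨max N₀ 64, fun N hN V _ _ E Q hQ h1 t1 t2 t3 => ?_⟩
  have hN64 : 64 ≤ N := le_trans (le_max_right _ _) hN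
  have hN1 : 1 ≤ N := by omega
  have hN0 : (0 : ℝ) < N := by exact_mod_cast hN1
  have hNr1 : (1 : ℝ) ≤ N := by exact_mod_cast hN1
  obtain ⟨hL, hLp⟩ := hN₀ N (le_trans (le_max_left _ _) hN)
  have hcube := Zk_cube (k := k) hN1
  have hdec := j2 (V := V) (W := Wk k N) (Z := Zk k N) (P := Pk k N)
    (D := Wk k N) (J := JJ N (A + 14)) (y := N) E (cc N (A + 14))
    (fun m hm => cc_lt hm.1.one_le (hm.2.2.trans (Zk_le hk hN1)) (by linarith))
    (fun m hm => by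
      have h2 := sm_le (one_le_Wk hN1) hm.1 hm.2.1 hm.2.2
      exact cc_lt (by omega) (h2.1.trans ((Wk_le hN1).trans (Zk_le hk hN1))) (by linarith))
  have herr : ‖∑ n ∈ Icc 1 N, (op (Zk k N) (Pk k N)
      (af (fun n => ((er (Wk k N) (Zk k N) (Wk k N) (cc N (A + 14)) n : ℝ) : ℂ))) n) • E n‖ ^ 2 ≤
      (N : ℝ) * Q / Real.log N ^ (A + 4) := by
    have e2 : ∑ n ∈ Icc 1 N, ‖op (Zk k N) (Pk k N)
        (af (fun n => ((er (Wk k N) (Zk k N) (Wk k N) (cc N (A + 14)) n : ℝ) : ℂ))) n‖ ^ 2 ≤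
        4 * (64 * (Real.log N ^ (A + 14))⁻¹ * N * (1 + Real.log N) ^ 5) := by
      refine le_trans ?_ (mul_le_mul_of_nonneg_left (tw_sum (δ := (Real.log N ^ (A + 14))⁻¹) (by
        have : 0 < Real.log N := by linarith
        positivity) N) (by norm_num))
      rw [mul_sum]
      refine sum_le_sum fun n hn => ?_
      rw [mem_Icc] at hn
      refine (pow_le_pow_left₀ (norm_nonneg _) (er_op (Wk_le hN1) (one_le_Wk hN1) hn.1 hn.2 hcube _
        (fun a b ha hab => ci_mono (by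
          have : 0 < Real.log N := by linarith
          positivity) a b ha hab)) 2).trans (le_of_eq ?_)
      rw [mul_pow]
      norm_num
    refine (h1 _).trans ((mul_le_mul_of_nonneg_left e2 hQ).trans ?_)
    obtain ⟨L, hLd⟩ : ∃ L, L = Real.log (N : ℝ) := ⟨_, rfl⟩
    rw [← hLd] at hL ⊢
    have hL0 : 0 < L := by linarith
    calc Q * (4 * (64 * (L ^ (A + 14))⁻¹ * N * (1 + L) ^ 5))
        ≤ Q * (4 * (64 * (L ^ (A + 14))⁻¹ * N * (2 * L) ^ 5)) := by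
          gcongr
          linarith
      _ = (N : ℝ) * Q / L ^ (A + 4) * (8192 / L ^ 5) := by
          rw [show A + 14 = (A + 4) + 5 + 5 by ring, pow_add, pow_add L (A + 4) 5]
          field_simp
          ring
      _ ≤ (N : ℝ) * Q / L ^ (A + 4) * 1 := by
          have h5 : 8192 / L ^ 5 ≤ 1 := by
            rw [div_le_one (by positivity)]
            calc (8192 : ℝ) ≤ L := by linarith
              _ = L ^ 1 := (pow_one L).symm
              _ ≤ L ^ 5 := pow_le_pow_right₀ (by linarith) (by norm_num)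
          gcongr
      _ = _ := mul_one _
  have hsp : ‖∑ n ∈ Icc 1 N, (F1 (Zk k N) (Pk k N) n - (if n.Prime then 1 else 0)) • E n‖ ^ 2 ≤
      (N : ℝ) * Q / Real.log N ^ (A + 4) := by
    have e1 := F1_sq (Z := Zk k N) (P := Pk k N) (N := N) rfl (Zk_le_Pk hk hN64) le_rfl hcube
    have e2 : 9 * ((Pk k N : ℝ) + Nat.sqrt N) ≤ 18 * (N : ℝ) ^ (2 / 3 : ℝ) := by
      have h2 : (Pk k N : ℝ) ≤ (N : ℝ) ^ (2 / 3 : ℝ) := (Pk_real hN1).trans
        (Real.rpow_le_rpow_of_exponent_le hNr1 (by have := (inv_k hk).1; linarith))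
      have h3 := sqrt_real hN1
      linarith
    refine (h1 _).trans ((mul_le_mul_of_nonneg_left (e1.trans e2) hQ).trans ?_)
    obtain ⟨L, hLd⟩ : ∃ L, L = Real.log (N : ℝ) := ⟨_, rfl⟩
    rw [← hLd] at hL hLp ⊢
    have hL0 : 0 < L := by linarith
    rw [le_div_iff₀ (by positivity)]
    calc Q * (18 * (N : ℝ) ^ (2 / 3 : ℝ)) * L ^ (A + 4)
        = Q * ((N : ℝ) ^ (2 / 3 : ℝ) * (18 * L ^ (A + 4))) := by ring
      _ ≤ Q * ((N : ℝ) ^ (2 / 3 : ℝ) * (N : ℝ) ^ (1 / 3 : ℝ)) := by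
          have : 18 * L ^ (A + 4) ≤ (N : ℝ) ^ (1 / 3 : ℝ) := by
            refine le_trans ?_ hLp
            calc 18 * L ^ (A + 4) ≤ L * L ^ (A + 4) := by gcongr; linarith
              _ = L ^ (A + 5) := by ring
          gcongr
      _ = (N : ℝ) * Q := by
          rw [← Real.rpow_add hN0]
          norm_num
          ring
  have hfin : ‖∑ n ∈ Icc 1 N, (if n.Prime then (1 : ℂ) else 0) • E n‖ ≤
      ‖∑ n ∈ Icc 1 N, (F1 (Zk k N) (Pk k N) n) • E n‖ +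
      ‖∑ n ∈ Icc 1 N, (F1 (Zk k N) (Pk k N) n - (if n.Prime then 1 else 0)) • E n‖ := by
    have e1 : ∑ n ∈ Icc 1 N, (if n.Prime then (1 : ℂ) else 0) • E n =
        ∑ n ∈ Icc 1 N, (F1 (Zk k N) (Pk k N) n) • E n -
        ∑ n ∈ Icc 1 N, (F1 (Zk k N) (Pk k N) n - (if n.Prime then 1 else 0)) • E n := by
      rw [← sum_sub_distrib]
      refine sum_congr rfl fun n _ => ?_
      rw [← sub_smul]
      congr 1
      ring
    rw [e1]
    exact norm_sub_le _ _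
  have hNQ : 0 ≤ (N : ℝ) * Q := by positivity
  have k2 := cellsR hNQ (by linarith) _ t2
  have k3 := cellsR hNQ (by linarith) _ t3
  have hall := five_sq (norm_nonneg _) (hfin.trans (add_le_add hdec le_rfl)) t1 k2 k3 herr hsp
  refine hall.trans ?_
  obtain ⟨L, hLd⟩ : ∃ L, L = Real.log (N : ℝ) := ⟨_, rfl⟩
  rw [← hLd] at hL ⊢
  have hL0 : 0 < L := by linarith
  calc 25 * ((N : ℝ) * Q / L ^ (A + 4)) = (N : ℝ) * Q / L ^ A * (25 / L ^ 4) := by
        rw [pow_add]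
        field_simp
    _ ≤ (N : ℝ) * Q / L ^ A * 1 := by
        have h5 : 25 / L ^ 4 ≤ 1 := by
          rw [div_le_one (by positivity)]
          calc (25 : ℝ) ≤ L := by linarith
            _ = L ^ 1 := (pow_one L).symm
            _ ≤ L ^ 4 := pow_le_pow_right₀ (by linarith) (by norm_num)
        gcongr
    _ = _ := mul_one _


end Pool.Agent.H567.HW
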